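import Mathlib
import Pool.Agent.W387.SqGrp

/-!
Right-angled Coxeter groups: walls, sides, centralizers of generators.
-/

set_option autoImplicit false

namespace Pool.Agent.Helper2GI

open Pool.Agent.W387

/-- A commutation graph on a set of generators. -/
structure RA (E : Type) where
  adj : E → E → Prop
  symm : ∀ {a b : E}, adj a b → adj b a
  irr : ∀ a : E, ¬ adj a a

namespace RA

variable {E : Type} (G : RA E)

open Classical in
/-- the square system of a right-angled Coxeter group -/
noncomputable def sys : SqSys E where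
  inv := id
  inv_inv := fun _ => rfl
  sq := fun a b => if G.adj a b then some (b, a) else none
  symm := by
    intro a b p q h
    by_cases hab : G.adj a b
    · rw [if_pos hab] at h
      rw [if_pos (G.symm hab)]
      simp only [Option.some.injEq, Prod.mk.injEq] at h ⊢
      exact ⟨h.2, h.1⟩
    · rw [if_neg hab] at h; cases h
  rot := by
    intro a b p q h
    by_cases hab : G.adj a b
    · rw [if_pos hab] at h
      simp only [Option.some.injEq, Prod.mk.injEq] at h
      obtain ⟨rfl, rfl⟩ := h
      simp only [id]
      rw [if_pos hab]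
    · rw [if_neg hab] at h; cases h
  irrefl := fun a => if_neg (G.irr a)
  cube := by
    intro a b c b1 a1 c1 b2 c2 a2 h1 h2 h3
    by_cases hab : G.adj a b
    · by_cases hbc : G.adj b c
      · by_cases hac : G.adj a c
        · rw [if_pos hab] at h1
          rw [if_pos hbc] at h2
          rw [if_pos hac] at h3
          simp only [Option.some.injEq, Prod.mk.injEq] at h1 h2 h3
          obtain ⟨rfl, rfl⟩ := h1
          obtain ⟨rfl, rfl⟩ := h2
          obtain ⟨rfl, rfl⟩ := h3
          exact ⟨a, b, c, if_pos hbc, if_pos hac, if_pos hab⟩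
        · rw [if_neg hac] at h3; cases h3
      · rw [if_neg hbc] at h2; cases h2
    · rw [if_neg hab] at h1; cases h1

/-- the right-angled Coxeter group -/
abbrev W : Type := G.sys.Grp

/-- generators -/
noncomputable def g (a : E) : G.W := G.sys.gn a

/-- evaluation of words -/
noncomputable def ev (m : List E) : G.W := SqSys.evL (S := G.sys) m

/-- word length -/
noncomputable def len (x : G.W) : ℕ := SqSys.len (S := G.sys) x

/-- reduced words -/
def Red (m : List E) : Prop := G.sys.Red m

variable {G}

theorem sq_adj {a b : E} (h : G.adj a b) : G.sys.sq a b = some (b, a) := by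
  unfold sys
  exact if_pos h

theorem adj_of_sq {a b p q : E} (h : G.sys.sq a b = some (p, q)) : G.adj a b ∧ p = b ∧ q = a := by
  unfold sys at h
  by_cases hab : G.adj a b
  · simp only at h
    rw [if_pos hab] at h
    simp only [Option.some.injEq, Prod.mk.injEq] at h
    exact ⟨hab, h.1.symm, h.2.symm⟩
  · simp only at h
    rw [if_neg hab] at h; cases h

theorem gg (a : E) : G.g a * G.g a = 1 := by
  have h := SqSys.gn_inv (S := G.sys) a
  have h2 : G.sys.inv a = a := rfl
  rw [h2] at h
  show G.sys.gn a * G.sys.gn a = 1
  nth_rw 1 [h]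
  exact inv_mul_cancel _

theorem g_inv (a : E) : (G.g a)⁻¹ = G.g a := inv_eq_of_mul_eq_one_right (gg a)

theorem gcomm {a b : E} (h : G.adj a b) : G.g a * G.g b = G.g b * G.g a :=
  SqSys.gn_sq (sq_adj h)

@[simp] theorem ev_nil : G.ev [] = 1 := rfl

@[simp] theorem ev_cons (a : E) (m : List E) : G.ev (a :: m) = G.g a * G.ev m :=
  SqSys.evL_cons a m

@[simp] theorem ev_append (m m' : List E) : G.ev (m ++ m') = G.ev m * G.ev m' := by
  induction m with
  | nil => simp
  | cons a m ih => rw [List.cons_append, ev_cons, ev_cons, ih, mul_assoc]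

theorem ev_single (a : E) : G.ev [a] = G.g a := by rw [ev_cons, ev_nil, mul_one]

/-- homomorphisms out of the group -/
noncomputable def hom {K : Type} [Group K] (f : E → K) (h1 : ∀ a, f a * f a = 1)
    (h2 : ∀ a b, G.adj a b → f a * f b = f b * f a) : G.W →* K :=
  SqSys.lift (S := G.sys) f (fun a => (inv_eq_of_mul_eq_one_right (h1 a)).symm)
    (fun a b p q h => by
      obtain ⟨hab, rfl, rfl⟩ := adj_of_sq h
      exact h2 _ _ hab)

@[simp] theorem hom_g {K : Type} [Group K] (f : E → K) (h1 : ∀ a, f a * f a = 1)
    (h2 : ∀ a b, G.adj a b → f a * f b = f b * f a) (a : E) : hom f h1 h2 (G.g a) = f a :=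
  SqSys.lift_gn _ _ _ a

theorem ind {P : G.W → Prop} (h1 : P 1) (h2 : ∀ a x, P x → P (G.g a * x)) (x : G.W) : P x :=
  SqSys.grp_induction h1 h2 x

theorem exists_red (x : G.W) : ∃ m, G.Red m ∧ G.ev m = x := SqSys.exists_red x

theorem len_ev (m : List E) (h : G.Red m) : G.len (G.ev m) = m.length := SqSys.len_evL m h

theorem len_one : G.len 1 = 0 := SqSys.len_one

theorem len_g_mul (a : E) (x : G.W) :
    (G.len (G.g a * x) = G.len x + 1) ∨ (G.len (G.g a * x) + 1 = G.len x) :=
  SqSys.len_gn_mul a x

theorem len_ev_le (m : List E) : G.len (G.ev m) ≤ m.length := by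
  induction m with
  | nil => rw [ev_nil, len_one]; simp
  | cons a m ih =>
    rw [ev_cons, List.length_cons]
    rcases len_g_mul a (G.ev m) with h | h <;> omega

theorem Red.tail {a : E} {m : List E} (h : G.Red (a :: m)) : G.Red m := SqSys.Red.tail h

theorem red_nil : G.Red [] := SqSys.red_nil

/-- a word is reduced if its length is the length of its value -/
theorem red_of_len : ∀ (m : List E), G.len (G.ev m) = m.length → G.Red m := by
  intro m
  induction m with
  | nil => exact fun _ => red_nil
  | cons a m ih =>
    intro h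
    rw [ev_cons, List.length_cons] at h
    have h1 := len_ev_le (G := G) m
    have h2 : G.len (G.ev m) = m.length := by
      rcases len_g_mul a (G.ev m) with h3 | h3 <;> omega
    have hm := ih h2
    by_contra hn
    obtain ⟨m', e⟩ := SqSys.exists_tail (S := G.sys) hm hn
    have e1 : G.g a * G.ev m = G.ev m' := by
      have : G.ev m = G.ev (a :: m') := SqSys.evL_E e
      rw [this, ev_cons, ← mul_assoc, gg, one_mul]
    rw [e1] at h
    have h4 := len_ev_le (G := G) m'
    have h5 : m.length = m'.length + 1 := by
      have := SqSys.E.length e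
      simpa using this
    omega

theorem red_iff (m : List E) : G.Red m ↔ G.len (G.ev m) = m.length :=
  ⟨len_ev m, red_of_len m⟩

theorem ev_reverse (m : List E) : G.ev m.reverse = (G.ev m)⁻¹ := by
  induction m with
  | nil => simp
  | cons a m ih => rw [List.reverse_cons, ev_append, ih, ev_single, ev_cons, mul_inv_rev, g_inv]

theorem len_inv (x : G.W) : G.len x⁻¹ = G.len x := by
  have key : ∀ y : G.W, G.len y⁻¹ ≤ G.len y := by
    intro y
    obtain ⟨m, hm, rfl⟩ := exists_red y
    rw [len_ev m hm, ← ev_reverse]
    have := len_ev_le (G := G) m.reverse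
    simpa using this
  refine le_antisymm (key x) ?_
  have := key x⁻¹
  rwa [inv_inv] at this

theorem len_mul_le (x y : G.W) : G.len (x * y) ≤ G.len x + G.len y := by
  obtain ⟨m, hm, rfl⟩ := exists_red x
  obtain ⟨m', hm', rfl⟩ := exists_red y
  rw [len_ev m hm, len_ev m' hm', ← ev_append]
  have := len_ev_le (G := G) (m ++ m')
  simpa using this

/-! ### Parity of generators -/

open Classical in
/-- the parity of the number of occurrences of `a` -/
noncomputable def par (a : E) : G.W →* Multiplicative (ZMod 2) :=
  hom (fun b => if b = a then Multiplicative.ofAdd 1 else 1)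
    (fun b => by
      split_ifs
      · rw [← ofAdd_add]; rfl
      · exact one_mul 1)
    (fun b c _ => mul_comm _ _)

theorem par_self (a : E) : par a (G.g a) ≠ 1 := by
  unfold par
  rw [hom_g, if_pos rfl]
  decide

theorem par_ne {a b : E} (h : b ≠ a) : par a (G.g b) = 1 := by
  unfold par
  rw [hom_g, if_neg h]

theorem conj_eq {a b : E} {x y : G.W} (h : x * G.g a * x⁻¹ = y * G.g b * y⁻¹) : a = b := by
  by_contra hn
  have h1 := congrArg (par a) h
  simp only [map_mul, map_inv] at h1
  rw [mul_inv_cancel_comm, mul_inv_cancel_comm, par_ne (Ne.symm hn)] at h1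
  exact par_self a h1

theorem conj_eq' {a b : E} {x : G.W} (h : x * G.g a * x⁻¹ = G.g b) : a = b := by
  refine conj_eq (x := x) (y := 1) ?_
  rw [h]
  group

theorem g_inj {a b : E} (h : G.g a = G.g b) : a = b :=
  conj_eq (G := G) (x := 1) (y := 1) (by rw [h])

/-! ### Sides of walls -/

open Classical in
/-- the permutation of a generator on pairs -/
noncomputable def swp (a : E) : Equiv.Perm (G.W × ZMod 2) where
  toFun := fun p => (G.g a * p.1 * G.g a, p.2 + if p.1 = G.g a then 1 else 0)
  invFun := fun p => (G.g a * p.1 * G.g a, p.2 + if p.1 = G.g a then 1 else 0)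
  left_inv := by
    rintro ⟨t, e⟩
    have h1 : G.g a * (G.g a * t * G.g a) * G.g a = t := by
      rw [show G.g a * (G.g a * t * G.g a) * G.g a = (G.g a * G.g a) * t * (G.g a * G.g a) by
        group, gg, one_mul, mul_one]
    have h2 : (G.g a * t * G.g a = G.g a) ↔ t = G.g a := by
      constructor
      · intro h
        rw [h, gg, one_mul] at h1
        exact h1.symm
      · rintro rfl
        rw [gg, one_mul]
    simp only [h1, h2, Prod.mk.injEq, true_and]
    split_ifs
    · rw [add_assoc, show (1 : ZMod 2) + 1 = 0 from rfl, add_zero]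
    · simp
  right_inv := by
    rintro ⟨t, e⟩
    have h1 : G.g a * (G.g a * t * G.g a) * G.g a = t := by
      rw [show G.g a * (G.g a * t * G.g a) * G.g a = (G.g a * G.g a) * t * (G.g a * G.g a) by
        group, gg, one_mul, mul_one]
    have h2 : (G.g a * t * G.g a = G.g a) ↔ t = G.g a := by
      constructor
      · intro h
        rw [h, gg, one_mul] at h1
        exact h1.symm
      · rintro rfl
        rw [gg, one_mul]
    simp only [h1, h2, Prod.mk.injEq, true_and]
    split_ifs
    · rw [add_assoc, show (1 : ZMod 2) + 1 = 0 from rfl, add_zero]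
    · simp

open Classical in
theorem swp_apply (a : E) (t : G.W) (e : ZMod 2) :
    swp a (t, e) = (G.g a * t * G.g a, e + if t = G.g a then 1 else 0) := rfl

variable (G) in
/-- the action on pairs -/
noncomputable def Phi : G.W →* Equiv.Perm (G.W × ZMod 2) :=
  hom swp
    (fun a => by
      ext1 p
      exact (swp a).left_inv p)
    (fun a b hab => by
      classical
      ext1 ⟨t, e⟩
      rw [Equiv.Perm.mul_apply, Equiv.Perm.mul_apply, swp_apply, swp_apply, swp_apply, swp_apply]
      have hc := gcomm hab
      have h1 : G.g a * (G.g b * t * G.g b) * G.g a = G.g b * (G.g a * t * G.g a) * G.g b := by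
        calc G.g a * (G.g b * t * G.g b) * G.g a
            = (G.g a * G.g b) * t * (G.g b * G.g a) := by group
          _ = (G.g b * G.g a) * t * (G.g a * G.g b) := by rw [hc]
          _ = _ := by group
      have key : ∀ {a b : E}, G.adj a b → ((G.g b * t * G.g b = G.g a) ↔ t = G.g a) := by
        intro a b hab
        have hc := gcomm hab
        constructor
        · intro h
          have : t = G.g b * (G.g b * t * G.g b) * G.g b := by
            rw [show G.g b * (G.g b * t * G.g b) * G.g b = (G.g b * G.g b) * t * (G.g b * G.g b) by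
              group, gg, one_mul, mul_one]
          rw [this, h, ← hc, mul_assoc, gg, mul_one]
        · rintro rfl
          rw [← hc, mul_assoc, gg, mul_one]
      rw [h1]
      simp only [key hab, key (G.symm hab), Prod.mk.injEq, true_and]
      rw [add_assoc, add_assoc, add_comm (if t = G.g b then (1 : ZMod 2) else 0)])

theorem Phi_g (a : E) : G.Phi (G.g a) = swp a := by
  unfold Phi
  rw [hom_g]

theorem Phi_apply (x : G.W) : ∀ (t : G.W) (e : ZMod 2),
    G.Phi x (t, e) = (x * t * x⁻¹, e + (G.Phi x (t, 0)).2) := by
  classical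
  induction x using ind with
  | h1 => intro t e; simp
  | h2 a x ih =>
    intro t e
    rw [map_mul, Equiv.Perm.mul_apply, Equiv.Perm.mul_apply, ih t e, ih t 0, Phi_g, swp_apply,
      swp_apply]
    simp only [Prod.mk.injEq, zero_add]
    constructor
    · rw [mul_inv_rev, g_inv]
      group
    · rw [add_assoc]

/-- the parity of the number of times a path from `1` to `x` crosses the wall of `t` -/
noncomputable def side (x t : G.W) : ZMod 2 := (G.Phi x⁻¹ (t, 0)).2

theorem side_one (t : G.W) : side 1 t = 0 := by
  unfold side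
  simp

theorem side_mul (x y t : G.W) : side (x * y) t = side x t + side y (x⁻¹ * t * x) := by
  unfold side
  rw [mul_inv_rev, map_mul, Equiv.Perm.mul_apply, Phi_apply x⁻¹ t 0, Phi_apply y⁻¹ _ (0 + _)]
  simp only [inv_inv, zero_add]

open Classical in
theorem side_g (a : E) (t : G.W) : side (G.g a) t = if t = G.g a then 1 else 0 := by
  unfold side
  rw [g_inv, Phi_g, swp_apply, zero_add]

open Classical in
theorem side_mul_g (x : G.W) (a : E) (t : G.W) :
    side (x * G.g a) t = side x t + if x⁻¹ * t * x = G.g a then 1 else 0 := by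
  rw [side_mul, side_g]

theorem side_conj (x y t : G.W) : side (x * y) (x * t * x⁻¹) = side x (x * t * x⁻¹) + side y t := by
  rw [side_mul]
  congr 2
  group

theorem zmod2_cases (e : ZMod 2) : e = 0 ∨ e = 1 := by
  revert e
  decide

/-- deletion -/
theorem del : ∀ (m : List E) (t : G.W), side (G.ev m) t ≠ 0 →
    (∃ x a, t = x * G.g a * x⁻¹) ∧ ∃ m' : List E, m'.length + 1 = m.length ∧
      G.ev m' = t * G.ev m := by
  classical
  intro m
  induction m with
  | nil => intro t h; rw [ev_nil, side_one] at h; exact absurd rfl h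
  | cons a m ih =>
    intro t h
    rw [ev_cons, side_mul, side_g] at h
    by_cases hta : t = G.g a
    · subst hta
      refine ⟨⟨1, a, by group⟩, m, rfl, ?_⟩
      rw [ev_cons, ← mul_assoc, gg, one_mul]
    · rw [if_neg hta, zero_add] at h
      obtain ⟨⟨x, b, hx⟩, m', h1, h2⟩ := ih _ h
      refine ⟨⟨G.g a * x, b, ?_⟩, a :: m', by simp [h1], ?_⟩
      · have : t = G.g a * ((G.g a)⁻¹ * t * G.g a) * (G.g a)⁻¹ := by group
        rw [this, hx]
        group
      · rw [ev_cons, h2, ev_cons]
        group

theorem refl_sq {x t : G.W} (h : side x t ≠ 0) : t * t = 1 := by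
  obtain ⟨m, hm, rfl⟩ := exists_red x
  obtain ⟨⟨y, a, rfl⟩, _⟩ := del m t h
  calc y * G.g a * y⁻¹ * (y * G.g a * y⁻¹) = y * (G.g a * G.g a) * y⁻¹ := by group
    _ = 1 := by rw [gg]; group

theorem refl_form {x t : G.W} (h : side x t ≠ 0) : ∃ y a, t = y * G.g a * y⁻¹ := by
  obtain ⟨m, hm, rfl⟩ := exists_red x
  exact (del m t h).1

theorem len_refl_mul {x t : G.W} (h : side x t ≠ 0) : G.len (t * x) < G.len x := by
  obtain ⟨m, hm, rfl⟩ := exists_red x
  obtain ⟨_, m', h1, h2⟩ := del m t h
  rw [← h2, len_ev m hm]
  have := len_ev_le (G := G) m'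
  omega

/-- along a geodesic, a wall that has been crossed is not crossed again -/
theorem cross_once {x y : G.W} (hl : G.len (x * y) = G.len x + G.len y) {t : G.W}
    (h : side x t ≠ 0) : side (x * y) t ≠ 0 := by
  intro h0
  have ht := refl_sq h
  have h1 : side y (x⁻¹ * t * x) ≠ 0 := by
    intro h2
    rw [side_mul, h2, add_zero] at h0
    exact h h0
  have h2 := len_refl_mul h
  have h3 := len_refl_mul h1
  have h4 : x * y = (t * x) * (x⁻¹ * t * x * y) := by
    calc x * y = (t * t) * (x * y) := by rw [ht, one_mul]
      _ = _ := by group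
  have h5 := len_mul_le (t * x) (x⁻¹ * t * x * y)
  rw [← h4] at h5
  omega

/-- points on a geodesic between two points on the same side -/
theorem side_between {x y z : G.W} (hl : G.len (y * z) = G.len y + G.len z) {t : G.W}
    (h : side x t = side (x * (y * z)) t) : side (x * y) t = side x t := by
  by_contra hn
  have h1 : side y (x⁻¹ * t * x) ≠ 0 := by
    intro h2
    rw [side_mul, h2, add_zero] at hn
    exact hn rfl
  have h2 := cross_once hl h1
  rw [side_mul] at h
  exact h2 (by simpa using h)

theorem len_mul_g (x : G.W) (a : E) :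
    (G.len (x * G.g a) = G.len x + 1) ∨ (G.len (x * G.g a) + 1 = G.len x) := by
  have h := len_g_mul a x⁻¹
  have h1 : G.len (G.g a * x⁻¹) = G.len (x * G.g a) := by
    rw [← len_inv, mul_inv_rev, inv_inv, g_inv]
  rwa [h1, len_inv] at h

/-- lengthening criterion -/
theorem len_mul_g_iff (x : G.W) (a : E) :
    G.len (x * G.g a) = G.len x + 1 ↔ side x (x * G.g a * x⁻¹) = 0 := by
  classical
  constructor
  · intro h
    by_contra hn
    have := len_refl_mul hn
    rw [show x * G.g a * x⁻¹ * x = x * G.g a by group] at this
    omega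
  · intro h
    by_contra hn
    have h1 : G.len (x * G.g a) + 1 = G.len x := by
      rcases len_mul_g x a with h2 | h2
      · exact absurd h2 hn
      · exact h2
    have h2 : side (x * G.g a) (x * G.g a * x⁻¹) ≠ 0 := by
      rw [side_mul_g, h, if_pos (by group), zero_add]
      decide
    have h3 := len_refl_mul h2
    rw [show x * G.g a * x⁻¹ * (x * G.g a) = x * (G.g a * G.g a) by group, gg, mul_one] at h3
    omega

/-- concatenation criterion -/
theorem len_cat (x : G.W) : ∀ (y : G.W), (∀ t, side x t ≠ 0 → side (x * y) t ≠ 0) →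
    G.len (x * y) = G.len x + G.len y := by
  classical
  intro y
  obtain ⟨n, hn⟩ : ∃ n, G.len y = n := ⟨_, rfl⟩
  induction n using Nat.strong_induction_on generalizing y with
  | _ n IH =>
  intro h
  obtain ⟨m, hm, rfl⟩ := exists_red y
  rcases List.eq_nil_or_concat m with rfl | ⟨m', a, rfl⟩
  · simp [len_one]
  · rw [List.concat_eq_append] at hm hn h ⊢
    have hlen := len_ev _ hm
    rw [List.length_append, List.length_singleton] at hlen
    have hl' := len_ev_le (G := G) m'
    have hev : G.ev (m' ++ [a]) = G.ev m' * G.g a := by rw [ev_append, ev_single]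
    have h1 : G.len (G.ev m') = m'.length := by
      have := len_mul_g (G.ev m') a
      rw [← hev, hlen] at this
      rcases this with h2 | h2 <;> omega
    have h2 : G.len (G.ev m' * G.g a) = G.len (G.ev m') + 1 := by
      rw [← hev, hlen, h1]
    have h3 : ∀ t, side x t ≠ 0 → side (x * G.ev m') t ≠ 0 := by
      intro t ht h0
      have h4 := h t ht
      rw [hev, ← mul_assoc, side_mul_g, h0, zero_add] at h4
      have h5 : (x * G.ev m')⁻¹ * t * (x * G.ev m') = G.g a := by
        by_contra hc
        rw [if_neg hc] at h4
        exact h4 rfl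
      have h6 : side (G.ev m') (x⁻¹ * t * x) ≠ 0 := by
        intro h7
        rw [side_mul, h7, add_zero] at h0
        exact ht h0
      have h7 := (len_mul_g_iff (G.ev m') a).1 h2
      apply h6
      rw [← h5] at h7
      rw [← h7]
      congr 1
      group
    have h4 := IH (G.len (G.ev m')) (by omega) (G.ev m') rfl h3
    have h5 : G.len (x * G.ev m' * G.g a) = G.len (x * G.ev m') + 1 := by
      rw [len_mul_g_iff]
      by_contra h6
      set t := x * G.ev m' * G.g a * (x * G.ev m')⁻¹ with ht
      have h7 := (len_mul_g_iff (G.ev m') a).1 h2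
      have h8 : side (x * G.ev m') t = side x t := by
        rw [side_mul, show x⁻¹ * t * x = G.ev m' * G.g a * (G.ev m')⁻¹ by rw [ht]; group, h7,
          add_zero]
      rw [h8] at h6
      have h9 := h t h6
      rw [hev, ← mul_assoc, side_mul_g, h8, if_pos (by rw [ht]; group)] at h9
      rcases zmod2_cases (side x t) with h10 | h10
      · exact h6 h10
      · rw [h10] at h9
        exact h9 rfl
    rw [hev, ← mul_assoc, h5, h4, h2]
    omega

end RA

end Pool.Agent.Helper2GI
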