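import Mathlib
import Pool.Agent.Helper2GI.PetData

/-!
The Petersen graph: rewriting of words.
-/

set_option autoImplicit false

namespace Pool.Agent.Helper2GI.Pet

/-- the rules -/
inductive PR : List ℕ → List ℕ → Prop
  | xx (a : ℕ) : PR [a, a] []
  | xi (a : ℕ) : PR [] [a, a]
  | st (a b : ℕ) (h : T a b < 15) : PR [a, b] [T a b]
  | ts (a b : ℕ) (h : T a b < 15) : PR [T a b] [a, b]

theorem PR.symm {a b : List ℕ} (h : PR a b) : PR b a := by
  cases h with
  | xx a => exact PR.xi a
  | xi a => exact PR.xx a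
  | st a b h => exact PR.ts a b h
  | ts a b h => exact PR.st a b h

/-- derivability -/
def E (s t : List ℕ) : Prop := ∃ N, GR PR N s t

theorem E.refl (s : List ℕ) : E s s := ⟨0, Relation.ReflTransGen.refl⟩

theorem E.trans {s t u : List ℕ} (h : E s t) (h' : E t u) : E s u := by
  obtain ⟨N, hN⟩ := h
  obtain ⟨M, hM⟩ := h'
  exact ⟨max N M, (hN.mono (le_max_left _ _)).trans (hM.mono (le_max_right _ _))⟩

theorem E.ctx {s t : List ℕ} (h : E s t) (l r : List ℕ) : E (l ++ s ++ r) (l ++ t ++ r) := by
  obtain ⟨N, hN⟩ := h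
  exact ⟨_, hN.ctx l r le_rfl⟩

theorem E.ctxl {s t : List ℕ} (h : E s t) (l : List ℕ) : E (l ++ s) (l ++ t) := by
  have := h.ctx l []
  simpa using this

theorem E.ctxr {s t : List ℕ} (h : E s t) (r : List ℕ) : E (s ++ r) (t ++ r) := by
  have := h.ctx [] r
  simpa using this

theorem E.rule {a b : List ℕ} (h : PR a b) (l r : List ℕ) : E (l ++ a ++ r) (l ++ b ++ r) :=
  ⟨_, GR.rule h l r le_rfl⟩

theorem E_act (o : ℕ) (d : List ℕ) : E d (act o d) := by
  unfold act
  by_cases h18 : 18 ≤ o
  · rw [if_pos h18]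
    have h1 := E.rule (PR.xi (o - 18)) [] d
    simpa using h1
  · rw [if_neg h18]
    by_cases h15 : o < 15
    · rw [if_pos h15]
      cases d with
      | nil => exact E.refl _
      | cons a r =>
        simp only
        split_ifs with h2
        · have h3 := PR.ts o (T o a) (by rw [h2.1]; exact h2.2)
          rw [h2.1] at h3
          have h4 := E.rule h3 [] r
          simpa using h4
        · exact E.refl _
    · rw [if_neg h15]
      match d with
      | [] => exact E.refl _
      | [a] => exact E.refl _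
      | a :: b :: r =>
        simp only
        split_ifs with h3 h4 h5 h6 h7
        · have h8 := E.rule (PR.st a b h4) [] r
          simpa using h8
        · exact E.refl _
        · subst h6
          have h8 := E.rule (PR.xx a) [] r
          simpa using h8
        · exact E.refl _
        · have h8 := E.rule (PR.st a b h7.1) [] r
          have h9 := PR.ts b a (by rw [h7.2]; exact h7.1)
          rw [h7.2] at h9
          have h11 := h8.trans (E.rule h9 [] r)
          simpa using h11
        · exact E.refl _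

theorem E_mv (w : List ℕ) (c : ℕ) : E w (mv w c) := by
  have h := (E_act (c % 64) (w.drop (c / 64))).ctxl (w.take (c / 64))
  rw [List.take_append_drop] at h
  exact h

theorem E_run (w s : List ℕ) : E w (run w s) := by
  unfold run
  induction s generalizing w with
  | nil => exact E.refl _
  | cons c s ih => exact (E_mv w c).trans (ih _)

theorem sb_append (u w : List ℕ) : sb (u ++ w) = sb u ++ sb w := by
  unfold sb
  rw [List.flatMap_append]

theorem E_com {e : ℕ × ℕ × List ℕ} (h : e ∈ com) : E (sb [e.1, e.2.1]) (sb [e.2.1, e.1]) := by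
  have h1 := List.all_eq_true.1 com_ok e h
  have h2 := E_run (sb [e.1, e.2.1]) e.2.2
  rw [beq_iff_eq] at h1
  rwa [h1] at h2

theorem E_tab {a : ℕ} (ha : a < 27) {e : ℕ × List ℕ × List ℕ} (h : e ∈ tab.getD a []) :
    E (sb [a, e.1]) (sb e.2.1) := by
  have h1 := List.all_eq_true.1 (tab_ok a ha) e h
  have h2 := E_run (sb [a, e.1]) e.2.2
  rw [beq_iff_eq] at h1
  rwa [h1] at h2

/-- one step of the engine -/
def st1 : List ℕ → List ℕ
  | [] => []
  | [a] => [a]
  | a :: b :: r =>
    match (if a < 27 then (tab.getD a []).find? (fun e => e.1 == b) else none) with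
    | some e => e.2.1 ++ r
    | none => a :: st1 (b :: r)

theorem E_st1 (w : List ℕ) : E (sb w) (sb (st1 w)) := by
  fun_induction st1 w with
  | case1 => exact E.refl _
  | case2 a => exact E.refl _
  | case3 a b r e he =>
    split_ifs at he with ha
    have h1 := List.find?_some he
    have h2 := List.mem_of_find?_eq_some he
    have h3 := (E_tab ha h2).ctxr (sb r)
    rw [beq_iff_eq] at h1
    rw [h1, ← sb_append, ← sb_append] at h3
    exact h3
  | case4 a b r he ih =>
    have h3 := ih.ctxl (sb [a])
    rw [← sb_append, ← sb_append] at h3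
    exact h3

/-- the engine -/
def nf : ℕ → List ℕ → List ℕ
  | 0, w => w
  | n + 1, w => if st1 w = w then w else nf n (st1 w)

theorem E_nf (n : ℕ) (w : List ℕ) : E (sb w) (sb (nf n w)) := by
  induction n generalizing w with
  | zero => exact E.refl _
  | succ n ih =>
    unfold nf
    split_ifs
    · exact E.refl _
    · exact (E_st1 w).trans (ih _)

/-- letters for translations -/
def isB (a : ℕ) : Bool := decide (15 ≤ a ∧ a < 27)

theorem nf_ok : (gl.sublists.all fun q => gl.all fun x =>
    gl.sublists.contains ((nf 60 (q ++ [x])).dropWhile isB)) = true := by decide +kernel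

theorem gl_lt : ∀ a ∈ gl, a < 15 := by decide

theorem sb_lt (w : List ℕ) (h : ∀ a ∈ w, a < 15) : sb w = w := by
  unfold sb
  induction w with
  | nil => rfl
  | cons a w ih =>
    rw [List.flatMap_cons, ih (fun b hb => h b (List.mem_cons_of_mem _ hb))]
    have : sub a = [a] := by
      unfold sub
      rw [if_pos (h a (by simp))]
    rw [this]
    rfl

theorem step_gl {q : List ℕ} (hq : q ∈ gl.sublists) {x : ℕ} (hx : x ∈ gl) :
    ∃ b q', (∀ a ∈ b, isB a = true) ∧ q' ∈ gl.sublists ∧ E (q ++ [x]) (sb b ++ q') := by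
  have h1 := List.all_eq_true.1 (List.all_eq_true.1 nf_ok q hq) x hx
  have h2 := E_nf 60 (q ++ [x])
  refine ⟨(nf 60 (q ++ [x])).takeWhile isB, (nf 60 (q ++ [x])).dropWhile isB, ?_, ?_, ?_⟩
  · intro a ha
    exact List.mem_takeWhile_imp ha
  · simpa using h1
  · have h3 : ∀ a ∈ (nf 60 (q ++ [x])).dropWhile isB, a < 15 := by
      intro a ha
      have h4 : (nf 60 (q ++ [x])).dropWhile isB ∈ gl.sublists := by simpa using h1
      exact gl_lt a ((List.mem_sublists.1 h4).subset ha)
    have h5 : ∀ a ∈ q ++ [x], a < 15 := by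
      intro a ha
      rw [List.mem_append, List.mem_singleton] at ha
      rcases ha with ha | rfl
      · exact gl_lt a ((List.mem_sublists.1 hq).subset ha)
      · exact gl_lt _ hx
    rw [sb_lt _ h5] at h2
    rw [← List.takeWhile_append_dropWhile (p := isB) (l := nf 60 (q ++ [x])), sb_append,
      sb_lt _ h3] at h2
    exact h2

theorem step_word {q : List ℕ} (hq : q ∈ gl.sublists) {w : List ℕ} (hw : ∀ x ∈ w, x ∈ gl) :
    ∃ b q', (∀ a ∈ b, isB a = true) ∧ q' ∈ gl.sublists ∧ E (q ++ w) (sb b ++ q') := by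
  induction w generalizing q with
  | nil => exact ⟨[], q, by simp, hq, by simpa [sb] using E.refl q⟩
  | cons x w ih =>
    obtain ⟨b, q1, h1, h2, h3⟩ := step_gl hq (hw x (by simp))
    obtain ⟨b', q2, h4, h5, h6⟩ := ih h2 (fun y hy => hw y (List.mem_cons_of_mem _ hy))
    refine ⟨b ++ b', q2, ?_, h5, ?_⟩
    · intro a ha
      rcases List.mem_append.1 ha with h | h
      · exact h1 a h
      · exact h4 a h
    · have h7 := (h3.ctxr w).trans (by simpa using h6.ctxl (sb b))
      rw [sb_append]
      simpa using h7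

theorem E_letter {x : ℕ} (hx : x < 15) : ∃ w, (∀ y ∈ w, y ∈ gl) ∧ E [x] w := by
  have h1 := lr_all x hx
  rw [List.contains_iff_mem, List.mem_map] at h1
  obtain ⟨e, he, rfl⟩ := h1
  have h2 := List.all_eq_true.1 lr_ok e he
  rw [Bool.and_eq_true, beq_iff_eq, List.all_eq_true] at h2
  have h3 := E_run [e.1] e.2.2
  rw [h2.1] at h3
  exact ⟨e.2.1, fun y hy => by simpa using h2.2 y hy, h3⟩

theorem step_any {q : List ℕ} (hq : q ∈ gl.sublists) {x : ℕ} (hx : x < 15) :
    ∃ b q', (∀ a ∈ b, isB a = true) ∧ q' ∈ gl.sublists ∧ E (q ++ [x]) (sb b ++ q') := by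
  obtain ⟨w, hw, h1⟩ := E_letter hx
  obtain ⟨b, q', h2, h3, h4⟩ := step_word hq hw
  exact ⟨b, q', h2, h3, (h1.ctxl q).trans h4⟩

/-- a common bound for finitely many derivations -/
theorem common {ι : Type} (l : List ι) (P : ι → ℕ → Prop) (hm : ∀ i m n, m ≤ n → P i m → P i n)
    (h : ∀ i ∈ l, ∃ n, P i n) : ∃ n, ∀ i ∈ l, P i n := by
  induction l with
  | nil => exact ⟨0, by simp⟩
  | cons i l ih =>
    obtain ⟨n, hn⟩ := ih (fun j hj => h j (List.mem_cons_of_mem _ hj))
    obtain ⟨m, hm'⟩ := h i (by simp)
    refine ⟨max n m, fun j hj => ?_⟩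
    rcases List.mem_cons.1 hj with rfl | hj
    · exact hm _ _ _ (le_max_right _ _) hm'
    · exact hm _ _ _ (le_max_left _ _) (hn j hj)

/-- the statement of the next lemma, with the bound as a variable -/
def SK (p : List ℕ × ℕ) (K : ℕ) : Prop :=
  ∃ b q', (∀ a ∈ b, isB a = true) ∧ b.length ≤ K ∧ q' ∈ gl.sublists ∧
    GR PR K (p.1 ++ [p.2]) (sb b ++ q')

theorem exists_K : ∃ K, ∀ q ∈ gl.sublists, ∀ x < 15, SK (q, x) K := by
  obtain ⟨K, hK⟩ := common (gl.sublists.product (List.range 15)) SK (by
    rintro i m n hmn ⟨b, q', h1, h2, h3, h4⟩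
    exact ⟨b, q', h1, h2.trans hmn, h3, h4.mono hmn⟩) (by
    rintro ⟨q, x⟩ h
    obtain ⟨hq1, hx1⟩ := List.pair_mem_product.1 h
    rw [List.mem_range] at hx1
    obtain ⟨b, q', h4, h5, N, h6⟩ := step_any hq1 hx1
    exact ⟨max N b.length, b, q', h4, le_max_right _ _, h5, h6.mono (le_max_left _ _)⟩)
  exact ⟨K, fun q hq x hx => hK (q, x) (List.pair_mem_product.2 ⟨hq, List.mem_range.2 hx⟩)⟩

theorem sub_len {a : ℕ} (h : isB a = true) : (sub a).length = 4 := by
  unfold isB at h
  rw [decide_eq_true_eq] at h
  obtain ⟨h1, h2⟩ := h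
  interval_cases a <;> decide

theorem sb_len {b : List ℕ} (h : ∀ a ∈ b, isB a = true) : (sb b).length = 4 * b.length := by
  unfold sb
  induction b with
  | nil => rfl
  | cons a b ih =>
    rw [List.flatMap_cons, List.length_append, ih (fun x hx => h x (List.mem_cons_of_mem _ hx)),
      sub_len (h a (by simp)), List.length_cons]
    ring

/-- every word can be brought into the normal form `translations, then distinct letters` -/
theorem normal : ∃ K, ∀ u : List ℕ, (∀ x ∈ u, x < 15) →
    ∃ b q, (∀ a ∈ b, isB a = true) ∧ b.length ≤ K * u.length ∧ q ∈ gl.sublists ∧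
      GR PR (K + 4 * (K * u.length) + u.length) u (sb b ++ q) := by
  obtain ⟨K, hK⟩ := exists_K
  refine ⟨K, fun u => ?_⟩
  induction u using List.reverseRecOn with
  | nil =>
    intro _
    exact ⟨[], [], by simp, by simp, by decide, Relation.ReflTransGen.refl⟩
  | append_singleton u x ih =>
    intro hu
    obtain ⟨b, q, h1, h2, h3, h4⟩ := ih (fun y hy => hu y (List.mem_append_left _ hy))
    obtain ⟨b', q', h5, h6, h7, h8⟩ := hK q h3 x (hu x (by simp))
    have hl : (u ++ [x]).length = u.length + 1 := by simp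
    have hb := sb_len h1
    refine ⟨b ++ b', q', ?_, ?_, h7, ?_⟩
    · intro a ha
      rcases List.mem_append.1 ha with h | h
      · exact h1 a h
      · exact h5 a h
    · rw [List.length_append, hl, mul_add]
      omega
    · have h9 := h4.ctx [] [x] (N' := K + 4 * (K * (u ++ [x]).length) + (u ++ [x]).length) (by
        rw [hl, mul_add]
        simp only [List.length_nil, List.length_singleton]
        omega)
      have h10 := h8.ctx (sb b) [] (N' := K + 4 * (K * (u ++ [x]).length) + (u ++ [x]).length) (by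
        rw [hl, mul_add, hb]
        simp only [List.length_nil]
        omega)
      rw [sb_append]
      simp only [List.append_nil, List.nil_append, List.append_assoc] at h9 h10 ⊢
      exact h9.trans h10

end Pool.Agent.Helper2GI.Pet
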