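import Mathlib
import Pool.Agent.Helper2GI.PetA

/-!
The Petersen graph: invariants in infinite dihedral groups.
-/

set_option autoImplicit false

namespace Pool.Agent.Helper2GI.Pet

/-- six homomorphisms to the infinite dihedral group, one for each pair of disjoint pentagons, and
the parities along six cycles: `0`, `1`, `2` stand for `1`, `sr 0`, `sr 1` -/
def codes : List (List ℕ) :=
  [[0, 1, 1, 1, 0, 1, 2, 2, 0, 2, 0, 2, 0, 1, 2],
   [0, 1, 1, 2, 2, 0, 1, 0, 1, 0, 2, 2, 1, 0, 2],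
   [1, 0, 1, 0, 1, 1, 2, 0, 2, 2, 2, 0, 0, 2, 1],
   [1, 0, 1, 2, 2, 0, 0, 2, 2, 1, 0, 1, 1, 2, 0],
   [1, 1, 0, 0, 2, 2, 2, 2, 0, 0, 1, 1, 2, 1, 0],
   [1, 1, 0, 2, 0, 2, 0, 1, 1, 2, 2, 0, 2, 0, 1],
   [1, 0, 1, 0, 0, 0, 0, 0, 0, 1, 0, 1, 1, 0, 0],
   [0, 1, 1, 0, 0, 0, 1, 0, 1, 0, 0, 0, 1, 0, 0],
   [0, 0, 0, 1, 1, 0, 1, 0, 1, 1, 0, 1, 0, 1, 1],
   [0, 0, 0, 0, 1, 1, 0, 0, 0, 1, 0, 1, 1, 0, 1],
   [0, 0, 0, 0, 0, 0, 1, 1, 0, 1, 0, 1, 0, 0, 1],
   [0, 0, 0, 0, 0, 0, 1, 0, 1, 1, 1, 0, 0, 1, 0]]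

/-- table of the translations -/
def TR : List (List ℤ) :=
  [[0, 0, 0, 0, 0, 0, 0, 0, 0, 0, -2, 2],
   [0, 0, 0, 0, 0, 0, 0, 0, -2, 2, 0, 0],
   [0, 0, 0, 0, 0, 0, -2, 2, 0, 0, 0, 0],
   [0, 0, 0, 0, -2, 2, 0, 0, 0, 0, 0, 0],
   [2, -2, -2, 2, 0, 0, 2, -2, 0, 0, 0, 0],
   [-2, 2, -2, 2, -2, 2, 0, 0, -2, 2, 2, -2]]

/-- elements of the infinite dihedral group -/
def dd : ℕ → DihedralGroup 0
  | 0 => 1
  | 1 => DihedralGroup.sr 0
  | _ => DihedralGroup.sr 1

/-- the value of a letter -/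
def pm (m a : ℕ) : DihedralGroup 0 := dd ((codes.getD m []).getD a 0)

theorem dd_mul (a : ℕ) : dd a * dd a = 1 := by
  match a with
  | 0 => rfl
  | 1 => rfl
  | _ + 2 => rfl

theorem pm_mul (m a : ℕ) : pm m a * pm m a = 1 := dd_mul _

theorem T_lt {a b : ℕ} (h : T a b < 15) : a < 15 ∧ b < 15 := by
  unfold T at h
  have hl : tbl.length = 15 := rfl
  by_cases ha : a < 15
  · refine ⟨ha, ?_⟩
    by_contra hb
    have h1 : (tbl.getD a []).length ≤ b := by
      have : ∀ a < 15, (tbl.getD a []).length = 15 := by decide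
      rw [this a ha]
      omega
    rw [List.getD_eq_default _ _ h1] at h
    omega
  · exfalso
    rw [List.getD_eq_default tbl [] (n := a) (by omega)] at h
    simp at h

theorem pm_tab : ∀ m < 12, ∀ a < 15, ∀ b < 15, T a b < 15 → pm m a * pm m b = pm m (T a b) := by
  decide +kernel

theorem pm_T {m : ℕ} (hm : m < 12) {a b : ℕ} (h : T a b < 15) : pm m a * pm m b = pm m (T a b) :=
  pm_tab m hm a (T_lt h).1 b (T_lt h).2 h

/-- homomorphisms respect derivations -/
theorem sound {M : Type} [Group M] (p : ℕ → M) (hp : ∀ a, p a * p a = 1)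
    (hT : ∀ a b, T a b < 15 → p a * p b = p (T a b)) {N : ℕ} {s t : List ℕ} (h : GR PR N s t) :
    (s.map p).prod = (t.map p).prod := by
  induction h with
  | refl => rfl
  | @tail u v _ h2 ih =>
    rw [ih]
    obtain ⟨l, r, a, b, h3, h4, h5, _⟩ := h2
    subst h4 h5
    have key : (a.map p).prod = (b.map p).prod := by
      cases h3 with
      | xx a => simp [hp]
      | xi a => simp [hp]
      | st a b h => simp [hT a b h]
      | ts a b h => simp [hT a b h]
    simp only [List.map_append, List.prod_append, key]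

/-- the value of a word -/
def vl (m : ℕ) (w : List ℕ) : DihedralGroup 0 := (w.map (pm m)).prod

theorem vl_append (m : ℕ) (u w : List ℕ) : vl m (u ++ w) = vl m u * vl m w := by
  unfold vl
  rw [List.map_append, List.prod_append]

/-- the translation length -/
def trv : DihedralGroup 0 → ℤ
  | DihedralGroup.r i => i
  | DihedralGroup.sr _ => 0

/-- the translation of a letter -/
def tr (m a : ℕ) : ℤ := trv (vl m (sub a))

theorem sub_par : ∀ m < 6, ∀ a < 12, vl (6 + m) (sub (15 + a)) = 1 := by decide +kernel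

theorem sub_tr : ∀ m < 6, ∀ a < 12, vl m (sub (15 + a)) = DihedralGroup.r (tr m (15 + a)) := by
  decide +kernel

theorem q_par : ∀ q ∈ gl.sublists, (∀ m < 6, vl (6 + m) q = 1) → q = [] := by decide +kernel

theorem isB_iff {a : ℕ} (h : isB a = true) : ∃ j < 12, a = 15 + j := by
  unfold isB at h
  rw [decide_eq_true_eq] at h
  exact ⟨a - 15, by omega, by omega⟩

theorem vl_par {m : ℕ} (hm : m < 6) {b : List ℕ} (hb : ∀ a ∈ b, isB a = true) :
    vl (6 + m) (sb b) = 1 := by
  induction b with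
  | nil => rfl
  | cons a b ih =>
    have h1 : sb (a :: b) = sub a ++ sb b := by
      unfold sb
      rw [List.flatMap_cons]
    obtain ⟨j, hj, rfl⟩ := isB_iff (hb a (by simp))
    rw [h1, vl_append, ih (fun x hx => hb x (List.mem_cons_of_mem _ hx)), sub_par m hm j hj, one_mul]

theorem vl_tr {m : ℕ} (hm : m < 6) {b : List ℕ} (hb : ∀ a ∈ b, isB a = true) :
    vl m (sb b) = DihedralGroup.r (b.map (tr m)).sum := by
  induction b with
  | nil => rfl
  | cons a b ih =>
    have h1 : sb (a :: b) = sub a ++ sb b := by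
      unfold sb
      rw [List.flatMap_cons]
    obtain ⟨j, hj, rfl⟩ := isB_iff (hb a (by simp))
    rw [h1, vl_append, ih (fun x hx => hb x (List.mem_cons_of_mem _ hx)), sub_tr m hm j hj]
    rfl

/-- the letters for translations -/
def LB : List ℕ := [15, 16, 17, 18, 19, 20, 21, 22, 23, 24, 25, 26]

theorem sum_count (f : ℕ → ℤ) {b : List ℕ} (hb : ∀ a ∈ b, isB a = true) :
    (b.map f).sum = (LB.map fun a => f a * (b.count a : ℤ)).sum := by
  induction b with
  | nil => simp [LB]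
  | cons x b ih =>
    rw [List.map_cons, List.sum_cons, ih (fun y hy => hb y (List.mem_cons_of_mem _ hy))]
    obtain ⟨j, hj, rfl⟩ := isB_iff (hb x (by simp))
    interval_cases j <;> simp [LB, List.count_cons] <;> ring

/-- the inverse letter -/
def iv (a : ℕ) : ℕ := if a % 2 = 1 then a + 1 else a - 1

theorem counts {b : List ℕ} (hb : ∀ a ∈ b, isB a = true)
    (h : ∀ m < 6, (b.map (tr m)).sum = 0) : ∀ a, isB a = true → b.count (iv a) = b.count a := by
  have h0 := h 0 (by norm_num)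
  have h1 := h 1 (by norm_num)
  have h2 := h 2 (by norm_num)
  have h3 := h 3 (by norm_num)
  have h4 := h 4 (by norm_num)
  have h5 := h 5 (by norm_num)
  rw [sum_count _ hb] at h0 h1 h2 h3 h4 h5
  have t : ∀ m < 6, ∀ j < 12, tr m (15 + j) = ((TR.getD m []).getD j 0) := by decide +kernel
  have e : ∀ m < 6, (LB.map fun a => tr m a * (b.count a : ℤ)).sum =
      (LB.map fun a => ((TR.getD m []).getD (a - 15) 0) * (b.count a : ℤ)).sum := by
    intro m hm
    congr 1
    apply List.map_congr_left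
    intro a ha
    have : ∃ j < 12, a = 15 + j := by
      unfold LB at ha
      have h1 : 15 ≤ a ∧ a < 27 := by
        revert a
        decide
      exact ⟨a - 15, by omega, by omega⟩
    obtain ⟨j, hj, rfl⟩ := this
    rw [t m hm j hj, Nat.add_sub_cancel_left]
  rw [e 0 (by norm_num)] at h0
  rw [e 1 (by norm_num)] at h1
  rw [e 2 (by norm_num)] at h2
  rw [e 3 (by norm_num)] at h3
  rw [e 4 (by norm_num)] at h4
  rw [e 5 (by norm_num)] at h5
  simp [LB, TR] at h0 h1 h2 h3 h4 h5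
  intro a ha
  obtain ⟨j, hj, rfl⟩ := isB_iff ha
  interval_cases j <;> simp only [iv] <;> norm_num <;> omega

end Pool.Agent.Helper2GI.Pet
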