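import Mathlib
import Pool.Agent.Helper2GI.PetB

/-!
The Petersen graph: words with trivial invariants can be reduced to the empty word.
-/

set_option autoImplicit false

namespace Pool.Agent.Helper2GI.Pet

theorem PR_symm {N : ℕ} {s t : List ℕ} (hs : s.length ≤ N)
    (h : GR PR N s t) : GR PR N t s := by
  induction h with
  | refl => exact Relation.ReflTransGen.refl
  | @tail u t h1 h2 ih =>
    have hu := GR.len h1 hs
    obtain ⟨l, r, a, b, h3, h4, h5, h6⟩ := h2
    exact (Relation.ReflTransGen.single ⟨l, r, b, a, h3.symm, h5, h4, hu⟩).trans ih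

theorem E.symm {s t : List ℕ} (h : E s t) : E t s := by
  obtain ⟨N, hN⟩ := h
  exact ⟨max N s.length, PR_symm (le_max_right _ _) (hN.mono (le_max_left _ _))⟩

theorem inv_ok : ∀ j < 12, run (sb [15 + j, iv (15 + j)]) [208, 144, 80, 16] = [] := by
  decide +kernel

theorem E_inv {a : ℕ} (ha : isB a = true) : E (sb [a, iv a]) [] := by
  obtain ⟨j, hj, rfl⟩ := isB_iff ha
  have h := E_run (sb [15 + j, iv (15 + j)]) [208, 144, 80, 16]
  rwa [inv_ok j hj] at h

theorem iv_B {a : ℕ} (ha : isB a = true) : isB (iv a) = true ∧ iv (iv a) = a ∧ iv a ≠ a := by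
  obtain ⟨j, hj, rfl⟩ := isB_iff ha
  interval_cases j <;> decide

theorem com_all : ∀ i < 12, ∀ j < 12, 15 + i = 15 + j ∨ 15 + j = iv (15 + i) ∨
    (com.map fun e => (e.1, e.2.1)).contains (15 + i, 15 + j) = true ∨
    (com.map fun e => (e.1, e.2.1)).contains (15 + j, 15 + i) = true := by decide +kernel

theorem E_comm {a b : ℕ} (ha : isB a = true) (hb : isB b = true) : E (sb [a, b]) (sb [b, a]) := by
  have key : ∀ x y, (com.map fun e => (e.1, e.2.1)).contains (x, y) = true →
      E (sb [x, y]) (sb [y, x]) := by
    intro x y h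
    rw [List.contains_iff_mem, List.mem_map] at h
    obtain ⟨e, he, h1⟩ := h
    rw [Prod.mk.injEq] at h1
    have h2 := E_com he
    rw [h1.1, h1.2] at h2
    exact h2
  obtain ⟨i, hi, rfl⟩ := isB_iff ha
  obtain ⟨j, hj, rfl⟩ := isB_iff hb
  rcases com_all i hi j hj with h | h | h | h
  · rw [h]
    exact E.refl _
  · rw [h]
    have h1 := iv_B ha
    have h2 := E_inv h1.1
    rw [h1.2.1] at h2
    exact (E_inv ha).trans h2.symm
  · exact key _ _ h
  · exact (key _ _ h).symm

theorem exists_K2 : ∃ K, (∀ a b, isB a = true → isB b = true → GR PR K (sb [a, b]) (sb [b, a])) ∧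
    ∀ a, isB a = true → GR PR K (sb [a, iv a]) [] := by
  obtain ⟨K, hK⟩ := common ((List.range 12).product (List.range 12))
    (fun p K => GR PR K (sb [15 + p.1, 15 + p.2]) (sb [15 + p.2, 15 + p.1]))
    (fun _ _ _ h h' => h'.mono h) (by
      rintro ⟨i, j⟩ h
      obtain ⟨h1, h2⟩ := List.pair_mem_product.1 h
      rw [List.mem_range] at h1 h2
      exact E_comm (by unfold isB; rw [decide_eq_true_eq]; omega)
        (by unfold isB; rw [decide_eq_true_eq]; omega))
  obtain ⟨K', hK'⟩ := common (List.range 12)
    (fun p K => GR PR K (sb [15 + p, iv (15 + p)]) [])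
    (fun _ _ _ h h' => h'.mono h) (by
      intro i h
      rw [List.mem_range] at h
      exact E_inv (by unfold isB; rw [decide_eq_true_eq]; omega))
  refine ⟨max K K', ?_, ?_⟩
  · intro a b ha hb
    obtain ⟨i, hi, rfl⟩ := isB_iff ha
    obtain ⟨j, hj, rfl⟩ := isB_iff hb
    exact (hK (i, j) (List.pair_mem_product.2 ⟨List.mem_range.2 hi, List.mem_range.2 hj⟩)).mono
      (le_max_left _ _)
  · intro a ha
    obtain ⟨i, hi, rfl⟩ := isB_iff ha
    exact (hK' i (List.mem_range.2 hi)).mono (le_max_right _ _)

theorem move_left {K : ℕ}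
    (hK : ∀ a b, isB a = true → isB b = true → GR PR K (sb [a, b]) (sb [b, a]))
    {a : ℕ} (ha : isB a = true) (l : List ℕ) (hl : ∀ x ∈ l, isB x = true) :
    GR PR (K + 4 * (l.length + 1)) (sb (l ++ [a])) (sb ([a] ++ l)) := by
  induction l with
  | nil => exact Relation.ReflTransGen.refl
  | cons x l ih =>
    have hx := hl x (by simp)
    have h1 := ih (fun y hy => hl y (List.mem_cons_of_mem _ hy))
    have e1 : (sb [x]).length = 4 := by
      rw [sb_len (fun y hy => by rw [List.mem_singleton] at hy; rw [hy]; exact hx)]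
      rfl
    have e2 : (sb l).length = 4 * l.length := sb_len (fun y hy => hl y (List.mem_cons_of_mem _ hy))
    have h2 := h1.ctx (sb [x]) [] (N' := K + 4 * ((x :: l).length + 1)) (by
      rw [e1]
      simp only [List.length_nil, List.length_cons]
      omega)
    have h3 := (hK x a hx ha).ctx [] (sb l) (N' := K + 4 * ((x :: l).length + 1)) (by
      rw [e2]
      simp only [List.length_nil, List.length_cons]
      omega)
    have e3 : sb (x :: l ++ [a]) = sb [x] ++ sb (l ++ [a]) ++ [] := by
      rw [← sb_append, List.append_nil]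
      rfl
    have e4 : sb [x] ++ sb ([a] ++ l) ++ [] = [] ++ sb [x, a] ++ sb l := by
      rw [← sb_append, List.append_nil, List.nil_append, ← sb_append]
      rfl
    have e5 : [] ++ sb [a, x] ++ sb l = sb ([a] ++ x :: l) := by
      rw [List.nil_append, ← sb_append]
      rfl
    rw [e4] at h2
    rw [e5] at h3
    rw [e3]
    exact h2.trans h3

theorem cancel {K : ℕ}
    (hK : ∀ a b, isB a = true → isB b = true → GR PR K (sb [a, b]) (sb [b, a]))
    (hK' : ∀ a, isB a = true → GR PR K (sb [a, iv a]) []) (n : ℕ) :
    ∀ b : List ℕ, b.length = n → (∀ x ∈ b, isB x = true) →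
      (∀ a, isB a = true → b.count (iv a) = b.count a) →
      GR PR (K + 4 * b.length) (sb b) [] := by
  induction n using Nat.strong_induction_on with
  | _ n ih =>
    intro b hbn hb hc
    match b with
    | [] => exact Relation.ReflTransGen.refl
    | a :: r =>
      have ha := hb a (by simp)
      obtain ⟨hi1, hi2, hi3⟩ := iv_B ha
      have h1 := hc a ha
      rw [List.count_cons_self, List.count_cons_of_ne (fun h => hi3 h.symm)] at h1
      have h2 : iv a ∈ r := List.count_pos_iff.1 (by omega)
      obtain ⟨r1, r2, rfl⟩ := List.append_of_mem h2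
      have hr1 : ∀ x ∈ r1, isB x = true := fun x hx => hb x (by simp [hx])
      have hr2 : ∀ x ∈ r2, isB x = true := fun x hx => hb x (by simp [hx])
      have hr : ∀ x ∈ r1 ++ r2, isB x = true := by
        intro x hx
        rcases List.mem_append.1 hx with h | h
        · exact hr1 x h
        · exact hr2 x h
      have hlen : (a :: (r1 ++ iv a :: r2)).length = (r1 ++ r2).length + 2 := by
        simp only [List.length_cons, List.length_append]
        omega
      have h3 := ih (r1 ++ r2).length (by omega) (r1 ++ r2) rfl hr (by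
        intro x hx
        have h4 := hc x hx
        obtain ⟨hx1, hx2, hx3⟩ := iv_B hx
        simp only [List.count_cons, List.count_append, beq_iff_eq] at h4 ⊢
        have e1 : (a = iv x) ↔ (iv a = x) := by
          constructor
          · rintro rfl
            exact hx2
          · rintro rfl
            exact hi2.symm
        have e2 : (iv a = iv x) ↔ (a = x) := by
          constructor
          · intro h
            rw [← hi2, h, hx2]
          · rintro rfl
            rfl
        simp only [e1, e2] at h4
        split_ifs at h4 <;> omega)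
      have l1 := sb_len hr1
      have l2 := sb_len hr2
      have l12 := sb_len hr
      have la : (sb [a]).length = 4 := by
        rw [sb_len (fun y hy => by rw [List.mem_singleton] at hy; rw [hy]; exact ha)]
        rfl
      have h4 := (move_left hK hi1 r1 hr1).ctx (sb [a]) (sb r2)
        (N' := K + 4 * (a :: (r1 ++ iv a :: r2)).length) (by
          rw [la, l2]
          simp only [List.length_cons, List.length_append]
          omega)
      have h5 := (hK' a ha).ctx [] (sb (r1 ++ r2))
        (N' := K + 4 * (a :: (r1 ++ iv a :: r2)).length) (by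
          rw [l12, hlen]
          simp only [List.length_nil]
          omega)
      have e3 : sb (a :: (r1 ++ iv a :: r2)) = sb [a] ++ sb (r1 ++ [iv a]) ++ sb r2 := by
        rw [← sb_append, ← sb_append]
        simp
      have e4 : sb [a] ++ sb ([iv a] ++ r1) ++ sb r2 = [] ++ sb [a, iv a] ++ sb (r1 ++ r2) := by
        rw [List.nil_append, ← sb_append, ← sb_append, ← sb_append]
        simp
      rw [e4] at h4
      rw [e3]
      refine (h4.trans h5).trans ?_
      rw [List.nil_append]
      exact h3.mono (by rw [hlen]; omega)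

theorem main : ∃ K, ∀ u : List ℕ, (∀ x ∈ u, x < 15) → (∀ m < 12, vl m u = 1) →
    GR PR (K * (u.length + 1)) u [] := by
  obtain ⟨K, hK⟩ := normal
  obtain ⟨K2, hK2, hK2'⟩ := exists_K2
  refine ⟨5 * K + K2 + 1, fun u hu hv => ?_⟩
  obtain ⟨b, q, h1, h2, h3, h4⟩ := hK u hu
  have h5 : ∀ m < 12, vl m (sb b) * vl m q = 1 := by
    intro m hm
    rw [← vl_append, ← hv m hm]
    exact (sound (pm m) (pm_mul m) (fun a b h => pm_T hm h) h4).symm
  have hq : q = [] := by
    refine q_par q h3 (fun m hm => ?_)
    have := h5 (6 + m) (by omega)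
    rwa [vl_par hm h1, one_mul] at this
  subst hq
  have h6 := counts h1 (by
    intro m hm
    have h7 := h5 m (by omega)
    rw [vl_tr hm h1] at h7
    have h8 : DihedralGroup.r (List.map (tr m) b).sum * vl m [] =
      DihedralGroup.r (List.map (tr m) b).sum := mul_one _
    rw [h8] at h7
    exact DihedralGroup.r.inj h7)
  have h7 := cancel hK2 hK2' b.length b rfl h1 h6
  rw [List.append_nil] at h4
  have e : (5 * K + K2 + 1) * (u.length + 1) = 5 * (K * u.length) + 5 * K + K2 * u.length + K2 +
    u.length + 1 := by ring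
  have e2 : 4 * b.length ≤ 4 * (K * u.length) := by omega
  refine (h4.mono ?_).trans (h7.mono ?_)
  · rw [e]
    nlinarith [Nat.zero_le (K * u.length), Nat.zero_le (K2 * u.length)]
  · rw [e]
    nlinarith [Nat.zero_le (K * u.length), Nat.zero_le (K2 * u.length)]

end Pool.Agent.Helper2GI.Pet
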