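import Mathlib

/-!
Decidability of bounded rewriting: for a finite list `R` of rewriting rules and a bound `N`, it is
decidable (uniformly in `R`, `N` and the word) whether a word can be rewritten to the empty word
through words of length at most `N`.
-/

set_option autoImplicit false

namespace Pool.Agent.Helper2GI

/-- words over the natural numbers -/
abbrev Wd := List ℕ

/-- rewriting rules -/
abbrev Rule := List ℕ × List ℕ

/-- one rewriting step -/
def Step (R : List Rule) (s t : Wd) : Prop :=
  ∃ l r a b, (a, b) ∈ R ∧ s = l ++ a ++ r ∧ t = l ++ b ++ r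

/-- one rewriting step to a word of length at most `N` -/
def BStep (R : List Rule) (N : ℕ) (s t : Wd) : Prop := Step R s t ∧ t.length ≤ N

/-- bounded rewriting to the empty word -/
def Reach (R : List Rule) (N : ℕ) (w : Wd) : Prop := Relation.ReflTransGen (BStep R N) w []

/-- apply a rule at a position -/
def app1 (s : Wd) (i : ℕ) (a b : Wd) : List Wd :=
  if (s.drop i).take a.length = a then [s.take i ++ b ++ s.drop (i + a.length)] else []

/-- all results of one step -/
def succs (R : List Rule) (s : Wd) : List Wd :=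
  R.flatMap fun p => (List.range (s.length + 1)).flatMap fun i => app1 s i p.1 p.2

theorem mem_succs (R : List Rule) (s t : Wd) : t ∈ succs R s ↔ Step R s t := by
  unfold succs Step
  simp only [List.mem_flatMap, List.mem_range, app1]
  constructor
  · rintro ⟨⟨a, b⟩, hab, i, hi, ht⟩
    simp only at ht
    split_ifs at ht with h
    · simp only [List.mem_singleton] at ht
      refine ⟨s.take i, s.drop (i + a.length), a, b, hab, ?_, ht⟩
      conv_lhs => rw [← List.take_append_drop i s, ← List.take_append_drop a.length (s.drop i), h]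
      rw [List.drop_drop, List.append_assoc]
    · simp at ht
  · rintro ⟨l, r, a, b, hab, rfl, rfl⟩
    refine ⟨(a, b), hab, l.length, by simp, ?_⟩
    have h1 : ((l ++ a ++ r).drop l.length).take a.length = a := by
      rw [List.append_assoc, List.drop_left, List.take_left]
    rw [if_pos h1]
    simp only [List.mem_singleton]
    have h2 : (l ++ a ++ r).take l.length = l := by
      rw [List.append_assoc, List.take_left]
    have h3 : (l ++ a ++ r).drop (l.length + a.length) = r := by
      rw [← List.length_append, List.drop_left]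
    rw [h2, h3]

/-- all results of one bounded step -/
def bsuccs (R : List Rule) (N : ℕ) (s : Wd) : List Wd :=
  (succs R s).flatMap fun t => if t.length ≤ N then [t] else []

theorem mem_bsuccs (R : List Rule) (N : ℕ) (s t : Wd) : t ∈ bsuccs R N s ↔ BStep R N s t := by
  unfold bsuccs BStep
  rw [List.mem_flatMap]
  constructor
  · rintro ⟨u, hu, ht⟩
    split_ifs at ht with h
    · simp only [List.mem_singleton] at ht
      subst ht
      exact ⟨(mem_succs _ _ _).1 hu, h⟩
    · simp at ht
  · rintro ⟨h1, h2⟩
    exact ⟨t, (mem_succs _ _ _).2 h1, by rw [if_pos h2]; simp⟩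

/-- one round of growth -/
def grow (R : List Rule) (N : ℕ) (S : List Wd) : List Wd := S ++ S.flatMap fun s => bsuccs R N s

/-- words reachable in `k` rounds -/
def iter (R : List Rule) (N : ℕ) (w : Wd) (k : ℕ) : List Wd :=
  Nat.rec [w] (fun _ S => grow R N S) k

theorem iter_zero (R : List Rule) (N : ℕ) (w : Wd) : iter R N w 0 = [w] := rfl

theorem iter_succ (R : List Rule) (N : ℕ) (w : Wd) (k : ℕ) :
    iter R N w (k + 1) = grow R N (iter R N w k) := rfl

theorem iter_sound (R : List Rule) (N : ℕ) (w : Wd) (k : ℕ) :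
    ∀ t ∈ iter R N w k, Relation.ReflTransGen (BStep R N) w t := by
  induction k with
  | zero =>
    intro t ht
    rw [iter_zero, List.mem_singleton] at ht
    subst ht
    exact Relation.ReflTransGen.refl
  | succ k ih =>
    intro t ht
    rw [iter_succ, grow, List.mem_append, List.mem_flatMap] at ht
    rcases ht with ht | ⟨s, hs, ht⟩
    · exact ih t ht
    · exact (ih s hs).tail ((mem_bsuccs _ _ _ _).1 ht)

theorem iter_complete (R : List Rule) (N : ℕ) (w t : Wd)
    (h : Relation.ReflTransGen (BStep R N) w t) : ∃ k, t ∈ iter R N w k := by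
  induction h with
  | refl => exact ⟨0, by simp [iter_zero]⟩
  | tail _ h2 ih =>
    obtain ⟨k, hk⟩ := ih
    refine ⟨k + 1, ?_⟩
    rw [iter_succ, grow, List.mem_append, List.mem_flatMap]
    exact Or.inr ⟨_, hk, (mem_bsuccs _ _ _ _).2 h2⟩

/-- the set of reachable words is finite -/
theorem finite_reach (R : List Rule) (N : ℕ) (w : Wd) :
    {t | Relation.ReflTransGen (BStep R N) w t}.Finite := by
  classical
  let L : Finset ℕ := w.toFinset ∪ (R.flatMap fun p => p.2).toFinset
  have hL : ∀ t, Relation.ReflTransGen (BStep R N) w t →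
      (∀ x ∈ t, x ∈ L) ∧ (t.length ≤ N ∨ t = w) := by
    intro t ht
    induction ht with
    | refl => exact ⟨fun x hx => by simp [L, hx], Or.inr rfl⟩
    | tail _ h2 ih =>
      obtain ⟨⟨l, r, a, b, hab, h3, h4⟩, h5⟩ := h2
      refine ⟨?_, Or.inl h5⟩
      intro x hx
      rw [h4, List.mem_append, List.mem_append] at hx
      rcases hx with (hx | hx) | hx
      · exact ih.1 x (by rw [h3]; simp [hx])
      · simp only [L, Finset.mem_union, List.mem_toFinset, List.mem_flatMap]
        exact Or.inr ⟨(a, b), hab, hx⟩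
      · exact ih.1 x (by rw [h3]; simp [hx])
  have hfin : ({t : List ℕ | (∀ x ∈ t, x ∈ L) ∧ t.length ≤ max N w.length}).Finite := by
    have h1 := List.finite_length_le L (max N w.length)
    refine (h1.image (fun l : List L => l.map Subtype.val)).subset ?_
    rintro t ⟨h2, h3⟩
    refine ⟨t.attach.map fun x => ⟨x.1, h2 _ x.2⟩, ?_, ?_⟩
    · simpa using h3
    · simp [List.map_map, Function.comp_def]
  refine hfin.subset ?_
  intro t ht
  obtain ⟨h1, h2⟩ := hL t ht
  refine ⟨h1, ?_⟩
  rcases h2 with h2 | h2
  · exact h2.trans (le_max_left _ _)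
  · rw [h2]; exact le_max_right _ _

theorem iter_mono (R : List Rule) (N : ℕ) (w : Wd) {k m : ℕ} (h : k ≤ m) :
    ∀ t ∈ iter R N w k, t ∈ iter R N w m := by
  induction m, h using Nat.le_induction with
  | base => exact fun t h => h
  | succ m _ ih =>
    intro t ht
    rw [iter_succ, grow, List.mem_append]
    exact Or.inl (ih t ht)

theorem exists_stable (R : List Rule) (N : ℕ) (w : Wd) :
    ∃ k, ∀ t ∈ iter R N w (k + 1), t ∈ iter R N w k := by
  classical
  have hfin := finite_reach R N w
  choose! f hf using fun t (ht : t ∈ {t | Relation.ReflTransGen (BStep R N) w t}) =>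
    iter_complete R N w t ht
  refine ⟨(hfin.toFinset.sup f), ?_⟩
  intro t ht
  have h1 := iter_sound R N w _ t ht
  have h2 : f t ≤ hfin.toFinset.sup f := Finset.le_sup (f := f) (by simpa using h1)
  exact iter_mono R N w h2 t (hf t h1)

theorem stable_spec (R : List Rule) (N : ℕ) (w : Wd) (k : ℕ)
    (h : ∀ t ∈ iter R N w (k + 1), t ∈ iter R N w k) (hn : [] ∉ iter R N w k) :
    ¬ Reach R N w := by
  intro hr
  have : ∀ t, Relation.ReflTransGen (BStep R N) w t → t ∈ iter R N w k := by
    intro t ht
    induction ht with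
    | refl => exact iter_mono R N w (Nat.zero_le k) w (by simp [iter_zero])
    | tail _ h2 ih =>
      refine h _ ?_
      rw [iter_succ, grow, List.mem_append, List.mem_flatMap]
      exact Or.inr ⟨_, ih, (mem_bsuccs _ _ _ _).2 h2⟩
  exact hn (this [] hr)

/-! ### Primitive recursiveness -/

theorem primrec_app1 : Primrec (fun q : (Wd × ℕ) × Rule => app1 q.1.1 q.1.2 q.2.1 q.2.2) := by
  unfold app1
  refine Primrec.ite ?_ ?_ (Primrec.const [])
  · refine PrimrecRel.comp Primrec.eq ?_ (Primrec.fst.comp Primrec.snd)
    exact Primrec.list_take.comp (Primrec.list_length.comp (Primrec.fst.comp Primrec.snd))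
      (Primrec.list_drop.comp (Primrec.snd.comp Primrec.fst) (Primrec.fst.comp Primrec.fst))
  · refine Primrec.list_cons.comp ?_ (Primrec.const [])
    refine Primrec.list_append.comp (Primrec.list_append.comp ?_ (Primrec.snd.comp Primrec.snd)) ?_
    · exact Primrec.list_take.comp (Primrec.snd.comp Primrec.fst) (Primrec.fst.comp Primrec.fst)
    · exact Primrec.list_drop.comp (Primrec.nat_add.comp (Primrec.snd.comp Primrec.fst)
        (Primrec.list_length.comp (Primrec.fst.comp Primrec.snd))) (Primrec.fst.comp Primrec.fst)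

theorem primrec_succs : Primrec (fun q : List Rule × Wd => succs q.1 q.2) := by
  unfold succs
  refine Primrec.list_flatMap Primrec.fst ?_
  refine Primrec.list_flatMap (Primrec.list_range.comp (Primrec.succ.comp
    (Primrec.list_length.comp (Primrec.snd.comp Primrec.fst)))) ?_
  exact primrec_app1.comp (Primrec.pair (Primrec.pair
    (Primrec.snd.comp (Primrec.fst.comp Primrec.fst)) Primrec.snd) (Primrec.snd.comp Primrec.fst))

theorem primrec_bsuccs : Primrec (fun q : (List Rule × ℕ) × Wd => bsuccs q.1.1 q.1.2 q.2) := by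
  unfold bsuccs
  refine Primrec.list_flatMap (primrec_succs.comp (Primrec.pair (Primrec.fst.comp Primrec.fst)
    Primrec.snd)) ?_
  refine Primrec.ite ?_ ?_ (Primrec.const [])
  · exact PrimrecRel.comp Primrec.nat_le (Primrec.list_length.comp Primrec.snd)
      (Primrec.snd.comp (Primrec.fst.comp Primrec.fst))
  · exact Primrec.list_cons.comp Primrec.snd (Primrec.const [])

theorem primrec_grow : Primrec (fun q : (List Rule × ℕ) × List Wd => grow q.1.1 q.1.2 q.2) := by
  have h : Primrec (fun q : (List Rule × ℕ) × List Wd =>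
      q.2.flatMap fun s => bsuccs q.1.1 q.1.2 s) := by
    refine Primrec.list_flatMap Primrec.snd ?_
    exact primrec_bsuccs.comp (Primrec.pair (Primrec.fst.comp Primrec.fst) Primrec.snd)
  exact Primrec.list_append.comp Primrec.snd h

theorem primrec_iter :
    Primrec (fun q : ((List Rule × ℕ) × Wd) × ℕ => iter q.1.1.1 q.1.1.2 q.1.2 q.2) := by
  refine (Primrec.nat_rec' (α := ((List Rule × ℕ) × Wd) × ℕ) (β := List Wd) (f := fun q => q.2)
    (g := fun q => [q.1.2]) (h := fun q p => grow q.1.1.1 q.1.1.2 p.2) Primrec.snd ?_ ?_)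
  · exact Primrec.list_cons.comp (Primrec.snd.comp Primrec.fst) (Primrec.const [])
  · exact primrec_grow.comp (Primrec.pair (Primrec.fst.comp (Primrec.fst.comp Primrec.fst))
      (Primrec.snd.comp Primrec.snd))

theorem primrecRel_mem {α : Type} [Primcodable α] [DecidableEq α] :
    PrimrecRel (fun (a : α) (l : List α) => a ∈ l) := by
  have h0 : PrimrecRel (fun a b : α => a = b) := Primrec.eq
  have h : PrimrecRel fun (L : List α) (b : α) => ∃ a ∈ L, a = b := h0.exists_mem_list
  have h2 : PrimrecPred (fun q : α × List α => ∃ a ∈ q.2, a = q.1) :=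
    h.comp (Primrec.snd) (Primrec.fst)
  exact PrimrecPred.of_eq h2 (fun q => by simp)

theorem re_of_search {α : Type} [Primcodable α] {Q : α → ℕ → Prop}
    (hQ : PrimrecPred (fun q : α × ℕ => Q q.1 q.2)) : REPred (fun a => ∃ k, Q a k) := by
  classical
  obtain ⟨hd, hQ'⟩ := hQ
  have hQ2 : Primrec₂ (fun (x : α) (k : ℕ) => decide (Q x k)) := by
    refine hQ'.of_eq ?_
    intro q
    congr
  have h1 : Partrec (fun x : α => Nat.rfind (fun k => (Part.some (decide (Q x k)) : Part Bool))) :=
    Partrec.rfind hQ2.to_comp.partrec₂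
  refine (h1.dom_re).of_eq fun x => ?_
  refine Iff.trans Nat.rfind_dom ?_
  constructor
  · rintro ⟨k, hk, _⟩
    simp only [Part.mem_some_iff] at hk
    exact ⟨k, by simpa using hk.symm⟩
  · rintro ⟨k, hk⟩
    exact ⟨k, by simp [hk], fun _ => trivial⟩

/-- Bounded rewriting to the empty word is decidable, uniformly. -/
theorem computable_reach :
    ComputablePred (fun q : (List Rule × ℕ) × Wd => Reach q.1.1 q.1.2 q.2) := by
  rw [ComputablePred.computable_iff_re_compl_re']
  constructor
  · have h : REPred (fun q : (List Rule × ℕ) × Wd => ∃ k, [] ∈ iter q.1.1 q.1.2 q.2 k) := by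
      refine re_of_search (Q := fun (q : (List Rule × ℕ) × Wd) k => [] ∈ iter q.1.1 q.1.2 q.2 k) ?_
      exact primrecRel_mem.comp (Primrec.const []) primrec_iter
    refine h.of_eq fun q => ?_
    constructor
    · rintro ⟨k, hk⟩
      exact iter_sound _ _ _ _ _ hk
    · intro h
      exact iter_complete _ _ _ _ h
  · have h : REPred (fun q : (List Rule × ℕ) × Wd => ∃ k, [] ∉ iter q.1.1 q.1.2 q.2 k ∧
        ∀ t ∈ iter q.1.1 q.1.2 q.2 (k + 1), t ∈ iter q.1.1 q.1.2 q.2 k) := by
      refine re_of_search (Q := fun (q : (List Rule × ℕ) × Wd) k => [] ∉ iter q.1.1 q.1.2 q.2 k ∧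
        ∀ t ∈ iter q.1.1 q.1.2 q.2 (k + 1), t ∈ iter q.1.1 q.1.2 q.2 k) ?_
      refine PrimrecPred.and (PrimrecPred.not (primrecRel_mem.comp (Primrec.const []) primrec_iter))
        ?_
      have h1 : PrimrecRel (fun (L : List Wd) (M : List Wd) => ∀ a ∈ L, a ∈ M) :=
        PrimrecRel.forall_mem_list primrecRel_mem
      exact h1.comp (primrec_iter.comp (Primrec.pair Primrec.fst (Primrec.succ.comp Primrec.snd)))
        primrec_iter
    refine h.of_eq fun q => ?_
    constructor
    · rintro ⟨k, hk1, hk2⟩
      exact stable_spec _ _ _ k hk2 hk1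
    · intro h
      obtain ⟨k, hk⟩ := exists_stable q.1.1 q.1.2 q.2
      exact ⟨k, fun h2 => h (iter_sound _ _ _ _ _ h2), hk⟩

end Pool.Agent.Helper2GI
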