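import Mathlib

/-!
Graph incidence groups of finite coloured multigraphs, and the uniform word problem for a class of
such graphs.
-/

set_option autoImplicit false

namespace Pool.Agent.Helper2GI

/-- A finite multigraph with a `ℤ/2`-colouring, coded by numbers: `c.1` is the number of vertices
(the vertices are `0, …, c.1 - 1`), `c.2.1` is the list of the edges, each given by its two
endpoints (repetitions allowed), and `c.2.2` is the list of the vertices of colour `1`. -/
abbrev Code := ℕ × List (ℕ × ℕ) × List ℕ

/-- The endpoints of each edge are two different vertices. -/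
def Valid (c : Code) : Prop := ∀ p ∈ c.2.1, p.1 < c.1 ∧ p.2 < c.1 ∧ p.1 ≠ p.2

/-- The type of edges (positions in the list of edges). -/
abbrev Edge (c : Code) := Fin c.2.1.length

/-- The edge `i` is incident with `v`. -/
def Inc (c : Code) (v : ℕ) (i : Edge c) : Prop := (c.2.1.get i).1 = v ∨ (c.2.1.get i).2 = v

instance (c : Code) (v : ℕ) (i : Edge c) : Decidable (Inc c v i) := by
  unfold Inc
  infer_instance

/-- The list of the edges incident with `v`. -/
def star (c : Code) (v : ℕ) : List (Edge c) :=
  (List.finRange c.2.1.length).filter fun i => Inc c v i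

/-- The colour of `v`. -/
def colour (c : Code) (v : ℕ) : ℕ := if v ∈ c.2.2 then 1 else 0

/-- The relators; the generator `none` is `J`, the generator `some i` is `x_i`. -/
inductive Rlt (c : Code) : FreeGroup (Option (Edge c)) → Prop
  | JJ : Rlt c (FreeGroup.of none * FreeGroup.of none)
  | xx (i : Edge c) : Rlt c (FreeGroup.of (some i) * FreeGroup.of (some i))
  | xJ (i : Edge c) : Rlt c (FreeGroup.of (some i) * FreeGroup.of none *
      (FreeGroup.of (some i))⁻¹ * (FreeGroup.of none)⁻¹)
  | comm (v : ℕ) (i j : Edge c) (hi : Inc c v i) (hj : Inc c v j) :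
      Rlt c (FreeGroup.of (some i) * FreeGroup.of (some j) *
        (FreeGroup.of (some i))⁻¹ * (FreeGroup.of (some j))⁻¹)
  | vert (v : ℕ) (hv : v < c.1) :
      Rlt c (((star c v).map fun i => FreeGroup.of (some i)).prod *
        ((FreeGroup.of none) ^ colour c v)⁻¹)

/-- The graph incidence group `Γ(G, b)`. -/
abbrev Gam (c : Code) : Type := PresentedGroup {r | Rlt c r}

/-- The element `J`. -/
def J (c : Code) : Gam c := PresentedGroup.of none

/-- The element `x_i`. -/
def x (c : Code) (i : Edge c) : Gam c := PresentedGroup.of (some i)

/-- Words in the letters `J^±1` (`(none, true)` and `(none, false)`) and `x_i^±1`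
(`(some i, true)` and `(some i, false)`). -/
abbrev Wrd := List (Option ℕ × Bool)

/-- The element given by a letter (letters `x_i` where there is no edge `i` are read as `1`). -/
def letter (c : Code) : Option ℕ × Bool → Gam c
  | (none, s) => cond s (J c) (J c)⁻¹
  | (some i, s) => if h : i < c.2.1.length then cond s (x c ⟨i, h⟩) (x c ⟨i, h⟩)⁻¹ else 1

/-- The element given by a word. -/
def value (c : Code) (w : Wrd) : Gam c := (w.map (letter c)).prod

/-- The word problem for the graph incidence groups of the coloured graphs in the class `C` is
solvable by one algorithm. -/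
def Solvable (C : Code → Prop) : Prop :=
  ∃ f : Code × Wrd → Bool, Computable f ∧
    ∀ (c : Code) (w : Wrd), Valid c → C c → (f (c, w) = true ↔ value c w = 1)

end Pool.Agent.Helper2GI
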