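import Mathlib
import Pool.Agent.Helper2GI.Defs
import Pool.Agent.Helper2GI.Dec

/-!
The rewriting rules of a coded graph, their soundness, and their computability.
-/

set_option autoImplicit false

namespace Pool.Agent.Helper2GI

/-- incidence on numbers -/
def incN (c : Code) (v i : ℕ) : Prop := (c.2.1.getD i (0, 0)).1 = v ∨ (c.2.1.getD i (0, 0)).2 = v

instance (c : Code) (v i : ℕ) : Decidable (incN c v i) := by
  unfold incN
  infer_instance

theorem incN_iff (c : Code) (v : ℕ) (i : Edge c) : incN c v i.1 ↔ Inc c v i := by
  unfold incN Inc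
  rw [List.getD_eq_getElem _ _ i.2]
  rfl

/-- two edges with a common endpoint -/
def shr (c : Code) (i j : ℕ) : Prop :=
  incN c (c.2.1.getD i (0, 0)).1 j ∨ incN c (c.2.1.getD i (0, 0)).2 j

instance (c : Code) (i j : ℕ) : Decidable (shr c i j) := by
  unfold shr
  infer_instance

theorem shr_iff (c : Code) (i j : Edge c) : shr c i.1 j.1 ↔ ∃ v, Inc c v i ∧ Inc c v j := by
  unfold shr
  rw [incN_iff, incN_iff, List.getD_eq_getElem _ _ i.2]
  constructor
  · rintro (h | h)
    · exact ⟨_, Or.inl rfl, h⟩
    · exact ⟨_, Or.inr rfl, h⟩
  · rintro ⟨v, h1, h2⟩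
    rcases h1 with h1 | h1
    · left
      rw [show (c.2.1[i.1]).1 = v from h1]
      exact h2
    · right
      rw [show (c.2.1[i.1]).2 = v from h1]
      exact h2

/-- the star of a vertex as a word -/
def starN (c : Code) (v : ℕ) : List ℕ :=
  (List.range c.2.1.length).flatMap fun i => if incN c v i then [i + 1] else []

/-- the colour of a vertex as a word -/
def colN (c : Code) (v : ℕ) : List ℕ := if v ∈ c.2.2 then [0] else []

/-- rules, first part -/
def R1 (c : Code) : List Rule :=
  (List.range c.2.1.length).flatMap fun i =>
    [([0, i + 1], [i + 1, 0]), ([i + 1, 0], [0, i + 1]), ([i + 1, i + 1], []), ([], [i + 1, i + 1])]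

/-- rules, second part -/
def R2 (c : Code) : List Rule :=
  (List.range c.2.1.length).flatMap fun i =>
    (List.range c.2.1.length).flatMap fun j =>
      if shr c i j then [([i + 1, j + 1], [j + 1, i + 1])] else []

/-- rules, third part -/
def R3 (c : Code) : List Rule :=
  (List.range c.1).flatMap fun v => [(starN c v, colN c v), (colN c v, starN c v)]

/-- all rules -/
def RL (c : Code) : List Rule := [([0, 0], []), ([], [0, 0])] ++ R1 c ++ R2 c ++ R3 c

/-- the letters as numbers -/
def enc (c : Code) : Option (Edge c) → ℕ
  | none => 0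
  | some i => i.1 + 1

/-- the value of a number -/
def valN (c : Code) : ℕ → Gam c
  | 0 => J c
  | i + 1 => if h : i < c.2.1.length then x c ⟨i, h⟩ else 1

theorem valN_enc (c : Code) (a : Option (Edge c)) :
    valN c (enc c a) = PresentedGroup.of a := by
  cases a with
  | none => rfl
  | some i =>
    unfold enc valN
    simp only [i.2, dite_true]
    rfl

/-- the value of a word of numbers -/
def valW (c : Code) (w : List ℕ) : Gam c := (w.map (valN c)).prod

theorem valW_append (c : Code) (u w : List ℕ) : valW c (u ++ w) = valW c u * valW c w := by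
  unfold valW
  rw [List.map_append, List.prod_append]

theorem one_of_rlt {c : Code} {r : FreeGroup (Option (Edge c))} (h : Rlt c r) :
    (PresentedGroup.mk {r | Rlt c r} r : Gam c) = 1 := PresentedGroup.one_of_mem h

theorem JJ_one (c : Code) : J c * J c = 1 := by
  have := one_of_rlt (Rlt.JJ (c := c))
  rwa [map_mul] at this

theorem xx_one (c : Code) (i : Edge c) : x c i * x c i = 1 := by
  have := one_of_rlt (Rlt.xx i)
  rwa [map_mul] at this

theorem xJ_comm (c : Code) (i : Edge c) : x c i * J c = J c * x c i := by
  have := one_of_rlt (Rlt.xJ i)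
  rw [map_mul, map_mul, map_mul, map_inv, map_inv, mul_inv_eq_one, mul_inv_eq_iff_eq_mul] at this
  exact this

theorem xx_comm (c : Code) {v : ℕ} {i j : Edge c} (hi : Inc c v i) (hj : Inc c v j) :
    x c i * x c j = x c j * x c i := by
  have := one_of_rlt (Rlt.comm v i j hi hj)
  rw [map_mul, map_mul, map_mul, map_inv, map_inv, mul_inv_eq_one, mul_inv_eq_iff_eq_mul] at this
  exact this

theorem vert_rel (c : Code) {v : ℕ} (hv : v < c.1) :
    ((star c v).map (x c)).prod = J c ^ colour c v := by
  have := one_of_rlt (Rlt.vert (c := c) v hv)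
  rw [map_mul, map_inv, map_pow, map_list_prod, List.map_map, mul_inv_eq_one] at this
  exact this

theorem starN_eq (c : Code) (v : ℕ) :
    starN c v = ((star c v).map some).map (enc c) := by
  unfold starN star
  have h1 : List.range c.2.1.length = (List.finRange c.2.1.length).map Fin.val := by
    simp
  rw [h1, List.flatMap_map]
  generalize List.finRange c.2.1.length = l
  induction l with
  | nil => rfl
  | cons i l ih =>
    rw [List.flatMap_cons, ih]
    by_cases h : Inc c v i
    · rw [if_pos ((incN_iff c v i).2 h), List.filter_cons_of_pos (by simpa using h)]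
      rfl
    · rw [if_neg (fun h2 => h ((incN_iff c v i).1 h2)), List.filter_cons_of_neg (by simpa using h)]
      rfl

theorem valW_colN (c : Code) (v : ℕ) : valW c (colN c v) = J c ^ colour c v := by
  unfold colN colour
  split_ifs
  · rw [pow_one]
    unfold valW
    simp [valN]
  · rw [pow_zero]
    rfl

theorem valW_starN (c : Code) (v : ℕ) : valW c (starN c v) = ((star c v).map (x c)).prod := by
  rw [starN_eq]
  unfold valW
  rw [List.map_map, List.map_map]
  congr 1
  apply List.map_congr_left
  intro i _
  exact valN_enc c (some i)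

theorem rule_sound (c : Code) {a b : List ℕ} (h : (a, b) ∈ RL c) : valW c a = valW c b := by
  unfold RL at h
  simp only [List.mem_append, List.mem_cons, List.not_mem_nil, or_false, Prod.mk.injEq] at h
  have hJ : valW c [0, 0] = 1 := by
    unfold valW
    simp only [List.map_cons, List.map_nil, List.prod_cons, List.prod_nil, mul_one]
    exact JJ_one c
  have hnil : valW c [] = 1 := rfl
  rcases h with (((⟨rfl, rfl⟩ | ⟨rfl, rfl⟩) | h) | h) | h
  · rw [hJ, hnil]
  · rw [hJ, hnil]
  · unfold R1 at h
    rw [List.mem_flatMap] at h
    obtain ⟨i, hi, h⟩ := h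
    rw [List.mem_range] at hi
    have hv : valN c (i + 1) = x c ⟨i, hi⟩ := by
      unfold valN
      simp only [hi, dite_true]
    have h0 : valN c 0 = J c := rfl
    have hc := xJ_comm c ⟨i, hi⟩
    have hx := xx_one c ⟨i, hi⟩
    simp only [List.mem_cons, List.not_mem_nil, or_false, Prod.mk.injEq] at h
    rcases h with ⟨rfl, rfl⟩ | ⟨rfl, rfl⟩ | ⟨rfl, rfl⟩ | ⟨rfl, rfl⟩ <;> unfold valW <;>
      simp [hv, h0, hc, hx]
  · unfold R2 at h
    rw [List.mem_flatMap] at h
    obtain ⟨i, hi, h⟩ := h
    rw [List.mem_flatMap] at h
    obtain ⟨j, hj, h⟩ := h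
    rw [List.mem_range] at hi hj
    split_ifs at h with hs
    · simp only [List.mem_singleton, Prod.mk.injEq] at h
      obtain ⟨rfl, rfl⟩ := h
      obtain ⟨v, h1, h2⟩ := (shr_iff c ⟨i, hi⟩ ⟨j, hj⟩).1 hs
      have hvi : valN c (i + 1) = x c ⟨i, hi⟩ := by
        unfold valN
        simp only [hi, dite_true]
      have hvj : valN c (j + 1) = x c ⟨j, hj⟩ := by
        unfold valN
        simp only [hj, dite_true]
      unfold valW
      simp only [List.map_cons, List.map_nil, List.prod_cons, List.prod_nil, mul_one, hvi, hvj]
      exact xx_comm c h1 h2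
    · simp at h
  · unfold R3 at h
    rw [List.mem_flatMap] at h
    obtain ⟨v, hv, h⟩ := h
    rw [List.mem_range] at hv
    simp only [List.mem_cons, List.not_mem_nil, or_false, Prod.mk.injEq] at h
    rcases h with ⟨rfl, rfl⟩ | ⟨rfl, rfl⟩
    · rw [valW_starN, valW_colN, vert_rel c hv]
    · rw [valW_starN, valW_colN, vert_rel c hv]

theorem reach_sound (c : Code) (N : ℕ) (w : List ℕ) (h : Reach (RL c) N w) : valW c w = 1 := by
  have key : ∀ s t, Relation.ReflTransGen (BStep (RL c) N) s t → valW c s = valW c t := by
    intro s t hst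
    induction hst with
    | refl => rfl
    | tail _ h2 ih =>
      obtain ⟨⟨l, r, a, b, hab, h3, h4⟩, _⟩ := h2
      rw [ih, h3, h4, valW_append, valW_append, valW_append, valW_append, rule_sound c hab]
  rw [key w [] h]
  rfl

/-- conversion of words -/
def conv (c : Code) (w : Wrd) : List ℕ :=
  w.flatMap fun a => Option.casesOn a.1 [0] fun i => if i < c.2.1.length then [i + 1] else []

theorem J_inv (c : Code) : (J c)⁻¹ = J c := inv_eq_of_mul_eq_one_right (JJ_one c)

theorem x_inv (c : Code) (i : Edge c) : (x c i)⁻¹ = x c i :=
  inv_eq_of_mul_eq_one_right (xx_one c i)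

theorem valW_conv (c : Code) (w : Wrd) : valW c (conv c w) = value c w := by
  induction w with
  | nil => rfl
  | cons a w ih =>
    unfold value at ih ⊢
    rw [List.map_cons, List.prod_cons, ← ih]
    have h : conv c (a :: w) =
        (Option.casesOn a.1 [0] fun i => if i < c.2.1.length then [i + 1] else []) ++ conv c w := by
      unfold conv
      rw [List.flatMap_cons]
    rw [h, valW_append]
    congr 1
    obtain ⟨a, s⟩ := a
    cases a with
    | none =>
      show valW c [0] = cond s (J c) (J c)⁻¹
      rw [J_inv]
      cases s <;> (unfold valW; simp [valN])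
    | some i =>
      show valW c (if i < c.2.1.length then [i + 1] else []) =
        if h : i < c.2.1.length then cond s (x c ⟨i, h⟩) (x c ⟨i, h⟩)⁻¹ else 1
      by_cases hi : i < c.2.1.length
      · rw [if_pos hi, dif_pos hi, x_inv]
        cases s <;> (unfold valW; simp [valN, hi])
      · rw [if_neg hi, dif_neg hi]
        rfl

/-! ### Computability -/

theorem primrec_getE : Primrec (fun q : Code × ℕ => q.1.2.1.getD q.2 (0, 0)) :=
  (Primrec.list_getD ((0, 0) : ℕ × ℕ)).comp
    (Primrec.fst.comp (Primrec.snd.comp Primrec.fst)) Primrec.snd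

theorem primrec_incN : PrimrecPred (fun q : (Code × ℕ) × ℕ => incN q.1.1 q.1.2 q.2) := by
  unfold incN
  have h := primrec_getE.comp (Primrec.pair (Primrec.fst.comp Primrec.fst)
    (Primrec.snd (α := Code × ℕ) (β := ℕ)))
  refine PrimrecPred.or ?_ ?_
  · exact PrimrecRel.comp Primrec.eq (Primrec.fst.comp h) (Primrec.snd.comp Primrec.fst)
  · exact PrimrecRel.comp Primrec.eq (Primrec.snd.comp h) (Primrec.snd.comp Primrec.fst)

theorem primrec_shr : PrimrecPred (fun q : (Code × ℕ) × ℕ => shr q.1.1 q.1.2 q.2) := by
  unfold shr
  have h := primrec_getE.comp (Primrec.fst (α := Code × ℕ) (β := ℕ))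
  refine PrimrecPred.or ?_ ?_
  · exact primrec_incN.comp (Primrec.pair (Primrec.pair (Primrec.fst.comp Primrec.fst)
      (Primrec.fst.comp h)) Primrec.snd)
  · exact primrec_incN.comp (Primrec.pair (Primrec.pair (Primrec.fst.comp Primrec.fst)
      (Primrec.snd.comp h)) Primrec.snd)

theorem primrec_elen : Primrec (fun c : Code => c.2.1.length) :=
  Primrec.list_length.comp (Primrec.fst.comp Primrec.snd)

theorem primrec_one {α : Type} [Primcodable α] {β : Type} [Primcodable β] {f : β → α}
    (h : Primrec f) : Primrec (fun b => [f b]) :=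
  Primrec.list_cons.comp h (Primrec.const [])

theorem primrec_starN : Primrec (fun q : Code × ℕ => starN q.1 q.2) := by
  unfold starN
  refine Primrec.list_flatMap (Primrec.list_range.comp (primrec_elen.comp Primrec.fst)) ?_
  refine Primrec.ite ?_ ?_ (Primrec.const [])
  · exact primrec_incN
  · exact primrec_one (Primrec.succ.comp Primrec.snd)

theorem primrec_colN : Primrec (fun q : Code × ℕ => colN q.1 q.2) := by
  unfold colN
  refine Primrec.ite ?_ (Primrec.const [0]) (Primrec.const [])
  exact (primrecRel_mem (α := ℕ)).comp Primrec.snd (Primrec.snd.comp (Primrec.snd.comp Primrec.fst))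

theorem primrec_R1 : Primrec R1 := by
  unfold R1
  refine Primrec.list_flatMap (Primrec.list_range.comp primrec_elen) ?_
  have hi : Primrec (fun q : Code × ℕ => q.2 + 1) := Primrec.succ.comp Primrec.snd
  have h0 : Primrec (fun _ : Code × ℕ => (0 : ℕ)) := Primrec.const 0
  have hn : Primrec (fun _ : Code × ℕ => ([] : List ℕ)) := Primrec.const []
  have p1 : Primrec (fun q : Code × ℕ => ([0, q.2 + 1] : List ℕ)) :=
    Primrec.list_cons.comp h0 (primrec_one hi)
  have p2 : Primrec (fun q : Code × ℕ => ([q.2 + 1, 0] : List ℕ)) :=
    Primrec.list_cons.comp hi (primrec_one h0)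
  have p3 : Primrec (fun q : Code × ℕ => ([q.2 + 1, q.2 + 1] : List ℕ)) :=
    Primrec.list_cons.comp hi (primrec_one hi)
  exact Primrec.list_cons.comp (Primrec.pair p1 p2) (Primrec.list_cons.comp (Primrec.pair p2 p1)
    (Primrec.list_cons.comp (Primrec.pair p3 hn) (primrec_one (Primrec.pair hn p3))))

theorem primrec_R2 : Primrec R2 := by
  unfold R2
  refine Primrec.list_flatMap (Primrec.list_range.comp primrec_elen) ?_
  refine Primrec.list_flatMap (Primrec.list_range.comp (primrec_elen.comp Primrec.fst)) ?_
  refine Primrec.ite ?_ ?_ (Primrec.const [])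
  · exact primrec_shr
  · have hi : Primrec (fun q : (Code × ℕ) × ℕ => q.1.2 + 1) :=
      Primrec.succ.comp (Primrec.snd.comp Primrec.fst)
    have hj : Primrec (fun q : (Code × ℕ) × ℕ => q.2 + 1) := Primrec.succ.comp Primrec.snd
    exact primrec_one (Primrec.pair (Primrec.list_cons.comp hi (primrec_one hj))
      (Primrec.list_cons.comp hj (primrec_one hi)))

theorem primrec_R3 : Primrec R3 := by
  unfold R3
  refine Primrec.list_flatMap (Primrec.list_range.comp Primrec.fst) ?_
  exact Primrec.list_cons.comp (Primrec.pair primrec_starN primrec_colN)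
    (primrec_one (Primrec.pair primrec_colN primrec_starN))

theorem primrec_RL : Primrec RL := by
  unfold RL
  exact Primrec.list_append.comp (Primrec.list_append.comp (Primrec.list_append.comp
    (Primrec.const _) primrec_R1) primrec_R2) primrec_R3

theorem primrec_conv : Primrec (fun q : Code × Wrd => conv q.1 q.2) := by
  unfold conv
  refine Primrec.list_flatMap Primrec.snd ?_
  have h1 : Primrec (fun q : (Code × Wrd) × (Option ℕ × Bool) => q.2.1) :=
    Primrec.fst.comp Primrec.snd
  refine Primrec.option_casesOn h1 (Primrec.const [0]) ?_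
  refine Primrec.ite ?_ ?_ (Primrec.const [])
  · exact PrimrecRel.comp Primrec.nat_lt Primrec.snd
      (primrec_elen.comp (Primrec.fst.comp (Primrec.fst.comp Primrec.fst)))
  · exact primrec_one (Primrec.succ.comp Primrec.snd)

/-- The word problem is solvable for a class of graphs if words representing the identity have
derivations of bounded length. -/
theorem solvable_of_bound (C : Code → Prop) (B : Code × List ℕ → ℕ) (hB : Primrec B)
    (h : ∀ c, Valid c → C c → ∀ u : List (Option (Edge c)),
      (u.map (PresentedGroup.of (rels := {r | Rlt c r}))).prod = 1 →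
      Reach (RL c) (B (c, u.map (enc c))) (u.map (enc c))) : Solvable C := by
  have hc := computable_reach
  obtain ⟨f, hf, hfe⟩ := ComputablePred.computable_iff.1 hc
  refine ⟨fun q => f ((RL q.1, B (q.1, conv q.1 q.2)), conv q.1 q.2), ?_, ?_⟩
  · refine hf.comp ?_
    refine Primrec.to_comp ?_
    exact Primrec.pair (Primrec.pair (primrec_RL.comp Primrec.fst)
      (hB.comp (Primrec.pair Primrec.fst primrec_conv))) primrec_conv
  · intro c w hV hC
    have h1 : (f ((RL c, B (c, conv c w)), conv c w) = true) ↔
        Reach (RL c) (B (c, conv c w)) (conv c w) := by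
      have := congrFun hfe ((RL c, B (c, conv c w)), conv c w)
      simp only at this
      rw [this]
    show (f ((RL c, B (c, conv c w)), conv c w) = true) ↔ _
    rw [h1]
    constructor
    · intro h2
      rw [← valW_conv]
      exact reach_sound c _ _ h2
    · intro h2
      have h3 : ∃ u : List (Option (Edge c)), u.map (enc c) = conv c w := by
        clear h1 h2
        induction w with
        | nil => exact ⟨[], rfl⟩
        | cons a w ih =>
          obtain ⟨u, hu⟩ := ih
          have h4 : conv c (a :: w) =
              (Option.casesOn a.1 [0] fun i => if i < c.2.1.length then [i + 1] else []) ++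
                conv c w := by
            unfold conv
            rw [List.flatMap_cons]
          obtain ⟨a, s⟩ := a
          cases a with
          | none =>
            refine ⟨none :: u, ?_⟩
            rw [h4, List.map_cons, hu]
            rfl
          | some i =>
            by_cases hi : i < c.2.1.length
            · refine ⟨some ⟨i, hi⟩ :: u, ?_⟩
              rw [h4, List.map_cons, hu]
              show _ = (if i < c.2.1.length then [i + 1] else []) ++ conv c w
              rw [if_pos hi]
              rfl
            · refine ⟨u, ?_⟩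
              rw [h4, hu]
              show _ = (if i < c.2.1.length then [i + 1] else []) ++ conv c w
              rw [if_neg hi]
              rfl
      obtain ⟨u, hu⟩ := h3
      rw [← hu]
      refine h c hV hC u ?_
      rw [← valW_conv, ← hu] at h2
      rw [← h2]
      unfold valW
      rw [List.map_map]
      congr 1
      apply List.map_congr_left
      intro a _
      exact (valN_enc c a).symm

end Pool.Agent.Helper2GI
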