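import Mathlib
import Pool.Agent.Helper2GI.RACG

/-!
Parabolic subgroups of right-angled Coxeter groups, centralizers of generators, and crossing walls.
-/

set_option autoImplicit false

namespace Pool.Agent.Helper2GI

open Pool.Agent.W387

namespace RA

variable {E : Type} {G : RA E}

/-- the parabolic subgroup of a set of generators -/
def Par (Z : E → Prop) (x : G.W) : Prop := ∃ m : List E, (∀ a ∈ m, Z a) ∧ G.ev m = x

theorem Par.one (Z : E → Prop) : Par Z (1 : G.W) := ⟨[], by simp, rfl⟩

theorem Par.gen {Z : E → Prop} {a : E} (h : Z a) : Par Z (G.g a) :=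
  ⟨[a], by simpa using h, ev_single a⟩

theorem Par.mul {Z : E → Prop} {x y : G.W} (hx : Par Z x) (hy : Par Z y) : Par Z (x * y) := by
  obtain ⟨m, hm, rfl⟩ := hx
  obtain ⟨m', hm', rfl⟩ := hy
  refine ⟨m ++ m', ?_, ev_append m m'⟩
  intro a ha
  rcases List.mem_append.1 ha with h | h
  · exact hm a h
  · exact hm' a h

theorem Par.inv {Z : E → Prop} {x : G.W} (hx : Par Z x) : Par Z x⁻¹ := by
  obtain ⟨m, hm, rfl⟩ := hx
  exact ⟨m.reverse, fun a ha => hm a (List.mem_reverse.1 ha), ev_reverse m⟩

theorem Par.mono {Z Z' : E → Prop} (h : ∀ a, Z a → Z' a) {x : G.W} (hx : Par Z x) : Par Z' x := by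
  obtain ⟨m, hm, rfl⟩ := hx
  exact ⟨m, fun a ha => h a (hm a ha), rfl⟩

open Classical in
/-- the retraction onto a parabolic subgroup -/
noncomputable def ret (Z : E → Prop) : G.W →* G.W :=
  hom (fun a => if Z a then G.g a else 1)
    (fun a => by
      split_ifs
      · exact gg a
      · exact one_mul 1)
    (fun a b hab => by
      split_ifs
      · exact gcomm hab
      · simp
      · simp
      · simp)

theorem ret_g_pos {Z : E → Prop} {a : E} (h : Z a) : ret Z (G.g a) = G.g a := by
  unfold ret
  rw [hom_g, if_pos h]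

theorem ret_g_neg {Z : E → Prop} {a : E} (h : ¬ Z a) : ret Z (G.g a) = 1 := by
  unfold ret
  rw [hom_g, if_neg h]

theorem ret_par {Z : E → Prop} {x : G.W} (h : Par Z x) : ret Z x = x := by
  obtain ⟨m, hm, rfl⟩ := h
  induction m with
  | nil => simp
  | cons a m ih =>
    rw [ev_cons, map_mul, ih (fun b hb => hm b (List.mem_cons_of_mem a hb)),
      ret_g_pos (hm a (List.mem_cons_self))]

theorem par_ret (Z : E → Prop) {Z' : E → Prop} {x : G.W} (h : Par Z' x) :
    Par (fun a => Z a ∧ Z' a) (ret Z x) := by
  obtain ⟨m, hm, rfl⟩ := h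
  induction m with
  | nil => simpa using Par.one _
  | cons a m ih =>
    rw [ev_cons, map_mul]
    refine Par.mul ?_ (ih fun b hb => hm b (List.mem_cons_of_mem a hb))
    by_cases ha : Z a
    · rw [ret_g_pos ha]
      exact Par.gen ⟨ha, hm a List.mem_cons_self⟩
    · rw [ret_g_neg ha]
      exact Par.one _

theorem Par.inter {Z Z' : E → Prop} {x : G.W} (h : Par Z x) (h' : Par Z' x) :
    Par (fun a => Z a ∧ Z' a) x := by
  have := par_ret Z h'
  rwa [ret_par h] at this

/-- centralizers of generators -/
theorem centralizer (e : E) : ∀ x : G.W, x * G.g e = G.g e * x →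
    Par (fun a => a = e ∨ G.adj a e) x := by
  intro x
  obtain ⟨n, hn⟩ : ∃ n, G.len x = n := ⟨_, rfl⟩
  induction n using Nat.strong_induction_on generalizing x with
  | _ n IH =>
  intro hx
  obtain ⟨m, hm, rfl⟩ := exists_red x
  by_cases hr : G.Red (e :: m)
  · have h1 : G.len (G.ev (m ++ [e])) = (m ++ [e]).length := by
      rw [ev_append, ev_single, hx, ← ev_cons, len_ev _ hr]
      simp
    have h2 : G.Red (m ++ [e]) := red_of_len _ h1
    have h3 : G.sys.E (e :: m) (m ++ [e]) := by
      refine SqSys.E_of_evL_eq hr h2 ?_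
      have h4 : G.ev (e :: m) = G.ev (m ++ [e]) := by
        rw [ev_cons, ev_append, ev_single, hx]
      exact h4
    cases m with
    | nil => exact Par.one _
    | cons a m1 =>
      rcases SqSys.key _ _ _ _ _ rfl h3 with ⟨h4, _⟩ | ⟨p, r, s, h4, _, _⟩
      · exfalso
        subst h4
        exact hr _ (SqSys.E.refl _) (SqSys.HasBack.here e m1)
      · obtain ⟨hae, _, _⟩ := adj_of_sq h4
        have hea := G.symm hae
        have h5 : G.len (G.ev m1) < n := by
          rw [← hn, len_ev _ hm, len_ev _ hm.tail]
          simp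
        have h6 : G.ev m1 * G.g e = G.g e * G.ev m1 := by
          rw [ev_cons] at hx
          have h7 : G.g a * (G.ev m1 * G.g e) = G.g a * (G.g e * G.ev m1) := by
            rw [← mul_assoc, hx, ← mul_assoc, ← mul_assoc, gcomm hae]
          exact mul_left_cancel h7
        rw [ev_cons]
        exact Par.mul (Par.gen (Or.inr hea)) (IH _ h5 _ rfl h6)
  · obtain ⟨m', h1⟩ := SqSys.exists_tail (S := G.sys) hm hr
    have h2 : G.ev m = G.g e * G.ev m' := by
      have : G.ev m = G.ev (e :: m') := SqSys.evL_E h1
      rw [this, ev_cons]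
    have h3 : m.length = m'.length + 1 := by
      have := SqSys.E.length h1
      simpa using this
    have h4 : G.len (G.ev m') < n := by
      have h5 := len_ev_le (G := G) m'
      rw [← hn, len_ev _ hm]
      omega
    have h6 : G.ev m' * G.g e = G.g e * G.ev m' := by
      rw [h2, mul_assoc] at hx
      exact mul_left_cancel hx
    rw [h2]
    exact Par.mul (Par.gen (Or.inl rfl)) (IH _ h4 _ rfl h6)

/-- elements of the centralizer of a generator, split -/
theorem centralizer_split (e : E) {x : G.W} (hx : Par (fun a => a = e ∨ G.adj a e) x) :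
    ∃ y, Par (fun a => G.adj a e) y ∧ (x = y ∨ x = y * G.g e) := by
  obtain ⟨m, hm, rfl⟩ := hx
  induction m with
  | nil => exact ⟨1, Par.one _, Or.inl rfl⟩
  | cons a m ih =>
    obtain ⟨y, hy, h⟩ := ih (fun b hb => hm b (List.mem_cons_of_mem a hb))
    have hye : ∀ y : G.W, Par (fun a => G.adj a e) y → G.g e * y = y * G.g e := by
      rintro _ ⟨l, hl, rfl⟩
      induction l with
      | nil => simp
      | cons b l ih =>
        rw [ev_cons, ← mul_assoc, ← gcomm (hl b List.mem_cons_self), mul_assoc,
          ih (fun c hc => hl c (List.mem_cons_of_mem b hc)), mul_assoc]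
    rcases hm a List.mem_cons_self with rfl | ha
    · rcases h with h | h
      · exact ⟨y, hy, Or.inr (by rw [ev_cons, h, hye y hy])⟩
      · exact ⟨y, hy, Or.inl (by rw [ev_cons, h, ← mul_assoc, hye y hy, mul_assoc, gg, mul_one])⟩
    · refine ⟨G.g a * y, Par.mul (Par.gen ha) hy, ?_⟩
      rcases h with h | h
      · exact Or.inl (by rw [ev_cons, h])
      · exact Or.inr (by rw [ev_cons, h, mul_assoc])

/-- A wall which separates, on its far side, two points on different sides of the wall of a
generator crosses that wall. -/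
theorem cross_wall (e : E) (b p q : G.W) (hp : side p b ≠ 0) (hq : side q b ≠ 0)
    (hpe : side p (G.g e) ≠ side q (G.g e)) :
    ∃ y f, Par (fun a => G.adj a e) y ∧ G.adj f e ∧ b = y * G.g f * y⁻¹ := by
  classical
  by_contra hno
  -- the link of the wall lies on the near side
  have c1 : ∀ y : G.W, Par (fun a => G.adj a e) y → side y b = 0 := by
    rintro _ ⟨m, hm, rfl⟩
    induction m using List.reverseRecOn with
    | nil => simpa using side_one b
    | append_singleton m a ih =>
      have hm1 : ∀ c ∈ m, G.adj c e := fun c hc => hm c (by simp [hc])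
      have ha : G.adj a e := hm a (by simp)
      rw [ev_append, ev_single, side_mul_g, ih hm1, zero_add]
      by_cases h : (G.ev m)⁻¹ * b * G.ev m = G.g a
      · exfalso
        exact hno ⟨G.ev m, a, ⟨m, hm1, rfl⟩, ha, by rw [← h]; group⟩
      · rw [if_neg h]
  have hye : ∀ y : G.W, Par (fun a => G.adj a e) y → G.g e * y = y * G.g e := by
    rintro _ ⟨l, hl, rfl⟩
    induction l with
    | nil => simp
    | cons b l ih =>
      rw [ev_cons, ← mul_assoc, ← gcomm (hl b List.mem_cons_self), mul_assoc,
        ih (fun c hc => hl c (List.mem_cons_of_mem b hc)), mul_assoc]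
  have hbe : b ≠ G.g e := by
    rintro rfl
    rcases zmod2_cases (side p (G.g e)) with h | h
    · exact hp h
    · rcases zmod2_cases (side q (G.g e)) with h' | h'
      · exact hq h'
      · exact hpe (h.trans h'.symm)
  have c2 : ∀ x : G.W, x * G.g e = G.g e * x → side x b = 0 := by
    intro x hx
    obtain ⟨y, hy, h⟩ := centralizer_split e (centralizer e x hx)
    rcases h with rfl | rfl
    · exact c1 x hy
    · rw [side_mul_g, c1 y hy, zero_add, if_neg]
      intro h
      apply hbe
      have : b = y * (y⁻¹ * b * y) * y⁻¹ := by group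
      rw [this, h, ← hye y hy, mul_assoc, mul_inv_cancel, mul_one]
  -- walk from `p` to `q`
  obtain ⟨m, hm, hmq⟩ := exists_red (p⁻¹ * q)
  have hlen := len_ev m hm
  -- some prefix crosses the wall of `e`
  have key : ∀ m1 m2 : List E, m = m1 ++ m2 → side (p * G.ev m1) (G.g e) = side p (G.g e) := by
    intro m1
    induction m1 using List.reverseRecOn with
    | nil => intro m2 _; rw [ev_nil, mul_one]
    | append_singleton m1 a ih =>
      intro m2 h
      have h1 : m = m1 ++ (a :: m2) := by rw [h]; simp
      have h2 := ih (a :: m2) h1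
      rw [ev_append, ev_single, ← mul_assoc, side_mul_g, h2]
      by_cases h3 : (p * G.ev m1)⁻¹ * G.g e * (p * G.ev m1) = G.g a
      · exfalso
        have h4 : (p * G.ev m1)⁻¹ * G.g e * ((p * G.ev m1)⁻¹)⁻¹ = G.g a := by
          rw [inv_inv]; exact h3
        have h5 : e = a := conj_eq' h4
        subst h5
        have h6 : (p * G.ev m1) * G.g e = G.g e * (p * G.ev m1) := by
          nth_rw 1 [← h3]
          group
        have h7 := c2 _ h6
        have h8 : side p b = side (p * (G.ev m1 * G.ev (e :: m2))) b := by
          rw [← ev_append, ← h1, hmq, mul_inv_cancel_left]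
          rcases zmod2_cases (side p b) with h | h
          · exact absurd h hp
          · rcases zmod2_cases (side q b) with h' | h'
            · exact absurd h' hq
            · exact h.trans h'.symm
        have h9 : G.len (G.ev m1 * G.ev (e :: m2)) = G.len (G.ev m1) + G.len (G.ev (e :: m2)) := by
          refine le_antisymm (len_mul_le _ _) ?_
          rw [← ev_append, ← h1, hlen, h1, List.length_append]
          exact add_le_add (len_ev_le _) (len_ev_le _)
        have h10 := side_between h9 h8
        rw [h7] at h10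
        exact hp h10.symm
      · rw [if_neg h3, add_zero]
  have h := key m [] (by simp)
  rw [hmq, mul_inv_cancel_left] at h
  exact hpe h.symm

/-- the translated form of `cross_wall` -/
theorem cross_wall' (x : G.W) (e : E) (b p q : G.W) (hp : side p b ≠ side x b)
    (hq : side q b ≠ side x b)
    (hpe : side p (x * G.g e * x⁻¹) ≠ side q (x * G.g e * x⁻¹)) :
    ∃ y f, Par (fun a => G.adj a e) y ∧ G.adj f e ∧ x⁻¹ * b * x = y * G.g f * y⁻¹ := by
  have key : ∀ (p t : G.W), side p t = side x t + side (x⁻¹ * p) (x⁻¹ * t * x) := by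
    intro p t
    rw [← side_mul, mul_inv_cancel_left]
  refine cross_wall e (x⁻¹ * b * x) (x⁻¹ * p) (x⁻¹ * q) ?_ ?_ ?_
  · intro h
    rw [key p b, h, add_zero] at hp
    exact hp rfl
  · intro h
    rw [key q b, h, add_zero] at hq
    exact hq rfl
  · intro h
    apply hpe
    rw [key p, key q]
    have h1 : x⁻¹ * (x * G.g e * x⁻¹) * x = G.g e := by group
    rw [h1, h]

/-- a reflection crossing many walls of generators -/
theorem cross_many (c : G.W) : ∀ (T : List E), T ≠ [] →
    (∀ e ∈ T, ∃ y f, Par (fun a => G.adj a e) y ∧ G.adj f e ∧ c = y * G.g f * y⁻¹) →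
    ∃ y f, Par (fun a => ∀ e ∈ T, G.adj a e) y ∧ (∀ e ∈ T, G.adj f e) ∧ c = y * G.g f * y⁻¹ := by
  intro T
  induction T with
  | nil => intro h; exact absurd rfl h
  | cons e T ih =>
    intro _ hT
    obtain ⟨y1, f1, hy1, hf1, hc1⟩ := hT e List.mem_cons_self
    by_cases hne : T = []
    · subst hne
      exact ⟨y1, f1, hy1.mono (by simp), by simpa using hf1, hc1⟩
    · obtain ⟨y, f, hy, hf, hc⟩ := ih hne (fun e' he' => hT e' (List.mem_cons_of_mem e he'))
      have h1 : ret (fun a => G.adj a e) c = c := by
        refine ret_par ?_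
        rw [hc1]
        exact (hy1.mul (Par.gen hf1)).mul hy1.inv
      have hce : f = f1 := conj_eq (hc.symm.trans hc1)
      subst hce
      refine ⟨ret (fun a => G.adj a e) y, f, ?_, ?_, ?_⟩
      · refine (par_ret (fun a => G.adj a e) hy).mono ?_
        rintro a ⟨h2, h3⟩ e' he'
        rcases List.mem_cons.1 he' with rfl | h4
        · exact h2
        · exact h3 e' h4
      · intro e' he'
        rcases List.mem_cons.1 he' with rfl | h4
        · exact hf1
        · exact hf e' h4
      · have h2 := congrArg (ret (fun a => G.adj a e)) hc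
        rw [h1, map_mul, map_mul, map_inv, ret_g_pos (Z := fun a => G.adj a e) hf1] at h2
        exact h2

end RA

end Pool.Agent.Helper2GI
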