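import Mathlib
import Pool.Agent.Helper2GI.Par
import Pool.Agent.TH65.Windmill

/-!
Quotients of right-angled Coxeter groups by products of large cliques with small overlaps.
-/

set_option autoImplicit false

namespace Pool.Agent.Helper2GI

open Pool.Agent.W387 Pool.Agent.TH65

/-- A right-angled Coxeter group with a family of cliques, large compared with their overlaps. -/
structure Big (E V : Type) where
  G : RA E
  St : V → Finset E
  clq : ∀ v, ∀ a ∈ St v, ∀ b ∈ St v, a ≠ b → G.adj a b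
  m : ℕ
  hm : 1 ≤ m
  sm : ∀ v f, f ∉ St v → ∀ T : Finset E, (∀ e ∈ T, e ∈ St v ∧ G.adj f e) → T.card ≤ m
  sm2 : ∀ u v, u ≠ v → ∀ T : Finset E, (∀ e ∈ T, e ∈ St u ∧ e ∈ St v) → T.card ≤ m
  big : ∀ v, 40 * m < (St v).card
  col : V → ZMod 2

namespace Big

open RA

variable {E V : Type} (S : Big E V)

theorem clq_comm {v : V} {a b : E} (ha : a ∈ S.St v) (hb : b ∈ S.St v) :
    S.G.g a * S.G.g b = S.G.g b * S.G.g a := by
  by_cases h : a = b
  · rw [h]
  · exact gcomm (S.clq v a ha b hb h)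

theorem par_comm {v : V} {y : S.G.W} (hy : Par (fun a => a ∈ S.St v) y) {e : E}
    (he : e ∈ S.St v) : y * S.G.g e = S.G.g e * y := by
  obtain ⟨m, hm, rfl⟩ := hy
  induction m with
  | nil => simp
  | cons a m ih =>
    rw [ev_cons, mul_assoc, ih (fun b hb => hm b (List.mem_cons_of_mem a hb)), ← mul_assoc,
      S.clq_comm (hm a List.mem_cons_self) he, mul_assoc]

theorem par_comm' {v : V} {y z : S.G.W} (hy : Par (fun a => a ∈ S.St v) y)
    (hz : Par (fun a => a ∈ S.St v) z) : y * z = z * y := by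
  obtain ⟨m, hm, rfl⟩ := hz
  induction m with
  | nil => simp
  | cons a m ih =>
    rw [ev_cons, ← mul_assoc, S.par_comm hy (hm a List.mem_cons_self), mul_assoc,
      ih (fun b hb => hm b (List.mem_cons_of_mem a hb)), mul_assoc]

/-- the product of a clique -/
noncomputable def ep (v : V) : S.G.W := S.G.ev (S.St v).toList

theorem ep_par (v : V) : Par (fun a => a ∈ S.St v) (S.ep v) :=
  ⟨(S.St v).toList, by simp, rfl⟩

open Classical in
theorem side_list {v : V} (l : List E) (hl : ∀ a ∈ l, a ∈ S.St v) (hn : l.Nodup) (t : S.G.W) :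
    side (S.G.ev l) t = if ∃ a ∈ l, t = S.G.g a then 1 else 0 := by
  induction l generalizing t with
  | nil => simp [side_one]
  | cons a l ih =>
    have ha := hl a List.mem_cons_self
    have hl' : ∀ b ∈ l, b ∈ S.St v := fun b hb => hl b (List.mem_cons_of_mem a hb)
    rw [List.nodup_cons] at hn
    have h0 : ∀ b ∈ l, (S.G.g a)⁻¹ * t * S.G.g a = S.G.g b ↔ t = S.G.g b := by
      intro b hb
      constructor
      · intro h
        have : t = S.G.g a * ((S.G.g a)⁻¹ * t * S.G.g a) * (S.G.g a)⁻¹ := by group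
        rw [this, h, S.clq_comm ha (hl' b hb), mul_inv_cancel_right]
      · rintro rfl
        rw [mul_assoc, ← S.clq_comm ha (hl' b hb), inv_mul_cancel_left]
    have h01 : (∃ b ∈ l, (S.G.g a)⁻¹ * t * S.G.g a = S.G.g b) ↔ ∃ b ∈ l, t = S.G.g b := by
      constructor
      · rintro ⟨b, hb, h⟩
        exact ⟨b, hb, (h0 b hb).1 h⟩
      · rintro ⟨b, hb, h⟩
        exact ⟨b, hb, (h0 b hb).2 h⟩
    rw [ev_cons, side_mul, side_g, ih hl' hn.2]
    simp only [h01]
    by_cases h1 : t = S.G.g a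
    · have h3 : ¬ ∃ b ∈ l, t = S.G.g b := by
        rintro ⟨b, hb, h⟩
        rw [h1] at h
        rw [g_inj h] at hn
        exact hn.1 hb
      rw [if_pos h1, if_neg h3, if_pos ⟨a, List.mem_cons_self, h1⟩, add_zero]
    · rw [if_neg h1, zero_add]
      by_cases h2 : ∃ b ∈ l, t = S.G.g b
      · obtain ⟨b, hb, h⟩ := h2
        rw [if_pos ⟨b, hb, h⟩, if_pos ⟨b, List.mem_cons_of_mem a hb, h⟩]
      · rw [if_neg h2, if_neg]
        rintro ⟨b, hb, h3⟩
        rcases List.mem_cons.1 hb with rfl | h4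
        · exact h1 h3
        · exact h2 ⟨b, h4, h3⟩

theorem side_ep {v : V} {e : E} (he : e ∈ S.St v) : side (S.ep v) (S.G.g e) = 1 := by
  classical
  unfold ep
  rw [S.side_list (v := v) _ (by simp) (Finset.nodup_toList _), if_pos ⟨e, by simpa using he, rfl⟩]

theorem ep_sq (v : V) : S.ep v * S.ep v = 1 := by
  have key : ∀ l : List E, (∀ a ∈ l, a ∈ S.St v) → S.G.ev l * S.G.ev l = 1 := by
    intro l
    induction l with
    | nil => intro _; simp
    | cons a l ih =>
      intro hl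
      have hl' : ∀ b ∈ l, b ∈ S.St v := fun b hb => hl b (List.mem_cons_of_mem a hb)
      have hp : Par (fun a => a ∈ S.St v) (S.G.ev l) := ⟨l, hl', rfl⟩
      rw [ev_cons]
      calc S.G.g a * S.G.ev l * (S.G.g a * S.G.ev l)
          = S.G.g a * (S.G.ev l * S.G.g a) * S.G.ev l := by group
        _ = (S.G.g a * S.G.g a) * (S.G.ev l * S.G.ev l) := by
            rw [S.par_comm hp (hl a List.mem_cons_self)]; group
        _ = 1 := by rw [gg, ih hl', one_mul]
  exact key _ (by simp)

/-- indices of the rotating family -/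
structure Idx (S : Big E V) where
  x : S.G.W
  v : V

/-- the big group -/
abbrev Gp : Type := S.G.W × Multiplicative (ZMod 2)

noncomputable instance actW : MulAction S.Gp S.G.W where
  smul h p := h.1 * p
  one_smul p := one_mul p
  mul_smul h h' p := mul_assoc _ _ _

noncomputable instance actI : MulAction S.Gp (Idx S) where
  smul h i := ⟨h.1 * i.x, i.v⟩
  one_smul i := by
    show (⟨1 * i.x, i.v⟩ : Idx S) = i
    rw [one_mul]
  mul_smul h h' i := by
    show (⟨(h.1 * h'.1) * i.x, i.v⟩ : Idx S) = ⟨h.1 * (h'.1 * i.x), i.v⟩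
    rw [mul_assoc]

theorem smul_def (h : S.Gp) (p : S.G.W) : h • p = h.1 * p := rfl

theorem smulI_def (h : S.Gp) (i : Idx S) : h • i = ⟨h.1 * i.x, i.v⟩ := rfl

/-- wall of an edge in a residue -/
noncomputable def wl (i : Idx S) (e : E) : S.G.W := i.x * S.G.g e * i.x⁻¹

theorem wl_inj {i : Idx S} {e f : E} (h : S.wl i e = S.wl i f) : e = f := conj_eq h

open Classical in
/-- separating walls in a residue -/
noncomputable def sep (i : Idx S) (p q : S.G.W) : Finset E :=
  (S.St i.v).filter fun e => side p (S.wl i e) ≠ side q (S.wl i e)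

theorem mem_sep {i : Idx S} {p q : S.G.W} {e : E} :
    e ∈ S.sep i p q ↔ e ∈ S.St i.v ∧ side p (S.wl i e) ≠ side q (S.wl i e) := by
  unfold sep
  simp

theorem sep_tri (i : Idx S) (p q r : S.G.W) :
    (S.sep i p r).card ≤ (S.sep i p q).card + (S.sep i q r).card := by
  classical
  refine le_trans (Finset.card_le_card ?_) (Finset.card_union_le _ _)
  intro e he
  rw [mem_sep] at he
  rw [Finset.mem_union, mem_sep, mem_sep]
  by_cases h : side p (S.wl i e) = side q (S.wl i e)
  · exact Or.inr ⟨he.1, fun h2 => he.2 (h.trans h2)⟩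
  · exact Or.inl ⟨he.1, h⟩

theorem sep_symm (i : Idx S) (p q : S.G.W) : S.sep i p q = S.sep i q p := by
  ext e
  rw [mem_sep, mem_sep]
  constructor <;> exact fun h => ⟨h.1, fun h2 => h.2 h2.symm⟩

theorem sep_self (i : Idx S) (p : S.G.W) : S.sep i p p = ∅ := by
  ext e
  rw [mem_sep]
  simp

theorem sep_g (i : Idx S) (p : S.G.W) (a : E) : (S.sep i p (p * S.G.g a)).card ≤ 1 := by
  classical
  rw [Finset.card_le_one]
  have key : ∀ e ∈ S.sep i p (p * S.G.g a), e = a := by
    intro e he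
    rw [mem_sep, side_mul_g] at he
    by_cases h : p⁻¹ * S.wl i e * p = S.G.g a
    · refine conj_eq' (x := p⁻¹ * i.x) ?_
      rw [← h]
      unfold wl
      group
    · rw [if_neg h, add_zero] at he
      exact absurd rfl he.2
  intro e he f hf
  rw [key e he, key f hf]

theorem sep_le (i : Idx S) (p q : S.G.W) : (S.sep i p q).card ≤ S.G.len (p⁻¹ * q) := by
  have key : ∀ (m : List E) (p : S.G.W), (S.sep i p (p * S.G.ev m)).card ≤ m.length := by
    intro m
    induction m with
    | nil => intro p; rw [ev_nil, mul_one, sep_self]; simp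
    | cons a m ih =>
      intro p
      rw [ev_cons, ← mul_assoc, List.length_cons]
      have h1 := S.sep_tri i p (p * S.G.g a) (p * S.G.g a * S.G.ev m)
      have h2 := S.sep_g i p a
      have h3 := ih (p * S.G.g a)
      omega
  obtain ⟨m, hm, h⟩ := exists_red (p⁻¹ * q)
  rw [← h, len_ev m hm]
  have h1 := key m p
  rwa [h, mul_inv_cancel_left] at h1

theorem side_smul (x p t : S.G.W) : side (x * p) (x * t * x⁻¹) = side x (x * t * x⁻¹) + side p t :=
  side_conj x p t

theorem wl_smul (h : S.Gp) (i : Idx S) (e : E) : S.wl (h • i) e = h.1 * S.wl i e * h.1⁻¹ := by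
  rw [smulI_def]
  unfold wl
  group

theorem sep_smul (h : S.Gp) (i : Idx S) (p q : S.G.W) :
    S.sep (h • i) (h • p) (h • q) = S.sep i p q := by
  ext e
  rw [mem_sep, mem_sep, wl_smul, smul_def, smul_def, side_conj, side_conj]
  have h1 : (h • i).v = i.v := rfl
  rw [h1]
  constructor
  · exact fun h2 => ⟨h2.1, fun h3 => h2.2 (by rw [h3])⟩
  · exact fun h2 => ⟨h2.1, fun h3 => h2.2 (add_left_cancel h3)⟩

/-- the rotation of a residue -/
noncomputable def rv (i : Idx S) : S.Gp :=
  (i.x * S.ep i.v * i.x⁻¹, Multiplicative.ofAdd (S.col i.v))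

theorem rv_sq (i : Idx S) : S.rv i * S.rv i = 1 := by
  unfold rv
  rw [Prod.mk_mul_mk]
  refine Prod.ext ?_ ?_
  · show i.x * S.ep i.v * i.x⁻¹ * (i.x * S.ep i.v * i.x⁻¹) = 1
    calc i.x * S.ep i.v * i.x⁻¹ * (i.x * S.ep i.v * i.x⁻¹)
        = i.x * (S.ep i.v * S.ep i.v) * i.x⁻¹ := by group
      _ = 1 := by rw [ep_sq]; group
  · show Multiplicative.ofAdd (S.col i.v) * Multiplicative.ofAdd (S.col i.v) = 1
    rw [← ofAdd_add]
    rcases zmod2_cases (S.col i.v) with h | h <;> rw [h] <;> rfl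

theorem mem_H {i : Idx S} {h : S.Gp} (hh : h ∈ Subgroup.zpowers (S.rv i)) :
    h = 1 ∨ h = S.rv i := by
  obtain ⟨n, rfl⟩ := Subgroup.mem_zpowers_iff.1 hh
  rcases Int.even_or_odd' n with ⟨k, rfl | rfl⟩
  · left
    rw [zpow_mul, zpow_two, rv_sq, one_zpow]
  · right
    rw [zpow_add, zpow_mul, zpow_two, rv_sq, one_zpow, one_mul, zpow_one]

theorem side_rv (i : Idx S) (p : S.G.W) {e : E} (he : e ∈ S.St i.v) :
    side (S.rv i • p) (S.wl i e) = side p (S.wl i e) + 1 := by
  rw [smul_def]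
  have h0 : (S.rv i).1 = i.x * S.ep i.v * i.x⁻¹ := rfl
  have hc := S.par_comm (S.ep_par i.v) he
  have h1 : (S.rv i).1⁻¹ * S.wl i e * (S.rv i).1 = S.wl i e := by
    rw [h0]
    unfold wl
    calc (i.x * S.ep i.v * i.x⁻¹)⁻¹ * (i.x * S.G.g e * i.x⁻¹) * (i.x * S.ep i.v * i.x⁻¹)
        = i.x * ((S.ep i.v)⁻¹ * (S.G.g e * S.ep i.v)) * i.x⁻¹ := by group
      _ = i.x * S.G.g e * i.x⁻¹ := by rw [← hc, inv_mul_cancel_left]
  rw [side_mul, h1, add_comm]
  congr 1
  rw [h0, mul_assoc, side_mul]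
  have h2 : i.x⁻¹ * S.wl i e * i.x = S.G.g e := by unfold wl; group
  rw [h2, side_mul, S.side_ep he]
  have h3 : (S.ep i.v)⁻¹ * S.G.g e * S.ep i.v = S.G.g e := by
    rw [mul_assoc, ← hc, inv_mul_cancel_left]
  rw [h3]
  have h4 : side i.x (S.wl i e) + side i.x⁻¹ (S.G.g e) = 0 := by
    rw [← h2, ← side_mul, mul_inv_cancel, side_one]
  calc side i.x (S.wl i e) + (1 + side i.x⁻¹ (S.G.g e))
      = (side i.x (S.wl i e) + side i.x⁻¹ (S.G.g e)) + 1 := by ring
    _ = 1 := by rw [h4, zero_add]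

theorem sep_rv (i : Idx S) (p : S.G.W) : S.sep i (S.rv i • p) p = S.St i.v := by
  ext e
  rw [mem_sep]
  constructor
  · exact fun h => h.1
  · intro h
    refine ⟨h, ?_⟩
    rw [side_rv S i p h]
    intro h2
    have h3 : (1 : ZMod 2) = 0 := by
      have := congrArg (fun z => z - side p (S.wl i e)) h2
      simpa using this
    exact absurd h3 (by decide)

theorem sep_H (i : Idx S) (p q : S.G.W) :
    S.sep i (S.rv i • p) (S.rv i • q) = S.sep i p q := by
  ext e
  rw [mem_sep, mem_sep]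
  constructor
  · intro h
    refine ⟨h.1, fun h2 => h.2 ?_⟩
    rw [side_rv S i p h.1, side_rv S i q h.1, h2]
  · intro h
    refine ⟨h.1, fun h2 => h.2 ?_⟩
    rw [side_rv S i p h.1, side_rv S i q h.1] at h2
    exact add_right_cancel h2

end Big

end Pool.Agent.Helper2GI
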