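import Mathlib
import Pool.Agent.Helper2GI.Mill

/-!
The dichotomy for residues, the windmill, and the shortening lemma.
-/

set_option autoImplicit false

namespace Pool.Agent.Helper2GI

open Pool.Agent.W387 Pool.Agent.TH65

namespace Big

open RA

variable {E V : Type} (S : Big E V)

/-- an element crossing more than `m` walls of a clique residue is a wall of the residue -/
theorem cross_big (v : V) (c : S.G.W) (T : Finset E) (hT : ∀ e ∈ T, e ∈ S.St v)
    (hc : ∀ e ∈ T, ∃ y f, Par (fun a => S.G.adj a e) y ∧ S.G.adj f e ∧ c = y * S.G.g f * y⁻¹)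
    (hm : S.m < T.card) : ∃ f ∈ S.St v, c = S.G.g f := by
  classical
  have hne : T.toList ≠ [] := by
    intro h
    rw [Finset.toList_eq_nil] at h
    subst h
    simp at hm
  obtain ⟨y, f, hy, hf, hcf⟩ := cross_many c T.toList hne (by simpa using hc)
  have hZ : ∀ a, (∀ e ∈ T.toList, S.G.adj a e) → a ∈ S.St v := by
    intro a ha
    by_contra hn
    have := S.sm v a hn T (fun e he => ⟨hT e he, ha e (by simpa using he)⟩)
    omega
  refine ⟨f, hZ f hf, ?_⟩
  have hy' : Par (fun a => a ∈ S.St v) y := hy.mono hZ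
  rw [hcf, S.par_comm hy' (hZ f hf), mul_inv_cancel_right]

open Classical in
/-- walls common to two residues -/
noncomputable def cmn (i j : Idx S) : Finset E :=
  (S.St i.v).filter fun e => e ∈ S.St j.v ∧ S.wl i e = S.wl j e

theorem mem_cmn {i j : Idx S} {e : E} :
    e ∈ S.cmn i j ↔ e ∈ S.St i.v ∧ e ∈ S.St j.v ∧ S.wl i e = S.wl j e := by
  unfold cmn
  simp

/-- two residues with many common walls -/
theorem cmn_big {i j : Idx S} (h : S.m < (S.cmn i j).card) :
    i.v = j.v ∧ Par (fun a => a ∈ S.St i.v) (i.x⁻¹ * j.x) := by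
  classical
  have hv : i.v = j.v := by
    by_contra hn
    have := S.sm2 i.v j.v hn (S.cmn i j) (fun e he => ⟨(S.mem_cmn.1 he).1, (S.mem_cmn.1 he).2.1⟩)
    omega
  refine ⟨hv, ?_⟩
  have h1 : ∀ e ∈ S.cmn i j, Par (fun a => a = e ∨ S.G.adj a e) (i.x⁻¹ * j.x) := by
    intro e he
    apply centralizer
    have h2 := (S.mem_cmn.1 he).2.2
    unfold wl at h2
    calc i.x⁻¹ * j.x * S.G.g e = i.x⁻¹ * (j.x * S.G.g e * j.x⁻¹) * j.x := by group
      _ = i.x⁻¹ * (i.x * S.G.g e * i.x⁻¹) * j.x := by rw [h2]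
      _ = S.G.g e * (i.x⁻¹ * j.x) := by group
  have h2 : ∀ T : List E, T ≠ [] → (∀ e ∈ T, Par (fun a => a = e ∨ S.G.adj a e) (i.x⁻¹ * j.x)) →
      Par (fun a => ∀ e ∈ T, a = e ∨ S.G.adj a e) (i.x⁻¹ * j.x) := by
    intro T
    induction T with
    | nil => intro h; exact absurd rfl h
    | cons e T ih =>
      intro _ hT
      by_cases hne : T = []
      · subst hne
        exact (hT e List.mem_cons_self).mono (by simp)
      · have h3 := ih hne (fun e' he' => hT e' (List.mem_cons_of_mem e he'))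
        refine ((hT e List.mem_cons_self).inter h3).mono ?_
        rintro a ⟨h4, h5⟩ e' he'
        rcases List.mem_cons.1 he' with rfl | h6
        · exact h4
        · exact h5 e' h6
  have hne : (S.cmn i j).toList ≠ [] := by
    intro h'
    rw [Finset.toList_eq_nil] at h'
    rw [h'] at h
    simp at h
  refine (h2 _ hne (by simpa using h1)).mono ?_
  intro a ha
  by_contra hn
  have := S.sm i.v a hn (S.cmn i j) (fun e he => by
    refine ⟨(S.mem_cmn.1 he).1, ?_⟩
    rcases ha e (by simpa using he) with h3 | h3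
    · exact absurd (h3 ▸ (S.mem_cmn.1 he).1) hn
    · exact h3)
  omega

theorem wl_par {i j : Idx S} (hv : i.v = j.v) (hp : Par (fun a => a ∈ S.St i.v) (i.x⁻¹ * j.x))
    {e : E} (he : e ∈ S.St i.v) : S.wl i e = S.wl j e := by
  have h1 := S.par_comm hp he
  have h2 : j.x = i.x * (i.x⁻¹ * j.x) := by group
  unfold wl
  rw [h2]
  calc i.x * S.G.g e * i.x⁻¹
      = i.x * (S.G.g e * (i.x⁻¹ * j.x)) * (i.x⁻¹ * j.x)⁻¹ * i.x⁻¹ := by group
    _ = i.x * (i.x⁻¹ * j.x * S.G.g e) * (i.x⁻¹ * j.x)⁻¹ * i.x⁻¹ := by rw [h1]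
    _ = i.x * (i.x⁻¹ * j.x) * S.G.g e * (i.x * (i.x⁻¹ * j.x))⁻¹ := by group

theorem rv_par {i j : Idx S} (hv : i.v = j.v) (hp : Par (fun a => a ∈ S.St i.v) (i.x⁻¹ * j.x)) :
    S.rv i = S.rv j := by
  have h1 := S.par_comm' hp (S.ep_par i.v)
  have h2 : j.x = i.x * (i.x⁻¹ * j.x) := by group
  unfold rv
  refine Prod.ext ?_ ?_
  · show i.x * S.ep i.v * i.x⁻¹ = j.x * S.ep j.v * j.x⁻¹
    rw [← hv, h2]
    calc i.x * S.ep i.v * i.x⁻¹
        = i.x * (S.ep i.v * (i.x⁻¹ * j.x)) * (i.x⁻¹ * j.x)⁻¹ * i.x⁻¹ := by group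
      _ = i.x * (i.x⁻¹ * j.x * S.ep i.v) * (i.x⁻¹ * j.x)⁻¹ * i.x⁻¹ := by rw [h1]
      _ = i.x * (i.x⁻¹ * j.x) * S.ep i.v * (i.x * (i.x⁻¹ * j.x))⁻¹ := by group
  · show Multiplicative.ofAdd (S.col i.v) = Multiplicative.ofAdd (S.col j.v)
    rw [hv]

/-- far walls of `i` as seen from `j` -/
noncomputable def far (i j : Idx S) (p : S.G.W) : Finset E := by
  classical
  exact (S.sep i p j.x).filter fun e => e ∉ S.cmn i j

theorem mem_far {i j : Idx S} {p : S.G.W} {e : E} :
    e ∈ S.far i j p ↔ e ∈ S.sep i p j.x ∧ e ∉ S.cmn i j := by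
  unfold far
  simp

theorem cmn_symm {i j : Idx S} {e : E} : e ∈ S.cmn i j ↔ e ∈ S.cmn j i := by
  rw [mem_cmn, mem_cmn]
  constructor <;> exact fun h => ⟨h.2.1, h.1, h.2.2.symm⟩

theorem far_bound {i j : Idx S} {p : S.G.W} {f : E} (hf : f ∈ S.far j i p) :
    (S.far i j p).card + (S.cmn i j).card ≤ S.m := by
  classical
  by_contra hlt
  push Not at hlt
  have hdis : Disjoint (S.far i j p) (S.cmn i j) := by
    rw [Finset.disjoint_left]
    intro e he he'
    exact (S.mem_far.1 he).2 he'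
  rw [← Finset.card_union_of_disjoint hdis] at hlt
  obtain ⟨hf1, hf2⟩ := S.mem_far.1 hf
  obtain ⟨hf3, hf4⟩ := S.mem_sep.1 hf1
  set b := S.wl j f with hb
  -- a point of `j` on the far side of `b`
  obtain ⟨q, hq, hqx⟩ : ∃ q, side q b ≠ side i.x b ∧ (q = j.x ∨ q = j.x * S.G.g f) := by
    by_cases h : side j.x b = side i.x b
    · refine ⟨j.x * S.G.g f, ?_, Or.inr rfl⟩
      rw [side_mul_g, if_pos (by rw [hb]; unfold wl; group), h]
      intro h2
      have h3 : (1 : ZMod 2) = 0 := by
        have := congrArg (fun z => z - side i.x b) h2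
        simp at this
      exact absurd h3 (by decide)
    · exact ⟨j.x, h, Or.inl rfl⟩
  have hqb : q⁻¹ * b * q = S.G.g f := by
    rcases hqx with h | h
    · rw [h, hb]; unfold wl; group
    · rw [h, hb]; unfold wl; rw [mul_inv_rev]
      calc (S.G.g f)⁻¹ * j.x⁻¹ * (j.x * S.G.g f * j.x⁻¹) * (j.x * S.G.g f)
          = (S.G.g f)⁻¹ * S.G.g f * S.G.g f := by group
        _ = S.G.g f := by group
  have hcr : ∀ e ∈ S.far i j p ∪ S.cmn i j, ∃ y f', Par (fun a => S.G.adj a e) y ∧
      S.G.adj f' e ∧ i.x⁻¹ * b * i.x = y * S.G.g f' * y⁻¹ := by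
    intro e he
    rcases Finset.mem_union.1 he with he | he
    · obtain ⟨h1, h2⟩ := S.mem_far.1 he
      obtain ⟨h3, h4⟩ := S.mem_sep.1 h1
      refine cross_wall' i.x e b p q hf4 hq ?_
      have h5 : side q (i.x * S.G.g e * i.x⁻¹) = side j.x (S.wl i e) := by
        rcases hqx with h | h
        · rw [h]; rfl
        · rw [h, side_mul_g, if_neg, add_zero]
          · rfl
          · intro h6
            apply h2
            have h7 : S.wl i e = S.wl j f := by
              unfold wl
              rw [← h6]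
              group
            have h8 : e = f := conj_eq h7
            subst h8
            exact S.mem_cmn.2 ⟨h3, hf3, h7⟩
      rw [h5]
      exact h4
    · obtain ⟨h1, h2, h3⟩ := S.mem_cmn.1 he
      have hef : e ≠ f := by
        rintro rfl
        exact hf2 (S.cmn_symm.1 he)
      refine cross_wall' i.x e b q (q * S.G.g e) hq ?_ ?_
      · rw [side_mul_g, if_neg, add_zero]
        · exact hq
        · rw [hqb]
          intro h
          exact hef (g_inj h).symm
      · rw [side_mul_g, if_pos]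
        · intro h
          have h3 : (1 : ZMod 2) = 0 := by
            have := congrArg (fun z => z - side q (i.x * S.G.g e * i.x⁻¹)) h
            simpa using this.symm
          exact absurd h3 (by decide)
        · have h4 : i.x * S.G.g e * i.x⁻¹ = j.x * S.G.g e * j.x⁻¹ := h3
          rw [h4]
          rcases hqx with h | h
          · rw [h]; group
          · rw [h, mul_inv_rev]
            calc (S.G.g f)⁻¹ * j.x⁻¹ * (j.x * S.G.g e * j.x⁻¹) * (j.x * S.G.g f)
                = (S.G.g f)⁻¹ * (S.G.g e * S.G.g f) := by group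
              _ = S.G.g e := by rw [S.clq_comm h2 hf3, inv_mul_cancel_left]
  obtain ⟨f', hf', h5⟩ := S.cross_big i.v (i.x⁻¹ * b * i.x) (S.far i j p ∪ S.cmn i j) (by
    intro e he
    rcases Finset.mem_union.1 he with he | he
    · exact (S.mem_sep.1 (S.mem_far.1 he).1).1
    · exact (S.mem_cmn.1 he).1) hcr hlt
  have h6 : S.wl i f' = S.wl j f := by
    rw [← hb]
    unfold wl
    rw [← h5]
    group
  have h7 : f' = f := conj_eq h6
  subst h7
  exact hf2 (S.cmn_symm.1 (S.mem_cmn.2 ⟨hf', hf3, h6⟩))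

open Classical in
theorem sep_sub (i j : Idx S) (p q : S.G.W) :
    S.sep i p q ⊆ S.far i j p ∪ (S.far i j q ∪ S.cmn i j) := by
  intro e he
  obtain ⟨h1, h2⟩ := S.mem_sep.1 he
  rw [Finset.mem_union, Finset.mem_union]
  by_cases hc : e ∈ S.cmn i j
  · exact Or.inr (Or.inr hc)
  · by_cases h3 : side p (S.wl i e) = side j.x (S.wl i e)
    · refine Or.inr (Or.inl (S.mem_far.2 ⟨S.mem_sep.2 ⟨h1, ?_⟩, hc⟩))
      intro h4
      exact h2 (h3.trans h4.symm)
    · exact Or.inl (S.mem_far.2 ⟨S.mem_sep.2 ⟨h1, h3⟩, hc⟩)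

theorem dichotomy (i j : Idx S) (h : (S.cmn i j).card ≤ S.m) :
    ∃ A B : Set S.G.W, (∀ p, p ∈ A ∨ p ∈ B) ∧
      (∀ a ∈ A, ∀ a' ∈ A, (S.sep i a a').card ≤ 2 * S.m) ∧
      (∀ b ∈ B, ∀ b' ∈ B, (S.sep j b b').card ≤ 2 * S.m) := by
  classical
  refine ⟨{p | (S.far i j p).card + (S.cmn i j).card ≤ S.m}, {p | S.far j i p = ∅}, ?_, ?_, ?_⟩
  · intro p
    by_cases h1 : S.far j i p = ∅
    · exact Or.inr h1
    · obtain ⟨f, hf⟩ := Finset.nonempty_iff_ne_empty.2 h1
      exact Or.inl (S.far_bound hf)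
  · intro a ha a' ha'
    have h1 := Finset.card_le_card (S.sep_sub i j a a')
    have h2 := Finset.card_union_le (S.far i j a) (S.far i j a' ∪ S.cmn i j)
    have h3 := Finset.card_union_le (S.far i j a') (S.cmn i j)
    simp only [Set.mem_ofPred_eq] at ha ha'
    omega
  · intro b hb b' hb'
    have h1 := Finset.card_le_card (S.sep_sub j i b b')
    simp only [Set.mem_ofPred_eq] at hb hb'
    have h4 : (S.cmn j i).card = (S.cmn i j).card := by
      congr 1
      ext e
      exact S.cmn_symm.symm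
    rw [hb, hb', Finset.empty_union, Finset.empty_union, h4] at h1
    omega

/-- the rotating family -/
noncomputable def rot : Rot S.Gp S.G.W (Idx S) where
  d p q := (S.G.len (p⁻¹ * q) : ℤ)
  D i p q := ((S.sep i p q).card : ℤ)
  H i := Subgroup.zpowers (S.rv i)
  K := 20
  R := 40 * S.m + 1
  v0 := 1
  hK := le_rfl
  hKR := by have := S.hm; omega
  d_self p := by rw [inv_mul_cancel, len_one]; rfl
  d_symm p q := by
    have : (p⁻¹ * q)⁻¹ = q⁻¹ * p := by group
    rw [← this, len_inv]
  d_tri p q r := by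
    have h : p⁻¹ * r = (p⁻¹ * q) * (q⁻¹ * r) := by group
    rw [h]
    exact_mod_cast len_mul_le _ _
  d_smul h p q := by
    rw [smul_def, smul_def]
    have : (h.1 * p)⁻¹ * (h.1 * q) = p⁻¹ * q := by group
    rw [this]
  d_step n q hq := by
    have h0 : (1 : S.G.W)⁻¹ * q = q := by group
    rw [h0] at hq
    obtain ⟨m, hm, rfl⟩ := exists_red q
    rcases List.eq_nil_or_concat m with rfl | ⟨m', a, rfl⟩
    · refine ⟨1, ?_, ?_⟩
      · simp [len_one]
      · simp [len_one]
    · rw [List.concat_eq_append] at hm hq ⊢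
      refine ⟨S.G.ev m', ?_, ?_⟩
      · have h1 : (1 : S.G.W)⁻¹ * S.G.ev m' = S.G.ev m' := by group
        rw [h1]
        have h2 := len_ev _ hm
        rw [List.length_append, List.length_singleton] at h2
        have h3 := len_ev_le (G := S.G) m'
        omega
      · rw [ev_append, ev_single, inv_mul_cancel_left]
        have h2 := len_ev_le (G := S.G) [a]
        rw [ev_single] at h2
        simp only [List.length_singleton] at h2
        exact_mod_cast h2
  D_nonneg i p q := by positivity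
  D_symm i p q := by rw [S.sep_symm]
  D_tri i p q r := by exact_mod_cast S.sep_tri i p q r
  D_le i p q := by exact_mod_cast S.sep_le i p q
  D_smul h i p q := by rw [S.sep_smul]
  D_H i h hh p q := by
    rcases S.mem_H hh with rfl | rfl
    · rw [one_smul, one_smul]
    · rw [S.sep_H]
  H_smul h i k hk := by
    have key : S.rv (h • i) = h * S.rv i * h⁻¹ := by
      rw [smulI_def]
      unfold rv
      refine Prod.ext ?_ ?_
      · show h.1 * i.x * S.ep i.v * (h.1 * i.x)⁻¹ = h.1 * (i.x * S.ep i.v * i.x⁻¹) * h.1⁻¹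
        group
      · show Multiplicative.ofAdd (S.col i.v) = h.2 * Multiplicative.ofAdd (S.col i.v) * h.2⁻¹
        rw [mul_inv_cancel_comm]
    rcases S.mem_H hk with rfl | rfl
    · rw [mul_one, mul_inv_cancel]
      exact Subgroup.one_mem _
    · rw [← key]
      exact Subgroup.mem_zpowers _
  htau i h hh h1 p := by
    rcases S.mem_H hh with rfl | rfl
    · exact absurd rfl h1
    · rw [S.sep_rv]
      have := S.big i.v
      omega
  dich i j := by
    by_cases h : (S.cmn i j).card ≤ S.m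
    · right
      obtain ⟨A, B, h1, h2, h3⟩ := S.dichotomy i j h
      refine ⟨A, B, h1, ?_, ?_⟩
      · intro a ha a' ha'
        have := h2 a ha a' ha'
        omega
      · intro b hb b' hb'
        have := h3 b hb b' hb'
        omega
    · left
      push Not at h
      obtain ⟨h1, h2⟩ := S.cmn_big h
      refine ⟨?_, ?_⟩
      · rw [S.rv_par h1 h2]
      · intro p q
        congr 2
        ext e
        rw [mem_sep, mem_sep, ← h1]
        constructor
        · rintro ⟨h3, h4⟩
          rw [S.wl_par h1 h2 h3] at h4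
          exact ⟨h3, h4⟩
        · rintro ⟨h3, h4⟩
          rw [← S.wl_par h1 h2 h3] at h4
          exact ⟨h3, h4⟩

/-- the normal subgroup generated by the rotations -/
theorem greendlinger (h : S.Gp) (hh : h ∈ ⨆ i, Subgroup.zpowers (S.rv i)) (h1 : h ≠ 1) :
    ∃ i : Idx S, 20 * ((S.sep i 1 ((S.rv i).1 * h.1)).card : ℤ) ≤ 6 * (40 * S.m + 1) := by
  obtain ⟨i, x, hx, hx1, hle⟩ := S.rot.windmill h hh h1
  refine ⟨i, ?_⟩
  rcases S.mem_H hx with rfl | rfl
  · exact absurd rfl hx1
  · have h2 : (S.rv i)⁻¹ = S.rv i := inv_eq_of_mul_eq_one_right (S.rv_sq i)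
    rw [h2] at hle
    have h3 : (S.rv i • h • (1 : S.G.W)) = (S.rv i).1 * h.1 := by
      rw [smul_def, smul_def, mul_one]
    have h4 : S.rot.v0 = (1 : S.G.W) := rfl
    rw [h4, h3] at hle
    exact hle

end Big

end Pool.Agent.Helper2GI
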