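import Mathlib
import Pool.Agent.Helper2GI.Mill2

/-!
The shortening lemma: every nontrivial element of the kernel contains more than half of a clique.
-/

set_option autoImplicit false

namespace Pool.Agent.Helper2GI

open Pool.Agent.W387 Pool.Agent.TH65

namespace Big

open RA

variable {E V : Type} (S : Big E V)

theorem ev_perm (v : V) {l l' : List E} (h : l.Perm l') (hl : ∀ a ∈ l, a ∈ S.St v) :
    S.G.ev l = S.G.ev l' := by
  induction h with
  | nil => rfl
  | cons a _ ih =>
    rw [ev_cons, ev_cons, ih (fun b hb => hl b (List.mem_cons_of_mem a hb))]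
  | swap a b l =>
    rw [ev_cons, ev_cons, ev_cons, ev_cons, ← mul_assoc, ← mul_assoc]
    rw [S.clq_comm (hl b (by simp)) (hl a (by simp))]
  | trans h1 _ ih1 ih2 => rw [ih1 hl, ih2 (fun a ha => hl a (h1.mem_iff.2 ha))]

theorem len_g (a : E) : S.G.len (S.G.g a) = 1 := by
  have h := len_g_mul (G := S.G) a 1
  rw [mul_one, len_one] at h
  omega

/-- nodup words in a clique are reduced -/
theorem red_clq (v : V) (l : List E) (hl : ∀ a ∈ l, a ∈ S.St v) (hn : l.Nodup) : S.G.Red l := by
  classical
  apply red_of_len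
  induction l with
  | nil => simp [len_one]
  | cons a l ih =>
    have hl' : ∀ b ∈ l, b ∈ S.St v := fun b hb => hl b (List.mem_cons_of_mem a hb)
    rw [List.nodup_cons] at hn
    have h1 := len_cat (S.G.g a) (S.G.ev l) (by
      intro t ht
      rw [side_g] at ht
      have h2 : t = S.G.g a := by
        by_contra h3
        rw [if_neg h3] at ht
        exact ht rfl
      subst h2
      rw [side_mul, side_g, if_pos rfl, S.side_list (v := v) l hl' hn.2, if_neg]
      · decide
      · rintro ⟨b, hb, h3⟩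
        have h4 : (S.G.g a)⁻¹ * S.G.g a * S.G.g a = S.G.g a := by group
        rw [h4] at h3
        rw [g_inj h3] at hn
        exact hn.1 hb)
    rw [ev_cons, h1, S.len_g, ih hl' hn.2, List.length_cons]
    omega

/-- the shortening lemma -/
theorem gate (h : S.Gp) (hh : h ∈ ⨆ i, Subgroup.zpowers (S.rv i)) (h1 : h ≠ 1) :
    ∃ (v : V) (x q : S.G.W) (T : Finset E), T ⊆ S.St v ∧ h.1 = x * S.G.ev T.toList * q ∧
      S.G.len h.1 = S.G.len x + T.card + S.G.len q ∧ (S.St v).card < 2 * T.card := by
  classical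
  obtain ⟨i, hi⟩ := S.greendlinger h hh h1
  set w := h.1 with hw
  -- walls crossed
  have hT : ∀ e, e ∈ S.sep i 1 w ↔ e ∈ S.St i.v ∧ side w (S.wl i e) ≠ 0 := by
    intro e
    rw [mem_sep, side_one]
    constructor <;> exact fun h => ⟨h.1, fun h2 => h.2 h2.symm⟩
  have hT' : ∀ e, e ∈ S.sep i 1 ((S.rv i).1 * w) ↔ e ∈ S.St i.v ∧ side w (S.wl i e) = 0 := by
    intro e
    rw [mem_sep, side_one]
    constructor
    · rintro ⟨h2, h3⟩
      refine ⟨h2, ?_⟩
      have h4 := S.side_rv i w h2
      rw [smul_def] at h4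
      rw [h4] at h3
      rcases zmod2_cases (side w (S.wl i e)) with h5 | h5
      · exact h5
      · rw [h5] at h3
        exact absurd rfl h3
    · rintro ⟨h2, h3⟩
      refine ⟨h2, ?_⟩
      have h4 := S.side_rv i w h2
      rw [smul_def] at h4
      rw [h4, h3]
      decide
  have hcard : (S.sep i 1 w).card + (S.sep i 1 ((S.rv i).1 * w)).card = (S.St i.v).card := by
    rw [← Finset.card_union_of_disjoint]
    · congr 1
      ext e
      rw [Finset.mem_union, hT, hT']
      constructor
      · rintro (h2 | h2) <;> exact h2.1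
      · intro h2
        by_cases h3 : side w (S.wl i e) = 0
        · exact Or.inr ⟨h2, h3⟩
        · exact Or.inl ⟨h2, h3⟩
    · rw [Finset.disjoint_left]
      intro e h2 h3
      rw [hT] at h2
      rw [hT'] at h3
      exact h2.2 h3.2
  have hbig := S.big i.v
  have hm := S.hm
  set T := S.sep i 1 w with hTdef
  have hTm : S.m < T.card := by omega
  have hT2 : (S.St i.v).card < 2 * T.card := by omega
  -- the gate
  have hex : ∃ n, ∃ y : S.G.W, Par (fun a => a ∈ S.St i.v) y ∧ S.G.len (i.x * y) = n :=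
    ⟨_, 1, Par.one _, rfl⟩
  obtain ⟨y, hy, hyn⟩ := Nat.find_spec hex
  have hmin : ∀ z : S.G.W, Par (fun a => a ∈ S.St i.v) z →
      S.G.len (i.x * y) ≤ S.G.len (i.x * z) := by
    intro z hz
    rw [hyn]
    exact Nat.find_min' hex ⟨z, hz, rfl⟩
  set x := i.x * y with hx
  let j : Idx S := ⟨x, i.v⟩
  have hpar : Par (fun a => a ∈ S.St i.v) (i.x⁻¹ * j.x) := by
    have : i.x⁻¹ * j.x = y := by
      show i.x⁻¹ * (i.x * y) = y
      group
    rw [this]
    exact hy
  have hwl : ∀ e ∈ S.St i.v, S.wl i e = S.wl j e := fun e he =>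
    S.wl_par (i := i) (j := j) rfl hpar he
  have hside : ∀ e ∈ S.St i.v, side x (S.wl j e) = 0 := by
    intro e he
    by_contra h2
    have h3 := len_refl_mul h2
    have h4 : S.wl j e * x = i.x * (y * S.G.g e) := by
      show x * S.G.g e * x⁻¹ * x = i.x * (y * S.G.g e)
      rw [hx]
      group
    rw [h4] at h3
    have h5 := hmin (y * S.G.g e) (hy.mul (Par.gen he))
    omega
  have hTside : ∀ e ∈ T, side w (S.wl j e) ≠ 0 := by
    intro e he
    rw [← hwl e ((hT e).1 he).1]
    exact ((hT e).1 he).2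
  have hTsub : ∀ e ∈ T, e ∈ S.St i.v := fun e he => ((hT e).1 he).1
  -- first concatenation
  have hA : ∀ t, side x t ≠ 0 → side (x * (x⁻¹ * w)) t ≠ 0 := by
    intro t ht
    rw [mul_inv_cancel_left]
    intro hwt
    obtain ⟨f, hf, h2⟩ := S.cross_big i.v (x⁻¹ * t * x) T hTsub (by
      intro e he
      refine cross_wall' x e t 1 w ?_ ?_ ?_
      · rw [side_one]; exact Ne.symm ht
      · rw [hwt]; exact Ne.symm ht
      · rw [side_one]
        exact Ne.symm (hTside e he)) hTm
    have h3 : t = S.wl j f := by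
      show t = x * S.G.g f * x⁻¹
      rw [← h2]
      group
    rw [h3] at ht
    exact ht (hside f hf)
  have hlA := len_cat x (x⁻¹ * w) hA
  rw [mul_inv_cancel_left] at hlA
  set π := S.G.ev T.toList with hπ
  have hB : ∀ t, side π t ≠ 0 → side (π * (π⁻¹ * (x⁻¹ * w))) t ≠ 0 := by
    intro t ht
    rw [mul_inv_cancel_left]
    rw [hπ, S.side_list (v := i.v) _ (by simpa using hTsub) (Finset.nodup_toList _)] at ht
    have h2 : ∃ a ∈ T.toList, t = S.G.g a := by
      by_contra h3
      rw [if_neg h3] at ht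
      exact ht rfl
    obtain ⟨e, he, rfl⟩ := h2
    have he' : e ∈ T := by simpa using he
    have h3 : side w (S.wl j e) = side (x * (x⁻¹ * w)) (S.wl j e) := by
      rw [mul_inv_cancel_left]
    rw [side_mul, hside e (hTsub e he'), zero_add] at h3
    have h4 : x⁻¹ * S.wl j e * x = S.G.g e := by
      show x⁻¹ * (x * S.G.g e * x⁻¹) * x = S.G.g e
      group
    rw [h4] at h3
    rw [← h3]
    exact hTside e he'
  have hlB := len_cat π (π⁻¹ * (x⁻¹ * w)) hB
  rw [mul_inv_cancel_left] at hlB
  have hlπ : S.G.len π = T.card := by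
    rw [hπ, len_ev _ (S.red_clq i.v _ (by simpa using hTsub) (Finset.nodup_toList _)),
      Finset.length_toList]
  refine ⟨i.v, x, π⁻¹ * (x⁻¹ * w), T, hTsub, ?_, ?_, hT2⟩
  · rw [← hπ]; group
  · rw [hlA, hlB, hlπ]
    omega

end Big

end Pool.Agent.Helper2GI
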