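import Mathlib
import Pool.Agent.Helper2GI.Gate

/-!
Bounded derivations.
-/

set_option autoImplicit false

namespace Pool.Agent.Helper2GI

open Pool.Agent.W387 Pool.Agent.TH65

/-- one rewriting step with bounded result -/
def GStep {α : Type} (ρ : List α → List α → Prop) (N : ℕ) (s t : List α) : Prop :=
  ∃ l r a b, ρ a b ∧ s = l ++ a ++ r ∧ t = l ++ b ++ r ∧ t.length ≤ N

/-- bounded derivations -/
abbrev GR {α : Type} (ρ : List α → List α → Prop) (N : ℕ) : List α → List α → Prop :=
  Relation.ReflTransGen (GStep ρ N)

section
variable {α : Type} {ρ : List α → List α → Prop}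

theorem GR.mono {N N' : ℕ} (hN : N ≤ N') {s t : List α} (h : GR ρ N s t) : GR ρ N' s t := by
  induction h with
  | refl => exact Relation.ReflTransGen.refl
  | tail _ h2 ih =>
    obtain ⟨l, r, a, b, h3, h4, h5, h6⟩ := h2
    exact ih.tail ⟨l, r, a, b, h3, h4, h5, h6.trans hN⟩

theorem GR.ctx {N N' : ℕ} (l r : List α) (hN : l.length + N + r.length ≤ N') {s t : List α}
    (h : GR ρ N s t) : GR ρ N' (l ++ s ++ r) (l ++ t ++ r) := by
  induction h with
  | refl => exact Relation.ReflTransGen.refl
  | tail _ h2 ih =>
    obtain ⟨l', r', a, b, h3, h4, h5, h6⟩ := h2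
    refine ih.tail ⟨l ++ l', r' ++ r, a, b, h3, ?_, ?_, ?_⟩
    · rw [h4]; simp
    · rw [h5]; simp
    · simp only [List.length_append]
      omega

theorem GR.len {N : ℕ} {s t : List α} (h : GR ρ N s t) (hs : s.length ≤ N) : t.length ≤ N := by
  induction h with
  | refl => exact hs
  | tail _ h2 _ =>
    obtain ⟨l, r, a, b, h3, h4, h5, h6⟩ := h2
    exact h6

theorem GR.rule {N : ℕ} {a b : List α} (h : ρ a b) (l r : List α)
    (hN : l.length + b.length + r.length ≤ N) : GR ρ N (l ++ a ++ r) (l ++ b ++ r) :=
  Relation.ReflTransGen.single ⟨l, r, a, b, h, rfl, rfl, by simp only [List.length_append]; omega⟩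

end

/-- powers of the central letter -/
def jw {E : Type} (k : ZMod 2) : List (Option E) := if k = 0 then [] else [none]

theorem jw_zero {E : Type} : (jw 0 : List (Option E)) = [] := rfl

theorem jw_one {E : Type} : (jw 1 : List (Option E)) = [none] := rfl

theorem jw_len {E : Type} (k : ZMod 2) : (jw k : List (Option E)).length ≤ 1 := by
  unfold jw
  split_ifs <;> simp

namespace Big

open RA

variable {E V : Type} (S : Big E V) (L : V → List E)

/-- rules -/
inductive Ru : List (Option E) → List (Option E) → Prop
  | jj : Ru [none, none] []
  | jx (e : E) : Ru [none, some e] [some e, none]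
  | xj (e : E) : Ru [some e, none] [none, some e]
  | xx (e : E) : Ru [some e, some e] []
  | xi (e : E) : Ru [] [some e, some e]
  | cm (a b : E) (h : S.G.adj a b) : Ru [some a, some b] [some b, some a]
  | st (v : V) : Ru ((L v).map some) (jw (S.col v))

/-- value of a letter -/
noncomputable def vl : Option E → S.Gp
  | none => (1, Multiplicative.ofAdd 1)
  | some e => (S.G.g e, 1)

/-- value of a word -/
noncomputable def val (u : List (Option E)) : S.Gp := (u.map S.vl).prod

theorem val_nil : S.val [] = 1 := rfl

theorem val_cons (a : Option E) (u : List (Option E)) : S.val (a :: u) = S.vl a * S.val u := by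
  unfold val
  rw [List.map_cons, List.prod_cons]

theorem val_append (u u' : List (Option E)) : S.val (u ++ u') = S.val u * S.val u' := by
  unfold val
  rw [List.map_append, List.prod_append]

theorem val_some (m : List E) : S.val (m.map some) = (S.G.ev m, 1) := by
  induction m with
  | nil => rfl
  | cons a m ih =>
    rw [List.map_cons, val_cons, ih, ev_cons]
    show (S.G.g a, (1 : Multiplicative (ZMod 2))) * (S.G.ev m, 1) = _
    rw [Prod.mk_mul_mk, one_mul]

theorem val_jw (k : ZMod 2) : S.val (jw k) = (1, Multiplicative.ofAdd k) := by
  rcases zmod2_cases k with rfl | rfl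
  · rfl
  · rw [jw_one, val_cons, val_nil, mul_one]
    rfl

theorem fl_GR {m m' : List E} (h : S.G.sys.Fl m m') :
    GR (S.Ru L) m.length (m.map some) (m'.map some) := by
  induction h with
  | head l h =>
    obtain ⟨hab, rfl, rfl⟩ := adj_of_sq h
    have := GR.rule (ρ := S.Ru L) (N := l.length + 2) (Ru.cm _ _ hab) [] (l.map some)
      (by simp; omega)
    simpa using this
  | @cons c l l' _ ih =>
    have := ih.ctx [some c] [] (N' := l.length + 1) (by simp; omega)
    simpa using this

theorem E_GR {m m' : List E} (h : S.G.sys.E m m') :
    GR (S.Ru L) m.length (m.map some) (m'.map some) := by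
  induction h with
  | refl => exact Relation.ReflTransGen.refl
  | tail h1 h2 ih =>
    refine ih.trans ((S.fl_GR L h2).mono ?_)
    exact le_of_eq (SqSys.E.length h1).symm

theorem same_GR {m m' : List E} (h : S.G.Red m) (h' : S.G.Red m') (e : S.G.ev m = S.G.ev m') :
    GR (S.Ru L) m.length (m.map some) (m'.map some) :=
  S.E_GR L (SqSys.E_of_evL_eq h h' e)

/-- normalisation -/
theorem norm_GR (u : List (Option E)) : ∃ (k : ZMod 2) (m : List E), S.G.Red m ∧
    S.val u = (S.G.ev m, Multiplicative.ofAdd k) ∧
    GR (S.Ru L) u.length u (jw k ++ m.map some) := by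
  induction u with
  | nil => exact ⟨0, [], red_nil, rfl, Relation.ReflTransGen.refl⟩
  | cons a u ih =>
    obtain ⟨k, m, hm, hv, hd⟩ := ih
    have hd' : GR (S.Ru L) (a :: u).length (a :: u) ([a] ++ (jw k ++ m.map some)) := by
      have := hd.ctx [a] [] (N' := (a :: u).length) (by simp; omega)
      simpa using this
    have hlen := hd'.len (le_refl _)
    cases a with
    | none =>
      rcases zmod2_cases k with rfl | rfl
      · refine ⟨1, m, hm, ?_, ?_⟩
        · rw [val_cons, hv]
          show ((1 : S.G.W), Multiplicative.ofAdd (1 : ZMod 2)) * (S.G.ev m, Multiplicative.ofAdd 0) = _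
          rw [Prod.mk_mul_mk, one_mul, ← ofAdd_add, add_zero]
        · rw [jw_zero] at hd'
          rw [jw_one]
          simpa using hd'
      · refine ⟨0, m, hm, ?_, ?_⟩
        · rw [val_cons, hv]
          show ((1 : S.G.W), Multiplicative.ofAdd (1 : ZMod 2)) * (S.G.ev m, Multiplicative.ofAdd 1) = _
          rw [Prod.mk_mul_mk, one_mul, ← ofAdd_add]
          rfl
        · rw [jw_one] at hd' hlen
          rw [jw_zero]
          refine hd'.trans ?_
          have := GR.rule (ρ := S.Ru L) (N := (none :: u).length) Ru.jj [] (m.map some) (by
            simp only [List.length_append, List.length_cons, List.length_nil, List.length_map]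
              at hlen ⊢
            omega)
          simpa using this
    | some a =>
      -- move the generator to the right of `J`
      have h1 : GR (S.Ru L) (some a :: u).length ([some a] ++ (jw k ++ m.map some))
          (jw k ++ (a :: m).map some) := by
        rcases zmod2_cases k with rfl | rfl
        · rw [jw_zero]
          exact Relation.ReflTransGen.refl
        · rw [jw_one] at hlen ⊢
          have := GR.rule (ρ := S.Ru L) (N := (some a :: u).length) (Ru.xj a) [] (m.map some) (by
            simp only [List.length_append, List.length_cons, List.length_nil, List.length_map]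
              at hlen ⊢
            omega)
          simpa using this
      have hval : S.val (some a :: u) = (S.G.ev (a :: m), Multiplicative.ofAdd k) := by
        rw [val_cons, hv, ev_cons]
        show (S.G.g a, (1 : Multiplicative (ZMod 2))) * _ = _
        rw [Prod.mk_mul_mk, one_mul]
      have hlen2 := GR.len (hd'.trans h1) (le_refl _)
      by_cases hr : S.G.Red (a :: m)
      · exact ⟨k, a :: m, hr, hval, hd'.trans h1⟩
      · obtain ⟨m', h2⟩ := SqSys.exists_tail (S := S.G.sys) hm hr
        have h2' : S.G.sys.E m (a :: m') := h2
        have hev : S.G.ev m = S.G.ev (a :: m') := SqSys.evL_E h2'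
        have hml : m.length = m'.length + 1 := by
          have := SqSys.E.length h2'
          simpa using this
        have hm' : S.G.Red m' := by
          apply red_of_len
          have h3 := len_ev m hm
          rw [hev, ev_cons] at h3
          have h4 := len_ev_le (G := S.G) m'
          rcases len_g_mul a (S.G.ev m') with h5 | h5 <;> omega
        refine ⟨k, m', hm', ?_, ?_⟩
        · rw [hval, ev_cons, hev, ev_cons, ← mul_assoc, gg, one_mul]
        · refine (hd'.trans h1).trans ?_
          have h3 := (S.E_GR L h2').ctx (jw k ++ [some a]) [] (N' := (some a :: u).length) (by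
            simp only [List.length_append, List.length_cons, List.length_nil, List.length_map]
              at hlen2 ⊢
            omega)
          have h4 := GR.rule (ρ := S.Ru L) (N := (some a :: u).length) (Ru.xx a) (jw k)
            (m'.map some) (by
            simp only [List.length_append, List.length_cons, List.length_nil, List.length_map]
              at hlen2 ⊢
            omega)
          refine Relation.ReflTransGen.trans ?_ (Relation.ReflTransGen.trans h3 ?_)
          · simp only [List.map_cons, List.append_assoc, List.append_nil, List.cons_append,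
              List.nil_append]
            exact Relation.ReflTransGen.refl
          · simpa using h4

/-- insertion of a word followed by its reverse -/
theorem ins_GR (l : List E) :
    GR (S.Ru L) (2 * l.length) [] (l.map some ++ (l.reverse).map some) := by
  induction l with
  | nil => exact Relation.ReflTransGen.refl
  | cons a l ih =>
    have h1 := GR.rule (ρ := S.Ru L) (N := 2 * (a :: l).length) (Ru.xi a) [] [] (by simp)
    have h2 := ih.ctx [some a] [some a] (N' := 2 * (a :: l).length) (by simp; omega)
    refine Relation.ReflTransGen.trans (b := [some a, some a]) (by simpa using h1) ?_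
    simpa using h2

/-- replacing part of a clique by the rest -/
theorem swap_GR (hL : ∀ v, (L v).Perm (S.St v).toList) (v : V) (T : Finset E)
    (hT : T ⊆ S.St v) : ∃ l : List E, l.length + T.card = (S.St v).card ∧
    S.G.ev T.toList = S.ep v * S.G.ev l ∧
    GR (S.Ru L) (2 * (S.St v).card) (T.toList.map some) (jw (S.col v) ++ l.map some) := by
  classical
  set l' := (S.St v \ T).toList with hl'
  have hcard : l'.length + T.card = (S.St v).card := by
    rw [hl', Finset.length_toList]
    exact Finset.card_sdiff_add_card_eq_card hT
  have hperm : (T.toList ++ l').Perm (L v) := by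
    refine List.Perm.trans ?_ (hL v).symm
    refine (List.perm_ext_iff_of_nodup ?_ (Finset.nodup_toList _)).2 ?_
    · rw [List.nodup_append']
      refine ⟨Finset.nodup_toList _, Finset.nodup_toList _, ?_⟩
      intro a ha hb
      simp only [hl', Finset.mem_toList, Finset.mem_sdiff] at ha hb
      exact hb.2 ha
    · intro a
      simp only [hl', List.mem_append, Finset.mem_toList, Finset.mem_sdiff]
      constructor
      · rintro (h | h)
        · exact hT h
        · exact h.1
      · intro h
        by_cases h2 : a ∈ T
        · exact Or.inl h2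
        · exact Or.inr ⟨h, h2⟩
  have hmem : ∀ a ∈ T.toList ++ l', a ∈ S.St v := by
    intro a ha
    have := hperm.mem_iff.1 ha
    have := (hL v).mem_iff.1 this
    simpa using this
  have hnd : (T.toList ++ l').Nodup := by
    rw [hperm.nodup_iff, (hL v).nodup_iff]
    exact Finset.nodup_toList _
  have hmemL : ∀ a ∈ L v, a ∈ S.St v := fun a ha => hmem a (hperm.mem_iff.2 ha)
  have hev1 : S.G.ev (T.toList ++ l') = S.G.ev (L v) := S.ev_perm v hperm hmem
  have hev2 : S.G.ev (L v) = S.ep v := S.ev_perm v (hL v) hmemL
  refine ⟨l'.reverse, by simpa using hcard, ?_, ?_⟩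
  · rw [ev_reverse, ← hev2, ← hev1, ev_append, mul_inv_cancel_right]
  · have h1 := (S.ins_GR L l').ctx (T.toList.map some) [] (N' := 2 * (S.St v).card) (by
      simp only [List.length_map, Finset.length_toList, List.length_nil]; omega)
    have h2 := (S.same_GR L (S.red_clq v _ hmem hnd)
      (S.red_clq v _ hmemL (hperm.nodup_iff.1 hnd)) hev1).ctx [] (l'.reverse.map some)
      (N' := 2 * (S.St v).card) (by
      simp only [List.length_map, List.length_append, Finset.length_toList, List.length_nil,
        List.length_reverse]
      omega)
    have h3 := GR.rule (ρ := S.Ru L) (N := 2 * (S.St v).card) (Ru.st v) []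
      (l'.reverse.map some) (by
      have h5 := jw_len (E := E) (S.col v)
      have h6 := S.big v
      simp only [List.length_map, List.length_nil, List.length_reverse]
      have h7 : T.card ≤ (S.St v).card := by omega
      omega)
    refine Relation.ReflTransGen.trans (b := T.toList.map some ++ (l'.map some ++
      l'.reverse.map some)) (by simpa using h1) ?_
    refine Relation.ReflTransGen.trans (b := (L v).map some ++ l'.reverse.map some)
      (by simpa using h2) ?_
    simpa using h3

theorem rv_mem (i : Idx S) : S.rv i ∈ ⨆ i, Subgroup.zpowers (S.rv i) :=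
  (le_iSup (fun i => Subgroup.zpowers (S.rv i)) i) (Subgroup.mem_zpowers _)

/-- main derivation -/
theorem main_GR (hL : ∀ v, (L v).Perm (S.St v).toList) (M : ℕ) (hM : ∀ v, (S.St v).card ≤ M) :
    ∀ (n : ℕ) (m : List E) (k : ZMod 2), S.G.Red m → m.length = n →
    ((S.G.ev m, Multiplicative.ofAdd k) : S.Gp) ∈ ⨆ i, Subgroup.zpowers (S.rv i) →
    GR (S.Ru L) (n + 2 * M + 2) (jw k ++ m.map some) [] := by
  intro n
  induction n using Nat.strong_induction_on with
  | _ n IH =>
  intro m k hm hn hN
  by_cases h1 : ((S.G.ev m, Multiplicative.ofAdd k) : S.Gp) = 1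
  · have h2 : S.G.ev m = 1 := congrArg Prod.fst h1
    have h3 : k = 0 := congrArg Prod.snd h1
    have h4 : m.length = 0 := by
      rw [← len_ev m hm, h2, len_one]
    have h5 : m = [] := List.eq_nil_of_length_eq_zero h4
    subst h5
    subst h3
    exact Relation.ReflTransGen.refl
  · obtain ⟨v, x, q, T, hT, hw, hlen, hbig⟩ := S.gate _ hN h1
    simp only at hw hlen
    obtain ⟨mx, hmx, hx⟩ := exists_red x
    obtain ⟨mq, hmq, hq⟩ := exists_red q
    have hlx := len_ev mx hmx
    have hlq := len_ev mq hmq
    rw [hx] at hlx
    rw [hq] at hlq
    rw [len_ev m hm, hn, hlx, hlq] at hlen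
    have hred : S.G.Red (mx ++ T.toList ++ mq) := by
      apply red_of_len
      rw [ev_append, ev_append, hx, hq, ← hw, len_ev m hm, hn, hlen]
      simp only [List.length_append, Finset.length_toList]
    have hev : S.G.ev m = S.G.ev (mx ++ T.toList ++ mq) := by
      rw [ev_append, ev_append, hx, hq, ← hw]
    obtain ⟨l, hl1, hl2, hl3⟩ := S.swap_GR L hL v T hT
    have hMv := hM v
    have hjk := jw_len (E := E) k
    have hjc := jw_len (E := E) (S.col v)
    have d1 := (S.same_GR L hm hred hev).ctx (jw k) [] (N' := n + 2 * M + 2) (by
      simp only [List.length_nil]; omega)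
    have d2 := hl3.ctx (jw k ++ mx.map some) (mq.map some) (N' := n + 2 * M + 2) (by
      simp only [List.length_append, List.length_map]; omega)
    obtain ⟨k', m', hm', hv', d3⟩ := S.norm_GR L
      (jw k ++ mx.map some ++ (jw (S.col v) ++ l.map some) ++ mq.map some)
    have hlen3 := d3.len (le_refl _)
    have hb : (jw k ++ mx.map some ++ (jw (S.col v) ++ l.map some) ++ mq.map some).length ≤
        n + 2 := by
      simp only [List.length_append, List.length_map]
      omega
    -- value of the new word
    have hval : S.val (jw k ++ mx.map some ++ (jw (S.col v) ++ l.map some) ++ mq.map some) =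
        S.rv ⟨x, v⟩ * (S.G.ev m, Multiplicative.ofAdd k) := by
      simp only [val_append, val_jw, val_some]
      simp only [Prod.mk_mul_mk, one_mul, mul_one, hx, hq]
      refine Prod.ext ?_ ?_
      · show x * S.G.ev l * q = x * S.ep v * x⁻¹ * S.G.ev m
        have h2 : S.G.ev l = S.ep v * S.G.ev T.toList := by
          rw [hl2, ← mul_assoc, ep_sq, one_mul]
        rw [hw, h2]
        group
      · show Multiplicative.ofAdd k * Multiplicative.ofAdd (S.col v) =
          Multiplicative.ofAdd (S.col v) * Multiplicative.ofAdd k
        exact mul_comm _ _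
    have hN' : ((S.G.ev m', Multiplicative.ofAdd k') : S.Gp) ∈
        ⨆ i, Subgroup.zpowers (S.rv i) := by
      rw [← hv', hval]
      exact Subgroup.mul_mem _ (S.rv_mem _) hN
    have hlt : m'.length < n := by
      have h2 : S.G.ev m' = x * S.G.ev l * q := by
        have h3 : S.G.ev m' = (S.rv ⟨x, v⟩ * ((S.G.ev m, Multiplicative.ofAdd k) : S.Gp)).1 := by
          rw [← hval, hv']
        rw [h3]
        show x * S.ep v * x⁻¹ * S.G.ev m = _
        have h2 : S.G.ev l = S.ep v * S.G.ev T.toList := by
          rw [hl2, ← mul_assoc, ep_sq, one_mul]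
        rw [hw, h2]
        group
      have h3 := len_ev m' hm'
      rw [h2] at h3
      have h4 := len_mul_le (x * S.G.ev l) q
      have h5 := len_mul_le x (S.G.ev l)
      have h6 := len_ev_le (G := S.G) l
      omega
    have d4 := IH m'.length hlt m' k' hm' rfl hN'
    refine Relation.ReflTransGen.trans (b := jw k ++ (mx ++ T.toList ++ mq).map some)
      (by simpa using d1) ?_
    refine Relation.ReflTransGen.trans
      (b := jw k ++ mx.map some ++ (jw (S.col v) ++ l.map some) ++ mq.map some)
      (by simpa using d2) ?_
    exact (d3.mono (by omega)).trans (d4.mono (by omega))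

/-- every word in the kernel has a bounded derivation -/
theorem derive (hL : ∀ v, (L v).Perm (S.St v).toList) (M : ℕ) (hM : ∀ v, (S.St v).card ≤ M)
    (u : List (Option E)) (hu : S.val u ∈ ⨆ i, Subgroup.zpowers (S.rv i)) :
    GR (S.Ru L) (u.length + 2 * M + 2) u [] := by
  obtain ⟨k, m, hm, hv, hd⟩ := S.norm_GR L u
  have hlen := hd.len (le_refl _)
  simp only [List.length_append, List.length_map] at hlen
  rw [hv] at hu
  exact (hd.mono (by omega)).trans ((S.main_GR L hL M hM _ m k hm rfl hu).mono (by omega))

end Big

end Pool.Agent.Helper2GI
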