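import Mathlib
import Pool.Agent.Helper2GI.Deriv
import Pool.Agent.Helper2GI.Comp

/-!
Graphs of large minimum degree.
-/

set_option autoImplicit false

namespace Pool.Agent.Helper2GI

open Pool.Agent.W387 Pool.Agent.TH65 RA

/-- The number of edges incident with `v`. -/
def degree (c : Code) (v : ℕ) : ℕ := (star c v).length

/-- The number of edges incident with both `u` and `v`. -/
def joining (c : Code) (u v : ℕ) : ℕ := ((star c u).filter fun i => Inc c v i).length

/-- the commutation graph -/
def cgr (c : Code) : RA (Edge c) where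
  adj i j := i ≠ j ∧ ∃ v, Inc c v i ∧ Inc c v j
  symm := by
    rintro i j ⟨h, v, h1, h2⟩
    exact ⟨h.symm, v, h2, h1⟩
  irr := fun i h => h.1 rfl

theorem mem_star {c : Code} {v : ℕ} {i : Edge c} : i ∈ star c v ↔ Inc c v i := by
  unfold star
  simp

theorem star_nodup (c : Code) (v : ℕ) : (star c v).Nodup :=
  (List.nodup_finRange _).filter _

theorem card_joining {c : Code} {u v : ℕ} (T : Finset (Edge c))
    (hT : ∀ e ∈ T, Inc c u e ∧ Inc c v e) : T.card ≤ joining c u v := by
  have h : T ⊆ ((star c u).filter fun i => Inc c v i).toFinset := by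
    intro e he
    simp only [List.mem_toFinset, List.mem_filter, decide_eq_true_eq, mem_star]
    exact hT e he
  exact (Finset.card_le_card h).trans (List.toFinset_card_le _)

theorem inc_lt {c : Code} (hV : Valid c) {v : ℕ} {i : Edge c} (h : Inc c v i) : v < c.1 := by
  have h1 := hV (c.2.1.get i) (List.get_mem _ _)
  rcases h with h | h
  · rw [← h]; exact h1.1
  · rw [← h]; exact h1.2.1

/-- the data for a graph of large minimum degree -/
noncomputable def bigOf (c : Code) (hV : Valid c) (μ : ℕ)
    (h1 : ∀ u v, u < c.1 → v < c.1 → u ≠ v → joining c u v ≤ μ)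
    (h2 : ∀ v < c.1, 80 * μ < degree c v) : Big (Edge c) (Fin c.1) where
  G := cgr c
  St v := (star c v).toFinset
  clq := by
    intro v a ha b hb hab
    rw [List.mem_toFinset, mem_star] at ha hb
    exact ⟨hab, v, ha, hb⟩
  m := max 1 (2 * μ)
  hm := le_max_left _ _
  sm := by
    classical
    intro v f hf T hT
    rw [List.mem_toFinset, mem_star] at hf
    refine le_trans ?_ (le_max_right _ _)
    set a := (c.2.1.get f).1 with ha
    set b := (c.2.1.get f).2 with hb
    have hfa : Inc c a f := Or.inl rfl
    have hfb : Inc c b f := Or.inr rfl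
    have hav : a ≠ v := by rintro h; exact hf (h ▸ hfa)
    have hbv : b ≠ v := by rintro h; exact hf (h ▸ hfb)
    have hsub : T ⊆ (T.filter fun e => Inc c a e) ∪ (T.filter fun e => Inc c b e) := by
      intro e he
      obtain ⟨_, _, w, hw1, hw2⟩ := hT e he
      rw [Finset.mem_union, Finset.mem_filter, Finset.mem_filter]
      rcases hw1 with hw1 | hw1
      · left
        refine ⟨he, ?_⟩
        rw [ha, hw1]
        exact hw2
      · right
        refine ⟨he, ?_⟩
        rw [hb, hw1]
        exact hw2
    have hA := card_joining (u := v.1) (v := a) (T.filter fun e => Inc c a e) (by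
      intro e he
      rw [Finset.mem_filter] at he
      have := (hT e he.1).1
      rw [List.mem_toFinset, mem_star] at this
      exact ⟨this, he.2⟩)
    have hB := card_joining (u := v.1) (v := b) (T.filter fun e => Inc c b e) (by
      intro e he
      rw [Finset.mem_filter] at he
      have := (hT e he.1).1
      rw [List.mem_toFinset, mem_star] at this
      exact ⟨this, he.2⟩)
    have hA2 := h1 v.1 a v.2 (inc_lt hV hfa) (Ne.symm hav)
    have hB2 := h1 v.1 b v.2 (inc_lt hV hfb) (Ne.symm hbv)
    have h3 := (Finset.card_le_card hsub).trans (Finset.card_union_le _ _)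
    omega
  sm2 := by
    intro u v huv T hT
    have h3 := card_joining (u := u.1) (v := v.1) T (by
      intro e he
      have := hT e he
      rw [List.mem_toFinset, mem_star, List.mem_toFinset, mem_star] at this
      exact this)
    have h4 := h1 u.1 v.1 u.2 v.2 (fun h => huv (Fin.ext h))
    refine le_trans ?_ (le_max_right _ _)
    omega
  big := by
    intro v
    rw [List.toFinset_card_of_nodup (star_nodup c v.1)]
    have h3 := h2 v.1 v.2
    unfold degree at h3
    rcases Nat.eq_zero_or_pos μ with h0 | h0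
    · exfalso
      subst h0
      have h4 : star c v.1 ≠ [] := by
        intro h5
        rw [h5] at h3
        simp at h3
      obtain ⟨e, he⟩ := List.exists_mem_of_ne_nil _ h4
      rw [mem_star] at he
      have hval := hV (c.2.1.get e) (List.get_mem _ _)
      have h5 := card_joining (c := c) (u := (c.2.1.get e).1) (v := (c.2.1.get e).2) {e} (by
        intro e' he'
        rw [Finset.mem_singleton] at he'
        subst he'
        exact ⟨Or.inl rfl, Or.inr rfl⟩)
      have h6 := h1 _ _ hval.1 hval.2.1 hval.2.2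
      rw [Finset.card_singleton] at h5
      omega
    · have : max 1 (2 * μ) = 2 * μ := max_eq_right (by omega)
      rw [this]
      omega
  col v := (colour c v : ZMod 2)

theorem normal_H {E V : Type} (S : Big E V) :
    (⨆ i, Subgroup.zpowers (S.rv i)).Normal := by
  constructor
  intro n hn g
  have key : ∀ i : Big.Idx S, S.rv (g • i) = g * S.rv i * g⁻¹ := by
    intro i
    rw [Big.smulI_def]
    unfold Big.rv
    refine Prod.ext ?_ ?_
    · show g.1 * i.x * S.ep i.v * (g.1 * i.x)⁻¹ = g.1 * (i.x * S.ep i.v * i.x⁻¹) * g.1⁻¹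
      group
    · show Multiplicative.ofAdd (S.col i.v) = g.2 * Multiplicative.ofAdd (S.col i.v) * g.2⁻¹
      rw [mul_inv_cancel_comm]
  refine Subgroup.iSup_induction (fun i => Subgroup.zpowers (S.rv i))
    (C := fun n => g * n * g⁻¹ ∈ ⨆ i, Subgroup.zpowers (S.rv i)) hn ?_ ?_ ?_
  · intro i x hx
    rcases S.mem_H hx with rfl | rfl
    · rw [mul_one, mul_inv_cancel]
      exact Subgroup.one_mem _
    · rw [← key]
      exact S.rv_mem _
  · rw [mul_one, mul_inv_cancel]
    exact Subgroup.one_mem _
  · intro x y hx hy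
    have : g * (x * y) * g⁻¹ = (g * x * g⁻¹) * (g * y * g⁻¹) := by group
    rw [this]
    exact Subgroup.mul_mem _ hx hy

theorem val_colour {E V : Type} (S : Big E V) (k : ℕ) :
    (S.vl none) ^ k = (1, Multiplicative.ofAdd (k : ZMod 2)) := by
  induction k with
  | zero => rfl
  | succ k ih =>
    rw [pow_succ, ih]
    show ((1 : S.G.W), Multiplicative.ofAdd (k : ZMod 2)) * (1, Multiplicative.ofAdd 1) = _
    rw [Prod.mk_mul_mk, one_mul, ← ofAdd_add]
    push_cast
    rfl

theorem kernel_mem (c : Code) (S : Big (Edge c) (Fin c.1)) (hG : S.G = cgr c)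
    (hSt : ∀ v, S.St v = (star c v).toFinset) (hcol : ∀ v, S.col v = (colour c v : ZMod 2))
    (u : List (Option (Edge c)))
    (hu : (u.map (PresentedGroup.of (rels := {r | Rlt c r}))).prod = 1) :
    S.val u ∈ ⨆ i, Subgroup.zpowers (S.rv i) := by
  have := normal_H S
  set N := ⨆ i, Subgroup.zpowers (S.rv i) with hN
  have hvl : ∀ a, S.vl a * S.vl a = 1 := by
    intro a
    cases a with
    | none =>
      show ((1 : S.G.W), Multiplicative.ofAdd (1 : ZMod 2)) * (1, Multiplicative.ofAdd 1) = 1
      rw [Prod.mk_mul_mk, one_mul, ← ofAdd_add]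
      rfl
    | some e =>
      show (S.G.g e, (1 : Multiplicative (ZMod 2))) * (S.G.g e, 1) = 1
      rw [Prod.mk_mul_mk, gg, one_mul]
      rfl
  have hrel : ∀ r ∈ {r | Rlt c r},
      FreeGroup.lift (fun a => ((S.vl a : S.Gp) : S.Gp ⧸ N)) r = 1 := by
    intro r hr
    have hr' : Rlt c r := hr
    cases hr' with
    | JJ =>
      rw [map_mul, FreeGroup.lift_apply_of, ← QuotientGroup.mk_mul, hvl]
      rfl
    | xx i =>
      rw [map_mul, FreeGroup.lift_apply_of, ← QuotientGroup.mk_mul, hvl]
      rfl
    | xJ i =>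
      simp only [map_mul, map_inv, FreeGroup.lift_apply_of]
      rw [mul_inv_eq_one, mul_inv_eq_iff_eq_mul, ← QuotientGroup.mk_mul, ← QuotientGroup.mk_mul]
      have h5 : S.vl (some i) * S.vl none = S.vl none * S.vl (some i) := by
        show (S.G.g i, (1 : Multiplicative (ZMod 2))) * ((1 : S.G.W), Multiplicative.ofAdd 1) =
          ((1 : S.G.W), Multiplicative.ofAdd 1) * (S.G.g i, 1)
        rw [Prod.mk_mul_mk, Prod.mk_mul_mk, one_mul, mul_one, one_mul, mul_one]
      rw [h5]
    | comm v i j hi hj =>
      simp only [map_mul, map_inv, FreeGroup.lift_apply_of]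
      rw [mul_inv_eq_one, mul_inv_eq_iff_eq_mul, ← QuotientGroup.mk_mul, ← QuotientGroup.mk_mul]
      congr 1
      show (S.G.g i, (1 : Multiplicative (ZMod 2))) * (S.G.g j, 1) = (S.G.g j, 1) * (S.G.g i, 1)
      rw [Prod.mk_mul_mk, Prod.mk_mul_mk]
      congr 1
      by_cases hij : i = j
      · rw [hij]
      · apply gcomm
        rw [hG]
        exact ⟨hij, v, hi, hj⟩
    | vert v hv =>
      rw [map_mul, map_inv, map_pow, map_list_prod, List.map_map, mul_inv_eq_one,
        FreeGroup.lift_apply_of, ← QuotientGroup.mk_pow, val_colour]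
      have h1 : (List.map ((⇑(FreeGroup.lift fun a => ((S.vl a : S.Gp) : S.Gp ⧸ N))) ∘
          fun i => FreeGroup.of (some i)) (star c v)).prod =
          ((S.val ((star c v).map some) : S.Gp) : S.Gp ⧸ N) := by
        generalize star c v = l
        induction l with
        | nil => rfl
        | cons a l ih =>
          rw [List.map_cons, List.prod_cons, ih, List.map_cons, Big.val_cons, QuotientGroup.mk_mul]
          rfl
      rw [h1, S.val_some]
      have hSt' := hSt ⟨v, hv⟩
      have hperm : (star c v).Perm (S.St ⟨v, hv⟩).toList := by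
        rw [hSt']
        refine (List.perm_ext_iff_of_nodup (star_nodup c v) (Finset.nodup_toList _)).2 ?_
        intro a
        simp
      have h2 : S.G.ev (star c v) = S.ep ⟨v, hv⟩ :=
        S.ev_perm ⟨v, hv⟩ hperm (by rw [hSt']; simp)
      rw [h2, QuotientGroup.eq]
      have h3 := S.rv_mem ⟨1, ⟨v, hv⟩⟩
      have h4 : ((S.ep ⟨v, hv⟩, (1 : Multiplicative (ZMod 2))) : S.Gp)⁻¹ *
          (1, Multiplicative.ofAdd (colour c v : ZMod 2)) = S.rv ⟨1, ⟨v, hv⟩⟩ := by
        unfold Big.rv
        refine Prod.ext ?_ ?_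
        · show (S.ep ⟨v, hv⟩)⁻¹ * 1 = 1 * S.ep ⟨v, hv⟩ * 1⁻¹
          rw [mul_one, one_mul, inv_one, mul_one]
          exact inv_eq_of_mul_eq_one_right (S.ep_sq _)
        · show (1 : Multiplicative (ZMod 2))⁻¹ * Multiplicative.ofAdd (colour c v : ZMod 2) =
            Multiplicative.ofAdd (S.col ⟨v, hv⟩)
          rw [inv_one, one_mul, hcol]
      rw [h4]
      exact h3
  have h1 := congrArg (PresentedGroup.toGroup hrel) hu
  rw [map_one, map_list_prod, List.map_map] at h1
  have h2 : (List.map (⇑(PresentedGroup.toGroup hrel) ∘ PresentedGroup.of) u).prod =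
      ((S.val u : S.Gp) : S.Gp ⧸ N) := by
    clear h1 hu
    induction u with
    | nil => rfl
    | cons a u ih =>
      rw [List.map_cons, List.prod_cons, ih, Big.val_cons, QuotientGroup.mk_mul]
      congr 1
      exact PresentedGroup.toGroup.of hrel
  rw [h2] at h1
  exact (QuotientGroup.eq_one_iff _).1 h1

theorem enc_rule (c : Code) (S : Big (Edge c) (Fin c.1)) (hG : S.G = cgr c)
    (hcol : ∀ v, S.col v = (colour c v : ZMod 2)) {a b : List (Option (Edge c))}
    (h : S.Ru (fun v => star c v.1) a b) : (a.map (enc c), b.map (enc c)) ∈ RL c := by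
  unfold RL
  simp only [List.mem_append]
  have hR1 : ∀ (i : Edge c) (r : Rule), r ∈ ([([0, i.1 + 1], [i.1 + 1, 0]),
      ([i.1 + 1, 0], [0, i.1 + 1]), ([i.1 + 1, i.1 + 1], []), ([], [i.1 + 1, i.1 + 1])] :
        List Rule) → r ∈ R1 c := by
    intro i r hr
    unfold R1
    rw [List.mem_flatMap]
    exact ⟨i.1, List.mem_range.2 i.2, hr⟩
  cases h with
  | jj => left; left; left; simp [enc]
  | jx e => left; left; right; exact hR1 e _ (by simp [enc])
  | xj e => left; left; right; exact hR1 e _ (by simp [enc])
  | xx e => left; left; right; exact hR1 e _ (by simp [enc])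
  | xi e => left; left; right; exact hR1 e _ (by simp [enc])
  | cm a b hab =>
    left; right
    unfold R2
    rw [List.mem_flatMap]
    refine ⟨a.1, List.mem_range.2 a.2, ?_⟩
    rw [List.mem_flatMap]
    refine ⟨b.1, List.mem_range.2 b.2, ?_⟩
    rw [hG] at hab
    rw [if_pos ((shr_iff c a b).2 hab.2)]
    simp [enc]
  | st v =>
    right
    unfold R3
    rw [List.mem_flatMap]
    refine ⟨v.1, List.mem_range.2 v.2, ?_⟩
    have h1 : (jw (S.col v) : List (Option (Edge c))).map (enc c) = colN c v.1 := by
      rw [hcol]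
      unfold colN colour
      split_ifs
      · rw [Nat.cast_one, jw_one]; rfl
      · rw [Nat.cast_zero, jw_zero]; rfl
    rw [h1, starN_eq]
    simp

theorem GR_reach (c : Code) (S : Big (Edge c) (Fin c.1)) (hG : S.G = cgr c)
    (hcol : ∀ v, S.col v = (colour c v : ZMod 2)) (N : ℕ) {s t : List (Option (Edge c))}
    (h : GR (S.Ru (fun v => star c v.1)) N s t) :
    Relation.ReflTransGen (BStep (RL c) N) (s.map (enc c)) (t.map (enc c)) := by
  induction h with
  | refl => exact Relation.ReflTransGen.refl
  | tail _ h2 ih =>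
    obtain ⟨l, r, a, b, h3, h4, h5, h6⟩ := h2
    refine ih.tail ⟨⟨l.map (enc c), r.map (enc c), a.map (enc c), b.map (enc c),
      enc_rule c S hG hcol h3, ?_, ?_⟩, ?_⟩
    · rw [h4]; simp
    · rw [h5]; simp
    · simpa using h6

end Pool.Agent.Helper2GI
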