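import Mathlib
import Pool.Agent.Helper2GI.Comp
import Pool.Agent.Helper2GI.BigG

/-!
Bounded derivations between words in the edges of a coded graph, up to a power of `J`.
-/

set_option autoImplicit false

namespace Pool.Agent.Helper2GI

open Pool.Agent.W387 Pool.Agent.TH65 RA

/-- letter rules of a coded graph -/
inductive Ru (c : Code) : List (Option (Edge c)) → List (Option (Edge c)) → Prop
  | jj : Ru c [none, none] []
  | ij : Ru c [] [none, none]
  | jx (e : Edge c) : Ru c [none, some e] [some e, none]
  | xj (e : Edge c) : Ru c [some e, none] [none, some e]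
  | xx (e : Edge c) : Ru c [some e, some e] []
  | xi (e : Edge c) : Ru c [] [some e, some e]
  | cm (v : ℕ) (a b : Edge c) (ha : Inc c v a) (hb : Inc c v b) :
      Ru c [some a, some b] [some b, some a]
  | st (v : ℕ) (hv : v < c.1) : Ru c ((star c v).map some) (jw (colour c v : ZMod 2))
  | ts (v : ℕ) (hv : v < c.1) : Ru c (jw (colour c v : ZMod 2)) ((star c v).map some)

theorem Ru_mem {c : Code} {a b : List (Option (Edge c))} (h : Ru c a b) :
    (a.map (enc c), b.map (enc c)) ∈ RL c := by
  unfold RL
  simp only [List.mem_append]
  have hR1 : ∀ (i : Edge c) (r : Rule), r ∈ ([([0, i.1 + 1], [i.1 + 1, 0]),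
      ([i.1 + 1, 0], [0, i.1 + 1]), ([i.1 + 1, i.1 + 1], []), ([], [i.1 + 1, i.1 + 1])] :
        List Rule) → r ∈ R1 c := by
    intro i r hr
    unfold R1
    rw [List.mem_flatMap]
    exact ⟨i.1, List.mem_range.2 i.2, hr⟩
  have h1 : ∀ v, (jw (colour c v : ZMod 2) : List (Option (Edge c))).map (enc c) = colN c v := by
    intro v
    unfold colN colour
    split_ifs
    · rw [Nat.cast_one, jw_one]; rfl
    · rw [Nat.cast_zero, jw_zero]; rfl
  cases h with
  | jj => left; left; left; simp [enc]
  | ij => left; left; left; simp [enc]
  | jx e => left; left; right; exact hR1 e _ (by simp [enc])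
  | xj e => left; left; right; exact hR1 e _ (by simp [enc])
  | xx e => left; left; right; exact hR1 e _ (by simp [enc])
  | xi e => left; left; right; exact hR1 e _ (by simp [enc])
  | cm v a b ha hb =>
    left; right
    unfold R2
    rw [List.mem_flatMap]
    refine ⟨a.1, List.mem_range.2 a.2, ?_⟩
    rw [List.mem_flatMap]
    refine ⟨b.1, List.mem_range.2 b.2, ?_⟩
    rw [if_pos ((shr_iff c a b).2 ⟨v, ha, hb⟩)]
    simp [enc]
  | st v hv =>
    right
    unfold R3
    rw [List.mem_flatMap]
    refine ⟨v, List.mem_range.2 hv, ?_⟩
    rw [h1, starN_eq]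
    simp
  | ts v hv =>
    right
    unfold R3
    rw [List.mem_flatMap]
    refine ⟨v, List.mem_range.2 hv, ?_⟩
    rw [h1, starN_eq]
    simp

theorem Ru_reach {c : Code} {N : ℕ} {s t : List (Option (Edge c))} (h : GR (Ru c) N s t) :
    Relation.ReflTransGen (BStep (RL c) N) (s.map (enc c)) (t.map (enc c)) := by
  induction h with
  | refl => exact Relation.ReflTransGen.refl
  | tail _ h2 ih =>
    obtain ⟨l, r, a, b, h3, h4, h5, h6⟩ := h2
    refine ih.tail ⟨⟨l.map (enc c), r.map (enc c), a.map (enc c), b.map (enc c),
      Ru_mem h3, ?_, ?_⟩, ?_⟩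
    · rw [h4]; simp
    · rw [h5]; simp
    · simpa using h6

variable {c : Code}

theorem jl (N : ℕ) (k : ZMod 2) (l : List (Edge c)) (hN : 1 + l.length ≤ N) :
    GR (Ru c) N (jw k ++ l.map some) (l.map some ++ jw k) := by
  rcases zmod2_cases k with rfl | rfl
  · rw [jw_zero, List.append_nil]
    exact Relation.ReflTransGen.refl
  · rw [jw_one]
    induction l generalizing N with
    | nil => exact Relation.ReflTransGen.refl
    | cons e l ih =>
      simp only [List.length_cons] at hN
      have h1 := GR.rule (N := N) (Ru.jx e) [] (l.map some) (by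
        simp only [List.length_nil, List.length_cons, List.length_map]; omega)
      have h2 := (ih (1 + l.length) le_rfl).ctx [some e] [] (N' := N) (by
        simp only [List.length_nil, List.length_cons]; omega)
      refine Relation.ReflTransGen.trans (b := some e :: none :: l.map some) ?_ ?_
      · simpa using h1
      · simpa using h2

theorem lj (N : ℕ) (k : ZMod 2) (l : List (Edge c)) (hN : 1 + l.length ≤ N) :
    GR (Ru c) N (l.map some ++ jw k) (jw k ++ l.map some) := by
  rcases zmod2_cases k with rfl | rfl
  · rw [jw_zero, List.append_nil]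
    exact Relation.ReflTransGen.refl
  · rw [jw_one]
    induction l generalizing N with
    | nil => exact Relation.ReflTransGen.refl
    | cons e l ih =>
      simp only [List.length_cons] at hN
      have h1 := GR.rule (N := N) (Ru.xj e) [] (l.map some) (by
        simp only [List.length_nil, List.length_cons, List.length_map]; omega)
      have h2 := (ih (1 + l.length) le_rfl).ctx [some e] [] (N' := N) (by
        simp only [List.length_nil, List.length_cons]; omega)
      refine Relation.ReflTransGen.trans (b := some e :: none :: l.map some) ?_ ?_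
      · simpa using h2
      · simpa using h1

theorem jadd (N : ℕ) (k k' : ZMod 2) (hN : 2 ≤ N) :
    GR (Ru c) N (jw k ++ jw k') (jw (k + k')) := by
  rcases zmod2_cases k with rfl | rfl
  · rw [jw_zero, zero_add]
    exact Relation.ReflTransGen.refl
  · rcases zmod2_cases k' with rfl | rfl
    · rw [jw_zero, add_zero, List.append_nil]
    · have h := GR.rule (N := N) (Ru.jj (c := c)) [] [] (by simp)
      have h2 : (1 : ZMod 2) + 1 = 0 := rfl
      rw [h2, jw_zero, jw_one]
      simpa using h

theorem jsub (N : ℕ) (k k' : ZMod 2) (hN : 2 ≤ N) :
    GR (Ru c) N (jw k) (jw (k + k') ++ jw k') := by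
  rcases zmod2_cases k' with rfl | rfl
  · rw [jw_zero, add_zero, List.append_nil]
  · rcases zmod2_cases k with rfl | rfl
    · have h := GR.rule (N := N) (Ru.ij (c := c)) [] [] (by simp; omega)
      rw [zero_add, jw_zero, jw_one]
      simpa using h
    · have h2 : (1 : ZMod 2) + 1 = 0 := rfl
      rw [h2, jw_zero, jw_one]
      exact Relation.ReflTransGen.refl

/-- bounded derivations in any context, up to a power of `J` -/
def D (c : Code) (N : ℕ) (k : ZMod 2) (s t : List (Edge c)) : Prop :=
  ∀ (j : ZMod 2) (l r : List (Edge c)), GR (Ru c) (N + l.length + r.length + 2)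
    (jw j ++ (l ++ s ++ r).map some) (jw (j + k) ++ (l ++ t ++ r).map some)

theorem D.refl (N : ℕ) (s : List (Edge c)) : D c N 0 s s := by
  intro j l r
  rw [add_zero]

theorem D.trans {N : ℕ} {k k' : ZMod 2} {s t r : List (Edge c)} (h : D c N k s t)
    (h' : D c N k' t r) : D c N (k + k') s r := by
  intro j a b
  have h1 := h j a b
  have h2 := h' (j + k) a b
  rw [add_assoc j k k'] at h2
  exact h1.trans h2

theorem D.mono {N N' : ℕ} (hN : N ≤ N') {k : ZMod 2} {s t : List (Edge c)} (h : D c N k s t) :
    D c N' k s t := fun j l r => (h j l r).mono (by omega)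

theorem D.ctx {N N' : ℕ} {k : ZMod 2} {s t : List (Edge c)} (h : D c N k s t)
    (l r : List (Edge c)) (hN : N + l.length + r.length ≤ N') :
    D c N' k (l ++ s ++ r) (l ++ t ++ r) := by
  intro j a b
  have h1 := (h j (a ++ l) (r ++ b)).mono (N' := N' + a.length + b.length + 2) (by
    simp only [List.length_append]; omega)
  have e1 : ∀ x : List (Edge c), a ++ (l ++ x ++ r) ++ b = a ++ l ++ x ++ (r ++ b) := by
    intro x
    simp only [List.append_assoc]
  rw [e1, e1]
  exact h1

/-- derivations from rules which do not involve `J` -/
theorem D.of_rule {N : ℕ} {s t : List (Edge c)} (h : Ru c (s.map some) (t.map some))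
    (hN : t.length ≤ N) : D c N 0 s t := by
  intro j l r
  rw [add_zero]
  have h1 := GR.rule (N := N + l.length + r.length + 2) h (jw j ++ l.map some) (r.map some) (by
    have := jw_len (E := Edge c) j
    simp only [List.length_append, List.length_map]
    omega)
  simpa using h1

theorem D.cm {v : ℕ} {a b : Edge c} (ha : Inc c v a) (hb : Inc c v b) : D c 2 0 [a, b] [b, a] :=
  D.of_rule (Ru.cm v a b ha hb) (by simp)

theorem D.xx (e : Edge c) : D c 2 0 [e, e] [] := D.of_rule (Ru.xx e) (by simp)

theorem D.xi (e : Edge c) : D c 2 0 [] [e, e] := D.of_rule (Ru.xi e) (by simp)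

theorem D.st {v : ℕ} (hv : v < c.1) : D c (star c v).length (colour c v : ZMod 2) (star c v) [] := by
  intro j l r
  set k : ZMod 2 := (colour c v : ZMod 2) with hk
  have hj := jw_len (E := Edge c) j
  have hkl := jw_len (E := Edge c) k
  have h1 := GR.rule (N := (star c v).length + l.length + r.length + 2) (Ru.st v hv)
    (jw j ++ l.map some) (r.map some) (by
    simp only [List.length_append, List.length_map]
    rw [← hk]
    omega)
  rw [← hk] at h1
  have h2 := (lj (1 + l.length) k l le_rfl).ctx (jw j) (r.map some)
    (N' := (star c v).length + l.length + r.length + 2) (by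
    simp only [List.length_map]; omega)
  have h3 := (jadd (c := c) 2 j k le_rfl).ctx [] ((l ++ r).map some)
    (N' := (star c v).length + l.length + r.length + 2) (by
    simp only [List.length_map, List.length_append, List.length_nil]; omega)
  refine Relation.ReflTransGen.trans (b := jw j ++ (l.map some ++ jw k) ++ r.map some) ?_ ?_
  · simpa using h1
  · refine Relation.ReflTransGen.trans (b := jw j ++ (jw k ++ l.map some) ++ r.map some) h2 ?_
    simpa using h3

theorem D.ts {v : ℕ} (hv : v < c.1) : D c (star c v).length (colour c v : ZMod 2) [] (star c v) := by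
  intro j l r
  set k : ZMod 2 := (colour c v : ZMod 2) with hk
  have hj := jw_len (E := Edge c) j
  have hjk := jw_len (E := Edge c) (j + k)
  have hkl := jw_len (E := Edge c) k
  have h1 := GR.rule (N := (star c v).length + l.length + r.length + 2) (Ru.ts v hv)
    (jw (j + k) ++ l.map some) (r.map some) (by
    simp only [List.length_append, List.length_map]
    omega)
  rw [← hk] at h1
  have h2 := (jl (1 + l.length) k l le_rfl).ctx (jw (j + k)) (r.map some)
    (N' := (star c v).length + l.length + r.length + 2) (by
    simp only [List.length_map]; omega)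
  have h3 := (jsub (c := c) 2 j k le_rfl).ctx [] ((l ++ r).map some)
    (N' := (star c v).length + l.length + r.length + 2) (by
    simp only [List.length_map, List.length_append, List.length_nil]; omega)
  refine Relation.ReflTransGen.trans (b := jw (j + k) ++ (jw k ++ l.map some) ++ r.map some) ?_ ?_
  · simpa using h3
  · refine Relation.ReflTransGen.trans (b := jw (j + k) ++ (l.map some ++ jw k) ++ r.map some)
      h2 ?_
    simpa using h1

theorem D.perm {v : ℕ} {m m' : List (Edge c)} (h : m.Perm m') (hm : ∀ e ∈ m, Inc c v e) :
    D c m.length 0 m m' := by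
  induction h with
  | nil => exact D.refl _ _
  | @cons a l l' h ih =>
    have h1 := (ih (fun e he => hm e (List.mem_cons_of_mem _ he))).ctx [a] []
      (N' := (a :: l).length) (by simp)
    simpa using h1
  | swap a b l =>
    have h1 := (D.cm (hm b (by simp)) (hm a (by simp))).ctx [] l
      (N' := (b :: a :: l).length) (by simp; omega)
    simpa using h1
  | @trans l l' l'' h1 h2 ih1 ih2 =>
    have h3 := ih2 (fun e he => hm e (h1.mem_iff.2 he))
    rw [← h1.length_eq] at h3
    have h4 := (ih1 hm).trans h3
    rwa [add_zero] at h4

/-- the edges occurring an odd number of times -/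
def pr (c : Code) (v : ℕ) (m : List (Edge c)) : List (Edge c) :=
  (star c v).filter fun e => m.count e % 2 = 1

theorem mem_pr {v : ℕ} {m : List (Edge c)} {e : Edge c} :
    e ∈ pr c v m ↔ Inc c v e ∧ m.count e % 2 = 1 := by
  unfold pr
  rw [List.mem_filter, mem_star]
  simp

theorem pr_nodup (v : ℕ) (m : List (Edge c)) : (pr c v m).Nodup := (star_nodup c v).filter _

theorem D.pr {v : ℕ} (m : List (Edge c)) (hm : ∀ e ∈ m, Inc c v e) :
    D c m.length 0 m (pr c v m) := by
  induction m with
  | nil =>
    have : Helper2GI.pr c v [] = [] := by
      unfold Helper2GI.pr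
      simp
    rw [this]
    exact D.refl _ _
  | cons a m ih =>
    have ih' := (ih (fun e he => hm e (List.mem_cons_of_mem _ he))).ctx [a] []
      (N' := (a :: m).length) (by simp)
    simp only [List.append_nil, List.cons_append, List.nil_append] at ih'
    have ha : Inc c v a := hm a (by simp)
    have hle : (a :: Helper2GI.pr c v m).length ≤ (a :: m).length := by
      simp only [List.length_cons]
      have h1 : (Helper2GI.pr c v m).Subperm m := by
        refine (pr_nodup v m).subperm ?_
        intro e he
        rw [mem_pr] at he
        by_contra h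
        have := List.count_eq_zero_of_not_mem h
        omega
      have := h1.length_le
      omega
    have hcnt : ∀ e, (a :: m).count e = m.count e + if a = e then 1 else 0 := by
      intro e
      rw [List.count_cons]
      simp [beq_iff_eq]
    by_cases hap : a ∈ Helper2GI.pr c v m
    · -- the letter cancels
      obtain ⟨m1, hm1⟩ : ∃ m1, (Helper2GI.pr c v m).Perm (a :: m1) :=
        ⟨_, List.perm_cons_erase hap⟩
      have hnd : (a :: m1).Nodup := hm1.nodup_iff.1 (pr_nodup v m)
      have h1 := (D.perm (v := v) hm1 (fun e he => (mem_pr.1 he).1)).ctx [a] []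
        (N' := (a :: m).length) (by
        simp only [List.length_cons, List.length_nil] at hle ⊢; omega)
      simp only [List.append_nil, List.cons_append, List.nil_append] at h1
      have hlen : (Helper2GI.pr c v m).length = m1.length + 1 := by
        rw [hm1.length_eq, List.length_cons]
      have h2 := (D.xx a).ctx [] m1 (N' := (a :: m).length) (by
        simp only [List.length_cons, List.length_nil] at hle ⊢
        omega)
      simp only [List.cons_append, List.nil_append] at h2
      have h3 : m1.Perm (Helper2GI.pr c v (a :: m)) := by
        refine (List.perm_ext_iff_of_nodup (List.nodup_cons.1 hnd).2 (pr_nodup v _)).2 ?_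
        intro e
        rw [mem_pr, hcnt]
        have h4 : e ∈ Helper2GI.pr c v m ↔ e = a ∨ e ∈ m1 := by
          rw [hm1.mem_iff, List.mem_cons]
        rw [mem_pr] at h4
        by_cases hea : a = e
        · subst hea
          rw [if_pos rfl]
          have h5 : a ∉ m1 := (List.nodup_cons.1 hnd).1
          have h6 := (mem_pr.1 hap).2
          constructor
          · intro h; exact absurd h h5
          · rintro ⟨_, h⟩
            omega
        · rw [if_neg hea, add_zero, h4]
          constructor
          · exact Or.inr
          · rintro (h | h)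
            · exact absurd h.symm hea
            · exact h
      have h5 := (D.perm (v := v) h3 (fun e he => by
        have h6 : e ∈ Helper2GI.pr c v m := hm1.mem_iff.2 (List.mem_cons_of_mem _ he)
        exact (mem_pr.1 h6).1)).mono (N' := (a :: m).length) (by
        simp only [List.length_cons] at hle ⊢; omega)
      have h7 := ((ih'.trans h1).trans h2).trans h5
      simpa using h7
    · have h3 : (a :: Helper2GI.pr c v m).Perm (Helper2GI.pr c v (a :: m)) := by
        refine (List.perm_ext_iff_of_nodup (List.nodup_cons.2 ⟨hap, pr_nodup v m⟩)
          (pr_nodup v _)).2 ?_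
        intro e
        rw [mem_pr, hcnt, List.mem_cons, mem_pr]
        by_cases hea : a = e
        · subst hea
          rw [if_pos rfl]
          rw [mem_pr] at hap
          have h6 : ¬ m.count a % 2 = 1 := fun h => hap ⟨ha, h⟩
          constructor
          · intro _
            exact ⟨ha, by omega⟩
          · intro _
            exact Or.inl rfl
        · rw [if_neg hea, add_zero]
          constructor
          · rintro (h | h)
            · exact absurd h.symm hea
            · exact h
          · exact Or.inr
      have h5 := (D.perm (v := v) h3 (fun e he => by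
        rcases List.mem_cons.1 he with h | h
        · rw [h]; exact ha
        · exact (mem_pr.1 h).1)).mono (N' := (a :: m).length) hle
      have h7 := ih'.trans h5
      rwa [add_zero] at h7

end Pool.Agent.Helper2GI
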