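import Mathlib

/-!
Groups glued along involutions in the pattern of a graph without triangles, where at some vertices
three of the involutions may have product one: words and flips.
-/

set_option autoImplicit false

namespace Pool.Agent.Helper2GI

/-- Local groups glued along involutions `x u v = x v u` (up to a sign `τ u v`) for the edges of a
graph without triangles.  A vertex is light if three of its involutions have product one; short
cycles contain no or few light vertices. -/
structure Mix (V B : Type) [Group B] where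
  adj : V → V → Prop
  x : V → V → B
  τ : V → V → ZMod 2
  symm : ∀ {u v}, adj u v → adj v u
  irr : ∀ v, ¬ adj v v
  tri : ∀ {u v w}, adj u v → adj v w → adj u w → False
  τs : ∀ u v, τ u v = τ v u
  sq : ∀ {u v}, adj u v → x u v * x u v = 1
  ne : ∀ {u v}, adj u v → x u v ≠ 1
  inj : ∀ {u v w}, adj u v → adj u w → x u v = x u w → v = w
  c4 : ∀ {v a b c}, adj v a → adj a b → adj b c → adj c v → v ≠ b → a ≠ c →
    (∃ u w z, adj v u ∧ adj v w ∧ adj v z ∧ x v u * x v w = x v z) → False
  c5 : ∀ {a b c d e}, adj a b → adj b c → adj c d → adj d e → adj e a →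
    (∃ u w z, adj a u ∧ adj a w ∧ adj a z ∧ x a u * x a w = x a z) →
    (∃ u w z, adj c u ∧ adj c w ∧ adj c z ∧ x c u * x c w = x c z) → False

namespace Mix

variable {V B : Type} [Group B] (S : Mix V B)

/-- flips of chamber words, with sign -/
inductive Fl : ZMod 2 → List (V × B) → List (V × B) → Prop
  | swap {u v : V} (h : S.adj u v) (L : List (V × B)) :
      Fl (S.τ u v) ((u, S.x u v) :: L) ((v, S.x v u) :: L)
  | slide {u v : V} (h : S.adj u v) (a b : B) (L : List (V × B)) :
      Fl (S.τ u v) ((u, a) :: (v, b) :: L) ((u, a * S.x u v) :: (v, S.x v u * b) :: L)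
  | cons (s : V × B) {k : ZMod 2} {L L' : List (V × B)} (h : Fl k L L') :
      Fl k (s :: L) (s :: L')

/-- equivalence of chamber words, with sign -/
inductive E : ZMod 2 → List (V × B) → List (V × B) → Prop
  | refl (L : List (V × B)) : E 0 L L
  | tail {k k' : ZMod 2} {L L' L'' : List (V × B)} (h : E k L L') (h' : S.Fl k' L' L'') :
      E (k + k') L L''

/-- flips of coset words, with sign -/
inductive FlV (v : V) : ZMod 2 → B × List (V × B) → B × List (V × B) → Prop
  | slide {w : V} (h : S.adj v w) (a b : B) (L : List (V × B)) :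
      FlV v (S.τ v w) (a, (w, b) :: L) (a * S.x v w, (w, S.x w v * b) :: L)
  | tail (a : B) {k : ZMod 2} {L L' : List (V × B)} (h : S.Fl k L L') : FlV v k (a, L) (a, L')

/-- equivalence of coset words, with sign -/
inductive EV (v : V) : ZMod 2 → B × List (V × B) → B × List (V × B) → Prop
  | refl (p : B × List (V × B)) : EV v 0 p p
  | tail {k k' : ZMod 2} {p q r : B × List (V × B)} (h : EV v k p q) (h' : S.FlV v k' q r) :
      EV v (k + k') p r

variable {S}

theorem two (k : ZMod 2) : k + k = 0 := by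
  revert k
  decide

theorem Fl.symm {k : ZMod 2} {L L' : List (V × B)} (h : S.Fl k L L') : S.Fl k L' L := by
  induction h with
  | @swap u v h L =>
    rw [S.τs]
    exact Fl.swap (S.symm h) L
  | @slide u v h a b L =>
    have h1 := Fl.slide (S := S) h (a * S.x u v) (S.x v u * b) L
    rw [mul_assoc, S.sq h, mul_one, ← mul_assoc, S.sq (S.symm h), one_mul] at h1
    exact h1
  | cons s _ ih => exact Fl.cons s ih

theorem FlV.symm {v : V} {k : ZMod 2} {p q : B × List (V × B)} (h : S.FlV v k p q) :
    S.FlV v k q p := by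
  cases h with
  | @slide w h a b L =>
    have h1 := FlV.slide (S := S) h (a * S.x v w) (S.x w v * b) L
    rw [mul_assoc, S.sq h, mul_one, ← mul_assoc, S.sq (S.symm h), one_mul] at h1
    exact h1
  | tail a h => exact FlV.tail a h.symm

theorem Fl.length {k : ZMod 2} {L L' : List (V × B)} (h : S.Fl k L L') :
    L.length = L'.length := by
  induction h with
  | swap h L => simp
  | slide h a b L => simp
  | cons s _ ih => simp [ih]

theorem E.length {k : ZMod 2} {L L' : List (V × B)} (h : S.E k L L') :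
    L.length = L'.length := by
  induction h with
  | refl L => rfl
  | tail _ h2 ih => rw [ih, h2.length]

theorem FlV.length {v : V} {k : ZMod 2} {p q : B × List (V × B)} (h : S.FlV v k p q) :
    p.2.length = q.2.length := by
  cases h with
  | slide h a b L => simp
  | tail a h => exact h.length

theorem EV.length {v : V} {k : ZMod 2} {p q : B × List (V × B)} (h : S.EV v k p q) :
    p.2.length = q.2.length := by
  induction h with
  | refl p => rfl
  | tail _ h2 ih => rw [ih, h2.length]

theorem E.of {k : ZMod 2} {L L' : List (V × B)} (h : S.Fl k L L') : S.E k L L' := by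
  have := E.tail (E.refl L) h
  rwa [zero_add] at this

theorem EV.of {v : V} {k : ZMod 2} {p q : B × List (V × B)} (h : S.FlV v k p q) :
    S.EV v k p q := by
  have := EV.tail (EV.refl p) h
  rwa [zero_add] at this

theorem E.trans {k k' : ZMod 2} {L L' L'' : List (V × B)} (h : S.E k L L') (h' : S.E k' L' L'') :
    S.E (k + k') L L'' := by
  induction h' with
  | refl _ => rwa [add_zero]
  | tail _ h2 ih => rw [← add_assoc]; exact E.tail (ih h) h2

theorem EV.trans {v : V} {k k' : ZMod 2} {p q r : B × List (V × B)} (h : S.EV v k p q)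
    (h' : S.EV v k' q r) : S.EV v (k + k') p r := by
  induction h' with
  | refl _ => rwa [add_zero]
  | tail _ h2 ih => rw [← add_assoc]; exact EV.tail (ih h) h2

theorem E.symm {k : ZMod 2} {L L' : List (V × B)} (h : S.E k L L') : S.E k L' L := by
  induction h with
  | refl L => exact E.refl L
  | tail _ h2 ih => rw [add_comm]; exact (E.of h2.symm).trans ih

theorem EV.symm {v : V} {k : ZMod 2} {p q : B × List (V × B)} (h : S.EV v k p q) :
    S.EV v k q p := by
  induction h with
  | refl p => exact EV.refl p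
  | tail _ h2 ih => rw [add_comm]; exact (EV.of h2.symm).trans ih

theorem E.cons (s : V × B) {k : ZMod 2} {L L' : List (V × B)} (h : S.E k L L') :
    S.E k (s :: L) (s :: L') := by
  induction h with
  | refl L => exact E.refl _
  | tail _ h2 ih => exact E.tail ih (Fl.cons s h2)

theorem EV.lift {v : V} (a : B) {k : ZMod 2} {L L' : List (V × B)} (h : S.E k L L') :
    S.EV v k (a, L) (a, L') := by
  induction h with
  | refl L => exact EV.refl _
  | tail _ h2 ih => exact EV.tail ih (FlV.tail a h2)

theorem EV.toE {v : V} {k : ZMod 2} {p q : B × List (V × B)} (h : S.EV v k p q) :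
    S.E k ((v, p.1) :: p.2) ((v, q.1) :: q.2) := by
  induction h with
  | refl p => exact E.refl _
  | tail _ h2 ih =>
    refine E.tail ih ?_
    cases h2 with
    | slide h a b L => exact Fl.slide h a b L
    | tail a h => exact Fl.cons _ h

theorem EV.mul {v : V} {k : ZMod 2} {p q : B × List (V × B)} (c : B) (h : S.EV v k p q) :
    S.EV v k (c * p.1, p.2) (c * q.1, q.2) := by
  induction h with
  | refl p => exact EV.refl _
  | tail _ h2 ih =>
    refine EV.tail ih ?_
    cases h2 with
    | slide h a b L =>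
      simp only
      rw [← mul_assoc]
      exact FlV.slide h (c * a) b L
    | tail a h => exact FlV.tail _ h

theorem E.nil' {k : ZMod 2} {M L : List (V × B)} (h : S.E k M L) : M = [] → L = [] ∧ k = 0 := by
  induction h with
  | refl L => exact fun h => ⟨h, rfl⟩
  | tail h1 h2 ih =>
    intro hM
    obtain ⟨h3, _⟩ := ih hM
    subst h3
    cases h2

theorem E.nil {k : ZMod 2} {L : List (V × B)} (h : S.E k [] L) : L = [] ∧ k = 0 := h.nil' rfl

variable (S)

/-- three of the involutions at `v` have product one -/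
def Light (v : V) : Prop :=
  ∃ u w z, S.adj v u ∧ S.adj v w ∧ S.adj v z ∧ S.x v u * S.x v w = S.x v z

/-- words with an obvious reduction -/
inductive Bad : List (V × B) → Prop
  | one (v : V) (L : List (V × B)) : Bad ((v, 1) :: L)
  | two (v : V) (a b : B) (L : List (V × B)) : Bad ((v, a) :: (v, b) :: L)
  | cons (s : V × B) {L : List (V × B)} (h : Bad L) : Bad (s :: L)

/-- reduced chamber words -/
def Red (L : List (V × B)) : Prop := ∀ k L', S.E k L L' → ¬ Bad L'

/-- reduced coset words -/
def RedV (v : V) (p : B × List (V × B)) : Prop :=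
  ∀ k q, S.EV v k p q → ¬ Bad q.2 ∧ ∀ c Q, q.2 ≠ (v, c) :: Q

variable {S}

theorem Red.congr {k : ZMod 2} {L L' : List (V × B)} (h : S.Red L) (e : S.E k L L') : S.Red L' :=
  fun _ _ h' => h _ _ (e.trans h')

theorem RedV.congr {v : V} {k : ZMod 2} {p q : B × List (V × B)} (h : S.RedV v p)
    (e : S.EV v k p q) : S.RedV v q := fun _ _ h' => h _ _ (e.trans h')

theorem red_nil : S.Red [] := by
  intro k L h hb
  rw [h.nil.1] at hb
  cases hb

theorem Red.toV {v : V} {a : B} {P : List (V × B)} (h : S.Red ((v, a) :: P)) :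
    S.RedV v (a, P) := by
  intro k q e
  refine ⟨fun hb => h _ _ e.toE (Bad.cons _ hb), ?_⟩
  intro c Q hq
  refine h _ _ e.toE ?_
  rw [hq]
  exact Bad.two v q.1 c Q

theorem RedV.mul {v : V} {p : B × List (V × B)} (c : B) (h : S.RedV v p) :
    S.RedV v (c * p.1, p.2) := by
  intro k q e
  have h1 := e.mul c⁻¹
  simp only [inv_mul_cancel_left] at h1
  exact h k (c⁻¹ * q.1, q.2) h1

theorem RedV.mul_iff {v : V} (c a : B) (P : List (V × B)) :
    S.RedV v (c * a, P) ↔ S.RedV v (a, P) := by
  constructor
  · intro h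
    have := h.mul c⁻¹
    simpa using this
  · exact fun h => h.mul c

theorem RedV.red {v : V} {a : B} {P : List (V × B)} (h : S.RedV v (a, P)) : S.Red P :=
  fun _ _ e => (h _ _ (EV.lift a e)).1

theorem Red.tail {s : V × B} {P : List (V × B)} (h : S.Red (s :: P)) : S.Red P :=
  fun _ _ e hb => h _ _ (e.cons s) (Bad.cons s hb)

variable (S)

/-- an equivalent word starts at `v` -/
def HasHead (v : V) (P : List (V × B)) : Prop := ∃ k c R, S.E k P ((v, c) :: R)

/-- the coset word is equivalent to one with trivial entry -/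
def HasOne (v : V) (p : B × List (V × B)) : Prop := ∃ k Q', S.EV v k p (1, Q')

/-- conclusion of the exchange lemma for chamber words -/
def KC (k : ZMod 2) (s : V × B) (P : List (V × B)) (t : V × B) (Q : List (V × B)) : Prop :=
  (s.1 = t.1 ∧ S.EV s.1 k (s.2, P) (t.2, Q)) ∨
  (S.adj s.1 t.1 ∧ ∃ R k1 k2, k = k1 + S.τ s.1 t.1 + k2 ∧
    S.EV s.1 k1 (s.2, P) (S.x s.1 t.1, R) ∧ S.EV t.1 k2 (S.x t.1 s.1, R) (t.2, Q)) ∨
  (∃ w z, S.adj w s.1 ∧ S.adj w t.1 ∧ S.adj w z ∧ S.x w s.1 * S.x w z = S.x w t.1 ∧
    s.2 = S.x s.1 w ∧ t.2 = S.x t.1 w ∧ ∃ d R k1 k2,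
    k = S.τ s.1 w + k1 + S.τ w z + k2 + S.τ w t.1 ∧
    S.E k1 P ((z, d) :: R) ∧ S.E k2 ((z, S.x z w * d) :: R) Q)

/-- conclusion of the exchange lemma for coset words -/
def KV (v : V) (k : ZMod 2) (p q : B × List (V × B)) : Prop :=
  (p.1 = q.1 ∧ S.E k p.2 q.2) ∨
  (∃ w, S.adj v w ∧ q.1 = p.1 * S.x v w ∧ ∃ d R k1 k2, k = k1 + S.τ v w + k2 ∧
    S.E k1 p.2 ((w, d) :: R) ∧ S.E k2 ((w, S.x w v * d) :: R) q.2)

/-- exchange lemma for chamber words of length `n + 1` -/
def PKC (n : ℕ) : Prop := ∀ (k : ZMod 2) (s : V × B) (P : List (V × B)) (t : V × B)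
  (Q : List (V × B)), P.length = n → S.RedV s.1 (s.2, P) → S.E k (s :: P) (t :: Q) →
  S.KC k s P t Q ∨ S.HasOne s.1 (s.2, P)

/-- exchange lemma for coset words of length `n` -/
def PKV (n : ℕ) : Prop := ∀ (v : V) (k : ZMod 2) (p q : B × List (V × B)), p.2.length = n →
  S.Red p.2 → S.EV v k p q → S.KV v k p q ∨ S.HasHead v p.2

/-- coset words which do not give reduced words -/
def PS (n : ℕ) : Prop := ∀ (v : V) (b : B) (Q : List (V × B)), Q.length = n → S.RedV v (b, Q) →
  ¬ S.Red ((v, b) :: Q) → S.HasOne v (b, Q)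

variable {S}

theorem HasOne.not_red {v : V} {a : B} {P : List (V × B)} (h : S.HasOne v (a, P)) :
    ¬ S.Red ((v, a) :: P) := by
  obtain ⟨k, Q, h1⟩ := h
  exact fun hr => hr _ _ h1.toE (Bad.one v Q)

theorem HasHead.not_redV {v : V} {a : B} {P : List (V × B)} (h : S.HasHead v P) :
    ¬ S.RedV v (a, P) := by
  obtain ⟨k, c, R, h1⟩ := h
  exact fun hr => (hr _ _ (EV.lift a h1)).2 c R rfl

theorem kc_of {n : ℕ} (H : S.PKC n) {k : ZMod 2} {s t : V × B} {P Q : List (V × B)}
    (hn : P.length = n) (hr : S.Red (s :: P)) (e : S.E k (s :: P) (t :: Q)) : S.KC k s P t Q := by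
  obtain ⟨v, a⟩ := s
  rcases H k (v, a) P t Q hn hr.toV e with h | h
  · exact h
  · exact absurd hr h.not_red

/-- moving a common involution from `z` to its neighbour `w` -/
theorem one_flip {z w : V} (h : S.adj z w) {d : B} {R P : List (V × B)} {k1 : ZMod 2}
    (e : S.E k1 P ((z, d) :: R)) (ho : S.HasOne z (S.x z w * d, R)) : ∃ k2 Q',
    S.E k2 P ((w, S.x w z) :: Q') := by
  obtain ⟨k3, Q', h3⟩ := ho
  have h5 := (h3.mul (S.x z w)).toE
  simp only at h5
  rw [← mul_assoc, S.sq h, one_mul, mul_one] at h5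
  exact ⟨_, Q', (e.trans h5).trans (E.of (Fl.swap h Q'))⟩

/-- a word starting with the involution cannot be reduced -/
theorem no_inv {z w : V} (h : S.adj z w) {d : B} {R R' : List (V × B)} {k1 : ZMod 2}
    (hr : S.Red ((z, d) :: R)) (e : S.EV z k1 (S.x z w * d, R) (S.x z w, R')) : False := by
  have h1 := (e.mul (S.x z w)).toE
  simp only at h1
  rw [← mul_assoc, S.sq h, one_mul] at h1
  exact hr _ _ h1 (Bad.one z R')

theorem head_one {v w : V} (h : S.adj v w) {k1 k2 : ZMod 2} {p : B × List (V × B)}
    {P Q' : List (V × B)} {c : B} (e1 : S.EV v k1 p (S.x v w, P)) (e : S.E k2 P ((w, c) :: Q')) :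
    S.HasOne v p := by
  have h1 := (e1.trans (EV.lift (S.x v w) e)).trans (EV.of (FlV.slide h (S.x v w) c Q'))
  rw [S.sq h] at h1
  exact ⟨_, _, h1⟩

end Mix

end Pool.Agent.Helper2GI
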