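import Mathlib
import Pool.Agent.Helper2GI.Mix

/-!
The exchange lemmas.
-/

set_option autoImplicit false

namespace Pool.Agent.Helper2GI

namespace Mix

variable {V B : Type} [Group B] {S : Mix V B}

theorem ne_of_mul {v u w z : V} (hw : S.adj v w) (h : S.x v u * S.x v w = S.x v z) : u ≠ z := by
  rintro rfl
  exact S.ne hw (mul_eq_left.1 h)

theorem light_of {v u w z : V} (hu : S.adj v u) (hw : S.adj v w) (hz : S.adj v z)
    (h : S.x v u * S.x v w = S.x v z) : S.Light v := ⟨u, w, z, hu, hw, hz, h⟩

theorem c4' {v a b c : V} (h1 : S.adj v a) (h2 : S.adj a b) (h3 : S.adj b c) (h4 : S.adj c v)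
    (h5 : v ≠ b) (h6 : a ≠ c) (h : S.Light v) : False := S.c4 h1 h2 h3 h4 h5 h6 h

theorem c5' {a b c d e : V} (h1 : S.adj a b) (h2 : S.adj b c) (h3 : S.adj c d) (h4 : S.adj d e)
    (h5 : S.adj e a) (ha : S.Light a) (hc : S.Light c) : False := S.c5 h1 h2 h3 h4 h5 ha hc

theorem pkv (n : ℕ) (IC : ∀ m < n, S.PKC m) (IS : ∀ m < n, S.PS m) : S.PKV n := by
  intro v k p q hn hP h
  induction h with
  | refl p => exact Or.inl (Or.inl ⟨rfl, E.refl _⟩)
  | @tail k k' p q r h1 h2 ih =>
    rcases ih hn hP with ih' | ih'
    swap
    · exact Or.inr ih'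
    cases h2 with
    | tail c h3 =>
      left
      rcases ih' with ⟨h4, h5⟩ | ⟨w, hw, h4, d, R, k1, k2, h5, h6, h7⟩
      · exact Or.inl ⟨h4, E.tail h5 h3⟩
      · refine Or.inr ⟨w, hw, h4, d, R, k1, k2 + k', ?_, h6, E.tail h7 h3⟩
        rw [h5]; ring
    | @slide w' hw' c e L =>
      rcases ih' with ⟨h4, h5⟩ | ⟨w, hw, h4, d, R, k1, k2, h5, h6, h7⟩
      · simp only at h4 h5
        refine Or.inl (Or.inr ⟨w', hw', ?_, e, L, k, 0, ?_, h5, E.refl _⟩)
        · rw [h4]
        · ring
      · simp only at h4 h7
        have hlen : R.length < n := by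
          have := h6.length
          rw [hn] at this
          simp only [List.length_cons] at this
          omega
        have hwd : S.Red ((w, d) :: R) := hP.congr h6
        have hRV : S.RedV w (S.x w v * d, R) := (RedV.mul_iff _ _ _).2 hwd.toV
        by_cases hr : S.Red ((w, S.x w v * d) :: R)
        · left
          rcases kc_of (IC _ hlen) rfl hr h7 with ⟨h8, h9⟩ | ⟨h8, _⟩ |
            ⟨o, z, h8, h9, h10, h11, h12, h13, _⟩
          · simp only at h8 h9
            subst h8
            left
            refine ⟨?_, ?_⟩
            · simp only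
              rw [h4, mul_assoc, S.sq hw, mul_one]
            · have h10 := (h9.mul (S.x w v)).toE
              simp only at h10
              rw [← mul_assoc, S.sq (S.symm hw), one_mul] at h10
              have h11 := h6.trans h10
              have h12 : k + S.τ v w = k1 + k2 := by
                rw [h5]
                have := two (S.τ v w)
                linear_combination this
              rw [h12]
              exact h11
          · exact absurd h8 (fun h => S.tri hw h hw')
          · simp only at h8 h9 h11 h12 h13
            exfalso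
            by_cases hvo : v = o
            · subst hvo
              have hd : d = 1 := mul_eq_left.1 h12
              exact hwd _ _ (E.refl _) (hd ▸ Bad.one w R)
            · refine c4' h8 (S.symm hw) hw' (S.symm h9) (Ne.symm hvo) ?_
                (light_of h8 h10 h9 h11)
              exact ne_of_mul h10 h11
        · right
          obtain ⟨k2', Q', h8⟩ := one_flip (S.symm hw) h6 (IS _ hlen w _ R rfl hRV hr)
          exact ⟨_, _, _, h8⟩

theorem pkc (n : ℕ) (IC : ∀ m < n, S.PKC m) (IS : ∀ m < n, S.PS m) (IV : S.PKV n) :
    S.PKC n := by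
  intro k s P t Q hn hRV h
  generalize hM : s :: P = M at h
  generalize hW : t :: Q = W at h
  induction h generalizing t Q with
  | refl L =>
    subst hM
    rw [List.cons.injEq] at hW
    obtain ⟨rfl, rfl⟩ := hW
    exact Or.inl (Or.inl ⟨rfl, EV.refl _⟩)
  | @tail k k' L L' L'' h1 h2 ih =>
    subst hM
    subst hW
    have hPr : S.Red P := hRV.red
    cases h2 with
    | @cons _ _ S' _ h3 =>
      rcases ih _ _ rfl rfl with ih' | ih'
      swap
      · exact Or.inr ih'
      left
      rcases ih' with ⟨h4, h5⟩ | ⟨h4, R, k1, k2, h5, h6, h7⟩ |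
        ⟨w, z, a1, a2, a3, a4, a5, a6, d, R, k1, k2, a7, a8, a9⟩
      · exact Or.inl ⟨h4, EV.tail h5 (FlV.tail _ h3)⟩
      · refine Or.inr (Or.inl ⟨h4, R, k1, k2 + k', ?_, h6, EV.tail h7 (FlV.tail _ h3)⟩)
        rw [h5]; ring
      · refine Or.inr (Or.inr ⟨w, z, a1, a2, a3, a4, a5, a6, d, R, k1, k2 + k', ?_, a8,
          E.tail a9 h3⟩)
        rw [a7]; ring
    | @slide u w hw a b L =>
      rcases ih _ _ rfl rfl with ih' | ih'
      swap
      · exact Or.inr ih'
      rcases ih' with ⟨h4, h5⟩ | ⟨h4, R, k1, k2, h5, h6, h7⟩ |
        ⟨w0, z, a1, a2, a3, a4, a5, a6, d, R, k1, k2, a7, a8, a9⟩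
      · simp only at h4 h5
        left
        refine Or.inl ⟨h4, EV.tail h5 ?_⟩
        rw [h4]
        exact FlV.slide hw a b L
      · left
        refine Or.inr (Or.inl ⟨h4, R, k1, k2 + S.τ u w, ?_, h6,
          EV.tail h7 (FlV.slide hw a b L)⟩)
        rw [h5]; ring
      · simp only at a1 a2 a4 a5 a6 a7 a9
        have hlen : R.length < n := by
          have := a8.length
          rw [hn] at this
          simp only [List.length_cons] at this
          omega
        have hzd : S.Red ((z, d) :: R) := hPr.congr a8
        have hRz : S.RedV z (S.x z w0 * d, R) := (RedV.mul_iff _ _ _).2 hzd.toV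
        by_cases hr : S.Red ((z, S.x z w0 * d) :: R)
        · exfalso
          have hL0 := light_of a1 a3 a2 a4
          have hzu : z ≠ u := by
            rintro rfl
            exact S.ne a1 (mul_eq_right.1 a4)
          rcases kc_of (IC _ hlen) rfl hr a9 with ⟨b1, _⟩ | ⟨b1, R1, k3, k4, _, b2, _⟩ |
            ⟨o, z', b1, b2, b3, b4, b5, b6, _⟩
          · simp only at b1
            subst b1
            exact S.tri a3 (S.symm hw) a2
          · simp only at b1 b2
            by_cases hww : w = w0
            · subst hww
              exact no_inv b1 hzd b2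
            · exact c4' a3 b1 (S.symm hw) (S.symm a2) (Ne.symm hww) hzu hL0
          · simp only at b1 b2 b4
            exact c5' a3 (S.symm b1) b2 (S.symm hw) (S.symm a2) hL0 (light_of b1 b3 b2 b4)
        · right
          obtain ⟨k3, Q', h8⟩ := one_flip (S.symm a3) a8 (IS _ hlen z _ R rfl hRz hr)
          obtain ⟨v0, a0⟩ := s
          simp only at a5 a1
          subst a5
          exact head_one (S.symm a1) (EV.refl _) h8
    | @swap v' v hv L =>
      rcases ih _ _ rfl rfl with ih' | ih'
      swap
      · exact Or.inr ih'
      obtain ⟨u, a⟩ := s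
      rcases ih' with ⟨h4, h5⟩ | ⟨h4, R, k1, k2, h5, h6, h7⟩ |
        ⟨w0, z, a1, a2, a3, a4, a5, a6, d, R, k1, k2, a7, a8, a9⟩
      · simp only at h4 h5
        left; right; left
        subst h4
        exact ⟨hv, Q, k, 0, by ring, h5, EV.refl _⟩
      · simp only at h4 h5 h6 h7 hRV
        have hR : R.length = n := by
          have := h6.length
          simp only at this
          omega
        have hRr : S.Red R := (hRV.congr h6).red
        rcases IV v' k2 _ _ hR hRr h7 with h8 | h8
        swap
        · right
          obtain ⟨k3, c3, R3, h9⟩ := h8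
          exact head_one h4 h6 h9
        rcases h8 with ⟨h8, h9⟩ | ⟨w, hw, h8, d, R', k3, k4, h10, h9, h11⟩
        · simp only at h8 h9
          have huv := S.inj (S.symm h4) hv h8
          subst huv
          left; left
          refine ⟨rfl, ?_⟩
          have h10 := h6.trans (EV.lift (S.x u v') h9)
          have h12 : k + S.τ v' u = k1 + k2 := by
            rw [h5, S.τs v' u]
            have := two (S.τ u v')
            linear_combination this
          rw [h12]
          exact h10
        · simp only at h8 h9 h11
          have hL' : S.Light v' := light_of (S.symm h4) hw hv h8.symm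
          have huw : u ≠ w := by
            rintro rfl
            exact S.ne hv (by rw [h8, S.sq hw])
          rcases IV u k1 _ _ hn hPr h6 with c1 | c1
          swap
          · exact absurd hRV c1.not_redV
          rcases c1 with ⟨c1, c2⟩ | ⟨r, hr, c1, d', R'', k5, k6, _, c3, c4⟩
          · simp only at c1 c2
            left; right; right
            refine ⟨v', w, S.symm h4, hv, hw, h8.symm, c1, rfl, d, R', k1 + k3, k4, ?_,
              c2.trans h9, h11⟩
            rw [h5, h10]
            ring
          · simp only at c1 c3 c4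
            right
            by_cases hrv : r = v'
            · subst hrv
              have ha : a = 1 := right_eq_mul.1 c1
              subst ha
              exact ⟨_, _, EV.refl _⟩
            · exfalso
              have hlen : R''.length < n := by
                have := c3.length
                rw [hn] at this
                simp only [List.length_cons] at this
                omega
              have hrr : S.Red ((r, S.x r u * d') :: R'') := hRr.congr c4.symm
              rcases kc_of (IC _ hlen) rfl hrr (c4.trans h9) with ⟨b1, _⟩ | ⟨b1, _⟩ |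
                ⟨o, z', b1, b2, b3, b4, _⟩
              · simp only at b1
                subst b1
                exact S.tri hr (S.symm hw) h4
              · simp only at b1
                exact c4' (S.symm h4) hr b1 (S.symm hw) (Ne.symm hrv) huw hL'
              · simp only at b1 b2 b4
                exact c5' hw (S.symm b2) b1 (S.symm hr) h4 hL' (light_of b1 b3 b2 b4)
      · simp only at a1 a2 a4 a5 a6 a7 a9
        have hvw : v = w0 := S.inj hv (S.symm a2) a6
        subst hvw
        left; right; left
        refine ⟨S.symm a1, P, 0, k1 + S.τ v z + k2, ?_, ?_, ?_⟩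
        · simp only
          rw [a7, S.τs v v']
          have := two (S.τ v' v)
          linear_combination this
        · simp only
          rw [a5]
          exact EV.refl _
        · simp only
          have h1 := ((EV.lift (v := v) (S.x v u) a8).trans
            (EV.of (FlV.slide a3 (S.x v u) d R))).trans (EV.lift _ a9)
          rw [a4] at h1
          exact h1

theorem pss (n : ℕ) (IC : ∀ m < n, S.PKC m) (IS : ∀ m < n, S.PS m) (IV : S.PKV n)
    (IK : S.PKC n) : S.PS n := by
  intro v b Q hn hV hr
  have hQr : S.Red Q := hV.red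
  unfold Red at hr
  push Not at hr
  obtain ⟨k, L', e, hb⟩ := hr
  cases L' with
  | nil => cases hb
  | cons t Q'' =>
    obtain ⟨w, c⟩ := t
    rcases IK _ _ _ _ _ hn hV e with h0 | h0
    swap
    · exact h0
    rcases h0 with ⟨h1, h2⟩ | ⟨h1, R, k1, k2, _, h2, h3⟩ |
      ⟨w0, z, a1, a2, a3, a4, a5, a6, d, R, k1, k2, a7, a8, a9⟩
    · simp only at h1 h2
      subst h1
      cases hb with
      | one => exact ⟨k, Q'', h2⟩
      | two _ _ c' L => exact absurd rfl ((hV _ _ h2).2 c' L)
      | cons _ hb' => exact absurd hb' (hV _ _ h2).1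
    · simp only at h1 h2 h3
      have hR := hV.congr h2
      have hRr : S.Red R := hR.red
      have hlenR : R.length = n := by
        have := h2.length
        simp only at this
        omega
      by_cases hh : S.HasHead w R
      · obtain ⟨k3, c3, R3, h4⟩ := hh
        exact head_one h1 h2 h4
      · rcases IV w _ _ _ hlenR hRr h3 with h4 | h4
        swap
        · exact absurd h4 hh
        exfalso
        rcases h4 with ⟨h4, h5⟩ | ⟨z, hz, h4, d, R1, k3, k4, _, h5, h6⟩
        · simp only at h4 h5
          cases hb with
          | one => exact S.ne (S.symm h1) h4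
          | two _ _ c' L => exact hh ⟨_, _, _, h5⟩
          | cons _ hb' => exact hRr _ _ h5 hb'
        · simp only at h4 h5 h6
          have hzd : S.Red ((z, d) :: R1) := hRr.congr h5
          have hlen : R1.length < n := by
            have := h5.length
            rw [hlenR] at this
            simp only [List.length_cons] at this
            omega
          by_cases hrr : S.Red ((z, S.x z w * d) :: R1)
          · cases hb with
            | one =>
              have h7 : S.x w v = S.x w z := by
                have h8 := S.sq hz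
                rw [h4] at h8
                exact (mul_right_cancel h8).symm
              have h8 := S.inj (S.symm h1) hz h7
              subst h8
              exact (hR _ _ (EV.lift (S.x v w) h5)).2 d R1 rfl
            | two _ _ c' L =>
              rcases kc_of (IC _ hlen) rfl hrr h6 with ⟨b1, _⟩ | ⟨b1, R2, k5, k6, _, b2, _⟩ |
                ⟨o, z', b1, b2, _⟩
              · simp only at b1
                exact S.irr _ (b1 ▸ hz)
              · simp only at b1 b2
                exact no_inv b1 hzd b2
              · simp only at b1 b2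
                exact S.tri b1 (S.symm hz) b2
            | cons _ hb' => exact hrr _ _ h6 hb'
          · obtain ⟨k5, Q5, h7⟩ := one_flip (S.symm hz) h5
              (IS _ hlen z _ R1 rfl ((RedV.mul_iff _ _ _).2 hzd.toV) hrr)
            exact hh ⟨_, _, _, h7⟩
    · simp only at a1 a2 a4 a5 a6 a7 a8 a9
      have hzd : S.Red ((z, d) :: R) := hQr.congr a8
      have hlen : R.length < n := by
        have := a8.length
        rw [hn] at this
        simp only [List.length_cons] at this
        omega
      by_cases hrr : S.Red ((z, S.x z w0 * d) :: R)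
      · exfalso
        cases hb with
        | one => exact S.ne (S.symm a2) a6.symm
        | two _ _ c' L =>
          rcases kc_of (IC _ hlen) rfl hrr a9 with ⟨b1, _⟩ | ⟨b1, _⟩ |
            ⟨o, z', b1, b2, b3, b4, b5, _⟩
          · simp only at b1
            subst b1
            exact S.ne a1 (mul_eq_right.1 a4)
          · simp only at b1
            exact S.tri a3 b1 a2
          · simp only at b1 b2 b4 b5
            by_cases hp : o = w0
            · subst hp
              have hd : d = 1 := mul_eq_left.1 b5
              exact hzd _ _ (E.refl _) (hd ▸ Bad.one z R)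
            · refine c4' b1 (S.symm a3) a2 (S.symm b2) hp ?_ (light_of b1 b3 b2 b4)
              exact ne_of_mul b3 b4
        | cons _ hb' => exact hrr _ _ a9 hb'
      · obtain ⟨k5, Q5, h7⟩ := one_flip (S.symm a3) a8
          (IS _ hlen z _ R rfl ((RedV.mul_iff _ _ _).2 hzd.toV) hrr)
        subst a5
        exact head_one (S.symm a1) (EV.refl _) h7

theorem all (n : ℕ) : S.PKC n ∧ S.PKV n ∧ S.PS n := by
  induction n using Nat.strong_induction_on with
  | _ n IH =>
  have h1 := pkv n (fun m hm => (IH m hm).1) (fun m hm => (IH m hm).2.2)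
  have h2 := pkc n (fun m hm => (IH m hm).1) (fun m hm => (IH m hm).2.2) h1
  exact ⟨h2, h1, pss n (fun m hm => (IH m hm).1) (fun m hm => (IH m hm).2.2) h1 h2⟩

theorem kc {k : ZMod 2} {s t : V × B} {P Q : List (V × B)} (hr : S.Red (s :: P))
    (e : S.E k (s :: P) (t :: Q)) : S.KC k s P t Q := kc_of (all P.length).1 rfl hr e

theorem kv {v : V} {k : ZMod 2} {p q : B × List (V × B)} (hr : S.RedV v p)
    (e : S.EV v k p q) : S.KV v k p q := by
  rcases (all p.2.length).2.1 v k p q rfl (RedV.red hr) e with h | h
  · exact h
  · exact absurd hr h.not_redV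

theorem exists_one {v : V} {b : B} {Q : List (V × B)} (hV : S.RedV v (b, Q))
    (hr : ¬ S.Red ((v, b) :: Q)) : ∃ k Q', S.EV v k (b, Q) (1, Q') :=
  (all Q.length).2.2 v b Q rfl hV hr

theorem exists_head {v : V} {L : List (V × B)} (hL : S.Red L) (hV : ¬ S.RedV v (1, L)) :
    ∃ k b Q, S.E k L ((v, b) :: Q) := by
  unfold RedV at hV
  push Not at hV
  obtain ⟨k, q, e, hq⟩ := hV
  rcases (all L.length).2.1 v k _ _ rfl hL e with h | h
  swap
  · exact h
  rcases h with ⟨_, h1⟩ | ⟨w, hw, _, d, R, k1, k2, _, h2, h3⟩
  · simp only at h1
    by_cases hb : Bad q.2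
    · exact absurd hb (hL _ _ h1)
    · obtain ⟨c, Q, hc⟩ := hq hb
      exact ⟨k, c, Q, hc ▸ h1⟩
  · simp only at h2
    have hred : S.Red ((w, d) :: R) := hL.congr h2
    by_cases hrr : S.Red ((w, S.x w v * d) :: R)
    · exfalso
      obtain ⟨c, Q, hc⟩ := hq (hrr _ _ h3)
      rw [hc] at h3
      rcases kc hrr h3 with ⟨h4, _⟩ | ⟨h4, R', k3, k4, _, h5, _⟩ | ⟨o, z, h4, h5, _⟩
      · simp only at h4
        exact absurd (h4 ▸ hw) (S.irr _)
      · simp only at h4 h5
        exact no_inv h4 hred h5
      · simp only at h4 h5
        exact S.tri h4 (S.symm hw) h5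
    · obtain ⟨k5, Q5, h7⟩ := one_flip (S.symm hw) h2
        ((all R.length).2.2 w _ R rfl ((RedV.mul_iff _ _ _).2 hred.toV) hrr)
      exact ⟨_, _, _, h7⟩

theorem head_not {k : ZMod 2} {v : V} {b : B} {L Q : List (V × B)}
    (h : S.E k L ((v, b) :: Q)) : ¬ S.RedV v (1, L) :=
  fun hV => (hV _ _ (EV.lift 1 h)).2 b Q rfl

theorem one_not {v : V} {k : ZMod 2} {b : B} {Q Q' : List (V × B)}
    (h : S.EV v k (b, Q) (1, Q')) : ¬ S.Red ((v, b) :: Q) :=
  fun hr => hr _ _ h.toE (Bad.one v Q')

theorem head_unique {k k' : ZMod 2} {v : V} {b b' : B} {L Q Q' : List (V × B)} (hL : S.Red L)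
    (h : S.E k L ((v, b) :: Q)) (h' : S.E k' L ((v, b') :: Q')) :
    S.EV v (k + k') (b, Q) (b', Q') := by
  rcases kc (hL.congr h) (h.symm.trans h') with ⟨_, h1⟩ | ⟨h1, _⟩ |
    ⟨o, z, h1, h2, h3, h4, _⟩
  · exact h1
  · exact absurd h1 (S.irr _)
  · exact absurd rfl (ne_of_mul h3 h4)

theorem one_unique {v : V} {k : ZMod 2} {Q Q' : List (V × B)} (hV : S.RedV v (1, Q))
    (h : S.EV v k (1, Q) (1, Q')) : S.E k Q Q' := by
  rcases kv hV h with ⟨_, h1⟩ | ⟨w, hw, h1, _⟩
  · exact h1
  · simp only [one_mul] at h1
    exact absurd h1.symm (S.ne hw)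

end Mix

end Pool.Agent.Helper2GI
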