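import Mathlib
import Pool.Agent.Helper2GI.MixEx

/-!
The action of the glued group on the classes of reduced words.
-/

set_option autoImplicit false

namespace Pool.Agent.Helper2GI

namespace Mix

variable {V B : Type} [Group B] {S : Mix V B}

/-! ### Classes -/

variable (S) in
/-- classes of signed reduced chamber words -/
def stC : Setoid {p : ZMod 2 × List (V × B) // S.Red p.2} where
  r p q := S.E (p.1.1 + q.1.1) p.1.2 q.1.2
  iseqv := by
    refine ⟨fun p => ?_, fun {p q} h => ?_, fun {p q r} h h' => ?_⟩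
    · rw [two]; exact E.refl _
    · rw [add_comm]; exact h.symm
    · have h1 : p.1.1 + r.1.1 = (p.1.1 + q.1.1) + (q.1.1 + r.1.1) := by
        have := two q.1.1
        linear_combination -this
      rw [h1]
      exact h.trans h'

variable (S) in
/-- classes of signed reduced coset words -/
def stV (v : V) : Setoid {p : ZMod 2 × (B × List (V × B)) // S.RedV v p.2} where
  r p q := S.EV v (p.1.1 + q.1.1) p.1.2 q.1.2
  iseqv := by
    refine ⟨fun p => ?_, fun {p q} h => ?_, fun {p q r} h h' => ?_⟩
    · rw [two]; exact EV.refl _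
    · rw [add_comm]; exact h.symm
    · have h1 : p.1.1 + r.1.1 = (p.1.1 + q.1.1) + (q.1.1 + r.1.1) := by
        have := two q.1.1
        linear_combination -this
      rw [h1]
      exact h.trans h'

variable (S) in
/-- chambers -/
def Om : Type := Quotient S.stC

variable (S) in
/-- cosets with a marked element -/
def OmV (v : V) : Type := Quotient (S.stV v)

/-- class of a chamber word -/
def cl (k : ZMod 2) (L : List (V × B)) (h : S.Red L) : S.Om := Quotient.mk S.stC ⟨(k, L), h⟩

/-- class of a coset word -/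
def clV (v : V) (k : ZMod 2) (p : B × List (V × B)) (h : S.RedV v p) : S.OmV v :=
  Quotient.mk (S.stV v) ⟨(k, p), h⟩

theorem cl_eq {k k' : ZMod 2} {L L' : List (V × B)} (h : S.Red L) (h' : S.Red L')
    (e : S.E (k + k') L L') : cl k L h = cl k' L' h' :=
  Quotient.sound (s := S.stC) e

theorem of_cl_eq {k k' : ZMod 2} {L L' : List (V × B)} {h : S.Red L} {h' : S.Red L'}
    (e : cl k L h = cl k' L' h') : S.E (k + k') L L' :=
  Quotient.exact (s := S.stC) e

theorem clV_eq {v : V} {k k' : ZMod 2} {p q : B × List (V × B)} (h : S.RedV v p)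
    (h' : S.RedV v q) (e : S.EV v (k + k') p q) : clV v k p h = clV v k' q h' :=
  Quotient.sound (s := S.stV v) e

open Classical in
/-- from chambers to cosets -/
noncomputable def phF (v : V) (p : {p : ZMod 2 × List (V × B) // S.Red p.2}) : S.OmV v :=
  if h : S.RedV v (1, p.1.2) then clV v p.1.1 (1, p.1.2) h
  else
    let c := exists_head p.2 h
    clV v (p.1.1 + c.choose) (c.choose_spec.choose, c.choose_spec.choose_spec.choose)
      ((p.2.congr c.choose_spec.choose_spec.choose_spec).toV)

open Classical in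
/-- from cosets to chambers -/
noncomputable def psF (v : V) (p : {p : ZMod 2 × (B × List (V × B)) // S.RedV v p.2}) : S.Om :=
  if h : S.Red ((v, p.1.2.1) :: p.1.2.2) then cl p.1.1 ((v, p.1.2.1) :: p.1.2.2) h
  else
    let c := exists_one p.2 h
    cl (p.1.1 + c.choose) c.choose_spec.choose ((p.2.congr c.choose_spec.choose_spec).red)

theorem phF_one {v : V} {k : ZMod 2} {L : List (V × B)} (hL : S.Red L)
    (h : S.RedV v (1, L)) : phF v ⟨(k, L), hL⟩ = clV v k (1, L) h := by
  unfold phF
  rw [dif_pos h]

theorem phF_head {v : V} {k k1 : ZMod 2} {L : List (V × B)} (hL : S.Red L) {b : B}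
    {Q : List (V × B)} (e : S.E k1 L ((v, b) :: Q)) :
    phF v ⟨(k, L), hL⟩ = clV v (k + k1) (b, Q) ((hL.congr e).toV) := by
  unfold phF
  rw [dif_neg (head_not e)]
  apply clV_eq
  have h1 := head_unique hL (exists_head hL (head_not e)).choose_spec.choose_spec.choose_spec e
  have h2 : ∀ k2 : ZMod 2, k + k2 + (k + k1) = k2 + k1 := by
    intro k2
    have := two k
    linear_combination this
  simp only
  rw [h2]
  exact h1

theorem psF_red {v : V} {k : ZMod 2} {b : B} {Q : List (V × B)} (hV : S.RedV v (b, Q))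
    (h : S.Red ((v, b) :: Q)) : psF v ⟨(k, (b, Q)), hV⟩ = cl k ((v, b) :: Q) h := by
  unfold psF
  rw [dif_pos h]

theorem psF_one {v : V} {k k1 : ZMod 2} {b : B} {Q Q' : List (V × B)} (hV : S.RedV v (b, Q))
    (e : S.EV v k1 (b, Q) (1, Q')) :
    psF v ⟨(k, (b, Q)), hV⟩ = cl (k + k1) Q' ((hV.congr e).red) := by
  unfold psF
  rw [dif_neg (one_not e)]
  apply cl_eq
  have h0 := (exists_one hV (one_not e)).choose_spec.choose_spec
  have h1 := one_unique (hV.congr h0) (h0.symm.trans e)
  have h2 : ∀ k2 : ZMod 2, k + k2 + (k + k1) = k2 + k1 := by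
    intro k2
    have := two k
    linear_combination this
  simp only
  rw [h2]
  exact h1

theorem phF_congr (v : V) (p q : {p : ZMod 2 × List (V × B) // S.Red p.2})
    (e : S.E (p.1.1 + q.1.1) p.1.2 q.1.2) : phF v p = phF v q := by
  obtain ⟨⟨k, L⟩, hL⟩ := p
  obtain ⟨⟨k', L'⟩, hL'⟩ := q
  simp only at e
  by_cases h : S.RedV v (1, L)
  · have h' : S.RedV v (1, L') := h.congr (EV.lift 1 e)
    rw [phF_one hL h, phF_one hL' h']
    exact clV_eq _ _ (EV.lift 1 e)
  · obtain ⟨k1, b, Q, h1⟩ := exists_head hL h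
    have h2 := e.symm.trans h1
    rw [phF_head hL h1, phF_head hL' h2]
    apply clV_eq
    have h3 : k + k1 + (k' + (k + k' + k1)) = 0 := by
      have h4 := two k
      have h5 := two k'
      have h6 := two k1
      linear_combination h4 + h5 + h6
    rw [h3]
    exact EV.refl _

theorem psF_congr (v : V) (p q : {p : ZMod 2 × (B × List (V × B)) // S.RedV v p.2})
    (e : S.EV v (p.1.1 + q.1.1) p.1.2 q.1.2) : psF v p = psF v q := by
  obtain ⟨⟨k, b, Q⟩, hV⟩ := p
  obtain ⟨⟨k', b', Q'⟩, hV'⟩ := q
  simp only at e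
  by_cases h : S.Red ((v, b) :: Q)
  · have h' : S.Red ((v, b') :: Q') := h.congr e.toE
    rw [psF_red hV h, psF_red hV' h']
    exact cl_eq _ _ e.toE
  · obtain ⟨k1, Q1, h1⟩ := exists_one hV h
    have h2 := e.symm.trans h1
    rw [psF_one hV h1, psF_one hV' h2]
    apply cl_eq
    have h3 : k + k1 + (k' + (k + k' + k1)) = 0 := by
      have h4 := two k
      have h5 := two k'
      have h6 := two k1
      linear_combination h4 + h5 + h6
    rw [h3]
    exact E.refl _

/-- from chambers to cosets -/
noncomputable def ph (v : V) : S.Om → S.OmV v :=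
  Quotient.lift (s := S.stC) (phF v) (fun p q e => phF_congr v p q e)

/-- from cosets to chambers -/
noncomputable def ps (v : V) : S.OmV v → S.Om :=
  Quotient.lift (s := S.stV v) (psF v) (fun p q e => psF_congr v p q e)

theorem ph_one {v : V} {k : ZMod 2} {L : List (V × B)} (hL : S.Red L)
    (h : S.RedV v (1, L)) : ph v (cl k L hL) = clV v k (1, L) h := phF_one hL h

theorem ph_head {v : V} {k k1 : ZMod 2} {L : List (V × B)} (hL : S.Red L) {b : B}
    {Q : List (V × B)} (e : S.E k1 L ((v, b) :: Q)) :
    ph v (cl k L hL) = clV v (k + k1) (b, Q) ((hL.congr e).toV) := phF_head hL e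

theorem ps_red {v : V} {k : ZMod 2} {b : B} {Q : List (V × B)} (hV : S.RedV v (b, Q))
    (h : S.Red ((v, b) :: Q)) : ps v (clV v k (b, Q) hV) = cl k ((v, b) :: Q) h := psF_red hV h

theorem ps_one {v : V} {k k1 : ZMod 2} {b : B} {Q Q' : List (V × B)} (hV : S.RedV v (b, Q))
    (e : S.EV v k1 (b, Q) (1, Q')) :
    ps v (clV v k (b, Q) hV) = cl (k + k1) Q' ((hV.congr e).red) := psF_one hV e

theorem Om.ind' {P : S.Om → Prop} (h : ∀ k L (hL : S.Red L), P (cl k L hL)) (q : S.Om) : P q :=
  Quotient.ind (fun x => h x.1.1 x.1.2 x.2) q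

theorem OmV.ind' {v : V} {P : S.OmV v → Prop}
    (h : ∀ k b Q (hV : S.RedV v (b, Q)), P (clV v k (b, Q) hV)) (q : S.OmV v) : P q :=
  Quotient.ind (fun x => h x.1.1 x.1.2.1 x.1.2.2 x.2) q

theorem ps_ph (v : V) (q : S.Om) : ps v (ph v q) = q := by
  induction q using Om.ind' with
  | h k L hL =>
  by_cases h : S.RedV v (1, L)
  · rw [ph_one hL h, ps_one h (EV.refl _)]
    apply cl_eq
    have : k + 0 + k = 0 := by
      have := two k
      linear_combination this
    rw [this]
    exact E.refl _
  · obtain ⟨k1, b, Q, h1⟩ := exists_head hL h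
    rw [ph_head hL h1, ps_red _ (hL.congr h1)]
    apply cl_eq
    have : k + k1 + k = k1 := by
      have := two k
      linear_combination this
    rw [this]
    exact h1.symm

theorem ph_ps (v : V) (q : S.OmV v) : ph v (ps v q) = q := by
  induction q using OmV.ind' with
  | h k b Q hV =>
  by_cases h : S.Red ((v, b) :: Q)
  · rw [ps_red hV h, ph_head h (E.refl _)]
    apply clV_eq
    have : k + 0 + k = 0 := by
      have := two k
      linear_combination this
    rw [this]
    exact EV.refl _
  · obtain ⟨k1, Q', h1⟩ := exists_one hV h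
    rw [ps_one hV h1, ph_one _ (hV.congr h1)]
    apply clV_eq
    have : k + k1 + k = k1 := by
      have := two k
      linear_combination this
    rw [this]
    exact h1.symm

/-- left multiplication on cosets -/
def mv (v : V) (c : B) : S.OmV v → S.OmV v :=
  Quotient.map (sa := S.stV v) (sb := S.stV v)
    (fun p => ⟨(p.1.1, (c * p.1.2.1, p.1.2.2)), p.2.mul c⟩)
    (fun _ _ e => EV.mul c e)

theorem mv_cl {v : V} {k : ZMod 2} {b : B} {Q : List (V × B)} (hV : S.RedV v (b, Q)) (c : B) :
    mv v c (clV v k (b, Q) hV) = clV v k (c * b, Q) ((RedV.mul_iff c b Q).2 hV) := rfl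

theorem mv_one (v : V) (q : S.OmV v) : mv v 1 q = q := by
  induction q using OmV.ind' with
  | h k b Q hV =>
  rw [mv_cl]
  apply clV_eq
  rw [two, one_mul]
  exact EV.refl _

theorem mv_mul (v : V) (c d : B) (q : S.OmV v) : mv v (c * d) q = mv v c (mv v d q) := by
  induction q using OmV.ind' with
  | h k b Q hV =>
  rw [mv_cl, mv_cl, mv_cl]
  apply clV_eq
  rw [two, mul_assoc]
  exact EV.refl _

/-- the action of a local group on chambers -/
noncomputable def act (v : V) (c : B) (q : S.Om) : S.Om := ps v (mv v c (ph v q))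

theorem act_one (v : V) (q : S.Om) : act v 1 q = q := by
  unfold act
  rw [mv_one, ps_ph]

theorem act_mul (v : V) (c d : B) (q : S.Om) : act v (c * d) q = act v c (act v d q) := by
  unfold act
  rw [mv_mul, ph_ps]

/-- changing the sign -/
def sg (j : ZMod 2) : S.Om → S.Om :=
  Quotient.map (sa := S.stC) (sb := S.stC) (fun p => ⟨(j + p.1.1, p.1.2), p.2⟩)
    (fun p q e => by
      have h : j + p.1.1 + (j + q.1.1) = p.1.1 + q.1.1 := by
        have := two j
        linear_combination this
      show S.E (j + p.1.1 + (j + q.1.1)) p.1.2 q.1.2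
      rw [h]
      exact e)

theorem sg_cl (j k : ZMod 2) {L : List (V × B)} (hL : S.Red L) :
    sg j (cl k L hL) = cl (j + k) L hL := rfl

theorem sg_add (i j : ZMod 2) (q : S.Om) : sg (i + j) q = sg i (sg j q) := by
  induction q using Om.ind' with
  | h k L hL => rw [sg_cl, sg_cl, sg_cl, add_assoc]

theorem sg_zero (q : S.Om) : sg 0 q = q := by
  induction q using Om.ind' with
  | h k L hL => rw [sg_cl, zero_add]

/-- the action on a class -/
theorem act_cases (v : V) (c : B) (k : ZMod 2) {L : List (V × B)} (hL : S.Red L) :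
    ∃ k1 b Q, (S.EV v k1 (1, L) (b, Q) ∨ S.E k1 L ((v, b) :: Q)) ∧
      ∃ hV : S.RedV v (c * b, Q), act v c (cl k L hL) = ps v (clV v (k + k1) (c * b, Q) hV) := by
  by_cases h : S.RedV v (1, L)
  · refine ⟨0, 1, L, Or.inl (EV.refl _), (RedV.mul_iff c 1 L).2 h, ?_⟩
    unfold act
    rw [ph_one hL h, mv_cl]
    congr 1
    apply clV_eq
    have : k + (k + 0) = 0 := by
      have := two k
      linear_combination this
    rw [this]
    exact EV.refl _
  · obtain ⟨k1, b, Q, h1⟩ := exists_head hL h
    refine ⟨k1, b, Q, Or.inr h1, (RedV.mul_iff c b Q).2 (hL.congr h1).toV, ?_⟩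
    unfold act
    rw [ph_head hL h1, mv_cl]

theorem sg_act (j : ZMod 2) (v : V) (c : B) (q : S.Om) : sg j (act v c q) = act v c (sg j q) := by
  have h1 : ∀ q : S.OmV v, ∀ k b Q (hV : S.RedV v (b, Q)), q = clV v k (b, Q) hV →
      sg j (ps v q) = ps v (clV v (j + k) (b, Q) hV) := by
    rintro q k b Q hV rfl
    by_cases h : S.Red ((v, b) :: Q)
    · rw [ps_red hV h, ps_red hV h, sg_cl]
    · obtain ⟨k1, Q', h2⟩ := exists_one hV h
      rw [ps_one hV h2, ps_one hV h2, sg_cl]
      apply cl_eq
      have h3 : j + (k + k1) + (j + k + k1) = 0 := by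
        have a1 := two j
        have a2 := two k
        have a3 := two k1
        linear_combination a1 + a2 + a3
      rw [h3]
      exact E.refl _
  induction q using Om.ind' with
  | h k L hL =>
  unfold act
  by_cases h : S.RedV v (1, L)
  · rw [sg_cl, ph_one hL h, ph_one hL h, mv_cl, mv_cl, h1 _ _ _ _ _ rfl]
  · obtain ⟨k1, b, Q, h2⟩ := exists_head hL h
    rw [sg_cl, ph_head hL h2, ph_head hL h2, mv_cl, mv_cl, h1 _ _ _ _ _ rfl]
    congr 1
    apply clV_eq
    have h3 : j + (k + k1) + (j + k + k1) = 0 := by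
      have a1 := two j
      have a2 := two k
      have a3 := two k1
      linear_combination a1 + a2 + a3
    rw [h3]
    exact EV.refl _

/-- half of the compatibility -/
theorem compat_aux {u v : V} (h : S.adj u v) {k k1 : ZMod 2} {L : List (V × B)} (hL : S.Red L)
    (hU : S.RedV u (1, L)) {d : B} {R : List (V × B)} (e : S.E k1 L ((v, d) :: R)) :
    act u (S.x u v) (cl k L hL) = sg (S.τ u v) (act v (S.x v u) (cl k L hL)) := by
  have h1 : act u (S.x u v) (cl k L hL) =
      ps u (clV u k (S.x u v * 1, L) ((RedV.mul_iff _ _ _).2 hU)) := by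
    unfold act
    rw [ph_one hL hU, mv_cl]
  have e1 : S.EV u (k1 + S.τ u v) (S.x u v * 1, L) (1, (v, S.x v u * d) :: R) := by
    have h2 := (EV.lift (v := u) (S.x u v) e).trans (EV.of (FlV.slide h (S.x u v) d R))
    rw [S.sq h] at h2
    rw [mul_one]
    exact h2
  have hr : S.Red ((v, S.x v u * d) :: R) :=
    (((RedV.mul_iff (S.x u v) 1 L).2 hU).congr e1).red
  have h2 : act v (S.x v u) (cl k L hL) = cl (k + k1) ((v, S.x v u * d) :: R) hr := by
    unfold act
    rw [ph_head hL e, mv_cl, ps_red _ hr]
  rw [h1, h2, ps_one _ e1, sg_cl]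
  apply cl_eq
  have h3 : k + (k1 + S.τ u v) + (S.τ u v + (k + k1)) = 0 := by
    have h4 := two k
    have h5 := two k1
    have h6 := two (S.τ u v)
    linear_combination h4 + h5 + h6
  rw [h3]
  exact E.refl _

theorem compat {u v : V} (h : S.adj u v) (q : S.Om) :
    act u (S.x u v) q = sg (S.τ u v) (act v (S.x v u) q) := by
  induction q using Om.ind' with
  | h k L hL =>
  by_cases hU : S.RedV u (1, L)
  · by_cases hV : S.RedV v (1, L)
    · -- both sides extend
      have hU' : S.RedV u (S.x u v * 1, L) := (RedV.mul_iff _ _ _).2 hU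
      have hV' : S.RedV v (S.x v u * 1, L) := (RedV.mul_iff _ _ _).2 hV
      have aux : ∀ {u v : V}, S.adj u v → S.RedV u (1, L) → S.RedV v (1, L) →
          S.Red ((u, S.x u v * 1) :: L) := by
        intro u v h hU hV
        by_contra hn
        obtain ⟨k1, Q', e⟩ := exists_one ((RedV.mul_iff (S.x u v) 1 L).2 hU) hn
        rcases kv ((RedV.mul_iff (S.x u v) 1 L).2 hU) e with ⟨h1, _⟩ |
          ⟨w, hw, h1, d, R, k2, k3, _, h2, _⟩
        · simp only [mul_one] at h1
          exact S.ne h h1
        · simp only [mul_one] at h1 h2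
          have h3 : S.x u v = S.x u w := by
            have h7 := S.sq hw
            rw [h1] at h7
            exact (mul_right_cancel h7).symm
          have h4 := S.inj h hw h3
          subst h4
          exact (hV _ _ (EV.lift 1 h2)).2 d R rfl
      have r1 := aux h hU hV
      have r2 := aux (S.symm h) hV hU
      have h1 : act u (S.x u v) (cl k L hL) = cl k ((u, S.x u v * 1) :: L) r1 := by
        unfold act
        rw [ph_one hL hU, mv_cl, ps_red _ r1]
      have h2 : act v (S.x v u) (cl k L hL) = cl k ((v, S.x v u * 1) :: L) r2 := by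
        unfold act
        rw [ph_one hL hV, mv_cl, ps_red _ r2]
      rw [h1, h2, sg_cl]
      apply cl_eq
      have h3 : k + (S.τ u v + k) = S.τ u v := by
        have := two k
        linear_combination this
      rw [h3, mul_one, mul_one]
      exact E.of (Fl.swap h L)
    · obtain ⟨k1, d, R, e⟩ := exists_head hL hV
      exact compat_aux h hL hU e
  · by_cases hV : S.RedV v (1, L)
    · obtain ⟨k1, d, R, e⟩ := exists_head hL hU
      have h1 := compat_aux (S.symm h) (k := k) hL hV e
      rw [h1, ← sg_add, S.τs v u, two, sg_zero]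
    · obtain ⟨k1, d, R, e⟩ := exists_head hL hU
      obtain ⟨k2, d', R', e'⟩ := exists_head hL hV
      rcases kc (hL.congr e) (e.symm.trans e') with ⟨h1, _⟩ | ⟨_, R1, k3, k4, h3, h4, h5⟩ |
        ⟨o, z, h1, h2, _⟩
      · simp only at h1
        exact absurd (h1 ▸ h) (S.irr _)
      · simp only at h4 h5 h3
        -- both words start with the common involution
        have e1 : S.E (k1 + k3) L ((u, S.x u v) :: R1) := e.trans h4.toE
        have e2 : S.E (k1 + k3 + S.τ u v) L ((v, S.x v u) :: R1) := e1.trans (E.of (Fl.swap h R1))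
        have hr1 : S.Red R1 := ((hL.congr e1).toV).red
        have key : ∀ {u v : V} {j : ZMod 2}, S.adj u v → S.E j L ((u, S.x u v) :: R1) →
            act u (S.x u v) (cl k L hL) = cl (k + j) R1 hr1 := by
          intro u v j h e
          unfold act
          rw [ph_head hL e, mv_cl]
          have h6 : S.EV u 0 (S.x u v * S.x u v, R1) (1, R1) := by
            rw [S.sq h]; exact EV.refl _
          rw [ps_one _ h6]
          apply cl_eq
          rw [add_zero, two]
          exact E.refl _
        rw [key h e1, key (S.symm h) e2, sg_cl]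
        apply cl_eq
        have h6 : k + (k1 + k3) + (S.τ u v + (k + (k1 + k3 + S.τ u v))) = 0 := by
          have a1 := two k
          have a2 := two k1
          have a3 := two k3
          have a4 := two (S.τ u v)
          linear_combination a1 + a2 + a3 + a4
        rw [h6]
        exact E.refl _
      · simp only at h1 h2
        exact absurd h (fun h => S.tri h1 h h2)

/-! ### Reduction of words -/

variable (S) in
/-- moves with sign: flips, deletion of `(v, 1)`, merging -/
inductive Mv : ZMod 2 → List (V × B) → List (V × B) → Prop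
  | fl {k : ZMod 2} {L L' : List (V × B)} (h : S.Fl k L L') : Mv k L L'
  | del (v : V) (L : List (V × B)) : Mv 0 ((v, 1) :: L) L
  | mrg (v : V) (a b : B) (L : List (V × B)) : Mv 0 ((v, a) :: (v, b) :: L) ((v, a * b) :: L)
  | cons (s : V × B) {k : ZMod 2} {L L' : List (V × B)} (h : Mv k L L') : Mv k (s :: L) (s :: L')

variable (S) in
/-- sequences of moves -/
inductive Ms : ZMod 2 → List (V × B) → List (V × B) → Prop
  | refl (L : List (V × B)) : Ms 0 L L
  | tail {k k' : ZMod 2} {L L' L'' : List (V × B)} (h : Ms k L L') (h' : S.Mv k' L' L'') :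
      Ms (k + k') L L''

theorem Ms.trans {k k' : ZMod 2} {L L' L'' : List (V × B)} (h : S.Ms k L L')
    (h' : S.Ms k' L' L'') : S.Ms (k + k') L L'' := by
  induction h' with
  | refl _ => rwa [add_zero]
  | tail _ h2 ih => rw [← add_assoc]; exact Ms.tail (ih h) h2

theorem Ms.of {k : ZMod 2} {L L' : List (V × B)} (h : S.Mv k L L') : S.Ms k L L' := by
  have := Ms.tail (Ms.refl L) h
  rwa [zero_add] at this

theorem Ms.cons (s : V × B) {k : ZMod 2} {L L' : List (V × B)} (h : S.Ms k L L') :
    S.Ms k (s :: L) (s :: L') := by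
  induction h with
  | refl L => exact Ms.refl _
  | tail _ h2 ih => exact Ms.tail ih (Mv.cons s h2)

theorem E.toMs {k : ZMod 2} {L L' : List (V × B)} (h : S.E k L L') : S.Ms k L L' := by
  induction h with
  | refl L => exact Ms.refl _
  | tail _ h2 ih => exact Ms.tail ih (Mv.fl h2)

/-- the action of a word -/
noncomputable def actL : List (V × B) → S.Om → S.Om
  | [], q => q
  | s :: L, q => act s.1 s.2 (actL L q)

variable (S) in
/-- the base chamber -/
def base : S.Om := cl 0 [] red_nil

theorem reduce (L : List (V × B)) : ∃ k L', ∃ hL : S.Red L', S.Ms k L L' ∧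
    actL L S.base = cl k L' hL := by
  induction L with
  | nil => exact ⟨0, [], red_nil, Ms.refl _, rfl⟩
  | cons s L ih =>
    obtain ⟨k, L', hL, hm, ha⟩ := ih
    obtain ⟨v, c⟩ := s
    show ∃ k1 L1, ∃ hL1 : S.Red L1, S.Ms k1 ((v, c) :: L) L1 ∧
      act v c (actL L S.base) = cl k1 L1 hL1
    rw [ha]
    -- first bring the word to the form `(v, c * b) :: Q`
    have key : ∀ (k1 : ZMod 2) (b : B) (Q : List (V × B)) (hV : S.RedV v (b, Q)),
        S.Ms k1 ((v, c) :: L) ((v, b) :: Q) → ∃ k2 L1, ∃ hL1 : S.Red L1,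
        S.Ms k2 ((v, c) :: L) L1 ∧ ps v (clV v k1 (b, Q) hV) = cl k2 L1 hL1 := by
      intro k1 b Q hV hm1
      by_cases h : S.Red ((v, b) :: Q)
      · exact ⟨k1, _, h, hm1, ps_red hV h⟩
      · obtain ⟨k2, Q', h2⟩ := exists_one hV h
        refine ⟨k1 + k2, Q', (hV.congr h2).red, ?_, ps_one hV h2⟩
        have h3 := Ms.tail (hm1.trans h2.toE.toMs) (Mv.del v Q')
        rwa [add_zero] at h3
    by_cases h : S.RedV v (1, L')
    · have h1 : act v c (cl k L' hL) =
          ps v (clV v k (c * 1, L') ((RedV.mul_iff _ _ _).2 h)) := by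
        unfold act
        rw [ph_one hL h, mv_cl]
      rw [h1]
      apply key
      rw [mul_one]
      exact hm.cons (v, c)
    · obtain ⟨k1, b, Q, h1⟩ := exists_head hL h
      have h2 : act v c (cl k L' hL) =
          ps v (clV v (k + k1) (c * b, Q) ((RedV.mul_iff _ _ _).2 (hL.congr h1).toV)) := by
        unfold act
        rw [ph_head hL h1, mv_cl]
      rw [h2]
      apply key
      have h3 := Ms.tail ((hm.trans h1.toMs).cons (v, c)) (Mv.mrg v c b Q)
      rwa [add_zero] at h3

/-- **Normal form theorem**: a word which acts trivially reduces to the empty word. -/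
theorem reduce_nil (L : List (V × B)) (j : ZMod 2) (h : actL L S.base = sg j S.base) :
    S.Ms j L [] := by
  obtain ⟨k, L', hL, hm, ha⟩ := reduce L
  rw [ha] at h
  have h1 : S.E (k + (j + 0)) L' [] := of_cl_eq h
  obtain ⟨h2, h3⟩ := h1.symm.nil
  subst h2
  have h4 : k = j := by
    have := two j
    linear_combination h3 - this
  rw [← h4]
  exact hm

end Mix

end Pool.Agent.Helper2GI
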