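import Mathlib
import Pool.Agent.Helper2GI.MixAct

/-!
Bounds for the entries of the words occurring in reductions.
-/

set_option autoImplicit false

namespace Pool.Agent.Helper2GI

namespace Mix

variable {V B : Type} [Group B] {S : Mix V B}

variable (S) in
/-- a length function and local subgroups -/
structure Nm where
  nrm : B → ℕ
  loc : V → Subgroup B
  κ : ℕ
  mul : ∀ a b, nrm (a * b) ≤ nrm a + nrm b
  x : ∀ {u v}, S.adj u v → nrm (S.x u v) ≤ κ ∧ S.x u v ∈ loc u

variable (T : S.Nm)

/-- all entries are local and of length at most `K` -/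
def Bd (K : ℕ) (L : List (V × B)) : Prop := ∀ s ∈ L, T.nrm s.2 ≤ K ∧ s.2 ∈ T.loc s.1

variable {T}

theorem Bd.mono {K K' : ℕ} (h : K ≤ K') {L : List (V × B)} (hL : Bd T K L) : Bd T K' L :=
  fun s hs => ⟨(hL s hs).1.trans h, (hL s hs).2⟩

theorem bd_cons {K : ℕ} {s : V × B} {L : List (V × B)} :
    Bd T K (s :: L) ↔ (T.nrm s.2 ≤ K ∧ s.2 ∈ T.loc s.1) ∧ Bd T K L := by
  unfold Bd
  simp

theorem bd_nil {K : ℕ} : Bd T K [] := by
  intro s hs
  cases hs

/-- multiplying the first entry by an involution -/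
theorem bd_x {K : ℕ} {u w : V} (h : S.adj w u) {d : B} {R : List (V × B)}
    (hb : Bd T K ((w, d) :: R)) : Bd T (K + T.κ) ((w, S.x w u * d) :: R) := by
  rw [bd_cons] at hb ⊢
  obtain ⟨⟨h1, h2⟩, h3⟩ := hb
  simp only at h1 h2 ⊢
  have h4 := T.mul (S.x w u) d
  have h5 := T.x h
  refine ⟨⟨by omega, Subgroup.mul_mem _ h5.2 h2⟩, h3.mono (by omega)⟩

/-- bound for equivalent words -/
def bt (T : S.Nm) (n : ℕ) : ℕ := 2 * T.κ * 5 ^ n

theorem bt_succ (n : ℕ) : 4 * bt T n + 2 * T.κ ≤ bt T (n + 1) := by
  unfold bt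
  have h1 : 1 ≤ 5 ^ n := Nat.one_le_pow _ _ (by norm_num)
  have h2 : 2 * T.κ * 1 ≤ 2 * T.κ * 5 ^ n := Nat.mul_le_mul_left _ h1
  have h3 : 2 * T.κ * 5 ^ (n + 1) = 5 * (2 * T.κ * 5 ^ n) := by ring
  rw [h3]
  omega

theorem nbv (n : ℕ) (H : ∀ (K : ℕ) (k : ZMod 2) (L L' : List (V × B)), S.Red L → L.length = n →
      Bd T K L → S.E k L L' → Bd T (K + bt T n) L')
    {K : ℕ} {v : V} {k : ZMod 2} {a b : B} {P Q : List (V × B)} (hV : S.RedV v (a, P))
    (hn : P.length = n) (hb : Bd T K ((v, a) :: P)) (h : S.EV v k (a, P) (b, Q)) :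
    (T.nrm b ≤ K + T.κ ∧ b ∈ T.loc v) ∧ Bd T (K + 2 * bt T n + T.κ) Q := by
  rw [bd_cons] at hb
  obtain ⟨⟨h1, h2⟩, h3⟩ := hb
  simp only at h1 h2
  rcases kv hV h with ⟨h4, h5⟩ | ⟨w, hw, h4, d, R, k1, k2, _, h5, h6⟩
  · simp only at h4 h5
    subst h4
    exact ⟨⟨by omega, h2⟩, (H K _ _ _ hV.red hn h3 h5).mono (by omega)⟩
  · simp only at h4 h5 h6
    subst h4
    have h7 := T.mul a (S.x v w)
    have h8 := T.x hw
    refine ⟨⟨by omega, Subgroup.mul_mem _ h2 h8.2⟩, ?_⟩
    have h9 := bd_x (S.symm hw) (H K _ _ _ hV.red hn h3 h5)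
    have hr : S.Red ((w, S.x w v * d) :: R) := by
      have h10 := (EV.lift (v := v) a h5).trans (EV.of (FlV.slide hw a d R))
      exact (hV.congr h10).red
    have hlen : ((w, S.x w v * d) :: R).length = n := by
      rw [← hn, h5.length]
      simp
    have h10 := H _ _ _ _ hr hlen h9 h6
    exact h10.mono (by omega)

theorem nb (n : ℕ) : ∀ (K : ℕ) (k : ZMod 2) (L L' : List (V × B)), S.Red L → L.length = n →
    Bd T K L → S.E k L L' → Bd T (K + bt T n) L' := by
  induction n with
  | zero =>
    intro K k L L' _ hn _ h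
    have h1 : L = [] := List.eq_nil_of_length_eq_zero hn
    subst h1
    rw [h.nil.1]
    exact bd_nil
  | succ n IH =>
    intro K k L L' hr hn hb h
    cases L with
    | nil => simp at hn
    | cons s P =>
      cases L' with
      | nil =>
        exact bd_nil
      | cons t Q =>
        have hlen : P.length = n := by simpa using hn
        have hV : S.RedV s.1 (s.2, P) := Red.toV (v := s.1) (a := s.2) hr
        have h5 := bt_succ (T := T) n
        rcases kc hr h with ⟨h1, h2⟩ | ⟨h1, R, k1, k2, _, h2, h3⟩ |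
          ⟨w, z, a1, a2, a3, a4, a5, a6, d, R, k1, k2, _, a8, a9⟩
        · have h3 := nbv n IH hV hlen hb h2
          rw [bd_cons]
          refine ⟨⟨h3.1.1.trans (by omega), h1 ▸ h3.1.2⟩, h3.2.mono (by omega)⟩
        · have h4 := nbv n IH hV hlen hb h2
          have hV2 : S.RedV t.1 (S.x t.1 s.1, R) := by
            have hR : S.Red ((s.1, S.x s.1 t.1) :: R) := hr.congr h2.toE
            have hR2 : S.Red ((t.1, S.x t.1 s.1) :: R) := hR.congr (E.of (Fl.swap h1 R))
            exact hR2.toV
          have hlen2 : R.length = n := by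
            have := h2.length
            simp only at this
            omega
          have hx := T.x (S.symm h1)
          have h6 := nbv n IH (K := K + 2 * bt T n + T.κ) hV2 hlen2 (by
            rw [bd_cons]
            exact ⟨⟨hx.1.trans (by omega), hx.2⟩, h4.2⟩) h3
          rw [bd_cons]
          exact ⟨⟨h6.1.1.trans (by omega), h6.1.2⟩, h6.2.mono (by omega)⟩
        · have h7 := IH K _ _ _ (Red.tail hr) hlen (bd_cons.1 hb).2 a8
          have h8 := bd_x (S.symm a3) h7
          have hR2 : S.Red ((z, S.x z w * d) :: R) := by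
            have e1 := ((E.of (Fl.swap (S.symm a1) P)).trans (a8.cons (w, S.x w s.1))).trans
              (E.of (Fl.slide a3 (S.x w s.1) d R))
            have hs : s = (s.1, S.x s.1 w) := Prod.ext rfl a5
            rw [hs] at hr
            exact Red.tail (hr.congr e1)
          have hlen2 : ((z, S.x z w * d) :: R).length = n := by
            rw [← hlen, a8.length]
            simp
          have h9 := IH _ _ _ _ hR2 hlen2 h8 a9
          have hx := T.x (S.symm a2)
          rw [bd_cons]
          refine ⟨⟨?_, ?_⟩, h9.mono (by omega)⟩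
          · rw [a6]; omega
          · rw [a6]; exact hx.2

variable (T) in
/-- sequences of moves through bounded words -/
inductive MsB (K : ℕ) : ZMod 2 → List (V × B) → List (V × B) → Prop
  | refl (L : List (V × B)) (h : Bd T K L) : MsB K 0 L L
  | tail {k k' : ZMod 2} {L L' L'' : List (V × B)} (h : MsB K k L L') (h' : S.Mv k' L' L'')
      (hb : Bd T K L'') : MsB K (k + k') L L''

theorem MsB.last {K : ℕ} {k : ZMod 2} {L L' : List (V × B)} (h : MsB T K k L L') :
    Bd T K L' := by
  cases h with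
  | refl _ h => exact h
  | tail _ _ h => exact h

theorem MsB.trans {K : ℕ} {k k' : ZMod 2} {L L' L'' : List (V × B)} (h : MsB T K k L L')
    (h' : MsB T K k' L' L'') : MsB T K (k + k') L L'' := by
  induction h' with
  | refl _ _ => rwa [add_zero]
  | tail _ h2 hb ih => rw [← add_assoc]; exact MsB.tail (ih h) h2 hb

theorem MsB.mono {K K' : ℕ} (hK : K ≤ K') {k : ZMod 2} {L L' : List (V × B)}
    (h : MsB T K k L L') : MsB T K' k L L' := by
  induction h with
  | refl _ hb => exact MsB.refl _ (hb.mono hK)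
  | tail _ h2 hb ih => exact MsB.tail ih h2 (hb.mono hK)

theorem MsB.cons {K : ℕ} {s : V × B} (hs : T.nrm s.2 ≤ K ∧ s.2 ∈ T.loc s.1) {k : ZMod 2}
    {L L' : List (V × B)} (h : MsB T K k L L') : MsB T K k (s :: L) (s :: L') := by
  induction h with
  | refl L hb => exact MsB.refl _ (bd_cons.2 ⟨hs, hb⟩)
  | tail _ h2 hb ih => exact MsB.tail ih (Mv.cons s h2) (bd_cons.2 ⟨hs, hb⟩)

theorem E.toMsB {K : ℕ} {k : ZMod 2} {L L' : List (V × B)} (h : S.E k L L') (hr : S.Red L)
    (hb : Bd T K L) : MsB T (K + bt T L.length) k L L' := by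
  induction h with
  | refl L => exact MsB.refl _ (hb.mono (by omega))
  | @tail k k' L L' L'' h1 h2 ih =>
    exact MsB.tail (ih hr hb) (Mv.fl h2) (nb _ K _ _ _ hr rfl hb (E.tail h1 h2))

theorem EV.toMsB {K : ℕ} {v : V} {k : ZMod 2} {p q : B × List (V × B)} (h : S.EV v k p q)
    (hr : S.RedV v p) (hb : Bd T K ((v, p.1) :: p.2)) :
    MsB T (K + 2 * bt T p.2.length + T.κ) k ((v, p.1) :: p.2) ((v, q.1) :: q.2) := by
  induction h with
  | refl p => exact MsB.refl _ (hb.mono (by omega))
  | @tail k k' p q r h1 h2 ih =>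
    refine MsB.tail (ih hr hb) ?_ ?_
    · cases h2 with
      | slide h a b L => exact Mv.fl (Fl.slide h a b L)
      | tail a h => exact Mv.fl (Fl.cons _ h)
    · have h3 := nbv p.2.length (nb _) (a := p.1) (P := p.2) (b := r.1) (Q := r.2) hr rfl hb
        (EV.tail h1 h2)
      rw [bd_cons]
      exact ⟨⟨h3.1.1.trans (by omega), h3.1.2⟩, h3.2⟩

theorem reduceB (L : List (V × B)) (hL : Bd T T.κ L) : ∃ k L', ∃ hr : S.Red L',
    L'.length ≤ L.length ∧ MsB T (bt T L.length) k L L' ∧ actL L S.base = cl k L' hr := by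
  induction L with
  | nil => exact ⟨0, [], red_nil, le_rfl, MsB.refl _ bd_nil, rfl⟩
  | cons s L ih =>
    rw [bd_cons] at hL
    obtain ⟨k, L', hr, hlen, hm, ha⟩ := ih hL.2
    obtain ⟨v, c⟩ := s
    obtain ⟨⟨hc1, hc2⟩, _⟩ := hL
    simp only at hc1 hc2
    have hbt := bt_succ (T := T) L.length
    have hmon : bt T L'.length ≤ bt T L.length := by
      unfold bt
      exact Nat.mul_le_mul_left _ (Nat.pow_le_pow_right (by norm_num) hlen)
    have hκ : T.κ ≤ bt T (L.length + 1) := by omega
    show ∃ k1 L1, ∃ hr1 : S.Red L1, L1.length ≤ ((v, c) :: L).length ∧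
      MsB T (bt T (L.length + 1)) k1 ((v, c) :: L) L1 ∧ act v c (actL L S.base) = cl k1 L1 hr1
    rw [ha]
    have hm' : MsB T (bt T (L.length + 1)) k ((v, c) :: L) ((v, c) :: L') :=
      (hm.mono (by omega)).cons ⟨hc1.trans hκ, hc2⟩
    have hb' : Bd T (bt T L.length) L' := hm.last
    -- first bring the word to the form `(v, c * b) :: Q`
    have key : ∀ (k1 : ZMod 2) (b : B) (Q : List (V × B)) (hV : S.RedV v (b, Q)),
        Q.length ≤ L.length → Bd T (2 * bt T L.length + T.κ) ((v, b) :: Q) →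
        MsB T (bt T (L.length + 1)) k1 ((v, c) :: L) ((v, b) :: Q) →
        ∃ k2 L1, ∃ hr1 : S.Red L1, L1.length ≤ ((v, c) :: L).length ∧
        MsB T (bt T (L.length + 1)) k2 ((v, c) :: L) L1 ∧
          ps v (clV v k1 (b, Q) hV) = cl k2 L1 hr1 := by
      intro k1 b Q hV hQ hbQ hm1
      have hmonQ : bt T Q.length ≤ bt T L.length := by
        unfold bt
        exact Nat.mul_le_mul_left _ (Nat.pow_le_pow_right (by norm_num) hQ)
      by_cases h : S.Red ((v, b) :: Q)
      · exact ⟨k1, _, h, by simpa using hQ, hm1, ps_red hV h⟩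
      · obtain ⟨k2, Q', h2⟩ := exists_one hV h
        have h4 := (EV.toMsB h2 hV hbQ).mono (K' := bt T (L.length + 1)) (by
          show 2 * bt T L.length + T.κ + 2 * bt T Q.length + T.κ ≤ _
          omega)
        have hlenQ' : Q'.length = Q.length := h2.length.symm
        refine ⟨k1 + k2, Q', (hV.congr h2).red, ?_, ?_, ps_one hV h2⟩
        · simp only [List.length_cons]
          omega
        · have h3 := MsB.tail (hm1.trans h4) (Mv.del v Q') (bd_cons.1 h4.last).2
          rwa [add_zero] at h3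
    by_cases h : S.RedV v (1, L')
    · have h1 : act v c (cl k L' hr) =
          ps v (clV v k (c * 1, L') ((RedV.mul_iff _ _ _).2 h)) := by
        unfold act
        rw [ph_one hr h, mv_cl]
      rw [h1]
      apply key
      · exact hlen
      · rw [mul_one, bd_cons]
        exact ⟨⟨by simp only; omega, hc2⟩, hb'.mono (by omega)⟩
      · rw [mul_one]
        exact hm'
    · obtain ⟨k1, b, Q, h1⟩ := exists_head hr h
      have h2 : act v c (cl k L' hr) =
          ps v (clV v (k + k1) (c * b, Q) ((RedV.mul_iff _ _ _).2 (hr.congr h1).toV)) := by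
        unfold act
        rw [ph_head hr h1, mv_cl]
      rw [h2]
      have h4 := E.toMsB h1 hr hb'
      have h5 := h4.last
      rw [bd_cons] at h5
      obtain ⟨⟨h6, h7⟩, h8⟩ := h5
      simp only at h6 h7
      have hcb := T.mul c b
      have hQ : Q.length ≤ L.length := by
        have := h1.length
        simp only [List.length_cons] at this
        omega
      have hbd : Bd T (2 * bt T L.length + T.κ) ((v, c * b) :: Q) := by
        rw [bd_cons]
        exact ⟨⟨by simp only; omega, Subgroup.mul_mem _ hc2 h7⟩, h8.mono (by omega)⟩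
      apply key
      · exact hQ
      · exact hbd
      · have h3 := MsB.tail (hm'.trans (MsB.cons (T := T) (s := (v, c)) ⟨hc1.trans hκ, hc2⟩
          (h4.mono (K' := bt T (L.length + 1)) (by omega)))) (Mv.mrg v c b Q)
          (hbd.mono (by omega))
        rwa [add_zero] at h3

/-- **Normal form theorem with bounds.** -/
theorem reduce_nilB (L : List (V × B)) (hL : Bd T T.κ L) (j : ZMod 2)
    (h : actL L S.base = sg j S.base) : MsB T (bt T L.length) j L [] := by
  obtain ⟨k, L', hr, _, hm, ha⟩ := reduceB L hL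
  rw [ha] at h
  have h1 : S.E (k + (j + 0)) L' [] := of_cl_eq h
  obtain ⟨h2, h3⟩ := h1.symm.nil
  subst h2
  have h4 : k = j := by
    have := two j
    linear_combination h3 - this
  rw [← h4]
  exact hm

end Mix

end Pool.Agent.Helper2GI
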