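import Mathlib
import Pool.Agent.Helper2GI.MixB
import Pool.Agent.Helper2GI.Ltr

/-!
Realising a graph incidence group as a glued group, with bounded derivations.
-/

set_option autoImplicit false

namespace Pool.Agent.Helper2GI

open Mix

/-- a realisation of the graph incidence group of `c` by a system of glued groups -/
structure Real (c : Code) {V B : Type} [Group B] (S : Mix V B) where
  nm : S.Nm
  cl : ℕ → V
  el : V → Edge c → B
  sn : V → Edge c → ZMod 2
  rep : V → B → List (Edge c)
  A : ℕ → ℕ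
  el_sq : ∀ {v i}, Inc c v i → el (cl v) i * el (cl v) i = 1
  el_comm : ∀ {v i j}, Inc c v i → Inc c v j →
    el (cl v) i * el (cl v) j = el (cl v) j * el (cl v) i
  el_prod : ∀ v < c.1, ((star c v).map (el (cl v))).prod = 1
  sn_sum : ∀ v < c.1, ((star c v).map (sn (cl v))).sum = (colour c v : ZMod 2)
  edge : ∀ {u v i}, Inc c u i → Inc c v i → cl u ≠ cl v → S.adj (cl u) (cl v) ∧
    S.x (cl u) (cl v) = el (cl u) i ∧ S.τ (cl u) (cl v) = sn (cl u) i + sn (cl v) i
  adjE : ∀ {P Q}, S.adj P Q → ∃ u v i, Inc c u i ∧ Inc c v i ∧ cl u = P ∧ cl v = Q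
  el_nm : ∀ {v i}, Inc c v i → nm.nrm (el (cl v) i) ≤ nm.κ ∧ el (cl v) i ∈ nm.loc (cl v)
  A_mono : Monotone A
  rep_one : ∀ v, rep v 1 = []
  rep_len : ∀ {v a}, a ∈ nm.loc v → (rep v a).length ≤ A (nm.nrm a)
  rep_mul : ∀ {v a b}, a ∈ nm.loc v → b ∈ nm.loc v →
    D c (A (nm.nrm a + nm.nrm b)) 0 (rep v a ++ rep v b) (rep v (a * b))
  rep_el : ∀ {v i}, Inc c v i → D c (A nm.κ) (sn (cl v) i) [i] (rep (cl v) (el (cl v) i))

namespace Real

variable {c : Code} {V B : Type} [Group B] {S : Mix V B} (R : Real c S)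

/-- the cluster of the first endpoint -/
def hd (i : Edge c) : V := R.cl (c.2.1.get i).1

/-- the action of a letter -/
noncomputable def la : Option (Edge c) → S.Om → S.Om
  | none, q => sg 1 q
  | some i, q => sg (R.sn (R.hd i) i) (act (R.hd i) (R.el (R.hd i) i) q)

theorem la_eq {v : ℕ} {i : Edge c} (h : Inc c v i) (q : S.Om) :
    R.la (some i) q = sg (R.sn (R.cl v) i) (act (R.cl v) (R.el (R.cl v) i) q) := by
  have h0 : Inc c (c.2.1.get i).1 i := Or.inl rfl
  by_cases hc : R.cl (c.2.1.get i).1 = R.cl v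
  · show sg (R.sn (R.cl (c.2.1.get i).1) i) (act (R.cl (c.2.1.get i).1)
      (R.el (R.cl (c.2.1.get i).1) i) q) = _
    rw [hc]
  · obtain ⟨h1, h2, h3⟩ := R.edge h0 h hc
    obtain ⟨_, h5, _⟩ := R.edge h h0 (Ne.symm hc)
    have h6 := compat h1 q
    rw [h2, h5, h3] at h6
    show sg (R.sn (R.cl (c.2.1.get i).1) i) (act (R.cl (c.2.1.get i).1)
      (R.el (R.cl (c.2.1.get i).1) i) q) = _
    rw [h6, ← sg_add, ← add_assoc, two, zero_add]

theorem sg_comm (i j : ZMod 2) (q : S.Om) : sg i (sg j q) = sg j (sg i q) := by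
  rw [← sg_add, add_comm, sg_add]

theorem la_sg (a : Option (Edge c)) (j : ZMod 2) (q : S.Om) :
    R.la a (sg j q) = sg j (R.la a q) := by
  cases a with
  | none => exact sg_comm _ _ _
  | some i =>
    show sg _ (act _ _ (sg j q)) = sg j (sg _ (act _ _ q))
    rw [← sg_act, sg_comm]

theorem la_inv (a : Option (Edge c)) (q : S.Om) : R.la a (R.la a q) = q := by
  cases a with
  | none =>
    show sg 1 (sg 1 q) = q
    rw [← sg_add, two, sg_zero]
  | some i =>
    have h0 : Inc c (c.2.1.get i).1 i := Or.inl rfl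
    show sg _ (act _ _ (sg _ (act _ _ q))) = q
    rw [← sg_act, ← sg_add, two, sg_zero, ← act_mul]
    unfold hd
    rw [R.el_sq h0, act_one]

/-- letters as permutations -/
noncomputable def pm (a : Option (Edge c)) : Equiv.Perm S.Om :=
  Function.Involutive.toPerm (R.la a) (R.la_inv a)

theorem pm_apply (a : Option (Edge c)) (q : S.Om) : R.pm a q = R.la a q := rfl

theorem pm_none_pow (k : ℕ) (q : S.Om) : ((R.pm none) ^ k) q = sg (k : ZMod 2) q := by
  induction k with
  | zero =>
    rw [pow_zero, Nat.cast_zero, sg_zero]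
    rfl
  | succ k ih =>
    rw [pow_succ', Equiv.Perm.mul_apply, ih, pm_apply]
    show sg 1 (sg _ q) = _
    rw [← sg_add]
    congr 1
    push_cast
    ring

theorem pm_star {v : ℕ} (l : List (Edge c)) (hl : ∀ i ∈ l, Inc c v i) (q : S.Om) :
    (l.map (fun i => R.pm (some i))).prod q =
      sg (l.map (R.sn (R.cl v))).sum (act (R.cl v) (l.map (R.el (R.cl v))).prod q) := by
  induction l with
  | nil =>
    show q = sg 0 (act _ 1 q)
    rw [sg_zero, act_one]
  | cons i l ih =>
    have ih' := ih (fun j hj => hl j (List.mem_cons_of_mem _ hj))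
    rw [List.map_cons, List.prod_cons, Equiv.Perm.mul_apply, ih', pm_apply,
      R.la_eq (hl i (by simp)), ← sg_act, ← sg_add, ← act_mul, List.map_cons, List.sum_cons,
      List.map_cons, List.prod_cons]

theorem rels {r : FreeGroup (Option (Edge c))} (hr : Rlt c r) :
    FreeGroup.lift R.pm r = 1 := by
  cases hr with
  | JJ =>
    rw [map_mul, FreeGroup.lift_apply_of]
    exact Equiv.ext fun q => R.la_inv none q
  | xx i =>
    rw [map_mul, FreeGroup.lift_apply_of]
    exact Equiv.ext fun q => R.la_inv (some i) q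
  | xJ i =>
    simp only [map_mul, map_inv, FreeGroup.lift_apply_of]
    rw [mul_inv_eq_one, mul_inv_eq_iff_eq_mul]
    exact Equiv.ext fun q => R.la_sg (some i) 1 q
  | comm v i j hi hj =>
    simp only [map_mul, map_inv, FreeGroup.lift_apply_of]
    rw [mul_inv_eq_one, mul_inv_eq_iff_eq_mul]
    refine Equiv.ext fun q => ?_
    show R.la (some i) (R.la (some j) q) = R.la (some j) (R.la (some i) q)
    rw [R.la_eq hi, R.la_eq hj, R.la_eq hj, R.la_eq hi, ← sg_act, ← sg_act, ← act_mul, ← act_mul,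
      R.el_comm hi hj, sg_comm]
  | vert v hv =>
    rw [map_mul, map_inv, map_pow, map_list_prod, List.map_map, mul_inv_eq_one,
      FreeGroup.lift_apply_of]
    have h1 : (⇑(FreeGroup.lift R.pm) ∘ fun i => FreeGroup.of (some i)) =
        fun i => R.pm (some i) := by
      funext i
      exact FreeGroup.lift_apply_of
    rw [h1]
    refine Equiv.ext fun q => ?_
    rw [R.pm_star (star c v) (fun i hi => mem_star.1 hi), R.sn_sum v hv, R.el_prod v hv, act_one,
      R.pm_none_pow]

/-- the sign of a word -/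
def sk : List (Option (Edge c)) → ZMod 2
  | [] => 0
  | none :: u => 1 + sk u
  | some i :: u => R.sn (R.hd i) i + sk u

/-- the syllables of a word -/
def sl : List (Option (Edge c)) → List (V × B)
  | [] => []
  | none :: u => sl u
  | some i :: u => (R.hd i, R.el (R.hd i) i) :: sl u

theorem sl_len (u : List (Option (Edge c))) : (R.sl u).length ≤ u.length := by
  induction u with
  | nil => exact le_rfl
  | cons a u ih =>
    cases a with
    | none =>
      show (R.sl u).length ≤ _
      rw [List.length_cons]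
      omega
    | some i =>
      show ((R.hd i, R.el (R.hd i) i) :: R.sl u).length ≤ _
      rw [List.length_cons, List.length_cons]
      omega

theorem sl_bd (u : List (Option (Edge c))) : Bd R.nm R.nm.κ (R.sl u) := by
  induction u with
  | nil => exact bd_nil
  | cons a u ih =>
    cases a with
    | none => exact ih
    | some i =>
      show Bd R.nm R.nm.κ ((R.hd i, R.el (R.hd i) i) :: R.sl u)
      rw [bd_cons]
      exact ⟨R.el_nm (Or.inl rfl), ih⟩

theorem pm_word (u : List (Option (Edge c))) (q : S.Om) :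
    (u.map R.pm).prod q = sg (R.sk u) (actL (R.sl u) q) := by
  induction u with
  | nil =>
    show q = sg 0 q
    rw [sg_zero]
  | cons a u ih =>
    rw [List.map_cons, List.prod_cons, Equiv.Perm.mul_apply, ih, pm_apply]
    cases a with
    | none =>
      show sg 1 (sg _ _) = sg (1 + _) _
      rw [← sg_add]
      rfl
    | some i =>
      show sg _ (act _ _ (sg _ _)) = sg (R.sn (R.hd i) i + R.sk u) (act _ _ _)
      rw [← sg_act, ← sg_add]

theorem act_base (u : List (Option (Edge c)))
    (hu : (u.map (PresentedGroup.of (rels := {r | Rlt c r}))).prod = 1) :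
    actL (R.sl u) S.base = sg (R.sk u) S.base := by
  have hrel : ∀ r ∈ {r | Rlt c r}, FreeGroup.lift R.pm r = 1 := fun r hr => R.rels hr
  have h1 := congrArg (PresentedGroup.toGroup hrel) hu
  rw [map_one, map_list_prod, List.map_map] at h1
  have h2 : (⇑(PresentedGroup.toGroup hrel) ∘ PresentedGroup.of) = R.pm := by
    funext a
    exact PresentedGroup.toGroup.of hrel
  rw [h2] at h1
  have h3 := R.pm_word u S.base
  rw [h1] at h3
  have h4 : sg (R.sk u) S.base = sg (R.sk u) (sg (R.sk u) (actL (R.sl u) S.base)) := by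
    rw [← h3]
    rfl
  rw [h4, ← sg_add, two, sg_zero]

/-! ### Letters -/

/-- the letter word of a list of syllables -/
def wd (L : List (V × B)) : List (Edge c) := L.flatMap fun s => R.rep s.1 s.2

theorem wd_cons (s : V × B) (L : List (V × B)) : R.wd (s :: L) = R.rep s.1 s.2 ++ R.wd L := rfl

theorem rep_le {K : ℕ} {s : V × B} (h : R.nm.nrm s.2 ≤ K ∧ s.2 ∈ R.nm.loc s.1) :
    (R.rep s.1 s.2).length ≤ R.A K := (R.rep_len h.2).trans (R.A_mono h.1)

theorem wd_len {K : ℕ} {L : List (V × B)} (h : Bd R.nm K L) :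
    (R.wd L).length ≤ L.length * R.A K := by
  induction L with
  | nil => simp [wd]
  | cons s L ih =>
    rw [bd_cons] at h
    have h1 := ih h.2
    have h2 := R.rep_le h.1
    rw [wd_cons, List.length_append, List.length_cons]
    rw [Nat.succ_mul]
    omega

theorem D_inv {v : ℕ} {i : Edge c} (h : Inc c v i) :
    D c (2 * R.A (2 * R.nm.κ) + 3) (R.sn (R.cl v) i) (R.rep (R.cl v) (R.el (R.cl v) i)) [i] := by
  have hn := R.el_nm h
  have hl := R.rep_le (s := (R.cl v, R.el (R.cl v) i)) hn
  simp only at hl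
  have hA : R.A R.nm.κ ≤ R.A (2 * R.nm.κ) := R.A_mono (by omega)
  have h1 := (D.xi i).ctx [] (R.rep (R.cl v) (R.el (R.cl v) i))
    (N' := 2 * R.A (2 * R.nm.κ) + 3) (by simp only [List.length_nil]; omega)
  have h2 := (R.rep_el h).ctx [i] (R.rep (R.cl v) (R.el (R.cl v) i))
    (N' := 2 * R.A (2 * R.nm.κ) + 3) (by simp only [List.length_cons, List.length_nil]; omega)
  have h3 := (R.rep_mul hn.2 hn.2).ctx [i] [] (N' := 2 * R.A (2 * R.nm.κ) + 3) (by
    have h4 : R.A (R.nm.nrm (R.el (R.cl v) i) + R.nm.nrm (R.el (R.cl v) i)) ≤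
      R.A (2 * R.nm.κ) := R.A_mono (by omega)
    simp only [List.length_cons, List.length_nil]; omega)
  rw [R.el_sq h, R.rep_one] at h3
  simp only [List.nil_append, List.append_nil, List.cons_append] at h1 h2 h3
  have h5 := (h1.trans h2).trans h3
  rwa [zero_add, add_zero] at h5

/-- constant for the derivations of single moves -/
def cs (K : ℕ) : ℕ := 4 * R.A (2 * K + 2 * R.nm.κ) + 4

theorem D_swap {P Q : V} (h : S.adj P Q) (K : ℕ) :
    D c (R.cs K) (S.τ P Q) (R.rep P (S.x P Q)) (R.rep Q (S.x Q P)) := by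
  obtain ⟨u, v, i, hu, hv, rfl, rfl⟩ := R.adjE h
  have hne : R.cl u ≠ R.cl v := fun e => S.irr _ (e ▸ h)
  obtain ⟨_, h2, h3⟩ := R.edge hu hv hne
  obtain ⟨_, h5, _⟩ := R.edge hv hu (Ne.symm hne)
  rw [h2, h3, h5]
  have hA : R.A (2 * R.nm.κ) ≤ R.A (2 * K + 2 * R.nm.κ) := R.A_mono (by omega)
  have hA2 : R.A R.nm.κ ≤ R.A (2 * K + 2 * R.nm.κ) := R.A_mono (by omega)
  refine ((R.D_inv hu).mono ?_).trans ((R.rep_el hv).mono ?_)
  · unfold cs; omega
  · unfold cs; omega

theorem D_slide {P Q : V} (h : S.adj P Q) {K : ℕ} {a b : B}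
    (ha : R.nm.nrm a ≤ K ∧ a ∈ R.nm.loc P) (hb : R.nm.nrm b ≤ K ∧ b ∈ R.nm.loc Q) :
    D c (R.cs K) (S.τ P Q) (R.rep P a ++ R.rep Q b)
      (R.rep P (a * S.x P Q) ++ R.rep Q (S.x Q P * b)) := by
  obtain ⟨u, v, i, hu, hv, rfl, rfl⟩ := R.adjE h
  have hne : R.cl u ≠ R.cl v := fun e => S.irr _ (e ▸ h)
  obtain ⟨_, h2, h3⟩ := R.edge hu hv hne
  obtain ⟨_, h5, _⟩ := R.edge hv hu (Ne.symm hne)
  rw [h2, h3, h5]
  have hnu := R.el_nm hu
  have hnv := R.el_nm hv
  set x := R.el (R.cl u) i with hx
  set y := R.el (R.cl v) i with hy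
  set M := R.A (2 * K + 2 * R.nm.κ) with hM
  have l1 : (R.rep (R.cl u) a).length ≤ M := (R.rep_len ha.2).trans (R.A_mono (by omega))
  have l2 : (R.rep (R.cl v) b).length ≤ M := (R.rep_len hb.2).trans (R.A_mono (by omega))
  have l3 : (R.rep (R.cl v) y).length ≤ M := (R.rep_len hnv.2).trans (R.A_mono (by omega))
  have l4 : (R.rep (R.cl u) (a * x)).length ≤ M :=
    (R.rep_len (Subgroup.mul_mem _ ha.2 hnu.2)).trans (R.A_mono (by
      have := R.nm.mul a x
      omega))
  have a1 : R.A R.nm.κ ≤ M := R.A_mono (by omega)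
  have a2 : R.A (R.nm.nrm a + R.nm.nrm x) ≤ M := R.A_mono (by omega)
  have a3 : R.A (R.nm.nrm y + R.nm.nrm b) ≤ M := R.A_mono (by omega)
  have hcs : R.cs K = 4 * M + 4 := rfl
  rw [hcs]
  have d1 := (D.xi i).ctx (R.rep (R.cl u) a) (R.rep (R.cl v) b) (N' := 4 * M + 4) (by omega)
  have d2 := (R.rep_el hu).ctx (R.rep (R.cl u) a) ([i] ++ R.rep (R.cl v) b) (N' := 4 * M + 4) (by
    simp only [List.length_append, List.length_cons, List.length_nil]; omega)
  have d3 := (R.rep_mul ha.2 hnu.2).ctx [] ([i] ++ R.rep (R.cl v) b) (N' := 4 * M + 4) (by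
    simp only [List.length_append, List.length_cons, List.length_nil]; omega)
  have d4 := (R.rep_el hv).ctx (R.rep (R.cl u) (a * x)) (R.rep (R.cl v) b)
    (N' := 4 * M + 4) (by omega)
  have d5 := (R.rep_mul hnv.2 hb.2).ctx (R.rep (R.cl u) (a * x)) [] (N' := 4 * M + 4) (by
    simp only [List.length_nil]; omega)
  simp only [List.nil_append, List.append_nil, List.cons_append, List.append_assoc] at d1 d2 d3 d4 d5
  have d6 := (((d1.trans d2).trans d3).trans d4).trans d5
  simp only [zero_add, add_zero] at d6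
  exact d6

theorem mv_D {k : ZMod 2} {L L' : List (V × B)} (h : S.Mv k L L') {K : ℕ}
    (hb : Bd R.nm K L) : ∃ l s t r, R.wd L = l ++ s ++ r ∧ R.wd L' = l ++ t ++ r ∧
      D c (R.cs K) k s t ∧ l.length + r.length ≤ L.length * R.A K := by
  have hfl : ∀ {k : ZMod 2} {L L' : List (V × B)}, S.Fl k L L' → Bd R.nm K L →
      ∃ l s t r, R.wd L = l ++ s ++ r ∧ R.wd L' = l ++ t ++ r ∧
      D c (R.cs K) k s t ∧ l.length + r.length ≤ L.length * R.A K := by
    intro k L L' h
    induction h with
    | @swap u v h L =>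
      intro hb
      rw [bd_cons] at hb
      have h2 := R.wd_len hb.2
      refine ⟨[], _, _, R.wd L, by rw [List.nil_append, R.wd_cons],
        by rw [List.nil_append, R.wd_cons], R.D_swap h K, ?_⟩
      simp only [List.length_nil, List.length_cons, Nat.succ_mul]
      omega
    | @slide u v h a b L =>
      intro hb
      rw [bd_cons, bd_cons] at hb
      have h2 := R.wd_len hb.2.2
      refine ⟨[], _, _, R.wd L, ?_, ?_, R.D_slide h hb.1 hb.2.1, ?_⟩
      · rw [List.nil_append, R.wd_cons, R.wd_cons, List.append_assoc]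
      · rw [List.nil_append, R.wd_cons, R.wd_cons, List.append_assoc]
      · simp only [List.length_nil, List.length_cons, Nat.succ_mul]
        omega
    | @cons s k L L' h ih =>
      intro hb
      rw [bd_cons] at hb
      obtain ⟨l, s', t, r, h1, h2, h3, h4⟩ := ih hb.2
      have h5 := R.rep_le hb.1
      refine ⟨R.rep s.1 s.2 ++ l, s', t, r, ?_, ?_, h3, ?_⟩
      · rw [R.wd_cons, h1]; simp
      · rw [R.wd_cons, h2]; simp
      · simp only [List.length_append, List.length_cons, Nat.succ_mul]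
        omega
  induction h with
  | fl h => exact hfl h hb
  | del v L =>
    rw [bd_cons] at hb
    have h2 := R.wd_len hb.2
    refine ⟨[], [], [], R.wd L, ?_, by simp, D.refl _ _, ?_⟩
    · rw [R.wd_cons]
      simp only [R.rep_one]
      simp
    · simp only [List.length_nil, List.length_cons, Nat.succ_mul]
      omega
  | mrg v a b L =>
    rw [bd_cons, bd_cons] at hb
    have h2 := R.wd_len hb.2.2
    simp only at hb
    refine ⟨[], R.rep v a ++ R.rep v b, R.rep v (a * b), R.wd L, ?_, ?_,
      (R.rep_mul hb.1.2 hb.2.1.2).mono ?_, ?_⟩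
    · rw [List.nil_append, R.wd_cons, R.wd_cons, List.append_assoc]
    · rw [List.nil_append, R.wd_cons]
    · have : R.A (R.nm.nrm a + R.nm.nrm b) ≤ R.A (2 * K + 2 * R.nm.κ) := R.A_mono (by
        have h3 := hb.1.1
        have h4 := hb.2.1.1
        omega)
      unfold cs
      omega
    · simp only [List.length_nil, List.length_cons, Nat.succ_mul]
      omega
  | @cons s k L L' h ih =>
    rw [bd_cons] at hb
    obtain ⟨l, s', t, r, h1, h2, h3, h4⟩ := ih hb.2
    have h5 := R.rep_le hb.1
    refine ⟨R.rep s.1 s.2 ++ l, s', t, r, ?_, ?_, h3, ?_⟩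
    · rw [R.wd_cons, h1]; simp
    · rw [R.wd_cons, h2]; simp
    · simp only [List.length_append, List.length_cons, Nat.succ_mul]
      omega

theorem mv_len {k : ZMod 2} {L L' : List (V × B)} (h : S.Mv k L L') : L'.length ≤ L.length := by
  induction h with
  | fl h => exact le_of_eq h.length.symm
  | del v L => simp
  | mrg v a b L => simp
  | cons s h ih => simpa using ih

theorem ms_GR {K n : ℕ} {k : ZMod 2} {L L' : List (V × B)} (h : MsB R.nm K k L L')
    (hn : L.length ≤ n) (j : ZMod 2) : L'.length ≤ n ∧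
      GR (Ru c) (R.cs K + n * R.A K + 2) (jw j ++ (R.wd L).map some)
      (jw (j + k) ++ (R.wd L').map some) := by
  induction h with
  | refl L _ =>
    rw [add_zero]
    exact ⟨hn, Relation.ReflTransGen.refl⟩
  | @tail k k' L L' L'' h1 h2 hb ih =>
    obtain ⟨i1, i2⟩ := ih hn
    refine ⟨(mv_len h2).trans i1, i2.trans ?_⟩
    obtain ⟨l, s, t, r, e1, e2, d, hl⟩ := R.mv_D h2 h1.last
    rw [e1, e2, ← add_assoc]
    refine (d (j + k) l r).mono ?_
    have : L'.length * R.A K ≤ n * R.A K := Nat.mul_le_mul_right _ i1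
    omega

theorem start_GR (u : List (Option (Edge c))) :
    GR (Ru c) (u.length * (R.A R.nm.κ + 1) + R.A R.nm.κ + 3) u
      (jw (R.sk u) ++ (R.wd (R.sl u)).map some) := by
  induction u with
  | nil => exact Relation.ReflTransGen.refl
  | cons a u ih =>
    have hw := R.wd_len (R.sl_bd u)
    have hsl := R.sl_len u
    have hw2 : (R.sl u).length * R.A R.nm.κ ≤ u.length * R.A R.nm.κ := Nat.mul_le_mul_right _ hsl
    have hmul : u.length * (R.A R.nm.κ + 1) = u.length * R.A R.nm.κ + u.length := by ring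
    have hmul2 : (a :: u).length * (R.A R.nm.κ + 1) =
        u.length * R.A R.nm.κ + u.length + R.A R.nm.κ + 1 := by
      rw [List.length_cons]; ring
    have hk := jw_len (E := Edge c) (R.sk u)
    have h1 := ih.ctx [a] [] (N' := (a :: u).length * (R.A R.nm.κ + 1) + R.A R.nm.κ + 3) (by
      rw [hmul2, hmul]
      simp only [List.length_cons, List.length_nil]
      omega)
    simp only [List.append_nil, List.cons_append, List.nil_append] at h1
    refine h1.trans ?_
    cases a with
    | none =>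
      have h2 := (jadd (c := c) 2 1 (R.sk u) le_rfl).ctx [] ((R.wd (R.sl u)).map some)
        (N' := (none :: u).length * (R.A R.nm.κ + 1) + R.A R.nm.κ + 3) (by
        rw [hmul2]
        simp only [List.length_nil, List.length_map]
        omega)
      rw [jw_one] at h2
      show Relation.ReflTransGen _ _ (jw (1 + R.sk u) ++ (R.wd (R.sl u)).map some)
      simpa using h2
    | some i =>
      have h2 := (lj (c := c) 2 (R.sk u) [i] (by simp)).ctx [] ((R.wd (R.sl u)).map some)
        (N' := (some i :: u).length * (R.A R.nm.κ + 1) + R.A R.nm.κ + 3) (by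
        rw [hmul2]
        simp only [List.length_nil, List.length_map]
        omega)
      have h0 : Inc c (c.2.1.get i).1 i := Or.inl rfl
      have h3 := (R.rep_el h0 (R.sk u) [] (R.wd (R.sl u))).mono
        (N' := (some i :: u).length * (R.A R.nm.κ + 1) + R.A R.nm.κ + 3) (by
        rw [hmul2]
        simp only [List.length_nil]
        omega)
      refine Relation.ReflTransGen.trans (b := jw (R.sk u) ++ ([i].map some) ++
        (R.wd (R.sl u)).map some) (by simpa using h2) ?_
      rw [add_comm (R.sk u)] at h3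
      show Relation.ReflTransGen _ _ (jw (R.sn (R.hd i) i + R.sk u) ++
        (R.rep (R.hd i) (R.el (R.hd i) i) ++ R.wd (R.sl u)).map some)
      unfold hd
      simpa using h3

/-- **Bounded derivations from a realisation.** -/
theorem derive (u : List (Option (Edge c)))
    (hu : (u.map (PresentedGroup.of (rels := {r | Rlt c r}))).prod = 1) (n : ℕ)
    (hn : u.length ≤ n) :
    GR (Ru c) (n * (R.A R.nm.κ + 1) + R.A R.nm.κ + 3 +
      (R.cs (2 * R.nm.κ * 5 ^ n) + n * R.A (2 * R.nm.κ * 5 ^ n) + 2)) u [] := by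
  have h1 := reduce_nilB (R.sl u) (R.sl_bd u) (R.sk u) (R.act_base u hu)
  have hbt : bt R.nm (R.sl u).length ≤ 2 * R.nm.κ * 5 ^ n := by
    unfold bt
    exact Nat.mul_le_mul_left _ (Nat.pow_le_pow_right (by norm_num) ((R.sl_len u).trans hn))
  have h2 := (R.ms_GR (h1.mono hbt) ((R.sl_len u).trans hn) (R.sk u)).2
  rw [two] at h2
  have h3 := R.start_GR u
  have h4 : u.length * (R.A R.nm.κ + 1) ≤ n * (R.A R.nm.κ + 1) := Nat.mul_le_mul_right _ hn
  refine (h3.mono (by omega)).trans (h2.mono (by omega))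

end Real

end Pool.Agent.Helper2GI
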