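import Mathlib
import Pool.Agent.Helper2GI.Real

/-!
The realisation of graphs without triangles, with one local group for each vertex.
-/

set_option autoImplicit false

namespace Pool.Agent.Helper2GI

open Mix

/-- Two different vertices joined by an edge. -/
def Adj (c : Code) (u v : ℕ) : Prop := u ≠ v ∧ ∃ i : Edge c, Inc c u i ∧ Inc c v i

/-- Simple graphs without triangles and of minimum degree at least `3` in which no vertex of degree
`3` lies on a cycle of length `4`, and no cycle of length `5` contains two vertices of degree `3`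
which are not consecutive on it. -/
structure Thin (c : Code) : Prop where
  simple : ∀ u v, u ≠ v → joining c u v ≤ 1
  degree3 : ∀ v < c.1, 3 ≤ degree c v
  no3 : ∀ u v w, Adj c u v → Adj c v w → ¬ Adj c w u
  cyc4 : ∀ u v w z, Adj c u v → Adj c v w → Adj c w z → Adj c z u → u ≠ w → v ≠ z →
    4 ≤ degree c u
  cyc5 : ∀ u v w z y, Adj c u v → Adj c v w → Adj c w z → Adj c z y → Adj c y u →
    4 ≤ degree c u ∨ 4 ≤ degree c w

theorem Adj.symm {c : Code} {u v : ℕ} (h : Adj c u v) : Adj c v u :=
  ⟨h.1.symm, h.2.imp fun _ h => h.symm⟩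

variable {c : Code}

theorem uniq (hs : ∀ u v, u ≠ v → joining c u v ≤ 1) {u v : ℕ} (huv : u ≠ v) {i j : Edge c}
    (h1 : Inc c u i) (h2 : Inc c v i) (h3 : Inc c u j) (h4 : Inc c v j) : i = j := by
  by_contra hij
  have h5 := card_joining (c := c) (u := u) (v := v) {i, j} (by
    intro e he
    rw [Finset.mem_insert, Finset.mem_singleton] at he
    rcases he with rfl | rfl
    · exact ⟨h1, h2⟩
    · exact ⟨h3, h4⟩)
  rw [Finset.card_pair hij] at h5
  have := hs u v huv
  omega

variable (c) in
/-- the first edge at a vertex -/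
def e0 (v : ℕ) : Option (Edge c) := (star c v).head?

variable (c) in
/-- the involutions of a local group, as functions on the edges -/
def xe (v : ℕ) (i : Edge c) : Edge c → ZMod 2 := fun f =>
  if e0 c v = some i then (if Inc c v f ∧ e0 c v ≠ some f then 1 else 0)
  else (if i = f then 1 else 0)

variable (c) in
/-- the value of a function at an edge, normalised -/
def nv (v : ℕ) (a : Edge c → ZMod 2) (f : Edge c) : ZMod 2 := if e0 c v = some f then 0 else a f

variable (c) in
/-- differences -/
def df (v : ℕ) (f g : Edge c) (a : Edge c → ZMod 2) : ZMod 2 := nv c v a f + nv c v a g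

theorem df_add (v : ℕ) (f g : Edge c) (a b : Edge c → ZMod 2) :
    df c v f g (a + b) = df c v f g a + df c v f g b := by
  unfold df nv
  simp only [Pi.add_apply]
  split_ifs <;> ring

theorem df_xe {v : ℕ} {i f g : Edge c} (hf : Inc c v f) (hg : Inc c v g) :
    df c v f g (xe c v i) = (if i = f then 1 else 0) + (if i = g then 1 else 0) := by
  have h2 : (1 : ZMod 2) + 1 = 0 := rfl
  unfold df nv xe
  by_cases hi : e0 c v = some i
  · by_cases hif : i = f
    · subst hif
      by_cases hig : i = g
      · subst hig
        simp [hi, h2]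
      · simp [hi, hig, hg]
    · by_cases hig : i = g
      · subst hig
        simp [hi, hif, hf]
      · simp [hi, hif, hig, hf, hg, h2]
  · by_cases hif : i = f
    · subst hif
      by_cases hig : i = g
      · subst hig
        simp [hi]
      · simp [hi, hig]
    · by_cases hig : i = g
      · subst hig
        simp [hi, hif]
      · simp [hi, hif, hig]

/-- the abelian group containing the local groups -/
abbrev BB (c : Code) : Type := Multiplicative (Edge c → ZMod 2)

open Classical in
variable (c) in
/-- glueing involutions -/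
noncomputable def gx (u v : ℕ) : BB c :=
  Multiplicative.ofAdd (∑ i : Edge c, if Inc c u i ∧ Inc c v i then xe c u i else 0)

variable (c) in
/-- signs -/
def sn1 (v : ℕ) (i : Edge c) : ZMod 2 := if e0 c v = some i then (colour c v : ZMod 2) else 0

open Classical in
variable (c) in
/-- glueing signs -/
noncomputable def gt (u v : ℕ) : ZMod 2 :=
  ∑ i : Edge c, if Inc c u i ∧ Inc c v i then sn1 c u i + sn1 c v i else 0

theorem gx_eq (hs : ∀ u v, u ≠ v → joining c u v ≤ 1) {u v : ℕ} (huv : u ≠ v) {i : Edge c}
    (h1 : Inc c u i) (h2 : Inc c v i) : gx c u v = Multiplicative.ofAdd (xe c u i) := by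
  unfold gx
  congr 1
  rw [Finset.sum_eq_single i]
  · rw [if_pos ⟨h1, h2⟩]
  · intro j _ hj
    rw [if_neg]
    rintro ⟨h3, h4⟩
    exact hj (uniq hs huv h3 h4 h1 h2)
  · intro h
    exact absurd (Finset.mem_univ _) h

theorem gt_eq (hs : ∀ u v, u ≠ v → joining c u v ≤ 1) {u v : ℕ} (huv : u ≠ v) {i : Edge c}
    (h1 : Inc c u i) (h2 : Inc c v i) : gt c u v = sn1 c u i + sn1 c v i := by
  unfold gt
  rw [Finset.sum_eq_single i]
  · rw [if_pos ⟨h1, h2⟩]
  · intro j _ hj
    rw [if_neg]
    rintro ⟨h3, h4⟩
    exact hj (uniq hs huv h3 h4 h1 h2)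
  · intro h
    exact absurd (Finset.mem_univ _) h

theorem gt_symm (u v : ℕ) : gt c u v = gt c v u := by
  unfold gt
  apply Finset.sum_congr rfl
  intro i _
  by_cases h : Inc c u i ∧ Inc c v i
  · rw [if_pos h, if_pos h.symm, add_comm]
  · rw [if_neg h, if_neg (fun h' => h h'.symm)]

theorem add_self_fun (a : Edge c → ZMod 2) : a + a = 0 := by
  funext f
  exact two (a f)

/-- an edge at `v` different from all in a short list -/
theorem exists_other {v : ℕ} (l : List (Edge c)) (h : l.length < degree c v) :
    ∃ g, Inc c v g ∧ g ∉ l := by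
  by_contra hc
  push Not at hc
  have h1 : (star c v).Subperm l := by
    refine (star_nodup c v).subperm ?_
    intro e he
    exact hc e (mem_star.1 he)
  have := h1.length_le
  unfold degree at h
  omega

theorem xe_ne {v : ℕ} (hd : 3 ≤ degree c v) {i : Edge c} (hi : Inc c v i) : xe c v i ≠ 0 := by
  intro h
  obtain ⟨g, hg, hgi⟩ := exists_other (v := v) [i] (by simp only [List.length_cons, List.length_nil]; omega)
  have h1 := df_xe (i := i) hi hg
  rw [h] at h1
  have h2 : df c v i g 0 = 0 := by
    unfold df nv
    simp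
  rw [h2, if_pos rfl, if_neg (fun h => hgi (by simp [h]))] at h1
  exact absurd h1 (by decide)

theorem xe_inj {v : ℕ} (hd : 3 ≤ degree c v) {i j : Edge c} (hi : Inc c v i)
    (h : xe c v i = xe c v j) : i = j := by
  by_contra hij
  obtain ⟨g, hg, hgi⟩ := exists_other (v := v) [i, j] (by simp only [List.length_cons, List.length_nil]; omega)
  have h1 := df_xe (i := i) hi hg
  have h2 := df_xe (i := j) hi hg
  have hgi' : i ≠ g := fun h => hgi (by simp [h])
  have hgj' : j ≠ g := fun h => hgi (by simp [h])
  rw [h, h2, if_pos rfl, if_neg hgi', if_neg hgj', if_neg (Ne.symm hij)] at h1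
  exact absurd h1 (by decide)

theorem xe_light {v : ℕ} (hd : 4 ≤ degree c v) {i j k : Edge c} (hi : Inc c v i)
    (hj : Inc c v j) (hk : Inc c v k) : xe c v i + xe c v j ≠ xe c v k := by
  intro h
  obtain ⟨g, hg, hgi⟩ := exists_other (v := v) [i, j, k] (by simp only [List.length_cons, List.length_nil]; omega)
  have hgi' : i ≠ g := fun h => hgi (by simp [h])
  have hgj' : j ≠ g := fun h => hgi (by simp [h])
  have hgk' : k ≠ g := fun h => hgi (by simp [h])
  have key : ∀ f, Inc c v f → (if i = f then (1 : ZMod 2) else 0) + (if j = f then 1 else 0) =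
      if k = f then 1 else 0 := by
    intro f hf
    have h1 := df_xe (i := i) hf hg
    have h2 := df_xe (i := j) hf hg
    have h3 := df_xe (i := k) hf hg
    rw [if_neg hgi', add_zero] at h1
    rw [if_neg hgj', add_zero] at h2
    rw [if_neg hgk', add_zero] at h3
    rw [← h1, ← h2, ← h3, ← df_add, h]
  have h1 := key i hi
  have h2 := key j hj
  have h3 := key k hk
  by_cases hij : i = j
  · subst hij
    rw [if_pos rfl] at h3
    by_cases hik : i = k
    · subst hik
      rw [if_pos rfl] at h3
      exact absurd h3 (by decide)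
    · rw [if_neg hik] at h3
      exact absurd h3 (by decide)
  · rw [if_pos rfl, if_neg (Ne.symm hij)] at h1
    rw [if_neg hij, if_pos rfl] at h2
    by_cases hki : k = i
    · subst hki
      rw [if_neg hij] at h2
      exact absurd h2 (by decide)
    · rw [if_neg hki] at h1
      exact absurd h1 (by decide)

variable (hV : Valid c) (hT : Thin c)

include hV hT in
theorem deg3 {v : ℕ} {i : Edge c} (h : Inc c v i) : 3 ≤ degree c v := hT.degree3 v (inc_lt hV h)

include hT in
theorem light_deg {v u w z : ℕ} (hu : Adj c v u) (hw : Adj c v w) (hz : Adj c v z)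
    (h : gx c v u * gx c v w = gx c v z) : ¬ 4 ≤ degree c v := by
  intro hd
  obtain ⟨h1, i, hi1, hi2⟩ := hu
  obtain ⟨h2, j, hj1, hj2⟩ := hw
  obtain ⟨h3, k, hk1, hk2⟩ := hz
  rw [gx_eq hT.simple h1 hi1 hi2, gx_eq hT.simple h2 hj1 hj2, gx_eq hT.simple h3 hk1 hk2,
    ← ofAdd_add] at h
  exact xe_light hd hi1 hj1 hk1 (Multiplicative.ofAdd.injective h)

/-- the system of glued groups of a thin graph -/
noncomputable def mixOf : Mix ℕ (BB c) where
  adj := Adj c
  x := gx c
  τ := gt c
  symm := Adj.symm
  irr := fun v h => h.1 rfl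
  tri := fun {u v w} h1 h2 h3 => hT.no3 u v w h1 h2 h3.symm
  τs := gt_symm
  sq := by
    rintro u v ⟨h1, i, hi1, hi2⟩
    rw [gx_eq hT.simple h1 hi1 hi2, ← ofAdd_add, add_self_fun]
    rfl
  ne := by
    rintro u v ⟨h1, i, hi1, hi2⟩
    rw [gx_eq hT.simple h1 hi1 hi2]
    intro h
    exact xe_ne (deg3 hV hT hi1) hi1 (Multiplicative.ofAdd.injective h)
  inj := by
    rintro u v w ⟨h1, i, hi1, hi2⟩ ⟨h2, j, hj1, hj2⟩ h
    rw [gx_eq hT.simple h1 hi1 hi2, gx_eq hT.simple h2 hj1 hj2] at h
    have hij := xe_inj (deg3 hV hT hi1) hi1 (Multiplicative.ofAdd.injective h)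
    subst hij
    rcases hi2 with hi2 | hi2 <;> rcases hj2 with hj2 | hj2
    · rw [← hi2, hj2]
    · rcases hi1 with hi1 | hi1
      · exact absurd (hi1.symm.trans hi2) h1
      · exact absurd (hi1.symm.trans hj2) h2
    · rcases hi1 with hi1 | hi1
      · exact absurd (hi1.symm.trans hj2) h2
      · exact absurd (hi1.symm.trans hi2) h1
    · rw [← hi2, hj2]
  c4 := by
    rintro v a b d h1 h2 h3 h4 h5 h6 ⟨u, w, z, hu, hw, hz, h⟩
    exact light_deg hT hu hw hz h (hT.cyc4 v a b d h1 h2 h3 h4 h5 h6)
  c5 := by
    rintro a b d e f h1 h2 h3 h4 h5 ⟨u, w, z, hu, hw, hz, h⟩ ⟨u', w', z', hu', hw', hz', h'⟩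
    rcases hT.cyc5 a b d e f h1 h2 h3 h4 h5 with h6 | h6
    · exact light_deg hT hu hw hz h h6
    · exact light_deg hT hu' hw' hz' h' h6

variable (c) in
/-- words for the elements of the local groups -/
def rep1 (v : ℕ) (a : BB c) : List (Edge c) :=
  (star c v).filter fun f => e0 c v ≠ some f ∧ Multiplicative.toAdd a f ≠ 0

theorem mem_rep1 {v : ℕ} {a : BB c} {f : Edge c} : f ∈ rep1 c v a ↔
    Inc c v f ∧ e0 c v ≠ some f ∧ Multiplicative.toAdd a f ≠ 0 := by
  unfold rep1
  rw [List.mem_filter, mem_star]
  simp

theorem rep1_nodup (v : ℕ) (a : BB c) : (rep1 c v a).Nodup := (star_nodup c v).filter _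

theorem star_len (v : ℕ) : (star c v).length ≤ c.2.1.length := by
  unfold star
  refine (List.length_filter_le _ _).trans ?_
  simp

theorem rep1_len (v : ℕ) (a : BB c) : (rep1 c v a).length ≤ c.2.1.length :=
  (List.length_filter_le _ _).trans (star_len v)

theorem count_nodup {l : List (Edge c)} (h : l.Nodup) (f : Edge c) :
    l.count f = if f ∈ l then 1 else 0 := by
  by_cases hf : f ∈ l
  · rw [if_pos hf, List.count_eq_one_of_mem h hf]
  · rw [if_neg hf, List.count_eq_zero_of_not_mem hf]

theorem rep1_mul (v : ℕ) (a b : BB c) :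
    D c (2 * c.2.1.length) 0 (rep1 c v a ++ rep1 c v b) (rep1 c v (a * b)) := by
  have h1 := D.pr (v := v) (rep1 c v a ++ rep1 c v b) (by
    intro e he
    rcases List.mem_append.1 he with h | h
    · exact (mem_rep1.1 h).1
    · exact (mem_rep1.1 h).1)
  have h2 : pr c v (rep1 c v a ++ rep1 c v b) = rep1 c v (a * b) := by
    unfold pr rep1
    apply List.filter_congr
    intro f hf
    have hf' : Inc c v f := mem_star.1 hf
    rw [← rep1, ← rep1, List.count_append, count_nodup (rep1_nodup v a),
      count_nodup (rep1_nodup v b)]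
    simp only [mem_rep1, toAdd_mul, Pi.add_apply]
    rw [decide_eq_decide]
    by_cases he : e0 c v = some f
    · simp [he]
    · have h2 : (1 : ZMod 2) + 1 = 0 := rfl
      have hz : ∀ x : ZMod 2, x = 0 ∨ x = 1 := by decide
      rcases hz (Multiplicative.toAdd a f) with hx | hx <;>
        rcases hz (Multiplicative.toAdd b f) with hy | hy <;>
        rw [hx, hy] <;> simp [he, hf', h2]
  rw [h2] at h1
  refine h1.mono ?_
  rw [List.length_append]
  have := rep1_len v a
  have := rep1_len v b
  omega

include hV in
theorem rep1_el {v : ℕ} {i : Edge c} (h : Inc c v i) :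
    D c (2 * c.2.1.length + 2) (sn1 c v i) [i] (rep1 c v (Multiplicative.ofAdd (xe c v i))) := by
  unfold sn1
  by_cases hi : e0 c v = some i
  · rw [if_pos hi]
    have h1 := (D.ts (inc_lt hV h)).ctx [i] [] (N' := 2 * c.2.1.length + 2) (by
      have := star_len (c := c) v
      simp only [List.length_cons, List.length_nil]
      omega)
    have h2 := D.pr (v := v) ([i] ++ star c v) (by
      intro e he
      rcases List.mem_append.1 he with h' | h'
      · rw [List.mem_singleton] at h'
        rw [h']
        exact h
      · exact mem_star.1 h')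
    have h3 : pr c v ([i] ++ star c v) = rep1 c v (Multiplicative.ofAdd (xe c v i)) := by
      unfold pr rep1
      apply List.filter_congr
      intro f hf
      rw [List.count_append, count_nodup (star_nodup c v)]
      simp only [toAdd_ofAdd, xe]
      by_cases hif : i = f
      · subst hif
        simp [hi, hf]
      · have hne : ¬ (e0 c v = some f) := by
          intro h'
          rw [hi] at h'
          exact hif (Option.some.inj h')
        simp [hi, hf, mem_star.1 hf, hif]
    rw [h3] at h2
    simp only [List.append_nil] at h1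
    have h4 := h1.trans (h2.mono (N' := 2 * c.2.1.length + 2) (by
      have := star_len (c := c) v
      simp only [List.length_append, List.length_cons, List.length_nil]
      omega))
    rwa [add_zero] at h4
  · rw [if_neg hi]
    refine (D.perm (v := v) ?_ ?_).mono ?_
    · refine (List.perm_ext_iff_of_nodup (List.nodup_singleton i) (rep1_nodup v _)).2 ?_
      intro f
      rw [mem_rep1, List.mem_singleton]
      simp only [toAdd_ofAdd, xe, if_neg hi]
      constructor
      · rintro rfl
        exact ⟨h, hi, by simp⟩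
      · rintro ⟨_, _, h3⟩
        by_contra h4
        exact h3 (if_neg (Ne.symm h4))
    · intro e he
      rw [List.mem_singleton] at he
      rw [he]
      exact h
    · simp

theorem sum_single_list (l : List (Edge c)) (hl : l.Nodup) (v : ℕ)
    (h : ∀ i ∈ l, e0 c v ≠ some i) (f : Edge c) :
    Multiplicative.toAdd ((l.map fun i => Multiplicative.ofAdd (xe c v i)).prod) f =
      if f ∈ l then 1 else 0 := by
  induction l with
  | nil => simp
  | cons i l ih =>
    rw [List.nodup_cons] at hl
    rw [List.map_cons, List.prod_cons, toAdd_mul, Pi.add_apply, toAdd_ofAdd,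
      ih hl.2 (fun j hj => h j (List.mem_cons_of_mem _ hj))]
    unfold xe
    rw [if_neg (h i (by simp))]
    by_cases hif : i = f
    · subst hif
      simp [hl.1]
    · have : f ≠ i := Ne.symm hif
      simp [hif, this]

include hT in
theorem el_prod1 {v : ℕ} (hv : v < c.1) :
    ((star c v).map fun i => (Multiplicative.ofAdd (xe c v i) : BB c)).prod = 1 ∧
      ((star c v).map (sn1 c v)).sum = (colour c v : ZMod 2) := by
  have hd := hT.degree3 v hv
  unfold degree at hd
  cases hst : star c v with
  | nil =>
    rw [hst] at hd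
    simp at hd
  | cons i l =>
    have hnd := star_nodup c v
    rw [hst, List.nodup_cons] at hnd
    have he : e0 c v = some i := by
      unfold e0
      rw [hst]
      rfl
    have hl : ∀ j ∈ l, e0 c v ≠ some j := by
      intro j hj h
      rw [he] at h
      exact hnd.1 ((Option.some.inj h) ▸ hj)
    constructor
    · rw [List.map_cons, List.prod_cons]
      apply Multiplicative.toAdd.injective
      funext f
      rw [toAdd_mul, Pi.add_apply, toAdd_ofAdd, sum_single_list l hnd.2 v hl f]
      unfold xe
      rw [if_pos he, he]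
      have hf : Inc c v f ↔ f = i ∨ f ∈ l := by
        rw [← mem_star, hst, List.mem_cons]
      by_cases h1 : f ∈ l
      · have h2 : ¬ (some i = some f) := by
          intro h
          exact hnd.1 ((Option.some.inj h) ▸ h1)
        rw [if_pos h1, if_pos ⟨hf.2 (Or.inr h1), h2⟩]
        rfl
      · rw [if_neg h1, if_neg]
        · rfl
        · rintro ⟨h2, h3⟩
          rcases hf.1 h2 with h4 | h4
          · exact h3 (by rw [h4])
          · exact h1 h4
    · rw [List.map_cons, List.sum_cons]
      have h1 : (l.map (sn1 c v)).sum = 0 := by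
        apply List.sum_eq_zero
        intro x hx
        rw [List.mem_map] at hx
        obtain ⟨j, hj, rfl⟩ := hx
        unfold sn1
        rw [if_neg (hl j hj)]
      rw [h1, add_zero]
      unfold sn1
      rw [if_pos he]

/-- the realisation of a thin graph -/
noncomputable def realOf : Real c (mixOf hV hT) where
  nm := { nrm := fun _ => 0, loc := fun _ => ⊤, κ := 0, mul := fun _ _ => le_rfl,
          x := fun _ => ⟨le_rfl, Subgroup.mem_top _⟩ }
  cl := id
  el v i := Multiplicative.ofAdd (xe c v i)
  sn := sn1 c
  rep := rep1 c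
  A _ := 2 * c.2.1.length + 2
  el_sq := by
    intro v i _
    rw [← ofAdd_add, add_self_fun]
    rfl
  el_comm := fun _ _ => mul_comm _ _
  el_prod v hv := (el_prod1 hT hv).1
  sn_sum v hv := (el_prod1 hT hv).2
  edge := by
    intro u v i hu hv huv
    exact ⟨⟨huv, i, hu, hv⟩, gx_eq hT.simple huv hu hv, gt_eq hT.simple huv hu hv⟩
  adjE := by
    rintro P Q ⟨_, i, h1, h2⟩
    exact ⟨P, Q, i, h1, h2, rfl, rfl⟩
  el_nm := fun _ => ⟨le_rfl, Subgroup.mem_top _⟩
  A_mono := fun _ _ _ => le_rfl
  rep_one v := by
    unfold rep1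
    simp
  rep_len := by
    intro v a _
    have := rep1_len v a
    omega
  rep_mul := by
    intro v a b _ _
    exact (rep1_mul v a b).mono (by omega)
  rep_el := by
    intro v i h
    exact rep1_el hV h

end Pool.Agent.Helper2GI
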