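import Mathlib
import Pool.Agent.Helper2GI.One

/-!
Darts, rotation systems and regions.
-/

set_option autoImplicit false

namespace Pool.Agent.Helper2GI

/-- Darts: an edge together with one of its two ends. -/
abbrev Dart (c : Code) := Edge c × Bool

/-- The vertex at which a dart starts. -/
def tl {c : Code} (d : Dart c) : ℕ := if d.2 then (c.2.1.get d.1).2 else (c.2.1.get d.1).1

/-- The opposite dart. -/
def op {c : Code} (d : Dart c) : Dart c := (d.1, !d.2)

/-- A rotation system: a permutation of the darts whose orbits are the sets of the darts starting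
at the same vertex. -/
structure Rotation (c : Code) (σ : Equiv.Perm (Dart c)) : Prop where
  tl_eq : ∀ d, tl (σ d) = tl d
  cyc : ∀ d d', tl d = tl d' → σ.SameCycle d d'

/-- Both ends of the dart are in the same cluster. -/
def inn {c : Code} (cl : ℕ → ℕ) (d : Dart c) : Prop := cl (tl d) = cl (tl (op d))

/-- Corners (the corner between `d` and `σ d` is denoted by `d`) are identified along the edges
inside the clusters. -/
def Side {c : Code} (σ : Equiv.Perm (Dart c)) (cl : ℕ → ℕ) (d d' : Dart c) : Prop :=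
  inn cl (σ d) ∧ d' = op (σ d)

/-- The regions: classes of corners. -/
def Rg (c : Code) (σ : Equiv.Perm (Dart c)) (cl : ℕ → ℕ) : Type := Quot (Side (c := c) σ cl)

variable {c : Code}

theorem pinv1 {X : Type} (σ : Equiv.Perm X) (x : X) : σ (σ⁻¹ x) = x := σ.apply_symm_apply x

theorem pinv2 {X : Type} (σ : Equiv.Perm X) (x : X) : σ⁻¹ (σ x) = x := σ.symm_apply_apply x

theorem op_op (d : Dart c) : op (op d) = d := by
  unfold op
  simp

theorem op_fst (d : Dart c) : (op d).1 = d.1 := rfl

theorem inc_tl (d : Dart c) : Inc c (tl d) d.1 := by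
  unfold tl Inc
  split_ifs
  · exact Or.inr rfl
  · exact Or.inl rfl

theorem tl_op_ne (hV : Valid c) (d : Dart c) : tl (op d) ≠ tl d := by
  have h := (hV (c.2.1.get d.1) (List.get_mem _ _)).2.2
  obtain ⟨i, b⟩ := d
  cases b
  · exact h.symm
  · exact h

theorem inc_cases {v : ℕ} {i : Edge c} (h : Inc c v i) : ∃ d : Dart c, d.1 = i ∧ tl d = v := by
  rcases h with h | h
  · exact ⟨(i, false), rfl, h⟩
  · exact ⟨(i, true), rfl, h⟩

/-- two darts of the same edge -/
theorem same_edge {d e : Dart c} (h : d.1 = e.1) : d = e ∨ d = op e := by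
  obtain ⟨i, b⟩ := d
  obtain ⟨j, b'⟩ := e
  simp only at h
  subst h
  cases b <;> cases b' <;> simp [op]

theorem dart_unique (hV : Valid c) {d e : Dart c} (h : d.1 = e.1) (h2 : tl d = tl e) : d = e := by
  rcases same_edge h with h3 | h3
  · exact h3
  · rw [h3] at h2
    exact absurd h2 (tl_op_ne hV e)

theorem tl_of_inc {v : ℕ} {d : Dart c} (h : Inc c v d.1) : v = tl d ∨ v = tl (op d) := by
  obtain ⟨e, h1, h2⟩ := inc_cases h
  rcases same_edge h1 with h3 | h3
  · left; rw [← h2, h3]
  · right; rw [← h2, h3]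

section Orbit

variable {σ : Equiv.Perm (Dart c)} (hσ : Rotation c σ)

/-- the period of a dart -/
noncomputable def per (σ : Equiv.Perm (Dart c)) (e : Dart c) : ℕ := Function.minimalPeriod σ e

theorem per_pos (e : Dart c) : 0 < per σ e :=
  Function.minimalPeriod_pos_of_mem_periodicPts (σ.injective.mem_periodicPts e)

theorem per_eq (e : Dart c) : σ^[per σ e] e = e := Function.isPeriodicPt_minimalPeriod σ e

theorem per_last (e : Dart c) : σ^[per σ e - 1] e = σ⁻¹ e := by
  have h1 := per_eq (σ := σ) e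
  have h2 := per_pos (σ := σ) e
  obtain ⟨k, hk⟩ : ∃ k, per σ e = k + 1 := ⟨per σ e - 1, by omega⟩
  rw [hk] at h1 ⊢
  rw [Function.iterate_succ_apply'] at h1
  rw [Nat.add_sub_cancel]
  rw [Equiv.Perm.eq_inv_iff_eq]
  exact h1

theorem iter_ne {e : Dart c} {n : ℕ} (h1 : 0 < n) (h2 : n < per σ e) : σ^[n] e ≠ e := by
  intro h
  exact Function.not_isPeriodicPt_of_pos_of_lt_minimalPeriod (by omega) h2 h

theorem iter_inj {e : Dart c} {m n : ℕ} (hm : m < per σ e) (hn : n < per σ e)
    (h : σ^[m] e = σ^[n] e) : m = n := by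
  have key : ∀ {a b : ℕ}, a < b → b < per σ e → σ^[a] e = σ^[b] e → False := by
    intro a b hab hb h
    have h1 : σ^[b] e = σ^[a] (σ^[b - a] e) := by
      rw [← Function.iterate_add_apply]
      congr 1
      omega
    rw [h1] at h
    have h2 := (σ.injective.iterate a) h
    exact iter_ne (by omega) (by omega) h2.symm
  rcases Nat.lt_trichotomy m n with h1 | h1 | h1
  · exact (key h1 hn h).elim
  · exact h1
  · exact (key h1 hm h.symm).elim

include hσ in
theorem tl_iter (e : Dart c) (n : ℕ) : tl (σ^[n] e) = tl e := by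
  induction n with
  | zero => rfl
  | succ n ih => rw [Function.iterate_succ_apply', hσ.tl_eq, ih]

include hσ in
theorem tl_inv (e : Dart c) : tl (σ⁻¹ e) = tl e := by
  have := hσ.tl_eq (σ⁻¹ e)
  rw [pinv1] at this
  exact this.symm

include hσ in
theorem exists_iter {e d : Dart c} (h : tl d = tl e) : ∃ n < per σ e, σ^[n] e = d := by
  obtain ⟨k, hk⟩ := (hσ.cyc e d h.symm)
  have key : ∀ z : ℤ, ∃ n < per σ e, σ^[n] e = (σ ^ z) e := by
    have hp := per_pos (σ := σ) e
    intro z
    induction z using Int.induction_on with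
    | zero => exact ⟨0, hp, by simp⟩
    | succ z ih =>
      obtain ⟨n, hn, h1⟩ := ih
      have h2 : (σ ^ ((z : ℤ) + 1)) e = σ^[n + 1] e := by
        rw [add_comm, zpow_add, zpow_one, Equiv.Perm.mul_apply, ← h1,
          Function.iterate_succ_apply']
      rw [h2]
      rcases Nat.lt_or_ge (n + 1) (per σ e) with h3 | h3
      · exact ⟨n + 1, h3, rfl⟩
      · have h4 : n + 1 = per σ e := by omega
        exact ⟨0, hp, by rw [h4, per_eq]; rfl⟩
    | pred z ih =>
      obtain ⟨n, hn, h1⟩ := ih
      have h2 : (σ ^ (-(z : ℤ) - 1)) e = σ⁻¹ (σ^[n] e) := by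
        rw [sub_eq_add_neg, add_comm, zpow_add, zpow_neg_one, Equiv.Perm.mul_apply, ← h1]
      rw [h2]
      cases n with
      | zero =>
        refine ⟨per σ e - 1, by omega, ?_⟩
        rw [per_last]
        rfl
      | succ n =>
        refine ⟨n, by omega, ?_⟩
        rw [Function.iterate_succ_apply', pinv2]
  obtain ⟨n, hn, h1⟩ := key k
  exact ⟨n, hn, h1.trans hk⟩

/-- the edges passed when turning `n` times -/
def orb (σ : Equiv.Perm (Dart c)) (e : Dart c) (n : ℕ) : List (Edge c) :=
  (List.range n).map fun j => (σ^[j + 1] e).1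

theorem orb_succ (e : Dart c) (n : ℕ) : orb σ e (n + 1) = orb σ e n ++ [(σ^[n + 1] e).1] := by
  unfold orb
  rw [List.range_succ, List.map_append, List.map_singleton]

theorem orb_len (e : Dart c) (n : ℕ) : (orb σ e n).length = n := by
  unfold orb
  simp

include hσ in
theorem orb_inc (e : Dart c) (n : ℕ) : ∀ i ∈ orb σ e n, Inc c (tl e) i := by
  intro i hi
  unfold orb at hi
  rw [List.mem_map] at hi
  obtain ⟨j, _, rfl⟩ := hi
  have := inc_tl (σ^[j + 1] e)
  rwa [tl_iter hσ] at this

include hσ in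
theorem orb_perm (hV : Valid c) (e : Dart c) :
    (e.1 :: orb σ e (per σ e - 1)).Perm (star c (tl e)) := by
  have hp := per_pos (σ := σ) e
  have h0 : e.1 :: orb σ e (per σ e - 1) = (List.range (per σ e)).map fun j => (σ^[j] e).1 := by
    obtain ⟨k, hk⟩ : ∃ k, per σ e = k + 1 := ⟨per σ e - 1, by omega⟩
    rw [hk, List.range_succ_eq_map, List.map_cons, Nat.add_sub_cancel]
    unfold orb
    rw [List.map_map]
    rfl
  rw [h0]
  refine (List.perm_ext_iff_of_nodup ?_ (star_nodup c _)).2 ?_
  · refine List.Nodup.map_on ?_ (List.nodup_range)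
    intro m hm n hn h
    rw [List.mem_range] at hm hn
    refine iter_inj hm hn (dart_unique hV h ?_)
    rw [tl_iter hσ, tl_iter hσ]
  · intro i
    rw [List.mem_map, mem_star]
    constructor
    · rintro ⟨j, _, rfl⟩
      have := inc_tl (σ^[j] e)
      rwa [tl_iter hσ] at this
    · intro h
      obtain ⟨d, hd1, hd2⟩ := inc_cases h
      obtain ⟨n, hn, h2⟩ := exists_iter hσ hd2
      exact ⟨n, List.mem_range.2 hn, by rw [h2, hd1]⟩

include hσ in
theorem per_le (hV : Valid c) (e : Dart c) : per σ e ≤ c.2.1.length := by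
  have h1 := (orb_perm hσ hV e).length_eq
  rw [List.length_cons, orb_len] at h1
  have h2 := star_len (c := c) (tl e)
  have h3 := per_pos (σ := σ) e
  omega

end Orbit

section Regions

variable {σ : Equiv.Perm (Dart c)} {cl : ℕ → ℕ}

/-- the region at a corner -/
def reg (σ : Equiv.Perm (Dart c)) (cl : ℕ → ℕ) (d : Dart c) : Rg c σ cl := Quot.mk _ d

theorem reg_surj (f : Rg c σ cl) : ∃ d, reg σ cl d = f := Quot.exists_rep f

theorem reg_op {e : Dart c} (h : inn cl e) : reg σ cl (op e) = reg σ cl (σ⁻¹ e) := by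
  have h1 : Side (c := c) σ cl (σ⁻¹ e) (op e) := by
    refine ⟨?_, ?_⟩
    · rw [pinv1]
      exact h
    · rw [pinv1]
  exact (Quot.sound h1).symm

theorem inn_op {e : Dart c} (h : inn cl e) : inn cl (op e) := by
  unfold inn at h ⊢
  rw [op_op]
  exact h.symm

theorem reg_op' {e : Dart c} (h : inn cl e) : reg σ cl (σ⁻¹ (op e)) = reg σ cl e := by
  have := reg_op (σ := σ) (inn_op h)
  rw [op_op] at this
  exact this.symm

/-- Two elements of a quotient are equal or related. -/
theorem rg_ind {P : Rg c σ cl → Prop} (h : ∀ d, P (reg σ cl d)) (f : Rg c σ cl) : P f := by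
  obtain ⟨d, rfl⟩ := reg_surj f
  exact h d

/-- The cluster of a region. -/
def rcl (hσ : Rotation c σ) : Rg c σ cl → ℕ :=
  Quot.lift (fun d => cl (tl d)) (by
    rintro d d' ⟨h1, rfl⟩
    unfold inn at h1
    rw [hσ.tl_eq] at h1
    exact h1)

theorem rcl_reg (hσ : Rotation c σ) (d : Dart c) : rcl (cl := cl) hσ (reg σ cl d) = cl (tl d) := rfl

noncomputable instance : Finite (Rg c σ cl) := by
  unfold Rg
  infer_instance

end Regions

/-- **Peeling.**  `pe v` is an edge at `v` leading to a lower vertex or out of `U`. -/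
theorem peel_ind {U : ℕ → Prop} {dp : ℕ → ℕ} {pe : ℕ → Edge c → Prop}
    (low : ∀ {v w i}, U v → U w → pe v i → Inc c w i → w ≠ v → dp w < dp v)
    (n : ℕ) (hn : ∀ v, U v → dp v < n) (P : ℕ → Edge c → Prop)
    (mono : ∀ k i, P k i → P (k + 1) i)
    (h1 : ∀ i, (∃ v, U v ∧ Inc c v i) → (¬ ∃ v, U v ∧ pe v i) → P 0 i)
    (h2 : ∀ k v i, U v → pe v i → (∀ j, j ≠ i → Inc c v j → P k j) → P (k + 1) i)
    (uniq : ∀ {v i j}, U v → pe v i → pe v j → i = j) :
    ∀ i, (∃ v, U v ∧ Inc c v i) → P n i := by
  have mono' : ∀ k i, P 0 i → P k i := by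
    intro k i h
    induction k with
    | zero => exact h
    | succ k ih => exact mono k i ih
  have key : ∀ k, ∀ v, U v → n ≤ dp v + k → ∀ i, pe v i → P k i := by
    intro k
    induction k with
    | zero =>
      intro v hv h i _
      have := hn v hv
      omega
    | succ k ih =>
      intro v hv h i hi
      refine h2 k v i hv hi ?_
      intro j hj hvj
      by_cases hT : ∃ w, U w ∧ pe w j
      · obtain ⟨w, hw, hwj⟩ := hT
        have hwv : v ≠ w := by
          rintro rfl
          exact hj (uniq hv hwj hi)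
        have := low hw hv hwj hvj hwv
        exact ih w hw (by omega) j hwj
      · exact mono' k j (h1 j ⟨v, hv, hvj⟩ hT)
  intro i hi
  by_cases hT : ∃ w, U w ∧ pe w i
  · obtain ⟨w, hw, hwi⟩ := hT
    exact key n w hw (by omega) i hwi
  · exact mono' n i (h1 i hi hT)

end Pool.Agent.Helper2GI
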