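import Mathlib

/-!
Rooted spanning trees of finite connected graphs with labelled edges.
-/

set_option autoImplicit false

namespace Pool.Agent.Helper2GI

/-- reachability in `n` steps -/
def ReachIn {X : Type} (r : X → X → Prop) (a : X) : ℕ → X → Prop
  | 0, x => x = a
  | n + 1, x => ∃ y, ReachIn r a n y ∧ r y x

theorem reachIn_of {X : Type} {r : X → X → Prop} {a x : X} (h : Relation.ReflTransGen r a x) :
    ∃ n, ReachIn r a n x := by
  induction h with
  | refl => exact ⟨0, rfl⟩
  | tail _ h2 ih =>
    obtain ⟨n, hn⟩ := ih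
    exact ⟨n + 1, _, hn, h2⟩

open Classical in
theorem exists_tree {X Z : Type} [Finite X] (Con : Z → X → X → Prop) (r : X)
    (h : ∀ x, Relation.ReflTransGen (fun a b => ∃ z, Con z a b) r x) :
    ∃ dp : X → ℕ, (∀ x, x ≠ r → ∃ y z, Con z y x ∧ dp x = dp y + 1) ∧
      ∀ x, dp x < Nat.card X := by
  set R : X → X → Prop := fun a b => ∃ z, Con z a b with hR
  have hex : ∀ x, ∃ n, ReachIn R r n x := fun x => reachIn_of (h x)
  let dp : X → ℕ := fun x => Nat.find (hex x)
  have hdp : ∀ x, ReachIn R r (dp x) x := fun x => Nat.find_spec (hex x)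
  have hmin : ∀ x n, ReachIn R r n x → dp x ≤ n := fun x n hn => Nat.find_min' (hex x) hn
  have hstep : ∀ x m, dp x = m + 1 → ∃ y z, Con z y x ∧ dp y = m := by
    intro x m hm
    have h1 := hdp x
    rw [hm] at h1
    obtain ⟨y, h2, z, h3⟩ := h1
    refine ⟨y, z, h3, ?_⟩
    have h4 := hmin y m h2
    have h5 := hmin x (dp y + 1) ⟨y, hdp y, z, h3⟩
    omega
  have hlev : ∀ m x, dp x = m → ∀ k ≤ m, ∃ y, dp y = k := by
    intro m
    induction m with
    | zero =>
      intro x hx k hk
      exact ⟨x, by omega⟩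
    | succ m ih =>
      intro x hx k hk
      rcases Nat.lt_or_ge k (m + 1) with h1 | h1
      · obtain ⟨y, _, _, hy⟩ := hstep x m hx
        exact ih y hy k (by omega)
      · exact ⟨x, by omega⟩
  refine ⟨dp, ?_, ?_⟩
  · intro x hx
    cases hd : dp x with
    | zero =>
      exfalso
      have h1 := hdp x
      rw [hd] at h1
      exact hx h1
    | succ m =>
      obtain ⟨y, z, h1, h2⟩ := hstep x m hd
      exact ⟨y, z, h1, by rw [h2]⟩
  · intro x
    have : Fintype X := Fintype.ofFinite X
    rw [Nat.card_eq_fintype_card]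
    have h1 : Finset.range (dp x + 1) ⊆ Finset.univ.image dp := by
      intro k hk
      rw [Finset.mem_range] at hk
      obtain ⟨y, hy⟩ := hlev _ x rfl k (by omega)
      rw [Finset.mem_image]
      exact ⟨y, Finset.mem_univ _, hy⟩
    have h2 := (Finset.card_le_card h1).trans Finset.card_image_le
    rw [Finset.card_range, Finset.card_univ] at h2
    omega

end Pool.Agent.Helper2GI
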