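import Mathlib
import Pool.Agent.Helper2GI.Rot
import Pool.Agent.Helper2GI.Tree

/-!
The dual spanning tree of a planar piece.
-/

set_option autoImplicit false

namespace Pool.Agent.Helper2GI

variable {c : Code} {σ : Equiv.Perm (Dart c)} {cl : ℕ → ℕ}

/-- data for peeling a cluster -/
structure Peel (c : Code) (cl : ℕ → ℕ) (U : ℕ) (dp : ℕ → ℕ) (pe : ℕ → Edge c → Prop) : Prop where
  inc : ∀ {v i}, cl v = U → pe v i → Inc c v i
  low : ∀ {v w i}, cl v = U → cl w = U → pe v i → Inc c w i → w ≠ v → dp w < dp v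
  uniq : ∀ {v i j}, cl v = U → pe v i → pe v j → i = j

/-- the edges used for peeling -/
def TE (cl : ℕ → ℕ) (U : ℕ) (pe : ℕ → Edge c → Prop) (i : Edge c) : Prop :=
  ∃ v, cl v = U ∧ pe v i

variable (σ cl) in
/-- regions joined across an edge which is not used for peeling -/
def Con (U : ℕ) (pe : ℕ → Edge c → Prop) (z : Edge c) (f f' : Rg c σ cl) : Prop :=
  ¬ TE cl U pe z ∧ ∃ e : Dart c, e.1 = z ∧ cl (tl e) = U ∧
    ((f = reg σ cl (σ⁻¹ e) ∧ f' = reg σ cl e) ∨ (f = reg σ cl e ∧ f' = reg σ cl (σ⁻¹ e)))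

theorem Con.symm {U : ℕ} {pe : ℕ → Edge c → Prop} {z : Edge c} {f f' : Rg c σ cl}
    (h : Con σ cl U pe z f f') : Con σ cl U pe z f' f := by
  obtain ⟨h1, e, h2, h3, h4⟩ := h
  exact ⟨h1, e, h2, h3, h4.symm.imp (fun h => ⟨h.2, h.1⟩) (fun h => ⟨h.2, h.1⟩)⟩

variable (σ cl) in
/-- the connectivity relation -/
def KK (U : ℕ) (pe : ℕ → Edge c → Prop) : Rg c σ cl → Rg c σ cl → Prop :=
  Relation.ReflTransGen fun f f' => ∃ z, Con σ cl U pe z f f'

theorem KK.symm {U : ℕ} {pe : ℕ → Edge c → Prop} {f f' : Rg c σ cl}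
    (h : KK σ cl U pe f f') : KK σ cl U pe f' f := by
  induction h with
  | refl => exact Relation.ReflTransGen.refl
  | tail _ h2 ih =>
    obtain ⟨z, hz⟩ := h2
    exact (Relation.ReflTransGen.single ⟨z, hz.symm⟩).trans ih

/-- turning around a vertex -/
theorem turn (hV : Valid c) (hσ : Rotation c σ) {K : Rg c σ cl → Rg c σ cl → Prop}
    (refl : ∀ f, K f f) (trans : ∀ {f g h}, K f g → K g h → K f h) (e : Dart c)
    (h : ∀ d : Dart c, tl d = tl e → d.1 ≠ e.1 → K (reg σ cl (σ⁻¹ d)) (reg σ cl d)) :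
    ∀ n < per σ e, K (reg σ cl e) (reg σ cl (σ^[n] e)) := by
  intro n
  induction n with
  | zero => exact fun _ => refl _
  | succ n ih =>
    intro hn
    refine trans (ih (by omega)) ?_
    have h1 := h (σ^[n + 1] e) (tl_iter hσ e _) (by
      intro h2
      have h3 := dart_unique hV h2 (tl_iter hσ e (n + 1))
      exact iter_ne (by omega) hn h3)
    have e1 : σ⁻¹ (σ^[n + 1] e) = σ^[n] e := by rw [Function.iterate_succ_apply', pinv2]
    rwa [e1] at h1

theorem cross (hV : Valid c) (hσ : Rotation c σ) {U : ℕ} {dp : ℕ → ℕ} {pe : ℕ → Edge c → Prop}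
    (hP : Peel c cl U dp pe) (n : ℕ) (hn : ∀ v, cl v = U → dp v < n) (e : Dart c)
    (he : cl (tl e) = U) : KK σ cl U pe (reg σ cl (σ⁻¹ e)) (reg σ cl e) := by
  have key := peel_ind (U := fun v => cl v = U) (dp := dp) (pe := pe) hP.low n hn
    (fun _ i => ∀ e : Dart c, e.1 = i → cl (tl e) = U →
      KK σ cl U pe (reg σ cl (σ⁻¹ e)) (reg σ cl e)) (fun _ _ h => h) ?_ ?_ hP.uniq
  · exact key e.1 ⟨tl e, he, inc_tl e⟩ e rfl he
  · intro i _ hT e he hU
    exact Relation.ReflTransGen.single ⟨i, hT, e, he, hU, Or.inl ⟨rfl, rfl⟩⟩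
  · intro k v i hv hvi hj
    have main : ∀ e : Dart c, e.1 = i → tl e = v →
        KK σ cl U pe (reg σ cl (σ⁻¹ e)) (reg σ cl e) := by
      intro e he hev
      have h1 := turn (cl := cl) hV hσ (K := KK σ cl U pe)
        (fun _ => Relation.ReflTransGen.refl) (fun h h' => h.trans h') e (by
        intro d hd1 hd2
        refine hj d.1 (by rw [← he]; exact hd2) ?_ d rfl ?_
        · have := inc_tl d
          rwa [hd1, hev] at this
        · rw [hd1, hev]
          exact hv) (per σ e - 1) (by have := per_pos (σ := σ) e; omega)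
      rw [per_last] at h1
      exact h1.symm
    intro e he hU
    by_cases hev : tl e = v
    · exact main e he hev
    · have h1 : Inc c v e.1 := by
        rw [he]
        exact hP.inc hv hvi
      have h2 : v = tl (op e) := by
        rcases tl_of_inc h1 with h | h
        · exact absurd h.symm hev
        · exact h
      have h3 := main (op e) (by rw [op_fst, he]) h2.symm
      have hin : inn cl e := by
        unfold inn
        rw [hU, ← h2, hv]
      rw [reg_op hin, reg_op' hin] at h3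
      exact h3.symm

/-- connectedness of a cluster -/
def Joined (c : Code) (cl : ℕ → ℕ) (U : ℕ) : Prop :=
  ∀ u v, u < c.1 → v < c.1 → cl u = U → cl v = U →
    Relation.ReflTransGen (fun a b => Adj c a b ∧ cl a = U ∧ cl b = U) u v

theorem tl_lt (hV : Valid c) (d : Dart c) : tl d < c.1 := inc_lt hV (inc_tl d)

theorem same_vertex (hV : Valid c) (hσ : Rotation c σ) {U : ℕ} {dp : ℕ → ℕ}
    {pe : ℕ → Edge c → Prop} (hP : Peel c cl U dp pe) (n : ℕ) (hn : ∀ v, cl v = U → dp v < n)
    {d e : Dart c} (hde : tl d = tl e) (he : cl (tl e) = U) :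
    KK σ cl U pe (reg σ cl e) (reg σ cl d) := by
  obtain ⟨m, hm, h1⟩ := exists_iter hσ hde
  rw [← h1]
  refine turn (cl := cl) hV hσ (K := KK σ cl U pe)
    (fun _ => Relation.ReflTransGen.refl) (fun h h' => h.trans h') e (fun d hd _ => ?_) m hm
  exact cross hV hσ hP n hn d (by rw [hd]; exact he)

theorem all_regions (hV : Valid c) (hσ : Rotation c σ) {U : ℕ} {dp : ℕ → ℕ}
    {pe : ℕ → Edge c → Prop} (hP : Peel c cl U dp pe) (n : ℕ) (hn : ∀ v, cl v = U → dp v < n)
    (hJ : Joined c cl U) {d e : Dart c} (hd : cl (tl d) = U) (he : cl (tl e) = U) :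
    KK σ cl U pe (reg σ cl e) (reg σ cl d) := by
  have h1 := hJ (tl e) (tl d) (tl_lt hV e) (tl_lt hV d) he hd
  have key : ∀ {a b : ℕ}, Relation.ReflTransGen (fun a b => Adj c a b ∧ cl a = U ∧ cl b = U) a b →
      ∀ d e : Dart c, tl e = a → tl d = b → cl a = U →
      KK σ cl U pe (reg σ cl e) (reg σ cl d) := by
    intro a b h
    induction h with
    | refl =>
      intro d e h1 h2 h3
      exact same_vertex hV hσ hP n hn (h2.trans h1.symm) (h1 ▸ h3)
    | @tail b b' _ h2 ih =>
      intro d e h3 h4 h5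
      obtain ⟨⟨hne, i, hi1, hi2⟩, hb, hb'⟩ := h2
      obtain ⟨x, hx1, hx2⟩ := inc_cases hi1
      obtain ⟨y, hy1, hy2⟩ := inc_cases hi2
      have hyx : y = op x := by
        rcases same_edge (hy1.trans hx1.symm) with h6 | h6
        · exfalso
          apply hne
          rw [← hx2, ← hy2, h6]
        · exact h6
      have hin : inn cl x := by
        unfold inn
        rw [← hyx, hx2, hy2, hb, hb']
      have h7 := ih (σ⁻¹ x) e h3 ((tl_inv hσ x).trans hx2) h5
      have h8 : reg σ cl y = reg σ cl (σ⁻¹ x) := by rw [hyx]; exact reg_op hin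
      rw [← h8] at h7
      have h9 := same_vertex (cl := cl) (pe := pe) hV hσ hP n hn (d := d) (e := y)
        (h4.trans hy2.symm) (by rw [hy2]; exact hb')
      exact h7.trans h9
  exact key h1 d e rfl rfl he

open Classical in
/-- **Dual tree.** -/
theorem exists_Y (hV : Valid c) (hσ : Rotation c σ) {U : ℕ} {dp : ℕ → ℕ}
    {pe : ℕ → Edge c → Prop} (hP : Peel c cl U dp pe) (n : ℕ) (hn : ∀ v, cl v = U → dp v < n)
    (hJ : Joined c cl U)
    (hcard : Nat.card {f : Rg c σ cl // rcl hσ f = U} + Nat.card {i : Edge c // TE cl U pe i} ≥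
      Nat.card {i : Edge c // ∃ v, cl v = U ∧ Inc c v i} + 1) :
    ∃ Y : Rg c σ cl → List (Edge c), (∀ f, (Y f).length ≤ 2 * c.2.1.length) ∧
      ∀ e : Dart c, cl (tl e) = U → ¬ TE cl U pe e.1 →
        Y (reg σ cl e) = Y (reg σ cl (σ⁻¹ e)) ++ [e.1] ∨
        Y (reg σ cl (σ⁻¹ e)) = Y (reg σ cl e) ++ [e.1] := by
  by_cases hemp : ∃ d : Dart c, cl (tl d) = U
  swap
  · exact ⟨fun _ => [], fun _ => by simp, fun e he => absurd ⟨e, he⟩ hemp⟩
  obtain ⟨d0, hd0⟩ := hemp
  let X := {f : Rg c σ cl // rcl hσ f = U}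
  let r : X := ⟨reg σ cl d0, hd0⟩
  let C : Edge c → X → X → Prop := fun z f f' => Con σ cl U pe z f.1 f'.1
  have hconn : ∀ x : X, Relation.ReflTransGen (fun a b => ∃ z, C z a b) r x := by
    rintro ⟨f, hf⟩
    obtain ⟨d, rfl⟩ := reg_surj f
    have h1 : KK σ cl U pe (reg σ cl d0) (reg σ cl d) := all_regions hV hσ hP n hn hJ hf hd0
    have key : ∀ {f : Rg c σ cl}, KK σ cl U pe (reg σ cl d0) f → ∀ hf : rcl hσ f = U,
        Relation.ReflTransGen (fun a b => ∃ z, C z a b) r ⟨f, hf⟩ := by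
      intro f h
      induction h with
      | refl => intro _; exact Relation.ReflTransGen.refl
      | @tail f f' _ h2 ih =>
        intro hf'
        obtain ⟨z, hz⟩ := h2
        have hf : rcl hσ f = U := by
          obtain ⟨_, e, _, he, h4⟩ := hz
          rcases h4 with ⟨h5, _⟩ | ⟨h5, _⟩
          · rw [h5, rcl_reg, tl_inv hσ]; exact he
          · rw [h5, rcl_reg]; exact he
        exact (ih hf).tail ⟨z, hz⟩
    exact key h1 hf
  obtain ⟨dpx, h1, h2⟩ := exists_tree C r hconn
  have hne : Nonempty (Edge c) := ⟨d0.1⟩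
  choose! par pz h3 h4 using h1
  -- the map to the edges which are not used for peeling
  let Z := {z : Edge c // (∃ v, cl v = U ∧ Inc c v z) ∧ ¬ TE cl U pe z}
  have hpair : ∀ {z : Edge c} {f f' g g' : Rg c σ cl}, Con σ cl U pe z f f' →
      Con σ cl U pe z g g' → (f = g ∧ f' = g') ∨ (f = g' ∧ f' = g) := by
    rintro z f f' g g' ⟨_, e, he, hU, h5⟩ ⟨_, e', he', hU', h6⟩
    have h7 : (reg σ cl e' = reg σ cl e ∧ reg σ cl (σ⁻¹ e') = reg σ cl (σ⁻¹ e)) ∨
        (reg σ cl e' = reg σ cl (σ⁻¹ e) ∧ reg σ cl (σ⁻¹ e') = reg σ cl e) := by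
      rcases same_edge (he'.trans he.symm) with h8 | h8
      · left; rw [h8]; exact ⟨rfl, rfl⟩
      · right
        have hin : inn cl e := by
          unfold inn
          rw [← h8, hU, hU']
        rw [h8]
        exact ⟨reg_op hin, reg_op' hin⟩
    rcases h5 with ⟨a1, a2⟩ | ⟨a1, a2⟩ <;> rcases h6 with ⟨b1, b2⟩ | ⟨b1, b2⟩ <;>
      rcases h7 with ⟨c1, c2⟩ | ⟨c1, c2⟩ <;> rw [a1, a2, b1, b2, c1, c2] <;> simp
  let F : {x : X // x ≠ r} → Z := fun x => ⟨pz x.1, by
    obtain ⟨h5, e, h6, h7, _⟩ := h3 x.1 x.2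
    exact ⟨⟨tl e, h7, by rw [← h6]; exact inc_tl e⟩, h5⟩⟩
  have hinj : Function.Injective F := by
    intro x y hxy
    have hz : pz x.1 = pz y.1 := congrArg Subtype.val hxy
    have h5 := h3 x.1 x.2
    have h6 := h3 y.1 y.2
    rw [hz] at h5
    rcases hpair h5 h6 with ⟨_, h7⟩ | ⟨h7, h8⟩
    · exact Subtype.ext (Subtype.ext h7)
    · exfalso
      have h9 : par x.1 = y.1 := Subtype.ext h7
      have h10 : x.1 = par y.1 := Subtype.ext h8
      have h11 := h4 x.1 x.2
      have h12 := h4 y.1 y.2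
      rw [h9] at h11
      rw [← h10] at h12
      omega
  have hcardX : Nat.card {x : X // x ≠ r} + 1 = Nat.card X := by
    have h5 : Fintype X := Fintype.ofFinite X
    rw [Nat.card_eq_fintype_card, Nat.card_eq_fintype_card]
    have := Fintype.card_subtype_compl (fun x : X => x = r)
    rw [Fintype.card_subtype_eq] at this
    have h6 : 0 < Fintype.card X := Fintype.card_pos_iff.2 ⟨r⟩
    have h7 : Fintype.card {x : X // x ≠ r} = Fintype.card {x : X // ¬ x = r} := rfl
    rw [h7, this]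
    omega
  have hcardZ : Nat.card Z + Nat.card {i : Edge c // TE cl U pe i} =
      Nat.card {i : Edge c // ∃ v, cl v = U ∧ Inc c v i} := by
    rw [Nat.card_eq_fintype_card, Nat.card_eq_fintype_card, Nat.card_eq_fintype_card,
      Fintype.card_subtype, Fintype.card_subtype, Fintype.card_subtype]
    rw [← Finset.card_union_of_disjoint]
    · congr 1
      ext i
      simp only [Finset.mem_union, Finset.mem_filter, Finset.mem_univ, true_and]
      constructor
      · rintro (h | h)
        · exact h.1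
        · obtain ⟨v, hv, hvi⟩ := h
          exact ⟨v, hv, hP.inc hv hvi⟩
      · intro h
        by_cases hT : TE cl U pe i
        · exact Or.inr hT
        · exact Or.inl ⟨h, hT⟩
    · rw [Finset.disjoint_filter]
      rintro i _ h1 h2
      exact h1.2 h2
  have hbij : Function.Bijective F := by
    refine hinj.bijective_of_nat_card_le ?_
    have : Nat.card X = Nat.card {f : Rg c σ cl // rcl hσ f = U} := rfl
    omega
  -- the words
  let Yn : ℕ → X → List (Edge c) := fun m => Nat.rec (fun _ => []) (fun _ g x =>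
    if x = r then [] else g (par x) ++ [pz x]) m
  have hY0 : ∀ x, Yn 0 x = [] := fun _ => rfl
  have hYs : ∀ m x, Yn (m + 1) x = if x = r then [] else Yn m (par x) ++ [pz x] := fun _ _ => rfl
  let YX : X → List (Edge c) := fun x => Yn (dpx x) x
  have hYX : ∀ x, x ≠ r → YX x = YX (par x) ++ [pz x] := by
    intro x hx
    show Yn (dpx x) x = Yn (dpx (par x)) (par x) ++ [pz x]
    rw [h4 x hx, hYs, if_neg hx]
  have hlen : ∀ m x, (Yn m x).length ≤ m := by
    intro m
    induction m with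
    | zero => intro x; rw [hY0]; simp
    | succ m ih =>
      intro x
      rw [hYs]
      split_ifs
      · simp
      · rw [List.length_append, List.length_singleton]
        have := ih (par x)
        omega
  have hbound : ∀ x, (YX x).length ≤ 2 * c.2.1.length := by
    intro x
    refine (hlen _ _).trans ?_
    have h5 := h2 x
    have h6 : Nat.card X ≤ Nat.card (Dart c) := by
      refine Nat.card_le_card_of_surjective
        (fun d : Dart c => if h : rcl hσ (reg σ cl d) = U then (⟨reg σ cl d, h⟩ : X) else r) ?_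
      rintro ⟨f, hf⟩
      obtain ⟨d, rfl⟩ := reg_surj f
      exact ⟨d, dif_pos hf⟩
    have h7 : Nat.card (Dart c) = c.2.1.length * 2 := by
      rw [Nat.card_eq_fintype_card, Fintype.card_prod, Fintype.card_fin, Fintype.card_bool]
    omega
  refine ⟨fun f => if h : rcl hσ f = U then YX ⟨f, h⟩ else [], ?_, ?_⟩
  · intro f
    simp only
    split_ifs with h
    · exact hbound _
    · simp
  · intro e he hT
    have h5 : rcl hσ (reg σ cl e) = U := he
    have h6 : rcl hσ (reg σ cl (σ⁻¹ e)) = U := by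
      rw [rcl_reg, tl_inv hσ]
      exact he
    simp only
    rw [dif_pos h5, dif_pos h6]
    obtain ⟨⟨x, hx⟩, hxF⟩ := hbij.2 ⟨e.1, ⟨tl e, he, inc_tl e⟩, hT⟩
    have hz : pz x = e.1 := congrArg Subtype.val hxF
    have h7 := h3 x hx
    rw [hz] at h7
    have h8 : Con σ cl U pe e.1 (reg σ cl (σ⁻¹ e)) (reg σ cl e) :=
      ⟨hT, e, rfl, he, Or.inl ⟨rfl, rfl⟩⟩
    have h9 := hYX x hx
    rw [hz] at h9
    rcases hpair h7 h8 with ⟨b1, b2⟩ | ⟨b1, b2⟩
    · left
      have e1 : (⟨reg σ cl (σ⁻¹ e), h6⟩ : X) = par x := Subtype.ext b1.symm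
      have e2 : (⟨reg σ cl e, h5⟩ : X) = x := Subtype.ext b2.symm
      rw [e1, e2]
      exact h9
    · right
      have e1 : (⟨reg σ cl (σ⁻¹ e), h6⟩ : X) = x := Subtype.ext b2.symm
      have e2 : (⟨reg σ cl e, h5⟩ : X) = par x := Subtype.ext b1.symm
      rw [e1, e2]
      exact h9

end Pool.Agent.Helper2GI
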