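import Mathlib
import Pool.Agent.Helper2GI.Ltr

/-!
More on bounded derivations: symmetry, cancellation, inverses.
-/

set_option autoImplicit false

namespace Pool.Agent.Helper2GI

variable {c : Code}

theorem z2 (k : ZMod 2) : k + k = 0 := by
  revert k
  decide

theorem Ru.symm {a b : List (Option (Edge c))} (h : Ru c a b) : Ru c b a := by
  cases h with
  | jj => exact Ru.ij
  | ij => exact Ru.jj
  | jx e => exact Ru.xj e
  | xj e => exact Ru.jx e
  | xx e => exact Ru.xi e
  | xi e => exact Ru.xx e
  | cm v a b ha hb => exact Ru.cm v b a hb ha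
  | st v hv => exact Ru.ts v hv
  | ts v hv => exact Ru.st v hv

theorem GR_symm {N : ℕ} {s t : List (Option (Edge c))} (hs : s.length ≤ N)
    (h : GR (Ru c) N s t) : GR (Ru c) N t s := by
  induction h with
  | refl => exact Relation.ReflTransGen.refl
  | @tail u t h1 h2 ih =>
    have hu := GR.len h1 hs
    obtain ⟨l, r, a, b, h3, h4, h5, h6⟩ := h2
    exact (Relation.ReflTransGen.single ⟨l, r, b, a, h3.symm, h5, h4, hu⟩).trans ih

theorem D.symm {N : ℕ} {k : ZMod 2} {s t : List (Edge c)} (hs : s.length ≤ N) (h : D c N k s t) :
    D c N k t s := by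
  intro j l r
  have h1 := h (j + k) l r
  have h2 : j + k + k = j := by
    rw [add_assoc, z2, add_zero]
  rw [h2] at h1
  refine GR_symm ?_ h1
  have := jw_len (E := Edge c) (j + k)
  simp only [List.length_append, List.length_map]
  omega

theorem D.can (l : List (Edge c)) : D c (2 * l.length) 0 (l ++ l.reverse) [] := by
  induction l with
  | nil => exact D.refl _ _
  | cons a l ih =>
    have h1 := ih.ctx [a] [a] (N' := 2 * (a :: l).length) (by
      simp only [List.length_cons, List.length_nil]; omega)
    have h2 := (D.xx a).mono (N' := 2 * (a :: l).length) (by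
      simp only [List.length_cons]; omega)
    have h3 := h1.trans (t := [a, a]) (by simpa using h2)
    rw [add_zero] at h3
    simpa using h3

theorem D.can' (l : List (Edge c)) : D c (2 * l.length) 0 (l.reverse ++ l) [] := by
  have := D.can l.reverse
  rwa [List.reverse_reverse, List.length_reverse] at this

theorem D.inv {N B : ℕ} {k : ZMod 2} {s t : List (Edge c)} (h : D c N k s t)
    (hs : s.length ≤ B) (ht : t.length ≤ B) :
    D c (N + 4 * B) k s.reverse t.reverse := by
  have h0 := (h.mono (N' := N + B) (by omega)).symm (by omega)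
  have h1 := ((D.can t).symm (by simp; omega)).ctx s.reverse [] (N' := N + 4 * B) (by
    simp only [List.length_reverse, List.length_nil]; omega)
  have h2 := h0.ctx s.reverse t.reverse (N' := N + 4 * B) (by
    simp only [List.length_reverse]; omega)
  have h3 := (D.can' s).ctx [] t.reverse (N' := N + 4 * B) (by
    simp only [List.length_reverse, List.length_nil]; omega)
  simp only [List.append_nil, List.nil_append, List.append_assoc] at h1 h2 h3
  have h4 := (h1.trans h2).trans h3
  simpa using h4

/-- moving a whole word across -/
theorem D.ctxl {N N' : ℕ} {k : ZMod 2} {s t : List (Edge c)} (h : D c N k s t)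
    (l : List (Edge c)) (hN : N + l.length ≤ N') : D c N' k (l ++ s) (l ++ t) := by
  have := h.ctx l [] (N' := N') (by simpa using hN)
  simpa using this

theorem D.ctxr {N N' : ℕ} {k : ZMod 2} {s t : List (Edge c)} (h : D c N k s t)
    (r : List (Edge c)) (hN : N + r.length ≤ N') : D c N' k (s ++ r) (t ++ r) := by
  have := h.ctx [] r (N' := N') (by simpa using hN)
  simpa using this

theorem D.cast {N : ℕ} {k k' : ZMod 2} {s t s' t' : List (Edge c)} (h : D c N k s t)
    (hk : k = k') (hs : s = s') (ht : t = t') : D c N k' s' t' := by
  subst hk hs ht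
  exact h

end Pool.Agent.Helper2GI
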