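import Mathlib
import Pool.Agent.Helper2GI.Cot
import Pool.Agent.Helper2GI.DLem

/-!
Potentials on the regions of a planar piece.
-/

set_option autoImplicit false

namespace Pool.Agent.Helper2GI

variable {c : Code} {σ : Equiv.Perm (Dart c)} {cl : ℕ → ℕ}

/-- walking around a vertex -/
theorem chain_D (Y : Rg c σ cl → List (Edge c))
    (s : Edge c → ZMod 2) (N : ℕ) (e : Dart c) (m : ℕ)
    (h : ∀ n, n < m → D c N (s (σ^[n + 1] e).1)
      (Y (reg σ cl (σ^[n] e)) ++ [(σ^[n + 1] e).1]) (Y (reg σ cl (σ^[n + 1] e)))) :
    ∀ n ≤ m, D c (N + n) ((orb σ e n).map s).sum (Y (reg σ cl e) ++ orb σ e n)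
      (Y (reg σ cl (σ^[n] e))) := by
  intro n
  induction n with
  | zero =>
    intro _
    refine (D.refl N _).cast ?_ ?_ rfl
    · simp [orb]
    · simp [orb]
  | succ n ih =>
    intro hn
    have h1 := (ih (by omega)).ctxr [(σ^[n + 1] e).1] (N' := N + (n + 1)) (by
      simp only [List.length_singleton]; omega)
    have h2 := (h n (by omega)).mono (N' := N + (n + 1)) (by omega)
    refine (h1.trans h2).cast ?_ ?_ rfl
    · rw [orb_succ, List.map_append, List.sum_append]
      simp
    · rw [orb_succ, List.append_assoc]

/-- constant in the bounds -/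
def cN (c : Code) (k : ℕ) : ℕ := 4 * c.2.1.length + 4 + k * (c.2.1.length + 1)

theorem pot_D (hV : Valid c) (hσ : Rotation c σ) {U : ℕ} {dp : ℕ → ℕ}
    {pe : ℕ → Edge c → Prop} (hP : Peel c cl U dp pe) (n : ℕ) (hn : ∀ v, cl v = U → dp v < n)
    (Y : Rg c σ cl → List (Edge c)) (hY : ∀ f, (Y f).length ≤ 2 * c.2.1.length)
    (hY2 : ∀ e : Dart c, cl (tl e) = U → ¬ TE cl U pe e.1 →
        Y (reg σ cl e) = Y (reg σ cl (σ⁻¹ e)) ++ [e.1] ∨
        Y (reg σ cl (σ⁻¹ e)) = Y (reg σ cl e) ++ [e.1])
    (s : Edge c → ZMod 2) (hs0 : ∀ i, ¬ TE cl U pe i → s i = 0)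
    (hs : ∀ v i, cl v = U → pe v i → ((star c v).map s).sum = (colour c v : ZMod 2))
    (e : Dart c) (he : cl (tl e) = U) :
    D c (cN c n) (s e.1) (Y (reg σ cl (σ⁻¹ e)) ++ [e.1]) (Y (reg σ cl e)) := by
  refine peel_ind (U := fun v => cl v = U) (dp := dp) (pe := pe) hP.low n hn
    (fun k i => ∀ e : Dart c, e.1 = i → cl (tl e) = U →
      D c (cN c k) (s i) (Y (reg σ cl (σ⁻¹ e)) ++ [i]) (Y (reg σ cl e)))
    ?_ ?_ ?_ hP.uniq e.1 ⟨tl e, he, inc_tl e⟩ e rfl he
  · intro k i h e he hU
    refine (h e he hU).mono ?_
    unfold cN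
    have h7 : (k + 1) * (c.2.1.length + 1) = k * (c.2.1.length + 1) + (c.2.1.length + 1) := by ring
    omega
  · intro i _ hT e he hU
    subst he
    have hT' : ¬ TE cl U pe e.1 := hT
    have h1 := hY (reg σ cl e)
    rcases hY2 e hU hT' with h2 | h2
    · rw [h2, hs0 _ hT']
      exact D.refl _ _
    · rw [h2, hs0 _ hT']
      have h3 := (D.xx e.1).ctxl (Y (reg σ cl e)) (N' := cN c 0) (by unfold cN; omega)
      simpa using h3
  · intro k v i hv hvi hj
    -- darts of `i` at `v`
    have main : ∀ e : Dart c, e.1 = i → tl e = v →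
        D c (cN c k + c.2.1.length) (s i) (Y (reg σ cl (σ⁻¹ e)) ++ [i]) (Y (reg σ cl e)) := by
      intro e he hev
      have hp := per_pos (σ := σ) e
      have hpl := per_le hσ hV e
      have h1 := chain_D Y s (cN c k) e (per σ e - 1) (by
        intro m hm
        have h2 := hj (σ^[m + 1] e).1 (by
          intro h2
          have h3 := dart_unique hV (h2.trans he.symm) (tl_iter hσ e (m + 1))
          exact iter_ne (by omega) (by omega) h3) (by
          have := inc_tl (σ^[m + 1] e)
          rwa [tl_iter hσ, hev] at this) (σ^[m + 1] e) rfl (by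
          rw [tl_iter hσ, hev]; exact hv)
        have e1 : σ⁻¹ (σ^[m + 1] e) = σ^[m] e := by rw [Function.iterate_succ_apply', pinv2]
        rwa [e1] at h2) (per σ e - 1) le_rfl
      rw [per_last] at h1
      set O := orb σ e (per σ e - 1) with hO
      have hOl : O.length = per σ e - 1 := orb_len e _
      have hYe := hY (reg σ cl e)
      have hck : 4 * c.2.1.length + 4 ≤ cN c k := by unfold cN; omega
      have h2 := (h1.symm (by rw [List.length_append]; omega)).ctxr [i]
        (N' := cN c k + c.2.1.length) (by simp only [List.length_singleton]; omega)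
      have hperm : (O ++ [i]).Perm (star c v) := by
        have h3 := orb_perm hσ hV e
        rw [hev, he] at h3
        exact (List.perm_append_singleton i O).trans h3
      have hinc : ∀ j ∈ O ++ [i], Inc c v j := fun j hj => mem_star.1 (hperm.mem_iff.1 hj)
      have h3 := (D.perm hperm hinc).ctxl (Y (reg σ cl e)) (N' := cN c k + c.2.1.length) (by
        rw [List.length_append, List.length_singleton]; omega)
      have hvc : v < c.1 := inc_lt hV (hP.inc hv hvi)
      have h4 := (D.st hvc).ctxl (Y (reg σ cl e)) (N' := cN c k + c.2.1.length) (by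
        have := star_len (c := c) v
        omega)
      rw [← List.append_assoc] at h3
      refine ((h2.trans h3).trans h4).cast ?_ rfl (by simp)
      have h5 := hs v i hv hvi
      have h6 : ((star c v).map s).sum = ((O ++ [i]).map s).sum := by
        have := (hperm.map s).sum_eq
        exact this.symm
      rw [h6, List.map_append, List.sum_append] at h5
      simp only [List.map_cons, List.map_nil, List.sum_cons, List.sum_nil, add_zero] at h5
      rw [← h5, add_zero]
      have h7 := z2 (O.map s).sum
      linear_combination h7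
    intro e he hU
    have hcs : cN c (k + 1) = cN c k + c.2.1.length + 1 := by
      unfold cN
      have h7 : (k + 1) * (c.2.1.length + 1) = k * (c.2.1.length + 1) + (c.2.1.length + 1) := by
        ring
      omega
    by_cases hev : tl e = v
    · exact (main e he hev).mono (by omega)
    · have h1 : Inc c v e.1 := by
        rw [he]
        exact hP.inc hv hvi
      have h2 : v = tl (op e) := by
        rcases tl_of_inc h1 with h | h
        · exact absurd h.symm hev
        · exact h
      have h3 := main (op e) (by rw [op_fst, he]) h2.symm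
      have hin : inn cl e := by
        unfold inn
        rw [hU, ← h2, hv]
      rw [reg_op hin, reg_op' hin] at h3
      have hYe := hY (reg σ cl e)
      have hck : 4 * c.2.1.length + 4 ≤ cN c k := by unfold cN; omega
      have h4 := (h3.symm (by
        rw [List.length_append, List.length_singleton]; omega)).ctxr [i]
        (N' := cN c (k + 1)) (by simp only [List.length_singleton]; omega)
      have h5 := (D.xx i).ctxl (Y (reg σ cl e)) (N' := cN c (k + 1)) (by omega)
      rw [List.append_assoc] at h4
      refine (h4.trans (h5.cast rfl ?_ rfl)).cast (add_zero _) rfl (List.append_nil _)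
      simp

/-- potentials with values in `ℤ/2` -/
theorem pot_phi (hV : Valid c) (hσ : Rotation c σ) {U : ℕ} {dp : ℕ → ℕ}
    {pe : ℕ → Edge c → Prop} (hP : Peel c cl U dp pe) (n : ℕ) (hn : ∀ v, cl v = U → dp v < n)
    (Y : Rg c σ cl → List (Edge c))
    (hY2 : ∀ e : Dart c, cl (tl e) = U → ¬ TE cl U pe e.1 →
        Y (reg σ cl e) = Y (reg σ cl (σ⁻¹ e)) ++ [e.1] ∨
        Y (reg σ cl (σ⁻¹ e)) = Y (reg σ cl e) ++ [e.1])
    (φ : Edge c → ZMod 2)
    (hφ : ∀ v i, cl v = U → pe v i → ((star c v).map φ).sum = 0)
    (e : Dart c) (he : cl (tl e) = U) :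
    ((Y (reg σ cl e)).map φ).sum = ((Y (reg σ cl (σ⁻¹ e))).map φ).sum + φ e.1 := by
  set y : Rg c σ cl → ZMod 2 := fun f => ((Y f).map φ).sum with hy
  show y (reg σ cl e) = y (reg σ cl (σ⁻¹ e)) + φ e.1
  refine peel_ind (U := fun v => cl v = U) (dp := dp) (pe := pe) hP.low n hn
    (fun k i => ∀ e : Dart c, e.1 = i → cl (tl e) = U →
      y (reg σ cl e) = y (reg σ cl (σ⁻¹ e)) + φ i)
    ?_ ?_ ?_ hP.uniq e.1 ⟨tl e, he, inc_tl e⟩ e rfl he
  · intro k i h
    exact h
  · intro i _ hT e he hU
    subst he
    have hT' : ¬ TE cl U pe e.1 := hT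
    rcases hY2 e hU hT' with h2 | h2
    · simp only [hy, h2, List.map_append, List.sum_append]
      simp
    · simp only [hy, h2, List.map_append, List.sum_append]
      simp only [List.map_cons, List.map_nil, List.sum_cons, List.sum_nil, add_zero]
      rw [add_assoc, z2, add_zero]
  · intro k v i hv hvi hj
    have main : ∀ e : Dart c, e.1 = i → tl e = v →
        y (reg σ cl e) = y (reg σ cl (σ⁻¹ e)) + φ i := by
      intro e he hev
      have hp := per_pos (σ := σ) e
      have h1 : ∀ m ≤ per σ e - 1,
          y (reg σ cl (σ^[m] e)) = y (reg σ cl e) + ((orb σ e m).map φ).sum := by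
        intro m
        induction m with
        | zero => intro _; simp [orb]
        | succ m ih =>
          intro hm
          have h2 := hj (σ^[m + 1] e).1 (by
            intro h2
            have h3 := dart_unique hV (h2.trans he.symm) (tl_iter hσ e (m + 1))
            exact iter_ne (by omega) (by omega) h3) (by
            have := inc_tl (σ^[m + 1] e)
            rwa [tl_iter hσ, hev] at this) (σ^[m + 1] e) rfl (by
            rw [tl_iter hσ, hev]; exact hv)
          have e1 : σ⁻¹ (σ^[m + 1] e) = σ^[m] e := by rw [Function.iterate_succ_apply', pinv2]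
          rw [e1, ih (by omega)] at h2
          rw [h2, orb_succ, List.map_append, List.sum_append]
          simp only [List.map_cons, List.map_nil, List.sum_cons, List.sum_nil, add_zero]
          ring
      have h2 := h1 (per σ e - 1) le_rfl
      rw [per_last] at h2
      have h3 := orb_perm hσ hV e
      have h4 := (h3.map φ).sum_eq
      rw [hev, hφ v i hv hvi, List.map_cons, List.sum_cons, he] at h4
      have h5 := z2 (φ i)
      rw [h2]
      linear_combination -h4
    intro e he hU
    by_cases hev : tl e = v
    · exact main e he hev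
    · have h1 : Inc c v e.1 := by
        rw [he]
        exact hP.inc hv hvi
      have h2 : v = tl (op e) := by
        rcases tl_of_inc h1 with h | h
        · exact absurd h.symm hev
        · exact h
      have h3 := main (op e) (by rw [op_fst, he]) h2.symm
      have hin : inn cl e := by
        unfold inn
        rw [hU, ← h2, hv]
      rw [reg_op hin, reg_op' hin] at h3
      have h5 := z2 (φ i)
      linear_combination -h3 - h5

end Pool.Agent.Helper2GI
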