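import Mathlib
import Pool.Agent.Helper2GI.Pot

/-!
Spanning trees of clusters, paths to the root, signs.
-/

set_option autoImplicit false

namespace Pool.Agent.Helper2GI

variable {c : Code} {σ : Equiv.Perm (Dart c)} {cl : ℕ → ℕ}

/-- number of occurrences, modulo two -/
def cnt (l : List (Edge c)) (i : Edge c) : ZMod 2 := (l.map fun j => if j = i then 1 else 0).sum

/-- number of edges at `v`, modulo two -/
def pv (l : List (Edge c)) (v : ℕ) : ZMod 2 := (l.map fun j => if Inc c v j then 1 else 0).sum

theorem cnt_cons (a : Edge c) (l : List (Edge c)) (i : Edge c) :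
    cnt (a :: l) i = (if a = i then 1 else 0) + cnt l i := by
  unfold cnt
  rw [List.map_cons, List.sum_cons]

theorem pv_cons (a : Edge c) (l : List (Edge c)) (v : ℕ) :
    pv (a :: l) v = (if Inc c v a then 1 else 0) + pv l v := by
  unfold pv
  rw [List.map_cons, List.sum_cons]

theorem sum_ite_list (l : List (Edge c)) (hl : l.Nodup) (a : Edge c) :
    (l.map fun i => if a = i then (1 : ZMod 2) else 0).sum = if a ∈ l then 1 else 0 := by
  induction l with
  | nil => simp
  | cons b l ih =>
    rw [List.nodup_cons] at hl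
    rw [List.map_cons, List.sum_cons, ih hl.2]
    by_cases hab : a = b
    · subst hab
      simp [hl.1]
    · simp [hab]

theorem star_cnt (v : ℕ) (l : List (Edge c)) : ((star c v).map (cnt l)).sum = pv l v := by
  induction l with
  | nil =>
    have h : (cnt ([] : List (Edge c))) = fun _ => 0 := by
      funext i
      simp [cnt]
    rw [h]
    simp [pv]
  | cons a l ih =>
    have h : (cnt (a :: l)) = fun i => (if a = i then 1 else 0) + cnt l i := by
      funext i
      exact cnt_cons a l i
    rw [h, List.sum_map_add, sum_ite_list _ (star_nodup c v) a, ih, pv_cons]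
    congr 1
    by_cases h : Inc c v a
    · rw [if_pos h, if_pos (mem_star.2 h)]
    · rw [if_neg h, if_neg (fun h' => h (mem_star.1 h'))]

theorem cnt_zero {l : List (Edge c)} {i : Edge c} (h : i ∉ l) : cnt l i = 0 := by
  induction l with
  | nil => simp [cnt]
  | cons a l ih =>
    rw [List.mem_cons, not_or] at h
    rw [cnt_cons, if_neg (Ne.symm h.1), ih h.2, add_zero]

/-- an edge has only two endpoints -/
theorem two_ends {u v w : ℕ} {i : Edge c} (hu : Inc c u i) (hv : Inc c v i) (huv : u ≠ v)
    (hw : Inc c w i) : w = u ∨ w = v := by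
  rcases hu with hu | hu <;> rcases hv with hv | hv <;> rcases hw with hw | hw
  · exact absurd (hu.symm.trans hv) huv
  · exact absurd (hu.symm.trans hv) huv
  · exact Or.inl (hw.symm.trans hu)
  · exact Or.inr (hw.symm.trans hv)
  · exact Or.inr (hw.symm.trans hv)
  · exact Or.inl (hw.symm.trans hu)
  · exact absurd (hu.symm.trans hv) huv
  · exact absurd (hu.symm.trans hv) huv

open Classical in
/-- a rooted spanning tree of a cluster, with the paths to the root -/
theorem exists_paths (hV : Valid c) (cl : ℕ → ℕ) (U : ℕ) (hJ : Joined c cl U)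
    (r : ℕ) (hr : r < c.1) (hrU : cl r = U) (bo : Option (Edge c)) (hne : Nonempty (Edge c)) :
    ∃ (dp par : ℕ → ℕ) (pz : ℕ → Edge c) (pt : ℕ → List (Edge c)),
      (∀ v, v < c.1 → cl v = U → v ≠ r → Inc c v (pz v) ∧ Inc c (par v) (pz v) ∧ par v ≠ v ∧
        cl (par v) = U ∧ par v < c.1 ∧ dp v = dp (par v) + 1) ∧
      (∀ v, dp v < c.1 + 1) ∧ pt r = bo.toList ∧
      ∀ v, v < c.1 → cl v = U → v ≠ r → pt v = pz v :: pt (par v) := by
  let X := {v : ℕ // v < c.1 ∧ cl v = U}
  have hinjX : Function.Injective (fun x : X => (⟨x.1, x.2.1⟩ : Fin c.1)) := by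
    intro x y h
    exact Subtype.ext (congrArg Fin.val h)
  have hfin : Finite X := Finite.of_injective _ hinjX
  let C : Edge c → X → X → Prop := fun z x y => Inc c x.1 z ∧ Inc c y.1 z ∧ x.1 ≠ y.1
  let rX : X := ⟨r, hr, hrU⟩
  have hconn : ∀ x : X, Relation.ReflTransGen (fun a b => ∃ z, C z a b) rX x := by
    rintro ⟨v, hv, hvU⟩
    have h1 := hJ r v hr hv hrU hvU
    have key : ∀ {v}, Relation.ReflTransGen (fun a b => Adj c a b ∧ cl a = U ∧ cl b = U) r v →
        ∀ (hv : v < c.1 ∧ cl v = U),
        Relation.ReflTransGen (fun a b => ∃ z, C z a b) rX (⟨v, hv⟩ : X) := by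
      intro v h
      induction h with
      | refl => intro _; exact Relation.ReflTransGen.refl
      | @tail a b h1 h2 ih =>
        intro hb
        obtain ⟨⟨hab, i, hi1, hi2⟩, ha, _⟩ := h2
        exact (ih ⟨inc_lt hV hi1, ha⟩).tail ⟨i, hi1, hi2, hab⟩
    exact key h1 ⟨hv, hvU⟩
  obtain ⟨dpx, h1, h2⟩ := exists_tree C rX hconn
  choose! parx pzx h3 h4 using h1
  have hcard : Nat.card X ≤ c.1 := by
    have := Nat.card_le_card_of_injective _ hinjX
    rwa [Nat.card_eq_fintype_card (α := Fin c.1), Fintype.card_fin] at this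
  let toX : ℕ → X := fun v => if h : v < c.1 ∧ cl v = U then ⟨v, h⟩ else rX
  have htoX : ∀ v (h : v < c.1 ∧ cl v = U), toX v = ⟨v, h⟩ := fun v h => dif_pos h
  let Yn : ℕ → X → List (Edge c) := fun m => Nat.rec (fun _ => bo.toList) (fun _ g x =>
    if x = rX then bo.toList else pzx x :: g (parx x)) m
  have hY0 : ∀ x, Yn 0 x = bo.toList := fun _ => rfl
  have hYs : ∀ m x, Yn (m + 1) x = if x = rX then bo.toList else pzx x :: Yn m (parx x) :=
    fun _ _ => rfl
  refine ⟨fun v => dpx (toX v), fun v => (parx (toX v)).1, fun v => pzx (toX v),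
    fun v => Yn (dpx (toX v)) (toX v), ?_, ?_, ?_, ?_⟩
  · intro v hv hvU hvr
    have hne : toX v ≠ rX := by
      rw [htoX v ⟨hv, hvU⟩]
      intro h
      exact hvr (congrArg Subtype.val h)
    obtain ⟨a1, a2, a3⟩ := h3 (toX v) hne
    have a4 := h4 (toX v) hne
    have a5 : (toX v).1 = v := by rw [htoX v ⟨hv, hvU⟩]
    rw [a5] at a2 a3
    have a6 : toX (parx (toX v)).1 = parx (toX v) := htoX _ (parx (toX v)).2
    refine ⟨a2, a1, a3, (parx (toX v)).2.2, (parx (toX v)).2.1, ?_⟩
    simp only
    rw [a6]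
    exact a4
  · intro v
    have := h2 (toX v)
    simp only
    omega
  · have a1 : toX r = rX := htoX r ⟨hr, hrU⟩
    simp only
    rw [a1]
    cases hd : dpx rX with
    | zero => exact hY0 rX
    | succ m => rw [hYs, if_pos rfl]
  · intro v hv hvU hvr
    have hne : toX v ≠ rX := by
      rw [htoX v ⟨hv, hvU⟩]
      intro h
      exact hvr (congrArg Subtype.val h)
    have a6 : toX (parx (toX v)).1 = parx (toX v) := htoX _ (parx (toX v)).2
    have a4 := h4 (toX v) hne
    simp only
    rw [a6, a4, hYs, if_neg hne]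

/-- conditions on the optional edge at the root -/
def Base (c : Code) (cl : ℕ → ℕ) (U r : ℕ) (bo : Option (Edge c)) : Prop :=
  ∀ h, bo = some h → Inc c r h ∧ ∀ w, cl w = U → Inc c w h → w = r

/-- the peeling relation of a rooted tree -/
def peR (c : Code) (cl : ℕ → ℕ) (U r : ℕ) (bo : Option (Edge c)) (pz : ℕ → Edge c) (v : ℕ)
    (i : Edge c) : Prop :=
  (v = r ∧ bo = some i) ∨ (v ≠ r ∧ v < c.1 ∧ cl v = U ∧ i = pz v)

/-- parity of paths -/
theorem pt_pv {U r : ℕ} (hrU : cl r = U) {bo : Option (Edge c)}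
    {dp par : ℕ → ℕ} {pz : ℕ → Edge c} {pt : ℕ → List (Edge c)}
    (h1 : ∀ v, v < c.1 → cl v = U → v ≠ r → Inc c v (pz v) ∧ Inc c (par v) (pz v) ∧ par v ≠ v ∧
        cl (par v) = U ∧ par v < c.1 ∧ dp v = dp (par v) + 1)
    (h2 : pt r = bo.toList) (h3 : ∀ v, v < c.1 → cl v = U → v ≠ r → pt v = pz v :: pt (par v))
    (v w : ℕ) (hw : w < c.1) (hwU : cl w = U) :
    pv (pt w) v = (if v = w then 1 else 0) + (if v = r then 1 else 0) + pv bo.toList v := by
  have key : ∀ n w, dp w = n → w < c.1 → cl w = U →
      pv (pt w) v = (if v = w then 1 else 0) + (if v = r then 1 else 0) + pv bo.toList v := by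
    intro n
    induction n with
    | zero =>
      intro w hd hw hwU
      by_cases hwr : w = r
      · subst hwr
        rw [h2]
        have := z2 (if v = w then (1 : ZMod 2) else 0)
        linear_combination -this
      · obtain ⟨_, _, _, _, _, a6⟩ := h1 w hw hwU hwr
        omega
    | succ n ih =>
      intro w hd hw hwU
      by_cases hwr : w = r
      · subst hwr
        rw [h2]
        have := z2 (if v = w then (1 : ZMod 2) else 0)
        linear_combination -this
      · obtain ⟨a1, a2, a3, a4, a5, a6⟩ := h1 w hw hwU hwr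
        rw [h3 w hw hwU hwr, pv_cons, ih (par w) (by omega) a5 a4]
        have hinc : (if Inc c v (pz w) then (1 : ZMod 2) else 0) =
            (if v = w then 1 else 0) + (if v = par w then 1 else 0) := by
          by_cases hv1 : v = w
          · subst hv1
            rw [if_pos a1, if_pos rfl, if_neg (Ne.symm a3), add_zero]
          · by_cases hv2 : v = par w
            · subst hv2
              rw [if_pos a2, if_neg a3, if_pos rfl, zero_add]
            · rw [if_neg hv1, if_neg hv2, if_neg, add_zero]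
              intro h
              rcases two_ends a1 a2 (Ne.symm a3) h with h | h
              · exact hv1 h
              · exact hv2 h
        rw [hinc]
        have := z2 (if v = par w then (1 : ZMod 2) else 0)
        linear_combination this
  exact key _ w rfl hw hwU

/-- the edges of the paths -/
theorem pt_mem {U r : ℕ} {bo : Option (Edge c)}
    {dp par : ℕ → ℕ} {pz : ℕ → Edge c} {pt : ℕ → List (Edge c)}
    (h1 : ∀ v, v < c.1 → cl v = U → v ≠ r → Inc c v (pz v) ∧ Inc c (par v) (pz v) ∧ par v ≠ v ∧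
        cl (par v) = U ∧ par v < c.1 ∧ dp v = dp (par v) + 1)
    (h2 : pt r = bo.toList) (h3 : ∀ v, v < c.1 → cl v = U → v ≠ r → pt v = pz v :: pt (par v))
    (w : ℕ) (hw : w < c.1) (hwU : cl w = U) : ∃ l : List (Edge c), pt w = l ++ bo.toList ∧
    ∀ i ∈ l, ∃ v, v < c.1 ∧ cl v = U ∧ v ≠ r ∧ i = pz v := by
  have key : ∀ n w, dp w = n → w < c.1 → cl w = U → ∃ l : List (Edge c), pt w = l ++ bo.toList ∧
      ∀ i ∈ l, ∃ v, v < c.1 ∧ cl v = U ∧ v ≠ r ∧ i = pz v := by
    intro n
    induction n with
    | zero =>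
      intro w hd hw hwU
      by_cases hwr : w = r
      · subst hwr
        exact ⟨[], by rw [h2]; rfl, by simp⟩
      · obtain ⟨_, _, _, _, _, a6⟩ := h1 w hw hwU hwr
        omega
    | succ n ih =>
      intro w hd hw hwU
      by_cases hwr : w = r
      · subst hwr
        exact ⟨[], by rw [h2]; rfl, by simp⟩
      · obtain ⟨a1, a2, a3, a4, a5, a6⟩ := h1 w hw hwU hwr
        obtain ⟨l, hl1, hl2⟩ := ih (par w) (by omega) a5 a4
        refine ⟨pz w :: l, by rw [h3 w hw hwU hwr, hl1]; rfl, ?_⟩
        intro i hi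
        rcases List.mem_cons.1 hi with h | h
        · exact ⟨w, hw, hwU, hwr, h⟩
        · exact hl2 i h
  exact key _ w rfl hw hwU

end Pool.Agent.Helper2GI
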