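import Mathlib
import Pool.Agent.Helper2GI.Path

/-!
Planar pieces: potentials, signs and separating functions.
-/

set_option autoImplicit false

namespace Pool.Agent.Helper2GI

variable {c : Code} {σ : Equiv.Perm (Dart c)} {cl : ℕ → ℕ}

/-- An edge leading from the cluster `U` to another one. -/
def Out (c : Code) (cl : ℕ → ℕ) (U : ℕ) (i : Edge c) : Prop :=
  ∃ e : Dart c, e.1 = i ∧ cl (tl e) = U ∧ cl (tl (op e)) ≠ U

/-- number of regions of a cluster -/
noncomputable def nR (hσ : Rotation c σ) (cl : ℕ → ℕ) (U : ℕ) : ℕ :=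
  Nat.card {f : Rg c σ cl // rcl hσ f = U}

/-- number of vertices of a cluster -/
noncomputable def nV (c : Code) (cl : ℕ → ℕ) (U : ℕ) : ℕ := Nat.card {v : ℕ // v < c.1 ∧ cl v = U}

/-- number of edges of a cluster, including those which lead to other clusters -/
noncomputable def nE (c : Code) (cl : ℕ → ℕ) (U : ℕ) : ℕ :=
  Nat.card {i : Edge c // ∃ v, cl v = U ∧ Inc c v i}

/-- the data obtained for a planar piece -/
structure PD (c : Code) (σ : Equiv.Perm (Dart c)) (cl : ℕ → ℕ) (U : ℕ)
    (Y : Rg c σ cl → List (Edge c)) (s : Edge c → ZMod 2) (β : ℕ → ZMod 2) : Prop where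
  len : ∀ f, (Y f).length ≤ 2 * c.2.1.length
  D : ∀ e : Dart c, cl (tl e) = U →
    D c (cN c (c.1 + 1)) (s e.1) (Y (reg σ cl (σ⁻¹ e)) ++ [e.1]) (Y (reg σ cl e))
  sum : ∀ v, v < c.1 → cl v = U → ((star c v).map s).sum =
    (colour c v : ZMod 2) + β v * ∑ w ∈ (Finset.range c.1).filter (fun w => cl w = U),
      (colour c w : ZMod 2)
  sep : ∀ h1 h2, Out c cl U h1 → Out c cl U h2 → h1 ≠ h2 → (∀ v, cl v = U → β v = 0) →
    ∃ (y : Rg c σ cl → ZMod 2) (φ : Edge c → ZMod 2),
      (∀ e : Dart c, cl (tl e) = U → y (reg σ cl e) = y (reg σ cl (σ⁻¹ e)) + φ e.1) ∧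
      ∀ i, Out c cl U i → φ i = (if i = h1 then 1 else 0) + (if i = h2 then 1 else 0)

theorem out_inc {U : ℕ} {i : Edge c} (h : Out c cl U i) : ∃ v, cl v = U ∧ Inc c v i ∧
    ∀ w, cl w = U → (Inc c w i ↔ w = v) := by
  obtain ⟨e, rfl, h1, h2⟩ := h
  refine ⟨tl e, h1, inc_tl e, ?_⟩
  intro w hw
  constructor
  · intro h
    rcases tl_of_inc h with h3 | h3
    · exact h3
    · exfalso
      rw [h3] at hw
      exact h2 hw
  · rintro rfl
    exact inc_tl e

open Classical in
theorem piece_data (hV : Valid c) (hσ : Rotation c σ) {U : ℕ} (hJ : Joined c cl U)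
    (r : ℕ) (hr : r < c.1) (hrU : cl r = U) (bo : Option (Edge c)) (hne : Nonempty (Edge c))
    (hB : Base c cl U r bo)
    (heul : nR hσ cl U + nV c cl U + bo.toList.length ≥ nE c cl U + 2) :
    ∃ Y s, PD c σ cl U Y s (fun v => (if v = r then 1 else 0) + pv bo.toList v) := by
  obtain ⟨dp, par, pz, pt, h1, hdp, h2, h3⟩ := exists_paths hV cl U hJ r hr hrU bo hne
  have hP : Peel c cl U dp (peR c cl U r bo pz) := by
    constructor
    · rintro v i hv (⟨rfl, hb⟩ | ⟨hvr, hvc, _, rfl⟩)
      · exact (hB i hb).1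
      · exact (h1 v hvc hv hvr).1
    · rintro v w i hv hw (⟨rfl, hb⟩ | ⟨hvr, hvc, _, rfl⟩) hwi hwv
      · exact absurd ((hB i hb).2 w hw hwi) hwv
      · obtain ⟨a1, a2, a3, a4, a5, a6⟩ := h1 v hvc hv hvr
        rcases two_ends a1 a2 (Ne.symm a3) hwi with h | h
        · exact absurd h hwv
        · rw [h]; omega
    · rintro v i j hv (⟨rfl, hb⟩ | ⟨hvr, _, _, rfl⟩) (⟨h, hb'⟩ | ⟨hvr', _, _, rfl⟩)
      · rw [hb] at hb'
        exact Option.some.inj hb'
      · exact absurd rfl hvr'
      · exact absurd h hvr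
      · rfl
  -- counting
  let X := {v : ℕ // v < c.1 ∧ cl v = U}
  have hfinX : Finite X := by
    refine Finite.of_injective (β := Fin c.1) (fun x => ⟨x.1, x.2.1⟩) ?_
    intro x y h
    exact Subtype.ext (congrArg Fin.val h)
  have hX1 : nV c cl U = Nat.card X := rfl
  have hTE : nV c cl U + bo.toList.length ≤
      Nat.card {i : Edge c // TE cl U (peR c cl U r bo pz) i} + 1 := by
    have inj : ∀ {v w i}, cl v = U → cl w = U → peR c cl U r bo pz v i →
        peR c cl U r bo pz w i → v = w := by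
      intro v w i hv hw h h'
      by_contra hvw
      have a1 := hP.low hv hw h (hP.inc hw h') (Ne.symm hvw)
      have a2 := hP.low hw hv h' (hP.inc hv h) hvw
      omega
    cases bo with
    | none =>
      let F : {x : X // x.1 ≠ r} → {i : Edge c // TE cl U (peR c cl U r none pz) i} :=
        fun x => ⟨pz x.1.1, x.1.1, x.1.2.2, Or.inr ⟨x.2, x.1.2.1, x.1.2.2, rfl⟩⟩
      have hF : Function.Injective F := by
        intro x y hxy
        have h4 : pz x.1.1 = pz y.1.1 := congrArg Subtype.val hxy
        refine Subtype.ext (Subtype.ext ?_)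
        refine inj x.1.2.2 y.1.2.2 (Or.inr ⟨x.2, x.1.2.1, x.1.2.2, rfl⟩) ?_
        rw [h4]
        exact Or.inr ⟨y.2, y.1.2.1, y.1.2.2, rfl⟩
      have h4 := Nat.card_le_card_of_injective F hF
      have h5 : Nat.card X ≤ Nat.card {x : X // x.1 ≠ r} + 1 := by
        have h6 : Fintype X := Fintype.ofFinite X
        rw [Nat.card_eq_fintype_card, Nat.card_eq_fintype_card]
        have := Fintype.card_subtype_compl (fun x : X => x = ⟨r, hr, hrU⟩)
        rw [Fintype.card_subtype_eq] at this
        have h7 : Fintype.card {x : X // x.1 ≠ r} = Fintype.card {x : X // ¬ x = ⟨r, hr, hrU⟩} :=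
          Fintype.card_congr (Equiv.subtypeEquivRight (fun x => by
            constructor
            · intro h h'
              exact h (congrArg Subtype.val h')
            · intro h h'
              exact h (Subtype.ext h')))
        omega
      simp only [Option.toList_none, List.length_nil, add_zero]
      omega
    | some h =>
      let F : X → {i : Edge c // TE cl U (peR c cl U r (some h) pz) i} := fun x =>
        if hx : x.1 = r then ⟨h, r, hrU, Or.inl ⟨rfl, rfl⟩⟩
        else ⟨pz x.1, x.1, x.2.2, Or.inr ⟨hx, x.2.1, x.2.2, rfl⟩⟩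
      have hFx : ∀ x, peR c cl U r (some h) pz x.1 (F x).1 := by
        intro x
        by_cases hx : x.1 = r
        · have : F x = ⟨h, r, hrU, Or.inl ⟨rfl, rfl⟩⟩ := dif_pos hx
          rw [this]
          exact Or.inl ⟨hx, rfl⟩
        · have : F x = ⟨pz x.1, x.1, x.2.2, Or.inr ⟨hx, x.2.1, x.2.2, rfl⟩⟩ := dif_neg hx
          rw [this]
          exact Or.inr ⟨hx, x.2.1, x.2.2, rfl⟩
      have hF : Function.Injective F := by
        intro x y hxy
        refine Subtype.ext (inj x.2.2 y.2.2 (hFx x) ?_)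
        rw [hxy]
        exact hFx y
      have h4 := Nat.card_le_card_of_injective F hF
      simp only [Option.toList_some, List.length_singleton]
      omega
  have hn : ∀ v, cl v = U → dp v < c.1 + 1 := fun v _ => hdp v
  obtain ⟨Y, hYl, hY2⟩ := exists_Y hV hσ hP (c.1 + 1) hn hJ (by
    have e1 : Nat.card {f : Rg c σ cl // rcl hσ f = U} = nR hσ cl U := rfl
    have e2 : Nat.card {i : Edge c // ∃ v, cl v = U ∧ Inc c v i} = nE c cl U := rfl
    rw [e1, e2]
    omega)
  have hmemT : ∀ w, w < c.1 → cl w = U → ∀ i ∈ pt w, TE cl U (peR c cl U r bo pz) i := by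
    intro w hw hwU i hi
    obtain ⟨l, hl1, hl2⟩ := pt_mem h1 h2 h3 w hw hwU
    rw [hl1, List.mem_append] at hi
    rcases hi with hi | hi
    · obtain ⟨v, hv, hvU, hvr, rfl⟩ := hl2 i hi
      exact ⟨v, hvU, Or.inr ⟨hvr, hv, hvU, rfl⟩⟩
    · exact ⟨r, hrU, Or.inl ⟨rfl, by simpa using hi⟩⟩
  let W := (Finset.range c.1).filter (fun w => cl w = U)
  have hW : ∀ w, w ∈ W ↔ w < c.1 ∧ cl w = U := by
    intro w
    simp [W]
  let s : Edge c → ZMod 2 := fun i => ∑ w ∈ W, (colour c w : ZMod 2) * cnt (pt w) i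
  have hsum : ∀ v, v < c.1 → cl v = U → ((star c v).map s).sum =
      (colour c v : ZMod 2) + ((if v = r then 1 else 0) + pv bo.toList v) *
        ∑ w ∈ W, (colour c w : ZMod 2) := by
    intro v hv hvU
    have e1 : ∀ l : List (Edge c), (l.map s).sum =
        ∑ w ∈ W, (colour c w : ZMod 2) * (l.map (cnt (pt w))).sum := by
      intro l
      induction l with
      | nil => simp
      | cons a l ih =>
        rw [List.map_cons, List.sum_cons, ih]
        simp only [s, List.map_cons, List.sum_cons, mul_add, Finset.sum_add_distrib]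
    rw [e1]
    have e2 : ∀ w ∈ W, (colour c w : ZMod 2) * ((star c v).map (cnt (pt w))).sum =
        (if v = w then (colour c w : ZMod 2) else 0) +
          ((if v = r then 1 else 0) + pv bo.toList v) * (colour c w : ZMod 2) := by
      intro w hw
      rw [hW] at hw
      rw [star_cnt, pt_pv hrU h1 h2 h3 v w hw.1 hw.2]
      split_ifs <;> ring
    rw [Finset.sum_congr rfl e2, Finset.sum_add_distrib, ← Finset.mul_sum, Finset.sum_ite_eq,
      if_pos ((hW v).2 ⟨hv, hvU⟩)]
  have hbv : ∀ i, bo = some i → ∀ v, cl v = U → pv bo.toList v = if v = r then 1 else 0 := by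
    intro i hi v hv
    rw [hi]
    simp only [Option.toList_some]
    unfold pv
    simp only [List.map_cons, List.map_nil, List.sum_cons, List.sum_nil, add_zero]
    by_cases hvr : v = r
    · subst hvr
      rw [if_pos (hB i hi).1, if_pos rfl]
    · rw [if_neg hvr, if_neg]
      intro h
      exact hvr ((hB i hi).2 v hv h)
  have hs : ∀ v i, cl v = U → peR c cl U r bo pz v i →
      ((star c v).map s).sum = (colour c v : ZMod 2) := by
    rintro v i hv (⟨rfl, hb⟩ | ⟨hvr, hvc, _, rfl⟩)
    · rw [hsum v hr hv, hbv i hb v hv, z2, zero_mul, add_zero]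
    · rw [hsum v hvc hv, if_neg hvr]
      have : pv bo.toList v = 0 := by
        cases hbo : bo with
        | none => simp [pv]
        | some i =>
          rw [← hbo, hbv i hbo v hv, if_neg hvr]
      rw [this, add_zero, zero_mul, add_zero]
  have hs0 : ∀ i, ¬ TE cl U (peR c cl U r bo pz) i → s i = 0 := by
    intro i hi
    refine Finset.sum_eq_zero ?_
    intro w hw
    rw [hW] at hw
    rw [cnt_zero (fun h => hi (hmemT w hw.1 hw.2 i h)), mul_zero]
  refine ⟨Y, s, hYl, ?_, hsum, ?_⟩
  · intro e he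
    exact pot_D hV hσ hP (c.1 + 1) hn Y hYl hY2 s hs0 hs e he
  · intro g1 g2 hg1 hg2 hg hβ
    obtain ⟨w1, hw1, hi1, hu1⟩ := out_inc hg1
    obtain ⟨w2, hw2, hi2, hu2⟩ := out_inc hg2
    have hw1c := inc_lt hV hi1
    have hw2c := inc_lt hV hi2
    let φ : Edge c → ZMod 2 := fun i => (if g1 = i then 1 else 0) + (if g2 = i then 1 else 0) +
      (cnt (pt w1) i + cnt (pt w2) i)
    have hstar : ∀ (g : Edge c) (v : ℕ), ((star c v).map fun i => if g = i then (1 : ZMod 2)
        else 0).sum = if Inc c v g then 1 else 0 := by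
      intro g v
      rw [sum_ite_list _ (star_nodup c v)]
      by_cases h : Inc c v g
      · rw [if_pos h, if_pos (mem_star.2 h)]
      · rw [if_neg h, if_neg (fun h' => h (mem_star.1 h'))]
    have hφ : ∀ v i, cl v = U → peR c cl U r bo pz v i → ((star c v).map φ).sum = 0 := by
      intro v i hv _
      have e1 : φ = fun i => ((if g1 = i then 1 else 0) + (if g2 = i then 1 else 0)) +
        (cnt (pt w1) i + cnt (pt w2) i) := rfl
      rw [e1, List.sum_map_add, List.sum_map_add, List.sum_map_add, hstar, hstar]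
      have e2 := star_cnt v (pt w1)
      have e3 := star_cnt v (pt w2)
      have e4 := pt_pv hrU h1 h2 h3 v w1 hw1c hw1
      have e5 := pt_pv hrU h1 h2 h3 v w2 hw2c hw2
      have e6 : ((star c v).map fun i => cnt (pt w1) i).sum = pv (pt w1) v := e2
      have e7 : ((star c v).map fun i => cnt (pt w2) i).sum = pv (pt w2) v := e3
      rw [e6, e7, e4, e5]
      have e8 : (if Inc c v g1 then (1 : ZMod 2) else 0) = if v = w1 then 1 else 0 := by
        by_cases h : Inc c v g1
        · rw [if_pos h, if_pos ((hu1 v hv).1 h)]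
        · rw [if_neg h, if_neg (fun h' => h ((hu1 v hv).2 h'))]
      have e9 : (if Inc c v g2 then (1 : ZMod 2) else 0) = if v = w2 then 1 else 0 := by
        by_cases h : Inc c v g2
        · rw [if_pos h, if_pos ((hu2 v hv).1 h)]
        · rw [if_neg h, if_neg (fun h' => h ((hu2 v hv).2 h'))]
      rw [e8, e9]
      have a1 := z2 (if v = w1 then (1 : ZMod 2) else 0)
      have a2 := z2 (if v = w2 then (1 : ZMod 2) else 0)
      have a3 := z2 ((if v = r then (1 : ZMod 2) else 0) + pv bo.toList v)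
      linear_combination a1 + a2 + a3
    refine ⟨fun f => ((Y f).map φ).sum, φ, ?_, ?_⟩
    · intro e he
      exact pot_phi hV hσ hP (c.1 + 1) hn Y hY2 φ hφ e he
    · intro i hi
      obtain ⟨wi, hwi, hii, hui⟩ := out_inc hi
      have key : ∀ w, w < c.1 → cl w = U → cnt (pt w) i = cnt bo.toList i := by
        intro w hw hwU
        obtain ⟨l, hl1, hl2⟩ := pt_mem h1 h2 h3 w hw hwU
        rw [hl1]
        have e1 : cnt (l ++ bo.toList) i = cnt l i + cnt bo.toList i := by
          unfold cnt
          rw [List.map_append, List.sum_append]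
        rw [e1, cnt_zero, zero_add]
        intro h
        obtain ⟨v, hv, hvU, hvr, hiv⟩ := hl2 i h
        obtain ⟨a1, a2, a3, a4, a5, a6⟩ := h1 v hv hvU hvr
        rw [← hiv] at a1 a2
        have b1 := (hui v hvU).1 a1
        have b2 := (hui (par v) a4).1 a2
        exact a3 (b2.trans b1.symm)
      show (if g1 = i then (1 : ZMod 2) else 0) + (if g2 = i then 1 else 0) +
        (cnt (pt w1) i + cnt (pt w2) i) = _
      rw [key w1 hw1c hw1, key w2 hw2c hw2, z2, add_zero]
      simp only [eq_comm]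

end Pool.Agent.Helper2GI
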