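import Mathlib
import Pool.Agent.Helper2GI.Piece

/-!
The right-angled Coxeter group on the regions, and derivations between the corresponding words.
-/

set_option autoImplicit false

namespace Pool.Agent.Helper2GI

open Pool.Agent.W387 RA

variable {c : Code} {σ : Equiv.Perm (Dart c)} {cl : ℕ → ℕ}

variable (c σ cl) in
/-- commutation of regions at a common vertex -/
def RR : RA (Rg c σ cl) where
  adj f f' := f ≠ f' ∧ ∃ d d' : Dart c, tl d = tl d' ∧ reg σ cl d = f ∧ reg σ cl d' = f'
  symm := by
    rintro f f' ⟨h, d, d', h1, h2, h3⟩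
    exact ⟨h.symm, d', d, h1.symm, h3, h2⟩
  irr := fun f h => h.1 rfl

theorem gg_comm {d d' : Dart c} (h : tl d = tl d') :
    (RR c σ cl).g (reg σ cl d) * (RR c σ cl).g (reg σ cl d') =
      (RR c σ cl).g (reg σ cl d') * (RR c σ cl).g (reg σ cl d) := by
  by_cases hh : reg σ cl d = reg σ cl d'
  · rw [hh]
  · exact gcomm ⟨hh, d, d', h, rfl, rfl⟩

section

variable (Y : Rg c σ cl → List (Edge c))

/-- words from regions -/
def yw : Bool → List (Rg c σ cl) → List (Edge c)
  | _, [] => []
  | b, f :: m => (if b then Y f else (Y f).reverse) ++ yw (!b) m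

/-- toggling -/
def tg : Bool → List (Rg c σ cl) → Bool
  | b, [] => b
  | b, _ :: m => tg (!b) m

theorem yw_append (m m' : List (Rg c σ cl)) : ∀ b, yw Y b (m ++ m') =
    yw Y b m ++ yw Y (tg b m) m' := by
  induction m with
  | nil => intro b; rfl
  | cons f m ih =>
    intro b
    show _ ++ yw Y (!b) (m ++ m') = (_ ++ yw Y (!b) m) ++ yw Y (tg (!b) m) m'
    rw [ih, List.append_assoc]

theorem tg_even (m : List (Rg c σ cl)) : ∀ b, m.length % 2 = 0 → tg b m = b := by
  have key : ∀ n, ∀ m : List (Rg c σ cl), m.length = n → ∀ b, n % 2 = 0 → tg b m = b := by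
    intro n
    induction n using Nat.strong_induction_on with
    | _ n IH =>
    intro m hm b hn
    match m, hm with
    | [], _ => rfl
    | [f], h => simp only [List.length_cons, List.length_nil] at h; omega
    | f :: g :: m, h =>
      simp only [List.length_cons] at h
      show tg (!!b) m = b
      rw [Bool.not_not]
      exact IH m.length (by omega) m rfl b (by omega)
  intro b h
  exact key _ m rfl b h

variable {Y} {L : ℕ} (hl : ∀ f, (Y f).length ≤ L)

include hl in
theorem yw_len (m : List (Rg c σ cl)) : ∀ b, (yw Y b m).length ≤ m.length * L := by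
  induction m with
  | nil => intro b; simp [yw]
  | cons f m ih =>
    intro b
    show (_ ++ yw Y (!b) m).length ≤ _
    rw [List.length_append, List.length_cons, Nat.succ_mul]
    have h1 := ih (!b)
    have h2 := hl f
    split_ifs
    · omega
    · rw [List.length_reverse]; omega

variable (hV : Valid c) (hσ : Rotation c σ) {K : ℕ} {sn : ℕ → Edge c → ZMod 2}
  (hD : ∀ e : Dart c, D c K (sn (cl (tl e)) e.1) (Y (reg σ cl (σ⁻¹ e)) ++ [e.1]) (Y (reg σ cl e)))

/-- constant for flips -/
def c1 (c : Code) (K L : ℕ) : ℕ := K + 10 * (L + c.2.1.length) + 10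

include hl hV hσ hD in
theorem flip_D (b : Bool) {f f' : Rg c σ cl} (h : (RR c σ cl).adj f f') :
    D c (c1 c K L) 0 (yw Y b [f, f']) (yw Y b [f', f]) := by
  obtain ⟨_, e, d, hed, rfl, rfl⟩ := h
  obtain ⟨n, hn, hd⟩ := exists_iter hσ hed.symm
  have hpl := per_le hσ hV e
  have h1 := chain_D (σ := σ) (cl := cl) Y (sn (cl (tl e))) K e n (by
    intro m _
    have h2 := hD (σ^[m + 1] e)
    have e1 : σ⁻¹ (σ^[m + 1] e) = σ^[m] e := by rw [Function.iterate_succ_apply', pinv2]
    rw [e1, tl_iter hσ] at h2
    exact h2) n le_rfl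
  rw [hd] at h1
  have h1' := h1.mono (N' := K + c.2.1.length) (by omega)
  set O := orb σ e n with hO
  have hOl : O.length = n := orb_len e n
  set k := (O.map (sn (cl (tl e)))).sum with hk
  set F := Y (reg σ cl e) with hF
  set F' := Y (reg σ cl d) with hF'
  have lF : F.length ≤ L := hl _
  have lF' : F'.length ≤ L := hl _
  have hinc : ∀ i ∈ O, Inc c (tl e) i := orb_inc hσ e n
  have hinc' : ∀ i ∈ O.reverse, Inc c (tl e) i := fun i hi => hinc i (List.mem_reverse.1 hi)
  have hc1 : c1 c K L = K + 10 * (L + c.2.1.length) + 10 := rfl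
  -- the two forms
  have a1 := (h1'.mono (N' := K + c.2.1.length + L) (by omega)).symm (by
    rw [List.length_append]; omega)
  have a2 := D.inv (B := L + c.2.1.length) a1 (by omega) (by rw [List.length_append]; omega)
  rw [List.reverse_append] at a2
  have a3 := D.inv (B := L + c.2.1.length) h1' (by rw [List.length_append]; omega) (by omega)
  rw [List.reverse_append] at a3
  have p1 : D c O.length 0 O O.reverse := D.perm (v := tl e) (List.reverse_perm O).symm hinc
  have p2 : D c O.reverse.length 0 O.reverse O := D.perm (v := tl e) (List.reverse_perm O) hinc'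
  rw [List.length_reverse] at p2
  cases b with
  | false =>
    show D c _ 0 (F.reverse ++ (F' ++ [])) (F'.reverse ++ (F ++ []))
    rw [List.append_nil, List.append_nil]
    have b1 := a1.ctxl F.reverse (N' := c1 c K L) (by rw [List.length_reverse]; omega)
    have b2 := (D.can' F).ctxr O (N' := c1 c K L) (by omega)
    have b3 := p1.mono (N' := c1 c K L) (by omega)
    have b4 := ((D.can' F).symm (by simp; omega)).ctxl O.reverse (N' := c1 c K L) (by
      rw [List.length_reverse]; omega)
    have b5 := a3.ctxr F (N' := c1 c K L) (by omega)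
    rw [← List.append_assoc] at b1
    rw [List.nil_append] at b2
    rw [List.append_nil, ← List.append_assoc] at b4
    refine ((((b1.trans b2).trans b3).trans b4).trans b5).cast ?_ rfl rfl
    have := z2 k
    linear_combination this
  | true =>
    show D c _ 0 (F ++ (F'.reverse ++ [])) (F' ++ (F.reverse ++ []))
    rw [List.append_nil, List.append_nil]
    have b1 := a2.ctxl F (N' := c1 c K L) (by omega)
    have b2 := p2.ctx F F.reverse (N' := c1 c K L) (by rw [List.length_reverse]; omega)
    have b3 := h1'.ctxr F.reverse (N' := c1 c K L) (by rw [List.length_reverse]; omega)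
    rw [← List.append_assoc] at b1
    refine ((b1.trans b2).trans b3).cast ?_ rfl rfl
    have := z2 k
    linear_combination this

include hl hV hσ hD in
theorem fl_D {m m' : List (Rg c σ cl)} (h : (RR c σ cl).sys.Fl m m') :
    ∀ b, D c (c1 c K L + m.length * L) 0 (yw Y b m) (yw Y b m') := by
  induction h with
  | @head a b p q l h =>
    intro x
    obtain ⟨hab, rfl, rfl⟩ := adj_of_sq h
    have h1 := flip_D hl hV hσ hD x hab
    have h2 := yw_len hl l (!!x)
    have h3 := h1.ctxr (yw Y (!!x) l) (N' := c1 c K L + (l.length + 1 + 1) * L) (by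
      simp only [Nat.succ_mul]
      omega)
    have e1 : ∀ u v : Rg c σ cl, yw Y x (u :: v :: l) = yw Y x [u, v] ++ yw Y (!!x) l := by
      intro u v
      simp [yw]
    rw [e1, e1]
    exact h3
  | @cons a l l' h ih =>
    intro x
    have h1 := (ih (!x)).ctxl (if x then Y a else (Y a).reverse)
      (N' := c1 c K L + (a :: l).length * L) (by
      have := hl a
      simp only [List.length_cons, Nat.succ_mul]
      split_ifs
      · omega
      · rw [List.length_reverse]; omega)
    exact h1

include hl hV hσ hD in
theorem E_D {m m' : List (Rg c σ cl)} (h : (RR c σ cl).sys.E m m') (b : Bool) :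
    D c (c1 c K L + m.length * L) 0 (yw Y b m) (yw Y b m') := by
  induction h with
  | refl => exact D.refl _ _
  | tail h1 h2 ih =>
    have h3 := fl_D hl hV hσ hD h2 b
    rw [← SqSys.E.length h1] at h3
    have h4 := ih.trans h3
    rwa [add_zero] at h4

include hl hV hσ hD in
theorem same_D {m m' : List (Rg c σ cl)} (h : (RR c σ cl).Red m) (h' : (RR c σ cl).Red m')
    (e : (RR c σ cl).ev m = (RR c σ cl).ev m') (b : Bool) :
    D c (c1 c K L + m.length * L) 0 (yw Y b m) (yw Y b m') :=
  E_D hl hV hσ hD (SqSys.E_of_evL_eq h h' e) b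

include hl in
theorem can_D (f : Rg c σ cl) (m : List (Rg c σ cl)) (b : Bool) {N : ℕ}
    (hN : 2 * L + m.length * L ≤ N) : D c N 0 (yw Y b (f :: f :: m)) (yw Y b m) := by
  have h1 := hl f
  have h2 := yw_len hl m b
  cases b with
  | false =>
    have h3 := (D.can' (Y f)).ctxr (yw Y false m) (N' := N) (by omega)
    refine h3.cast rfl ?_ (by simp)
    simp [yw]
  | true =>
    have h3 := (D.can (Y f)).ctxr (yw Y true m) (N' := N) (by omega)
    refine h3.cast rfl ?_ (by simp)
    simp [yw]

include hl hV hσ hD in
theorem norm_D (m : List (Rg c σ cl)) : ∃ m', (RR c σ cl).Red m' ∧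
    (RR c σ cl).ev m' = (RR c σ cl).ev m ∧ m'.length ≤ m.length ∧
    ∀ b, D c (c1 c K L + (m.length + 1) * L) 0 (yw Y b m) (yw Y b m') := by
  induction m with
  | nil => exact ⟨[], red_nil, rfl, le_rfl, fun _ => D.refl _ _⟩
  | cons a m ih =>
    obtain ⟨m', hm, hv, hlen, hd⟩ := ih
    have ha := hl a
    have hd' : ∀ b, D c (c1 c K L + ((a :: m).length + 1) * L) 0 (yw Y b (a :: m))
        (yw Y b (a :: m')) := by
      intro b
      refine (hd (!b)).ctxl (if b then Y a else (Y a).reverse) ?_
      simp only [List.length_cons, Nat.succ_mul]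
      split_ifs
      · omega
      · rw [List.length_reverse]; omega
    by_cases hr : (RR c σ cl).Red (a :: m')
    · refine ⟨a :: m', hr, by rw [ev_cons, ev_cons, hv], by simpa using hlen, hd'⟩
    · obtain ⟨m'', h2⟩ := SqSys.exists_tail (S := (RR c σ cl).sys) hm hr
      have h2' : (RR c σ cl).sys.E m' (a :: m'') := h2
      have hev : (RR c σ cl).ev m' = (RR c σ cl).ev (a :: m'') := SqSys.evL_E h2'
      have hml : m'.length = m''.length + 1 := by
        have := SqSys.E.length h2'
        simpa using this
      have hm' : (RR c σ cl).Red m'' := by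
        apply red_of_len
        have h3 := len_ev m' hm
        rw [hev, ev_cons] at h3
        have h4 := len_ev_le (G := RR c σ cl) m''
        rcases len_g_mul a ((RR c σ cl).ev m'') with h5 | h5 <;> omega
      refine ⟨m'', hm', ?_, ?_, ?_⟩
      · rw [ev_cons, ← hv, hev, ev_cons, ← mul_assoc, gg, one_mul]
      · simp only [List.length_cons]; omega
      · intro b
        have hmul : m'.length * L ≤ m.length * L := Nat.mul_le_mul_right _ hlen
        have hmul2 : m''.length * L + L = m'.length * L := by
          rw [hml]; ring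
        have h3 : D c (c1 c K L + ((a :: m).length + 1) * L) 0 (yw Y b (a :: m'))
            (yw Y b (a :: a :: m'')) := by
          refine (E_D hl hV hσ hD h2' (!b)).ctxl (if b then Y a else (Y a).reverse) ?_
          simp only [List.length_cons, Nat.succ_mul]
          split_ifs
          · omega
          · rw [List.length_reverse]; omega
        have h4 := can_D hl a m'' b (N := c1 c K L + ((a :: m).length + 1) * L) (by
          unfold c1
          simp only [List.length_cons, Nat.succ_mul]
          omega)
        have h5 := ((hd' b).trans h3).trans h4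
        simpa using h5

/-- a chosen reduced word -/
noncomputable def rw' (a : (RR c σ cl).W) : List (Rg c σ cl) := (exists_red a).choose

theorem rw_red (a : (RR c σ cl).W) : (RR c σ cl).Red (rw' a) := (exists_red a).choose_spec.1

theorem rw_ev (a : (RR c σ cl).W) : (RR c σ cl).ev (rw' a) = a := (exists_red a).choose_spec.2

theorem rw_len (a : (RR c σ cl).W) : (rw' a).length = (RR c σ cl).len a := by
  rw [← len_ev _ (rw_red a), rw_ev]

include hl hV hσ hD in
/-- every word can be brought into the chosen form -/
theorem word_D (m : List (Rg c σ cl)) (b : Bool) :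
    D c (c1 c K L + (m.length + 1) * L) 0 (yw Y b m) (yw Y b (rw' ((RR c σ cl).ev m))) := by
  obtain ⟨m', h1, h2, h3, h4⟩ := norm_D hl hV hσ hD m
  have h5 := (same_D hl hV hσ hD h1 (rw_red ((RR c σ cl).ev m)) (by rw [rw_ev, h2]) b).mono
    (N' := c1 c K L + (m.length + 1) * L) (by
    have : m'.length * L ≤ m.length * L := Nat.mul_le_mul_right _ h3
    rw [Nat.succ_mul]
    omega)
  have h6 := (h4 b).trans h5
  rwa [add_zero] at h6

variable (c σ cl) in
/-- parity of the length -/
noncomputable def parity : (RR c σ cl).W →* Multiplicative (ZMod 2) :=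
  RA.hom (fun _ => Multiplicative.ofAdd 1) (fun _ => rfl) (fun _ _ _ => rfl)

theorem parity_ev (m : List (Rg c σ cl)) :
    parity c σ cl ((RR c σ cl).ev m) = Multiplicative.ofAdd (m.length : ZMod 2) := by
  induction m with
  | nil => simp
  | cons a m ih =>
    rw [ev_cons, map_mul, ih, parity, RA.hom_g, ← ofAdd_add, List.length_cons]
    push_cast
    rw [add_comm]

theorem even_of_ker {a : (RR c σ cl).W} (h : a ∈ (parity c σ cl).ker) :
    (rw' a).length % 2 = 0 := by
  rw [MonoidHom.mem_ker] at h
  have h1 := parity_ev (rw' a)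
  rw [rw_ev, h] at h1
  have h2 : ((rw' a).length : ZMod 2) = 0 := (Multiplicative.ofAdd.injective h1).symm
  rw [ZMod.natCast_eq_zero_iff] at h2
  omega

end

end Pool.Agent.Helper2GI
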