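import Mathlib
import Pool.Agent.Helper2GI.Model

/-!
Graphs assembled from planar discs in a nonpositively curved pattern.
-/

set_option autoImplicit false

namespace Pool.Agent.Helper2GI

open Pool.Agent.W387 RA

/-- Different clusters joined by an edge. -/
def CAdj (c : Code) (cl : ℕ → ℕ) (P Q : ℕ) : Prop :=
  P ≠ Q ∧ ∃ (u v : ℕ) (i : Edge c), Inc c u i ∧ Inc c v i ∧ cl u = P ∧ cl v = Q

/-- The number of edges leading from the cluster `P` to other clusters. -/
noncomputable def outdeg (c : Code) (cl : ℕ → ℕ) (P : ℕ) : ℕ := Nat.card {i : Edge c // Out c cl P i}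

/-- A division of the vertices into clusters (given by `cl`) which, with respect to the rotation
system `σ`, are planar discs: connected, with Euler characteristic `1`; in addition the clusters
are joined in a nonpositively curved pattern. -/
structure Discs (c : Code) (σ : Equiv.Perm (Dart c)) (hσ : Rotation c σ) (cl : ℕ → ℕ) : Prop where
  joined : ∀ v < c.1, Joined c cl (cl v)
  disc : ∀ v < c.1, nR hσ cl (cl v) + nV c cl (cl v) = nE c cl (cl v) + 1
  out : ∀ v < c.1, 3 ≤ outdeg c cl (cl v)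
  simple : ∀ (P Q : ℕ) (i j : Edge c) (u v u' v' : ℕ), P ≠ Q → Inc c u i → Inc c v i →
    Inc c u' j → Inc c v' j → cl u = P → cl v = Q → cl u' = P → cl v' = Q → i = j
  no3 : ∀ P Q R, CAdj c cl P Q → CAdj c cl Q R → ¬ CAdj c cl R P
  cyc4 : ∀ P Q R T, CAdj c cl P Q → CAdj c cl Q R → CAdj c cl R T → CAdj c cl T P → P ≠ R →
    Q ≠ T → 4 ≤ outdeg c cl P
  cyc5 : ∀ P Q R T W, CAdj c cl P Q → CAdj c cl Q R → CAdj c cl R T → CAdj c cl T W →
    CAdj c cl W P → 4 ≤ outdeg c cl P ∨ 4 ≤ outdeg c cl R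

variable {c : Code} {σ : Equiv.Perm (Dart c)} {cl : ℕ → ℕ}

theorem CAdj.symm {P Q : ℕ} (h : CAdj c cl P Q) : CAdj c cl Q P := by
  obtain ⟨h1, u, v, i, a, b, d, e⟩ := h
  exact ⟨h1.symm, v, u, i, b, a, e, d⟩

/-- edges between clusters -/
def Jn (c : Code) (cl : ℕ → ℕ) (P Q : ℕ) (i : Edge c) : Prop :=
  ∃ u v, Inc c u i ∧ Inc c v i ∧ cl u = P ∧ cl v = Q

theorem Jn.symm {P Q : ℕ} {i : Edge c} (h : Jn c cl P Q i) : Jn c cl Q P i := by
  obtain ⟨u, v, a, b, d, e⟩ := h
  exact ⟨v, u, b, a, e, d⟩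

theorem Jn.out {P Q : ℕ} (hPQ : P ≠ Q) {i : Edge c} (h : Jn c cl P Q i) : Out c cl P i := by
  obtain ⟨u, v, a, b, d, e⟩ := h
  obtain ⟨x, hx1, hx2⟩ := inc_cases a
  obtain ⟨y, hy1, hy2⟩ := inc_cases b
  refine ⟨x, hx1, by rw [hx2, d], ?_⟩
  rcases same_edge (hy1.trans hx1.symm) with h1 | h1
  · exfalso
    apply hPQ
    rw [← d, ← e, ← hx2, ← hy2, h1]
  · rw [← h1, hy2, e]
    exact hPQ.symm

theorem exists_out {P : ℕ} (l : List (Edge c)) (h : l.length < outdeg c cl P) :
    ∃ g, Out c cl P g ∧ g ∉ l := by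
  classical
  by_contra hc
  push Not at hc
  have h1 : outdeg c cl P ≤ l.length := by
    unfold outdeg
    rw [Nat.card_eq_fintype_card, Fintype.card_subtype]
    have h2 : (Finset.univ.filter fun i => Out c cl P i) ⊆ l.toFinset := by
      intro i hi
      rw [Finset.mem_filter] at hi
      exact List.mem_toFinset.2 (hc i hi.2)
    exact (Finset.card_le_card h2).trans (List.toFinset_card_le l)
  omega

/-- disc data -/
theorem disc_data (hV : Valid c) (hσ : Rotation c σ) (hM : Discs c σ hσ cl) (U : ℕ) :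
    ∃ (Y : Rg c σ cl → List (Edge c)) (s : Edge c → ZMod 2), (∃ v < c.1, cl v = U) →
      ∃ β : ℕ → ZMod 2, PD c σ cl U Y s β ∧ ∀ v, cl v = U → β v = 0 := by
  by_cases h : ∃ v < c.1, cl v = U
  · obtain ⟨v, hv, rfl⟩ := h
    obtain ⟨g, hg, _⟩ := exists_out (c := c) (cl := cl) (P := cl v) []
      (by have := hM.out v hv; simp only [List.length_nil]; omega)
    obtain ⟨r, hr, hi, hu⟩ := out_inc hg
    have hB : Base c cl (cl v) r (some g) := by
      intro h' hh
      have : g = h' := Option.some.inj hh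
      subst this
      exact ⟨hi, fun w hw hwi => (hu w hw).1 hwi⟩
    obtain ⟨Y, s, hP⟩ := piece_data hV hσ (hM.joined v hv) r (inc_lt hV hi) hr (some g) ⟨g⟩ hB (by
      have := hM.disc v hv
      simp only [Option.toList_some, List.length_singleton]
      omega)
    refine ⟨Y, s, fun _ => ⟨_, hP, ?_⟩⟩
    intro w hw
    simp only [Option.toList_some]
    unfold pv
    simp only [List.map_cons, List.map_nil, List.sum_cons, List.sum_nil, add_zero]
    by_cases hwr : w = r
    · subst hwr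
      rw [if_pos rfl, if_pos hi]
      rfl
    · rw [if_neg hwr, if_neg (fun h => hwr ((hu w hw).1 h)), add_zero]
  · exact ⟨fun _ => [], fun _ => 0, fun h' => absurd h' h⟩

section Elements

variable (hσ : Rotation c σ)

variable (σ cl) in
/-- the element of a dart -/
noncomputable def gp (e : Dart c) : (RR c σ cl).W :=
  (RR c σ cl).g (reg σ cl (σ⁻¹ e)) * (RR c σ cl).g (reg σ cl e)

include hσ in
theorem gp_comm {e d : Dart c} (h : tl e = tl d) : gp σ cl e * gp σ cl d = gp σ cl d * gp σ cl e := by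
  have h1 : tl (σ⁻¹ e) = tl d := by rw [tl_inv hσ]; exact h
  have h2 : tl (σ⁻¹ d) = tl e := by rw [tl_inv hσ]; exact h.symm
  have a1 := gg_comm (σ := σ) (cl := cl) (h1.trans ((tl_inv hσ d).symm))
  have a2 := gg_comm (σ := σ) (cl := cl) h1
  have a3 := gg_comm (σ := σ) (cl := cl) h2.symm
  have a4 := gg_comm (σ := σ) (cl := cl) h
  unfold gp
  set x := (RR c σ cl).g (reg σ cl (σ⁻¹ e))
  set y := (RR c σ cl).g (reg σ cl e)
  set z := (RR c σ cl).g (reg σ cl (σ⁻¹ d))
  set w := (RR c σ cl).g (reg σ cl d)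
  calc x * y * (z * w) = x * (y * z) * w := by group
    _ = x * (z * y) * w := by rw [a3]
    _ = (x * z) * (y * w) := by group
    _ = (z * x) * (w * y) := by rw [a1, a4]
    _ = z * (x * w) * y := by group
    _ = z * (w * x) * y := by rw [a2]
    _ = z * w * (x * y) := by group

include hσ in
theorem gp_sq (e : Dart c) : gp σ cl e * gp σ cl e = 1 := by
  have h1 := gg_comm (σ := σ) (cl := cl) (tl_inv hσ e)
  unfold gp
  set x := (RR c σ cl).g (reg σ cl (σ⁻¹ e)) with hx
  set y := (RR c σ cl).g (reg σ cl e) with hy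
  have hxx : x * x = 1 := gg _
  have hyy : y * y = 1 := gg _
  calc x * y * (x * y) = x * (y * x) * y := by group
    _ = x * (x * y) * y := by rw [h1]
    _ = (x * x) * (y * y) := by group
    _ = 1 := by rw [hxx, hyy, one_mul]

include hσ in
theorem gp_op {e : Dart c} (h : inn cl e) : gp σ cl (op e) = gp σ cl e := by
  unfold gp
  rw [reg_op h, reg_op' h]
  exact gg_comm (tl_inv hσ e).symm

variable (σ cl) in
open Classical in
/-- the element of an edge in a cluster -/
noncomputable def el (P : ℕ) (i : Edge c) : (RR c σ cl).W :=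
  if cl (tl ((i, false) : Dart c)) = P then gp σ cl (i, false) else gp σ cl (i, true)

include hσ in
theorem el_eq {P : ℕ} {e : Dart c} (h : cl (tl e) = P) : el σ cl P e.1 = gp σ cl e := by
  unfold el
  obtain ⟨i, b⟩ := e
  cases b with
  | false => rw [if_pos h]
  | true =>
    split_ifs with h1
    · have hin : inn cl ((i, true) : Dart c) := by
        unfold inn
        rw [h]
        exact h1.symm
      exact gp_op hσ hin
    · rfl

include hσ in
theorem el_at {v : ℕ} {i : Edge c} (h : Inc c v i) :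
    ∃ e : Dart c, e.1 = i ∧ tl e = v ∧ el σ cl (cl v) i = gp σ cl e := by
  obtain ⟨e, h1, h2⟩ := inc_cases h
  refine ⟨e, h1, h2, ?_⟩
  rw [← h1]
  exact el_eq hσ (by rw [h2])

/-- telescoping -/
theorem tele (e : Dart c) : ∀ n, ((List.range n).map fun j => gp σ cl (σ^[j + 1] e)).prod =
    (RR c σ cl).g (reg σ cl e) * (RR c σ cl).g (reg σ cl (σ^[n] e)) := by
  intro n
  induction n with
  | zero =>
    simp only [List.range_zero, List.map_nil, List.prod_nil, Function.iterate_zero, id]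
    exact (gg _).symm
  | succ n ih =>
    rw [List.range_succ, List.map_append, List.prod_append, ih]
    simp only [List.map_cons, List.map_nil, List.prod_cons, List.prod_nil, mul_one]
    have e1 : σ⁻¹ (σ^[n + 1] e) = σ^[n] e := by rw [Function.iterate_succ_apply', pinv2]
    unfold gp
    rw [e1]
    have h1 : (RR c σ cl).g (reg σ cl (σ^[n] e)) * (RR c σ cl).g (reg σ cl (σ^[n] e)) = 1 := gg _
    calc _ = (RR c σ cl).g (reg σ cl e) * ((RR c σ cl).g (reg σ cl (σ^[n] e)) *
        (RR c σ cl).g (reg σ cl (σ^[n] e))) * (RR c σ cl).g (reg σ cl (σ^[n + 1] e)) := by group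
      _ = _ := by rw [h1, mul_one]

include hσ in
theorem el_prod2 (hV : Valid c) (v : ℕ) : ((star c v).map (el σ cl (cl v))).prod = 1 := by
  cases hst : star c v with
  | nil => rfl
  | cons i l =>
    have hi : Inc c v i := mem_star.1 (by rw [hst]; simp)
    obtain ⟨e, he1, he2, _⟩ := el_at (cl := cl) hσ hi
    have hperm := orb_perm hσ hV e
    rw [he2] at hperm
    have hperm2 : (orb σ e (per σ e - 1) ++ [e.1]).Perm (star c v) :=
      (List.perm_append_singleton e.1 _).trans hperm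
    have h1 : ((star c v).map (el σ cl (cl v))).prod =
        ((orb σ e (per σ e - 1) ++ [e.1]).map (el σ cl (cl v))).prod := by
      refine ((hperm2.map (el σ cl (cl v))).prod_eq' ?_).symm
      refine List.pairwise_of_forall_mem_list ?_
      intro a ha b hb
      rw [List.mem_map] at ha hb
      obtain ⟨j, hj, rfl⟩ := ha
      obtain ⟨k, hk, rfl⟩ := hb
      obtain ⟨x, _, hx2, hx3⟩ := el_at (cl := cl) hσ (mem_star.1 (hperm2.mem_iff.1 hj))
      obtain ⟨y, _, hy2, hy3⟩ := el_at (cl := cl) hσ (mem_star.1 (hperm2.mem_iff.1 hk))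
      rw [hx3, hy3]
      exact gp_comm hσ (hx2.trans hy2.symm)
    rw [← hst, h1, List.map_append, List.prod_append]
    have h2 : (orb σ e (per σ e - 1)).map (el σ cl (cl v)) =
        (List.range (per σ e - 1)).map fun j => gp σ cl (σ^[j + 1] e) := by
      unfold orb
      rw [List.map_map]
      apply List.map_congr_left
      intro j _
      exact el_eq hσ (by rw [tl_iter hσ, he2])
    rw [h2, tele, per_last]
    simp only [List.map_cons, List.map_nil, List.prod_cons, List.prod_nil, mul_one]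
    rw [el_eq hσ (by rw [he2])]
    unfold gp
    have h3 : (RR c σ cl).g (reg σ cl (σ⁻¹ e)) * (RR c σ cl).g (reg σ cl (σ⁻¹ e)) = 1 := gg _
    have h4 : (RR c σ cl).g (reg σ cl e) * (RR c σ cl).g (reg σ cl e) = 1 := gg _
    calc _ = (RR c σ cl).g (reg σ cl e) * ((RR c σ cl).g (reg σ cl (σ⁻¹ e)) *
        (RR c σ cl).g (reg σ cl (σ⁻¹ e))) * (RR c σ cl).g (reg σ cl e) := by group
      _ = 1 := by rw [h3, mul_one, h4]

end Elements

section Local

variable (hV : Valid c) (hσ : Rotation c σ) (hM : Discs c σ hσ cl)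

include hV hσ hM in
/-- separating outgoing edges -/
theorem sep_hom {P : ℕ} {h1 h2 : Edge c} (g1 : Out c cl P h1) (g2 : Out c cl P h2)
    (hne : h1 ≠ h2) : ∃ ψ : (RR c σ cl).W →* Multiplicative (ZMod 2), ∀ i, Out c cl P i →
      ψ (el σ cl P i) = Multiplicative.ofAdd ((if i = h1 then 1 else 0) + (if i = h2 then 1 else 0)) := by
  obtain ⟨v, hv, hi, _⟩ := out_inc g1
  obtain ⟨Y, s, hY⟩ := disc_data hV hσ hM P
  obtain ⟨β, hPD, hβ⟩ := hY ⟨v, inc_lt hV hi, hv⟩
  obtain ⟨y, φ, hy, hφ⟩ := hPD.sep h1 h2 g1 g2 hne hβ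
  refine ⟨RA.hom (fun f => Multiplicative.ofAdd (y f)) ?_ ?_, ?_⟩
  · intro f
    rw [← ofAdd_add, z2]
    rfl
  · intro f f' _
    exact mul_comm _ _
  · intro i hi
    obtain ⟨e, rfl, he, _⟩ := hi
    rw [el_eq hσ he]
    unfold gp
    rw [map_mul, RA.hom_g, RA.hom_g, ← ofAdd_add, ← hφ e.1 ⟨e, rfl, he, by assumption⟩, hy e he]
    congr 1
    have := z2 (y (reg σ cl (σ⁻¹ e)))
    linear_combination this

include hV hσ hM in
theorem el_ne {P : ℕ} (hd : 3 ≤ outdeg c cl P) {i : Edge c} (hi : Out c cl P i) :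
    el σ cl P i ≠ 1 := by
  intro h
  obtain ⟨g, hg, hgi⟩ := exists_out (c := c) (cl := cl) (P := P) [i] (by simp only [List.length_cons, List.length_nil]; omega)
  have hig : i ≠ g := fun h => hgi (by simp [h])
  obtain ⟨ψ, hψ⟩ := sep_hom hV hσ hM hi hg hig
  have h1 := hψ i hi
  rw [h, map_one, if_pos rfl, if_neg hig] at h1
  exact absurd h1 (by decide)

include hV hσ hM in
theorem el_inj {P : ℕ} (hd : 3 ≤ outdeg c cl P) {i j : Edge c} (hi : Out c cl P i)
    (hj : Out c cl P j) (h : el σ cl P i = el σ cl P j) : i = j := by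
  by_contra hij
  obtain ⟨g, hg, hgi⟩ := exists_out (c := c) (cl := cl) (P := P) [i, j] (by simp only [List.length_cons, List.length_nil]; omega)
  have hig : i ≠ g := fun h => hgi (by simp [h])
  have hjg : j ≠ g := fun h => hgi (by simp [h])
  obtain ⟨ψ, hψ⟩ := sep_hom hV hσ hM hi hg hig
  have h1 := hψ i hi
  have h2 := hψ j hj
  rw [h, h2, if_pos rfl, if_neg hig, if_neg hjg, if_neg (Ne.symm hij)] at h1
  exact absurd h1 (by decide)

include hV hσ hM in
theorem el_light {P : ℕ} (hd : 4 ≤ outdeg c cl P) {i j k : Edge c} (hi : Out c cl P i)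
    (hj : Out c cl P j) (hk : Out c cl P k) : el σ cl P i * el σ cl P j ≠ el σ cl P k := by
  intro h
  obtain ⟨g, hg, hgi⟩ := exists_out (c := c) (cl := cl) (P := P) [i, j, k] (by simp only [List.length_cons, List.length_nil]; omega)
  have hgi' : i ≠ g := fun h => hgi (by simp [h])
  have hgj' : j ≠ g := fun h => hgi (by simp [h])
  have hgk' : k ≠ g := fun h => hgi (by simp [h])
  have key : ∀ f, Out c cl P f → f ≠ g →
      (if i = f then (1 : ZMod 2) else 0) + (if j = f then 1 else 0) = if k = f then 1 else 0 := by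
    intro f hf hfg
    obtain ⟨ψ, hψ⟩ := sep_hom hV hσ hM hf hg hfg
    have h1 := hψ i hi
    have h2 := hψ j hj
    have h3 := hψ k hk
    rw [if_neg hgi', add_zero] at h1
    rw [if_neg hgj', add_zero] at h2
    rw [if_neg hgk', add_zero] at h3
    have h4 := congrArg ψ h
    rw [map_mul, h1, h2, h3, ← ofAdd_add] at h4
    exact Multiplicative.ofAdd.injective h4
  have h1 := key i hi hgi'
  have h2 := key j hj hgj'
  have h3 := key k hk hgk'
  by_cases hij : i = j
  · subst hij
    rw [if_pos rfl] at h3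
    by_cases hik : i = k
    · subst hik
      rw [if_pos rfl] at h3
      exact absurd h3 (by decide)
    · rw [if_neg hik] at h3
      exact absurd h3 (by decide)
  · rw [if_pos rfl, if_neg (Ne.symm hij)] at h1
    rw [if_neg hij, if_pos rfl] at h2
    by_cases hki : k = i
    · subst hki
      rw [if_neg hij] at h2
      exact absurd h2 (by decide)
    · rw [if_neg hki] at h1
      exact absurd h1 (by decide)

open Classical in
variable (σ cl) in
/-- glueing elements -/
noncomputable def cx (P Q : ℕ) : (RR c σ cl).W :=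
  if h : ∃ i, Jn c cl P Q i then el σ cl P h.choose else 1

include hM in
theorem jn_unique {P Q : ℕ} (hPQ : P ≠ Q) {i j : Edge c} (h : Jn c cl P Q i)
    (h' : Jn c cl P Q j) : i = j := by
  obtain ⟨u, v, a1, a2, a3, a4⟩ := h
  obtain ⟨u', v', b1, b2, b3, b4⟩ := h'
  exact hM.simple P Q i j u v u' v' hPQ a1 a2 b1 b2 a3 a4 b3 b4

include hM in
theorem cx_eq {P Q : ℕ} (hPQ : P ≠ Q) {i : Edge c} (h : Jn c cl P Q i) :
    cx σ cl P Q = el σ cl P i := by
  unfold cx
  have hex : ∃ i, Jn c cl P Q i := ⟨i, h⟩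
  rw [dif_pos hex, jn_unique hσ hM hPQ hex.choose_spec h]

open Classical in
variable (c cl) in
/-- glueing signs -/
noncomputable def ct (sn : ℕ → Edge c → ZMod 2) (P Q : ℕ) : ZMod 2 :=
  ∑ i : Edge c, if Jn c cl P Q i then sn P i + sn Q i else 0

theorem ct_symm (sn : ℕ → Edge c → ZMod 2) (P Q : ℕ) : ct c cl sn P Q = ct c cl sn Q P := by
  unfold ct
  apply Finset.sum_congr rfl
  intro i _
  by_cases h : Jn c cl P Q i
  · rw [if_pos h, if_pos h.symm, add_comm]
  · rw [if_neg h, if_neg (fun h' => h h'.symm)]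

include hM in
theorem ct_eq (sn : ℕ → Edge c → ZMod 2) {P Q : ℕ} (hPQ : P ≠ Q) {i : Edge c}
    (h : Jn c cl P Q i) : ct c cl sn P Q = sn P i + sn Q i := by
  unfold ct
  rw [Finset.sum_eq_single i]
  · rw [if_pos h]
  · intro j _ hj
    rw [if_neg]
    intro h'
    exact hj (jn_unique hσ hM hPQ h' h)
  · intro h
    exact absurd (Finset.mem_univ _) h

theorem cadj_jn {P Q : ℕ} (h : CAdj c cl P Q) : ∃ i, Jn c cl P Q i := by
  obtain ⟨_, u, v, i, a, b, d, e⟩ := h
  exact ⟨i, u, v, a, b, d, e⟩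

include hV hM in
theorem out3 {P Q : ℕ} (h : CAdj c cl P Q) : 3 ≤ outdeg c cl P := by
  obtain ⟨_, u, v, i, a, b, d, e⟩ := h
  rw [← d]
  exact hM.out u (inc_lt hV a)

include hV hM in
theorem light_out {P Q R T : ℕ} (hu : CAdj c cl P Q) (hw : CAdj c cl P R) (hz : CAdj c cl P T)
    (h : cx σ cl P Q * cx σ cl P R = cx σ cl P T) : ¬ 4 ≤ outdeg c cl P := by
  intro hd
  obtain ⟨i, hi⟩ := cadj_jn hu
  obtain ⟨j, hj⟩ := cadj_jn hw
  obtain ⟨k, hk⟩ := cadj_jn hz
  rw [cx_eq hσ hM hu.1 hi, cx_eq hσ hM hw.1 hj, cx_eq hσ hM hz.1 hk] at h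
  exact el_light hV hσ hM hd (hi.out hu.1) (hj.out hw.1) (hk.out hz.1) h

/-- the system of glued groups -/
noncomputable def mixD (sn : ℕ → Edge c → ZMod 2) : Mix ℕ (RR c σ cl).W where
  adj := CAdj c cl
  x := cx σ cl
  τ := ct c cl sn
  symm := CAdj.symm
  irr := fun v h => h.1 rfl
  tri := fun {u v w} h1 h2 h3 => hM.no3 u v w h1 h2 h3.symm
  τs := ct_symm sn
  sq := by
    intro u v h
    obtain ⟨i, hi⟩ := cadj_jn h
    rw [cx_eq hσ hM h.1 hi]
    obtain ⟨e, rfl, he, _⟩ := hi.out h.1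
    rw [el_eq hσ he]
    exact gp_sq hσ e
  ne := by
    intro u v h
    obtain ⟨i, hi⟩ := cadj_jn h
    rw [cx_eq hσ hM h.1 hi]
    exact el_ne hV hσ hM (out3 hV hσ hM h) (hi.out h.1)
  inj := by
    intro u v w h h' hh
    obtain ⟨i, hi⟩ := cadj_jn h
    obtain ⟨j, hj⟩ := cadj_jn h'
    rw [cx_eq hσ hM h.1 hi, cx_eq hσ hM h'.1 hj] at hh
    have hij := el_inj hV hσ hM (out3 hV hσ hM h) (hi.out h.1) (hj.out h'.1) hh
    subst hij
    obtain ⟨a, b, ha, hb, hau, hbv⟩ := hi
    obtain ⟨a', b', ha', hb', hau', hbw⟩ := hj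
    have hab : a ≠ b := by
      rintro rfl
      exact h.1 (hau.symm.trans hbv)
    rcases two_ends ha hb hab hb' with h1 | h1
    · exfalso
      apply h'.1
      rw [← hbw, h1, hau]
    · rw [← hbv, ← hbw, h1]
  c4 := by
    rintro v a b d h1 h2 h3 h4 h5 h6 ⟨u, w, z, hu, hw, hz, h⟩
    exact light_out hV hσ hM hu hw hz h (hM.cyc4 v a b d h1 h2 h3 h4 h5 h6)
  c5 := by
    rintro a b d e f h1 h2 h3 h4 h5 ⟨u, w, z, hu, hw, hz, h⟩ ⟨u', w', z', hu', hw', hz', h'⟩
    rcases hM.cyc5 a b d e f h1 h2 h3 h4 h5 with h6 | h6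
    · exact light_out hV hσ hM hu hw hz h h6
    · exact light_out hV hσ hM hu' hw' hz' h' h6

end Local

end Pool.Agent.Helper2GI
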