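import Mathlib
import Pool.Agent.Helper2GI.Mosaic

/-!
The realisation of graphs assembled from planar discs, and the solution of the word problem.
-/

set_option autoImplicit false

namespace Pool.Agent.Helper2GI

open Pool.Agent.W387 RA

variable {c : Code} {σ : Equiv.Perm (Dart c)} {cl : ℕ → ℕ}

/-- bounds on potentials, for all clusters together -/
structure Pots (c : Code) (σ : Equiv.Perm (Dart c)) (cl : ℕ → ℕ) (Y : Rg c σ cl → List (Edge c))
    (sn : ℕ → Edge c → ZMod 2) : Prop where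
  len : ∀ f, (Y f).length ≤ 2 * c.2.1.length
  D : ∀ e : Dart c, D c (cN c (c.1 + 1)) (sn (cl (tl e)) e.1)
    (Y (reg σ cl (σ⁻¹ e)) ++ [e.1]) (Y (reg σ cl e))
  sum : ∀ v, v < c.1 → ((star c v).map (sn (cl v))).sum = (colour c v : ZMod 2)

theorem exists_pots (hV : Valid c) (hσ : Rotation c σ) (hM : Discs c σ hσ cl) :
    ∃ Y sn, Pots c σ cl Y sn := by
  choose Y s h using disc_data hV hσ hM
  refine ⟨fun f => if ∃ v < c.1, cl v = rcl hσ f then Y (rcl hσ f) f else [], s, ?_, ?_, ?_⟩
  · intro f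
    split_ifs with h1
    · obtain ⟨β, hP, _⟩ := h _ h1
      exact hP.len f
    · simp
  · intro e
    have h1 : ∃ v < c.1, cl v = cl (tl e) := ⟨tl e, tl_lt hV e, rfl⟩
    obtain ⟨β, hP, _⟩ := h _ h1
    have h2 : rcl hσ (reg σ cl e) = cl (tl e) := rfl
    have h3 : rcl hσ (reg σ cl (σ⁻¹ e)) = cl (tl e) := by rw [rcl_reg, tl_inv hσ]
    simp only [h2, h3]
    rw [if_pos h1, if_pos h1]
    exact hP.D e rfl
  · intro v hv
    obtain ⟨β, hP, hβ⟩ := h (cl v) ⟨v, hv, rfl⟩
    rw [hP.sum v hv rfl, hβ v rfl, zero_mul, add_zero]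

/-- bound function -/
def AA (c : Code) (k : ℕ) : ℕ :=
  c1 c (cN c (c.1 + 1)) (2 * c.2.1.length) + (k + 6) * (2 * c.2.1.length + 1)

theorem len_gp_le (e : Dart c) : (RR c σ cl).len (gp σ cl e) ≤ 2 := by
  unfold gp
  have h1 := len_mul_le ((RR c σ cl).g (reg σ cl (σ⁻¹ e))) ((RR c σ cl).g (reg σ cl e))
  have h2 := len_ev_le (G := RR c σ cl) [reg σ cl (σ⁻¹ e)]
  have h3 := len_ev_le (G := RR c σ cl) [reg σ cl e]
  rw [ev_single] at h2 h3
  simp only [List.length_singleton] at h2 h3
  omega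

theorem gp_mem (e : Dart c) : gp σ cl e ∈ (parity c σ cl).ker := by
  rw [MonoidHom.mem_ker]
  unfold gp parity
  rw [map_mul, RA.hom_g, RA.hom_g]
  rfl

section

variable {Y : Rg c σ cl → List (Edge c)} {sn : ℕ → Edge c → ZMod 2} (hY : Pots c σ cl Y sn)

include hY in
theorem repD_mul (hV : Valid c) (hσ : Rotation c σ) {a b : (RR c σ cl).W}
    (ha : a ∈ (parity c σ cl).ker) :
    D c (AA c ((RR c σ cl).len a + (RR c σ cl).len b)) 0 (yw Y false (rw' a) ++ yw Y false (rw' b))
      (yw Y false (rw' (a * b))) := by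
  have h1 := word_D hY.len hV hσ hY.D (rw' a ++ rw' b) false
  rw [ev_append, rw_ev, rw_ev, yw_append, tg_even _ _ (even_of_ker ha), List.length_append,
    rw_len, rw_len] at h1
  refine h1.mono ?_
  unfold AA
  have : ((RR c σ cl).len a + (RR c σ cl).len b + 1) * (2 * c.2.1.length) ≤
      ((RR c σ cl).len a + (RR c σ cl).len b + 6) * (2 * c.2.1.length + 1) :=
    Nat.mul_le_mul (by omega) (by omega)
  omega

include hY in
theorem repD_el (hV : Valid c) (hσ : Rotation c σ) (e : Dart c) :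
    D c (AA c 2) (sn (cl (tl e)) e.1) [e.1] (yw Y false (rw' (gp σ cl e))) := by
  have hl1 := hY.len (reg σ cl (σ⁻¹ e))
  have hA : AA c 2 = c1 c (cN c (c.1 + 1)) (2 * c.2.1.length) + 8 * (2 * c.2.1.length + 1) := rfl
  have hc1 : c1 c (cN c (c.1 + 1)) (2 * c.2.1.length) =
    cN c (c.1 + 1) + 10 * (2 * c.2.1.length + c.2.1.length) + 10 := rfl
  have h1 := ((D.can' (Y (reg σ cl (σ⁻¹ e)))).symm (by simp; omega)).ctxr [e.1] (N' := AA c 2) (by
    simp only [List.length_singleton]
    omega)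
  have h2 := (hY.D e).ctxl (Y (reg σ cl (σ⁻¹ e))).reverse (N' := AA c 2) (by
    rw [List.length_reverse]
    omega)
  have h3 := (word_D hY.len hV hσ hY.D [reg σ cl (σ⁻¹ e), reg σ cl e] false).mono
    (N' := AA c 2) (by
    simp only [List.length_cons, List.length_nil]
    omega)
  have e1 : (RR c σ cl).ev [reg σ cl (σ⁻¹ e), reg σ cl e] = gp σ cl e := by
    rw [ev_cons, ev_single]
    rfl
  have e2 : yw Y false [reg σ cl (σ⁻¹ e), reg σ cl e] =
      (Y (reg σ cl (σ⁻¹ e))).reverse ++ Y (reg σ cl e) := by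
    simp [yw]
  rw [e1, e2] at h3
  rw [List.append_assoc] at h1
  have h4 := (h1.trans h2).trans h3
  simpa using h4

/-- the realisation -/
noncomputable def realD (hV : Valid c) (hσ : Rotation c σ) (hM : Discs c σ hσ cl) :
    Real c (mixD hV hσ hM sn) where
  nm := { nrm := (RR c σ cl).len
          loc := fun _ => (parity c σ cl).ker
          κ := 2
          mul := len_mul_le
          x := by
            intro u v h
            obtain ⟨i, hi⟩ := cadj_jn h
            show (RR c σ cl).len (cx σ cl u v) ≤ 2 ∧ cx σ cl u v ∈ _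
            rw [cx_eq hσ hM h.1 hi]
            obtain ⟨e, rfl, he, _⟩ := hi.out h.1
            rw [el_eq hσ he]
            exact ⟨len_gp_le e, gp_mem e⟩ }
  cl := cl
  el := el σ cl
  sn := sn
  rep _ a := yw Y false (rw' a)
  A := AA c
  el_sq := by
    intro v i h
    obtain ⟨e, _, _, h3⟩ := el_at (cl := cl) hσ h
    rw [h3]
    exact gp_sq hσ e
  el_comm := by
    intro v i j h h'
    obtain ⟨e, _, h2, h3⟩ := el_at (cl := cl) hσ h
    obtain ⟨d, _, g2, g3⟩ := el_at (cl := cl) hσ h'
    rw [h3, g3]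
    exact gp_comm hσ (h2.trans g2.symm)
  el_prod v _ := el_prod2 hσ hV v
  sn_sum := hY.sum
  edge := by
    intro u v i hu hv huv
    have hj : Jn c cl (cl u) (cl v) i := ⟨u, v, hu, hv, rfl, rfl⟩
    exact ⟨⟨huv, u, v, i, hu, hv, rfl, rfl⟩, cx_eq hσ hM huv hj, ct_eq hσ hM sn huv hj⟩
  adjE := by
    rintro P Q ⟨_, u, v, i, a, b, d, e⟩
    exact ⟨u, v, i, a, b, d, e⟩
  el_nm := by
    intro v i h
    obtain ⟨e, _, _, h3⟩ := el_at (cl := cl) hσ h
    show (RR c σ cl).len (el σ cl (cl v) i) ≤ 2 ∧ el σ cl (cl v) i ∈ _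
    rw [h3]
    exact ⟨len_gp_le e, gp_mem e⟩
  A_mono := by
    intro a b h
    unfold AA
    have := Nat.mul_le_mul_right (2 * c.2.1.length + 1) (show a + 6 ≤ b + 6 by omega)
    omega
  rep_one := by
    intro v
    have h1 : (rw' (1 : (RR c σ cl).W)).length = 0 := by rw [rw_len, len_one]
    rw [List.eq_nil_of_length_eq_zero h1]
    rfl
  rep_len := by
    intro v a _
    have h1 := yw_len hY.len (rw' a) false
    rw [rw_len] at h1
    show (yw Y false (rw' a)).length ≤ AA c ((RR c σ cl).len a)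
    unfold AA
    have : (RR c σ cl).len a * (2 * c.2.1.length) ≤
      ((RR c σ cl).len a + 6) * (2 * c.2.1.length + 1) := Nat.mul_le_mul (by omega) (by omega)
    omega
  rep_mul := by
    intro v a b ha _
    exact repD_mul hY hV hσ ha
  rep_el := by
    intro v i h
    obtain ⟨e, h1, h2, h3⟩ := el_at (cl := cl) hσ h
    rw [h3, ← h1, ← h2]
    exact repD_el hY hV hσ e

end

theorem primrec_pow5 : Primrec (fun n : ℕ => 5 ^ n) := by
  have h : Primrec (fun n : ℕ => (fun k => 5 * k)^[n] 1) :=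
    Primrec.nat_iterate (Primrec.id) (Primrec.const 1)
      (Primrec.nat_mul.comp (Primrec.const 5) Primrec.snd).to₂
  refine h.of_eq ?_
  intro n
  induction n with
  | zero => rfl
  | succ n ih => rw [Function.iterate_succ_apply', ih, pow_succ']

/-- the bound on the lengths in derivations -/
def bnd (q : Code × List ℕ) : ℕ :=
  q.2.length * (AA q.1 2 + 1) + AA q.1 2 + 3 +
      ((4 * AA q.1 (2 * (2 * 2 * 5 ^ q.2.length) + 2 * 2) + 4) +
        q.2.length * AA q.1 (2 * 2 * 5 ^ q.2.length) + 2)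

theorem primrec_AA {α : Type} [Primcodable α] {f : α → Code} {g : α → ℕ} (hf : Primrec f)
    (hg : Primrec g) : Primrec (fun a => AA (f a) (g a)) := by
  have hE : Primrec (fun a => (f a).2.1.length) := primrec_elen.comp hf
  have hn : Primrec (fun a => (f a).1) := Primrec.fst.comp hf
  have h2E : Primrec (fun a => 2 * (f a).2.1.length) := Primrec.nat_mul.comp (Primrec.const 2) hE
  have hcN : Primrec (fun a => 4 * (f a).2.1.length + 4 + ((f a).1 + 1) * ((f a).2.1.length + 1)) :=
    Primrec.nat_add.comp (Primrec.nat_add.comp (Primrec.nat_mul.comp (Primrec.const 4) hE)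
      (Primrec.const 4)) (Primrec.nat_mul.comp (Primrec.succ.comp hn) (Primrec.succ.comp hE))
  have hc1 : Primrec (fun a => 4 * (f a).2.1.length + 4 + ((f a).1 + 1) * ((f a).2.1.length + 1) +
      10 * (2 * (f a).2.1.length + (f a).2.1.length) + 10) :=
    Primrec.nat_add.comp (Primrec.nat_add.comp hcN (Primrec.nat_mul.comp (Primrec.const 10)
      (Primrec.nat_add.comp h2E hE))) (Primrec.const 10)
  exact Primrec.nat_add.comp hc1 (Primrec.nat_mul.comp (Primrec.nat_add.comp hg (Primrec.const 6))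
    (Primrec.succ.comp h2E))

theorem primrec_bnd : Primrec bnd := by
  have hn : Primrec (fun q : Code × List ℕ => q.2.length) := Primrec.list_length.comp Primrec.snd
  have hp : Primrec (fun q : Code × List ℕ => 2 * 2 * 5 ^ q.2.length) :=
    Primrec.nat_mul.comp (Primrec.const (2 * 2)) (primrec_pow5.comp hn)
  have h2 : Primrec (fun q : Code × List ℕ => AA q.1 2) := primrec_AA Primrec.fst (Primrec.const 2)
  have h3 : Primrec (fun q : Code × List ℕ => AA q.1 (2 * (2 * 2 * 5 ^ q.2.length) + 2 * 2)) :=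
    primrec_AA Primrec.fst (Primrec.nat_add.comp (Primrec.nat_mul.comp (Primrec.const 2) hp)
      (Primrec.const (2 * 2)))
  have h4 : Primrec (fun q : Code × List ℕ => AA q.1 (2 * 2 * 5 ^ q.2.length)) :=
    primrec_AA Primrec.fst hp
  exact Primrec.nat_add.comp (Primrec.nat_add.comp (Primrec.nat_add.comp
      (Primrec.nat_mul.comp hn (Primrec.succ.comp h2)) h2) (Primrec.const 3))
      (Primrec.nat_add.comp (Primrec.nat_add.comp (Primrec.nat_add.comp
        (Primrec.nat_mul.comp (Primrec.const 4) h3) (Primrec.const 4))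
        (Primrec.nat_mul.comp hn h4)) (Primrec.const 2))

/-- graphs which are assembled from planar discs in a nonpositively curved pattern -/
def Assembled (c : Code) : Prop :=
  ∃ (σ : Equiv.Perm (Dart c)) (hσ : Rotation c σ) (cl : ℕ → ℕ), Discs c σ hσ cl

theorem assembled_solvable : Solvable Assembled := by
  refine solvable_of_bound Assembled bnd primrec_bnd ?_
  rintro c hV ⟨σ, hσ, cl, hM⟩ u hu
  obtain ⟨Y, sn, hY⟩ := exists_pots hV hσ hM
  have h1 := (realD hY hV hσ hM).derive u hu u.length le_rfl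
  have h2 := Ru_reach h1
  show Relation.ReflTransGen (BStep (RL c) _) (u.map (enc c)) []
  unfold bnd
  simp only [List.length_map]
  exact h2

end Pool.Agent.Helper2GI
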