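import Mathlib
import Pool.Agent.Helper2GI.MosaicR

/-!
Planar graphs.
-/

set_option autoImplicit false

namespace Pool.Agent.Helper2GI

open Pool.Agent.W387 RA

/-- With respect to the rotation system `σ`, all components (given by the labelling `cl`) are
planar. -/
structure Spheres (c : Code) (σ : Equiv.Perm (Dart c)) (hσ : Rotation c σ) (cl : ℕ → ℕ) :
    Prop where
  comp : ∀ (u v : ℕ) (i : Edge c), Inc c u i → Inc c v i → cl u = cl v
  joined : ∀ v < c.1, Joined c cl (cl v)
  euler : ∀ v < c.1, (∃ i, Inc c v i) →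
    nR hσ cl (cl v) + nV c cl (cl v) = nE c cl (cl v) + 2

/-- total colour of a cluster -/
def tot (c : Code) (cl : ℕ → ℕ) (U : ℕ) : ZMod 2 :=
  ∑ w ∈ (Finset.range c.1).filter (fun w => cl w = U), (colour c w : ZMod 2)

variable {c : Code} {σ : Equiv.Perm (Dart c)} {cl : ℕ → ℕ}

theorem sphere_data (hV : Valid c) (hσ : Rotation c σ) (hM : Spheres c σ hσ cl) (U : ℕ) :
    ∃ (Y : Rg c σ cl → List (Edge c)) (s : Edge c → ZMod 2) (r : ℕ),
      (∃ d : Dart c, cl (tl d) = U) → (∃ d : Dart c, cl (tl d) = U ∧ tl d = r) ∧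
      PD c σ cl U Y s (fun v => if v = r then 1 else 0) := by
  by_cases h : ∃ d : Dart c, cl (tl d) = U
  · obtain ⟨d, rfl⟩ := h
    have hlt := tl_lt hV d
    obtain ⟨Y, s, hP⟩ := piece_data hV hσ (hM.joined _ hlt) (tl d) hlt rfl none ⟨d.1⟩
      (by intro h hh; cases hh) (by
        have := hM.euler _ hlt ⟨d.1, inc_tl d⟩
        simp only [Option.toList_none, List.length_nil]
        omega)
    refine ⟨Y, s, tl d, fun _ => ⟨⟨d, rfl, rfl⟩, ?_⟩⟩
    have e1 : (fun v => (if v = tl d then (1 : ZMod 2) else 0) +
        pv (Option.toList (none : Option (Edge c))) v) = fun v => if v = tl d then 1 else 0 := by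
      funext v
      simp [pv]
    rw [e1] at hP
    exact hP
  · exact ⟨fun _ => [], fun _ => 0, 0, fun h' => absurd h' h⟩

theorem exists_potsS (hV : Valid c) (hσ : Rotation c σ) (hM : Spheres c σ hσ cl)
    (hev : ∀ v < c.1, tot c cl (cl v) = 0) : ∃ Y sn, Pots c σ cl Y sn := by
  choose Y s r h using sphere_data hV hσ hM
  classical
  refine ⟨fun f => if ∃ d : Dart c, cl (tl d) = rcl hσ f then Y (rcl hσ f) f else [], s, ?_, ?_, ?_⟩
  · intro f
    split_ifs with h1
    · exact (h _ h1).2.len f
    · simp
  · intro e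
    have h1 : ∃ d : Dart c, cl (tl d) = cl (tl e) := ⟨e, rfl⟩
    have h2 : rcl hσ (reg σ cl e) = cl (tl e) := rfl
    have h3 : rcl hσ (reg σ cl (σ⁻¹ e)) = cl (tl e) := by rw [rcl_reg, tl_inv hσ]
    simp only [h2, h3]
    rw [if_pos h1, if_pos h1]
    exact (h _ h1).2.D e rfl
  · intro v hv
    by_cases h1 : ∃ d : Dart c, cl (tl d) = cl v
    · rw [(h _ h1).2.sum v hv rfl]
      have := hev v hv
      unfold tot at this
      rw [this, mul_zero, add_zero]
    · have hst : star c v = [] := by
        rw [List.eq_nil_iff_forall_not_mem]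
        intro i hi
        obtain ⟨d, _, hd⟩ := inc_cases (mem_star.1 hi)
        exact h1 ⟨d, by rw [hd]⟩
      rw [hst]
      -- the cluster consists of `v` only
      have h2 := hev v hv
      have h3 : (Finset.range c.1).filter (fun w => cl w = cl v) = {v} := by
        ext w
        rw [Finset.mem_filter, Finset.mem_range, Finset.mem_singleton]
        constructor
        · rintro ⟨hw, hwv⟩
          have h4 := hM.joined v hv v w hv hw rfl hwv
          rcases Relation.ReflTransGen.cases_head h4 with h5 | ⟨b, ⟨⟨_, i, hi, _⟩, _, _⟩, _⟩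
          · exact h5.symm
          · exfalso
            have h6 : i ∈ star c v := mem_star.2 hi
            rw [hst] at h6
            simp at h6
        · rintro rfl
          exact ⟨hv, rfl⟩
      unfold tot at h2
      rw [h3, Finset.sum_singleton] at h2
      rw [h2]
      rfl

/-- the trivial system of glued groups -/
def mixE (B : Type) [Group B] : Mix ℕ B where
  adj _ _ := False
  x _ _ := 1
  τ _ _ := 0
  symm := fun h => h
  irr := fun _ h => h
  tri := fun h _ _ => h
  τs := fun _ _ => rfl
  sq := fun h => h.elim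
  ne := fun h => h.elim
  inj := fun h => h.elim
  c4 := fun h => h.elim
  c5 := fun h => h.elim

/-- the realisation for planar graphs -/
noncomputable def realS {Y : Rg c σ cl → List (Edge c)} {sn : ℕ → Edge c → ZMod 2}
    (hY : Pots c σ cl Y sn) (hV : Valid c) (hσ : Rotation c σ)
    (hcomp : ∀ (u v : ℕ) (i : Edge c), Inc c u i → Inc c v i → cl u = cl v) :
    Real c (mixE (RR c σ cl).W) where
  nm := { nrm := (RR c σ cl).len
          loc := fun _ => (parity c σ cl).ker
          κ := 2
          mul := len_mul_le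
          x := fun h => h.elim }
  cl := cl
  el := el σ cl
  sn := sn
  rep _ a := yw Y false (rw' a)
  A := AA c
  el_sq := by
    intro v i h
    obtain ⟨e, _, _, h3⟩ := el_at (cl := cl) hσ h
    rw [h3]
    exact gp_sq hσ e
  el_comm := by
    intro v i j h h'
    obtain ⟨e, _, h2, h3⟩ := el_at (cl := cl) hσ h
    obtain ⟨d, _, g2, g3⟩ := el_at (cl := cl) hσ h'
    rw [h3, g3]
    exact gp_comm hσ (h2.trans g2.symm)
  el_prod v _ := el_prod2 hσ hV v
  sn_sum := hY.sum
  edge := by
    intro u v i hu hv huv
    exact absurd (hcomp u v i hu hv) huv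
  adjE := fun h => h.elim
  el_nm := by
    intro v i h
    obtain ⟨e, _, _, h3⟩ := el_at (cl := cl) hσ h
    show (RR c σ cl).len (el σ cl (cl v) i) ≤ 2 ∧ el σ cl (cl v) i ∈ _
    rw [h3]
    exact ⟨len_gp_le e, gp_mem e⟩
  A_mono := by
    intro a b h
    unfold AA
    have := Nat.mul_le_mul_right (2 * c.2.1.length + 1) (show a + 6 ≤ b + 6 by omega)
    omega
  rep_one := by
    intro v
    have h1 : (rw' (1 : (RR c σ cl).W)).length = 0 := by rw [rw_len, len_one]
    rw [List.eq_nil_of_length_eq_zero h1]
    rfl
  rep_len := by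
    intro v a _
    have h1 := yw_len hY.len (rw' a) false
    rw [rw_len] at h1
    show (yw Y false (rw' a)).length ≤ AA c ((RR c σ cl).len a)
    unfold AA
    have : (RR c σ cl).len a * (2 * c.2.1.length) ≤
      ((RR c σ cl).len a + 6) * (2 * c.2.1.length + 1) := Nat.mul_le_mul (by omega) (by omega)
    omega
  rep_mul := by
    intro v a b ha _
    exact repD_mul hY hV hσ ha
  rep_el := by
    intro v i h
    obtain ⟨e, h1, h2, h3⟩ := el_at (cl := cl) hσ h
    rw [h3, ← h1, ← h2]
    exact repD_el hY hV hσ e

/-- bounded derivations if all components have even total colour -/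
theorem even_derive (hV : Valid c) (hσ : Rotation c σ) (hM : Spheres c σ hσ cl)
    (hev : ∀ v < c.1, tot c cl (cl v) = 0) (u : List (Option (Edge c)))
    (hu : (u.map (PresentedGroup.of (rels := {r | Rlt c r}))).prod = 1) (n : ℕ)
    (hn : u.length ≤ n) :
    GR (Ru c) (n * (AA c 2 + 1) + AA c 2 + 3 +
      ((4 * AA c (2 * (2 * 2 * 5 ^ n) + 2 * 2) + 4) + n * AA c (2 * 2 * 5 ^ n) + 2)) u [] := by
  obtain ⟨Y, sn, hY⟩ := exists_potsS hV hσ hM hev
  exact (realS hY hV hσ hM.comp).derive u hu n hn

/-- a component of odd total colour gives a derivation of `J` -/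
theorem odd_D (hV : Valid c) (hσ : Rotation c σ) (hM : Spheres c σ hσ cl) {v : ℕ}
    (hv : v < c.1) (hodd : tot c cl (cl v) = 1) :
    D c (cN c (c.1 + 1) + 10 * c.2.1.length + 10) 1 [] [] := by
  by_cases h1 : ∃ d : Dart c, cl (tl d) = cl v
  · obtain ⟨Y, s, r, h⟩ := sphere_data hV hσ hM (cl v)
    obtain ⟨⟨e, he, rfl⟩, hP⟩ := h h1
    set K := cN c (c.1 + 1) with hK
    have hKl : 4 * c.2.1.length + 4 ≤ K := by rw [hK]; unfold cN; omega
    have hpl := per_le hσ hV e
    have hpp := per_pos (σ := σ) e
    have c1 := chain_D (σ := σ) (cl := cl) Y s K e (per σ e) (by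
      intro m _
      have h2 := hP.D (σ^[m + 1] e) (by rw [tl_iter hσ]; exact he)
      have e1 : σ⁻¹ (σ^[m + 1] e) = σ^[m] e := by rw [Function.iterate_succ_apply', pinv2]
      rwa [e1] at h2) (per σ e) le_rfl
    rw [per_eq] at c1
    set F := Y (reg σ cl e) with hF
    have lF : F.length ≤ 2 * c.2.1.length := hP.len _
    set O := orb σ e (per σ e) with hO
    have hOl : O.length = per σ e := orb_len e _
    have hperm : O.Perm (star c (tl e)) := by
      have h3 := orb_perm hσ hV e
      obtain ⟨k, hk⟩ : ∃ k, per σ e = k + 1 := ⟨per σ e - 1, by omega⟩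
      rw [hO, hk, orb_succ, ← hk, per_eq]
      rw [hk, Nat.add_sub_cancel] at h3
      exact (List.perm_append_singleton e.1 _).trans h3
    have hinc : ∀ i ∈ O, Inc c (tl e) i := fun i hi => mem_star.1 (hperm.mem_iff.1 hi)
    set N := K + 10 * c.2.1.length + 10 with hN
    have a1 := (c1.symm (by rw [List.length_append]; omega)).mono (N' := N) (by omega)
    have a2 := (D.perm hperm hinc).ctxl F (N' := N) (by omega)
    have a3 := (D.st (tl_lt hV e)).ctxl F (N' := N) (by
      have := star_len (c := c) (tl e)
      omega)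
    have a4 := (a1.trans a2).trans a3
    rw [List.append_nil] at a4
    have hsum : (O.map s).sum = (colour c (tl e) : ZMod 2) + 1 := by
      rw [(hperm.map s).sum_eq, hP.sum (tl e) (tl_lt hV e) he, if_pos rfl, one_mul]
      unfold tot at hodd
      rw [hodd]
    have a5 : D c N 1 F F := by
      refine a4.cast ?_ rfl rfl
      rw [hsum]
      have := z2 (colour c (tl e) : ZMod 2)
      linear_combination this
    have a6 := a5.ctxl F.reverse (N' := N + 2 * c.2.1.length) (by
      rw [List.length_reverse]; omega)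
    have a5' : D c (cN c (c.1 + 1) + 5 * c.2.1.length + 10) 1 F F := by
      have b1 := (c1.symm (by rw [List.length_append]; omega)).mono
        (N' := K + 5 * c.2.1.length + 10) (by omega)
      have b2 := (D.perm hperm hinc).ctxl F (N' := K + 5 * c.2.1.length + 10) (by omega)
      have b3 := (D.st (tl_lt hV e)).ctxl F (N' := K + 5 * c.2.1.length + 10) (by
        have := star_len (c := c) (tl e)
        omega)
      have b4 := (b1.trans b2).trans b3
      rw [List.append_nil] at b4
      refine b4.cast ?_ rfl rfl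
      rw [hsum]
      have := z2 (colour c (tl e) : ZMod 2)
      linear_combination this
    have b1 := ((D.can' F).symm (by simp; omega)).mono (N' := N) (by omega)
    have b2 := a5'.ctxl F.reverse (N' := N) (by rw [List.length_reverse]; omega)
    have b3 := (D.can' F).mono (N' := N) (by omega)
    have b4 := (b1.trans b2).trans b3
    refine b4.cast ?_ rfl rfl
    ring
  · have hst : star c v = [] := by
      rw [List.eq_nil_iff_forall_not_mem]
      intro i hi
      obtain ⟨d, _, hd⟩ := inc_cases (mem_star.1 hi)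
      exact h1 ⟨d, by rw [hd]⟩
    have h3 : (Finset.range c.1).filter (fun w => cl w = cl v) = {v} := by
      ext w
      rw [Finset.mem_filter, Finset.mem_range, Finset.mem_singleton]
      constructor
      · rintro ⟨hw, hwv⟩
        have h4 := hM.joined v hv v w hv hw rfl hwv
        rcases Relation.ReflTransGen.cases_head h4 with h5 | ⟨b, ⟨⟨_, i, hi, _⟩, _, _⟩, _⟩
        · exact h5.symm
        · exfalso
          have h6 : i ∈ star c v := mem_star.2 hi
          rw [hst] at h6
          simp at h6
      · rintro rfl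
        exact ⟨hv, rfl⟩
    unfold tot at hodd
    rw [h3, Finset.sum_singleton] at hodd
    have h4 := D.ts (c := c) hv
    rw [hst, hodd] at h4
    exact h4.mono (by simp)

end Pool.Agent.Helper2GI
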