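import Mathlib
import Pool.Agent.Helper2GI.Sph

/-!
Planar graphs: removing the colouring, and the solution of the word problem.
-/

set_option autoImplicit false

namespace Pool.Agent.Helper2GI

open Pool.Agent.W387 RA

/-- the same graph without colours -/
abbrev c0 (c : Code) : Code := (c.1, c.2.1, [])

variable {c : Code}

theorem colour_c0 (v : ℕ) : colour (c0 c) v = 0 := by
  unfold colour
  rw [if_neg]
  simp

theorem J_central (g : Gam c) : g * J c = J c * g := by
  have h : g ∈ Subgroup.centralizer {J c} := by
    have h1 : (⊤ : Subgroup (Gam c)) ≤ Subgroup.centralizer {J c} := by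
      rw [← PresentedGroup.closure_range_of {r | Rlt c r}, Subgroup.closure_le]
      rintro _ ⟨a, rfl⟩
      rw [SetLike.mem_coe, Subgroup.mem_centralizer_singleton_iff]
      cases a with
      | none => rfl
      | some i => exact (xJ_comm c i)
    exact h1 (Subgroup.mem_top g)
  rw [Subgroup.mem_centralizer_singleton_iff] at h
  exact h

theorem normal_J : (Subgroup.zpowers (J c)).Normal := by
  constructor
  intro n hn g
  obtain ⟨k, rfl⟩ := Subgroup.mem_zpowers_iff.1 hn
  have h : g * (J c) ^ k = (J c) ^ k * g := by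
    have h1 : Commute g (J c) := J_central g
    exact (h1.zpow_right k)
  rw [h, mul_inv_cancel_right]
  exact hn

theorem J_pow_cases (k : ℤ) : (J c) ^ k = 1 ∨ (J c) ^ k = J c := by
  have h : ((J c) ^ k) = 1 ∨ (J c) ^ k = J c := by
    rcases Int.even_or_odd k with ⟨m, hm⟩ | ⟨m, hm⟩
    · left
      rw [hm, zpow_add, ← (Commute.refl (J c)).mul_zpow, JJ_one, one_zpow]
    · right
      rw [hm, zpow_add, zpow_one, two_mul, zpow_add, ← (Commute.refl (J c)).mul_zpow, JJ_one, one_zpow,
        one_mul]
  exact h

/-- forgetting the colours -/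
theorem lift_c0 (u : List (Option (Edge c)))
    (hu : (u.map (PresentedGroup.of (rels := {r | Rlt c r}))).prod = 1) :
    ∃ k : ZMod 2, ((u ++ jw k : List (Option (Edge (c0 c)))).map
      (PresentedGroup.of (rels := {r | Rlt (c0 c) r}))).prod = 1 := by
  have := normal_J (c := c0 c)
  set N := Subgroup.zpowers (J (c0 c)) with hN
  have hJ : ((J (c0 c) : Gam (c0 c)) : Gam (c0 c) ⧸ N) = 1 :=
    (QuotientGroup.eq_one_iff _).2 (Subgroup.mem_zpowers _)
  let f : Option (Edge c) → Gam (c0 c) ⧸ N := fun a =>
    ((PresentedGroup.of (rels := {r | Rlt (c0 c) r}) a : Gam (c0 c)) : Gam (c0 c) ⧸ N)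
  have hf : ∀ i : Edge c, f (some i) = ((x (c0 c) i : Gam (c0 c)) : Gam (c0 c) ⧸ N) := fun _ => rfl
  have hf0 : f none = 1 := hJ
  have hrel : ∀ r ∈ {r | Rlt c r}, FreeGroup.lift f r = 1 := by
    intro r hr
    have hr' : Rlt c r := hr
    cases hr' with
    | JJ =>
      rw [map_mul, FreeGroup.lift_apply_of, hf0, one_mul]
    | xx i =>
      rw [map_mul, FreeGroup.lift_apply_of, hf, ← QuotientGroup.mk_mul, xx_one]
      rfl
    | xJ i =>
      simp only [map_mul, map_inv, FreeGroup.lift_apply_of]
      rw [hf0, mul_one, inv_one, mul_one, mul_inv_cancel]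
    | comm v i j hi hj =>
      simp only [map_mul, map_inv, FreeGroup.lift_apply_of]
      rw [mul_inv_eq_one, mul_inv_eq_iff_eq_mul, hf, hf, ← QuotientGroup.mk_mul,
        ← QuotientGroup.mk_mul, xx_comm (c0 c) (v := v) hi hj]
    | vert v hv =>
      rw [map_mul, map_inv, map_pow, map_list_prod, List.map_map, mul_inv_eq_one,
        FreeGroup.lift_apply_of, hf0, one_pow]
      have h1 : ((star c v).map (⇑(FreeGroup.lift f) ∘ fun i => FreeGroup.of (some i))).prod =
          ((((star c v).map (x (c0 c))).prod : Gam (c0 c)) : Gam (c0 c) ⧸ N) := by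
        generalize star c v = l
        induction l with
        | nil => rfl
        | cons a l ih =>
          rw [List.map_cons, List.prod_cons, ih, List.map_cons, List.prod_cons,
            QuotientGroup.mk_mul]
          congr 1
      rw [h1]
      have h2 : ((star (c0 c) v).map (x (c0 c))).prod = J (c0 c) ^ colour (c0 c) v :=
        vert_rel (c0 c) hv
      rw [colour_c0, pow_zero] at h2
      have h3 : ((star c v).map (x (c0 c))).prod = 1 := h2
      rw [h3]
      rfl
  have h1 := congrArg (PresentedGroup.toGroup hrel) hu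
  rw [map_one, map_list_prod, List.map_map] at h1
  have h2 : (List.map (⇑(PresentedGroup.toGroup hrel) ∘ PresentedGroup.of) u).prod =
      ((((u : List (Option (Edge (c0 c)))).map
        (PresentedGroup.of (rels := {r | Rlt (c0 c) r}))).prod : Gam (c0 c)) :
        Gam (c0 c) ⧸ N) := by
    clear h1 hu
    induction u with
    | nil => rfl
    | cons a u ih =>
      rw [List.map_cons, List.prod_cons, ih, List.map_cons, List.prod_cons, QuotientGroup.mk_mul]
      congr 1
  rw [h2, QuotientGroup.eq_one_iff] at h1
  obtain ⟨k, hk⟩ := Subgroup.mem_zpowers_iff.1 h1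
  rcases J_pow_cases (c := c0 c) k with h3 | h3
  · refine ⟨0, ?_⟩
    rw [jw_zero, List.append_nil, ← hk, h3]
  · refine ⟨1, ?_⟩
    rw [List.map_append, List.prod_append, ← hk, h3, jw_one]
    simp only [List.map_cons, List.map_nil, List.prod_cons, List.prod_nil, mul_one]
    exact JJ_one (c0 c)

/-- moving `J` through a word -/
theorem ljo (N : ℕ) (k : ZMod 2) (l : List (Option (Edge c))) (hN : 1 + l.length ≤ N) :
    GR (Ru c) N (l ++ jw k) (jw k ++ l) := by
  rcases zmod2_cases k with rfl | rfl
  · rw [jw_zero, List.append_nil]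
    exact Relation.ReflTransGen.refl
  · rw [jw_one]
    induction l generalizing N with
    | nil => exact Relation.ReflTransGen.refl
    | cons e l ih =>
      simp only [List.length_cons] at hN
      have h2 := (ih (1 + l.length) le_rfl).ctx [e] [] (N' := N) (by
        simp only [List.length_nil, List.length_cons]; omega)
      refine Relation.ReflTransGen.trans (b := e :: none :: l) ?_ ?_
      · simpa using h2
      · cases e with
        | none => exact Relation.ReflTransGen.refl
        | some e =>
          have h1 := GR.rule (N := N) (Ru.xj (c := c) e) [] l (by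
            simp only [List.length_nil, List.length_cons]; omega)
          simpa using h1

theorem step_c0 {N : ℕ} {s t : List (Option (Edge c))} (hs : s.length ≤ N)
    (h : GStep (Ru (c0 c)) N s t) (j : ZMod 2) :
    ∃ k, GR (Ru c) (N + 2) (jw j ++ s) (jw (j + k) ++ t) := by
  obtain ⟨l, r, a, b, h1, h2, h3, h4⟩ := h
  subst h2 h3
  simp only [List.length_append] at hs h4
  have hj := jw_len (E := Edge c) j
  have same : Ru c a b → ∃ k, GR (Ru c) (N + 2) (jw j ++ (l ++ a ++ r))
      (jw (j + k) ++ (l ++ b ++ r)) := by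
    intro h
    refine ⟨0, ?_⟩
    rw [add_zero]
    have h5 := GR.rule (N := N + 2) h (jw j ++ l) r (by
      simp only [List.length_append]; omega)
    simpa using h5
  cases h1 with
  | jj => exact same Ru.jj
  | ij => exact same Ru.ij
  | jx e => exact same (Ru.jx (c := c) e)
  | xj e => exact same (Ru.xj (c := c) e)
  | xx e => exact same (Ru.xx (c := c) e)
  | xi e => exact same (Ru.xi (c := c) e)
  | cm v a b ha hb => exact same (Ru.cm (c := c) v a b ha hb)
  | st v hv =>
    rw [colour_c0, Nat.cast_zero, jw_zero] at h4 ⊢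
    simp only [List.length_nil, List.append_nil] at h4 ⊢
    set k : ZMod 2 := (colour c v : ZMod 2) with hk
    have hkl := jw_len (E := Edge c) k
    refine ⟨k, ?_⟩
    have h5 := GR.rule (N := N + 2) (Ru.st (c := c) v hv) (jw j ++ l) r (by
      rw [← hk]
      simp only [List.length_append]; omega)
    rw [← hk] at h5
    have h6 := (ljo (c := c) (1 + l.length) k l le_rfl).ctx (jw j) r (N' := N + 2) (by omega)
    have h7 := (jadd (c := c) 2 j k le_rfl).ctx [] (l ++ r) (N' := N + 2) (by
      simp only [List.length_append, List.length_nil]; omega)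
    refine Relation.ReflTransGen.trans (b := jw j ++ (l ++ jw k) ++ r) ?_ ?_
    · have e9 : star (c0 c) v = star c v := rfl
      rw [e9]
      simpa using h5
    · refine Relation.ReflTransGen.trans (b := jw j ++ (jw k ++ l) ++ r) h6 ?_
      simpa using h7
  | ts v hv =>
    rw [colour_c0, Nat.cast_zero, jw_zero] at hs ⊢
    simp only [List.length_nil, List.append_nil, List.length_map] at h4 hs ⊢
    set k : ZMod 2 := (colour c v : ZMod 2) with hk
    have hkl := jw_len (E := Edge c) k
    have hjk := jw_len (E := Edge c) (j + k)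
    refine ⟨k, ?_⟩
    have h5 := GR.rule (N := N + 2) (Ru.ts (c := c) v hv) (jw (j + k) ++ l) r (by
      simp only [List.length_append, List.length_map]
      have : (star c v).length = (star (c0 c) v).length := rfl
      omega)
    rw [← hk] at h5
    have h6 := (GR_symm (by simp only [List.length_append]; omega)
      (ljo (c := c) (1 + l.length) k l le_rfl)).ctx (jw (j + k)) r (N' := N + 2) (by omega)
    have h7 := (jsub (c := c) 2 j k le_rfl).ctx [] (l ++ r) (N' := N + 2) (by
      simp only [List.length_append, List.length_nil]; omega)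
    refine Relation.ReflTransGen.trans (b := jw (j + k) ++ (jw k ++ l) ++ r) ?_ ?_
    · simpa using h7
    · refine Relation.ReflTransGen.trans (b := jw (j + k) ++ (l ++ jw k) ++ r) h6 ?_
      have e9 : star (c0 c) v = star c v := rfl
      rw [e9]
      simpa using h5

theorem GR_c0 {N : ℕ} {s t : List (Option (Edge c))} (hs : s.length ≤ N)
    (h : GR (Ru (c0 c)) N s t) (j : ZMod 2) :
    ∃ k, GR (Ru c) (N + 2) (jw j ++ s) (jw (j + k) ++ t) := by
  induction h with
  | refl => exact ⟨0, by rw [add_zero]⟩
  | @tail u t h1 h2 ih =>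
    obtain ⟨k, hk⟩ := ih
    obtain ⟨k', hk'⟩ := step_c0 (c := c) (GR.len h1 hs) h2 (j + k)
    refine ⟨k + k', ?_⟩
    rw [← add_assoc]
    exact hk.trans hk'

variable {σ : Equiv.Perm (Dart c)} {cl : ℕ → ℕ}

/-- the bound, as a function of the numbers of vertices and edges and of the length -/
def bS (c : Code) (n : ℕ) : ℕ :=
  n * (AA c 2 + 1) + AA c 2 + 3 +
      ((4 * AA c (2 * (2 * 2 * 5 ^ n) + 2 * 2) + 4) + n * AA c (2 * 2 * 5 ^ n) + 2)

/-- the bound for `J` -/
def bJ (c : Code) : ℕ := cN c (c.1 + 1) + 10 * c.2.1.length + 10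

theorem planar_derive (hV : Valid c) (hσ : Rotation c σ) (hM : Spheres c σ hσ cl)
    (u : List (Option (Edge c)))
    (hu : (u.map (PresentedGroup.of (rels := {r | Rlt c r}))).prod = 1) :
    GR (Ru c) (bS c (u.length + 1) + bJ c + u.length + 10) u [] := by
  by_cases hev : ∀ v < c.1, tot c cl (cl v) = 0
  · have h := even_derive hV hσ hM hev u hu (u.length + 1) (by omega)
    refine h.mono ?_
    unfold bS
    omega
  · push Not at hev
    obtain ⟨v, hv, hodd⟩ := hev
    have hodd' : tot c cl (cl v) = 1 := by
      rcases zmod2_cases (tot c cl (cl v)) with h | h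
      · exact absurd h hodd
      · exact h
    have hJD := odd_D hV hσ hM hv hodd'
    obtain ⟨k, hk⟩ := lift_c0 u hu
    have hσ0 : Rotation (c0 c) σ := ⟨hσ.tl_eq, hσ.cyc⟩
    have hM0 : Spheres (c0 c) σ hσ0 cl := ⟨hM.comp, hM.joined, hM.euler⟩
    have hV0 : Valid (c0 c) := hV
    have hev0 : ∀ v < (c0 c).1, tot (c0 c) cl (cl v) = 0 := by
      intro v _
      unfold tot
      apply Finset.sum_eq_zero
      intro w _
      rw [colour_c0, Nat.cast_zero]
    have hkl := jw_len (E := Edge c) k
    have h1 := even_derive hV0 hσ0 hM0 hev0 (u ++ jw k) hk (u.length + 1) (by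
      rw [List.length_append]
      have : (jw k : List (Option (Edge (c0 c)))).length ≤ 1 := hkl
      omega)
    have h1' : GR (Ru (c0 c)) (bS c (u.length + 1)) (u ++ jw k) [] := h1
    have hbig : (u ++ jw k).length ≤ bS c (u.length + 1) := by
      rw [List.length_append]
      unfold bS
      have : (u.length + 1) * 1 ≤ (u.length + 1) * (AA c 2 + 1) := Nat.mul_le_mul_left _ (by omega)
      omega
    obtain ⟨k', h2⟩ := GR_c0 hbig h1' 0
    rw [jw_zero, List.nil_append, List.append_nil, zero_add] at h2
    -- removing powers of `J`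
    have hJ : ∀ j : ZMod 2, GR (Ru c) (bJ c + 2) (jw j) [] ∧ GR (Ru c) (bJ c + 2) [] (jw j) := by
      intro j
      have h3 := hJD 0 [] []
      have h4 := hJD 1 [] []
      have e2 : (1 : ZMod 2) + 1 = 0 := rfl
      rw [zero_add] at h3
      rw [e2] at h4
      rcases zmod2_cases j with rfl | rfl
      · exact ⟨Relation.ReflTransGen.refl, Relation.ReflTransGen.refl⟩
      · unfold bJ
        constructor
        · simpa [jw_zero] using h4
        · simpa [jw_zero] using h3
    have h3 := (hJ k).2.ctx u [] (N' := bS c (u.length + 1) + bJ c + u.length + 10) (by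
      simp only [List.length_nil]; omega)
    rw [List.append_nil, List.append_nil, List.append_nil] at h3
    exact (h3.trans (h2.mono (by omega))).trans ((hJ k').1.mono (by omega))

/-- Every component of the graph is planar. -/
def Planar (c : Code) : Prop :=
  ∃ (σ : Equiv.Perm (Dart c)) (hσ : Rotation c σ) (cl : ℕ → ℕ), Spheres c σ hσ cl

/-- the bound on the lengths in derivations -/
def bndS (q : Code × List ℕ) : ℕ := bS q.1 (q.2.length + 1) + bJ q.1 + q.2.length + 10

theorem primrec_bndS : Primrec bndS := by
  have hn0 : Primrec (fun q : Code × List ℕ => q.2.length) := Primrec.list_length.comp Primrec.snd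
  have hn : Primrec (fun q : Code × List ℕ => q.2.length + 1) := Primrec.succ.comp hn0
  have hp : Primrec (fun q : Code × List ℕ => 2 * 2 * 5 ^ (q.2.length + 1)) :=
    Primrec.nat_mul.comp (Primrec.const (2 * 2)) (primrec_pow5.comp hn)
  have h2 : Primrec (fun q : Code × List ℕ => AA q.1 2) := primrec_AA Primrec.fst (Primrec.const 2)
  have h3 : Primrec (fun q : Code × List ℕ =>
      AA q.1 (2 * (2 * 2 * 5 ^ (q.2.length + 1)) + 2 * 2)) :=
    primrec_AA Primrec.fst (Primrec.nat_add.comp (Primrec.nat_mul.comp (Primrec.const 2) hp)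
      (Primrec.const (2 * 2)))
  have h4 : Primrec (fun q : Code × List ℕ => AA q.1 (2 * 2 * 5 ^ (q.2.length + 1))) :=
    primrec_AA Primrec.fst hp
  have h5 : Primrec (fun q : Code × List ℕ => bS q.1 (q.2.length + 1)) :=
    Primrec.nat_add.comp (Primrec.nat_add.comp (Primrec.nat_add.comp
      (Primrec.nat_mul.comp hn (Primrec.succ.comp h2)) h2) (Primrec.const 3))
      (Primrec.nat_add.comp (Primrec.nat_add.comp (Primrec.nat_add.comp
        (Primrec.nat_mul.comp (Primrec.const 4) h3) (Primrec.const 4))
        (Primrec.nat_mul.comp hn h4)) (Primrec.const 2))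
  have hE : Primrec (fun q : Code × List ℕ => q.1.2.1.length) := primrec_elen.comp Primrec.fst
  have hV : Primrec (fun q : Code × List ℕ => q.1.1) := Primrec.fst.comp Primrec.fst
  have h6 : Primrec (fun q : Code × List ℕ => bJ q.1) :=
    Primrec.nat_add.comp (Primrec.nat_add.comp (Primrec.nat_add.comp (Primrec.nat_add.comp
      (Primrec.nat_mul.comp (Primrec.const 4) hE) (Primrec.const 4))
      (Primrec.nat_mul.comp (Primrec.succ.comp hV) (Primrec.succ.comp hE)))
      (Primrec.nat_mul.comp (Primrec.const 10) hE)) (Primrec.const 10)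
  exact Primrec.nat_add.comp (Primrec.nat_add.comp (Primrec.nat_add.comp h5 h6) hn0)
    (Primrec.const 10)

theorem planar_solvable : Solvable Planar := by
  refine solvable_of_bound Planar bndS primrec_bndS ?_
  rintro c hV ⟨σ, hσ, cl, hM⟩ u hu
  have h1 := planar_derive hV hσ hM u hu
  have h2 := Ru_reach h1
  show Relation.ReflTransGen (BStep (RL c) _) (u.map (enc c)) []
  unfold bndS
  simp only [List.length_map]
  exact h2

end Pool.Agent.Helper2GI
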