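import Mathlib
import Pool.Agent.Helper2GI.PetC
import Pool.Agent.Helper2GI.SphR

/-!
Graphs isomorphic to the Petersen graph: transport of derivations, homomorphisms.
-/

set_option autoImplicit false

namespace Pool.Agent.Helper2GI

open Pool.Agent.W387 RA

/-- The Petersen graph.  Its vertices `0, …, 9` stand for the two-element subsets `01`, `02`, `03`,
`04`, `12`, `13`, `14`, `23`, `24`, `34` of `{0, 1, 2, 3, 4}`, and its edges join the disjoint
ones. -/
def petersen : Code :=
  (10, [(0, 7), (0, 8), (0, 9), (1, 5), (1, 6), (1, 9), (2, 4), (2, 6), (2, 8), (3, 4), (3, 5),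
    (3, 7), (4, 9), (5, 8), (6, 7)], [])

/-- The underlying graph is isomorphic to the Petersen graph: there are bijections between the
vertices and between the edges which respect incidence.  There is no condition on the colours. -/
def IsPetersen (c : Code) : Prop :=
  ∃ (f : Fin petersen.1 ≃ Fin c.1) (g : Edge petersen ≃ Edge c),
    ∀ (v : Fin petersen.1) (i : Edge petersen), Inc petersen v.1 i ↔ Inc c (f v).1 (g i)

variable {c : Code}

/-- the value of a word in the group -/
def vG (c : Code) (u : List (Option (Edge c))) : Gam c :=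
  (u.map (PresentedGroup.of (rels := {r | Rlt c r}))).prod

theorem vG_append (u w : List (Option (Edge c))) : vG c (u ++ w) = vG c u * vG c w := by
  unfold vG
  rw [List.map_append, List.prod_append]

theorem vG_jw (k : ZMod 2) : vG c (jw k) = J c ^ k.val := by
  rcases zmod2_cases k with rfl | rfl
  · rw [jw_zero]
    show (1 : Gam c) = J c ^ 0
    rw [pow_zero]
  · rw [jw_one]
    show ([J c]).prod = J c ^ 1
    rw [List.prod_singleton, pow_one]

theorem vG_two (a b : Option (Edge c)) : vG c [a, b] =
    PresentedGroup.of (rels := {r | Rlt c r}) a * PresentedGroup.of b := by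
  simp [vG]

theorem vG_nil : vG c [] = 1 := rfl

theorem Ru_val {s t : List (Option (Edge c))} (h : Ru c s t) : vG c s = vG c t := by
  cases h with
  | jj => rw [vG_two, vG_nil]; exact JJ_one c
  | ij => rw [vG_two, vG_nil]; exact (JJ_one c).symm
  | jx e => rw [vG_two, vG_two]; exact (xJ_comm c e).symm
  | xj e => rw [vG_two, vG_two]; exact xJ_comm c e
  | xx e => rw [vG_two, vG_nil]; exact xx_one c e
  | xi e => rw [vG_two, vG_nil]; exact (xx_one c e).symm
  | cm v a b ha hb => rw [vG_two, vG_two]; exact xx_comm c ha hb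
  | st v hv =>
    have h1 := vert_rel c hv
    rw [vG_jw]
    unfold vG
    rw [List.map_map]
    have h2 : (colour c v : ZMod 2).val = colour c v := by
      unfold colour
      split_ifs <;> rfl
    rw [h2, ← h1]
    rfl
  | ts v hv =>
    have h1 := vert_rel c hv
    rw [vG_jw]
    unfold vG
    rw [List.map_map]
    have h2 : (colour c v : ZMod 2).val = colour c v := by
      unfold colour
      split_ifs <;> rfl
    rw [h2, ← h1]
    rfl

theorem GR_val {N : ℕ} {s t : List (Option (Edge c))} (h : GR (Ru c) N s t) :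
    vG c s = vG c t := by
  induction h with
  | refl => rfl
  | @tail u v _ h2 ih =>
    rw [ih]
    obtain ⟨l, r, a, b, h3, h4, h5, _⟩ := h2
    subst h4 h5
    rw [vG_append, vG_append, vG_append, vG_append, Ru_val h3]

/-- collecting the letters `J` -/
theorem pull (u : List (Option (Edge c))) : ∃ (k : ZMod 2) (w : List (Edge c)),
    w.length ≤ u.length ∧ GR (Ru c) (u.length + 2) u (jw k ++ w.map some) := by
  induction u with
  | nil => exact ⟨0, [], le_rfl, by rw [jw_zero]; exact Relation.ReflTransGen.refl⟩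
  | cons a u ih =>
    obtain ⟨k, w, h1, h2⟩ := ih
    have h3 := h2.ctx [a] [] (N' := (a :: u).length + 2) (by
      simp only [List.length_cons, List.length_nil]; omega)
    cases a with
    | none =>
      refine ⟨1 + k, w, h1.trans (by simp), ?_⟩
      have h4 := (jadd (c := c) 2 1 k le_rfl).ctx [] (w.map some)
        (N' := (none :: u).length + 2) (by
          simp only [List.length_cons, List.length_nil, List.length_map]; omega)
      rw [jw_one] at h4
      simp only [List.nil_append, List.append_nil, List.singleton_append, List.cons_append]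
        at h3 h4 ⊢
      exact h3.trans h4
    | some e =>
      refine ⟨k, e :: w, by simpa using h1, ?_⟩
      have h4 := (ljo (c := c) 2 k [some e] (by simp)).ctx [] (w.map some)
        (N' := (some e :: u).length + 2) (by
          simp only [List.length_cons, List.length_nil, List.length_map]; omega)
      simp only [List.nil_append, List.append_nil, List.singleton_append, List.cons_append,
        List.append_assoc, List.map_cons] at h3 h4 ⊢
      exact h3.trans h4

/-- homomorphisms from graph incidence groups -/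
theorem exists_hom {M : Type} [Group M] (j : M) (P : Edge c → M) (hj : j * j = 1)
    (hP : ∀ i, P i * P i = 1) (hPj : ∀ i, P i * j = j * P i)
    (hc : ∀ v i k, Inc c v i → Inc c v k → P i * P k = P k * P i)
    (hs : ∀ v < c.1, ((star c v).map P).prod = j ^ colour c v) :
    ∃ φ : Gam c →* M, φ (J c) = j ∧ ∀ i, φ (x c i) = P i := by
  let f : Option (Edge c) → M := fun a => a.elim j P
  have hrel : ∀ r ∈ {r | Rlt c r}, FreeGroup.lift f r = 1 := by
    intro r hr
    have hr' : Rlt c r := hr
    cases hr' with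
    | JJ => simpa [f] using hj
    | xx i => simpa [f] using hP i
    | xJ i =>
      simp only [map_mul, map_inv, FreeGroup.lift_apply_of]
      rw [mul_inv_eq_one, mul_inv_eq_iff_eq_mul]
      exact hPj i
    | comm v i k hi hk =>
      simp only [map_mul, map_inv, FreeGroup.lift_apply_of]
      rw [mul_inv_eq_one, mul_inv_eq_iff_eq_mul]
      exact hc v i k hi hk
    | vert v hv =>
      rw [map_mul, map_inv, map_pow, map_list_prod, List.map_map, mul_inv_eq_one,
        FreeGroup.lift_apply_of]
      have h1 : (⇑(FreeGroup.lift f) ∘ fun i => FreeGroup.of (some i)) = P := by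
        funext i
        simp [f]
      rw [h1]
      exact hs v hv
  refine ⟨PresentedGroup.toGroup hrel, ?_, ?_⟩
  · exact PresentedGroup.toGroup.of hrel
  · intro i
    exact PresentedGroup.toGroup.of hrel

namespace Pet

theorem tri : ∀ a b : Fin 15, T a.1 b.1 < 15 → ∃ v : Fin petersen.1,
    (∀ j : Edge petersen, (Inc petersen v.1 j ↔ j.1 = a.1 ∨ j.1 = b.1 ∨ j.1 = T a.1 b.1)) ∧
      a.1 ≠ b.1 ∧ T a.1 b.1 ≠ a.1 ∧ T a.1 b.1 ≠ b.1 := by decide +kernel

theorem tri' : ∀ v : Fin petersen.1, ∃ a : Fin 15, ∃ b : Fin 15, T a.1 b.1 < 15 ∧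
    ∀ j : Edge petersen, (Inc petersen v.1 j ↔ j.1 = a.1 ∨ j.1 = b.1 ∨ j.1 = T a.1 b.1) := by
  decide +kernel

variable (f : Fin petersen.1 ≃ Fin c.1) (g : Edge petersen ≃ Edge c)

/-- the edge with a given number -/
def gg (a : ℕ) : Edge c := if h : a < 15 then g ⟨a, h⟩ else g ⟨0, by decide⟩

variable {f g}

theorem gg_val {a : ℕ} (h : a < 15) : gg g a = g ⟨a, h⟩ := dif_pos h

theorem gg_symm (i : Edge c) : gg g (g.symm i).1 = i := by
  have h : (g.symm i).1 < 15 := (g.symm i).2
  rw [gg_val h]
  exact g.apply_symm_apply i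

variable (h : ∀ (v : Fin petersen.1) (i : Edge petersen),
  Inc petersen v.1 i ↔ Inc c (f v).1 (g i))

include h in
theorem star_perm (v : Fin petersen.1) {a b : ℕ} (hT : T a b < 15)
    (hv : ∀ j : Edge petersen, (Inc petersen v.1 j ↔ j.1 = a ∨ j.1 = b ∨ j.1 = T a b)) :
    (star c (f v).1).Perm [gg g a, gg g b, gg g (T a b)] := by
  obtain ⟨ha, hb⟩ := T_lt hT
  obtain ⟨_, _, h1, h2, h3⟩ := tri ⟨a, ha⟩ ⟨b, hb⟩ hT
  rw [List.perm_ext_iff_of_nodup (star_nodup c _)]
  · intro i
    rw [mem_star]
    obtain ⟨j, rfl⟩ := g.surjective i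
    rw [← h, hv, gg_val ha, gg_val hb, gg_val hT]
    simp only [List.mem_cons, List.not_mem_nil, or_false, EmbeddingLike.apply_eq_iff_eq, Fin.ext_iff]
  · rw [gg_val ha, gg_val hb, gg_val hT]
    simp only [List.nodup_cons, List.mem_cons, List.not_mem_nil, or_false, not_or, not_false_eq_true,
      List.nodup_nil, and_true, EmbeddingLike.apply_eq_iff_eq, Fin.ext_iff]
    exact ⟨⟨h1, h2.symm⟩, h3.symm⟩

include h in
theorem D_tri {a b : ℕ} (hT : T a b < 15) :
    ∃ k, D c 6 k [gg g a, gg g b] [gg g (T a b)] := by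
  obtain ⟨ha, hb⟩ := T_lt hT
  obtain ⟨v, hv, _⟩ := tri ⟨a, ha⟩ ⟨b, hb⟩ hT
  have hp := star_perm h v hT hv
  have hl : (star c (f v).1).length = 3 := hp.length_eq
  refine ⟨(colour c (f v).1 : ZMod 2), ?_⟩
  have h1 := (D.xi (gg g (T a b))).ctxl [gg g a, gg g b] (N' := 6) (by simp)
  have h2 := (D.perm (v := (f v).1) hp.symm (by
    intro e he
    rw [← mem_star]
    exact hp.symm.subset he)).ctxr [gg g (T a b)] (N' := 6) (by simp)
  have h3 := (D.st (c := c) (f v).2).ctxr [gg g (T a b)] (N' := 6) (by rw [hl]; simp)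
  have h4 := (h1.trans (by simpa using h2)).trans h3
  simpa using h4

include h in
theorem D_PR {s t : List ℕ} (hr : PR s t) : ∃ k, D c 6 k (s.map (gg g)) (t.map (gg g)) := by
  cases hr with
  | xx a => exact ⟨0, (D.xx _).mono (by norm_num)⟩
  | xi a => exact ⟨0, (D.xi _).mono (by norm_num)⟩
  | st a b hT => exact D_tri h hT
  | ts a b hT =>
    obtain ⟨k, hk⟩ := D_tri h hT
    exact ⟨k, hk.symm (by simp)⟩

include h in
theorem D_GR {N : ℕ} {s t : List ℕ} (hr : GR PR N s t) :
    ∃ k, D c (N + 6) k (s.map (gg g)) (t.map (gg g)) := by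
  induction hr with
  | refl => exact ⟨0, D.refl _ _⟩
  | @tail u v _ h2 ih =>
    obtain ⟨k, hk⟩ := ih
    obtain ⟨l, r, a, b, h3, h4, h5, h6⟩ := h2
    obtain ⟨k', hk'⟩ := D_PR h h3
    subst h4 h5
    simp only [List.length_append] at h6
    have h7 := hk'.ctx (l.map (gg g)) (r.map (gg g)) (N' := N + 6) (by
      simp only [List.length_map]; omega)
    refine ⟨k + k', hk.trans ?_⟩
    simpa using h7

include h in
/-- homomorphisms defined by numbered involutions -/
theorem hom_of (hV : Valid c) {M : Type} [Group M] (j : M) (p : ℕ → M) (hj : j * j = 1)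
    (hp : ∀ a, p a * p a = 1) (hpj : ∀ a, p a * j = j * p a)
    (hT : ∀ a b, T a b < 15 → p a * p b = p b * p a) (β : Fin petersen.1 → ℕ)
    (hβ : ∀ v, colour c (f v).1 = β v)
    (hs : ∀ v : Fin petersen.1, ∃ a b : ℕ, T a b < 15 ∧
      (∀ j : Edge petersen, (Inc petersen v.1 j ↔ j.1 = a ∨ j.1 = b ∨ j.1 = T a b)) ∧
      p a * (p b * p (T a b)) = j ^ β v) :
    ∃ φ : Gam c →* M, φ (J c) = j ∧ ∀ i, φ (x c i) = p (g.symm i).1 := by
  have hcom : ∀ v i k, Inc c v i → Inc c v k →
      p (g.symm i).1 * p (g.symm k).1 = p (g.symm k).1 * p (g.symm i).1 := by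
    intro v i k hi hk
    by_cases hv : v < c.1
    · obtain ⟨v', hv'⟩ := f.surjective ⟨v, hv⟩
      obtain ⟨i', rfl⟩ := g.surjective i
      obtain ⟨k', rfl⟩ := g.surjective k
      have e1 : (f v').1 = v := by rw [hv']
      rw [← e1, ← h] at hi hk
      rw [g.symm_apply_apply, g.symm_apply_apply]
      have key : ∀ (v : Fin petersen.1) (i k : Edge petersen), Inc petersen v.1 i →
          Inc petersen v.1 k → i.1 = k.1 ∨ T i.1 k.1 < 15 := by decide +kernel
      rcases key v' i' k' hi hk with h1 | h1
      · rw [h1]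
      · exact hT _ _ h1
    · exact absurd (inc_lt hV hi) hv
  refine exists_hom j (fun i => p (g.symm i).1) hj (fun i => hp _) (fun i => hpj _) hcom ?_
  intro v hv
  obtain ⟨v', hv'⟩ := f.surjective ⟨v, hv⟩
  have e1 : (f v').1 = v := by rw [hv']
  obtain ⟨a, b, hab, hj', hs'⟩ := hs v'
  have hp' := star_perm h v' hab hj'
  rw [e1] at hp'
  have h1 := (hp'.map (fun i => p (g.symm i).1)).prod_eq' (by
    rw [List.pairwise_map]
    refine List.pairwise_of_forall_mem_list ?_
    intro i hi k hk
    rw [mem_star] at hi hk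
    exact hcom v i k hi hk)
  rw [h1, ← e1, hβ, ← hs']
  obtain ⟨ha, hb⟩ := T_lt hab
  rw [gg_val ha, gg_val hb, gg_val hab]
  simp

end Pet

end Pool.Agent.Helper2GI
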