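import Mathlib
import Pool.Agent.Helper2GI.PetD

/-!
Graphs isomorphic to the Petersen graph: the central element is not trivial, and the word problem.
-/

set_option autoImplicit false

namespace Pool.Agent.Helper2GI

open Pool.Agent.W387 RA

namespace Pet

/-- a finite group of real Pauli matrices -/
structure PG where
  a : ZMod 2
  b : ZMod 2
  c : ZMod 2
  x : ZMod 2
  y : ZMod 2
  z : ZMod 2
  s : ZMod 2
deriving DecidableEq

instance : Mul PG := ⟨fun p q => ⟨p.a + q.a, p.b + q.b, p.c + q.c, p.x + q.x, p.y + q.y, p.z + q.z,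
  p.s + q.s + p.x * q.a + p.y * q.b + p.z * q.c⟩⟩

instance : One PG := ⟨⟨0, 0, 0, 0, 0, 0, 0⟩⟩

instance : Inv PG := ⟨fun p => ⟨p.a, p.b, p.c, p.x, p.y, p.z,
  p.s + p.x * p.a + p.y * p.b + p.z * p.c⟩⟩

theorem PG.mul_def (p q : PG) : p * q = ⟨p.a + q.a, p.b + q.b, p.c + q.c, p.x + q.x, p.y + q.y,
    p.z + q.z, p.s + q.s + p.x * q.a + p.y * q.b + p.z * q.c⟩ := rfl

theorem PG.one_def : (1 : PG) = ⟨0, 0, 0, 0, 0, 0, 0⟩ := rfl

theorem PG.inv_def (p : PG) : p⁻¹ = ⟨p.a, p.b, p.c, p.x, p.y, p.z,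
  p.s + p.x * p.a + p.y * p.b + p.z * p.c⟩ := rfl

instance : Group PG := Group.ofLeftAxioms
  (by
    intro p q r
    simp only [PG.mul_def, PG.mk.injEq]
    refine ⟨?_, ?_, ?_, ?_, ?_, ?_, ?_⟩ <;> ring)
  (by
    intro p
    simp only [PG.mul_def, PG.one_def, zero_add, zero_mul, add_zero])
  (by
    intro p
    simp only [PG.mul_def, PG.one_def, PG.inv_def, PG.mk.injEq]
    refine ⟨z2 _, z2 _, z2 _, z2 _, z2 _, z2 _, ?_⟩
    have := z2 (p.s + p.x * p.a + p.y * p.b + p.z * p.c)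
    rw [← this]
    ring)

/-- the central elements -/
def jj (k : ZMod 2) : PG := ⟨0, 0, 0, 0, 0, 0, k⟩

theorem jj_mul (k l : ZMod 2) : jj k * jj l = jj (k + l) := by
  simp only [jj, PG.mul_def, PG.mk.injEq]
  refine ⟨?_, ?_, ?_, ?_, ?_, ?_, ?_⟩ <;> ring

theorem jj_comm (k : ZMod 2) (p : PG) : p * jj k = jj k * p := by
  simp only [jj, PG.mul_def, PG.mk.injEq]
  refine ⟨?_, ?_, ?_, ?_, ?_, ?_, ?_⟩ <;> ring

theorem jj_pow (n : ℕ) : jj 1 ^ n = jj (n : ZMod 2) := by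
  induction n with
  | zero => rfl
  | succ n ih => rw [pow_succ, ih, jj_mul, Nat.cast_succ]

/-- the matrices of the edges -/
def PL : List PG := [⟨1, 0, 1, 1, 0, 1, 1⟩, ⟨1, 0, 0, 0, 1, 1, 0⟩, ⟨0, 0, 1, 1, 1, 0, 0⟩, ⟨0, 1, 0, 0, 0, 0, 0⟩, ⟨0, 1, 1, 0, 0, 0, 0⟩, ⟨0, 0, 1, 0, 0, 0, 0⟩, ⟨0, 0, 0, 0, 1, 0, 0⟩, ⟨1, 0, 0, 0, 0, 0, 0⟩, ⟨1, 0, 0, 0, 1, 0, 0⟩, ⟨0, 0, 0, 1, 0, 0, 0⟩, ⟨0, 1, 0, 0, 0, 1, 0⟩, ⟨0, 1, 0, 1, 0, 1, 0⟩, ⟨0, 0, 0, 1, 1, 0, 0⟩, ⟨0, 0, 0, 0, 0, 1, 0⟩, ⟨1, 1, 1, 0, 0, 0, 0⟩]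

/-- the matrix of an edge -/
def PP (a : ℕ) : PG := PL.getD a 1

/-- the sides of the edges of a spanning tree -/
def SL : List (List ℕ) := [[], [], [0], [], [1], [], [2, 5, 8], [], [5, 8], [0, 2, 4, 5, 8, 9], [], [0, 2, 3, 4, 5, 8, 9], [0, 9], [5], [1, 6]]

/-- signs from colours -/
def sg (β : ℕ → ZMod 2) (a : ℕ) : ZMod 2 := ((SL.getD a []).map β).sum

/-- first edge at a vertex -/
def va (v : ℕ) : ℕ := ([0, 3, 6, 9, 6, 3, 4, 0, 1, 2] : List ℕ).getD v 0

/-- second edge at a vertex -/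
def vb (v : ℕ) : ℕ := ([1, 4, 7, 10, 9, 10, 7, 11, 8, 5] : List ℕ).getD v 0

theorem sg_key : ∀ b0 b1 b2 b3 b4 b5 b6 b7 b8 b9 : ZMod 2,
    b0 + b1 + b2 + b3 + b4 + b5 + b6 + b7 + b8 + b9 = 0 →
    0 + 0 + (b0) = b0 ∧
      0 + (b1) + 0 = b1 ∧
      (b2 + b5 + b8) + 0 + (b5 + b8) = b2 ∧
      (b0 + b2 + b4 + b5 + b8 + b9) + 0 + (b0 + b2 + b3 + b4 + b5 + b8 + b9) = b3 ∧
      (b2 + b5 + b8) + (b0 + b2 + b4 + b5 + b8 + b9) + (b0 + b9) = b4 ∧
      0 + 0 + (b5) = b5 ∧
      (b1) + 0 + (b1 + b6) = b6 ∧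
      0 + (b0 + b2 + b3 + b4 + b5 + b8 + b9) + (b1 + b6) = b7 ∧
      0 + (b5 + b8) + (b5) = b8 ∧
      (b0) + 0 + (b0 + b9) = b9 := by
  decide +kernel

theorem sg_ok (β : ℕ → ZMod 2) (h : β 0 + β 1 + β 2 + β 3 + β 4 + β 5 + β 6 + β 7 + β 8 + β 9 = 0) :
    ∀ v < 10, sg β (va v) + sg β (vb v) + sg β (T (va v) (vb v)) = β v := by
  have h1 := sg_key _ _ _ _ _ _ _ _ _ _ h
  intro v hv
  interval_cases v <;> simp [va, vb, sg, SL, T, tbl] <;> simp only [← add_assoc] at h1 ⊢ <;>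
    simp_all

theorem PP_mul : ∀ a < 15, PP a * PP a = 1 := by decide +kernel

theorem PP_mul' (a : ℕ) : PP a * PP a = 1 := by
  by_cases h : a < 15
  · exact PP_mul a h
  · unfold PP
    rw [List.getD_eq_default _ _ (by
      have : PL.length = 15 := rfl
      omega)]
    rfl

theorem PP_comm : ∀ a b : Fin 15, T a.1 b.1 < 15 → PP a.1 * PP b.1 = PP b.1 * PP a.1 := by
  decide +kernel

theorem T_symm : ∀ a b : Fin 15, T a.1 b.1 < 15 → T b.1 a.1 = T a.1 b.1 := by decide +kernel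

theorem vab : ∀ v : Fin petersen.1, T (va v.1) (vb v.1) < 15 ∧
    (∀ j : Edge petersen, (Inc petersen v.1 j ↔
      j.1 = va v.1 ∨ j.1 = vb v.1 ∨ j.1 = T (va v.1) (vb v.1))) := by
  decide +kernel

theorem PP_v : ∀ v < 10, PP (va v) * (PP (vb v) * PP (T (va v) (vb v))) =
    jj (if v = 7 then 1 else 0) := by decide +kernel

variable {c : Code} {f : Fin petersen.1 ≃ Fin c.1} {g : Edge petersen ≃ Edge c}
  (h : ∀ (v : Fin petersen.1) (i : Edge petersen), Inc petersen v.1 i ↔ Inc c (f v).1 (g i))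

/-- the images of the edges -/
def pj (t : ZMod 2) (β : ℕ → ZMod 2) (a : ℕ) : PG := (if t = 1 then PP a else 1) * jj (sg β a)

theorem pj_comm {t : ZMod 2} {β : ℕ → ZMod 2} {a b : ℕ} (hT : T a b < 15) :
    pj t β a * pj t β b = pj t β b * pj t β a := by
  obtain ⟨ha, hb⟩ := T_lt hT
  have h1 := PP_comm ⟨a, ha⟩ ⟨b, hb⟩ hT
  simp only at h1
  unfold pj
  have e : ∀ (p q : PG) (k l : ZMod 2), p * q = q * p →
      (p * jj k) * (q * jj l) = (q * jj l) * (p * jj k) := by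
    intro p q k l hpq
    calc (p * jj k) * (q * jj l) = p * (jj k * q) * jj l := by group
      _ = p * (q * jj k) * jj l := by rw [jj_comm k q]
      _ = (p * q) * (jj k * jj l) := by group
      _ = (q * p) * (jj l * jj k) := by rw [hpq, jj_comm l (jj k)]
      _ = q * (p * jj l) * jj k := by group
      _ = q * (jj l * p) * jj k := by rw [jj_comm l p]
      _ = (q * jj l) * (p * jj k) := by group
  apply e
  split_ifs
  · exact h1
  · rfl

theorem pj_mul (t : ZMod 2) (β : ℕ → ZMod 2) (a : ℕ) : pj t β a * pj t β a = 1 := by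
  unfold pj
  have e : ∀ (p : PG) (k : ZMod 2), p * p = 1 → (p * jj k) * (p * jj k) = 1 := by
    intro p k hp
    calc (p * jj k) * (p * jj k) = p * (jj k * p) * jj k := by group
      _ = p * (p * jj k) * jj k := by rw [jj_comm k p]
      _ = (p * p) * (jj k * jj k) := by group
      _ = 1 := by rw [hp, jj_mul, z2]; rfl
  apply e
  split_ifs
  · exact PP_mul' a
  · rfl

theorem pj_tri (p q r : PG) (k l m : ZMod 2) :
    (p * jj k) * ((q * jj l) * (r * jj m)) = (p * (q * r)) * jj (k + l + m) := by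
  calc (p * jj k) * ((q * jj l) * (r * jj m)) = p * (jj k * q) * (jj l * r) * jj m := by group
    _ = p * (q * jj k) * (r * jj l) * jj m := by rw [jj_comm k q, jj_comm l r]
    _ = p * q * (jj k * r) * (jj l * jj m) := by group
    _ = p * q * (r * jj k) * jj (l + m) := by rw [jj_comm k r, jj_mul]
    _ = (p * (q * r)) * (jj k * jj (l + m)) := by group
    _ = _ := by rw [jj_mul, add_assoc]

include h in
theorem J_ne (hV : Valid c) : J c ≠ 1 := by
  set βc : ℕ → ZMod 2 := fun v => if hv : v < 10 then (colour c (f ⟨v, hv⟩).1 : ZMod 2) else 0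
    with hβc
  set t : ZMod 2 := βc 0 + βc 1 + βc 2 + βc 3 + βc 4 + βc 5 + βc 6 + βc 7 + βc 8 + βc 9 with ht
  set β : ℕ → ZMod 2 := fun v => βc v + (if v = 7 then t else 0) with hβ
  have hsum : β 0 + β 1 + β 2 + β 3 + β 4 + β 5 + β 6 + β 7 + β 8 + β 9 = 0 := by
    have e : β 0 + β 1 + β 2 + β 3 + β 4 + β 5 + β 6 + β 7 + β 8 + β 9 = t + t := by
      simp [hβ, ht]
      ring
    rw [e, z2]
  have hs := sg_ok β hsum
  obtain ⟨φ, h1, _⟩ := hom_of h hV (jj 1) (pj t β) (by rw [jj_mul]; rfl) (pj_mul t β)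
    (fun a => (jj_comm 1 _)) (fun a b hT => pj_comm hT) (fun v => colour c (f v).1)
    (fun v => rfl) (by
      intro v
      obtain ⟨h2, h3⟩ := vab v
      refine ⟨va v.1, vb v.1, h2, h3, ?_⟩
      have hv : v.1 < 10 := v.2
      rw [jj_pow]
      unfold pj
      rw [pj_tri, hs v.1 hv]
      have e1 : βc v.1 = (colour c (f v).1 : ZMod 2) := by
        simp only [hβc]
        rw [dif_pos hv]
      rw [← e1]
      simp only [hβ]
      rcases zmod2_cases t with h0 | h0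
      · rw [h0]
        simp only [zero_ne_one, if_false, ite_self, add_zero, mul_one, one_mul]
      · rw [h0]
        simp only [if_true]
        rw [PP_v v.1 hv, jj_mul]
        congr 1
        rw [add_comm, add_assoc, z2, add_zero])
  intro hJ
  rw [hJ, map_one] at h1
  exact absurd h1 (by decide)

include h in
theorem hom_pm (hV : Valid c) {m : ℕ} (hm : m < 12) :
    ∃ φ : Gam c →* DihedralGroup 0, φ (J c) = 1 ∧ ∀ i, φ (x c i) = pm m (g.symm i).1 := by
  refine hom_of h hV 1 (pm m) (one_mul 1) (pm_mul m) (fun a => by rw [mul_one, one_mul]) ?_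
    (fun v => colour c (f v).1) (fun v => rfl) ?_
  · intro a b hT
    obtain ⟨ha, hb⟩ := T_lt hT
    have h1 := T_symm ⟨a, ha⟩ ⟨b, hb⟩ hT
    simp only at h1
    rw [pm_T hm hT, pm_T hm (by rw [h1]; exact hT), h1]
  · intro v
    obtain ⟨h2, h3⟩ := vab v
    refine ⟨va v.1, vb v.1, h2, h3, ?_⟩
    rw [← mul_assoc, pm_T hm h2, pm_mul, one_pow]

include h in
theorem derive_pet (hV : Valid c) {K : ℕ} (hK : ∀ u : List ℕ, (∀ x ∈ u, x < 15) →
    (∀ m < 12, vl m u = 1) → GR PR (K * (u.length + 1)) u [])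
    (u : List (Option (Edge c))) (hu : vG c u = 1) :
    GR (Ru c) (K * (u.length + 1) + u.length + 20) u [] := by
  obtain ⟨k, w, hw, h1⟩ := pull u
  set w' : List ℕ := w.map fun i => (g.symm i).1 with hw'
  have hl : w'.length = w.length := by rw [hw', List.length_map]
  have hback : w'.map (gg g) = w := by
    rw [hw', List.map_map]
    have : (gg g ∘ fun i => (g.symm i).1) = (id : Edge c → Edge c) := by
      funext i
      exact gg_symm i
    rw [this, List.map_id]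
  have h2 : vG c (jw k ++ w.map some) = 1 := by rw [← GR_val h1, hu]
  rw [vG_append, vG_jw] at h2
  have h3 := hK w' (by
    intro y hy
    rw [hw', List.mem_map] at hy
    obtain ⟨i, _, rfl⟩ := hy
    exact (g.symm i).2) (by
    intro m hm
    obtain ⟨φ, h4, h5⟩ := hom_pm h hV hm
    have h6 := congrArg φ h2
    rw [map_mul, map_pow, h4, one_pow, one_mul, map_one] at h6
    rw [← h6]
    unfold vl vG
    rw [hw', map_list_prod, List.map_map, List.map_map, List.map_map]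
    congr 1
    apply List.map_congr_left
    intro i _
    exact (h5 i).symm)
  obtain ⟨k', h4⟩ := D_GR h h3
  rw [hback] at h4
  have h5 := h4 k [] []
  simp only [List.nil_append, List.append_nil, List.map_nil, List.length_nil, add_zero] at h5
  have h6 := h1.mono (N' := K * (u.length + 1) + u.length + 20) (by omega)
  have h7 := h5.mono (N' := K * (u.length + 1) + u.length + 20) (by
    have : K * (w'.length + 1) ≤ K * (u.length + 1) := Nat.mul_le_mul_left _ (by omega)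
    omega)
  have h8 := GR_val h7
  rw [← GR_val h6, hu, vG_jw] at h8
  rcases zmod2_cases (k + k') with h0 | h0
  · rw [h0, jw_zero] at h7
    exact h6.trans h7
  · exfalso
    rw [h0] at h8
    have e : (1 : ZMod 2).val = 1 := rfl
    rw [e, pow_one] at h8
    exact J_ne h hV h8.symm

end Pet

/-- the word problem for coloured Petersen graphs -/
theorem petersen_solvable : Solvable IsPetersen := by
  obtain ⟨K, hK⟩ := Pet.main
  refine solvable_of_bound IsPetersen (fun q => K * (q.2.length + 1) + q.2.length + 20) ?_ ?_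
  · have hn : Primrec (fun q : Code × List ℕ => q.2.length) :=
      Primrec.list_length.comp Primrec.snd
    exact Primrec.nat_add.comp (Primrec.nat_add.comp (Primrec.nat_mul.comp (Primrec.const K)
      (Primrec.succ.comp hn)) hn) (Primrec.const 20)
  · rintro c hV ⟨f, g, h⟩ u hu
    have h1 := Pet.derive_pet h hV hK u hu
    have h2 := Ru_reach h1
    show Relation.ReflTransGen (BStep (RL c) _) (u.map (enc c)) []
    simp only [List.length_map]
    exact h2

end Pool.Agent.Helper2GI
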