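import Mathlib
import Pool.Agent.Helper2GI.One

/-!
Codes of simple graphs on the vertex set `{0, …, n - 1}`.
-/

set_option autoImplicit false

namespace Pool.Agent.Helper2GI

/-- The coded coloured graph `c` is the simple graph `G`, with arbitrary colours: the list of edges
of `c` contains every edge of `G` exactly once, in any order and in any direction. -/
def IsCode {n : ℕ} (G : SimpleGraph (Fin n)) (c : Code) : Prop :=
  c.1 = n ∧ (c.2.1.map fun p => s(p.1, p.2)).Nodup ∧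
    ∀ u v : ℕ, s(u, v) ∈ c.2.1.map (fun p => s(p.1, p.2)) ↔
      ∃ (hu : u < n) (hv : v < n), G.Adj ⟨u, hu⟩ ⟨v, hv⟩

variable {n : ℕ} {G : SimpleGraph (Fin n)} {c : Code}

theorem IsCode.valid (h : IsCode G c) : Valid c := by
  intro p hp
  obtain ⟨hu, hv, ha⟩ := (h.2.2 p.1 p.2).1 (List.mem_map.2 ⟨p, hp, rfl⟩)
  rw [h.1]
  refine ⟨hu, hv, ?_⟩
  intro he
  have : (⟨p.1, hu⟩ : Fin n) = ⟨p.2, hv⟩ := Fin.ext he
  rw [this] at ha
  exact G.loopless.irrefl _ ha

/-- the edge with given endpoints -/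
theorem IsCode.edge (h : IsCode G c) {u v : Fin n} (ha : G.Adj u v) :
    ∃ i : Edge c, Inc c u.1 i ∧ Inc c v.1 i := by
  have h1 := (h.2.2 u.1 v.1).2 ⟨u.2, v.2, ha⟩
  obtain ⟨p, hp, hpe⟩ := List.mem_map.1 h1
  obtain ⟨i, hi⟩ := List.get_of_mem hp
  refine ⟨i, ?_, ?_⟩
  · unfold Inc
    rw [hi]
    rw [Sym2.eq_iff] at hpe
    rcases hpe with ⟨h2, _⟩ | ⟨_, h2⟩
    · exact Or.inl h2
    · exact Or.inr h2
  · unfold Inc
    rw [hi]
    rw [Sym2.eq_iff] at hpe
    rcases hpe with ⟨_, h2⟩ | ⟨h2, _⟩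
    · exact Or.inr h2
    · exact Or.inl h2

theorem edge_sym {c : Code} {u v : ℕ} {i : Edge c} (huv : u ≠ v) (h1 : Inc c u i)
    (h2 : Inc c v i) : s((c.2.1.get i).1, (c.2.1.get i).2) = s(u, v) := by
  rw [Sym2.eq_iff]
  unfold Inc at h1 h2
  rcases h1 with h1 | h1 <;> rcases h2 with h2 | h2
  · exact absurd (h1.symm.trans h2) huv
  · exact Or.inl ⟨h1, h2⟩
  · exact Or.inr ⟨h2, h1⟩
  · exact absurd (h1.symm.trans h2) huv

theorem IsCode.adj (h : IsCode G c) {u v : ℕ} {i : Edge c} (huv : u ≠ v) (h1 : Inc c u i)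
    (h2 : Inc c v i) : ∃ (hu : u < n) (hv : v < n), G.Adj ⟨u, hu⟩ ⟨v, hv⟩ := by
  refine (h.2.2 u v).1 ?_
  rw [← edge_sym huv h1 h2]
  exact List.mem_map.2 ⟨_, List.get_mem _ _, rfl⟩

theorem IsCode.inj (h : IsCode G c) {u v : ℕ} {i j : Edge c} (huv : u ≠ v) (h1 : Inc c u i)
    (h2 : Inc c v i) (h3 : Inc c u j) (h4 : Inc c v j) : i = j := by
  have e := (edge_sym huv h1 h2).trans (edge_sym huv h3 h4).symm
  have h5 := h.2.1
  rw [List.nodup_iff_injective_get] at h5
  have hl : (c.2.1.map fun p => s(p.1, p.2)).length = c.2.1.length := List.length_map _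
  have h6 := @h5 (Fin.cast hl.symm i) (Fin.cast hl.symm j) (by simpa using e)
  simpa [Fin.ext_iff] using h6

theorem IsCode.joining (h : IsCode G c) {u v : ℕ} (huv : u ≠ v) : joining c u v ≤ 1 := by
  unfold Helper2GI.joining
  have h1 : ((star c u).filter fun i => Inc c v i).Nodup := (star_nodup c u).filter _
  rw [← List.toFinset_card_of_nodup h1, Finset.card_le_one]
  intro i hi j hj
  simp only [List.mem_toFinset, List.mem_filter, decide_eq_true_eq, mem_star] at hi hj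
  exact h.inj huv hi.1 hi.2 hj.1 hj.2

theorem third_inc {c : Code} {u v w : ℕ} {i : Edge c} (huv : u ≠ v) (huw : u ≠ w)
    (h1 : Inc c u i) (h2 : Inc c v i) (h3 : Inc c w i) : v = w := by
  have e := (edge_sym huv h1 h2).symm.trans (edge_sym huw h1 h3)
  exact Sym2.congr_right.1 e

theorem IsCode.degree (h : IsCode G c) [DecidableRel G.Adj] (v : Fin n) :
    degree c v.1 = G.degree v := by
  classical
  unfold Helper2GI.degree
  rw [← List.toFinset_card_of_nodup (star_nodup c v.1), ← SimpleGraph.card_neighborFinset_eq_degree]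
  symm
  refine Finset.card_bij (fun w hw => Classical.choose (h.edge ((G.mem_neighborFinset v w).1 hw)))
    ?_ ?_ ?_
  · intro w hw
    rw [List.mem_toFinset, mem_star]
    exact (Classical.choose_spec (h.edge ((G.mem_neighborFinset v w).1 hw))).1
  · intro w hw w' hw' he
    have h1 := Classical.choose_spec (h.edge ((G.mem_neighborFinset v w).1 hw))
    have h2 := Classical.choose_spec (h.edge ((G.mem_neighborFinset v w').1 hw'))
    rw [← he] at h2
    have n1 : v.1 ≠ w.1 := fun hh => (G.ne_of_adj ((G.mem_neighborFinset v w).1 hw)) (Fin.ext hh)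
    have n2 : v.1 ≠ w'.1 := fun hh =>
      (G.ne_of_adj ((G.mem_neighborFinset v w').1 hw')) (Fin.ext hh)
    exact Fin.ext (third_inc n1 n2 h1.1 h1.2 h2.2)
  · intro i hi
    rw [List.mem_toFinset, mem_star] at hi
    obtain ⟨w, hw, hiw⟩ : ∃ w, v.1 ≠ w ∧ Inc c w i := by
      have hne := (h.valid (c.2.1.get i) (List.get_mem _ _)).2.2
      rcases hi with hi | hi
      · exact ⟨(c.2.1.get i).2, by rw [← hi]; exact hne, Or.inr rfl⟩
      · exact ⟨(c.2.1.get i).1, by rw [← hi]; exact hne.symm, Or.inl rfl⟩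
    obtain ⟨hu, hv, ha⟩ := h.adj hw hi hiw
    have ha' : G.Adj v ⟨w, hv⟩ := ha
    refine ⟨⟨w, hv⟩, (G.mem_neighborFinset v _).2 ha', ?_⟩
    have h2 := Classical.choose_spec (h.edge ha')
    exact h.inj hw h2.1 h2.2 hi hiw

end Pool.Agent.Helper2GI
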