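import Mathlib
import Pool.Agent.Helper2GI.Dens

/-!
Almost all graphs have large minimum degree.
-/

set_option autoImplicit false

namespace Pool.Agent.Helper2GI

open Filter Topology

section

variable {n : ℕ}

/-- changing the edges at `v` -/
def tog (v : Fin n) (S : Finset (Fin n)) (G : SimpleGraph (Fin n)) : SimpleGraph (Fin n) where
  Adj a b := a ≠ b ∧ ¬ (G.Adj a b ↔ ((a = v ∧ b ∈ S) ∨ (b = v ∧ a ∈ S)))
  symm := ⟨by
    intro a b h
    refine ⟨h.1.symm, ?_⟩
    rw [G.adj_comm, or_comm]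
    exact h.2⟩
  loopless := ⟨fun a h => h.1 rfl⟩

theorem small_sets (n : ℕ) :
    Nat.card {N : Finset (Fin n) // N.card ≤ 80} ≤ (n + 1) ^ 80 := by
  classical
  have h1 : Nat.card (Fin 80 → Option (Fin n)) = (n + 1) ^ 80 := by
    rw [Nat.card_eq_fintype_card, Fintype.card_fun, Fintype.card_option, Fintype.card_fin,
      Fintype.card_fin]
  rw [← h1]
  refine Nat.card_le_card_of_injective
    (fun N : {N : Finset (Fin n) // N.card ≤ 80} => fun i : Fin 80 => N.1.toList[i.1]?) ?_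
  intro N N' h
  apply Subtype.ext
  have key : ∀ M : {N : Finset (Fin n) // N.card ≤ 80}, ∀ x, x ∈ M.1 ↔
      ∃ i : Fin 80, M.1.toList[i.1]? = some x := by
    intro M x
    rw [← Finset.mem_toList, List.mem_iff_getElem?]
    constructor
    · rintro ⟨i, hi⟩
      have hlt : i < M.1.toList.length := by
        by_contra hh
        rw [List.getElem?_eq_none (by omega)] at hi
        exact absurd hi (by simp)
      rw [Finset.length_toList] at hlt
      exact ⟨⟨i, lt_of_lt_of_le hlt M.2⟩, hi⟩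
    · rintro ⟨i, hi⟩
      exact ⟨i.1, hi⟩
  ext x
  rw [key N, key N']
  have h2 : ∀ i : Fin 80, N.1.toList[i.1]? = N'.1.toList[i.1]? := fun i => congrFun h i
  simp only [h2]

theorem bad_at (v : Fin n) :
    Nat.card {G : SimpleGraph (Fin n) // (G.neighborSet v).ncard ≤ 80} * 2 ^ (n - 1) ≤
      Nat.card (SimpleGraph (Fin n)) * (n + 1) ^ 80 := by
  classical
  have h1 : Nat.card {S : Finset (Fin n) // v ∉ S} = 2 ^ (n - 1) := by
    rw [Nat.card_eq_fintype_card, Fintype.card_subtype]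
    have : (Finset.univ.filter fun S : Finset (Fin n) => v ∉ S) = (Finset.univ.erase v).powerset := by
      ext S
      simp only [Finset.mem_filter, Finset.mem_univ, true_and, Finset.mem_powerset]
      constructor
      · intro h x hx
        rw [Finset.mem_erase]
        exact ⟨fun hh => h (hh ▸ hx), Finset.mem_univ _⟩
      · intro h hv
        exact (Finset.mem_erase.1 (h hv)).1 rfl
    rw [this, Finset.card_powerset, Finset.card_erase_of_mem (Finset.mem_univ _), Finset.card_univ,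
      Fintype.card_fin]
  have h2 : Nat.card {G : SimpleGraph (Fin n) // (G.neighborSet v).ncard ≤ 80} * 2 ^ (n - 1) ≤
      Nat.card (SimpleGraph (Fin n)) * Nat.card {N : Finset (Fin n) // N.card ≤ 80} := by
    rw [← h1, ← Nat.card_prod, ← Nat.card_prod]
    refine Nat.card_le_card_of_injective (fun p => (tog v p.2.1 p.1.1,
      (⟨(p.1.1.neighborSet v).toFinset, by
        rw [Set.toFinset_card, ← Nat.card_eq_fintype_card]
        exact p.1.2⟩ : {N : Finset (Fin n) // N.card ≤ 80}))) ?_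
    rintro ⟨⟨G, hG⟩, ⟨S, hS⟩⟩ ⟨⟨G', hG'⟩, ⟨S', hS'⟩⟩ h
    simp only [Prod.mk.injEq, Subtype.mk.injEq] at h
    obtain ⟨h3, h4⟩ := h
    have h5 : ∀ x, G.Adj v x ↔ G'.Adj v x := by
      intro x
      have h6 : x ∈ (G.neighborSet v).toFinset ↔ x ∈ (G'.neighborSet v).toFinset := by rw [h4]
      simpa using h6
    have h6 : ∀ a b, a ≠ b → ((G.Adj a b ↔ ((a = v ∧ b ∈ S) ∨ (b = v ∧ a ∈ S))) ↔
        (G'.Adj a b ↔ ((a = v ∧ b ∈ S') ∨ (b = v ∧ a ∈ S')))) := by
      intro a b hab
      have h7 : (tog v S G).Adj a b ↔ (tog v S' G').Adj a b := by rw [h3]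
      simp only [tog, ne_eq, hab, not_false_eq_true, true_and] at h7
      exact not_iff_not.1 h7
    have hSS : S = S' := by
      ext x
      by_cases hx : x = v
      · rw [hx]
        exact ⟨fun h => absurd h hS, fun h => absurd h hS'⟩
      · have h7 := h6 v x (Ne.symm hx)
        have h8 := h5 x
        simp only [true_and, hx, false_and, or_false] at h7
        tauto
    have hGG : G = G' := by
      ext a b
      by_cases hab : a = b
      · rw [hab]
        exact ⟨fun h => absurd h (G.loopless.irrefl _), fun h => absurd h (G'.loopless.irrefl _)⟩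
      · have h7 := h6 a b hab
        rw [hSS] at h7
        tauto
    subst hSS hGG
    rfl
  exact h2.trans (Nat.mul_le_mul_left _ (small_sets n))

theorem bad_all :
    Nat.card {G : SimpleGraph (Fin n) // ∃ v, (G.neighborSet v).ncard ≤ 80} * 2 ^ (n - 1) ≤
      n * (Nat.card (SimpleGraph (Fin n)) * (n + 1) ^ 80) := by
  classical
  have h1 : Nat.card {G : SimpleGraph (Fin n) // ∃ v, (G.neighborSet v).ncard ≤ 80} ≤
      ∑ v : Fin n, Nat.card {G : SimpleGraph (Fin n) // (G.neighborSet v).ncard ≤ 80} := by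
    simp only [Nat.card_eq_fintype_card, Fintype.card_subtype]
    refine le_trans (Finset.card_le_card ?_) Finset.card_biUnion_le
    intro G hG
    simp only [Finset.mem_filter, Finset.mem_univ, true_and, Finset.mem_biUnion] at hG ⊢
    exact hG
  calc _ ≤ (∑ v : Fin n, Nat.card {G : SimpleGraph (Fin n) // (G.neighborSet v).ncard ≤ 80}) *
        2 ^ (n - 1) := Nat.mul_le_mul_right _ h1
    _ = ∑ v : Fin n, Nat.card {G : SimpleGraph (Fin n) // (G.neighborSet v).ncard ≤ 80} *
        2 ^ (n - 1) := Finset.sum_mul _ _ _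
    _ ≤ ∑ _v : Fin n, Nat.card (SimpleGraph (Fin n)) * (n + 1) ^ 80 :=
        Finset.sum_le_sum fun v _ => bad_at v
    _ = _ := by rw [Finset.sum_const, Finset.card_univ, Fintype.card_fin, smul_eq_mul]

end

theorem arith (b A n M X Y : ℝ) (hA : 0 < A) (hM : 0 ≤ M) (hb : 0 ≤ b) (h4 : b * X ≤ n * (A * M))
    (h5 : Y ≤ 4 * X) (h6 : 0 < Y) : b / A ≤ 4 * ((n + 1) * M / Y) := by
  rw [div_le_iff₀ hA]
  have h8 : b * Y ≤ 4 * (n + 1) * M * A := by
    have e1 : b * Y ≤ b * (4 * X) := mul_le_mul_of_nonneg_left h5 hb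
    have e2 : (0 : ℝ) ≤ A * M := mul_nonneg hA.le hM
    nlinarith
  have h10 : 4 * ((n + 1) * M / Y) * A = (4 * (n + 1) * M * A) / Y := by ring
  rw [h10, le_div_iff₀ h6]
  exact h8

theorem density_arith (b A n k : ℕ) (hA : 0 < A) (h : b * 2 ^ (n - 1) ≤ n * (A * (n + 1) ^ k)) :
    (b : ℝ) / A ≤ 4 * (((n + 1 : ℕ) : ℝ) ^ (k + 1) / 2 ^ (n + 1)) := by
  have h4 : (b : ℝ) * 2 ^ (n - 1) ≤ n * (A * ((n : ℝ) + 1) ^ k) := by
    exact_mod_cast h
  have h5 : (2 : ℝ) ^ (n + 1) ≤ 4 * 2 ^ (n - 1) := by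
    have : (4 : ℝ) * 2 ^ (n - 1) = 2 ^ (n - 1 + 2) := by ring
    rw [this]
    exact pow_le_pow_right₀ (by norm_num) (by omega)
  have h9 : (((n + 1 : ℕ) : ℝ)) ^ (k + 1) = ((n : ℝ) + 1) * ((n : ℝ) + 1) ^ k := by
    rw [Nat.cast_add, Nat.cast_one, ← pow_succ']
  rw [h9]
  exact arith b A n _ _ _ (by exact_mod_cast hA) (by positivity) (Nat.cast_nonneg b) h4 h5
    (by positivity)

theorem density (P : ∀ n, SimpleGraph (Fin n) → Prop)
    (hP : ∀ n G, (∀ v, 80 < (G.neighborSet v).ncard) → P n G) :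
    Tendsto (fun n => (Nat.card {G : SimpleGraph (Fin n) // ¬ P n G} : ℝ) /
      Nat.card (SimpleGraph (Fin n))) atTop (𝓝 0) := by
  have h1 : ∀ n, Nat.card {G : SimpleGraph (Fin n) // ¬ P n G} ≤
      Nat.card {G : SimpleGraph (Fin n) // ∃ v, (G.neighborSet v).ncard ≤ 80} := by
    intro n
    have hh : ∀ G : SimpleGraph (Fin n), ¬ P n G → ∃ v, (G.neighborSet v).ncard ≤ 80 := by
      intro G hG
      by_contra h
      push Not at h
      exact hG (hP n G h)
    refine Nat.card_le_card_of_injective (Subtype.map id hh) (fun G G' h => ?_)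
    have h' := congrArg Subtype.val h
    exact Subtype.ext h'
  have h2 : ∀ n, (Nat.card {G : SimpleGraph (Fin n) // ¬ P n G} : ℝ) /
      Nat.card (SimpleGraph (Fin n)) ≤ 4 * (((n + 1 : ℕ) : ℝ) ^ 81 / 2 ^ (n + 1)) := by
    intro n
    exact density_arith _ _ n 80 Nat.card_pos ((Nat.mul_le_mul_right _ (h1 n)).trans bad_all)
  have h3 : Tendsto (fun n : ℕ => 4 * (((n + 1 : ℕ) : ℝ) ^ 81 / 2 ^ (n + 1))) atTop (𝓝 0) := by
    have h4 := (tendsto_pow_const_div_const_pow_of_one_lt 81 (r := (2 : ℝ)) (by norm_num))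
    have h5 := (h4.comp (tendsto_add_atTop_nat 1)).const_mul 4
    simpa [Function.comp_def] using h5
  exact squeeze_zero (fun n => by positivity) h2 h3

end Pool.Agent.Helper2GI
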