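import Mathlib
import Pool.Agent.Helper2GI.Deriv

/-!
Groups given by quadratic systems of relators: basic facts on bounded derivations.
-/

set_option autoImplicit false

namespace Pool.Agent.Helper2GI.Qd

variable {A : Type}

/-- an involution without fixed points -/
structure Op (A : Type) where
  op : A → A
  op_op : ∀ a, op (op a) = a
  ne : ∀ a, op a ≠ a

/-- systems of relators with signs -/
abbrev Sys (A : Type) := List (List A × ZMod 2)

/-- all letters of a system -/
def flat (𝓡 : Sys A) : List A := 𝓡.flatMap Prod.fst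

/-- the system is quadratic: every letter occurs at most once, together with its inverse -/
structure Good (o : Op A) (𝓡 : Sys A) : Prop where
  nodup : (flat 𝓡).Nodup
  closed : ∀ a ∈ flat 𝓡, o.op a ∈ flat 𝓡

/-- the rules -/
inductive Rh (o : Op A) (𝓡 : Sys A) : List (Option A) → List (Option A) → Prop
  | jj : Rh o 𝓡 [none, none] []
  | jj' : Rh o 𝓡 [] [none, none]
  | jx (a : A) : Rh o 𝓡 [none, some a] [some a, none]
  | xj (a : A) : Rh o 𝓡 [some a, none] [none, some a]
  | inv (a : A) : Rh o 𝓡 [some a, some (o.op a)] []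
  | inv' (a : A) : Rh o 𝓡 [] [some a, some (o.op a)]
  | rel (R : List A) (s : ZMod 2) (h : (R, s) ∈ 𝓡) : Rh o 𝓡 (R.map some) (jw s)
  | rel' (R : List A) (s : ZMod 2) (h : (R, s) ∈ 𝓡) : Rh o 𝓡 (jw s) (R.map some)

/-- the relators -/
inductive Rl (o : Op A) (𝓡 : Sys A) : FreeGroup (Option A) → Prop
  | jj : Rl o 𝓡 (FreeGroup.of none * FreeGroup.of none)
  | jx (a : A) : Rl o 𝓡 (FreeGroup.of none * FreeGroup.of (some a) *
      (FreeGroup.of none)⁻¹ * (FreeGroup.of (some a))⁻¹)
  | inv (a : A) : Rl o 𝓡 (FreeGroup.of (some a) * FreeGroup.of (some (o.op a)))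
  | rel (R : List A) (s : ZMod 2) (h : (R, s) ∈ 𝓡) :
      Rl o 𝓡 ((R.map fun a => FreeGroup.of (some a)).prod * (FreeGroup.of none) ^ s.val)

/-- the group -/
abbrev Hg (o : Op A) (𝓡 : Sys A) : Type := PresentedGroup {r | Rl o 𝓡 r}

variable {o : Op A} {𝓡 : Sys A}

/-- the value of a letter -/
def lt (o : Op A) (𝓡 : Sys A) (a : Option A) : Hg o 𝓡 := PresentedGroup.of a

/-- the value of a word -/
def val (o : Op A) (𝓡 : Sys A) (p : List (Option A)) : Hg o 𝓡 := (p.map (lt o 𝓡)).prod

@[simp] theorem val_nil : val o 𝓡 [] = 1 := rfl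

theorem val_append (p q : List (Option A)) : val o 𝓡 (p ++ q) = val o 𝓡 p * val o 𝓡 q := by
  unfold val
  rw [List.map_append, List.prod_append]

theorem val_cons (a : Option A) (q : List (Option A)) :
    val o 𝓡 (a :: q) = lt o 𝓡 a * val o 𝓡 q := by
  unfold val
  rw [List.map_cons, List.prod_cons]

theorem of_rl {r : FreeGroup (Option A)} (h : Rl o 𝓡 r) :
    PresentedGroup.mk {r | Rl o 𝓡 r} r = 1 := PresentedGroup.one_of_mem h

theorem jj_one : lt o 𝓡 none * lt o 𝓡 none = 1 := by
  have := of_rl (Rl.jj (o := o) (𝓡 := 𝓡))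
  rwa [map_mul] at this

theorem jx_comm (a : Option A) : lt o 𝓡 none * lt o 𝓡 a = lt o 𝓡 a * lt o 𝓡 none := by
  cases a with
  | none => rfl
  | some a =>
    have := of_rl (Rl.jx (o := o) (𝓡 := 𝓡) a)
    rw [map_mul, map_mul, map_mul, map_inv, map_inv] at this
    have h2 := mul_inv_eq_one.1 this
    exact mul_inv_eq_iff_eq_mul.1 h2

theorem inv_one (a : A) : lt o 𝓡 (some a) * lt o 𝓡 (some (o.op a)) = 1 := by
  have := of_rl (Rl.inv (o := o) (𝓡 := 𝓡) a)
  rwa [map_mul] at this

theorem j_comm (g : Hg o 𝓡) : lt o 𝓡 none * g = g * lt o 𝓡 none := by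
  obtain ⟨w, rfl⟩ := PresentedGroup.mk_surjective _ g
  induction w using FreeGroup.induction_on with
  | C1 => simp
  | of a => exact jx_comm a
  | inv_of a ih =>
    rw [map_inv]
    have := jx_comm (o := o) (𝓡 := 𝓡) a
    change lt o 𝓡 none * (lt o 𝓡 a)⁻¹ = (lt o 𝓡 a)⁻¹ * lt o 𝓡 none
    rw [eq_inv_mul_iff_mul_eq, ← mul_assoc, ← this, mul_inv_cancel_right]
  | mul x y hx hy => rw [map_mul, ← mul_assoc, hx, mul_assoc, hy, mul_assoc]

theorem val_jw (s : ZMod 2) : val o 𝓡 (jw s) = lt o 𝓡 none ^ s.val := by
  rcases RA.zmod2_cases s with rfl | rfl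
  · rw [jw_zero]
    simp
  · rw [jw_one, val_cons, val_nil, mul_one]
    show _ = lt o 𝓡 none ^ 1
    rw [pow_one]

theorem jpow_two (s : ZMod 2) : lt o 𝓡 none ^ s.val * lt o 𝓡 none ^ s.val = 1 := by
  rw [← pow_add, ← two_mul, pow_mul, pow_two, jj_one, one_pow]

theorem jw_sq (s : ZMod 2) : val o 𝓡 (jw s) * val o 𝓡 (jw s) = 1 := by
  rw [val_jw, jpow_two]

theorem jw_comm (s : ZMod 2) (g : Hg o 𝓡) : val o 𝓡 (jw s) * g = g * val o 𝓡 (jw s) := by
  rw [val_jw]
  exact (Commute.pow_left (j_comm g) _)

theorem rel_val {R : List A} {s : ZMod 2} (h : (R, s) ∈ 𝓡) :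
    val o 𝓡 (R.map some) = val o 𝓡 (jw s) := by
  have h1 := of_rl (Rl.rel (o := o) R s h)
  rw [map_mul, map_pow, map_list_prod, List.map_map] at h1
  have h2 : val o 𝓡 (R.map some) * lt o 𝓡 none ^ s.val = 1 := by
    unfold val
    rw [List.map_map]
    exact h1
  rw [val_jw]
  have h3 := mul_eq_one_iff_eq_inv.1 h2
  rw [h3]
  exact inv_eq_of_mul_eq_one_right (jpow_two s)

theorem rule_val {u v : List (Option A)} (h : Rh o 𝓡 u v) : val o 𝓡 u = val o 𝓡 v := by
  cases h with
  | jj => simp only [val_cons, val_nil, mul_one, jj_one]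
  | jj' => simp only [val_cons, val_nil, mul_one, jj_one]
  | jx a => simp only [val_cons, val_nil, mul_one, jx_comm]
  | xj a => simp only [val_cons, val_nil, mul_one, jx_comm]
  | inv a => simp only [val_cons, val_nil, mul_one, inv_one]
  | inv' a => simp only [val_cons, val_nil, mul_one, inv_one]
  | rel R s h => exact rel_val h
  | rel' R s h => exact (rel_val h).symm

theorem GR_val {N : ℕ} {u v : List (Option A)} (h : GR (Rh o 𝓡) N u v) :
    val o 𝓡 u = val o 𝓡 v := by
  induction h with
  | refl => rfl
  | tail _ h2 ih =>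
    obtain ⟨l, r, a, b, h3, h4, h5, _⟩ := h2
    rw [ih, h4, h5]
    simp only [val_append, rule_val h3]

/-- homomorphisms out of the group -/
noncomputable def lift {K : Type} [Group K] (f : Option A → K) (h1 : f none * f none = 1)
    (h2 : ∀ a, f none * f a = f a * f none) (h3 : ∀ a, f (some a) * f (some (o.op a)) = 1)
    (h4 : ∀ R s, (R, s) ∈ 𝓡 → (R.map fun a => f (some a)).prod * f none ^ s.val = 1) :
    Hg o 𝓡 →* K :=
  PresentedGroup.toGroup (f := f) (by
    intro r hr
    cases hr with
    | jj => simpa using h1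
    | jx a =>
      simp only [map_mul, map_inv, FreeGroup.lift_apply_of]
      rw [h2]
      group
    | inv a => simpa using h3 a
    | rel R s h =>
      rw [map_mul, map_pow, map_list_prod, List.map_map, FreeGroup.lift_apply_of]
      have h5 := h4 R s h
      rw [← h5]
      congr 2
      refine List.map_congr_left fun a _ => ?_
      simp)

@[simp] theorem lift_lt {K : Type} [Group K] (f : Option A → K) (h1 : f none * f none = 1)
    (h2 : ∀ a, f none * f a = f a * f none) (h3 : ∀ a, f (some a) * f (some (o.op a)) = 1)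
    (h4 : ∀ R s, (R, s) ∈ 𝓡 → (R.map fun a => f (some a)).prod * f none ^ s.val = 1)
    (a : Option A) : lift f h1 h2 h3 h4 (lt o 𝓡 a) = f a := by
  unfold lift lt
  exact PresentedGroup.toGroup.of _

theorem lift_val {K : Type} [Group K] (f : Option A → K) (h1 : f none * f none = 1)
    (h2 : ∀ a, f none * f a = f a * f none) (h3 : ∀ a, f (some a) * f (some (o.op a)) = 1)
    (h4 : ∀ R s, (R, s) ∈ 𝓡 → (R.map fun a => f (some a)).prod * f none ^ s.val = 1)
    (p : List (Option A)) : lift f h1 h2 h3 h4 (val o 𝓡 p) = (p.map f).prod := by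
  unfold val
  rw [map_list_prod, List.map_map]
  congr 1
  refine List.map_congr_left fun a _ => ?_
  simp

/-! ### Inverse words -/

/-- the inverse word -/
def iw (o : Op A) (p : List (Option A)) : List (Option A) := (p.map (Option.map o.op)).reverse

@[simp] theorem iw_nil : iw o [] = [] := rfl

theorem iw_cons (a : Option A) (p : List (Option A)) :
    iw o (a :: p) = iw o p ++ [Option.map o.op a] := by
  unfold iw
  simp

theorem iw_append (p q : List (Option A)) : iw o (p ++ q) = iw o q ++ iw o p := by
  unfold iw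
  simp

@[simp] theorem iw_len (p : List (Option A)) : (iw o p).length = p.length := by
  unfold iw
  simp

theorem iw_iw (p : List (Option A)) : iw o (iw o p) = p := by
  unfold iw
  rw [← List.map_reverse, List.reverse_reverse, List.map_map]
  have : (Option.map o.op ∘ Option.map o.op : Option A → Option A) = id := by
    funext a
    cases a with
    | none => rfl
    | some a => simp [o.op_op]
  rw [this, List.map_id]

theorem pair_one (a : Option A) : lt o 𝓡 a * lt o 𝓡 (Option.map o.op a) = 1 := by
  cases a with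
  | none => exact jj_one
  | some a => exact inv_one a

theorem val_iw (p : List (Option A)) : val o 𝓡 (iw o p) = (val o 𝓡 p)⁻¹ := by
  induction p with
  | nil => simp
  | cons a p ih =>
    rw [iw_cons, val_append, ih, val_cons, val_cons, val_nil, mul_one, mul_inv_rev]
    congr 1
    exact eq_inv_of_mul_eq_one_right (pair_one a)

/-- deletion of a pair -/
theorem del_pair (a : Option A) : GR (Rh o 𝓡) 0 [a, Option.map o.op a] [] := by
  refine Relation.ReflTransGen.single ⟨[], [], [a, Option.map o.op a], [], ?_, rfl, rfl, by simp⟩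
  cases a with
  | none => exact Rh.jj
  | some a => exact Rh.inv a

theorem ins_pair (a : Option A) : GR (Rh o 𝓡) 2 [] [a, Option.map o.op a] := by
  refine Relation.ReflTransGen.single ⟨[], [], [], [a, Option.map o.op a], ?_, rfl, rfl, by simp⟩
  cases a with
  | none => exact Rh.jj'
  | some a => exact Rh.inv' a

theorem del_word (p : List (Option A)) : GR (Rh o 𝓡) (2 * p.length) (p ++ iw o p) [] := by
  induction p using List.reverseRecOn with
  | nil => exact Relation.ReflTransGen.refl
  | append_singleton p a ih =>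
    have h1 := (del_pair (o := o) (𝓡 := 𝓡) a).ctx p (iw o p)
      (N' := 2 * (p ++ [a]).length) (by simp; omega)
    rw [iw_append]
    have h2 : p ++ [a] ++ (iw o [a] ++ iw o p) = p ++ [a, Option.map o.op a] ++ iw o p := by
      rw [iw_cons, iw_nil]
      simp
    rw [h2]
    refine h1.trans ?_
    rw [List.append_nil]
    exact ih.mono (by simp)

theorem ins_word (p : List (Option A)) : GR (Rh o 𝓡) (2 * p.length) [] (p ++ iw o p) := by
  induction p using List.reverseRecOn with
  | nil => exact Relation.ReflTransGen.refl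
  | append_singleton p a ih =>
    have h1 := (ins_pair (o := o) (𝓡 := 𝓡) a).ctx p (iw o p)
      (N' := 2 * (p ++ [a]).length) (by simp; omega)
    rw [iw_append]
    have h2 : p ++ [a] ++ (iw o [a] ++ iw o p) = p ++ [a, Option.map o.op a] ++ iw o p := by
      rw [iw_cons, iw_nil]
      simp
    rw [h2]
    rw [List.append_nil] at h1
    exact (ih.mono (by simp)).trans h1

theorem del_word' (p : List (Option A)) : GR (Rh o 𝓡) (2 * p.length) (iw o p ++ p) [] := by
  have := del_word (o := o) (𝓡 := 𝓡) (iw o p)
  rwa [iw_iw, iw_len] at this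

theorem ins_word' (p : List (Option A)) : GR (Rh o 𝓡) (2 * p.length) [] (iw o p ++ p) := by
  have := ins_word (o := o) (𝓡 := 𝓡) (iw o p)
  rwa [iw_iw, iw_len] at this

/-- moving signs -/
theorem j_move (s : ZMod 2) (p : List (Option A)) :
    GR (Rh o 𝓡) (p.length + 1) (jw s ++ p) (p ++ jw s) := by
  rcases RA.zmod2_cases s with rfl | rfl
  · rw [jw_zero]
    simp only [List.nil_append, List.append_nil]
    exact Relation.ReflTransGen.refl
  · rw [jw_one]
    induction p with
    | nil => exact Relation.ReflTransGen.refl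
    | cons a p ih =>
      have h1 : GR (Rh o 𝓡) 2 [none, a] [a, none] := by
        cases a with
        | none => exact Relation.ReflTransGen.refl
        | some a =>
          exact Relation.ReflTransGen.single ⟨[], [], _, _, Rh.jx a, rfl, rfl, by simp⟩
      have h2 := h1.ctx [] p (N' := (a :: p).length + 1) (by simp; omega)
      have h3 := ih.ctx [a] [] (N' := (a :: p).length + 1) (by simp; omega)
      simp only [List.nil_append, List.append_nil, List.cons_append, List.singleton_append] at h2 h3 ⊢
      exact h2.trans h3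

theorem j_move' (s : ZMod 2) (p : List (Option A)) :
    GR (Rh o 𝓡) (p.length + 1) (p ++ jw s) (jw s ++ p) := by
  rcases RA.zmod2_cases s with rfl | rfl
  · rw [jw_zero]
    simp only [List.nil_append, List.append_nil]
    exact Relation.ReflTransGen.refl
  · rw [jw_one]
    induction p with
    | nil => exact Relation.ReflTransGen.refl
    | cons a p ih =>
      have h1 : GR (Rh o 𝓡) 2 [a, none] [none, a] := by
        cases a with
        | none => exact Relation.ReflTransGen.refl
        | some a =>
          exact Relation.ReflTransGen.single ⟨[], [], _, _, Rh.xj a, rfl, rfl, by simp⟩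
      have h2 := h1.ctx [] p (N' := (a :: p).length + 1) (by simp; omega)
      have h3 := ih.ctx [a] [] (N' := (a :: p).length + 1) (by simp; omega)
      simp only [List.nil_append, List.append_nil, List.cons_append, List.singleton_append] at h2 h3 ⊢
      exact h3.trans h2

theorem jj_del (s : ZMod 2) : GR (Rh o 𝓡) 2 (jw s ++ jw s) [] := by
  rcases RA.zmod2_cases s with rfl | rfl
  · exact Relation.ReflTransGen.refl
  · exact Relation.ReflTransGen.single ⟨[], [], _, _, Rh.jj, rfl, rfl, by simp⟩

theorem jj_ins (s : ZMod 2) : GR (Rh o 𝓡) 2 [] (jw s ++ jw s) := by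
  rcases RA.zmod2_cases s with rfl | rfl
  · exact Relation.ReflTransGen.refl
  · exact Relation.ReflTransGen.single ⟨[], [], _, _, Rh.jj', rfl, rfl, by simp [jw_one]⟩

theorem jj_add (s t : ZMod 2) : GR (Rh o 𝓡) 2 (jw s ++ jw t) (jw (s + t)) := by
  rcases RA.zmod2_cases s with rfl | rfl <;> rcases RA.zmod2_cases t with rfl | rfl
  · exact Relation.ReflTransGen.refl
  · exact Relation.ReflTransGen.refl
  · exact Relation.ReflTransGen.refl
  · exact jj_del 1

theorem jj_add' (s t : ZMod 2) : GR (Rh o 𝓡) 2 (jw (s + t)) (jw s ++ jw t) := by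
  rcases RA.zmod2_cases s with rfl | rfl <;> rcases RA.zmod2_cases t with rfl | rfl
  · exact Relation.ReflTransGen.refl
  · exact Relation.ReflTransGen.refl
  · exact Relation.ReflTransGen.refl
  · exact jj_ins 1

/-- simulation of rules -/
theorem sim {α : Type} {ρ ρ' : List α → List α → Prop} {c : ℕ} (h : ∀ a b, ρ' a b → GR ρ c a b)
    {B : ℕ} {s t : List α} (hst : GR ρ' B s t) (hs : s.length ≤ B) : GR ρ (B + c) s t := by
  induction hst with
  | refl => exact Relation.ReflTransGen.refl
  | @tail s' t' h1 h2 ih =>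
    have h3 : s'.length ≤ B := GR.len h1 hs
    obtain ⟨l, r, a, b, h4, h5, h6, _⟩ := h2
    rw [h5] at ih h3
    rw [h6]
    refine ih.trans ((h a b h4).ctx l r ?_)
    simp only [List.length_append] at h3
    omega

/-- letterwise derivations -/
theorem flatMap_GR {α : Type} {ρ : List α → List α → Prop} {c k : ℕ} (φ : α → List α)
    (h : ∀ a, GR ρ c [a] (φ a)) (hk : ∀ a, (φ a).length ≤ k) (hk1 : 1 ≤ k) (w : List α) :
    GR ρ (w.length * k + c) w (w.flatMap φ) := by
  induction w with
  | nil => exact Relation.ReflTransGen.refl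
  | cons a w ih =>
    rw [List.flatMap_cons]
    have h1 := (h a).ctx [] w (N' := (a :: w).length * k + c) (by
      simp only [List.length_nil, List.length_cons]
      nlinarith)
    have h2 := ih.ctx (φ a) [] (N' := (a :: w).length * k + c) (by
      have := hk a
      simp only [List.length_nil, List.length_cons]
      nlinarith)
    simp only [List.nil_append, List.append_nil, List.singleton_append] at h1 h2
    exact h1.trans h2

theorem flatMap_len {α : Type} {k : ℕ} (φ : α → List α) (hk : ∀ a, (φ a).length ≤ k)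
    (w : List α) : (w.flatMap φ).length ≤ w.length * k := by
  induction w with
  | nil => simp
  | cons a w ih =>
    rw [List.flatMap_cons, List.length_append, List.length_cons]
    have := hk a
    nlinarith

end Pool.Agent.Helper2GI.Qd
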