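import Mathlib
import Pool.Agent.Helper2GI.Qd1

/-!
Quadratic systems: the free case and the elimination of letters.
-/

set_option autoImplicit false

namespace Pool.Agent.Helper2GI.Qd

variable {A : Type} {o : Op A} {𝓡 𝓡' : Sys A}

/-- transfer of bounded derivations -/
theorem transfer (φ : Option A → List (Option A)) (k c : ℕ)
    (h1 : ∀ a, GR (Rh o 𝓡) c [a] (φ a)) (hk : ∀ a, (φ a).length ≤ k) (hk1 : 1 ≤ k) (hc : 2 ≤ c)
    (h2 : ∀ R s, (R, s) ∈ 𝓡' → GR (Rh o 𝓡) c (R.map some) (jw s))
    (h2' : ∀ R s, (R, s) ∈ 𝓡' → GR (Rh o 𝓡) c (jw s) (R.map some))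
    (h3 : ∀ w, val o 𝓡 w = 1 → val o 𝓡' (w.flatMap φ) = 1) (b : ℕ → ℕ) (hb : Monotone b)
    (hb' : ∀ n, n ≤ b n)
    (hP : ∀ w, val o 𝓡' w = 1 → GR (Rh o 𝓡') (b w.length) w []) (w : List (Option A))
    (hw : val o 𝓡 w = 1) : GR (Rh o 𝓡) (w.length * k + c + (b (w.length * k) + c)) w [] := by
  have e1 : GR (Rh o 𝓡) (w.length * k + c + (b (w.length * k) + c)) w (w.flatMap φ) :=
    (flatMap_GR φ h1 hk hk1 w).mono (by omega)
  refine e1.trans ?_
  have e2 := hP _ (h3 w hw)
  have hl := flatMap_len φ hk w
  have e3 : GR (Rh o 𝓡') (b (w.length * k)) (w.flatMap φ) [] := e2.mono (hb hl)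
  have e4 := sim (ρ := Rh o 𝓡) (c := c) (by
    intro u v huv
    have one : ∀ {u v : List (Option A)}, Rh o 𝓡 u v → v.length ≤ 2 → GR (Rh o 𝓡) c u v :=
      fun h h' => Relation.ReflTransGen.single ⟨[], [], _, _, h, by simp, by simp, by omega⟩
    cases huv with
    | jj => exact one Rh.jj (by simp)
    | jj' => exact one Rh.jj' (by simp)
    | jx a => exact one (Rh.jx a) (by simp)
    | xj a => exact one (Rh.xj a) (by simp)
    | inv a => exact one (Rh.inv a) (by simp)
    | inv' a => exact one (Rh.inv' a) (by simp)
    | rel R s h => exact h2 R s h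
    | rel' R s h => exact h2' R s h) e3 (hl.trans (hb' _))
  exact e4.mono (by omega)

theorem val_flatMap (φ : Option A → List (Option A)) (w : List (Option A)) :
    val o 𝓡 (w.flatMap φ) = (w.map fun a => val o 𝓡 (φ a)).prod := by
  induction w with
  | nil => rfl
  | cons a w ih => rw [List.flatMap_cons, val_append, ih, List.map_cons, List.prod_cons]

/-- substitutions -/
theorem val_subst (φ : Option A → List (Option A)) (h0 : φ none = [none])
    (h3 : ∀ a, val o 𝓡' (φ (some a)) * val o 𝓡' (φ (some (o.op a))) = 1)
    (h4 : ∀ R s, (R, s) ∈ 𝓡 → (R.map fun a => val o 𝓡' (φ (some a))).prod = val o 𝓡' (jw s))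
    (w : List (Option A)) (hw : val o 𝓡 w = 1) : val o 𝓡' (w.flatMap φ) = 1 := by
  have e0 : val o 𝓡' (φ none) = lt o 𝓡' none := by
    rw [h0, val_cons, val_nil, mul_one]
  have h := lift_val (o := o) (𝓡 := 𝓡) (fun a => val o 𝓡' (φ a))
    (by simp only [e0]; exact jj_one)
    (fun a => by simp only [e0]; exact j_comm _) h3
    (fun R s hR => by
      rw [h4 R s hR, e0, ← val_jw]
      exact jw_sq s) w
  rw [hw, map_one] at h
  rw [val_flatMap]
  exact h.symm

/-! ### The free case -/

open Classical in
/-- positive letters -/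
noncomputable def cv (o : Op A) (a : A) : A × Bool :=
  if WellOrderingRel a (o.op a) then (a, true) else (o.op a, false)

theorem cv_op (a : A) : cv o (o.op a) = ((cv o a).1, !(cv o a).2) := by
  unfold cv
  rw [o.op_op]
  rcases trichotomous_of WellOrderingRel a (o.op a) with h | h | h
  · have h2 : ¬ WellOrderingRel (o.op a) a := fun h' =>
      (IsStrictTotalOrder.toIsStrictOrder.toIrrefl.irrefl a : ¬ WellOrderingRel a a)
        (IsStrictTotalOrder.toIsStrictOrder.toIsTrans.trans _ _ _ h h')
    rw [if_pos h, if_neg h2]
    rfl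
  · exact absurd h.symm (o.ne a)
  · have h2 : ¬ WellOrderingRel a (o.op a) := fun h' =>
      (IsStrictTotalOrder.toIsStrictOrder.toIrrefl.irrefl a : ¬ WellOrderingRel a a)
        (IsStrictTotalOrder.toIsStrictOrder.toIsTrans.trans _ _ _ h' h)
    rw [if_neg h2, if_pos h]
    rfl

theorem cv_inj {a b : A} (h : cv o a = cv o b) : a = b := by
  unfold cv at h
  split_ifs at h
  · simpa using h
  · simp at h
  · simp at h
  · simp only [Prod.mk.injEq, and_true] at h
    rw [← o.op_op a, h, o.op_op]

/-- the element of the free group -/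
noncomputable def fv (o : Op A) (a : A) : FreeGroup A := FreeGroup.mk [cv o a]

theorem fv_op (a : A) : fv o a * fv o (o.op a) = 1 := by
  unfold fv
  rw [FreeGroup.mul_mk, cv_op]
  simp only [List.cons_append, List.nil_append]
  rw [FreeGroup.one_eq_mk]
  exact FreeGroup.Red.exact.2 (FreeGroup.Red.Step.to_red (by
    have := FreeGroup.Red.Step.not (L₁ := []) (L₂ := []) (x := (cv o a).1) (b := (cv o a).2)
    simpa using this) |> fun h => ⟨[], h, Relation.ReflTransGen.refl⟩)

theorem fv_prod (m : List A) : (m.map (fv o)).prod = FreeGroup.mk (m.map (cv o)) := by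
  induction m with
  | nil => rfl
  | cons a m ih =>
    rw [List.map_cons, List.prod_cons, ih]
    unfold fv
    rw [FreeGroup.mul_mk]
    rfl

theorem red_GR {m : List A} (h : (m.map (fv o)).prod = 1) :
    GR (Rh o 𝓡) m.length (m.map some) [] := by
  rw [fv_prod, FreeGroup.one_eq_mk] at h
  obtain ⟨L, hL, hL'⟩ := FreeGroup.Red.exact.1 h
  have h0 : L = [] := by
    rcases Relation.ReflTransGen.cases_head hL' with h1 | ⟨z, h1, _⟩
    · exact h1.symm
    · exact absurd h1 FreeGroup.Red.not_step_nil
  subst h0
  have key : ∀ L L' : List (A × Bool), FreeGroup.Red L L' → ∀ m : List A, m.map (cv o) = L →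
      ∃ m' : List A, m'.map (cv o) = L' ∧ m'.length ≤ m.length ∧
        GR (Rh o 𝓡) m.length (m.map some) (m'.map some) := by
    intro L L' hLL m hm
    induction hLL with
    | refl => exact ⟨m, hm, le_rfl, Relation.ReflTransGen.refl⟩
    | tail _ h2 ih =>
      obtain ⟨m', h3, h4, h5⟩ := ih
      cases h2 with
      | @not L₁ L₂ x b =>
        obtain ⟨m1, m2, rfl, e1, e2⟩ := List.map_eq_append_iff.1 h3
        obtain ⟨a, m3, rfl, e3, e4⟩ := List.map_eq_cons_iff.1 e2
        obtain ⟨a', m4, rfl, e5, e6⟩ := List.map_eq_cons_iff.1 e4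
        have ha : a' = o.op a := by
          apply cv_inj (o := o)
          rw [cv_op, e3, e5]
        subst ha
        refine ⟨m1 ++ m4, by rw [List.map_append, e1, e6], by simp at h4 ⊢; omega, h5.trans ?_⟩
        have := GR.rule (ρ := Rh o 𝓡) (N := m.length) (Rh.inv a) (m1.map some) (m4.map some)
          (by simp at h4 ⊢; omega)
        simpa using this
  obtain ⟨m', h1, _, h2⟩ := key _ _ hL m rfl
  have h3 : m' = [] := List.map_eq_nil_iff.1 h1
  rw [h3] at h2
  exact h2

/-- collecting the signs -/
theorem collect (w : List (Option A)) : ∃ (m : List A) (s : ZMod 2),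
    m.length + (jw s : List (Option A)).length ≤ w.length ∧
    GR (Rh o 𝓡) (w.length + 1) w (m.map some ++ jw s) := by
  induction w with
  | nil => exact ⟨[], 0, by simp [jw_zero], Relation.ReflTransGen.refl⟩
  | cons a w ih =>
    obtain ⟨m, s, h1, h2⟩ := ih
    have h3 := h2.ctx [a] [] (N' := (a :: w).length + 1) (by simp; omega)
    simp only [List.append_nil, List.singleton_append] at h3
    cases a with
    | some a =>
      exact ⟨a :: m, s, by simp at h1 ⊢; omega, by simpa using h3⟩
    | none =>
      refine ⟨m, 1 + s, ?_, ?_⟩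
      · have : (jw (1 + s) : List (Option A)).length ≤ 1 := jw_len _
        have h4 : (jw (1 + s) : List (Option A)).length ≤ 1 + (jw s : List (Option A)).length := by
          omega
        simp only [List.length_cons]
        omega
      · have hl := jw_len (E := A) s
        have h4 := (j_move (o := o) (𝓡 := 𝓡) 1 (m.map some)).ctx [] (jw s)
          (N' := (none :: w).length + 1) (by simp; omega)
        have h5 := (jj_add (o := o) (𝓡 := 𝓡) 1 s).ctx (m.map some) []
          (N' := (none :: w).length + 1) (by
            simp only [List.length_map, List.length_nil, List.length_cons]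
            rcases RA.zmod2_cases s with rfl | rfl
            · rw [jw_zero] at h1
              simp at h1
              omega
            · rw [jw_one] at h1
              simp at h1
              omega)
        simp only [List.nil_append, List.append_nil, jw_one, List.singleton_append,
          List.append_assoc] at h4 h5
        exact h3.trans ((by simpa using h4 : GR (Rh o 𝓡) _ _ _).trans h5)

theorem free_case (h : flat 𝓡 = []) (w : List (Option A)) (hw : val o 𝓡 w = 1) :
    GR (Rh o 𝓡) (w.length + 1) w [] := by
  have hnil : ∀ R s, (R, s) ∈ 𝓡 → R = [] := by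
    intro R s hR
    unfold flat at h
    rw [List.flatMap_eq_nil_iff] at h
    exact h _ hR
  obtain ⟨m, s, h1, h2⟩ := collect (o := o) (𝓡 := 𝓡) w
  have h3 : val o 𝓡 (m.map some ++ jw s) = 1 := by rw [← GR_val h2, hw]
  refine h2.trans ?_
  by_cases hJ : (([] : List A), (1 : ZMod 2)) ∈ 𝓡
  · have h4 := lift_val (o := o) (𝓡 := 𝓡) (K := FreeGroup A)
      (fun a => match a with | none => 1 | some a => fv o a) (by simp) (by simp)
      (fun a => fv_op a) (fun R s hR => by rw [hnil R s hR]; simp) (m.map some ++ jw s)
    rw [h3, map_one, List.map_append, List.prod_append, List.map_map] at h4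
    have h5 : ((jw s).map (fun a : Option A => match a with
        | none => (1 : FreeGroup A) | some a => fv o a)).prod = 1 := by
      rcases RA.zmod2_cases s with rfl | rfl
      · rfl
      · rw [jw_one]; simp
    rw [h5, mul_one] at h4
    have h6 : (m.map (fv o)).prod = 1 := h4.symm
    have h7 := (red_GR (o := o) (𝓡 := 𝓡) h6).ctx [] (jw s) (N' := w.length + 1) (by
      simp only [List.length_nil]; omega)
    simp only [List.nil_append] at h7
    refine h7.trans ?_
    rcases RA.zmod2_cases s with rfl | rfl
    · exact Relation.ReflTransGen.refl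
    · exact Relation.ReflTransGen.single ⟨[], [], _, _, Rh.rel' [] 1 hJ, rfl, rfl, by simp⟩
  · have hs : ∀ R s, (R, s) ∈ 𝓡 → s = 0 := by
      intro R s hR
      rcases RA.zmod2_cases s with h4 | h4
      · exact h4
      · exfalso
        apply hJ
        rw [hnil R s hR, h4] at hR
        exact hR
    have h4 := lift_val (o := o) (𝓡 := 𝓡) (K := FreeGroup A × Multiplicative (ZMod 2))
      (fun a => match a with
        | none => (1, Multiplicative.ofAdd 1) | some a => (fv o a, 1)) (by
          rw [Prod.mk_mul_mk, ← ofAdd_add]; rfl)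
      (fun a => by
        cases a with
        | none => rfl
        | some a => simp)
      (fun a => by simp only [Prod.mk_mul_mk, fv_op]; rfl)
      (fun R s hR => by
        rw [hnil R s hR, hs R s hR]
        simp) (m.map some ++ jw s)
    rw [h3, map_one, List.map_append, List.prod_append, List.map_map] at h4
    have hp : (m.map ((fun a : Option A => (match a with
        | none => (1, Multiplicative.ofAdd 1) | some a => (fv o a, 1) :
          FreeGroup A × Multiplicative (ZMod 2))) ∘ some)).prod = ((m.map (fv o)).prod, 1) := by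
      clear h1 h2 h3 h4
      induction m with
      | nil => rfl
      | cons a m ih =>
        rw [List.map_cons, List.prod_cons, ih, List.map_cons, List.prod_cons]
        simp
    rw [hp] at h4
    have hj : ((jw s).map (fun a : Option A => (match a with
        | none => (1, Multiplicative.ofAdd 1) | some a => (fv o a, 1) :
          FreeGroup A × Multiplicative (ZMod 2)))).prod = (1, Multiplicative.ofAdd s) := by
      rcases RA.zmod2_cases s with rfl | rfl
      · rfl
      · rw [jw_one]; simp
    rw [hj, Prod.mk_mul_mk, mul_one, one_mul] at h4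
    have h5 := congrArg Prod.fst h4
    have h6 := congrArg Prod.snd h4
    simp only [Prod.fst_one, Prod.snd_one] at h5 h6
    have h7 : s = 0 := by
      have := h6.symm
      rwa [ofAdd_eq_one] at this
    subst h7
    rw [jw_zero, List.append_nil]
    exact (red_GR (o := o) (𝓡 := 𝓡) h5.symm).mono (by omega)

end Pool.Agent.Helper2GI.Qd
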