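import Mathlib
import Pool.Agent.Helper2GI.Qd2

/-!
Quadratic systems: elimination of a letter occurring in two relators, and cancellation.
-/

set_option autoImplicit false

namespace Pool.Agent.Helper2GI.Qd

variable {A : Type} {o : Op A} {𝓡 𝓡' : Sys A}

/-- bounded derivations with given bound -/
def PB (o : Op A) (𝓡 : Sys A) (b : ℕ → ℕ) : Prop :=
  ∀ w, val o 𝓡 w = 1 → GR (Rh o 𝓡) (b w.length) w []

theorem val_map_single (R : List A) :
    (R.map fun a => val o 𝓡 [some a]).prod = val o 𝓡 (R.map some) := by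
  unfold val
  rw [List.map_map]
  congr 1

theorem flatMap_single (w : List (Option A)) : w.flatMap (fun a => [a]) = w := by
  induction w with
  | nil => rfl
  | cons a w ih => rw [List.flatMap_cons, ih]; rfl

theorem val_id (h4 : ∀ R s, (R, s) ∈ 𝓡 → val o 𝓡' (R.map some) = val o 𝓡' (jw s))
    (w : List (Option A)) (hw : val o 𝓡 w = 1) : val o 𝓡' w = 1 := by
  have h := val_subst (o := o) (𝓡 := 𝓡) (𝓡' := 𝓡') (fun a => [a]) rfl
    (fun a => by simp only [val_cons, val_nil, mul_one, inv_one])
    (fun R s hR => by rw [val_map_single]; exact h4 R s hR) w hw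
  rwa [flatMap_single] at h

theorem GR_imp {α : Type} {ρ ρ' : List α → List α → Prop} (h : ∀ a b, ρ a b → ρ' a b) {N : ℕ}
    {s t : List α} (hst : GR ρ N s t) : GR ρ' N s t := by
  induction hst with
  | refl => exact Relation.ReflTransGen.refl
  | tail _ h2 ih =>
    obtain ⟨l, r, a, b, h3, h4, h5, h6⟩ := h2
    exact ih.tail ⟨l, r, a, b, h _ _ h3, h4, h5, h6⟩

theorem Rh_mono (h : ∀ p, p ∈ 𝓡 → p ∈ 𝓡') {u v : List (Option A)} (huv : Rh o 𝓡 u v) :
    Rh o 𝓡' u v := by
  cases huv with
  | jj => exact Rh.jj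
  | jj' => exact Rh.jj'
  | jx a => exact Rh.jx a
  | xj a => exact Rh.xj a
  | inv a => exact Rh.inv a
  | inv' a => exact Rh.inv' a
  | rel R s hR => exact Rh.rel R s (h _ hR)
  | rel' R s hR => exact Rh.rel' R s (h _ hR)

theorem PB.congr {b : ℕ → ℕ} (h : ∀ p, p ∈ 𝓡 ↔ p ∈ 𝓡') (hP : PB o 𝓡' b) : PB o 𝓡 b := by
  intro w hw
  refine GR_imp (fun u v huv => Rh_mono (fun p hp => (h p).2 hp) huv) (hP w ?_)
  exact val_id (fun R s hR => rel_val ((h _).1 hR)) w hw

theorem PB.mono {b b' : ℕ → ℕ} (h : ∀ n, b n ≤ b' n) (hP : PB o 𝓡 b) : PB o 𝓡 b' :=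
  fun w hw => (hP w hw).mono (h _)

/-- rotated relators -/
theorem rot {x y : List A} {s : ZMod 2} (h : (x ++ y, s) ∈ 𝓡) :
    GR (Rh o 𝓡) (3 * x.length + y.length + 1) (y.map some ++ x.map some) (jw s) := by
  set X := x.map some with hX
  set Y := y.map some with hY
  have hXl : X.length = x.length := by simp [hX]
  have hYl : Y.length = y.length := by simp [hY]
  have hj := jw_len (E := A) s
  have h1 := (ins_word' (o := o) (𝓡 := 𝓡) X).ctx [] (Y ++ X)
    (N' := 3 * x.length + y.length + 1) (by simp; omega)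
  have h2 := GR.rule (ρ := Rh o 𝓡) (N := 3 * x.length + y.length + 1) (Rh.rel _ _ h)
    (iw o X) X (by simp; omega)
  have h3 := (j_move (o := o) (𝓡 := 𝓡) s X).ctx (iw o X) []
    (N' := 3 * x.length + y.length + 1) (by simp; omega)
  have h4 := (del_word' (o := o) (𝓡 := 𝓡) X).ctx [] (jw s)
    (N' := 3 * x.length + y.length + 1) (by simp; omega)
  simp only [List.nil_append, List.append_nil, List.map_append, ← hX, ← hY,
    List.append_assoc] at h1 h2 h3 h4
  exact ((h1.trans h2).trans h3).trans h4

theorem rot' {x y : List A} {s : ZMod 2} (h : (x ++ y, s) ∈ 𝓡) :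
    GR (Rh o 𝓡) (3 * x.length + y.length + 1) (jw s) (y.map some ++ x.map some) := by
  set X := x.map some with hX
  set Y := y.map some with hY
  have hXl : X.length = x.length := by simp [hX]
  have hYl : Y.length = y.length := by simp [hY]
  have hj := jw_len (E := A) s
  have h1 := (ins_word' (o := o) (𝓡 := 𝓡) X).ctx [] (jw s)
    (N' := 3 * x.length + y.length + 1) (by simp; omega)
  have h2 := (j_move' (o := o) (𝓡 := 𝓡) s X).ctx (iw o X) []
    (N' := 3 * x.length + y.length + 1) (by simp; omega)
  have h3 := GR.rule (ρ := Rh o 𝓡) (N := 3 * x.length + y.length + 1) (Rh.rel' _ _ h)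
    (iw o X) X (by simp; omega)
  have h4 := (del_word' (o := o) (𝓡 := 𝓡) X).ctx [] (Y ++ X)
    (N' := 3 * x.length + y.length + 1) (by simp; omega)
  simp only [List.nil_append, List.append_nil, List.map_append, ← hX, ← hY,
    List.append_assoc] at h1 h2 h3 h4
  exact ((h1.trans h2).trans h3).trans h4

theorem len_le_flat {R : List A} {s : ZMod 2} (h : (R, s) ∈ 𝓡) : R.length ≤ (flat 𝓡).length := by
  unfold flat
  induction 𝓡 with
  | nil => simp at h
  | cons p 𝓡 ih =>
    rw [List.flatMap_cons, List.length_append]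
    rcases List.mem_cons.1 h with rfl | h
    · simp
    · have := ih h
      omega

/-- the bound after one step -/
def st (m : ℕ) (b : ℕ → ℕ) (n : ℕ) : ℕ :=
  n * (m + 1) + (5 * m + 8) + (b (n * (m + 1)) + (5 * m + 8))

theorem caseB {x y : List A} {a : A} {s : ZMod 2} {rest : Sys A} {m : ℕ}
    (hm : (flat ((x ++ a :: o.op a :: y, s) :: rest)).length ≤ m) {b : ℕ → ℕ} (hb : Monotone b)
    (hb' : ∀ n, n ≤ b n) (hP : PB o ((x ++ y, s) :: rest) b) :
    PB o ((x ++ a :: o.op a :: y, s) :: rest) (st m b) := by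
  set 𝓢 : Sys A := (x ++ a :: o.op a :: y, s) :: rest with h𝓢
  have hmem : (x ++ a :: o.op a :: y, s) ∈ 𝓢 := by simp [h𝓢]
  have hlen := (len_le_flat hmem).trans hm
  have hj := jw_len (E := A) s
  simp only [List.length_append, List.length_cons] at hlen
  have e1 : GR (Rh o 𝓢) (m + 2) ((x ++ y).map some) (jw s) := by
    have h1 := (ins_pair (o := o) (𝓡 := 𝓢) (some a)).ctx (x.map some) (y.map some)
      (N' := m + 2) (by simp; omega)
    have h2 := GR.rule (ρ := Rh o 𝓢) (N := m + 2) (Rh.rel _ _ hmem) [] [] (by simp; omega)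
    simp only [List.nil_append, List.append_nil, List.map_append, List.map_cons,
      Option.map_some] at h1 h2 ⊢
    refine h1.trans ?_
    simpa using h2
  have e2 : GR (Rh o 𝓢) (m + 2) (jw s) ((x ++ y).map some) := by
    have h1 := (del_pair (o := o) (𝓡 := 𝓢) (some a)).ctx (x.map some) (y.map some)
      (N' := m + 2) (by simp; omega)
    have h2 := GR.rule (ρ := Rh o 𝓢) (N := m + 2) (Rh.rel' _ _ hmem) [] [] (by simp; omega)
    simp only [List.nil_append, List.append_nil, List.map_append, List.map_cons,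
      Option.map_some] at h1 h2 ⊢
    refine h2.trans ?_
    simpa using h1
  have hrest : ∀ R t, (R, t) ∈ rest → (R, t) ∈ 𝓢 := fun R t h => List.mem_cons_of_mem _ h
  intro w hw
  have := transfer (o := o) (𝓡 := 𝓢) (𝓡' := (x ++ y, s) :: rest) (fun a => [a]) 1 (m + 2)
    (fun a => Relation.ReflTransGen.refl) (fun a => by simp) le_rfl (by omega)
    (fun R t hR => by
      rcases List.mem_cons.1 hR with h | h
      · rw [(Prod.mk.inj h).1, (Prod.mk.inj h).2]
        exact e1
      · have := jw_len (E := A) t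
        exact Relation.ReflTransGen.single ⟨[], [], _, _, Rh.rel R t (hrest R t h), by simp, by simp,
          by omega⟩)
    (fun R t hR => by
      rcases List.mem_cons.1 hR with h | h
      · rw [(Prod.mk.inj h).1, (Prod.mk.inj h).2]
        exact e2
      · have := (len_le_flat (hrest R t h)).trans hm
        exact Relation.ReflTransGen.single ⟨[], [], _, _, Rh.rel' R t (hrest R t h), by simp,
          by simp, by simp; omega⟩)
    (fun w hw => by
      rw [flatMap_single]
      refine val_id (𝓡 := 𝓢) (fun R t hR => ?_) w hw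
      rcases List.mem_cons.1 hR with h | h
      · rw [(Prod.mk.inj h).1, (Prod.mk.inj h).2]
        have h1 := rel_val (o := o) (𝓡 := (x ++ y, s) :: rest) (R := x ++ y) (s := s) (by simp)
        rw [← h1]
        simp only [List.map_append, List.map_cons, val_append, val_cons]
        rw [← mul_assoc (lt o _ (some a)), inv_one, one_mul]
      · exact rel_val (List.mem_cons_of_mem _ h)) b hb hb' hP w hw
  refine this.mono ?_
  unfold st
  have h1 : w.length * 1 ≤ w.length * (m + 1) := Nat.mul_le_mul_left _ (by omega)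
  have h2 := hb h1
  omega

theorem caseA {x1 y1 x2 y2 : List A} {a : A} {s1 s2 : ZMod 2} {rest : Sys A} {m : ℕ}
    (hm : (flat ((x1 ++ a :: y1, s1) :: (x2 ++ o.op a :: y2, s2) :: rest)).length ≤ m)
    (hnd : (flat ((x1 ++ a :: y1, s1) :: (x2 ++ o.op a :: y2, s2) :: rest)).Nodup)
    {b : ℕ → ℕ} (hb : Monotone b) (hb' : ∀ n, n ≤ b n)
    (hP : PB o ((y1 ++ x1 ++ y2 ++ x2, s1 + s2) :: rest) b) :
    PB o ((x1 ++ a :: y1, s1) :: (x2 ++ o.op a :: y2, s2) :: rest) (st m b) := by
  classical
  set 𝓢 : Sys A := (x1 ++ a :: y1, s1) :: (x2 ++ o.op a :: y2, s2) :: rest with h𝓢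
  set 𝓢' : Sys A := (y1 ++ x1 ++ y2 ++ x2, s1 + s2) :: rest with h𝓢'
  have hmem1 : (x1 ++ a :: y1, s1) ∈ 𝓢 := by simp [h𝓢]
  have hmem2 : (x2 ++ o.op a :: y2, s2) ∈ 𝓢 := by simp [h𝓢]
  have hflat : flat 𝓢 = (x1 ++ a :: y1) ++ ((x2 ++ o.op a :: y2) ++ flat rest) := by
    unfold flat
    rw [h𝓢, List.flatMap_cons, List.flatMap_cons]
  have hlen := hm
  rw [hflat] at hlen hnd
  simp only [List.length_append, List.length_cons] at hlen
  -- non-occurrences
  have hP1 : (flat 𝓢).Perm (a :: o.op a :: (x1 ++ y1 ++ x2 ++ y2 ++ flat rest)) := by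
    rw [hflat]
    refine List.Perm.trans ?_ (List.Perm.refl _)
    rw [List.perm_iff_count]
    intro c
    simp only [List.count_append, List.count_cons]
    omega
  rw [← hflat] at hnd
  have hnd2 := hP1.nodup_iff.1 hnd
  rw [List.nodup_cons, List.nodup_cons] at hnd2
  obtain ⟨n1, n2, _⟩ := hnd2
  simp only [List.mem_cons, List.mem_append, not_or] at n1 n2
  obtain ⟨ha0, ⟨⟨⟨ha1, ha2⟩, ha3⟩, ha4⟩, ha5⟩ := n1
  obtain ⟨⟨⟨⟨hb1, hb2⟩, hb3⟩, hb4⟩, hb5⟩ := n2
  set X1 := x1.map some with hX1
  set Y1 := y1.map some with hY1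
  set X2 := x2.map some with hX2
  set Y2 := y2.map some with hY2
  have lX1 : X1.length = x1.length := by simp [hX1]
  have lY1 : Y1.length = y1.length := by simp [hY1]
  have lX2 : X2.length = x2.length := by simp [hX2]
  have lY2 : Y2.length = y2.length := by simp [hY2]
  have lj1 := jw_len (E := A) s1
  have lj2 := jw_len (E := A) s2
  set z := Y1 ++ X1 with hz
  have lz : z.length = y1.length + x1.length := by simp [hz, lX1, lY1]
  -- rotations
  have r1 : GR (Rh o 𝓢) (4 * m + 1) ([some a] ++ z) (jw s1) := by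
    have := rot (o := o) hmem1
    simp only [List.map_cons, List.length_cons] at this
    refine GR.mono (N := 3 * x1.length + (y1.length + 1) + 1) (by omega) ?_
    simpa [hz] using this
  have r1' : GR (Rh o 𝓢) (4 * m + 1) (jw s1) ([some a] ++ z) := by
    have := rot' (o := o) hmem1
    simp only [List.map_cons, List.length_cons] at this
    refine GR.mono (N := 3 * x1.length + (y1.length + 1) + 1) (by omega) ?_
    simpa [hz] using this
  have r2 : GR (Rh o 𝓢) (4 * m + 1) ([some (o.op a)] ++ (Y2 ++ X2)) (jw s2) := by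
    have := rot (o := o) hmem2
    simp only [List.map_cons, List.length_cons] at this
    refine GR.mono (N := 3 * x2.length + (y2.length + 1) + 1) (by omega) ?_
    simpa using this
  have r2' : GR (Rh o 𝓢) (4 * m + 1) (jw s2) ([some (o.op a)] ++ (Y2 ++ X2)) := by
    have := rot' (o := o) hmem2
    simp only [List.map_cons, List.length_cons] at this
    refine GR.mono (N := 3 * x2.length + (y2.length + 1) + 1) (by omega) ?_
    simpa using this
  -- the letters
  have t1 : GR (Rh o 𝓢) (5 * m + 8) [some a] (iw o z ++ jw s1) := by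
    have h1 := (ins_word (o := o) (𝓡 := 𝓢) z).ctx [some a] [] (N' := 5 * m + 8)
      (by simp; omega)
    have h2 := r1.ctx [] (iw o z) (N' := 5 * m + 8) (by simp; omega)
    have h3 := (j_move (o := o) (𝓡 := 𝓢) s1 (iw o z)).mono (N' := 5 * m + 8)
      (by simp; omega)
    simp only [List.nil_append, List.append_nil] at h1 h2
    rw [← List.append_assoc] at h1
    exact (h1.trans h2).trans h3
  have t2 : GR (Rh o 𝓢) (5 * m + 8) [some (o.op a)] (z ++ jw s1) := by
    have h1 := (jj_ins (o := o) (𝓡 := 𝓢) s1).ctx [some (o.op a)] [] (N' := 5 * m + 8)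
      (by simp)
    have h2 := r1'.ctx [some (o.op a)] (jw s1) (N' := 5 * m + 8) (by simp; omega)
    have h3 := (del_pair (o := o) (𝓡 := 𝓢) (some (o.op a))).ctx [] (z ++ jw s1)
      (N' := 5 * m + 8) (by simp; omega)
    simp only [List.nil_append, List.append_nil, Option.map_some, o.op_op] at h1 h2 h3
    refine (h1.trans ?_).trans h3
    simpa using h2
  have t3 : GR (Rh o 𝓢) (4 * m + 2) z ([some (o.op a)] ++ jw s1) := by
    have h1 := (ins_pair (o := o) (𝓡 := 𝓢) (some (o.op a))).ctx [] z (N' := 4 * m + 2)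
      (by simp; omega)
    have h2 := r1.ctx [some (o.op a)] [] (N' := 4 * m + 2) (by simp; omega)
    simp only [List.nil_append, List.append_nil, Option.map_some, o.op_op] at h1 h2
    refine h1.trans ?_
    simpa using h2
  have t4 : GR (Rh o 𝓢) (4 * m + 2) ([some (o.op a)] ++ jw s1) z := by
    have h1 := (del_pair (o := o) (𝓡 := 𝓢) (some (o.op a))).ctx [] z (N' := 4 * m + 2)
      (by simp; omega)
    have h2 := r1'.ctx [some (o.op a)] [] (N' := 4 * m + 2) (by simp; omega)
    simp only [List.nil_append, List.append_nil, Option.map_some, o.op_op] at h1 h2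
    refine GR.mono le_rfl (Relation.ReflTransGen.trans h2 ?_)
    simpa using h1
  set φ : Option A → List (Option A) := fun c => match c with
    | none => [none]
    | some c => if c = a then iw o z ++ jw s1 else if c = o.op a then z ++ jw s1 else [some c]
    with hφ
  have φa : φ (some a) = iw o z ++ jw s1 := by simp [hφ]
  have φb : φ (some (o.op a)) = z ++ jw s1 := by simp [hφ, o.ne]
  have φc : ∀ c, c ≠ a → c ≠ o.op a → φ (some c) = [some c] := fun c h1 h2 => by
    simp [hφ, h1, h2]
  have hrest : ∀ R t, (R, t) ∈ rest → (R, t) ∈ 𝓢 := fun R t h =>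
    List.mem_cons_of_mem _ (List.mem_cons_of_mem _ h)
  have hvz : val o 𝓢' z = val o 𝓢' Y1 * val o 𝓢' X1 := by rw [hz, val_append]
  have hprod : ∀ l : List A, a ∉ l → o.op a ∉ l →
      (l.map fun c => val o 𝓢' (φ (some c))).prod = val o 𝓢' (l.map some) := by
    intro l h1 h2
    rw [← val_map_single]
    congr 1
    refine List.map_congr_left fun c hc => ?_
    rw [φc c (fun h => h1 (h ▸ hc)) (fun h => h2 (h ▸ hc))]
  have hR' : val o 𝓢' Y1 * val o 𝓢' X1 * val o 𝓢' Y2 * val o 𝓢' X2 =
      val o 𝓢' (jw s1) * val o 𝓢' (jw s2) := by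
    have h1 := rel_val (o := o) (𝓡 := 𝓢') (R := y1 ++ x1 ++ y2 ++ x2) (s := s1 + s2) (by simp [h𝓢'])
    simp only [List.map_append, val_append] at h1
    rw [h1, ← val_append]
    exact (GR_val (jj_add (o := o) (𝓡 := 𝓢') s1 s2)).symm
  intro w hw
  have := transfer (o := o) (𝓡 := 𝓢) (𝓡' := 𝓢') φ (m + 1) (5 * m + 8)
    (fun c => by
      cases c with
      | none => exact Relation.ReflTransGen.refl
      | some c =>
        by_cases h1 : c = a
        · subst h1
          rw [φa]
          exact t1
        · by_cases h2 : c = o.op a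
          · subst h2
            rw [φb]
            exact t2
          · rw [φc c h1 h2])
    (fun c => by
      cases c with
      | none => simp [hφ]
      | some c =>
        by_cases h1 : c = a
        · subst h1
          rw [φa]
          simp only [List.length_append, iw_len, lz]
          omega
        · by_cases h2 : c = o.op a
          · subst h2
            rw [φb]
            simp only [List.length_append, lz]
            omega
          · rw [φc c h1 h2]
            simp)
    (by omega) (by omega)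
    (fun R t hR => by
      rcases List.mem_cons.1 hR with h | h
      · rw [(Prod.mk.inj h).1, (Prod.mk.inj h).2]
        have h1 := t3.ctx [] (Y2 ++ X2) (N' := 5 * m + 8) (by simp; omega)
        have h2 := (j_move (o := o) (𝓡 := 𝓢) s1 (Y2 ++ X2)).ctx [some (o.op a)] []
          (N' := 5 * m + 8) (by simp; omega)
        have h3 := r2.ctx [] (jw s1) (N' := 5 * m + 8) (by simp; omega)
        have h4 := (jj_add (o := o) (𝓡 := 𝓢) s2 s1).mono (N' := 5 * m + 8) (by omega)
        rw [add_comm s2 s1] at h4
        simp only [List.nil_append, List.append_nil, List.append_assoc, List.map_append, hz,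
          ← hX1, ← hX2, ← hY1, ← hY2] at h1 h2 h3 h4 ⊢
        exact ((h1.trans h2).trans h3).trans h4
      · have := jw_len (E := A) t
        exact Relation.ReflTransGen.single ⟨[], [], _, _, Rh.rel R t (hrest R t h), by simp, by simp,
          by omega⟩)
    (fun R t hR => by
      rcases List.mem_cons.1 hR with h | h
      · rw [(Prod.mk.inj h).1, (Prod.mk.inj h).2]
        have h1 := t4.ctx [] (Y2 ++ X2) (N' := 5 * m + 8) (by simp; omega)
        have h2 := (j_move' (o := o) (𝓡 := 𝓢) s1 (Y2 ++ X2)).ctx [some (o.op a)] []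
          (N' := 5 * m + 8) (by simp; omega)
        have h3 := r2'.ctx [] (jw s1) (N' := 5 * m + 8) (by simp; omega)
        have h4 := (jj_add' (o := o) (𝓡 := 𝓢) s2 s1).mono (N' := 5 * m + 8) (by omega)
        rw [add_comm s2 s1] at h4
        simp only [List.nil_append, List.append_nil, List.append_assoc, List.map_append, hz,
          ← hX1, ← hX2, ← hY1, ← hY2] at h1 h2 h3 h4 ⊢
        exact ((h4.trans h3).trans h2).trans h1
      · have := (len_le_flat (hrest R t h)).trans hm
        exact Relation.ReflTransGen.single ⟨[], [], _, _, Rh.rel' R t (hrest R t h), by simp,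
          by simp, by simp; omega⟩)
    (fun w hw => by
      refine val_subst (𝓡 := 𝓢) φ rfl ?_ ?_ w hw
      · intro c
        by_cases h1 : c = a
        · subst h1
          rw [φa, φb, val_append (iw o z), val_append z, val_iw]
          have := jw_sq (o := o) (𝓡 := 𝓢') s1
          calc (val o 𝓢' z)⁻¹ * val o 𝓢' (jw s1) * (val o 𝓢' z * val o 𝓢' (jw s1))
              = (val o 𝓢' z)⁻¹ * (val o 𝓢' (jw s1) * val o 𝓢' z) * val o 𝓢' (jw s1) := by group
            _ = (val o 𝓢' z)⁻¹ * (val o 𝓢' z * val o 𝓢' (jw s1)) * val o 𝓢' (jw s1) := by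
                rw [jw_comm]
            _ = val o 𝓢' (jw s1) * val o 𝓢' (jw s1) := by group
            _ = 1 := this
        · by_cases h2 : c = o.op a
          · subst h2
            rw [o.op_op, φa, φb, val_append (iw o z), val_append z, val_iw]
            have := jw_sq (o := o) (𝓡 := 𝓢') s1
            calc val o 𝓢' z * val o 𝓢' (jw s1) * ((val o 𝓢' z)⁻¹ * val o 𝓢' (jw s1))
                = val o 𝓢' z * (val o 𝓢' (jw s1) * (val o 𝓢' z)⁻¹) * val o 𝓢' (jw s1) := by group
              _ = val o 𝓢' z * ((val o 𝓢' z)⁻¹ * val o 𝓢' (jw s1)) * val o 𝓢' (jw s1) := by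
                  rw [jw_comm]
              _ = val o 𝓢' (jw s1) * val o 𝓢' (jw s1) := by group
              _ = 1 := this
          · have h3 : o.op c ≠ a := fun h => h2 (by rw [← h, o.op_op])
            have h4 : o.op c ≠ o.op a := fun h => h1 (by rw [← o.op_op c, h, o.op_op])
            rw [φc c h1 h2, φc _ h3 h4]
            simp only [val_cons, val_nil, mul_one, inv_one]
      · intro R t hR
        rcases List.mem_cons.1 hR with h | h
        · rw [(Prod.mk.inj h).1, (Prod.mk.inj h).2]
          rw [List.map_append, List.prod_append, List.map_cons, List.prod_cons, hprod x1 ha1 hb1,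
            hprod y1 ha2 hb2, φa, val_append, val_iw, hvz]
          rw [show val o 𝓢' (x1.map some) * ((val o 𝓢' Y1 * val o 𝓢' X1)⁻¹ * val o 𝓢' (jw s1) *
              val o 𝓢' (y1.map some)) = (val o 𝓢' Y1)⁻¹ * (val o 𝓢' (jw s1) * val o 𝓢' Y1) by
            rw [← hX1, ← hY1]; group, jw_comm]
          group
        · rcases List.mem_cons.1 h with h | h
          · rw [(Prod.mk.inj h).1, (Prod.mk.inj h).2]
            rw [List.map_append, List.prod_append, List.map_cons, List.prod_cons, hprod x2 ha3 hb3,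
              hprod y2 ha4 hb4, φb, val_append, hvz]
            have h5 : val o 𝓢' X2 * (val o 𝓢' Y1 * val o 𝓢' X1 * val o 𝓢' Y2) =
                val o 𝓢' (jw s1) * val o 𝓢' (jw s2) := by
              calc val o 𝓢' X2 * (val o 𝓢' Y1 * val o 𝓢' X1 * val o 𝓢' Y2)
                  = val o 𝓢' X2 * (val o 𝓢' Y1 * val o 𝓢' X1 * val o 𝓢' Y2 * val o 𝓢' X2) *
                    (val o 𝓢' X2)⁻¹ := by group
                _ = val o 𝓢' X2 * (val o 𝓢' (jw s1) * val o 𝓢' (jw s2)) *
                    (val o 𝓢' X2)⁻¹ := by rw [hR']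
                _ = (val o 𝓢' (jw s1) * val o 𝓢' (jw s2)) * (val o 𝓢' X2 *
                    (val o 𝓢' X2)⁻¹) := by
                    rw [← mul_assoc (val o 𝓢' X2), ← jw_comm s1, mul_assoc (val o 𝓢' (jw s1)),
                      ← jw_comm s2]
                    group
                _ = _ := by group
            calc val o 𝓢' (x2.map some) * (val o 𝓢' Y1 * val o 𝓢' X1 * val o 𝓢' (jw s1) *
                  val o 𝓢' (y2.map some))
                = val o 𝓢' X2 * (val o 𝓢' Y1 * val o 𝓢' X1 * (val o 𝓢' (jw s1) *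
                  val o 𝓢' Y2)) := by rw [← hX2, ← hY2]; group
              _ = val o 𝓢' X2 * (val o 𝓢' Y1 * val o 𝓢' X1 * (val o 𝓢' Y2 *
                  val o 𝓢' (jw s1))) := by rw [jw_comm]
              _ = val o 𝓢' X2 * (val o 𝓢' Y1 * val o 𝓢' X1 * val o 𝓢' Y2) *
                  val o 𝓢' (jw s1) := by group
              _ = val o 𝓢' (jw s1) * val o 𝓢' (jw s2) * val o 𝓢' (jw s1) := by rw [h5]
              _ = val o 𝓢' (jw s1) * val o 𝓢' (jw s1) * val o 𝓢' (jw s2) := by
                  rw [mul_assoc, jw_comm s2, ← mul_assoc]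
              _ = val o 𝓢' (jw s2) := by rw [jw_sq, one_mul]
          · have h5 : ∀ c ∈ R, c ∈ flat rest := fun c hc => List.mem_flatMap.2 ⟨_, h, hc⟩
            rw [hprod R (fun h' => ha5 (h5 _ h')) (fun h' => hb5 (h5 _ h'))]
            exact rel_val (List.mem_cons_of_mem _ h)) b hb hb' hP w hw
  exact this.mono le_rfl

end Pool.Agent.Helper2GI.Qd
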