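import Mathlib
import Pool.Agent.Helper2GI.Qd3

/-!
Quadratic systems: HNN extensions.
-/

set_option autoImplicit false

namespace Pool.Agent.Helper2GI.Qd

/-! ### The amalgamated subgroups -/

section abs

variable {B : Type} [Group B] (J : B)

/-- the subgroup generated by an element and the central element -/
noncomputable def io (g : B) (hJ : ∀ x, J * x = x * J) :
    Multiplicative ℤ × Subgroup.zpowers J →* B :=
  (zpowersHom B g).noncommCoprod (Subgroup.zpowers J).subtype (by
    rintro m ⟨n, hn⟩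
    obtain ⟨k, rfl⟩ := hn
    exact (Commute.zpow_left (hJ _ : Commute J _) k).symm)

variable {J}

theorem io_apply {g : B} {hJ : ∀ x, J * x = x * J} (k : ℤ) (j : Subgroup.zpowers J) :
    io J g hJ (Multiplicative.ofAdd k, j) = g ^ k * (j : B) := by
  unfold io
  rw [MonoidHom.noncommCoprod_apply]
  rfl

theorem io_inj {g : B} {hJ : ∀ x, J * x = x * J} (χ : B →* Multiplicative ℤ) (hχJ : χ J = 1)
    (hχ : χ g ≠ 1) : Function.Injective (io J g hJ) := by
  rw [injective_iff_map_eq_one]
  rintro ⟨k, j⟩ h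
  obtain ⟨k, rfl⟩ := Multiplicative.ofAdd.surjective k
  rw [io_apply] at h
  have hj : χ (j : B) = 1 := by
    obtain ⟨e, he⟩ := Subgroup.mem_zpowers_iff.1 j.2
    rw [← he, map_zpow, hχJ, one_zpow]
  have h1 := congrArg χ h
  rw [map_mul, map_zpow, hj, mul_one, map_one] at h1
  have hk : k = 0 := by
    have h2 : Multiplicative.toAdd ((χ g) ^ k) = 0 := by rw [h1]; rfl
    rw [toAdd_zpow, smul_eq_mul] at h2
    rcases mul_eq_zero.1 h2 with h3 | h3
    · exact h3
    · exact absurd (Multiplicative.toAdd.injective (h3 : Multiplicative.toAdd (χ g) =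
        Multiplicative.toAdd 1)) hχ
  subst hk
  rw [zpow_zero, one_mul] at h
  have : j = 1 := Subtype.ext h
  rw [this]
  rfl

theorem io_mem {g : B} {hJ : ∀ x, J * x = x * J} (hJJ : J * J = 1) {x : B}
    (h : x ∈ (io J g hJ).range) : ∃ (k : ℤ) (s : ZMod 2), x = g ^ k * J ^ s.val := by
  obtain ⟨⟨k, j⟩, rfl⟩ := h
  obtain ⟨k, rfl⟩ := Multiplicative.ofAdd.surjective k
  obtain ⟨e, he⟩ := Subgroup.mem_zpowers_iff.1 j.2
  rw [io_apply, ← he]
  have h2 : J ^ (2 : ℤ) = 1 := by
    rw [zpow_ofNat, pow_two, hJJ]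
  rcases Int.even_or_odd' e with ⟨c, rfl | rfl⟩
  · refine ⟨k, 0, ?_⟩
    rw [zpow_mul, h2, one_zpow]
    simp
  · refine ⟨k, 1, ?_⟩
    rw [zpow_add, zpow_mul, h2, one_zpow, zpow_one, one_mul]
    have : (1 : ZMod 2).val = 1 := rfl
    rw [this, pow_one]

/-- the isomorphism of the subgroups -/
noncomputable def phi {g h : B} {hJ : ∀ x, J * x = x * J} (hg : Function.Injective (io J g hJ))
    (hh : Function.Injective (io J h hJ)) : (io J g hJ).range ≃* (io J h hJ).range :=
  (MonoidHom.ofInjective hg).symm.trans (MonoidHom.ofInjective hh)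

theorem phi_apply {g h : B} {hJ : ∀ x, J * x = x * J} (hg : Function.Injective (io J g hJ))
    (hh : Function.Injective (io J h hJ)) (p : Multiplicative ℤ × Subgroup.zpowers J)
    (hp : io J g hJ p ∈ (io J g hJ).range) :
    (phi hg hh ⟨io J g hJ p, hp⟩ : B) = io J h hJ p := by
  unfold phi
  rw [MulEquiv.trans_apply, MonoidHom.ofInjective_apply]
  congr 1
  rw [MulEquiv.symm_apply_eq]
  rfl

theorem g_mem {g : B} {hJ : ∀ x, J * x = x * J} : g ∈ (io J g hJ).range :=
  ⟨(Multiplicative.ofAdd 1, 1), by rw [io_apply]; simp⟩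

theorem J_mem {g : B} {hJ : ∀ x, J * x = x * J} : J ∈ (io J g hJ).range :=
  ⟨(Multiplicative.ofAdd 0, ⟨J, Subgroup.mem_zpowers J⟩), by rw [io_apply]; simp⟩

theorem phi_g {g h : B} {hJ : ∀ x, J * x = x * J} (hg : Function.Injective (io J g hJ))
    (hh : Function.Injective (io J h hJ)) : (phi hg hh ⟨g, g_mem⟩ : B) = h := by
  have h1 : io J g hJ (Multiplicative.ofAdd 1, 1) = g := by rw [io_apply]; simp
  have h2 := phi_apply hg hh (Multiplicative.ofAdd 1, 1) ⟨_, rfl⟩
  rw [io_apply (g := h)] at h2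
  simp only [zpow_one, OneMemClass.coe_one, mul_one] at h2
  refine Eq.trans ?_ h2
  congr 3
  exact h1.symm

theorem phi_J {g h : B} {hJ : ∀ x, J * x = x * J} (hg : Function.Injective (io J g hJ))
    (hh : Function.Injective (io J h hJ)) : (phi hg hh ⟨J, J_mem⟩ : B) = J := by
  have h1 : io J g hJ (Multiplicative.ofAdd 0, ⟨J, Subgroup.mem_zpowers J⟩) = J := by
    rw [io_apply]; simp
  have h2 := phi_apply hg hh (Multiplicative.ofAdd 0, ⟨J, Subgroup.mem_zpowers J⟩) ⟨_, rfl⟩
  rw [io_apply (g := h)] at h2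
  simp only [zpow_zero, one_mul] at h2
  refine Eq.trans ?_ h2
  congr 3
  exact h1.symm

end abs

/-! ### Reversal of derivations -/

variable {A : Type} {o : Op A} {𝓡 𝓡' : Sys A}

theorem Rh_symm {u v : List (Option A)} (h : Rh o 𝓡 u v) : Rh o 𝓡 v u := by
  cases h with
  | jj => exact Rh.jj'
  | jj' => exact Rh.jj
  | jx a => exact Rh.xj a
  | xj a => exact Rh.jx a
  | inv a => exact Rh.inv' a
  | inv' a => exact Rh.inv a
  | rel R s hR => exact Rh.rel' R s hR
  | rel' R s hR => exact Rh.rel R s hR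

theorem GR_symm {α : Type} {ρ : List α → List α → Prop} (h : ∀ a b, ρ a b → ρ b a) {N : ℕ}
    {s t : List α} (hst : GR ρ N s t) (hs : s.length ≤ N) : GR ρ N t s := by
  induction hst with
  | refl => exact Relation.ReflTransGen.refl
  | @tail s' t' h1 h2 ih =>
    have h3 : s'.length ≤ N := GR.len h1 hs
    obtain ⟨l, r, a, b, h4, h5, h6, _⟩ := h2
    exact Relation.ReflTransGen.head ⟨l, r, b, a, h _ _ h4, h6, h5, h3⟩ ih

theorem Rsymm {N : ℕ} {s t : List (Option A)} (hst : GR (Rh o 𝓡) N s t) (hs : s.length ≤ N) :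
    GR (Rh o 𝓡) N t s := GR_symm (fun _ _ => Rh_symm) hst hs

/-- powers of words -/
def wpow (o : Op A) (P : List (Option A)) : ℤ → List (Option A)
  | Int.ofNat n => (List.replicate n P).flatten
  | Int.negSucc n => (List.replicate (n + 1) (iw o P)).flatten

theorem val_rep (P : List (Option A)) (n : ℕ) :
    val o 𝓡 (List.replicate n P).flatten = val o 𝓡 P ^ n := by
  induction n with
  | zero => simp
  | succ n ih =>
    rw [List.replicate_succ, List.flatten_cons, val_append, ih, pow_succ']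

theorem val_wpow (P : List (Option A)) (k : ℤ) : val o 𝓡 (wpow o P k) = val o 𝓡 P ^ k := by
  cases k with
  | ofNat n =>
    show val o 𝓡 (List.replicate n P).flatten = _
    rw [val_rep]
    simp
  | negSucc n =>
    show val o 𝓡 (List.replicate (n + 1) (iw o P)).flatten = _
    rw [val_rep, val_iw, zpow_negSucc, inv_pow]

theorem rep_len {α : Type} (P : List α) (n : ℕ) :
    (List.replicate n P).flatten.length = n * P.length := by
  induction n with
  | zero => simp
  | succ n ih =>
    rw [List.replicate_succ, List.flatten_cons, List.length_append, ih]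
    ring

theorem wpow_len (P : List (Option A)) (k : ℤ) : (wpow o P k).length = k.natAbs * P.length := by
  cases k with
  | ofNat n => exact rep_len P n
  | negSucc n =>
    show (List.replicate (n + 1) (iw o P)).flatten.length = _
    rw [rep_len, iw_len]
    rfl

theorem push_nat {P Q : List (Option A)} {c : Option A} {N M : ℕ}
    (h : GR (Rh o 𝓡) N ([c] ++ P) (Q ++ [c])) (hP : P.length ≤ M) (hQ : Q.length ≤ M) (n : ℕ) :
    GR (Rh o 𝓡) (N + n * M) ([c] ++ (List.replicate n P).flatten)
      ((List.replicate n Q).flatten ++ [c]) := by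
  induction n with
  | zero => exact Relation.ReflTransGen.refl
  | succ n ih =>
    rw [List.replicate_succ, List.flatten_cons, List.replicate_succ, List.flatten_cons]
    have h1 := h.ctx [] (List.replicate n P).flatten (N' := N + (n + 1) * M) (by
      rw [rep_len]
      simp only [List.length_nil]
      nlinarith)
    have h2 := ih.ctx Q [] (N' := N + (n + 1) * M) (by
      simp only [List.length_nil]
      nlinarith)
    simp only [List.nil_append, List.append_nil, List.append_assoc] at h1 h2 ⊢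
    exact h1.trans h2

theorem push_inv {P Q : List (Option A)} {c : Option A} {N M : ℕ}
    (h : GR (Rh o 𝓡) N ([c] ++ P) (Q ++ [c])) (hP : P.length ≤ M) (hQ : Q.length ≤ M) :
    GR (Rh o 𝓡) (N + 3 * M + 1) ([c] ++ iw o P) (iw o Q ++ [c]) := by
  have h1 := (ins_word' (o := o) (𝓡 := 𝓡) Q).ctx [] ([c] ++ iw o P) (N' := N + 3 * M + 1) (by
    simp; omega)
  have h0 := Rsymm (h.mono (N' := N + M + 1) (by omega)) (by simp; omega)
  have h2 := h0.ctx (iw o Q) (iw o P) (N' := N + 3 * M + 1) (by simp; omega)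
  have h3 := (del_word (o := o) (𝓡 := 𝓡) P).ctx (iw o Q ++ [c]) [] (N' := N + 3 * M + 1) (by
    simp; omega)
  simp only [List.nil_append, List.append_nil, List.append_assoc] at h1 h2 h3 ⊢
  exact (h1.trans h2).trans h3

theorem push {P Q : List (Option A)} {c : Option A} {N M : ℕ}
    (h : GR (Rh o 𝓡) N ([c] ++ P) (Q ++ [c])) (hP : P.length ≤ M) (hQ : Q.length ≤ M) (k : ℤ) :
    GR (Rh o 𝓡) (N + 3 * M + 1 + k.natAbs * M) ([c] ++ wpow o P k) (wpow o Q k ++ [c]) := by
  cases k with
  | ofNat n =>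
    refine GR.mono (N := N + n * M) ?_ (push_nat h hP hQ n)
    show N + n * M ≤ N + 3 * M + 1 + n * M
    omega
  | negSucc n =>
    refine GR.mono (N := N + 3 * M + 1 + (n + 1) * M) ?_ (push_nat (push_inv h hP hQ)
      (by rw [iw_len]; exact hP) (by rw [iw_len]; exact hQ) (n + 1))
    exact le_rfl

/-- conjugation of powers -/
theorem conj_pow {P Q : List (Option A)} {c : Option A} {N M : ℕ}
    (h : GR (Rh o 𝓡) N ([c] ++ P) (Q ++ [c])) (hP : P.length ≤ M) (hQ : Q.length ≤ M) (k : ℤ)
    (s : ZMod 2) :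
    GR (Rh o 𝓡) (N + 3 * M + 4 + k.natAbs * M)
      ([c] ++ (wpow o P k ++ jw s) ++ [Option.map o.op c]) (wpow o Q k ++ jw s) := by
  have hj := jw_len (E := A) s
  have lP : (wpow o P k).length ≤ k.natAbs * M := by
    rw [wpow_len]; exact Nat.mul_le_mul_left _ hP
  have lQ : (wpow o Q k).length ≤ k.natAbs * M := by
    rw [wpow_len]; exact Nat.mul_le_mul_left _ hQ
  have h1 := (push h hP hQ k).ctx [] (jw s ++ [Option.map o.op c])
    (N' := N + 3 * M + 4 + k.natAbs * M) (by simp; omega)
  have h2 := (j_move' (o := o) (𝓡 := 𝓡) s [c]).ctx (wpow o Q k) [Option.map o.op c]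
    (N' := N + 3 * M + 4 + k.natAbs * M) (by simp; omega)
  have h3 := (del_pair (o := o) (𝓡 := 𝓡) c).ctx (wpow o Q k ++ jw s) []
    (N' := N + 3 * M + 4 + k.natAbs * M) (by simp; omega)
  simp only [List.nil_append, List.append_nil, List.append_assoc, List.cons_append] at h1 h2 h3 ⊢
  exact (h1.trans h2).trans h3

end Pool.Agent.Helper2GI.Qd
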