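import Mathlib
import Pool.Agent.Helper2GI.Qd4

/-!
Quadratic systems: a letter and its inverse in the same relator, separated by letters without
partners in between.
-/

set_option autoImplicit false

namespace Pool.Agent.Helper2GI.Qd

variable {A : Type} {o : Op A} {𝓡 𝓡' : Sys A}

open Classical in
/-- exponents -/
noncomputable def ex (o : Op A) (u : List A) (c : A) : ℤ :=
  if c ∈ u then 1 else if o.op c ∈ u then -1 else 0

/-- exponent sums -/
noncomputable def exS (o : Op A) (u : List A) (w : List (Option A)) : ℤ :=
  (w.map fun c => match c with | none => 0 | some c => ex o u c).sum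

theorem exS_abs (u : List A) (w : List (Option A)) : (exS o u w).natAbs ≤ w.length := by
  induction w with
  | nil => simp [exS]
  | cons c w ih =>
    unfold exS at ih ⊢
    rw [List.map_cons, List.sum_cons, List.length_cons]
    refine (Int.natAbs_add_le _ _).trans ?_
    have : (match c with | none => (0 : ℤ) | some c => ex o u c).natAbs ≤ 1 := by
      cases c with
      | none => simp
      | some c =>
        show (ex o u c).natAbs ≤ 1
        unfold ex
        split_ifs <;> simp
    omega

theorem exS_append (u : List A) (w w' : List (Option A)) :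
    exS o u (w ++ w') = exS o u w + exS o u w' := by
  unfold exS
  rw [List.map_append, List.sum_append]

/-- the exponent homomorphism -/
noncomputable def chi (o : Op A) (rest : Sys A) (u : List A) (h1 : ∀ b ∈ u, o.op b ∉ u)
    (h2 : ∀ b ∈ u, b ∉ flat rest ∧ o.op b ∉ flat rest) : Hg o rest →* Multiplicative ℤ :=
  lift (fun c => Multiplicative.ofAdd (match c with | none => 0 | some c => ex o u c))
    (by rfl) (fun a => mul_comm _ _)
    (fun a => by
      show Multiplicative.ofAdd (ex o u a) * Multiplicative.ofAdd (ex o u (o.op a)) = 1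
      rw [← ofAdd_add]
      unfold ex
      rw [o.op_op]
      by_cases h3 : a ∈ u
      · have h4 := h1 a h3
        rw [if_pos h3, if_neg h4, if_pos h3]
        rfl
      · rw [if_neg h3]
        by_cases h4 : o.op a ∈ u
        · rw [if_pos h4, if_pos h4]
          rfl
        · rw [if_neg h4, if_neg h4, if_neg h3]
          rfl)
    (fun R s hR => by
      have h3 : ∀ c ∈ R, ex o u c = 0 := by
        intro c hc
        have h4 : c ∈ flat rest := List.mem_flatMap.2 ⟨_, hR, hc⟩
        unfold ex
        rw [if_neg (fun h5 => (h2 c h5).1 h4), if_neg (fun h5 => ?_)]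
        have := (h2 _ h5).2
        rw [o.op_op] at this
        exact this h4
      have h4 : (R.map fun c => Multiplicative.ofAdd (ex o u c)).prod = 1 := by
        rw [List.map_congr_left (g := fun _ => (1 : Multiplicative ℤ)) (fun c hc => by
          rw [h3 c hc]; rfl)]
        simp
      show (R.map fun c => Multiplicative.ofAdd (ex o u c)).prod * 1 ^ s.val = 1
      rw [h4, one_pow, one_mul])

theorem chi_val {rest : Sys A} {u : List A} (h1 : ∀ b ∈ u, o.op b ∉ u)
    (h2 : ∀ b ∈ u, b ∉ flat rest ∧ o.op b ∉ flat rest) (w : List (Option A)) :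
    Multiplicative.toAdd (chi o rest u h1 h2 (val o rest w)) = exS o u w := by
  unfold chi
  rw [lift_val]
  unfold exS
  induction w with
  | nil => rfl
  | cons c w ih =>
    rw [List.map_cons, List.prod_cons, toAdd_mul, ih, List.map_cons, List.sum_cons]
    rfl

/-- the word of the first subgroup -/
def gw (u : List A) : List (Option A) := u.map some

/-- the word of the second subgroup -/
def hw (o : Op A) (x y : List A) (s : ZMod 2) : List (Option A) :=
  iw o ((y ++ x).map some) ++ jw s

/-- the words of the two subgroups -/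
def Pw (o : Op A) (x y u : List A) (s : ZMod 2) (e : ℤˣ) : List (Option A) :=
  if e = 1 then gw u else hw o x y s

/-- the letters -/
def al (o : Op A) (a : A) (e : ℤˣ) : Option A := if e = 1 then some a else some (o.op a)

theorem neg_ne_one : ¬ ((-1 : ℤˣ) = 1) := by decide

theorem al_neg (a : A) (e : ℤˣ) : Option.map o.op (al o a e) = al o a (-e) := by
  rcases Int.units_eq_one_or e with rfl | rfl
  · unfold al
    rw [if_pos rfl, if_neg neg_ne_one]
    rfl
  · unfold al
    rw [if_neg neg_ne_one, neg_neg, if_pos rfl, Option.map_some, o.op_op]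

/-- the hypotheses of the third case -/
structure CC (o : Op A) (x y u : List A) (a : A) (rest : Sys A) : Prop where
  nd : (x ++ a :: (u ++ o.op a :: y)).Nodup
  nopair : ∀ b ∈ u, o.op b ∉ u
  une : u ≠ []
  partner : ∀ b ∈ u, o.op b ∈ x ∨ o.op b ∈ y
  urest : ∀ b ∈ u, b ∉ flat rest ∧ o.op b ∉ flat rest
  arest : a ∉ flat rest ∧ o.op a ∉ flat rest

namespace CC

variable {x y u : List A} {a : A} {rest : Sys A}

theorem facts (H : CC o x y u a rest) : (∀ c ∈ x, c ∉ u) ∧ (∀ c ∈ y, c ∉ u) ∧ (a ∉ x ∧ a ∉ u ∧ a ∉ y) ∧
    (o.op a ∉ x ∧ o.op a ∉ u ∧ o.op a ∉ y) := by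
  have hp : (x ++ a :: (u ++ o.op a :: y)).Perm (a :: o.op a :: (u ++ (x ++ y))) := by
    classical
    rw [List.perm_iff_count]
    intro c
    simp only [List.count_append, List.count_cons]
    omega
  have h := hp.nodup_iff.1 H.nd
  rw [List.nodup_cons, List.nodup_cons, List.nodup_append] at h
  obtain ⟨h1, h2, _, _, h3⟩ := h
  simp only [List.mem_cons, List.mem_append, not_or] at h1 h2 h3
  obtain ⟨h4, h5, h6, h7⟩ := h1
  obtain ⟨h8, h9, h10⟩ := h2
  exact ⟨fun c hc hcu => h3 c hcu c (Or.inl hc) rfl, fun c hc hcu => h3 c hcu c (Or.inr hc) rfl,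
    ⟨h6, h5, h7⟩, ⟨h9, h8, h10⟩⟩

theorem exS_g (u : List A) : exS o u (gw u) = u.length := by
  unfold exS gw
  rw [List.map_map, List.map_congr_left (g := fun _ => (1 : ℤ)) (fun c hc => by
    show ex o u c = 1
    unfold ex
    rw [if_pos hc])]
  simp

theorem exS_le (u v : List A) (hv : ∀ c ∈ v, c ∉ u) :
    exS o u (v.map some) ≤ 0 ∧ ((∃ c ∈ v, o.op c ∈ u) → exS o u (v.map some) ≤ -1) := by
  induction v with
  | nil => simp [exS]
  | cons c v ih =>
    have ih' := ih (fun c hc => hv c (List.mem_cons_of_mem _ hc))
    have h1 : exS o u ((c :: v).map some) = ex o u c + exS o u (v.map some) := by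
      unfold exS
      rw [List.map_cons, List.map_cons, List.sum_cons]
    have h2 : ex o u c ≤ 0 ∧ (o.op c ∈ u → ex o u c ≤ -1) := by
      unfold ex
      rw [if_neg (hv c (by simp))]
      split_ifs with h3
      · simp
      · simp [h3]
    rw [h1]
    refine ⟨by linarith [ih'.1, h2.1], ?_⟩
    rintro ⟨d, hd, hd'⟩
    rcases List.mem_cons.1 hd with rfl | hd
    · linarith [ih'.1, h2.2 hd']
    · linarith [ih'.2 ⟨d, hd, hd'⟩, h2.1]

theorem exS_iw (H : CC o x y u a rest) (w : List (Option A)) :
    exS o u (iw o w) = - exS o u w := by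
  have h := chi_val H.nopair H.urest (iw o w)
  rw [val_iw, map_inv, toAdd_inv, chi_val] at h
  exact h.symm

theorem exS_P (H : CC o x y u a rest) (s : ZMod 2) (e : ℤˣ) : exS o u (Pw o x y u s e) ≠ 0 := by
  obtain ⟨f1, f2, _, _⟩ := H.facts
  unfold Pw
  split_ifs with he
  · rw [exS_g]
    have := H.une
    have h2 : u.length ≠ 0 := fun h => this (List.length_eq_zero_iff.1 h)
    exact_mod_cast h2
  · unfold hw
    rw [exS_append, H.exS_iw]
    have h1 : exS o u (jw s) = 0 := by
      rcases RA.zmod2_cases s with rfl | rfl <;> rfl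
    obtain ⟨b, hb⟩ := List.exists_mem_of_ne_nil _ H.une
    have h2 := (exS_le (o := o) u (y ++ x) (fun c hc => by
      rcases List.mem_append.1 hc with h | h
      · exact f2 c h
      · exact f1 c h)).2 ⟨o.op b, by
        rcases H.partner b hb with h | h
        · exact List.mem_append_right _ h
        · exact List.mem_append_left _ h, by rw [o.op_op]; exact hb⟩
    rw [h1]
    intro h3
    linarith

/-- injectivity -/
theorem inj (H : CC o x y u a rest) (s : ZMod 2) (e : ℤˣ) :
    Function.Injective (io (lt o rest none) (val o rest (Pw o x y u s e)) j_comm) := by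
  refine io_inj (chi o rest u H.nopair H.urest) ?_ ?_
  · apply Multiplicative.toAdd.injective
    have : lt o rest none = val o rest [none] := by rw [val_cons, val_nil, mul_one]
    rw [this, chi_val]
    rfl
  · intro h
    have := chi_val H.nopair H.urest (Pw o x y u s e)
    rw [h] at this
    exact H.exS_P s e this.symm

/-- the HNN extension -/
abbrev K (H : CC o x y u a rest) (s : ZMod 2) : Type :=
  HNNExtension (Hg o rest) (io (lt o rest none) (val o rest (Pw o x y u s 1)) j_comm).range
    (io (lt o rest none) (val o rest (Pw o x y u s (-1))) j_comm).range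
    (phi (H.inj s 1) (H.inj s (-1)))

theorem jK (H : CC o x y u a rest) (s : ZMod 2) :
    (HNNExtension.t : H.K s) * HNNExtension.of (lt o rest none) =
      HNNExtension.of (lt o rest none) * HNNExtension.t := by
  have h := HNNExtension.t_mul_of (φ := phi (H.inj s 1) (H.inj s (-1))) ⟨lt o rest none, J_mem⟩
  rw [phi_J] at h
  exact h

theorem gK (H : CC o x y u a rest) (s : ZMod 2) :
    (HNNExtension.t : H.K s) * HNNExtension.of (val o rest (gw u)) =
      HNNExtension.of (val o rest (hw o x y s)) * HNNExtension.t := by
  have h := HNNExtension.t_mul_of (φ := phi (H.inj s 1) (H.inj s (-1)))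
    ⟨val o rest (Pw o x y u s 1), g_mem⟩
  rw [phi_g] at h
  exact h

open Classical in
/-- the letters in the extension -/
noncomputable def fK (H : CC o x y u a rest) (s : ZMod 2) (c : Option A) : H.K s :=
  if c = some a then HNNExtension.t else if c = some (o.op a) then HNNExtension.t⁻¹ else
    HNNExtension.of (lt o rest c)

/-- words without the letter -/
def Na (o : Op A) (a : A) (p : List (Option A)) : Prop := some a ∉ p ∧ some (o.op a) ∉ p

theorem fK_val (H : CC o x y u a rest) (s : ZMod 2) {p : List (Option A)} (hp : Na o a p) :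
    (p.map (H.fK s)).prod = HNNExtension.of (val o rest p) := by
  unfold val
  rw [map_list_prod, List.map_map]
  congr 1
  refine List.map_congr_left fun c hc => ?_
  have n1 : c ≠ some a := fun h => hp.1 (h ▸ hc)
  have n2 : c ≠ some (o.op a) := fun h => hp.2 (h ▸ hc)
  unfold fK
  rw [if_neg n1, if_neg n2]
  rfl

theorem fK_none (H : CC o x y u a rest) (s : ZMod 2) :
    H.fK s none = HNNExtension.of (lt o rest none) := by
  unfold fK
  rw [if_neg (by simp), if_neg (by simp)]

theorem fK_a (H : CC o x y u a rest) (s : ZMod 2) : H.fK s (some a) = HNNExtension.t := by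
  unfold fK
  rw [if_pos rfl]

theorem fK_b (H : CC o x y u a rest) (s : ZMod 2) :
    H.fK s (some (o.op a)) = HNNExtension.t⁻¹ := by
  unfold fK
  rw [if_neg (fun h => o.ne a (Option.some_injective _ h)), if_pos rfl]

theorem na_map {l : List A} (h : a ∉ l) (h' : o.op a ∉ l) : Na o a (l.map some) := by
  constructor
  · intro h1
    obtain ⟨c, hc, hc'⟩ := List.mem_map.1 h1
    exact h (Option.some_injective _ hc' ▸ hc)
  · intro h1
    obtain ⟨c, hc, hc'⟩ := List.mem_map.1 h1
    exact h' (Option.some_injective _ hc' ▸ hc)

/-- the homomorphism to the extension -/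
noncomputable def Psi (H : CC o x y u a rest) (s : ZMod 2) :
    Hg o ((x ++ a :: (u ++ o.op a :: y), s) :: rest) →* H.K s :=
  lift (H.fK s)
    (by rw [fK_none, ← map_mul, jj_one, map_one])
    (fun c => by
      rw [fK_none]
      unfold fK
      split_ifs with h1 h2
      · exact (H.jK s).symm
      · exact (Commute.inv_left (H.jK s : Commute _ _)).symm
      · rw [← map_mul, ← map_mul, jx_comm])
    (fun c => by
      by_cases h1 : c = a
      · subst h1
        rw [fK_a, fK_b, mul_inv_cancel]
      · by_cases h2 : c = o.op a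
        · subst h2
          rw [o.op_op, fK_a, fK_b, inv_mul_cancel]
        · have h3 : o.op c ≠ a := fun h => h2 (by rw [← h, o.op_op])
          have h4 : o.op c ≠ o.op a := fun h => h1 (by rw [← o.op_op c, h, o.op_op])
          unfold fK
          rw [if_neg (fun h => h1 (Option.some_injective _ h)),
            if_neg (fun h => h2 (Option.some_injective _ h)),
            if_neg (fun h => h3 (Option.some_injective _ h)),
            if_neg (fun h => h4 (Option.some_injective _ h)), ← map_mul, inv_one, map_one])
    (fun R t hR => by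
      obtain ⟨f1, f2, ⟨n1, n2, n3⟩, ⟨n4, n5, n6⟩⟩ := H.facts
      rw [fK_none]
      have hmm : ∀ l : List A, (l.map fun c => H.fK s (some c)) = (l.map some).map (H.fK s) := by
        intro l
        rw [List.map_map]
        rfl
      rcases List.mem_cons.1 hR with h | h
      · rw [(Prod.mk.inj h).1, (Prod.mk.inj h).2]
        rw [List.map_append, List.prod_append, List.map_cons, List.prod_cons, List.map_append,
          List.prod_append, List.map_cons, List.prod_cons, fK_a, fK_b, hmm, hmm, hmm,
          H.fK_val s (na_map n1 n4), H.fK_val s (na_map n2 n5), H.fK_val s (na_map n3 n6)]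
        have h1 := H.gK s
        unfold gw hw at h1
        rw [val_append, val_iw, List.map_append, val_append, val_jw] at h1
        rw [← mul_assoc (HNNExtension.t : H.K s), h1, ← map_pow]
        simp only [mul_assoc, ← map_mul, mul_inv_cancel_left]
        rw [mul_inv_rev]
        have h2 := jpow_two (o := o) (𝓡 := rest) s
        have h3 := j_comm (o := o) (𝓡 := rest)
        have h4 : ∀ g : Hg o rest, lt o rest none ^ s.val * g = g * lt o rest none ^ s.val :=
          fun g => Commute.pow_left (h3 g) _
        calc _ = HNNExtension.of (val o rest (List.map some x) * ((val o rest (List.map some x))⁻¹ *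
              (val o rest (List.map some y))⁻¹ * lt o rest none ^ s.val) *
              (val o rest (List.map some y) * lt o rest none ^ s.val)) := by
              simp only [map_mul, mul_assoc]
            _ = HNNExtension.of ((val o rest (List.map some y))⁻¹ * (lt o rest none ^ s.val *
              val o rest (List.map some y)) * lt o rest none ^ s.val) := by
              congr 1
              group
            _ = HNNExtension.of 1 := by
              congr 1
              rw [h4]
              rw [← mul_assoc, inv_mul_cancel, one_mul, h2]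
            _ = 1 := map_one _
      · have h5 : ∀ c ∈ R, c ∈ flat rest := fun c hc => List.mem_flatMap.2 ⟨_, h, hc⟩
        rw [hmm, H.fK_val s (na_map (fun h' => H.arest.1 (h5 _ h')) (fun h' => H.arest.2 (h5 _ h'))),
          rel_val h, val_jw, ← map_pow, ← map_mul, jpow_two, map_one])

theorem Psi_val (H : CC o x y u a rest) (s : ZMod 2) (w : List (Option A)) :
    H.Psi s (val o _ w) = (w.map (H.fK s)).prod := by
  unfold Psi
  exact lift_val _ _ _ _ _ w

/-- assembled words -/
def asm (o : Op A) (a : A) (hd : List (Option A)) (tl : List (ℤˣ × List (Option A))) :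
    List (Option A) := hd ++ tl.flatMap fun p => al o a p.1 :: p.2

theorem parse (o : Op A) (a : A) (w : List (Option A)) : ∃ hd tl, w = asm o a hd tl ∧ Na o a hd ∧
    ∀ p ∈ tl, Na o a p.2 := by
  classical
  induction w with
  | nil => exact ⟨[], [], rfl, by simp [Na], by simp⟩
  | cons c w ih =>
    obtain ⟨hd, tl, h1, h2, h3⟩ := ih
    by_cases hc : c = some a
    · refine ⟨[], (1, hd) :: tl, ?_, by simp [Na], ?_⟩
      · rw [hc, h1]
        unfold asm
        simp [al]
      · intro p hp
        rcases List.mem_cons.1 hp with rfl | hp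
        · exact h2
        · exact h3 p hp
    · by_cases hc' : c = some (o.op a)
      · refine ⟨[], (-1, hd) :: tl, ?_, by simp [Na], ?_⟩
        · rw [hc', h1]
          unfold asm
          simp [al, neg_ne_one]
        · intro p hp
          rcases List.mem_cons.1 hp with rfl | hp
          · exact h2
          · exact h3 p hp
      · refine ⟨c :: hd, tl, by rw [h1]; rfl, ?_, h3⟩
        constructor
        · intro h
          rcases List.mem_cons.1 h with h | h
          · exact hc h.symm
          · exact h2.1 h
        · intro h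
          rcases List.mem_cons.1 h with h | h
          · exact hc' h.symm
          · exact h2.2 h

theorem fK_al (H : CC o x y u a rest) (s : ZMod 2) (e : ℤˣ) :
    H.fK s (al o a e) = HNNExtension.t ^ (e : ℤ) := by
  rcases Int.units_eq_one_or e with rfl | rfl
  · unfold al
    rw [if_pos rfl, fK_a]
    simp
  · unfold al
    rw [if_neg neg_ne_one, fK_b]
    simp

theorem asm_val (H : CC o x y u a rest) (s : ZMod 2) {hd : List (Option A)}
    {tl : List (ℤˣ × List (Option A))} (h1 : Na o a hd) (h2 : ∀ p ∈ tl, Na o a p.2) :
    ((asm o a hd tl).map (H.fK s)).prod = HNNExtension.of (val o rest hd) *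
      ((tl.map fun p => (p.1, val o rest p.2)).map fun p =>
        HNNExtension.t ^ (p.1 : ℤ) * HNNExtension.of p.2).prod := by
  unfold asm
  rw [List.map_append, List.prod_append, H.fK_val s h1]
  congr 1
  induction tl with
  | nil => rfl
  | cons p tl ih =>
    rw [List.flatMap_cons, List.map_append, List.prod_append, List.map_cons, List.prod_cons,
      H.fK_val s (h2 p (by simp)), fK_al, ih (fun p hp => h2 p (List.mem_cons_of_mem _ hp)),
      List.map_cons, List.map_cons, List.prod_cons]

theorem not_chain {α : Type} {R : α → α → Prop} (l : List α) (h : ¬ l.IsChain R) :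
    ∃ l1 p q l2, l = l1 ++ p :: q :: l2 ∧ ¬ R p q := by
  induction l with
  | nil => exact absurd List.isChain_nil h
  | cons p l ih =>
    cases l with
    | nil => exact absurd (List.isChain_singleton p) h
    | cons q l =>
      by_cases h1 : R p q
      · have h2 : ¬ (q :: l).IsChain R := fun h3 => h (List.isChain_cons_cons.2 ⟨h1, h3⟩)
        obtain ⟨l1, p', q', l2, h4, h5⟩ := ih h2
        exact ⟨p :: l1, p', q', l2, by rw [h4]; rfl, h5⟩
      · exact ⟨[], p, q, l, rfl, h1⟩

/-- pinches -/
theorem pinch (H : CC o x y u a rest) (s : ZMod 2) {w : List (Option A)}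
    (hw : val o ((x ++ a :: (u ++ o.op a :: y), s) :: rest) w = 1) :
    (Na o a w ∧ val o rest w = 1) ∨ ∃ (e : ℤˣ) (L p R : List (Option A)) (k : ℤ) (t : ZMod 2),
      w = L ++ ([al o a e] ++ p ++ [al o a (-e)]) ++ R ∧ Na o a p ∧
      val o rest p = val o rest (Pw o x y u s e) ^ k * lt o rest none ^ t.val := by
  obtain ⟨hd, tl, h1, h2, h3⟩ := parse o a w
  have h4 := H.Psi_val s w
  rw [hw, map_one, h1, H.asm_val s h2 h3] at h4
  set tl' := tl.map fun p => (p.1, val o rest p.2) with htl'
  by_cases hch : tl'.IsChain (fun p q => p.2 ∈ HNNExtension.toSubgroup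
      (io (lt o rest none) (val o rest (Pw o x y u s 1)) j_comm).range
      (io (lt o rest none) (val o rest (Pw o x y u s (-1))) j_comm).range p.1 → p.1 = q.1)
  · left
    have h5 := HNNExtension.ReducedWord.toList_eq_nil_of_mem_of_range
      (phi (H.inj s 1) (H.inj s (-1))) ⟨val o rest hd, tl', hch⟩ (by
        show HNNExtension.of (val o rest hd) * (tl'.map fun p =>
          HNNExtension.t ^ (p.1 : ℤ) * HNNExtension.of p.2).prod ∈ _
        rw [← h4]
        exact one_mem _)
    change tl' = [] at h5
    rw [h5] at h4
    simp only [List.map_nil, List.prod_nil, mul_one] at h4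
    have h6 : tl = [] := List.map_eq_nil_iff.1 h5
    have h7 : w = hd := by rw [h1, h6]; simp [asm]
    rw [h7]
    refine ⟨h2, ?_⟩
    apply HNNExtension.of_injective (φ := phi (H.inj s 1) (H.inj s (-1)))
    rw [map_one]
    exact h4.symm
  · right
    obtain ⟨l1, p', q', l2, h5, h6⟩ := not_chain _ hch
    rw [htl'] at h5
    obtain ⟨m1, m2, rfl, e1, e2⟩ := List.map_eq_append_iff.1 h5
    obtain ⟨p, m3, rfl, e3, e4⟩ := List.map_eq_cons_iff.1 e2
    obtain ⟨q, m4, rfl, e5, e6⟩ := List.map_eq_cons_iff.1 e4
    rw [← e3, ← e5] at h6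
    simp only [Classical.not_imp] at h6
    obtain ⟨h7, h8⟩ := h6
    have h9 : q.1 = - p.1 := Int.units_ne_iff_eq_neg.1 (Ne.symm h8)
    have h10 : val o rest p.2 ∈ (io (lt o rest none) (val o rest (Pw o x y u s p.1)) j_comm).range := by
      rcases Int.units_eq_one_or p.1 with h | h
      · rw [h] at h7 ⊢
        exact h7
      · rw [h] at h7 ⊢
        exact h7
    obtain ⟨k, t, hkt⟩ := io_mem jj_one h10
    refine ⟨p.1, hd ++ (m1.flatMap fun p => al o a p.1 :: p.2), p.2,
      q.2 ++ (m4.flatMap fun p => al o a p.1 :: p.2), k, t, ?_, h3 p (by simp), hkt⟩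
    rw [h1, ← h9]
    unfold asm
    simp

end CC

end Pool.Agent.Helper2GI.Qd
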