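import Mathlib
import Pool.Agent.Helper2GI.Qd5

/-!
Quadratic systems: explicit bounds for derivations.
-/

set_option autoImplicit false

namespace Pool.Agent.Helper2GI.Qd

variable {A : Type} {o : Op A} {𝓡 𝓡' : Sys A}

/-- the growth in one step -/
def gc (m n : ℕ) : ℕ := 40 * (m + 1) * (n + 1)

/-- the growth for one letter -/
def gG (m n : ℕ) : ℕ := (gc m)^[n + 1] n

/-- the bound -/
def bd (m l n : ℕ) : ℕ := (gG m)^[l] (n + 1)

/-- functions growing at least linearly -/
def Slope (f : ℕ → ℕ) : Prop := ∀ n k, f n + k ≤ f (n + k)

theorem Slope.mono {f : ℕ → ℕ} (h : Slope f) : Monotone f := by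
  intro a b hab
  obtain ⟨c, rfl⟩ := Nat.exists_eq_add_of_le hab
  exact (Nat.le_add_right _ _).trans (h a c)

theorem Slope.le {f : ℕ → ℕ} (h : Slope f) (n : ℕ) : n ≤ f n := by
  have := h 0 n
  rw [zero_add] at this
  exact (Nat.le_add_left _ _).trans this

theorem Slope.iter {f : ℕ → ℕ} (h : Slope f) (i : ℕ) : Slope (f^[i]) := by
  induction i with
  | zero => exact fun n k => le_rfl
  | succ i ih =>
    intro n k
    rw [Function.iterate_succ_apply, Function.iterate_succ_apply]
    exact (ih (f n) k).trans (ih.mono (h n k))

theorem Slope.iter_le {f : ℕ → ℕ} (h : Slope f) {i j : ℕ} (hij : i ≤ j) (n : ℕ) :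
    f^[i] n ≤ f^[j] n := by
  induction hij with
  | refl => exact le_rfl
  | step _ ih =>
    rw [Function.iterate_succ_apply']
    exact ih.trans (h.le _)

theorem gc_slope (m : ℕ) : Slope (gc m) := by
  intro n k
  unfold gc
  nlinarith [Nat.zero_le (m * k), Nat.zero_le (m * n)]

theorem gG_slope (m : ℕ) : Slope (gG m) := by
  intro n k
  unfold gG
  exact ((gc_slope m).iter (n + 1) n k).trans ((gc_slope m).iter_le (by omega) _)

theorem bd_slope (m l : ℕ) : Slope (bd m l) := by
  intro n k
  unfold bd
  refine ((gG_slope m).iter l (n + 1) k).trans (le_of_eq ?_)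
  congr 1
  omega

theorem bd_step {m l l' n : ℕ} (h : l' + 1 ≤ l) : bd m l' (gG m n) ≤ bd m l n := by
  unfold bd
  refine ((gG_slope m).iter l').mono (gG_slope m n 1) |>.trans ?_
  rw [← Function.iterate_succ_apply]
  exact (gG_slope m).iter_le h _

theorem gc_le_gG (m n : ℕ) : gc m n ≤ gG m n := by
  unfold gG
  rw [Function.iterate_succ_apply]
  exact (gc_slope m).iter n |>.le _

theorem st_le {b : ℕ → ℕ} (hb : Slope b) (m n : ℕ) : st m b n ≤ b (gG m n) := by
  refine le_trans ?_ (hb.mono (gc_le_gG m n))
  have h1 := hb (n * (m + 1)) (n * (m + 1) + 2 * (5 * m + 8))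
  have h2 : b (n * (m + 1) + (n * (m + 1) + 2 * (5 * m + 8))) ≤ b (gc m n) := by
    apply hb.mono
    unfold gc
    nlinarith [Nat.zero_le (m * n)]
  unfold st
  omega

namespace CC

variable {x y u : List A} {a : A} {rest : Sys A} {s : ZMod 2} {m : ℕ}

theorem P_len (hm : (x ++ a :: (u ++ o.op a :: y)).length ≤ m) (e : ℤˣ) :
    (Pw o x y u s e).length ≤ m + 1 := by
  have := jw_len (E := A) s
  simp only [List.length_append, List.length_cons] at hm
  unfold Pw gw hw
  split_ifs
  · rw [List.length_map]
    omega
  · rw [List.length_append, iw_len, List.length_map, List.length_append]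
    omega

theorem B1 (hm : (x ++ a :: (u ++ o.op a :: y)).length ≤ m)
    (hmem : (x ++ a :: (u ++ o.op a :: y), s) ∈ 𝓡) :
    GR (Rh o 𝓡) (3 * m + 6) ([some a] ++ gw u) (hw o x y s ++ [some a]) := by
  have hj := jw_len (E := A) s
  simp only [List.length_append, List.length_cons] at hm
  set X := x.map some with hX
  set Y := y.map some with hY
  set U := u.map some with hU
  have lX : X.length = x.length := by simp [hX]
  have lY : Y.length = y.length := by simp [hY]
  have lU : U.length = u.length := by simp [hU]
  have h1 := (ins_pair (o := o) (𝓡 := 𝓡) (some (o.op a))).ctx ([some a] ++ U) []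
    (N' := 3 * m + 6) (by simp; omega)
  have h2 := (ins_word' (o := o) (𝓡 := 𝓡) X).ctx []
    ([some a] ++ U ++ [some (o.op a), some a]) (N' := 3 * m + 6) (by simp; omega)
  have h3 := (ins_word (o := o) (𝓡 := 𝓡) Y).ctx (iw o X ++ X ++ [some a] ++ U ++ [some (o.op a)])
    [some a] (N' := 3 * m + 6) (by simp; omega)
  have h4 := GR.rule (ρ := Rh o 𝓡) (N := 3 * m + 6) (Rh.rel _ _ hmem) (iw o X)
    (iw o Y ++ [some a]) (by simp; omega)
  have h5 := (j_move (o := o) (𝓡 := 𝓡) s (iw o Y)).ctx (iw o X) [some a]
    (N' := 3 * m + 6) (by simp; omega)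
  have e1 : hw o x y s ++ [some a] = iw o X ++ (iw o Y ++ jw s) ++ [some a] := by
    unfold hw
    rw [List.map_append, iw_append]
    simp [hX, hY]
  have e2 : [some a] ++ gw u = [some a] ++ U := rfl
  rw [e1, e2]
  simp only [List.nil_append, List.append_nil, List.append_assoc, List.cons_append,
    List.map_append, List.map_cons, Option.map_some, o.op_op, ← hX, ← hY, ← hU] at h1 h2 h3 h4 h5 ⊢
  exact (((h1.trans h2).trans h3).trans h4).trans h5

theorem B3 (hm : (x ++ a :: (u ++ o.op a :: y)).length ≤ m)
    (hmem : (x ++ a :: (u ++ o.op a :: y), s) ∈ 𝓡) :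
    GR (Rh o 𝓡) (4 * m + 12) ([some (o.op a)] ++ hw o x y s) (gw u ++ [some (o.op a)]) := by
  have l1 : (gw u).length ≤ m + 1 := P_len (s := s) hm 1
  have l2 : (hw o x y s).length ≤ m + 1 := by
    have := P_len (s := s) (o := o) (x := x) (y := y) (u := u) (a := a) hm (-1)
    unfold Pw at this
    rwa [if_neg neg_ne_one] at this
  have h0 := Rsymm (B1 hm hmem) (by simp; omega)
  have h1 := (ins_pair (o := o) (𝓡 := 𝓡) (some a)).ctx ([some (o.op a)] ++ hw o x y s) []
    (N' := 4 * m + 12) (by simp; omega)
  have h2 := h0.ctx [some (o.op a)] [some (o.op a)] (N' := 4 * m + 12) (by simp; omega)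
  have h3 := (del_pair (o := o) (𝓡 := 𝓡) (some (o.op a))).ctx [] (gw u ++ [some (o.op a)])
    (N' := 4 * m + 12) (by simp; omega)
  simp only [List.nil_append, List.append_nil, List.append_assoc, List.cons_append,
    Option.map_some, o.op_op] at h1 h2 h3 ⊢
  exact (h1.trans h2).trans h3

theorem BB (hm : (x ++ a :: (u ++ o.op a :: y)).length ≤ m)
    (hmem : (x ++ a :: (u ++ o.op a :: y), s) ∈ 𝓡) (e : ℤˣ) :
    GR (Rh o 𝓡) (4 * m + 12) ([al o a e] ++ Pw o x y u s e) (Pw o x y u s (-e) ++ [al o a e]) := by
  rcases Int.units_eq_one_or e with rfl | rfl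
  · unfold al Pw
    rw [if_pos rfl, if_pos rfl, if_neg neg_ne_one]
    exact (B1 hm hmem).mono (by omega)
  · unfold al Pw
    rw [if_neg neg_ne_one, if_neg neg_ne_one, neg_neg, if_pos rfl]
    exact B3 hm hmem

open Classical in
/-- the number of occurrences -/
noncomputable def cnt (o : Op A) (a : A) (w : List (Option A)) : ℕ :=
  w.countP fun c => decide (c = some a ∨ c = some (o.op a))

theorem cnt_append (w w' : List (Option A)) : cnt o a (w ++ w') = cnt o a w + cnt o a w' :=
  List.countP_append

theorem cnt_zero {w : List (Option A)} (h : Na o a w) : cnt o a w = 0 := by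
  unfold cnt
  rw [List.countP_eq_zero]
  intro c hc hc'
  simp only [decide_eq_true_eq] at hc'
  rcases hc' with rfl | rfl
  · exact h.1 hc
  · exact h.2 hc

theorem cnt_al (e : ℤˣ) : cnt o a [al o a e] = 1 := by
  rcases Int.units_eq_one_or e with rfl | rfl
  · unfold al cnt
    rw [if_pos rfl]
    simp
  · unfold al cnt
    rw [if_neg neg_ne_one]
    simp

theorem na_iw {p : List (Option A)} (h : Na o a p) : Na o a (iw o p) := by
  constructor
  · intro h1
    unfold iw at h1
    rw [List.mem_reverse, List.mem_map] at h1
    obtain ⟨c, hc, hc'⟩ := h1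
    cases c with
    | none => simp at hc'
    | some c =>
      simp only [Option.map_some, Option.some.injEq] at hc'
      apply h.2
      rw [← hc', o.op_op]
      exact hc
  · intro h1
    unfold iw at h1
    rw [List.mem_reverse, List.mem_map] at h1
    obtain ⟨c, hc, hc'⟩ := h1
    cases c with
    | none => simp at hc'
    | some c =>
      simp only [Option.map_some, Option.some.injEq] at hc'
      apply h.1
      rw [← o.op_op a, ← hc', o.op_op]
      exact hc

theorem na_append {p q : List (Option A)} (h : Na o a p) (h' : Na o a q) : Na o a (p ++ q) :=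
  ⟨fun h1 => (List.mem_append.1 h1).elim h.1 h'.1, fun h1 => (List.mem_append.1 h1).elim h.2 h'.2⟩

theorem na_rep {p : List (Option A)} (h : Na o a p) (n : ℕ) :
    Na o a (List.replicate n p).flatten := by
  induction n with
  | zero => simp [Na]
  | succ n ih =>
    rw [List.replicate_succ, List.flatten_cons]
    exact na_append h ih

theorem na_wpow {p : List (Option A)} (h : Na o a p) (k : ℤ) : Na o a (wpow o p k) := by
  cases k with
  | ofNat n => exact na_rep h n
  | negSucc n => exact na_rep (na_iw h) (n + 1)

theorem na_jw (s : ZMod 2) : Na o a (jw s) := by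
  rcases RA.zmod2_cases s with rfl | rfl
  · rw [jw_zero]; simp [Na]
  · rw [jw_one]; simp [Na]

theorem na_P (H : CC o x y u a rest) (s : ZMod 2) (e : ℤˣ) : Na o a (Pw o x y u s e) := by
  obtain ⟨f1, f2, ⟨n1, n2, n3⟩, ⟨n4, n5, n6⟩⟩ := H.facts
  unfold Pw
  split_ifs
  · exact na_map n2 n5
  · refine na_append (na_iw ?_) (na_jw s)
    refine na_map ?_ ?_
    · rw [List.mem_append, not_or]; exact ⟨n3, n1⟩
    · rw [List.mem_append, not_or]; exact ⟨n6, n4⟩

theorem k_le (H : CC o x y u a rest) {p : List (Option A)} {e : ℤˣ} {k : ℤ} {t : ZMod 2}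
    (h : val o rest p = val o rest (Pw o x y u s e) ^ k * lt o rest none ^ t.val) :
    k.natAbs ≤ p.length := by
  have h1 := congrArg (fun g => Multiplicative.toAdd (chi o rest u H.nopair H.urest g)) h
  simp only [map_mul, map_zpow, map_pow, toAdd_mul, toAdd_zpow, toAdd_pow, chi_val] at h1
  have h2 : Multiplicative.toAdd (chi o rest u H.nopair H.urest (lt o rest none)) = 0 := by
    have : lt o rest none = val o rest [none] := by rw [val_cons, val_nil, mul_one]
    rw [this, chi_val]
    rfl
  rw [h2, smul_zero, add_zero, smul_eq_mul] at h1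
  have h3 := exS_abs (o := o) u p
  rw [h1, Int.natAbs_mul] at h3
  have h4 : 1 ≤ (exS o u (Pw o x y u s e)).natAbs := by
    have := H.exS_P s e
    omega
  calc k.natAbs = k.natAbs * 1 := (mul_one _).symm
    _ ≤ k.natAbs * (exS o u (Pw o x y u s e)).natAbs := Nat.mul_le_mul_left _ h4
    _ ≤ p.length := h3

theorem main (H : CC o x y u a rest) (s : ZMod 2)
    (hm : (x ++ a :: (u ++ o.op a :: y)).length ≤ m) {b : ℕ → ℕ} (hb : Slope b)
    (hP : PB o rest b) (N : ℕ) :
    ∀ w, cnt o a w ≤ N → val o ((x ++ a :: (u ++ o.op a :: y), s) :: rest) w = 1 →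
      GR (Rh o ((x ++ a :: (u ++ o.op a :: y), s) :: rest)) (b ((gc m)^[N + 1] w.length)) w [] := by
  set 𝓢 : Sys A := (x ++ a :: (u ++ o.op a :: y), s) :: rest with h𝓢
  have hmem : (x ++ a :: (u ++ o.op a :: y), s) ∈ 𝓢 := by simp [h𝓢]
  have hsub : ∀ q, q ∈ rest → q ∈ 𝓢 := fun q hq => List.mem_cons_of_mem _ hq
  induction N with
  | zero =>
    intro w hc hw
    rcases H.pinch s hw with ⟨_, h2⟩ | ⟨e, L, p, R, k, t, rfl, h2, h3⟩
    · exact (GR_imp (fun _ _ => Rh_mono hsub) (hP w h2)).mono
        (hb.mono (((gc_slope m).iter _).le _))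
    · exfalso
      rw [cnt_append, cnt_append, cnt_append, cnt_append, cnt_al] at hc
      omega
  | succ N ih =>
    intro w hc hw
    rcases H.pinch s hw with ⟨_, h2⟩ | ⟨e, L, p, R, k, t, hwe, h2, h3⟩
    · exact (GR_imp (fun _ _ => Rh_mono hsub) (hP w h2)).mono
        (hb.mono (((gc_slope m).iter _).le _))
    · have hk := H.k_le h3
      set P := Pw o x y u s e with hPd
      set Q := Pw o x y u s (-e) with hQd
      have lP : P.length ≤ m + 1 := P_len hm e
      have lQ : Q.length ≤ m + 1 := P_len hm (-e)
      set z := wpow o P k ++ jw t with hz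
      have hj := jw_len (E := A) t
      have lkp : k.natAbs * P.length ≤ p.length * (m + 1) := Nat.mul_le_mul hk lP
      have lkq : k.natAbs * Q.length ≤ p.length * (m + 1) := Nat.mul_le_mul hk lQ
      have lkm : k.natAbs * (m + 1) ≤ p.length * (m + 1) := Nat.mul_le_mul hk le_rfl
      have lz : z.length ≤ p.length * (m + 1) + 1 := by
        rw [hz, List.length_append, wpow_len]
        omega
      have hlen : w.length = L.length + p.length + 2 + R.length := by
        rw [hwe]
        simp
        omega
      have hpw : p.length * (m + 1) ≤ w.length * (m + 1) := Nat.mul_le_mul (by omega) le_rfl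
      -- the value of the inner word
      have v1 : val o rest (p ++ iw o z) = 1 := by
        rw [val_append, val_iw, hz, val_append, val_wpow, val_jw, ← h3, mul_inv_cancel]
      have d1 : GR (Rh o 𝓢) (b (p.length + 2 * z.length)) p z := by
        have h4 := (ins_word' (o := o) (𝓡 := 𝓢) z).ctx p [] (N' := b (p.length + 2 * z.length))
          (by
            refine le_trans ?_ (hb.le _)
            simp)
        have h5 := (GR_imp (fun _ _ => Rh_mono hsub) (hP _ v1)).ctx (ρ := Rh o 𝓢) [] z
          (N' := b (p.length + 2 * z.length)) (by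
            have := hb (p.length + z.length) z.length
            rw [List.length_append, iw_len, List.length_nil, zero_add]
            refine this.trans (hb.mono ?_)
            omega)
        simp only [List.nil_append, List.append_nil, List.append_assoc] at h4 h5
        exact h4.trans h5
      have d2 := conj_pow (BB hm hmem e) lP lQ k t
      rw [al_neg, ← hPd, ← hQd, ← hz] at d2
      have g1 : w.length + 2 * (w.length * (m + 1) + 1) ≤ gc m w.length := by
        unfold gc
        nlinarith [Nat.zero_le (m * w.length)]
      have d1' := d1.ctx (L ++ [al o a e]) ([al o a (-e)] ++ R) (N' := b (gc m w.length)) (by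
        have := hb (p.length + 2 * z.length) (L.length + R.length + 2)
        have h6 : b (p.length + 2 * z.length + (L.length + R.length + 2)) ≤ b (gc m w.length) :=
          hb.mono (by omega)
        simp only [List.length_append, List.length_cons, List.length_nil]
        omega)
      have d2' := d2.ctx L R (N' := b (gc m w.length)) (by
        refine le_trans ?_ (hb.le _)
        unfold gc
        nlinarith [Nat.zero_le (m * w.length)])
      set w' := L ++ (wpow o Q k ++ jw t) ++ R with hw'
      have d3 : GR (Rh o 𝓢) (b (gc m w.length)) w w' := by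
        have f1 : w = L ++ [al o a e] ++ p ++ ([al o a (-e)] ++ R) := by rw [hwe]; simp
        have f2 : L ++ [al o a e] ++ z ++ ([al o a (-e)] ++ R) =
            L ++ ([al o a e] ++ z ++ [al o a (-e)]) ++ R := by simp
        rw [f2, ← f1] at d1'
        exact d1'.trans d2'
      have lw' : w'.length ≤ gc m w.length := by
        rw [hw', List.length_append, List.length_append, List.length_append, wpow_len]
        omega
      have hc' : cnt o a w' ≤ N := by
        have c1 : cnt o a (wpow o Q k ++ jw t) = 0 :=
          cnt_zero (na_append (na_wpow (H.na_P s (-e)) k) (na_jw t))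
        rw [hwe, cnt_append, cnt_append, cnt_append, cnt_append, cnt_al, cnt_al,
          cnt_zero h2] at hc
        rw [hw', cnt_append, cnt_append, c1]
        omega
      have hv : val o 𝓢 w' = 1 := by rw [← GR_val d3, hw]
      have d4 := ih w' hc' hv
      have e1 : b (gc m w.length) ≤ b ((gc m)^[N + 1 + 1] w.length) := by
        apply hb.mono
        rw [Function.iterate_succ_apply]
        exact ((gc_slope m).iter _).le _
      have e2 : b ((gc m)^[N + 1] w'.length) ≤ b ((gc m)^[N + 1 + 1] w.length) := by
        apply hb.mono
        rw [Function.iterate_succ_apply (gc m) (N + 1)]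
        exact ((gc_slope m).iter _).mono lw'
      exact (d3.mono e1).trans (d4.mono e2)

theorem caseC (H : CC o x y u a rest) (s : ZMod 2)
    (hm : (x ++ a :: (u ++ o.op a :: y)).length ≤ m) {b : ℕ → ℕ} (hb : Slope b)
    (hP : PB o rest b) :
    PB o ((x ++ a :: (u ++ o.op a :: y), s) :: rest) (fun n => b (gG m n)) := by
  intro w hw
  refine H.main s hm hb hP w.length w ?_ hw
  exact List.countP_le_length

end CC

/-! ### The induction -/

theorem flat_cons (p : List A × ZMod 2) (𝓡 : Sys A) : flat (p :: 𝓡) = p.1 ++ flat 𝓡 := by
  unfold flat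
  rw [List.flatMap_cons]

theorem flat_perm {𝓡 𝓡' : Sys A} (h : 𝓡.Perm 𝓡') : (flat 𝓡).Perm (flat 𝓡') :=
  h.flatMap_right _

theorem Good.perm (h : Good o 𝓡) (hp : 𝓡.Perm 𝓡') : Good o 𝓡' :=
  ⟨(flat_perm hp).nodup_iff.1 h.nodup, fun a ha =>
    (flat_perm hp).mem_iff.1 (h.closed a ((flat_perm hp).mem_iff.2 ha))⟩

theorem Good.drop (h : Good o 𝓡) {a : A} (hp : (flat 𝓡).Perm (a :: o.op a :: flat 𝓡')) :
    Good o 𝓡' := by
  have h1 := hp.nodup_iff.1 h.nodup
  rw [List.nodup_cons, List.nodup_cons] at h1
  obtain ⟨h2, h3, h4⟩ := h1
  refine ⟨h4, fun d hd => ?_⟩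
  have h5 := hp.mem_iff.1 (h.closed d (hp.mem_iff.2 (by simp [hd])))
  rw [List.mem_cons, List.mem_cons] at h5
  rcases h5 with h5 | h5 | h5
  · exfalso
    apply h3
    rw [← h5, o.op_op]
    exact hd
  · exfalso
    apply h2
    have : d = a := by rw [← o.op_op d, h5, o.op_op]
    rw [← this]
    exact List.mem_cons_of_mem _ hd
  · exact h5

theorem innermost (o : Op A) (R : List A) (n : ℕ) : ∀ (x u y : List A) (a : A), u.length ≤ n →
    R = x ++ a :: (u ++ o.op a :: y) → ∃ x a u y, R = x ++ a :: (u ++ o.op a :: y) ∧
      ∀ b ∈ u, o.op b ∉ u := by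
  induction n with
  | zero =>
    intro x u y a h1 h2
    have : u = [] := List.length_eq_zero_iff.1 (by omega)
    subst this
    exact ⟨x, a, [], y, h2, by simp⟩
  | succ n ih =>
    intro x u y a h1 h2
    by_cases h3 : ∀ b ∈ u, o.op b ∉ u
    · exact ⟨x, a, u, y, h2, h3⟩
    · push Not at h3
      obtain ⟨b, hb, hb'⟩ := h3
      obtain ⟨p, q, rfl⟩ := List.append_of_mem hb
      rw [List.mem_append, List.mem_cons] at hb'
      rcases hb' with hb' | hb' | hb'
      · obtain ⟨p1, p2, rfl⟩ := List.append_of_mem hb'
        refine ih (x ++ a :: p1) p2 (q ++ o.op a :: y) (o.op b) (by simp at h1; omega) ?_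
        rw [h2, o.op_op]
        simp
      · exact absurd hb' (o.ne b)
      · obtain ⟨q1, q2, rfl⟩ := List.append_of_mem hb'
        refine ih (x ++ a :: p) q1 (q2 ++ o.op a :: y) b (by simp at h1; omega) ?_
        rw [h2]
        simp

theorem quad (m : ℕ) : ∀ l, l ≤ m → ∀ 𝓡 : Sys A, (flat 𝓡).length = l → Good o 𝓡 →
    PB o 𝓡 (bd m l) := by
  intro l
  induction l using Nat.strong_induction_on with
  | _ l ih =>
    intro hlm 𝓡 hl hG
    by_cases h0 : flat 𝓡 = []
    · rw [h0] at hl
      subst hl
      exact free_case h0
    · -- a nonempty relator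
      have h1 : ∃ p ∈ 𝓡, p.1 ≠ [] := by
        by_contra h1
        push Not at h1
        apply h0
        unfold flat
        rw [List.flatMap_eq_nil_iff]
        exact h1
      obtain ⟨⟨R, s⟩, hR, hR0⟩ := h1
      obtain ⟨l1, l2, h2⟩ := List.append_of_mem hR
      have hp : 𝓡.Perm ((R, s) :: (l1 ++ l2)) := by
        rw [h2]
        exact List.perm_middle
      have hG' := hG.perm hp
      have hl' : (flat ((R, s) :: (l1 ++ l2))).length = l := by rw [← hl, (flat_perm hp).length_eq]
      refine PB.congr (𝓡' := (R, s) :: (l1 ++ l2)) (fun q => hp.mem_iff) ?_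
      generalize l1 ++ l2 = rest at hG' hl'
      clear h2 hR hp hG hl h0
      simp only at hR0
      rw [flat_cons] at hl'
      by_cases hc : ∃ c ∈ R, o.op c ∉ R
      · -- a letter occurring in two relators
        obtain ⟨c, hc1, hc2⟩ := hc
        have h3 := hG'.closed c (by rw [flat_cons]; exact List.mem_append_left _ hc1)
        rw [flat_cons, List.mem_append] at h3
        have h4 : o.op c ∈ flat rest := h3.resolve_left hc2
        obtain ⟨⟨R2, s2⟩, hR2, hc3⟩ := List.mem_flatMap.1 h4
        simp only at hc3
        obtain ⟨m1, m2, h5⟩ := List.append_of_mem hR2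
        obtain ⟨x1, y1, h6⟩ := List.append_of_mem hc1
        obtain ⟨x2, y2, h7⟩ := List.append_of_mem hc3
        have hp2 : ((R, s) :: rest).Perm
            ((x1 ++ c :: y1, s) :: (x2 ++ o.op c :: y2, s2) :: (m1 ++ m2)) := by
          rw [h5, ← h6, ← h7]
          exact (List.perm_middle).cons _
        have hG2 := hG'.perm hp2
        have hl2 : (flat ((x1 ++ c :: y1, s) :: (x2 ++ o.op c :: y2, s2) :: (m1 ++ m2))).length =
            l := by
          rw [← (flat_perm hp2).length_eq, flat_cons]
          exact hl'
        refine PB.congr (fun q => hp2.mem_iff) ?_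
        have hp3 : (flat ((x1 ++ c :: y1, s) :: (x2 ++ o.op c :: y2, s2) :: (m1 ++ m2))).Perm
            (c :: o.op c :: flat ((y1 ++ x1 ++ y2 ++ x2, s + s2) :: (m1 ++ m2))) := by
          classical
          rw [flat_cons, flat_cons, flat_cons, List.perm_iff_count]
          intro d
          simp only [List.count_append, List.count_cons]
          omega
        have hl3 := hp3.length_eq
        simp only [List.length_cons] at hl3
        have hG3 := hG2.drop hp3
        have hIH := ih (flat ((y1 ++ x1 ++ y2 ++ x2, s + s2) :: (m1 ++ m2))).length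
          (by omega) (by omega) _ rfl hG3
        refine (caseA (m := m) (by rw [hl2]; exact hlm) hG2.nodup (bd_slope m _).mono
          (bd_slope m _).le hIH).mono fun n => ?_
        exact (st_le (bd_slope m _) m n).trans (bd_step (by omega))
      · -- all letters have their partners in the same relator
        push Not at hc
        obtain ⟨c, hc1⟩ := List.exists_mem_of_ne_nil _ hR0
        have hinn : ∃ x a u y, R = x ++ a :: (u ++ o.op a :: y) ∧ ∀ b ∈ u, o.op b ∉ u := by
          obtain ⟨p, q, h6⟩ := List.append_of_mem hc1
          have h7 := hc c hc1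
          rw [h6, List.mem_append, List.mem_cons] at h7
          rcases h7 with h7 | h7 | h7
          · obtain ⟨p1, p2, rfl⟩ := List.append_of_mem h7
            refine innermost o R p2.length p1 p2 q (o.op c) le_rfl ?_
            rw [h6, o.op_op]
            simp
          · exact absurd h7 (o.ne c)
          · obtain ⟨q1, q2, rfl⟩ := List.append_of_mem h7
            exact innermost o R q1.length p q1 q2 c le_rfl (by rw [h6])
        obtain ⟨x, a, u, y, hRe, hu⟩ := hinn
        have hnd := hG'.nodup
        rw [flat_cons, List.nodup_append] at hnd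
        simp only at hnd
        obtain ⟨hnd1, hnd2, hnd3⟩ := hnd
        by_cases hu0 : u = []
        · subst hu0
          rw [List.nil_append] at hRe
          subst hRe
          have hp3 : (flat ((x ++ a :: o.op a :: y, s) :: rest)).Perm
              (a :: o.op a :: flat ((x ++ y, s) :: rest)) := by
            classical
            rw [flat_cons, flat_cons, List.perm_iff_count]
            intro d
            simp only [List.count_append, List.count_cons]
            omega
          have hl4 : (flat ((x ++ a :: o.op a :: y, s) :: rest)).length = l := by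
            rw [flat_cons]; exact hl'
          have hl3 := hp3.length_eq
          rw [hl4] at hl3
          simp only [List.length_cons] at hl3
          have hG3 := hG'.drop hp3
          have hIH := ih (flat ((x ++ y, s) :: rest)).length (by omega) (by omega) _ rfl hG3
          refine (caseB (m := m) (by rw [hl4]; exact hlm) (bd_slope m _).mono
            (bd_slope m _).le hIH).mono fun n => ?_
          exact (st_le (bd_slope m _) m n).trans (bd_step (by omega))
        · have hGr : Good o rest := by
            refine ⟨hnd2, fun d hd => ?_⟩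
            have h3 := hG'.closed d (by rw [flat_cons]; exact List.mem_append_right _ hd)
            rw [flat_cons, List.mem_append] at h3
            refine h3.resolve_left fun h4 => ?_
            have h5 := hc _ h4
            rw [o.op_op] at h5
            exact hnd3 d h5 d hd rfl
          have hmemu : ∀ b ∈ u, b ∈ R := fun b hb => by rw [hRe]; simp [hb]
          have hma : a ∈ R := by rw [hRe]; simp
          have hR' : ∀ b ∈ R, b ∉ flat rest := fun b hb hb' => hnd3 b hb b hb' rfl
          have H : CC o x y u a rest := by
            refine ⟨?_, hu, hu0, ?_, ?_, ?_⟩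
            · rw [← hRe]; exact hnd1
            · intro b hb
              have h3 := hc b (hmemu b hb)
              rw [hRe] at h3 hnd1
              simp only [List.mem_append, List.mem_cons] at h3
              rcases h3 with h3 | h3 | h3 | h3 | h3
              · exact Or.inl h3
              · exfalso
                -- b = op a
                have : b = o.op a := by rw [← h3, o.op_op]
                rw [this] at hb
                have hp : (x ++ a :: (u ++ o.op a :: y)).Perm (a :: o.op a :: (u ++ (x ++ y))) := by
                  classical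
                  rw [List.perm_iff_count]
                  intro c
                  simp only [List.count_append, List.count_cons]
                  omega
                have h := hp.nodup_iff.1 hnd1
                rw [List.nodup_cons, List.nodup_cons] at h
                exact h.2.1 (by simp [hb])
              · exact absurd h3 (hu b hb)
              · exfalso
                have : b = a := by rw [← o.op_op b, h3, o.op_op]
                rw [this] at hb
                have hp : (x ++ a :: (u ++ o.op a :: y)).Perm (a :: o.op a :: (u ++ (x ++ y))) := by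
                  classical
                  rw [List.perm_iff_count]
                  intro c
                  simp only [List.count_append, List.count_cons]
                  omega
                have h := hp.nodup_iff.1 hnd1
                rw [List.nodup_cons, List.nodup_cons] at h
                exact h.1 (by simp [hb])
              · exact Or.inr h3
            · intro b hb
              exact ⟨hR' b (hmemu b hb), hR' _ (hc b (hmemu b hb))⟩
            · exact ⟨hR' a hma, hR' _ (hc a hma)⟩
          have hRl : (x ++ a :: (u ++ o.op a :: y)).length = R.length := by rw [← hRe]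
          have hR2 : 2 ≤ R.length := by
            rw [← hRl]
            simp only [List.length_append, List.length_cons]
            omega
          rw [List.length_append] at hl'
          simp only at hl'
          have hIH := ih (flat rest).length (by omega) (by omega) _ rfl hGr
          have h9 := H.caseC s (m := m) (by omega) (bd_slope m _) hIH
          rw [← hRe] at h9
          exact h9.mono fun n => bd_step (by omega)

/-- **Bounded derivations in quadratic groups.** -/
theorem quad_bound (hG : Good o 𝓡) (w : List (Option A)) (hw : val o 𝓡 w = 1) :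
    GR (Rh o 𝓡) (bd (flat 𝓡).length (flat 𝓡).length w.length) w [] :=
  quad _ _ le_rfl 𝓡 rfl hG w hw

end Pool.Agent.Helper2GI.Qd
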