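import Mathlib

/-!
Words with decorations: the combinatorics of cube complexes with decorated corners.
-/

set_option autoImplicit false

namespace Pool.Agent.Helper2GI.Sf

/-- colours with an adjacency relation and a cocycle, exact up to central elements of order two -/
structure Dc (H F : Type) [Group H] where
  C : Subgroup H
  cent : ∀ j ∈ C, ∀ h : H, j * h = h * j
  two : ∀ j ∈ C, j * j = 1
  adj : F → F → Prop
  symm : ∀ {f g : F}, adj f g → adj g f
  irr : ∀ f : F, ¬ adj f f
  δ : F → F → H
  inv : ∀ {f g : F}, adj f g → δ f g * δ g f = 1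
  tri : ∀ {f g k : F}, adj f g → adj g k → adj f k → δ f g * δ g k * δ k f ∈ C

/-- decorated words -/
inductive Wd (H F : Type) : Type
  | nil (c : H) : Wd H F
  | cons (h : H) (f : F) (w : Wd H F) : Wd H F

variable {H F : Type} [Group H]

namespace Wd

/-- length -/
def len : Wd H F → ℕ
  | nil _ => 0
  | cons _ _ w => w.len + 1

/-- multiplication of the first decoration -/
def sg (j : H) : Wd H F → Wd H F
  | nil c => nil (j * c)
  | cons h f w => cons (j * h) f w

/-- multiplication of the first decoration, if there is one -/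
def tr (k : H) : Wd H F → Wd H F
  | nil c => nil c
  | cons h f w => cons (k * h) f w

omit [Group H] in
@[simp] theorem len_nil (c : H) : (nil c : Wd H F).len = 0 := rfl
omit [Group H] in
@[simp] theorem len_cons (h : H) (f : F) (w : Wd H F) : (cons h f w).len = w.len + 1 := rfl
@[simp] theorem sg_nil (j c : H) : (nil c : Wd H F).sg j = nil (j * c) := rfl
@[simp] theorem sg_cons (j h : H) (f : F) (w : Wd H F) : (cons h f w).sg j = cons (j * h) f w := rfl
@[simp] theorem tr_nil (j c : H) : (nil c : Wd H F).tr j = nil c := rfl
@[simp] theorem tr_cons (j h : H) (f : F) (w : Wd H F) : (cons h f w).tr j = cons (j * h) f w := rfl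

@[simp] theorem len_sg (j : H) (w : Wd H F) : (w.sg j).len = w.len := by cases w <;> rfl
@[simp] theorem len_tr (j : H) (w : Wd H F) : (w.tr j).len = w.len := by cases w <;> rfl

theorem sg_sg (j k : H) (w : Wd H F) : (w.sg k).sg j = w.sg (j * k) := by
  cases w <;> simp [mul_assoc]

theorem tr_tr (j k : H) (w : Wd H F) : (w.tr k).tr j = w.tr (j * k) := by
  cases w <;> simp [mul_assoc]

@[simp] theorem sg_one (w : Wd H F) : w.sg 1 = w := by cases w <;> simp
@[simp] theorem tr_one (w : Wd H F) : w.tr 1 = w := by cases w <;> simp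

end Wd

open Wd

variable (D : Dc H F)

namespace Dc

/-- the cocycle at a vertex of given parity -/
def d (n : ℕ) (f g : F) : H := if n % 2 = 0 then 1 else D.δ f g

theorem d_two (n : ℕ) (f g : F) : D.d (n + 2) f g = D.d n f g := by
  unfold d
  rw [Nat.add_mod_right]

variable {D}

theorem d_inv (n : ℕ) {f g : F} (h : D.adj f g) : D.d n f g * D.d n g f = 1 := by
  unfold d
  split_ifs
  · simp
  · exact D.inv h

variable (D) in
/-- the defect of a triangle -/
def s (n : ℕ) (f g k : F) : H := D.d n f g * D.d n g k * D.d n k f

theorem s_mem (n : ℕ) {f g k : F} (h1 : D.adj f g) (h2 : D.adj g k) (h3 : D.adj f k) :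
    D.s n f g k ∈ D.C := by
  unfold s d
  split_ifs
  · simp
  · exact D.tri h1 h2 h3

theorem s_rot (n : ℕ) {f g k : F} (h1 : D.adj f g) (h2 : D.adj g k) (h3 : D.adj f k) :
    D.s n g k f = D.s n f g k := by
  have h4 := D.cent _ (s_mem n h1 h2 h3) (D.d n f g)
  have h5 : D.d n f g * D.s n g k f = D.s n f g k * D.d n f g := by
    unfold s
    group
  rw [h4] at h5
  exact mul_left_cancel h5

theorem inv_of_mem {j : H} (h : j ∈ D.C) : j⁻¹ = j := inv_eq_of_mul_eq_one_right (D.two j h)

theorem d_inv' (n : ℕ) {f g : F} (h : D.adj f g) : (D.d n f g)⁻¹ = D.d n g f :=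
  inv_eq_of_mul_eq_one_right (d_inv n h)

theorem s_rev (n : ℕ) {f g k : F} (h1 : D.adj f g) (h2 : D.adj g k) (h3 : D.adj f k) :
    D.s n f k g = D.s n f g k := by
  have h4 := inv_of_mem (s_mem n h1 h2 h3)
  rw [← h4]
  unfold s
  rw [mul_inv_rev, mul_inv_rev, d_inv' n h1, d_inv' n h2, d_inv' n (D.symm h3), mul_assoc]

/-- composition -/
theorem d_mul (n : ℕ) {f g k : F} (h1 : D.adj f g) (h2 : D.adj g k) (h3 : D.adj f k) :
    D.d n f g * D.d n g k = D.d n f k * D.s n f g k := by
  have h4 := D.cent _ (s_mem n h1 h2 h3) (D.d n f k)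
  rw [← h4]
  unfold s
  rw [mul_assoc, d_inv n (D.symm h3), mul_one]

/-- elementary moves -/
inductive Fl (D : Dc H F) : Wd H F → Wd H F → Prop
  | flip (h : H) {f g : F} (w : Wd H F) : D.adj f g →
      Fl D (cons h f (cons (D.d (w.len + 1) f g) g w))
        (cons (h * D.d w.len f g) g (cons (D.d (w.len + 1) g f) f (w.tr (D.d w.len f g))))
  | shift (h : H) {j : H} (f : F) (w : Wd H F) : j ∈ D.C →
      Fl D (cons (h * j) f w) (cons h f (w.sg j))
  | cons (h : H) (f : F) {w w' : Wd H F} : Fl D w w' → Fl D (cons h f w) (cons h f w')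

variable (D) in
/-- equivalence -/
def E : Wd H F → Wd H F → Prop := Relation.ReflTransGen (Fl D)

theorem tr_sg {j : H} (hj : j ∈ D.C) (k : H) (w : Wd H F) : (w.sg j).tr k = (w.tr k).sg j := by
  cases w with
  | nil => rfl
  | cons h f w => simp only [sg_cons, tr_cons, ← mul_assoc, D.cent j hj k]

theorem Fl.symm {w w' : Wd H F} (h : Fl D w w') : Fl D w' w := by
  induction h with
  | flip h w hfg =>
    rename_i f g
    have h1 := Fl.flip (D := D) (h * D.d w.len f g) (w.tr (D.d w.len f g)) (D.symm hfg)
    rw [len_tr, mul_assoc, d_inv _ hfg, mul_one, tr_tr, d_inv _ (D.symm hfg), tr_one] at h1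
    exact h1
  | shift h f w hj =>
    rename_i j
    have h1 := Fl.shift (D := D) (h * j) (j := j⁻¹) f (w.sg j) (D.C.inv_mem hj)
    rw [mul_inv_cancel_right, sg_sg, inv_mul_cancel, sg_one] at h1
    exact h1
  | cons h f _ ih => exact Fl.cons h f ih

theorem Fl.len {w w' : Wd H F} (h : Fl D w w') : w.len = w'.len := by
  induction h with
  | flip => simp
  | shift => simp
  | cons _ _ _ ih => simp [ih]

theorem Fl.tr (k : H) {w w' : Wd H F} (h : Fl D w w') : Fl D (w.tr k) (w'.tr k) := by
  cases h with
  | flip h w hfg =>
    simp only [tr_cons]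
    rw [← mul_assoc]
    exact Fl.flip _ _ hfg
  | shift h f w hj =>
    simp only [tr_cons]
    rw [← mul_assoc]
    exact Fl.shift _ _ _ hj
  | cons h f h1 => exact Fl.cons _ _ h1

theorem Fl.sg (k : H) {w w' : Wd H F} (h : Fl D w w') : Fl D (w.sg k) (w'.sg k) := by
  have h1 := h.tr k
  cases h <;> exact h1

theorem E.refl (w : Wd H F) : D.E w w := Relation.ReflTransGen.refl

theorem E.symm {l l' : Wd H F} (h : D.E l l') : D.E l' l := by
  induction h with
  | refl => exact Relation.ReflTransGen.refl
  | tail _ h2 ih => exact Relation.ReflTransGen.head (Fl.symm h2) ih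

theorem E.trans {l l' l'' : Wd H F} (h : D.E l l') (h' : D.E l' l'') : D.E l l'' :=
  Relation.ReflTransGen.trans h h'

theorem E.of {l l' : Wd H F} (h : Fl D l l') : D.E l l' := Relation.ReflTransGen.single h

theorem E.cons (h : H) (f : F) {l l' : Wd H F} (hl : D.E l l') : D.E (cons h f l) (cons h f l') := by
  induction hl with
  | refl => exact E.refl _
  | tail _ h2 ih => exact ih.trans (E.of (Fl.cons h f h2))

theorem E.len {l l' : Wd H F} (h : D.E l l') : l.len = l'.len := by
  induction h with
  | refl => rfl
  | tail _ h2 ih => rw [ih, h2.len]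

theorem E.tr (k : H) {l l' : Wd H F} (h : D.E l l') : D.E (l.tr k) (l'.tr k) := by
  induction h with
  | refl => exact E.refl _
  | tail _ h2 ih => exact ih.trans (E.of (h2.tr k))

theorem E.sg (k : H) {l l' : Wd H F} (h : D.E l l') : D.E (l.sg k) (l'.sg k) := by
  induction h with
  | refl => exact E.refl _
  | tail _ h2 ih => exact ih.trans (E.of (h2.sg k))

theorem E.shift (h : H) {j : H} (f : F) (w : Wd H F) (hj : j ∈ D.C) :
    D.E (Wd.cons (h * j) f w) (Wd.cons h f (w.sg j)) := E.of (Fl.shift h f w hj)

theorem E.shift' (h : H) {j : H} (f : F) (w : Wd H F) (hj : j ∈ D.C) :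
    D.E (Wd.cons (j * h) f w) (Wd.cons h f (w.sg j)) := by
  rw [D.cent j hj h]
  exact E.shift h f w hj

/-- moving back a translation by a central element -/
theorem E.of_sg {j : H} (hj : j ∈ D.C) {l l' : Wd H F} (h : D.E (l.sg j) l') : D.E l (l'.sg j) := by
  have h1 := h.sg j
  rwa [sg_sg, D.two j hj, sg_one] at h1

theorem E.of_tr (n : ℕ) {f g : F} (hfg : D.adj f g) {l l' : Wd H F}
    (h : D.E (l.tr (D.d n f g)) l') : D.E l (l'.tr (D.d n g f)) := by
  have h1 := h.tr (D.d n g f)
  rwa [tr_tr, d_inv _ (D.symm hfg), tr_one] at h1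

/-- splitting off a central element of a translation -/
theorem tr_mul_mem {j : H} (hj : j ∈ D.C) (a : H) (w : Wd H F) (h : w.len = 0 → j = 1) :
    w.tr (a * j) = (w.tr a).sg j := by
  cases w with
  | nil c => rw [h rfl]; simp
  | cons h f w =>
    simp only [tr_cons, sg_cons, ← mul_assoc, D.cent j hj a]

theorem s_zero (f g k : F) : D.s 0 f g k = 1 := by
  unfold s d
  simp

variable (D) in
/-- conclusion of the key lemma -/
def KL (h : H) (f : F) (u : Wd H F) (h' : H) (g : F) (v : Wd H F) : Prop :=
  (f = g ∧ ∃ j ∈ D.C, h' = h * j ∧ D.E u (v.sg j)) ∨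
  (D.adj f g ∧ ∃ j ∈ D.C, ∃ q : Wd H F, u.len = q.len + 1 ∧ h' = h * D.d q.len f g * j ∧
    D.E u (cons (D.d (q.len + 1) f g) g q) ∧
    D.E (v.sg j) (cons (D.d (q.len + 1) g f) f (q.tr (D.d q.len f g))))

theorem key : ∀ (n : ℕ) (u : Wd H F) (h : H) (f : F) (h' : H) (g : F) (v : Wd H F), u.len = n →
    D.E (cons h f u) (cons h' g v) → D.KL h f u h' g v := by
  intro n
  induction n using Nat.strong_induction_on with
  | _ n IH =>
  intro u h f h' g v hu hE
  suffices K : ∀ w : Wd H F, D.E (cons h f u) w → ∀ h' g v, w = cons h' g v → D.KL h f u h' g v from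
    K _ hE _ _ _ rfl
  clear hE h' g v
  intro w hE
  induction hE with
  | refl =>
    intro h' g v hw
    simp only [Wd.cons.injEq] at hw
    obtain ⟨rfl, rfl, rfl⟩ := hw
    exact Or.inl ⟨rfl, 1, D.C.one_mem, by simp, by simpa using E.refl _⟩
  | tail h1 h2 ih =>
    rename_i w1 w2
    intro h' g v hw
    subst hw
    have hlen : w1.len = u.len + 1 := by
      have := E.len h1
      simp at this
      omega
    cases h2 with
    | cons _ _ h3 =>
      rename_i l
      rcases ih h' g l rfl with ⟨h4, j, hj, h5, h6⟩ | ⟨h4, j, hj, q, h5, h6, h7, h8⟩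
      · exact Or.inl ⟨h4, j, hj, h5, h6.trans ((E.of h3).sg j)⟩
      · exact Or.inr ⟨h4, j, hj, q, h5, h6, h7, ((E.of h3).sg j).symm.trans h8⟩
    | shift _ _ l hj' =>
      rename_i j'
      rcases ih (h' * j') g l rfl with ⟨h4, j, hj, h5, h6⟩ | ⟨h4, j, hj, q, h5, h6, h7, h8⟩
      · refine Or.inl ⟨h4, j * j'⁻¹, D.C.mul_mem hj (D.C.inv_mem hj'), ?_, ?_⟩
        · rw [← mul_assoc, ← h5, mul_inv_cancel_right]
        · rw [sg_sg, inv_mul_cancel_right]
          exact h6
      · refine Or.inr ⟨h4, j * j'⁻¹, D.C.mul_mem hj (D.C.inv_mem hj'), q, h5, ?_, h7, ?_⟩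
        · rw [← mul_assoc, ← h6, mul_inv_cancel_right]
        · rw [sg_sg, inv_mul_cancel_right]
          exact h8
    | flip k l hg0 =>
      rename_i g0
      have hm : u.len = l.len + 1 := by simpa using hlen.symm
      rcases ih k g0 _ rfl with ⟨h4, j, hj, h5, h6⟩ | ⟨h4, j, hj, q, h5, h6, h7, h8⟩
      · subst h4
        refine Or.inr ⟨hg0, j, hj, l.sg j, by simpa using hm, ?_, ?_, ?_⟩
        · rw [len_sg, h5, mul_assoc, D.cent j hj, ← mul_assoc]
        · rw [len_sg]
          refine h6.trans ?_
          rw [sg_cons]
          exact E.shift' _ _ _ hj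
        · rw [len_sg, sg_cons, tr_sg hj]
          exact E.shift' _ _ _ hj
      · have hql : q.len = l.len := by omega
        rw [hql] at h6 h7 h8
        rw [sg_cons] at h8
        rcases IH l.len (by omega) l _ g _ f _ rfl h8 with
          ⟨h9, j1, hj1, h10, h11⟩ | ⟨h9, j1, hj1, q1, h10, h11, h12, h13⟩
        · subst h9
          have hjj : j * j1 = 1 := by
            rw [mul_assoc, ← D.cent j1 hj1, ← mul_assoc] at h10
            exact (mul_eq_right.1 h10.symm)
          refine Or.inl ⟨rfl, j, hj, ?_, ?_⟩
          · rw [h6, mul_assoc (h * D.d l.len g g0), D.cent j hj, ← mul_assoc, mul_assoc h,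
              d_inv _ (D.symm hg0), mul_one]
          · rw [sg_cons]
            refine h7.trans (E.symm ?_)
            refine (E.shift' _ _ _ hj).trans (E.cons _ _ ?_)
            have h14 := (h11.tr (D.d l.len g0 g)).sg j
            rw [tr_sg hj1, tr_tr, d_inv _ hg0, tr_one, sg_sg, hjj, sg_one] at h14
            exact h14
        · have hfg : D.adj f g := D.symm h9
          set p := q1.len with hp
          have hlp : l.len = p + 1 := h10
          have hd2 : ∀ a b : F, D.d (l.len + 1) a b = D.d p a b := by
            intro a b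
            rw [hlp, D.d_two]
          rw [hd2, hd2] at h11
          have hmp : D.d (p + 1) = D.d l.len := by rw [hlp]
          rw [hmp] at h12 h13
          set m := l.len with hmdef
          -- signs
          set S := D.s m f g0 g with hS
          set T := D.s p f g0 g with hT
          have hSm : S ∈ D.C := s_mem m h4 hg0 hfg
          have hTm : T ∈ D.C := s_mem p h4 hg0 hfg
          have hg0f : D.adj g0 f := D.symm h4
          have hgg0 : D.adj g g0 := D.symm hg0
          have e1 : ∀ n, D.s n g0 g f = D.s n f g0 g := fun n => s_rot n h4 hg0 hfg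
          have e2 : ∀ n, D.s n g f g0 = D.s n f g0 g := fun n =>
            (s_rot n hg0 h9 hg0f).trans (e1 n)
          have e3 : ∀ n, D.s n f g g0 = D.s n f g0 g := fun n => s_rev n h4 hg0 hfg
          have e4 : ∀ n, D.s n g g0 f = D.s n f g0 g := fun n =>
            (s_rot n hfg hgg0 h4).trans (e3 n)
          have e5 : ∀ n, D.s n g0 f g = D.s n f g0 g := fun n =>
            (s_rot n hgg0 hg0f h9).trans (e4 n)
          have m1 : D.d m f g0 * D.d m g0 g = D.d m f g * S := d_mul m h4 hg0 hfg
          have m2 : D.d m g0 f * D.d m f g = D.d m g0 g * S := by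
            rw [d_mul m hg0f hfg hg0, e5]
          have m3 : D.d p f g0 * D.d p g0 g = D.d p f g * T := d_mul p h4 hg0 hfg
          have m4 : D.d m g0 g * D.d m g f = D.d m g0 f * S := by
            rw [d_mul m hg0 h9 hg0f, e1]
          have m5 : D.d p g g0 * D.d p g0 f = D.d p g f * T := by
            rw [d_mul p hgg0 hg0f h9, e4]
          have m6 : D.d m f g * D.d m g g0 = D.d m f g0 * S := by
            rw [d_mul m hfg hgg0 h4, e3]
          have m7 : D.d p g0 g * D.d p g f = D.d p g0 f * T := by
            rw [d_mul p hg0 h9 hg0f, e1]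
          have hjT : j * j1 = T := by
            have h14 : D.d p g0 f = D.d p g0 f * (j * T * j1) := by
              calc D.d p g0 f = j * D.d p g0 g * D.d p g f * j1 := h11
                _ = j * (D.d p g0 g * D.d p g f) * j1 := by group
                _ = j * (D.d p g0 f * T) * j1 := by rw [m7]
                _ = (j * D.d p g0 f) * T * j1 := by group
                _ = (D.d p g0 f * j) * T * j1 := by rw [D.cent j hj]
                _ = _ := by group
            have h15 : j * T * j1 = 1 := mul_eq_left.1 h14.symm
            have h16 : j * j1 * T = 1 := by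
              rw [mul_assoc, ← D.cent T hTm, ← mul_assoc]
              exact h15
            have h17 := mul_eq_one_iff_eq_inv.1 h16
            rwa [inv_of_mem hTm] at h17
          -- `q`
          have hq : D.E q (cons (D.d m g0 g) g ((q1.tr (D.d p g f)).sg (j1 * S))) := by
            have h14 := (E.of_tr m h4 (E.of_sg hj1 h13 |> fun x => x))
            rw [sg_cons, tr_cons] at h14
            refine h14.trans ?_
            have h15 : D.d m g0 f * (j1 * D.d m f g) = D.d m g0 g * (j1 * S) := by
              calc D.d m g0 f * (j1 * D.d m f g) = (D.d m g0 f * j1) * D.d m f g := by group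
                _ = (j1 * D.d m g0 f) * D.d m f g := by rw [D.cent j1 hj1]
                _ = j1 * (D.d m g0 f * D.d m f g) := by group
                _ = (j1 * D.d m g0 g) * S := by rw [m2]; group
                _ = (D.d m g0 g * j1) * S := by rw [D.cent j1 hj1]
                _ = _ := by group
            rw [h15]
            exact E.shift _ _ _ (D.C.mul_mem hj1 hSm)
          set Z := (q1.tr (D.d p g f)).sg (j1 * S) with hZ
          have hZl : Z.len = p := by rw [hZ, len_sg, len_tr]
          have hu2 : D.E u (cons (D.d p f g) g (cons (T * D.d m g g0) g0 (Z.tr (D.d p g0 g)))) := by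
            rw [hd2] at h7
            refine h7.trans ((E.cons _ _ hq).trans ?_)
            have h14 := Fl.flip (D := D) (D.d p f g0) Z hg0
            rw [hZl, hmp, m3] at h14
            refine (E.of h14).trans ?_
            have h15 := E.shift (D := D) (D.d p f g) g
              (cons (D.d m g g0) g0 (Z.tr (D.d p g0 g))) hTm
            rw [sg_cons] at h15
            exact h15
          refine Or.inr ⟨hfg, S * j, D.C.mul_mem hSm hj,
            cons (T * D.d m g g0) g0 (Z.tr (D.d p g0 g)), ?_, ?_, ?_, ?_⟩
          · simp only [len_cons, len_tr, hZl]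
            omega
          · simp only [len_cons, len_tr, hZl]
            rw [h6, ← hlp]
            calc h * D.d m f g0 * j * D.d m g0 g = h * D.d m f g0 * (j * D.d m g0 g) := by group
              _ = h * D.d m f g0 * (D.d m g0 g * j) := by rw [D.cent j hj]
              _ = h * (D.d m f g0 * D.d m g0 g) * j := by group
              _ = _ := by rw [m1]; group
          · simp only [len_cons, len_tr, hZl]
            rw [D.d_two]
            exact hu2
          · simp only [len_cons, len_tr, hZl]
            rw [← hlp, hd2, hd2, sg_cons, tr_cons]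
            -- left side
            have hl2 : D.E (cons (D.d p g g0) g0 (l.tr (D.d m g0 g)))
                (cons (D.d p g f) f (cons (T * D.d m f g0) g0 ((q1.sg S).tr (D.d p g0 f)))) := by
              have h14 := h12.tr (D.d m g0 g)
              rw [tr_cons, m4] at h14
              refine (E.cons _ _ (h14.trans (E.shift _ _ _ hSm))).trans ?_
              have h15 := Fl.flip (D := D) (D.d p g g0) (q1.sg S) hg0f
              rw [len_sg, ← hp, hmp, m5] at h15
              refine (E.of h15).trans ?_
              have h16 := E.shift (D := D) (D.d p g f) f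
                (cons (D.d m f g0) g0 ((q1.sg S).tr (D.d p g0 f))) hTm
              rw [sg_cons] at h16
              exact h16
            have hl3 := hl2.sg (S * j)
            rw [sg_cons, sg_cons] at hl3
            refine hl3.trans ((E.shift' _ _ _ (D.C.mul_mem hSm hj)).trans (E.cons _ _ ?_))
            rw [sg_cons]
            -- both sides
            have h17 : S * j * (T * D.d m f g0) = D.d m f g0 * (S * j * T) := by
              rw [← mul_assoc]
              exact D.cent _ (D.C.mul_mem (D.C.mul_mem hSm hj) hTm) _
            have h18 : D.d m f g * (T * D.d m g g0) = D.d m f g0 * (S * T) := by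
              calc D.d m f g * (T * D.d m g g0) = D.d m f g * (D.d m g g0 * T) := by
                    rw [D.cent T hTm]
                _ = (D.d m f g * D.d m g g0) * T := by group
                _ = _ := by rw [m6]; group
            rw [h17, h18]
            refine (E.shift _ _ _ (D.C.mul_mem (D.C.mul_mem hSm hj) hTm)).trans
              (E.symm ((E.shift _ _ _ (D.C.mul_mem hSm hTm)).trans ?_))
            rw [hZ, tr_sg (D.C.mul_mem hj1 hSm), tr_tr, m7, tr_mul_mem hTm _ _ ?_,
              tr_sg hSm, sg_sg, sg_sg, sg_sg]
            · have h19 : S * T * (j1 * S) * T = S * j * T * S := by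
                have c1 : j1 * S = S * j1 := D.cent j1 hj1 S
                have c2 : T * S = S * T := D.cent T hTm S
                have c3 : S * S = 1 := D.two S hSm
                have c4 : T * T = 1 := D.two T hTm
                have c5 : T * j1 = j1 * T := D.cent T hTm j1
                have c6 : j = T * j1 := by
                  rw [← hjT, mul_assoc, D.two j1 hj1, mul_one]
                calc S * T * (j1 * S) * T = S * T * (S * j1) * T := by rw [c1]
                  _ = S * (T * S) * j1 * T := by group
                  _ = S * (S * T) * j1 * T := by rw [c2]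
                  _ = (S * S) * (T * j1) * T := by group
                  _ = (T * j1) * T := by rw [c3, one_mul]
                  _ = j * T := by rw [← c6]
                  _ = (S * S) * (j * T) := by rw [c3, one_mul]
                  _ = S * (S * (j * T)) := by group
                  _ = S * ((j * T) * S) := by
                    rw [← D.cent (j * T) (D.C.mul_mem hj hTm) S]
                  _ = _ := by group
              rw [h19]
              exact E.refl _
            · intro h20
              have hp0 : p = 0 := h20
              rw [hT, hp0]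
              exact s_zero _ _ _

theorem cancel {h : H} {f : F} {u v : Wd H F} (hE : D.E (cons h f u) (cons h f v)) : D.E u v := by
  rcases key _ _ _ _ _ _ _ rfl hE with ⟨_, j, hj, h1, h2⟩ | ⟨h1, _⟩
  · have h3 : j = 1 := mul_eq_left.1 h1.symm
    rw [h3, sg_one] at h2
    exact h2
  · exact absurd h1 (D.irr f)

end Dc

end Pool.Agent.Helper2GI.Sf
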