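import Mathlib
import Pool.Agent.Helper2GI.Sf1

/-!
Reduced decorated words and the action of the colours on their classes.
-/

set_option autoImplicit false

namespace Pool.Agent.Helper2GI.Sf

open Wd

variable {H F : Type} [Group H] {D : Dc H F}

namespace Dc

variable (D) in
/-- words with a backtracking -/
inductive HasBack : Wd H F → Prop
  | here (h : H) (f : F) {j : H} (w : Wd H F) : j ∈ D.C → HasBack (cons h f (cons j f w))
  | there (h : H) (f : F) {w : Wd H F} : HasBack w → HasBack (cons h f w)

theorem HasBack.tr (k : H) {w : Wd H F} (h : D.HasBack w) : D.HasBack (w.tr k) := by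
  cases h with
  | here h f w hj => exact HasBack.here _ _ _ hj
  | there h f h1 => exact HasBack.there _ _ h1

theorem HasBack.sg (k : H) {w : Wd H F} (h : D.HasBack w) : D.HasBack (w.sg k) := by
  cases h with
  | here h f w hj => exact HasBack.here _ _ _ hj
  | there h f h1 => exact HasBack.there _ _ h1

variable (D) in
/-- reduced words -/
def Red (m : Wd H F) : Prop := ∀ w, D.E m w → ¬ D.HasBack w

theorem Red.congr {m m' : Wd H F} (h : D.Red m) (e : D.E m m') : D.Red m' :=
  fun w hw => h w (e.trans hw)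

theorem Red.tail {h : H} {f : F} {m : Wd H F} (hr : D.Red (Wd.cons h f m)) : D.Red m :=
  fun w hw hb => hr (Wd.cons h f w) (hw.cons h f) (HasBack.there h f hb)

theorem Red.tr (k : H) {m : Wd H F} (hr : D.Red m) : D.Red (m.tr k) := by
  intro w hw hb
  have h1 := hw.tr k⁻¹
  rw [tr_tr, inv_mul_cancel, tr_one] at h1
  exact hr _ h1 (hb.tr _)

theorem Red.sg (k : H) {m : Wd H F} (hr : D.Red m) : D.Red (m.sg k) := by
  intro w hw hb
  have h1 := hw.sg k⁻¹
  rw [sg_sg, inv_mul_cancel, sg_one] at h1
  exact hr _ h1 (hb.sg _)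

theorem Red.dec {h : H} (h' : H) {f : F} {m : Wd H F} (hr : D.Red (Wd.cons h f m)) :
    D.Red (Wd.cons h' f m) := by
  have h1 := hr.tr (h' * h⁻¹)
  rwa [tr_cons, inv_mul_cancel_right] at h1

theorem red_nil (c : H) : D.Red (nil c) := by
  intro w hw hb
  have := E.len hw
  cases hb <;> simp at this

theorem not_red {m : Wd H F} (h : ¬ D.Red m) : ∃ w, D.E m w ∧ D.HasBack w := by
  unfold Red at h
  push Not at h
  exact h

theorem redStep : ∀ (n : ℕ) (m : Wd H F) (h : H) (f : F), m.len = n → D.Red m →
    ¬ D.Red (cons h f m) → ∃ m', D.E m (cons 1 f m') := by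
  intro n
  induction n using Nat.strong_induction_on with
  | _ n IH =>
  intro m h f hm hr hn
  obtain ⟨w, hw, hb⟩ := not_red hn
  cases hb with
  | here k x q hj0 =>
    rename_i j0
    rcases key _ _ _ _ _ _ _ rfl hw with ⟨h1, j, hj, h2, h3⟩ | ⟨h1, j, hj, p, h2, h3, h4, h5⟩
    · subst h1
      refine ⟨q.sg (j * j0), h3.trans ?_⟩
      rw [sg_cons]
      have := E.shift' (D := D) 1 f q (D.C.mul_mem hj hj0)
      rwa [mul_one] at this
    · exfalso
      rw [sg_cons] at h5
      rcases key _ _ _ _ _ _ _ rfl h5 with ⟨h6, _⟩ | ⟨h6, j2, hj2, p', h7, h8, h9, h10⟩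
      · rw [h6] at h1
        exact D.irr _ h1
      · have hlen := E.len h5
        simp only [len_cons, len_tr] at hlen
        have hpp : p.len = p'.len + 1 := by omega
        have h11 : D.E p (cons (j2 * 1) x ((p'.tr (D.d p'.len x f)))) := by
          have h12 := (E.of_tr p.len h1 (E.of_sg hj2 h10))
          rw [hpp] at h12
          rw [sg_cons, tr_cons, ← mul_assoc, ← D.cent j2 hj2, mul_assoc,
            d_inv _ h6] at h12
          exact h12
        rw [mul_one] at h11
        exact hr _ (h4.trans (E.cons _ _ h11)) (HasBack.here _ _ _ hj2)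
  | there k x hb =>
    rename_i w'
    rcases key _ _ _ _ _ _ _ rfl hw with ⟨h1, j, hj, h2, h3⟩ | ⟨h1, j, hj, p, h2, h3, h4, h5⟩
    · exact absurd (hb.sg j) (hr _ h3)
    · have hp : D.Red p := (hr.congr h4).tail
      have hnf : ¬ D.Red (cons (D.d (p.len + 1) x f) f (p.tr (D.d p.len f x))) :=
        fun hh => hh _ h5.symm (hb.sg j)
      obtain ⟨p', hp'⟩ := IH (p.tr (D.d p.len f x)).len (by rw [len_tr]; omega) _ _ f rfl
        (hp.tr _) hnf
      have h6 := E.of_tr _ h1 hp'
      rw [tr_cons, mul_one] at h6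
      have hpp : p.len = p'.len + 1 := by
        have := E.len h6
        simpa using this
      have h7 := Fl.flip (D := D) (D.d (p.len + 1) f x) p' (D.symm h1)
      have h8 : D.d (p.len + 1) f x * D.d p'.len x f = 1 := by
        rw [hpp, D.d_two, d_inv _ h1]
      rw [← hpp, h8] at h7
      exact ⟨_, (h4.trans (E.cons _ _ h6)).trans (E.of h7)⟩

variable (D) in
/-- classes of reduced words -/
def stR : Setoid {m : Wd H F // D.Red m} where
  r := fun u v => D.E u.1 v.1
  iseqv := ⟨fun u => E.refl u.1, fun h => h.symm, fun h h' => h.trans h'⟩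

variable (D) in
/-- the set of classes of reduced words -/
def Om : Type := Quotient D.stR

/-- the class of a reduced word -/
def cl (m : Wd H F) (h : D.Red m) : D.Om := Quotient.mk D.stR ⟨m, h⟩

theorem cl_eq {m m' : Wd H F} (h : D.Red m) (h' : D.Red m') (e : D.E m m') : cl m h = cl m' h' :=
  Quotient.sound (s := D.stR) e

theorem of_cl_eq {m m' : Wd H F} {h : D.Red m} {h' : D.Red m'} (e : cl m h = cl m' h') :
    D.E m m' := Quotient.exact (s := D.stR) e

theorem Om.ind' {P : D.Om → Prop} (h : ∀ m (hm : D.Red m), P (cl m hm)) (q : D.Om) : P q :=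
  Quotient.ind (fun x => h x.1 x.2) q

theorem exists_tail {f : F} {m : Wd H F} (h : D.Red m) (hn : ¬ D.Red (cons 1 f m)) :
    ∃ m', D.E m (cons 1 f m') := redStep _ m 1 f rfl h hn

open Classical in
/-- the action of a colour on representatives -/
noncomputable def actF (f : F) (m : {m : Wd H F // D.Red m}) : D.Om :=
  if h : D.Red (cons 1 f m.1) then cl (cons 1 f m.1) h
  else cl (Classical.choose (exists_tail m.2 h))
    ((m.2.congr (Classical.choose_spec (exists_tail m.2 h))).tail)

theorem actF_congr (f : F) (m m' : {m : Wd H F // D.Red m}) (e : D.E m.1 m'.1) :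
    actF f m = actF f m' := by
  unfold actF
  by_cases h : D.Red (cons 1 f m.1)
  · have h' : D.Red (cons 1 f m'.1) := h.congr (e.cons 1 f)
    rw [dif_pos h, dif_pos h']
    exact cl_eq _ _ (e.cons 1 f)
  · have h' : ¬ D.Red (cons 1 f m'.1) := fun h2 => h (h2.congr (e.symm.cons 1 f))
    rw [dif_neg h, dif_neg h']
    apply cl_eq
    have h3 := Classical.choose_spec (exists_tail m.2 h)
    have h4 := Classical.choose_spec (exists_tail m'.2 h')
    exact cancel ((h3.symm.trans e).trans h4)

/-- the action of a colour on classes of reduced words -/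
noncomputable def act (f : F) : D.Om → D.Om :=
  Quotient.lift (s := D.stR) (actF f) (fun m m' e => actF_congr f m m' e)

theorem act_red {f : F} {m : Wd H F} (hm : D.Red m) (h : D.Red (cons 1 f m)) :
    act f (cl m hm) = cl (cons 1 f m) h := by
  show actF f ⟨m, hm⟩ = _
  unfold actF
  rw [dif_pos h]

theorem red_tail' {f : F} {h : H} {m m' : Wd H F} (hm : D.Red m) (e : D.E m (cons h f m')) :
    D.Red m' := (hm.congr e).tail

theorem act_tail {f : F} {m m' : Wd H F} (hm : D.Red m) (e : D.E m (cons 1 f m')) :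
    act f (cl m hm) = cl m' (red_tail' hm e) := by
  show actF f ⟨m, hm⟩ = _
  have h : ¬ D.Red (cons 1 f m) := fun h => h _ (e.cons 1 f) (HasBack.here 1 f m' D.C.one_mem)
  unfold actF
  rw [dif_neg h]
  apply cl_eq
  have h3 := Classical.choose_spec (exists_tail hm h)
  exact cancel (h3.symm.trans e)

theorem act_act (f : F) (q : D.Om) : act f (act f q) = q := by
  induction q using Om.ind' with
  | h m hm =>
  by_cases h : D.Red (cons 1 f m)
  · rw [act_red hm h, act_tail h (E.refl _)]
  · obtain ⟨m', e⟩ := exists_tail hm h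
    rw [act_tail hm e]
    have h2 : D.Red (cons 1 f m') := hm.congr e
    rw [act_red _ h2]
    exact cl_eq _ _ e.symm

/-- translation on classes -/
def trO (k : H) : D.Om → D.Om :=
  Quotient.lift (s := D.stR) (fun m => cl (m.1.tr k) (m.2.tr k))
    (fun _ _ e => cl_eq _ _ (E.tr k e))

/-- signs on classes -/
def sgO (k : H) : D.Om → D.Om :=
  Quotient.lift (s := D.stR) (fun m => cl (m.1.sg k) (m.2.sg k))
    (fun _ _ e => cl_eq _ _ (E.sg k e))

theorem trO_cl (k : H) (m : Wd H F) (hm : D.Red m) : trO k (cl m hm) = cl (m.tr k) (hm.tr k) := rfl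

theorem sgO_cl (k : H) (m : Wd H F) (hm : D.Red m) : sgO k (cl m hm) = cl (m.sg k) (hm.sg k) := rfl

theorem trO_trO (k l : H) (q : D.Om) : trO k (trO l q) = trO (k * l) q := by
  induction q using Om.ind' with
  | h m hm =>
  rw [trO_cl, trO_cl, trO_cl]
  exact cl_eq _ _ (by rw [tr_tr]; exact E.refl _)

theorem trO_one (q : D.Om) : trO 1 q = q := by
  induction q using Om.ind' with
  | h m hm =>
  rw [trO_cl]
  exact cl_eq _ _ (by rw [tr_one]; exact E.refl _)

theorem sgO_sgO (k l : H) (q : D.Om) : sgO k (sgO l q) = sgO (k * l) q := by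
  induction q using Om.ind' with
  | h m hm =>
  rw [sgO_cl, sgO_cl, sgO_cl]
  exact cl_eq _ _ (by rw [sg_sg]; exact E.refl _)

theorem sgO_one (q : D.Om) : sgO 1 q = q := by
  induction q using Om.ind' with
  | h m hm =>
  rw [sgO_cl]
  exact cl_eq _ _ (by rw [sg_one]; exact E.refl _)

theorem act_sgO {j : H} (hj : j ∈ D.C) (f : F) (q : D.Om) : act f (sgO j q) = sgO j (act f q) := by
  induction q using Om.ind' with
  | h m hm =>
  rw [sgO_cl]
  have h1 : D.E (cons 1 f (m.sg j)) (cons j f m) := by
    have := E.shift' (D := D) 1 f m hj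
    rw [mul_one] at this
    exact this.symm
  by_cases h : D.Red (cons 1 f m)
  · have h' : D.Red (cons 1 f (m.sg j)) := (h.dec j).congr h1.symm
    rw [act_red _ h', act_red _ h, sgO_cl]
    refine cl_eq _ _ ?_
    rw [sg_cons, mul_one]
    exact h1
  · obtain ⟨m', e⟩ := exists_tail hm h
    have e2 : D.E (m.sg j) (cons 1 f (m'.sg j)) := by
      refine (e.sg j).trans ?_
      rw [sg_cons]
      exact E.shift' _ _ _ hj
    rw [act_tail _ e2, act_tail _ e]
    rfl

/-- length of a class -/
def lenO : D.Om → ℕ := Quotient.lift (s := D.stR) (fun m => m.1.len) (fun _ _ h => E.len h)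

@[simp] theorem lenO_cl (m : Wd H F) (hm : D.Red m) : lenO (cl m hm) = m.len := rfl

@[simp] theorem lenO_trO (k : H) (q : D.Om) : lenO (trO k q) = lenO q := by
  induction q using Om.ind' with
  | h m hm => simp [trO_cl]

@[simp] theorem lenO_sgO (k : H) (q : D.Om) : lenO (sgO k q) = lenO q := by
  induction q using Om.ind' with
  | h m hm => simp [sgO_cl]

theorem lenO_act (f : F) (q : D.Om) : lenO (act f q) = lenO q + 1 ∨ lenO (act f q) + 1 = lenO q := by
  induction q using Om.ind' with
  | h m hm =>
  by_cases h : D.Red (cons 1 f m)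
  · rw [act_red hm h]
    left
    simp
  · obtain ⟨m', e⟩ := exists_tail hm h
    rw [act_tail hm e]
    right
    have := E.len e
    simp at this
    simp [this]

theorem trO_mem (j : H) (q : D.Om) (h : lenO q ≠ 0) : trO j q = sgO j q := by
  induction q using Om.ind' with
  | h m hm =>
  rw [trO_cl, sgO_cl]
  cases m with
  | nil c => simp at h
  | cons a f m => rfl

theorem d_even {n : ℕ} (h : n % 2 = 0) (f g : F) : D.d n f g = 1 := by
  unfold d
  rw [if_pos h]

theorem d_odd {n : ℕ} (h : n % 2 = 1) (f g : F) : D.d n f g = D.δ f g := by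
  unfold d
  rw [if_neg (by omega)]

theorem flip_even {h : H} {f g : F} {w : Wd H F} (hfg : D.adj f g) (hw : w.len % 2 = 0) :
    D.E (cons h f (cons (D.δ f g) g w)) (cons h g (cons (D.δ g f) f w)) := by
  have h1 := Fl.flip (D := D) h w hfg
  rw [d_even hw, d_odd (by omega), d_odd (by omega), mul_one, tr_one] at h1
  exact E.of h1

theorem flip_odd {h : H} {f g : F} {w : Wd H F} (hfg : D.adj f g) (hw : w.len % 2 = 1) :
    D.E (cons h f (cons 1 g w)) (cons (h * D.δ f g) g (cons 1 f (w.tr (D.δ f g)))) := by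
  have h1 := Fl.flip (D := D) h w hfg
  rw [d_odd hw, d_even (by omega), d_even (by omega)] at h1
  exact E.of h1

theorem act_rel_aux {f g : F} (hfg : D.adj f g) {m : Wd H F} (hm : D.Red m) (hl : m.len % 2 = 0)
    (hg : ¬ D.Red (cons 1 g m)) (hf : D.Red (cons 1 f m)) :
    act f (trO (D.δ f g) (act g (cl m hm))) = act g (trO (D.δ g f) (act f (cl m hm))) := by
  obtain ⟨m', e⟩ := exists_tail hm hg
  have hm' : m'.len % 2 = 1 := by
    have := E.len e
    simp at this
    omega
  rw [act_tail hm e, act_red hm hf, trO_cl, trO_cl]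
  have e2 : D.E (cons (D.δ g f) f m) (cons 1 g (cons 1 f (m'.tr (D.δ f g)))) := by
    refine (e.cons _ _).trans ((flip_odd hfg hm').trans ?_)
    rw [D.inv (D.symm hfg)]
    exact E.refl _
  have h4 : (cons 1 f m : Wd H F).tr (D.δ g f) = cons (D.δ g f) f m := by
    rw [tr_cons, mul_one]
  have h5 : act f (cl (m'.tr (D.δ f g)) ((red_tail' hm e).tr _)) =
      act g (cl (cons (D.δ g f) f m) (hf.dec _)) := by
    rw [act_tail (hf.dec _) e2]
    exact act_red _ _
  simpa only [h4] using h5

theorem act_rel {f g : F} (hfg : D.adj f g) (q : D.Om) (hq : lenO q % 2 = 0) :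
    act f (trO (D.δ f g) (act g q)) = act g (trO (D.δ g f) (act f q)) := by
  induction q using Om.ind' with
  | h m hm =>
  rw [lenO_cl] at hq
  by_cases hg : D.Red (cons 1 g m)
  · by_cases hf : D.Red (cons 1 f m)
    · have aux : ∀ {f g : F}, D.adj f g → D.Red (cons 1 g m) → D.Red (cons 1 f m) →
          D.Red (cons 1 f (cons (D.δ f g) g m)) := by
        intro f g hfg hg hf
        by_contra hn
        obtain ⟨m', e⟩ := exists_tail (hg.dec _) hn
        rcases key _ _ _ _ _ _ _ rfl e with ⟨h2, _⟩ | ⟨h2, j, hj, r, h3, h4, h5, h6⟩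
        · rw [h2] at hfg
          exact D.irr _ hfg
        · rw [d_even (by omega)] at h5
          exact hf _ (h5.cons 1 f) (HasBack.here _ _ _ D.C.one_mem)
      have h1 := aux hfg hg hf
      have h2 := aux (D.symm hfg) hf hg
      rw [act_red hm hg, act_red hm hf, trO_cl, trO_cl]
      have h3 : (cons 1 g m : Wd H F).tr (D.δ f g) = cons (D.δ f g) g m := by
        rw [tr_cons, mul_one]
      have h4 : (cons 1 f m : Wd H F).tr (D.δ g f) = cons (D.δ g f) f m := by
        rw [tr_cons, mul_one]
      have h5 : act f (cl (cons (D.δ f g) g m) (hg.dec _)) = act g (cl (cons (D.δ g f) f m)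
          (hf.dec _)) := by
        rw [act_red _ h1, act_red _ h2]
        exact cl_eq _ _ (flip_even hfg hq)
      simpa only [h3, h4] using h5
    · exact (act_rel_aux (D.symm hfg) hm hq hf hg).symm
  · by_cases hf : D.Red (cons 1 f m)
    · exact act_rel_aux hfg hm hq hg hf
    · obtain ⟨m', e⟩ := exists_tail hm hg
      obtain ⟨m'', e'⟩ := exists_tail hm hf
      rw [act_tail hm e, act_tail hm e', trO_cl, trO_cl]
      rcases key _ _ _ _ _ _ _ rfl (e.symm.trans e') with ⟨h2, _⟩ | ⟨h2, j, hj, r, h3, h4, h5, h6⟩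
      · rw [h2] at hfg
        exact absurd hfg (D.irr _)
      · have hml : m'.len % 2 = 1 := by
          have := E.len e
          simp at this
          omega
        have hr0 : r.len % 2 = 0 := by omega
        rw [d_even hr0, mul_one, one_mul] at h4
        rw [d_odd (by omega)] at h5
        rw [d_odd (by omega), d_even hr0, tr_one, ← h4, sg_one] at h6
        have k1 : D.E (m'.tr (D.δ f g)) (cons 1 f r) := by
          have := h5.tr (D.δ f g)
          rwa [tr_cons, D.inv hfg] at this
        have k2 : D.E (m''.tr (D.δ g f)) (cons 1 g r) := by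
          have := h6.tr (D.δ g f)
          rwa [tr_cons, D.inv (D.symm hfg)] at this
        rw [act_tail _ k1, act_tail _ k2]

end Dc

end Pool.Agent.Helper2GI.Sf
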