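import Mathlib
import Pool.Agent.Helper2GI.Sf2
import Pool.Agent.Helper2GI.Deriv

/-!
Bounded derivations from decorated words.
-/

set_option autoImplicit false

namespace Pool.Agent.Helper2GI.Sf

open Wd

variable {H F A α : Type} [Group H] {D : Dc H F}

/-- words in letters of two kinds, with values in the group of decorations -/
structure Sy (D : Dc H F) (A α : Type) where
  vl : A → H
  em : A → α
  ρ : List α → List α → Prop
  ty : A → Option (F × F)
  K : ℕ
  β : ℕ → ℕ
  βmono : Monotone β
  triv : ∀ p : List A, (p.map vl).prod = 1 → GR ρ (β p.length) (p.map em) []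
  iv : List A → List A
  iv_len : ∀ p, (iv p).length = p.length
  iv_val : ∀ p, ((iv p).map vl).prod = ((p.map vl).prod)⁻¹
  ins : ∀ p, GR ρ (2 * p.length) [] ((iv p ++ p).map em)
  tw : F → F → List A
  tw_len : ∀ f g, (tw f g).length ≤ K
  tw_val : ∀ {f g}, D.adj f g → ((tw f g).map vl).prod = D.δ f g
  tw_ins : ∀ {f g}, D.adj f g → GR ρ (2 * K) [] ((tw f g ++ tw f g).map em)
  jl : H → List A
  jl_len : ∀ j, (jl j).length ≤ K
  jl_val : ∀ j ∈ D.C, ((jl j).map vl).prod = j
  ty_none : ∀ a, ty a = none → vl a ∈ D.C

namespace Sy

variable (S : Sy D A α)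

/-- value of a word -/
def val (p : List A) : H := (p.map S.vl).prod

@[simp] theorem val_nil : S.val [] = 1 := rfl

theorem val_append (p q : List A) : S.val (p ++ q) = S.val p * S.val q := by
  unfold val
  rw [List.map_append, List.prod_append]

theorem val_cons (a : A) (q : List A) : S.val (a :: q) = S.vl a * S.val q := by
  unfold val
  rw [List.map_cons, List.prod_cons]

/-- bounded derivations between words -/
def R (B : ℕ) (p q : List A) : Prop := GR S.ρ B (p.map S.em) (q.map S.em)

variable {S}

theorem R.refl (B : ℕ) (p : List A) : S.R B p p := Relation.ReflTransGen.refl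

theorem R.trans {B : ℕ} {p q r : List A} (h : S.R B p q) (h' : S.R B q r) : S.R B p r :=
  Relation.ReflTransGen.trans h h'

theorem R.mono {B B' : ℕ} (hB : B ≤ B') {p q : List A} (h : S.R B p q) : S.R B' p q :=
  GR.mono hB h

theorem R.ctx {B B' : ℕ} (l r : List A) (hN : l.length + B + r.length ≤ B') {s t : List A}
    (h : S.R B s t) : S.R B' (l ++ s ++ r) (l ++ t ++ r) := by
  unfold R
  simp only [List.map_append]
  exact GR.ctx _ _ (by simpa using hN) h

theorem R.left {B B' : ℕ} (l : List A) (hN : l.length + B ≤ B') {s t : List A}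
    (h : S.R B s t) : S.R B' (l ++ s) (l ++ t) := by
  have := h.ctx l [] (B' := B') (by simpa using hN)
  simpa using this

theorem R.right {B B' : ℕ} (r : List A) (hN : B + r.length ≤ B') {s t : List A}
    (h : S.R B s t) : S.R B' (s ++ r) (t ++ r) := by
  have := h.ctx [] r (B' := B') (by simpa using hN)
  simpa using this

/-- words of the same value -/
theorem eqv {p q : List A} (h : S.val p = S.val q) :
    S.R (S.β (p.length + q.length) + 2 * (p.length + q.length)) p q := by
  have h1 : S.R (S.β (p.length + q.length) + 2 * (p.length + q.length)) (p ++ [])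
      (p ++ (S.iv q ++ q)) := R.left (B := 2 * q.length) p (by omega) (S.ins q)
  have h2 : S.R (S.β (p ++ S.iv q).length) (p ++ S.iv q) [] := by
    refine S.triv _ ?_
    show S.val (p ++ S.iv q) = 1
    rw [val_append, h]
    have := S.iv_val q
    show S.val q * S.val (S.iv q) = 1
    unfold val at this ⊢
    rw [this, mul_inv_cancel]
  have h3 := h2.right q (B' := S.β (p.length + q.length) + 2 * (p.length + q.length)) (by
    rw [List.length_append, S.iv_len]
    omega)
  rw [List.append_nil] at h1
  refine h1.trans ?_
  rw [← List.append_assoc]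
  exact h3

variable (S) in
/-- realizations of decorated words -/
def Rz : Option H → Wd H F → List A → Prop
  | none, nil c, u => S.val u = c
  | none, cons h _ m, u => Rz (some h) m u
  | some _, nil _, _ => False
  | some k, cons h _ m, u => ∃ p u', u = p ++ u' ∧ S.val p = k * h ∧ Rz none m u'

theorem rz_nil {c : H} {u : List A} : S.Rz none (nil c : Wd H F) u ↔ S.val u = c := Iff.rfl

theorem rz_none {h : H} {f : F} {m : Wd H F} {u : List A} :
    S.Rz none (cons h f m) u ↔ S.Rz (some h) m u := Iff.rfl

theorem rz_some_nil {k c : H} {u : List A} : ¬ S.Rz (some k) (nil c : Wd H F) u := id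

theorem rz_some {k h : H} {f : F} {m : Wd H F} {u : List A} :
    S.Rz (some k) (cons h f m) u ↔ ∃ p u', u = p ++ u' ∧ S.val p = k * h ∧ S.Rz none m u' := Iff.rfl

theorem rz_par (x : Wd H F) : ∀ u, (S.Rz none x u → x.len % 2 = 0) ∧
    ∀ k, S.Rz (some k) x u → x.len % 2 = 1 := by
  induction x with
  | nil c => exact fun u => ⟨fun _ => rfl, fun k h => absurd h rz_some_nil⟩
  | cons h f m ih =>
    intro u
    constructor
    · intro h1
      have := (ih u).2 _ (rz_none.1 h1)
      rw [len_cons]
      omega
    · intro k h1
      obtain ⟨p, u', _, _, h2⟩ := rz_some.1 h1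
      have := (ih u').1 h2
      rw [len_cons]
      omega

theorem rz_some_ex {k : H} {m : Wd H F} {u : List A} (h : S.Rz (some k) m u) :
    ∃ a g w p u', m = cons a g w ∧ u = p ++ u' ∧ S.val p = k * a ∧ S.Rz none w u' := by
  cases m with
  | nil c => exact absurd h rz_some_nil
  | cons a g w =>
    obtain ⟨p, u', h1, h2, h3⟩ := rz_some.1 h
    exact ⟨a, g, w, p, u', rfl, h1, h2, h3⟩

/-- a translation of an odd word -/
theorem rz_tr {k l : H} {m : Wd H F} {u p : List A} (h : S.Rz (some k) m u)
    (hp : S.val p = l * k⁻¹) : S.Rz (some l) m (p ++ u) := by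
  obtain ⟨a, g, w, p', u', rfl, h1, h2, h3⟩ := rz_some_ex h
  refine rz_some.2 ⟨p ++ p', u', by rw [h1, List.append_assoc], ?_, h3⟩
  rw [val_append, hp, h2]
  group

theorem rz_tr' {k l : H} {m : Wd H F} {u p : List A} (h : S.Rz (some k) m u)
    (hp : S.val p = k * l * k⁻¹) : S.Rz (some k) (m.tr l) (p ++ u) := by
  obtain ⟨a, g, w, p', u', rfl, h1, h2, h3⟩ := rz_some_ex h
  rw [tr_cons]
  refine rz_some.2 ⟨p ++ p', u', by rw [h1, List.append_assoc], ?_, h3⟩
  rw [val_append, hp, h2]
  group

/-- signs in front of even words -/
theorem rz_sg {j : H} {m : Wd H F} {u p : List A} (h : S.Rz none m u)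
    (hp : S.val p = j) : S.Rz none (m.sg j) (p ++ u) := by
  cases m with
  | nil c =>
    rw [rz_nil] at h
    rw [sg_nil, rz_nil, val_append, hp, h]
  | cons a g w =>
    rw [sg_cons, rz_none]
    rw [rz_none] at h
    refine rz_tr h ?_
    rw [hp]
    group

variable (S) in
/-- the bound for derivations through words of length at most `M` -/
def T (M : ℕ) : ℕ := S.β (2 * M) + 4 * M

theorem T_mono {M M' : ℕ} (h : M ≤ M') : S.T M ≤ S.T M' := by
  unfold T
  have := S.βmono (show 2 * M ≤ 2 * M' by omega)
  omega

theorem jj {j : H} (hj : j ∈ D.C) : S.R (S.β (2 * S.K) + 4 * S.K) [] (S.jl j ++ S.jl j) := by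
  have h1 : S.val [] = S.val (S.jl j ++ S.jl j) := by
    rw [val_append]
    have := S.jl_val j hj
    unfold val
    rw [this, D.two j hj]
    rfl
  refine (eqv h1).mono ?_
  have h2 := S.jl_len j
  simp only [List.length_nil, List.length_append, zero_add]
  have := S.βmono (show (S.jl j).length + (S.jl j).length ≤ 2 * S.K by omega)
  omega

/-- moving a central element -/
theorem shift_rz {j : H} (hj : j ∈ D.C) {o : Option H} {h : H} {f : F} {w : Wd H F} {u : List A}
    (hz : S.Rz o (cons h f (w.sg j)) u) {M : ℕ} (hM : u.length + 2 * S.K ≤ M) :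
    ∃ v, S.Rz o (cons (h * j) f w) v ∧ v.length ≤ u.length + 2 * S.K ∧ S.R (S.T M) u v := by
  cases o with
  | none =>
    rw [rz_none] at hz
    obtain ⟨a, g, w', p, u', h1, h2, h3, h4⟩ := rz_some_ex hz
    cases w with
    | nil c => simp at h1
    | cons a' g' m =>
      rw [sg_cons] at h1
      simp only [Wd.cons.injEq] at h1
      obtain ⟨rfl, rfl, rfl⟩ := h1
      refine ⟨u, ?_, by omega, R.refl _ _⟩
      rw [rz_none]
      exact rz_some.2 ⟨p, u', h2, by rw [h3, mul_assoc], h4⟩
  | some k =>
    obtain ⟨p, u', h1, h2, h3⟩ := rz_some.1 hz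
    refine ⟨(p ++ S.jl j) ++ (S.jl j ++ u'), rz_some.2 ⟨_, _, rfl, ?_, ?_⟩, ?_, ?_⟩
    · rw [val_append, h2]
      have := S.jl_val j hj
      unfold val
      rw [this, mul_assoc]
    · have h4 := rz_sg (j := j) h3 (p := S.jl j) (S.jl_val j hj)
      rwa [sg_sg, D.two j hj, sg_one] at h4
    · have := S.jl_len j
      rw [h1]
      simp only [List.length_append]
      omega
    · have h5 := (jj (S := S) hj).ctx p u' (B' := S.T M) (by
        rw [h1, List.length_append] at hM
        unfold T
        have := S.βmono (show 2 * S.K ≤ 2 * M by omega)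
        omega)
      rw [h1]
      simpa [List.append_assoc] using h5

/-- flips -/
theorem flip_rz {o : Option H} {h : H} {f g : F} {w : Wd H F} {u : List A} (hfg : D.adj f g)
    (hz : S.Rz o (cons h f (cons (D.d (w.len + 1) f g) g w)) u) {M : ℕ}
    (hM : u.length + 2 * S.K ≤ M) :
    ∃ v, S.Rz o (cons (h * D.d w.len f g) g (cons (D.d (w.len + 1) g f) f
      (w.tr (D.d w.len f g)))) v ∧ v.length ≤ u.length + 2 * S.K ∧ S.R (S.T M) u v := by
  cases o with
  | none =>
    have hw : w.len % 2 = 0 := by
      have := (rz_par _ u).1 hz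
      simp only [len_cons] at this
      omega
    rw [Dc.d_even hw, Dc.d_odd (by omega), mul_one, tr_one]
    rw [Dc.d_odd (by omega)] at hz
    obtain ⟨p, u', h1, h2, h3⟩ := rz_some.1 (rz_none.1 hz)
    have hgf := D.symm hfg
    have hv : S.val (S.tw g f) = D.δ g f := S.tw_val hgf
    refine ⟨(p ++ (S.tw g f ++ S.tw g f)) ++ u', ?_, ?_, ?_⟩
    · rw [rz_none]
      refine rz_some.2 ⟨_, _, rfl, ?_, h3⟩
      rw [val_append, val_append, h2, hv]
      calc h * D.δ f g * (D.δ g f * D.δ g f) = h * (D.δ f g * D.δ g f) * D.δ g f := by group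
        _ = _ := by rw [D.inv hfg, mul_one]
    · have := S.tw_len g f
      rw [h1]
      simp only [List.length_append]
      omega
    · have h5 : S.R (S.T M) (p ++ [] ++ u') (p ++ (S.tw g f ++ S.tw g f) ++ u') :=
        R.ctx (B := 2 * S.K) p u' (by
          rw [h1, List.length_append] at hM
          unfold T
          omega) (S.tw_ins hgf)
      rw [List.append_nil] at h5
      rw [h1]
      exact h5
  | some k =>
    have hw : w.len % 2 = 1 := by
      have := (rz_par _ u).2 _ hz
      simp only [len_cons] at this
      omega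
    rw [Dc.d_odd hw, Dc.d_even (by omega)]
    rw [Dc.d_even (by omega)] at hz
    obtain ⟨p, u', h1, h2, h3⟩ := rz_some.1 hz
    rw [rz_none] at h3
    have hv : S.val (S.tw f g) = D.δ f g := S.tw_val hfg
    refine ⟨(p ++ S.tw f g) ++ (S.tw f g ++ u'), ?_, ?_, ?_⟩
    · refine rz_some.2 ⟨_, _, rfl, ?_, ?_⟩
      · rw [val_append, h2, hv, mul_assoc]
      · rw [rz_none]
        refine rz_tr' h3 ?_
        rw [hv]
        group
    · have := S.tw_len f g
      rw [h1]
      simp only [List.length_append]
      omega
    · have h5 : S.R (S.T M) (p ++ [] ++ u') (p ++ (S.tw f g ++ S.tw f g) ++ u') :=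
        R.ctx (B := 2 * S.K) p u' (by
          rw [h1, List.length_append] at hM
          unfold T
          omega) (S.tw_ins hfg)
      rw [List.append_nil] at h5
      rw [h1]
      simpa [List.append_assoc] using h5

/-- number of insertions -/
def gf : ℕ → ℕ
  | 0 => 0
  | n + 1 => 2 * gf n + 6

theorem gf_succ (n : ℕ) : gf (n + 1) = 2 * gf n + 6 := rfl

/-- equivalent words have bounded derivations between their realizations -/
theorem E_rz : ∀ (n M : ℕ) (x y : Wd H F), x.len = n → D.E x y → ∀ (o : Option H) (u : List A),
    S.Rz o x u → u.length + gf n * S.K ≤ M →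
    ∃ v, S.Rz o y v ∧ v.length ≤ u.length + gf n * S.K ∧ S.R (S.T M) u v := by
  intro n
  induction n with
  | zero =>
    intro M x y hx hE o u hz hM
    have hy : y.len = 0 := by rw [← hE.len, hx]
    have hxy : x = y := by
      rcases Relation.ReflTransGen.cases_head hE with h1 | ⟨z, h1, _⟩
      · exact h1
      · exfalso
        cases h1 <;> simp at hx
    subst hxy
    exact ⟨u, hz, by omega, R.refl _ _⟩
  | succ n ih =>
    intro M x y hx hE o u hz hM
    rw [gf_succ] at hM
    have hgK : (2 * gf n + 6) * S.K = 2 * (gf n * S.K) + 6 * S.K := by ring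
    rw [hgK] at hM
    rw [gf_succ, hgK]
    cases x with
    | nil c => simp at hx
    | cons h f u0 =>
      cases y with
      | nil c =>
        have := hE.len
        simp at this
      | cons h' g v0 =>
        have hu0 : u0.len = n := by simpa using hx
        rcases Dc.key _ _ _ _ _ _ _ rfl hE with ⟨h1, j, hj, h2, h3⟩ | ⟨h1, j, hj, q, h2, h3, h4, h5⟩
        · subst h1
          -- realize `cons h f (sg j v0)`
          have h6 : ∃ v, S.Rz o (cons h f (v0.sg j)) v ∧ v.length ≤ u.length + gf n * S.K ∧
              S.R (S.T M) u v := by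
            cases o with
            | none =>
              obtain ⟨v, h7, h8, h9⟩ := ih M _ _ hu0 h3 _ u (rz_none.1 hz) (by omega)
              exact ⟨v, rz_none.2 h7, h8, h9⟩
            | some k =>
              obtain ⟨p, u', h7, h8, h9⟩ := rz_some.1 hz
              have hl : u.length = p.length + u'.length := by rw [h7, List.length_append]
              obtain ⟨v, h10, h11, h12⟩ := ih (M - p.length) _ _ hu0 h3 _ u' h9 (by omega)
              refine ⟨p ++ v, rz_some.2 ⟨p, v, rfl, h8, h10⟩, ?_, ?_⟩
              · rw [List.length_append]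
                omega
              · rw [h7]
                refine h12.left p ?_
                unfold T
                have := S.βmono (show 2 * (M - p.length) ≤ 2 * M by omega)
                omega
          obtain ⟨v, h7, h8, h9⟩ := h6
          obtain ⟨v', h10, h11, h12⟩ := shift_rz hj h7 (M := M) (by omega)
          rw [← h2] at h10
          exact ⟨v', h10, by omega, h9.trans h12⟩
        · -- realize `cons h f (cons d g q)`
          have hqn : n = q.len + 1 := by omega
          have h6 : ∃ v, S.Rz o (cons h f (cons (D.d (q.len + 1) f g) g q)) v ∧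
              v.length ≤ u.length + gf n * S.K ∧ S.R (S.T M) u v := by
            cases o with
            | none =>
              obtain ⟨v, h7, h8, h9⟩ := ih M _ _ hu0 h4 _ u (rz_none.1 hz) (by omega)
              exact ⟨v, rz_none.2 h7, h8, h9⟩
            | some k =>
              obtain ⟨p, u', h7, h8, h9⟩ := rz_some.1 hz
              have hl : u.length = p.length + u'.length := by rw [h7, List.length_append]
              obtain ⟨v, h10, h11, h12⟩ := ih (M - p.length) _ _ hu0 h4 _ u' h9 (by omega)
              refine ⟨p ++ v, rz_some.2 ⟨p, v, rfl, h8, h10⟩, ?_, ?_⟩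
              · rw [List.length_append]
                omega
              · rw [h7]
                refine h12.left p ?_
                unfold T
                have := S.βmono (show 2 * (M - p.length) ≤ 2 * M by omega)
                omega
          obtain ⟨v, h7, h8, h9⟩ := h6
          obtain ⟨v1, h10, h11, h12⟩ := flip_rz h1 h7 (M := M) (by omega)
          have h13 : ∃ v, S.Rz o (cons (h * D.d q.len f g) g (v0.sg j)) v ∧
              v.length ≤ v1.length + gf n * S.K ∧ S.R (S.T M) v1 v := by
            have hn : (cons (D.d (q.len + 1) g f) f (q.tr (D.d q.len f g)) : Wd H F).len = n := by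
              rw [len_cons, len_tr, hqn]
            cases o with
            | none =>
              obtain ⟨v, k7, k8, k9⟩ := ih M _ _ hn h5.symm _ v1 (rz_none.1 h10) (by omega)
              exact ⟨v, rz_none.2 k7, k8, k9⟩
            | some k =>
              obtain ⟨p, u', k7, k8, k9⟩ := rz_some.1 h10
              have hl : v1.length = p.length + u'.length := by rw [k7, List.length_append]
              obtain ⟨v, k10, k11, k12⟩ := ih (M - p.length) _ _ hn h5.symm _ u' k9 (by omega)
              refine ⟨p ++ v, rz_some.2 ⟨p, v, rfl, k8, k10⟩, ?_, ?_⟩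
              · rw [List.length_append]
                omega
              · rw [k7]
                refine k12.left p ?_
                unfold T
                have := S.βmono (show 2 * (M - p.length) ≤ 2 * M by omega)
                omega
          obtain ⟨v2, h14, h15, h16⟩ := h13
          obtain ⟨v', h17, h18, h19⟩ := shift_rz hj h14 (M := M) (by omega)
          rw [← h3] at h17
          exact ⟨v', h17, by omega, ((h9.trans h12).trans h16).trans h19⟩

end Sy

end Pool.Agent.Helper2GI.Sf
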