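import Mathlib
import Pool.Agent.Helper2GI.Sf3

/-!
Reduction of words by the action on classes of reduced decorated words.
-/

set_option autoImplicit false

namespace Pool.Agent.Helper2GI.Sf

open Wd

variable {H F A α : Type} [Group H] {D : Dc H F}

namespace Sy

variable (S : Sy D A α)

/-- the action of a letter on classes of reduced words -/
noncomputable def opl (a : A) (q : D.Om) : D.Om :=
  match S.ty a with
  | none => Dc.sgO (S.vl a) q
  | some (f, g) => Dc.act f (Dc.trO (S.vl a) (Dc.act g q))

theorem opl_none {a : A} (h : S.ty a = none) (q : D.Om) : S.opl a q = Dc.sgO (S.vl a) q := by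
  unfold opl
  rw [h]

theorem opl_some {a : A} {f g : F} (h : S.ty a = some (f, g)) (q : D.Om) :
    S.opl a q = Dc.act f (Dc.trO (S.vl a) (Dc.act g q)) := by
  unfold opl
  rw [h]

/-- the action of a word -/
noncomputable def opw (w : List A) (q : D.Om) : D.Om := w.foldr S.opl q

/-- bound for the lengths of realizations -/
def Gf : ℕ → ℕ
  | 0 => 0
  | n + 1 => Gf n + 1 + 2 * (gf (2 * n + 2) * S.K)

theorem gf_mono {m n : ℕ} (h : m ≤ n) : gf m ≤ gf n := by
  induction h with
  | refl => exact le_rfl
  | step _ ih =>
    rw [gf_succ]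
    omega

variable {S}

theorem T_succ (M : ℕ) : S.T M + 1 ≤ S.T (M + 1) := by
  unfold T
  have := S.βmono (show 2 * M ≤ 2 * (M + 1) by omega)
  omega

theorem proc (w : List A) : ∃ (m : Wd H F) (hm : D.Red m) (u : List A),
    S.opw w (Dc.cl (nil 1) (Dc.red_nil 1)) = Dc.cl m hm ∧ S.Rz none m u ∧
    u.length ≤ S.Gf w.length ∧ m.len ≤ 2 * w.length ∧
    ∀ M, S.Gf w.length ≤ M → S.R (S.T M) w u := by
  induction w with
  | nil =>
    refine ⟨nil 1, Dc.red_nil 1, [], rfl, rz_nil.2 rfl, by simp [Gf], by simp, ?_⟩
    exact fun M _ => R.refl _ _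
  | cons a w ih =>
    obtain ⟨m, hm, u, h1, h2, h3, h4, h5⟩ := ih
    have hop : S.opw (a :: w) (Dc.cl (nil 1) (Dc.red_nil 1)) = S.opl a (Dc.cl m hm) := by
      rw [← h1]
      rfl
    have hva : S.val [a] = S.vl a := by
      unfold val
      simp
    have hG : S.Gf (a :: w).length =
        S.Gf w.length + 1 + 2 * (gf (2 * w.length + 2) * S.K) := by
      rw [List.length_cons]
      rfl
    have hst : ∀ M, S.Gf (a :: w).length ≤ M → S.R (S.T M) (a :: w) ([a] ++ u) := by
      intro M hM
      obtain ⟨M', rfl⟩ : ∃ M', M = M' + 1 := ⟨M - 1, by omega⟩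
      have := (h5 M' (by omega)).left [a] (B' := S.T (M' + 1)) (by
        have := T_succ (S := S) M'
        simpa [add_comm] using this)
      simpa using this
    rw [hop]
    match hty : S.ty a with
    | none =>
      rw [S.opl_none hty, Dc.sgO_cl]
      refine ⟨m.sg (S.vl a), _, [a] ++ u, rfl, rz_sg h2 hva, ?_, ?_, hst⟩
      · rw [hG]
        simp only [List.length_append, List.length_singleton]
        omega
      · rw [len_sg, List.length_cons]
        omega
    | some (f, g) =>
      rw [S.opl_some hty]
      have hgf : gf m.len ≤ gf (2 * w.length + 2) := gf_mono (by omega)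
      have hgfK : gf m.len * S.K ≤ gf (2 * w.length + 2) * S.K := Nat.mul_le_mul_right _ hgf
      -- first step
      have hA : ∃ (m1 : Wd H F) (hm1 : D.Red m1) (u1 : List A),
          Dc.trO (S.vl a) (Dc.act g (Dc.cl m hm)) = Dc.cl m1 hm1 ∧ S.Rz (some 1) m1 u1 ∧
          u1.length ≤ u.length + 1 + gf (2 * w.length + 2) * S.K ∧ m1.len ≤ m.len + 1 ∧
          ∀ M, S.Gf (a :: w).length ≤ M → S.R (S.T M) (a :: w) u1 := by
        by_cases hr : D.Red (cons 1 g m)
        · rw [Dc.act_red hm hr, Dc.trO_cl]
          refine ⟨_, hr.tr _, [a] ++ u, rfl, ?_, ?_, ?_, hst⟩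
          · rw [tr_cons]
            exact rz_some.2 ⟨[a], u, rfl, by rw [hva, one_mul, mul_one], h2⟩
          · simp only [List.length_append, List.length_singleton]
            omega
          · simp
        · obtain ⟨m', e⟩ := Dc.exists_tail hm hr
          rw [Dc.act_tail hm e, Dc.trO_cl]
          obtain ⟨v, k1, k2, k3⟩ := E_rz m.len (u.length + gf m.len * S.K) m _ rfl e none u h2 le_rfl
          refine ⟨_, _, [a] ++ v, rfl, ?_, ?_, ?_, ?_⟩
          · exact rz_tr' (rz_none.1 k1) (by rw [hva]; group)
          · simp only [List.length_append, List.length_singleton]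
            omega
          · have := e.len
            rw [len_cons] at this
            rw [len_tr]
            omega
          · intro M hM
            refine (hst M hM).trans ?_
            obtain ⟨M', rfl⟩ : ∃ M', M = M' + 1 := ⟨M - 1, by omega⟩
            refine (k3.mono (T_mono (show u.length + gf m.len * S.K ≤ M' by omega))).left [a] ?_
            have := T_succ (S := S) M'
            simpa [add_comm] using this
      obtain ⟨m1, hm1, u1, k1, k2, k3, k4, k5⟩ := hA
      rw [k1]
      have hgf1 : gf m1.len ≤ gf (2 * w.length + 2) := gf_mono (by omega)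
      have hgfK1 : gf m1.len * S.K ≤ gf (2 * w.length + 2) * S.K := Nat.mul_le_mul_right _ hgf1
      by_cases hr : D.Red (cons 1 f m1)
      · rw [Dc.act_red hm1 hr]
        refine ⟨_, hr, u1, rfl, rz_none.2 k2, ?_, ?_, k5⟩
        · rw [hG]
          omega
        · rw [len_cons, List.length_cons]
          omega
      · obtain ⟨m2, e⟩ := Dc.exists_tail hm1 hr
        rw [Dc.act_tail hm1 e]
        obtain ⟨v, l1, l2, l3⟩ :=
          E_rz m1.len (u1.length + gf m1.len * S.K) m1 _ rfl e (some 1) u1 k2 le_rfl
        obtain ⟨p, v', l4, l5, l6⟩ := rz_some.1 l1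
        rw [mul_one] at l5
        have hvl : v.length = p.length + v'.length := by rw [l4, List.length_append]
        refine ⟨m2, _, v', rfl, l6, ?_, ?_, ?_⟩
        · rw [hG]
          omega
        · have := e.len
          rw [len_cons] at this
          rw [List.length_cons]
          omega
        · intro M hM
          refine (k5 M hM).trans ((l3.mono (T_mono (by omega))).trans ?_)
          rw [l4]
          have h6 : S.R (S.β p.length) p [] := S.triv p l5
          have h7 := h6.right v' (B' := S.T M) (by
            unfold T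
            have := S.βmono (show p.length ≤ 2 * M by omega)
            omega)
          simpa using h7

/-- words that fix the base point are trivial through a bounded derivation -/
theorem derive (w : List A)
    (h : S.opw w (Dc.cl (nil 1) (Dc.red_nil 1)) = Dc.cl (nil 1) (Dc.red_nil (D := D) 1)) :
    S.R (S.T (S.Gf w.length)) w [] := by
  obtain ⟨m, hm, u, h1, h2, h3, h4, h5⟩ := proc (S := S) w
  rw [h1] at h
  have h6 := Dc.of_cl_eq h
  have h7 : m = nil 1 := by
    rcases Relation.ReflTransGen.cases_head h6 with h7 | ⟨z, h7, _⟩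
    · exact h7
    · exfalso
      have := h6.len
      cases h7 <;> simp at this
  subst h7
  rw [rz_nil] at h2
  refine (h5 _ le_rfl).trans ?_
  have h8 : S.R (S.β u.length) u [] := S.triv u h2
  refine h8.mono ?_
  unfold T
  have := S.βmono (show u.length ≤ 2 * S.Gf w.length by omega)
  omega

end Sy

end Pool.Agent.Helper2GI.Sf
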