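import Mathlib
import Pool.Agent.Helper2GI.Rot
import Pool.Agent.Helper2GI.Qd6
import Pool.Agent.Helper2GI.Sf4

/-!
Embedded graphs of face-width at least four: the class, and the group of the surface.
-/

set_option autoImplicit false

namespace Pool.Agent.Helper2GI

/-- The corner between `d` and `σ d` and the corner between `op (σ d)` and `σ (op (σ d))` meet
along the edge of `σ d`. -/
def Meet {c : Code} (σ : Equiv.Perm (Dart c)) (d d' : Dart c) : Prop := d' = op (σ d)

/-- The faces of the rotation system: the classes of corners. -/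
def Face (c : Code) (σ : Equiv.Perm (Dart c)) : Type := Quot (Meet (c := c) σ)

/-- The face of the corner between `d` and `σ d`. -/
def face {c : Code} (σ : Equiv.Perm (Dart c)) (d : Dart c) : Face c σ := Quot.mk _ d

/-- The darts passed when one turns around a vertex from the corner between `d` and `σ d` to the
corner between `σ^n d` and `σ^(n+1) d`. -/
def pas {c : Code} (σ : Equiv.Perm (Dart c)) (d : Dart c) (n : ℕ) : List (Dart c) :=
  (List.range n).map fun j => σ^[j + 1] d

/-- The relators of the dual complex: opposite darts are inverse, and the darts around a vertex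
have trivial product. -/
inductive RelS (c : Code) (σ : Equiv.Perm (Dart c)) : FreeGroup (Dart c) → Prop
  | op (d : Dart c) : RelS c σ (FreeGroup.of d * FreeGroup.of (op d))
  | rot (d : Dart c) :
      RelS c σ ((pas σ d (Function.minimalPeriod σ d)).map FreeGroup.of).prod

/-- The group generated by the darts with these relators: the fundamental group of the surface
after all faces (as vertices of the dual complex) have been identified. -/
abbrev PiS (c : Code) (σ : Equiv.Perm (Dart c)) : Type := PresentedGroup {r | RelS c σ r}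

/-- The class of the path from the face of `d` through the vertex of `d` to the face of
`σ^n d`. -/
def thru {c : Code} (σ : Equiv.Perm (Dart c)) (d : Dart c) (n : ℕ) : PiS c σ :=
  ((pas σ d n).map (PresentedGroup.of (rels := {r | RelS c σ r}))).prod

/-- Every closed curve which meets the graph in at most three vertices (and runs through faces
otherwise) is contractible. -/
def Wide (c : Code) (σ : Equiv.Perm (Dart c)) : Prop :=
  ∀ (d₁ d₂ d₃ : Dart c) (n₁ n₂ n₃ : ℕ), face σ (σ^[n₁] d₁) = face σ d₂ →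
    face σ (σ^[n₂] d₂) = face σ d₃ → face σ (σ^[n₃] d₃) = face σ d₁ →
      thru σ d₁ n₁ * thru σ d₂ n₂ * thru σ d₃ n₃ = 1

variable {c : Code} {σ : Equiv.Perm (Dart c)}

theorem face_surj (f : Face c σ) : ∃ d, face σ d = f := Quot.exists_rep f

theorem face_op (d : Dart c) : face σ (op (σ d)) = face σ d :=
  (Quot.sound (r := Meet σ) (show Meet σ d (op (σ d)) from rfl)).symm

theorem face_op1 (e : Dart c) : face σ (op e) = face σ (σ⁻¹ e) := by
  have := face_op (σ := σ) (σ⁻¹ e)
  rwa [pinv1] at this

theorem face_op2 (e : Dart c) : face σ (σ⁻¹ (op e)) = face σ e := by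
  have := face_op1 (σ := σ) (op e)
  rw [op_op] at this
  exact this.symm

theorem pas_add (e : Dart c) (m n : ℕ) : pas σ e (m + n) = pas σ e m ++ pas σ (σ^[m] e) n := by
  unfold pas
  rw [List.range_add, List.map_append, List.map_map]
  congr 1
  refine List.map_congr_left fun j _ => ?_
  simp only [Function.comp]
  rw [← Function.iterate_add_apply]
  congr 1
  omega

theorem pas_zero (e : Dart c) : pas σ e 0 = [] := rfl

theorem pas_one (e : Dart c) : pas σ e 1 = [σ e] := rfl

theorem pas_len (e : Dart c) (n : ℕ) : (pas σ e n).length = n := by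
  unfold pas
  simp

theorem pas_fst (e : Dart c) (n : ℕ) : (pas σ e n).map Prod.fst = orb σ e n := by
  unfold pas orb
  rw [List.map_map]
  rfl

theorem pas_full_perm (hσ : Rotation c σ) (hV : Valid c) (e : Dart c) :
    ((pas σ e (per σ e)).map Prod.fst).Perm (star c (tl e)) := by
  have h3 := orb_perm hσ hV e
  obtain ⟨k, hk⟩ : ∃ k, per σ e = k + 1 := ⟨per σ e - 1, by have := per_pos (σ := σ) e; omega⟩
  rw [pas_fst, hk, orb_succ, ← hk, per_eq]
  rw [hk, Nat.add_sub_cancel] at h3
  exact (List.perm_append_singleton e.1 _).trans h3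

theorem pas_tl (hσ : Rotation c σ) (e : Dart c) (n : ℕ) : ∀ d ∈ pas σ e n, tl d = tl e := by
  intro d hd
  unfold pas at hd
  rw [List.mem_map] at hd
  obtain ⟨j, _, rfl⟩ := hd
  exact tl_iter hσ e _

theorem per_iter (e : Dart c) (n : ℕ) : per σ (σ^[n] e) = per σ e :=
  Function.minimalPeriod_apply_iterate (σ.injective.mem_periodicPts e) n

open Classical in
/-- the darts around a vertex -/
noncomputable def rl (σ : Equiv.Perm (Dart c)) (v : ℕ) : List (Dart c) :=
  if h : ∃ e : Dart c, tl e = v then pas σ (Classical.choose h) (per σ (Classical.choose h)) else []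

theorem rl_spec {v : ℕ} (h : ∃ e : Dart c, tl e = v) :
    ∃ e : Dart c, tl e = v ∧ rl σ v = pas σ e (per σ e) :=
  ⟨Classical.choose h, Classical.choose_spec h, by unfold rl; rw [dif_pos h]⟩

theorem rl_none {v : ℕ} (h : ¬ ∃ e : Dart c, tl e = v) : rl σ v = [] := by
  unfold rl
  rw [dif_neg h]

theorem mem_rl (hσ : Rotation c σ) {v : ℕ} {d : Dart c} : d ∈ rl σ v ↔ tl d = v := by
  constructor
  · intro h
    by_cases hv : ∃ e : Dart c, tl e = v
    · obtain ⟨e, he, h1⟩ := rl_spec (σ := σ) hv
      rw [h1] at h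
      rw [pas_tl hσ e _ d h, he]
    · rw [rl_none hv] at h
      simp at h
  · intro h
    obtain ⟨e, he, h1⟩ := rl_spec (σ := σ) ⟨d, h⟩
    rw [h1]
    obtain ⟨n, hn, h2⟩ := exists_iter hσ (h.trans he.symm)
    unfold pas
    rw [List.mem_map]
    cases n with
    | zero =>
      have hp := per_pos (σ := σ) e
      refine ⟨per σ e - 1, List.mem_range.2 (by omega), ?_⟩
      rw [Nat.sub_add_cancel hp, per_eq, ← h2]
      rfl
    | succ n => exact ⟨n, List.mem_range.2 (by omega), h2⟩

theorem rl_nodup (v : ℕ) : (rl σ v).Nodup := by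
  by_cases hv : ∃ e : Dart c, tl e = v
  · obtain ⟨e, he, h1⟩ := rl_spec (σ := σ) hv
    rw [h1]
    unfold pas
    refine List.Nodup.map_on ?_ List.nodup_range
    intro m hm n hn h
    rw [List.mem_range] at hm hn
    rw [Function.iterate_succ_apply', Function.iterate_succ_apply'] at h
    exact iter_inj hm hn (σ.injective h)
  · rw [rl_none hv]
    exact List.nodup_nil

theorem rl_perm (hσ : Rotation c σ) (hV : Valid c) (v : ℕ) :
    ((rl σ v).map Prod.fst).Perm (star c v) := by
  by_cases hv : ∃ e : Dart c, tl e = v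
  · obtain ⟨e, he, h1⟩ := rl_spec (σ := σ) hv
    rw [h1, ← he]
    exact pas_full_perm hσ hV e
  · rw [rl_none hv]
    have hst : star c v = [] := by
      rw [List.eq_nil_iff_forall_not_mem]
      intro i hi
      obtain ⟨d, _, hd⟩ := inc_cases (mem_star.1 hi)
      exact hv ⟨d, hd⟩
    rw [hst]
    exact List.Perm.refl _

/-- the involution on darts -/
def od (c : Code) : Qd.Op (Dart c) where
  op := op
  op_op := op_op
  ne := fun d h => by
    have := congrArg Prod.snd h
    unfold op at this
    simp at this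

/-- the quadratic system of the rotation system -/
noncomputable def sysR (c : Code) (σ : Equiv.Perm (Dart c)) : Qd.Sys (Dart c) :=
  (List.range c.1).map fun v => (rl σ v, (colour c v : ZMod 2))

theorem flat_sys : Qd.flat (sysR c σ) = (List.range c.1).flatMap (rl σ) := by
  unfold Qd.flat sysR
  rw [List.flatMap_map]

theorem mem_flat (hσ : Rotation c σ) (hV : Valid c) (d : Dart c) : d ∈ Qd.flat (sysR c σ) := by
  rw [flat_sys, List.mem_flatMap]
  exact ⟨tl d, List.mem_range.2 (inc_lt hV (inc_tl d)), (mem_rl hσ).2 rfl⟩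

theorem good_sys (hσ : Rotation c σ) (hV : Valid c) : Qd.Good (od c) (sysR c σ) := by
  refine ⟨?_, fun d _ => mem_flat hσ hV _⟩
  rw [flat_sys, List.nodup_flatMap]
  refine ⟨fun v _ => rl_nodup v, ?_⟩
  refine List.Pairwise.imp ?_ List.nodup_range
  intro u v huv
  rw [Function.onFun, List.disjoint_left]
  intro d h1 h2
  rw [mem_rl hσ] at h1 h2
  exact huv (h1.symm.trans h2)

theorem flat_len (hσ : Rotation c σ) (hV : Valid c) :
    (Qd.flat (sysR c σ)).length ≤ 2 * c.2.1.length := by
  have h := (good_sys hσ hV).nodup.length_le_card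
  rw [Fintype.card_prod, Fintype.card_fin, Fintype.card_bool] at h
  omega

/-- the group of decorations -/
abbrev HS (c : Code) (σ : Equiv.Perm (Dart c)) : Type := Qd.Hg (od c) (sysR c σ)

/-- the central element -/
noncomputable def JH (c : Code) (σ : Equiv.Perm (Dart c)) : HS c σ := Qd.lt (od c) (sysR c σ) none

/-- the value of a path through a vertex -/
noncomputable def pv' (σ : Equiv.Perm (Dart c)) (e : Dart c) (n : ℕ) : HS c σ :=
  Qd.val (od c) (sysR c σ) ((pas σ e n).map some)

theorem pv_add (e : Dart c) (m n : ℕ) : pv' σ e (m + n) = pv' σ e m * pv' σ (σ^[m] e) n := by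
  unfold pv'
  rw [pas_add, List.map_append, Qd.val_append]

theorem JH_comm (g : HS c σ) : JH c σ * g = g * JH c σ := Qd.j_comm g

theorem rl_val {v : ℕ} (hv : v < c.1) : Qd.val (od c) (sysR c σ) ((rl σ v).map some) =
    JH c σ ^ (colour c v : ZMod 2).val := by
  have h : (rl σ v, (colour c v : ZMod 2)) ∈ sysR c σ := by
    unfold sysR
    rw [List.mem_map]
    exact ⟨v, List.mem_range.2 hv, rfl⟩
  rw [Qd.rel_val h, Qd.val_jw]
  rfl

theorem pv_full (hσ : Rotation c σ) (hV : Valid c) (e : Dart c) :
    pv' σ e (per σ e) = JH c σ ^ (colour c (tl e) : ZMod 2).val := by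
  obtain ⟨e0, he0, h1⟩ := rl_spec (σ := σ) ⟨e, rfl⟩
  have h2 : pv' σ e0 (per σ e0) = JH c σ ^ (colour c (tl e) : ZMod 2).val := by
    rw [← rl_val (inc_lt hV (inc_tl e)), h1]
    rfl
  obtain ⟨n, hn, rfl⟩ := exists_iter hσ he0.symm
  have h3 := pv_add (σ := σ) e0 n (per σ e0)
  rw [add_comm, pv_add, per_eq, h2] at h3
  have h4 : JH c σ ^ (colour c (tl (σ^[n] e0)) : ZMod 2).val * pv' σ e0 n =
      pv' σ e0 n * JH c σ ^ (colour c (tl (σ^[n] e0)) : ZMod 2).val :=
    Commute.pow_left (JH_comm _) _
  rw [h4] at h3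
  rw [per_iter]
  exact (mul_left_cancel h3).symm

/-- the subgroup of the central element -/
noncomputable def CS (c : Code) (σ : Equiv.Perm (Dart c)) : Subgroup (HS c σ) :=
  Subgroup.zpowers (JH c σ)

theorem CS_cent {j : HS c σ} (hj : j ∈ CS c σ) (h : HS c σ) : j * h = h * j := by
  obtain ⟨k, rfl⟩ := Subgroup.mem_zpowers_iff.1 hj
  exact Commute.zpow_left (JH_comm h) k

theorem CS_two {j : HS c σ} (hj : j ∈ CS c σ) : j * j = 1 := by
  obtain ⟨k, rfl⟩ := Subgroup.mem_zpowers_iff.1 hj
  rw [← (Commute.refl (JH c σ)).mul_zpow]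
  have : JH c σ * JH c σ = 1 := Qd.jj_one
  rw [this, one_zpow]

theorem CS_cases {j : HS c σ} (hj : j ∈ CS c σ) : j = 1 ∨ j = JH c σ := by
  obtain ⟨k, rfl⟩ := Subgroup.mem_zpowers_iff.1 hj
  have h1 : JH c σ * JH c σ = 1 := Qd.jj_one
  rcases Int.even_or_odd k with ⟨m, hm⟩ | ⟨m, hm⟩
  · left
    rw [hm, zpow_add, ← (Commute.refl (JH c σ)).mul_zpow, h1, one_zpow]
  · right
    rw [hm, zpow_add, zpow_one, two_mul, zpow_add, ← (Commute.refl (JH c σ)).mul_zpow, h1,
      one_zpow, one_mul]

instance CS_normal : (CS c σ).Normal := by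
  constructor
  intro n hn g
  rw [← CS_cent hn g, mul_inv_cancel_right]
  exact hn

theorem JH_mem : JH c σ ∈ CS c σ := Subgroup.mem_zpowers _

/-- from the group of the surface to the quotient -/
noncomputable def thS (hσ : Rotation c σ) (hV : Valid c) : PiS c σ →* HS c σ ⧸ CS c σ :=
  PresentedGroup.toGroup (f := fun d => ((Qd.lt (od c) (sysR c σ) (some d) : HS c σ) :
    HS c σ ⧸ CS c σ)) (by
    intro r hr
    have hr' : RelS c σ r := hr
    cases hr' with
    | op d =>
      rw [map_mul, FreeGroup.lift_apply_of, FreeGroup.lift_apply_of, ← QuotientGroup.mk_mul]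
      have : Qd.lt (od c) (sysR c σ) (some d) * Qd.lt (od c) (sysR c σ) (some (op d)) = 1 :=
        Qd.inv_one d
      rw [this]
      rfl
    | rot d =>
      rw [map_list_prod, List.map_map]
      have h1 : ∀ l : List (Dart c), (l.map ((FreeGroup.lift fun d =>
          ((Qd.lt (od c) (sysR c σ) (some d) : HS c σ) : HS c σ ⧸ CS c σ)) ∘ FreeGroup.of)).prod =
          ((Qd.val (od c) (sysR c σ) (l.map some) : HS c σ) : HS c σ ⧸ CS c σ) := by
        intro l
        induction l with
        | nil => rfl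
        | cons a l ih =>
          rw [List.map_cons, List.prod_cons, ih, List.map_cons, Qd.val_cons, QuotientGroup.mk_mul]
          congr 1
      rw [h1]
      have h2 := pv_full hσ hV d
      unfold pv' per at h2
      rw [h2, QuotientGroup.eq_one_iff]
      exact (CS c σ).pow_mem JH_mem _)

theorem thS_thru (hσ : Rotation c σ) (hV : Valid c) (e : Dart c) (n : ℕ) :
    thS hσ hV (thru σ e n) = ((pv' σ e n : HS c σ) : HS c σ ⧸ CS c σ) := by
  unfold thru pv'
  generalize pas σ e n = l
  rw [map_list_prod, List.map_map]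
  induction l with
  | nil => rfl
  | cons a l ih =>
    rw [List.map_cons, List.prod_cons, ih, List.map_cons, Qd.val_cons, QuotientGroup.mk_mul]
    congr 1

theorem wide_mem (hσ : Rotation c σ) (hV : Valid c) (hW : Wide c σ) {d₁ d₂ d₃ : Dart c}
    {n₁ n₂ n₃ : ℕ} (h1 : face σ (σ^[n₁] d₁) = face σ d₂) (h2 : face σ (σ^[n₂] d₂) = face σ d₃)
    (h3 : face σ (σ^[n₃] d₃) = face σ d₁) :
    pv' σ d₁ n₁ * pv' σ d₂ n₂ * pv' σ d₃ n₃ ∈ CS c σ := by
  have h := congrArg (thS hσ hV) (hW d₁ d₂ d₃ n₁ n₂ n₃ h1 h2 h3)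
  rw [map_mul, map_mul, thS_thru, thS_thru, thS_thru, map_one, ← QuotientGroup.mk_mul,
    ← QuotientGroup.mk_mul, QuotientGroup.eq_one_iff] at h
  exact h

theorem pv_zero (e : Dart c) : pv' σ e 0 = 1 := rfl

theorem wide_one (hσ : Rotation c σ) (hV : Valid c) (hW : Wide c σ) {d : Dart c}
    {n : ℕ} (h : face σ (σ^[n] d) = face σ d) : pv' σ d n ∈ CS c σ := by
  have := wide_mem hσ hV hW (d₁ := d) (d₂ := d) (d₃ := d) (n₁ := n) (n₂ := 0) (n₃ := 0) h rfl rfl
  rwa [pv_zero, mul_one, mul_one] at this

/-- back to the starting corner -/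
theorem pv_back (hσ : Rotation c σ) (hV : Valid c) (e : Dart c) (n : ℕ) :
    ∃ n', σ^[n'] (σ^[n] e) = e ∧ pv' σ e n * pv' σ (σ^[n] e) n' ∈ CS c σ := by
  have hp := per_pos (σ := σ) e
  have h1 : ∀ k, σ^[k * per σ e] e = e ∧ pv' σ e (k * per σ e) ∈ CS c σ := by
    intro k
    induction k with
    | zero =>
      rw [zero_mul]
      exact ⟨rfl, (CS c σ).one_mem⟩
    | succ k ih =>
      have h2 : (k + 1) * per σ e = per σ e + k * per σ e := by ring
      rw [h2]
      constructor
      · rw [add_comm, Function.iterate_add_apply, per_eq, ih.1]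
      · rw [pv_add, per_eq, pv_full hσ hV]
        exact (CS c σ).mul_mem ((CS c σ).pow_mem JH_mem _) ih.2
  refine ⟨n * (per σ e - 1), ?_, ?_⟩
  · rw [← Function.iterate_add_apply]
    have h3 : n * (per σ e - 1) + n = n * per σ e := by
      obtain ⟨k, hk⟩ : ∃ k, per σ e = k + 1 := ⟨per σ e - 1, by omega⟩
      rw [hk, Nat.add_sub_cancel]
      ring
    rw [h3]
    exact (h1 n).1
  · rw [← pv_add]
    have h3 : n + n * (per σ e - 1) = n * per σ e := by
      obtain ⟨k, hk⟩ : ∃ k, per σ e = k + 1 := ⟨per σ e - 1, by omega⟩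
      rw [hk, Nat.add_sub_cancel]
      ring
    rw [h3]
    exact (h1 n).2

end Pool.Agent.Helper2GI
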