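import Mathlib
import Pool.Agent.Helper2GI.Fw1
import Pool.Agent.Helper2GI.DLem

/-!
Embedded graphs of face-width at least four: decorations.
-/

set_option autoImplicit false

namespace Pool.Agent.Helper2GI

open Pool.Agent.Helper2GI.Sf RA

variable {c : Code} {σ : Equiv.Perm (Dart c)}

variable (σ) in
/-- different faces with a common vertex -/
def AdF (f g : Face c σ) : Prop :=
  f ≠ g ∧ ∃ p : Dart c × ℕ, p.2 < per σ p.1 ∧ face σ p.1 = f ∧ face σ (σ^[p.2] p.1) = g

theorem AdF.of (hσ : Rotation c σ) {f g : Face c σ} (h : f ≠ g) {e : Dart c} {n : ℕ}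
    (h1 : face σ e = f) (h2 : face σ (σ^[n] e) = g) : AdF σ f g := by
  obtain ⟨m, hm, h3⟩ := exists_iter hσ (tl_iter hσ e n)
  exact ⟨h, (e, m), hm, h1, by rw [h3]; exact h2⟩

theorem AdF.symm (hσ : Rotation c σ) (hV : Valid c) {f g : Face c σ} (h : AdF σ f g) :
    AdF σ g f := by
  obtain ⟨h1, ⟨e, n⟩, h2, h3, h4⟩ := h
  obtain ⟨n', h5, _⟩ := pv_back hσ hV e n
  exact AdF.of hσ h1.symm (e := σ^[n] e) (n := n') h4 (by rw [h5]; exact h3)

open Classical in
/-- words of passages -/
noncomputable def wdF (σ : Equiv.Perm (Dart c)) (f g : Face c σ) : List (Option (Dart c)) :=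
  if h : ∃ p : Dart c × ℕ, p.2 < per σ p.1 ∧ face σ p.1 = f ∧ face σ (σ^[p.2] p.1) = g then
    (pas σ (Classical.choose h).1 (Classical.choose h).2).map some else []

theorem wdF_spec {f g : Face c σ} (h : AdF σ f g) : ∃ (e : Dart c) (n : ℕ), n < per σ e ∧
    face σ e = f ∧ face σ (σ^[n] e) = g ∧ wdF σ f g = (pas σ e n).map some := by
  obtain ⟨h1, h2⟩ := h
  have h3 := Classical.choose_spec h2
  refine ⟨(Classical.choose h2).1, (Classical.choose h2).2, h3.1, h3.2.1, h3.2.2, ?_⟩
  unfold wdF
  rw [dif_pos h2]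

open Classical in
/-- words of passages, inverse to each other -/
noncomputable def twF (σ : Equiv.Perm (Dart c)) (f g : Face c σ) : List (Option (Dart c)) :=
  if WellOrderingRel f g then wdF σ f g else Qd.iw (od c) (wdF σ g f)

/-- the cocycle -/
noncomputable def dlF (σ : Equiv.Perm (Dart c)) (f g : Face c σ) : HS c σ :=
  Qd.val (od c) (sysR c σ) (twF σ f g)

theorem wo_cases {X : Type} {f g : X} (h : f ≠ g) :
    (WellOrderingRel f g ∧ ¬ WellOrderingRel g f) ∨ (¬ WellOrderingRel f g ∧ WellOrderingRel g f) := by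
  rcases trichotomous_of WellOrderingRel f g with h1 | h1 | h1
  · exact Or.inl ⟨h1, fun h' =>
      (IsStrictTotalOrder.toIsStrictOrder.toIrrefl.irrefl f : ¬ WellOrderingRel f f)
        (IsStrictTotalOrder.toIsStrictOrder.toIsTrans.trans _ _ _ h1 h')⟩
  · exact absurd h1 h
  · exact Or.inr ⟨fun h' =>
      (IsStrictTotalOrder.toIsStrictOrder.toIrrefl.irrefl f : ¬ WellOrderingRel f f)
        (IsStrictTotalOrder.toIsStrictOrder.toIsTrans.trans _ _ _ h' h1), h1⟩

theorem dlF_inv {f g : Face c σ} (h : AdF σ f g) : dlF σ f g * dlF σ g f = 1 := by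
  unfold dlF twF
  rcases wo_cases h.1 with ⟨h1, h2⟩ | ⟨h1, h2⟩
  · rw [if_pos h1, if_neg h2, Qd.val_iw, mul_inv_cancel]
  · rw [if_neg h1, if_pos h2, Qd.val_iw, inv_mul_cancel]

theorem dlF_spec (hσ : Rotation c σ) (hV : Valid c) {f g : Face c σ} (h : AdF σ f g) :
    ∃ (e : Dart c) (n : ℕ), face σ e = f ∧ face σ (σ^[n] e) = g ∧
      ∃ j ∈ CS c σ, dlF σ f g = j * pv' σ e n := by
  unfold dlF twF
  rcases wo_cases h.1 with ⟨h1, h2⟩ | ⟨h1, h2⟩
  · rw [if_pos h1]
    obtain ⟨e, n, _, h3, h4, h5⟩ := wdF_spec h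
    refine ⟨e, n, h3, h4, 1, (CS c σ).one_mem, ?_⟩
    rw [h5, one_mul]
    rfl
  · rw [if_neg h1]
    obtain ⟨e, n, _, h3, h4, h5⟩ := wdF_spec (h.symm hσ hV)
    obtain ⟨n', h6, h7⟩ := pv_back hσ hV e n
    refine ⟨σ^[n] e, n', h4, by rw [h6]; exact h3, (pv' σ e n * pv' σ (σ^[n] e) n')⁻¹,
      (CS c σ).inv_mem h7, ?_⟩
    rw [CS_cent ((CS c σ).inv_mem h7), h5, Qd.val_iw]
    unfold pv'
    group

/-- the structure of decorations -/
noncomputable def DcF (hσ : Rotation c σ) (hV : Valid c) (hW : Wide c σ) :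
    Dc (HS c σ) (Face c σ) where
  C := CS c σ
  cent := fun j hj h => CS_cent hj h
  two := fun j hj => CS_two hj
  adj := AdF σ
  symm := fun h => h.symm hσ hV
  irr := fun f h => h.1 rfl
  δ := dlF σ
  inv := dlF_inv
  tri := by
    intro f g k h1 h2 h3
    obtain ⟨e1, n1, a1, b1, j1, hj1, d1⟩ := dlF_spec hσ hV h1
    obtain ⟨e2, n2, a2, b2, j2, hj2, d2⟩ := dlF_spec hσ hV h2
    obtain ⟨e3, n3, a3, b3, j3, hj3, d3⟩ := dlF_spec hσ hV (h3.symm hσ hV)
    rw [d1, d2, d3]
    have h4 := wide_mem hσ hV hW (d₁ := e1) (d₂ := e2) (d₃ := e3) (b1.trans a2.symm)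
      (b2.trans a3.symm) (b3.trans a1.symm)
    have h5 : j1 * pv' σ e1 n1 * (j2 * pv' σ e2 n2) * (j3 * pv' σ e3 n3) =
        j1 * j2 * j3 * (pv' σ e1 n1 * pv' σ e2 n2 * pv' σ e3 n3) := by
      calc j1 * pv' σ e1 n1 * (j2 * pv' σ e2 n2) * (j3 * pv' σ e3 n3)
          = j1 * (pv' σ e1 n1 * j2) * pv' σ e2 n2 * (j3 * pv' σ e3 n3) := by group
        _ = j1 * (j2 * pv' σ e1 n1) * pv' σ e2 n2 * (j3 * pv' σ e3 n3) := by
            rw [CS_cent hj2]
        _ = j1 * j2 * ((pv' σ e1 n1 * pv' σ e2 n2) * j3) * pv' σ e3 n3 := by group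
        _ = j1 * j2 * (j3 * (pv' σ e1 n1 * pv' σ e2 n2)) * pv' σ e3 n3 := by
            rw [CS_cent hj3]
        _ = _ := by group
    rw [h5]
    exact (CS c σ).mul_mem ((CS c σ).mul_mem ((CS c σ).mul_mem hj1 hj2) hj3) h4

/-! ### From darts to edges -/

/-- the edge of a letter -/
def emF : Option (Dart c) → Option (Edge c) := Option.map Prod.fst

theorem em_jw (s : ZMod 2) : (jw s : List (Option (Dart c))).map emF = jw s := by
  rcases zmod2_cases s with rfl | rfl <;> rfl

theorem em_some (l : List (Dart c)) : (l.map some).map emF = (l.map Prod.fst).map some := by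
  rw [List.map_map, List.map_map]
  rfl

theorem em_iw (p : List (Option (Dart c))) : (Qd.iw (od c) p).map emF = (p.map emF).reverse := by
  unfold Qd.iw
  rw [List.map_reverse, List.map_map]
  congr 1
  refine List.map_congr_left fun a _ => ?_
  cases a <;> rfl

theorem ins_rev (q : List (Option (Edge c))) : GR (Ru c) (2 * q.length) [] (q.reverse ++ q) := by
  induction q with
  | nil => exact Relation.ReflTransGen.refl
  | cons a q ih =>
    have h1 : GR (Ru c) 2 [] [a, a] := by
      cases a with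
      | none => exact Relation.ReflTransGen.single ⟨[], [], _, _, Ru.ij, rfl, rfl, by simp⟩
      | some i => exact Relation.ReflTransGen.single ⟨[], [], _, _, Ru.xi i, rfl, rfl, by simp⟩
    have h2 := h1.ctx q.reverse q (N' := 2 * (a :: q).length) (by simp; omega)
    rw [List.append_nil] at h2
    have h3 : q.reverse ++ [a, a] ++ q = (a :: q).reverse ++ (a :: q) := by simp
    rw [h3] at h2
    exact (ih.mono (by simp)).trans h2

theorem GR_of_D {N : ℕ} {k : ZMod 2} {s t : List (Edge c)} (h : D c N k s t) :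
    GR (Ru c) (N + 2) (s.map some) (jw k ++ t.map some) := by
  have := h 0 [] []
  simpa [jw_zero] using this

theorem sq_ins {v : ℕ} (L : List (Edge c)) (hL : ∀ i ∈ L, Inc c v i) :
    GR (Ru c) (2 * L.length + 2) [] ((L ++ L).map some) := by
  have h1 := (D.can L).symm (by simp; omega)
  have h2 := (D.perm (v := v) (List.reverse_perm L) (fun e he => hL e (List.mem_reverse.1 he))).ctxl
    L (N' := 2 * L.length) (by rw [List.length_reverse]; omega)
  have h3 := GR_of_D (h1.trans h2)
  rw [add_zero, jw_zero, List.nil_append] at h3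
  exact h3

/-- simulation along a map of letters -/
theorem simm {α β : Type} {ρ' : List α → List α → Prop} {ρ : List β → List β → Prop}
    (em : α → β) {k : ℕ} (h : ∀ a b, ρ' a b → GR ρ k (a.map em) (b.map em))
    {B : ℕ} {s t : List α} (hst : GR ρ' B s t) (hs : s.length ≤ B) :
    GR ρ (B + k) (s.map em) (t.map em) := by
  induction hst with
  | refl => exact Relation.ReflTransGen.refl
  | @tail s' t' h1 h2 ih =>
    have h3 : s'.length ≤ B := GR.len h1 hs
    obtain ⟨l, r, a, b, h4, h5, h6, _⟩ := h2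
    rw [h5] at ih h3
    rw [h6]
    rw [List.map_append, List.map_append] at ih ⊢
    refine ih.trans ((h a b h4).ctx (l.map em) (r.map em) ?_)
    simp only [List.length_append, List.length_map] at h3 ⊢
    omega

theorem rule_em (hσ : Rotation c σ) (hV : Valid c) (a b : List (Option (Dart c)))
    (h : Qd.Rh (od c) (sysR c σ) a b) :
    GR (Ru c) (c.2.1.length + 4) (a.map emF) (b.map emF) := by
  have one : ∀ {u v : List (Option (Edge c))}, Ru c u v → v.length ≤ 2 →
      GR (Ru c) (c.2.1.length + 4) u v :=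
    fun h h' => Relation.ReflTransGen.single ⟨[], [], _, _, h, by simp, by simp, by omega⟩
  have hrel : ∀ (R : List (Dart c)) (s : ZMod 2), (R, s) ∈ sysR c σ →
      GR (Ru c) (c.2.1.length + 2) ((R.map Prod.fst).map some) (jw s) ∧
      R.length ≤ c.2.1.length := by
    intro R s hR
    unfold sysR at hR
    rw [List.mem_map] at hR
    obtain ⟨v, hv, hRs⟩ := hR
    rw [List.mem_range] at hv
    obtain ⟨rfl, rfl⟩ := Prod.mk.inj hRs
    have hp := rl_perm hσ hV v
    have hl := hp.length_eq
    have hs := star_len (c := c) v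
    rw [List.length_map] at hl
    refine ⟨?_, by omega⟩
    have h1 := D.perm (v := v) hp (fun i hi => mem_star.1 (hp.mem_iff.1 hi))
    have h2 := (h1.mono (N' := c.2.1.length) (by rw [List.length_map]; omega)).trans
      ((D.st hv).mono hs)
    have h3 := GR_of_D h2
    rw [zero_add, List.map_nil, List.append_nil] at h3
    exact h3
  cases h with
  | jj => exact one Ru.jj (by simp)
  | jj' => exact one Ru.ij (by simp)
  | jx a => exact one (Ru.jx a.1) (by simp)
  | xj a => exact one (Ru.xj a.1) (by simp)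
  | inv a => exact one (Ru.xx a.1) (by simp)
  | inv' a => exact one (Ru.xi a.1) (by simp)
  | rel R s hR =>
    rw [em_some, em_jw]
    exact (hrel R s hR).1.mono (by omega)
  | rel' R s hR =>
    rw [em_some, em_jw]
    obtain ⟨h1, h2⟩ := hrel R s hR
    exact (GR_symm (by simp only [List.length_map]; omega) h1).mono (by omega)

/-- the bound for derivations of decorations -/
def beF (E n : ℕ) : ℕ := Qd.bd (2 * E) (2 * E) n + (E + 4)

theorem triv_em (hσ : Rotation c σ) (hV : Valid c) (p : List (Option (Dart c)))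
    (hp : Qd.val (od c) (sysR c σ) p = 1) :
    GR (Ru c) (beF c.2.1.length p.length) (p.map emF) [] := by
  have hl := flat_len hσ hV
  have h1 := Qd.quad (2 * c.2.1.length) _ hl (sysR c σ) rfl (good_sys hσ hV) p hp
  have h2 : Qd.bd (2 * c.2.1.length) (Qd.flat (sysR c σ)).length p.length ≤
      Qd.bd (2 * c.2.1.length) (2 * c.2.1.length) p.length :=
    (Qd.gG_slope _).iter_le hl _
  have h3 := h1.mono h2
  exact simm emF (rule_em hσ hV) h3 (((Qd.bd_slope _ _).le _))

/-- letters and their faces -/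
def tyF (σ : Equiv.Perm (Dart c)) : Option (Dart c) → Option (Face c σ × Face c σ)
  | none => none
  | some d => some (face σ (σ⁻¹ d), face σ d)

theorem twF_spec (hσ : Rotation c σ) (hV : Valid c) {f g : Face c σ} (h : AdF σ f g) :
    ∃ (v : ℕ) (L : List (Edge c)), (∀ i ∈ L, Inc c v i) ∧ L.length ≤ c.2.1.length ∧
      (twF σ f g).map emF = L.map some := by
  unfold twF
  rcases wo_cases h.1 with ⟨h1, h2⟩ | ⟨h1, h2⟩
  · rw [if_pos h1]
    obtain ⟨e, n, h6, _, _, h5⟩ := wdF_spec h
    have := per_le hσ hV e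
    refine ⟨tl e, orb σ e n, orb_inc hσ e n, by rw [orb_len]; omega, ?_⟩
    rw [h5, em_some, pas_fst]
  · rw [if_neg h1]
    obtain ⟨e, n, h6, _, _, h5⟩ := wdF_spec (h.symm hσ hV)
    have := per_le hσ hV e
    refine ⟨tl e, (orb σ e n).reverse, fun i hi => orb_inc hσ e n i (List.mem_reverse.1 hi),
      by rw [List.length_reverse, orb_len]; omega, ?_⟩
    rw [em_iw, h5, em_some, pas_fst, List.map_reverse]

theorem wdF_len (hσ : Rotation c σ) (hV : Valid c) (f g : Face c σ) :
    (wdF σ f g).length ≤ c.2.1.length := by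
  unfold wdF
  split_ifs with h
  · have h3 := Classical.choose_spec h
    have := per_le hσ hV (Classical.choose h).1
    rw [List.length_map, pas_len]
    omega
  · simp

theorem twF_len (hσ : Rotation c σ) (hV : Valid c) (f g : Face c σ) :
    (twF σ f g).length ≤ c.2.1.length := by
  unfold twF
  split_ifs with h
  · exact wdF_len hσ hV f g
  · rw [Qd.iw_len]
    exact wdF_len hσ hV g f

open Classical in
/-- words for the central elements -/
noncomputable def jlF (σ : Equiv.Perm (Dart c)) (j : HS c σ) : List (Option (Dart c)) :=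
  if j = 1 then [] else [none]

/-- the system of words -/
noncomputable def SyF (hσ : Rotation c σ) (hV : Valid c) (hW : Wide c σ) :
    Sy (DcF hσ hV hW) (Option (Dart c)) (Option (Edge c)) where
  vl := Qd.lt (od c) (sysR c σ)
  em := emF
  ρ := Ru c
  ty := tyF σ
  K := c.2.1.length + 1
  β := beF c.2.1.length
  βmono := by
    intro a b hab
    unfold beF
    have := (Qd.bd_slope (2 * c.2.1.length) (2 * c.2.1.length)).mono hab
    omega
  triv := fun p hp => triv_em hσ hV p hp
  iv := Qd.iw (od c)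
  iv_len := fun p => Qd.iw_len p
  iv_val := fun p => Qd.val_iw p
  ins := by
    intro p
    rw [List.map_append, em_iw]
    have := ins_rev (p.map emF)
    rwa [List.length_map] at this
  tw := twF σ
  tw_len := fun f g => (twF_len hσ hV f g).trans (Nat.le_succ _)
  tw_val := fun _ => rfl
  tw_ins := by
    intro f g h
    obtain ⟨v, L, h1, h2, h3⟩ := twF_spec hσ hV h
    rw [List.map_append, h3, ← List.map_append]
    exact (sq_ins L h1).mono (by omega)
  jl := jlF σ
  jl_len := by
    intro j
    unfold jlF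
    split_ifs <;> simp
  jl_val := by
    intro j hj
    show Qd.val (od c) (sysR c σ) (jlF σ j) = j
    unfold jlF
    split_ifs with h
    · rw [h]; rfl
    · rcases CS_cases hj with h1 | h1
      · exact absurd h1 h
      · rw [h1, Qd.val_cons, Qd.val_nil, mul_one]
        rfl
  ty_none := by
    intro a ha
    cases a with
    | none => exact JH_mem
    | some d => exact absurd ha (by unfold tyF; simp)

end Pool.Agent.Helper2GI
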