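import Mathlib
import Pool.Agent.Helper2GI.Fw2

/-!
Embedded graphs of face-width at least four: the action of the incidence group.
-/

set_option autoImplicit false

namespace Pool.Agent.Helper2GI

open Pool.Agent.Helper2GI.Sf RA

namespace Sf.Dc

variable {H F : Type} [Group H] {D : Dc H F}

theorem trO_sgO {j : H} (hj : j ∈ D.C) (k : H) (q : D.Om) : trO k (sgO j q) = sgO j (trO k q) := by
  induction q using Om.ind' with
  | h m hm =>
  rw [sgO_cl, trO_cl, trO_cl, sgO_cl]
  exact cl_eq _ _ (by rw [tr_sg hj]; exact E.refl _)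

theorem lenO_act_mod (f : F) (q : D.Om) : lenO (act f q) % 2 = (lenO q + 1) % 2 := by
  rcases lenO_act f q with h | h <;> omega

end Sf.Dc

open Sf.Dc

variable {c : Code} {σ : Equiv.Perm (Dart c)} (hσ : Rotation c σ) (hV : Valid c) (hW : Wide c σ)

/-- the action of a passage -/
noncomputable def Tq (e : Dart c) (n : ℕ) (q : (DcF hσ hV hW).Om) : (DcF hσ hV hW).Om :=
  act (face σ e) (trO (pv' σ e n) (act (face σ (σ^[n] e)) q))

theorem Tq_add (e : Dart c) (m n : ℕ) (q : (DcF hσ hV hW).Om) :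
    Tq hσ hV hW e m (Tq hσ hV hW (σ^[m] e) n q) = Tq hσ hV hW e (m + n) q := by
  unfold Tq
  rw [act_act, trO_trO, ← pv_add, ← Function.iterate_add_apply, add_comm n m]

theorem Tq_len (e : Dart c) (n : ℕ) (q : (DcF hσ hV hW).Om) :
    lenO (Tq hσ hV hW e n q) % 2 = lenO q % 2 := by
  unfold Tq
  have h1 := lenO_act_mod (face σ e) (trO (pv' σ e n) (act (face σ (σ^[n] e)) q))
  have h2 := lenO_act_mod (face σ (σ^[n] e)) q
  rw [lenO_trO] at h1
  omega

theorem Tq_sgO {j : HS c σ} (hj : j ∈ CS c σ) (e : Dart c) (n : ℕ) (q : (DcF hσ hV hW).Om) :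
    Tq hσ hV hW e n (sgO j q) = sgO j (Tq hσ hV hW e n q) := by
  unfold Tq
  rw [act_sgO (D := DcF hσ hV hW) hj, trO_sgO (D := DcF hσ hV hW) hj,
    act_sgO (D := DcF hσ hV hW) hj]

theorem Tq_loop {e : Dart c} {n : ℕ} (h : face σ (σ^[n] e) = face σ e) (q : (DcF hσ hV hW).Om)
    (hq : lenO q % 2 = 0) : Tq hσ hV hW e n q = sgO (pv' σ e n) q := by
  have hj := wide_one hσ hV hW h
  unfold Tq
  rw [h]
  have h1 := lenO_act_mod (face σ e) q
  rw [trO_mem _ _ (by omega), act_sgO (D := DcF hσ hV hW) hj, act_act]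

theorem Tq_adj {e : Dart c} {n : ℕ} (h : face σ e ≠ face σ (σ^[n] e)) : ∃ j ∈ CS c σ,
    ∀ q : (DcF hσ hV hW).Om, lenO q % 2 = 0 → Tq hσ hV hW e n q =
      sgO j (act (face σ e) (trO (dlF σ (face σ e) (face σ (σ^[n] e)))
        (act (face σ (σ^[n] e)) q))) := by
  have hadj : AdF σ (face σ e) (face σ (σ^[n] e)) := AdF.of hσ h rfl rfl
  obtain ⟨e', n', a1, b1, j, hj, d1⟩ := dlF_spec hσ hV (hadj.symm hσ hV)
  have h1 := wide_mem hσ hV hW (d₁ := e) (n₁ := n) (d₂ := e') (n₂ := n') (d₃ := e) (n₃ := 0)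
    a1.symm b1 rfl
  rw [pv_zero, mul_one] at h1
  have h2 : pv' σ e n * dlF σ (face σ (σ^[n] e)) (face σ e) ∈ CS c σ := by
    rw [d1, ← mul_assoc, ← CS_cent hj, mul_assoc]
    exact (CS c σ).mul_mem hj h1
  refine ⟨_, h2, fun q hq => ?_⟩
  have h3 : pv' σ e n = pv' σ e n * dlF σ (face σ (σ^[n] e)) (face σ e) *
      dlF σ (face σ e) (face σ (σ^[n] e)) := by
    rw [mul_assoc, dlF_inv (hadj.symm hσ hV), mul_one]
  unfold Tq
  have h4 := lenO_act_mod (face σ (σ^[n] e)) q
  set j0 := pv' σ e n * dlF σ (face σ (σ^[n] e)) (face σ e) with hj0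
  rw [h3, ← trO_trO, trO_mem j0 _ (by rw [lenO_trO]; omega),
    act_sgO (D := DcF hσ hV hW) h2]

theorem Tq_Tq (e : Dart c) (n : ℕ) (q : (DcF hσ hV hW).Om) (hq : lenO q % 2 = 0) :
    Tq hσ hV hW e n (Tq hσ hV hW e n q) = q := by
  by_cases h : face σ (σ^[n] e) = face σ e
  · have hj := wide_one hσ hV hW h
    rw [Tq_loop hσ hV hW h q hq, Tq_loop hσ hV hW h _ (by rw [lenO_sgO]; exact hq), sgO_sgO,
      CS_two hj, sgO_one]
  · have h' : face σ e ≠ face σ (σ^[n] e) := fun h' => h h'.symm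
    have hadj : AdF σ (face σ e) (face σ (σ^[n] e)) := AdF.of hσ h' rfl rfl
    obtain ⟨j, hj, hT⟩ := Tq_adj hσ hV hW h'
    have h1 := Tq_len hσ hV hW e n q
    rw [hT _ (by omega), hT q hq]
    set f := face σ e with hf
    set g := face σ (σ^[n] e) with hg
    have h2 := act_rel (D := DcF hσ hV hW) (f := f) (g := g) hadj q hq
    have h3 : act f (trO (dlF σ f g) (act g q)) = act g (trO (dlF σ g f) (act f q)) := h2
    rw [h3]
    rw [act_sgO (D := DcF hσ hV hW) hj, trO_sgO (D := DcF hσ hV hW) hj,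
      act_sgO (D := DcF hσ hV hW) hj, sgO_sgO, CS_two hj, sgO_one, act_act, trO_trO,
      dlF_inv hadj, trO_one, act_act]

/-- even classes -/
def Ev : Type := {q : (DcF hσ hV hW).Om // lenO q % 2 = 0}

/-- the permutation of a passage -/
noncomputable def TP (e : Dart c) (n : ℕ) : Equiv.Perm (Ev hσ hV hW) where
  toFun q := ⟨Tq hσ hV hW e n q.1, by rw [Tq_len]; exact q.2⟩
  invFun q := ⟨Tq hσ hV hW e n q.1, by rw [Tq_len]; exact q.2⟩
  left_inv q := Subtype.ext (Tq_Tq hσ hV hW e n q.1 q.2)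
  right_inv q := Subtype.ext (Tq_Tq hσ hV hW e n q.1 q.2)

/-- the permutation of a central element -/
noncomputable def sP (j : HS c σ) (hj : j ∈ CS c σ) : Equiv.Perm (Ev hσ hV hW) where
  toFun q := ⟨sgO j q.1, by rw [lenO_sgO]; exact q.2⟩
  invFun q := ⟨sgO j q.1, by rw [lenO_sgO]; exact q.2⟩
  left_inv q := Subtype.ext (by
    show sgO j (sgO j q.1) = q.1
    rw [sgO_sgO, CS_two hj, sgO_one])
  right_inv q := Subtype.ext (by
    show sgO j (sgO j q.1) = q.1
    rw [sgO_sgO, CS_two hj, sgO_one])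

theorem TP_sq (e : Dart c) (n : ℕ) : TP hσ hV hW e n * TP hσ hV hW e n = 1 := by
  apply Equiv.ext
  intro q
  exact Subtype.ext (Tq_Tq hσ hV hW e n q.1 q.2)

theorem TP_mul (e : Dart c) (m n : ℕ) :
    TP hσ hV hW e m * TP hσ hV hW (σ^[m] e) n = TP hσ hV hW e (m + n) := by
  apply Equiv.ext
  intro q
  exact Subtype.ext (Tq_add hσ hV hW e m n q.1)

theorem TP_zero (e : Dart c) : TP hσ hV hW e 0 = 1 := by
  apply Equiv.ext
  intro q
  apply Subtype.ext
  show act (face σ e) (trO (pv' σ e 0) (act (face σ (σ^[0] e)) q.1)) = q.1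
  rw [pv_zero, trO_one]
  exact act_act _ _

theorem TP_loop {e : Dart c} {n : ℕ} (h : face σ (σ^[n] e) = face σ e) :
    TP hσ hV hW e n = sP hσ hV hW (pv' σ e n) (wide_one hσ hV hW h) := by
  apply Equiv.ext
  intro q
  exact Subtype.ext (Tq_loop hσ hV hW h q.1 q.2)

theorem TP_sP (e : Dart c) (n : ℕ) {j : HS c σ} (hj : j ∈ CS c σ) :
    TP hσ hV hW e n * sP hσ hV hW j hj = sP hσ hV hW j hj * TP hσ hV hW e n := by
  apply Equiv.ext
  intro q
  exact Subtype.ext (Tq_sgO hσ hV hW hj e n q.1)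

/-- three involutions -/
theorem three {G : Type} [Group G] {A B C : G} (hA : A * A = 1) (hB : B * B = 1) (hC : C * C = 1)
    (hAB : A * B * (A * B) = 1) (hBC : B * C * (B * C) = 1)
    (hABC : A * B * C * (A * B * C) = 1) : A * C = C * A := by
  have iA : A⁻¹ = A := inv_eq_of_mul_eq_one_right hA
  have iB : B⁻¹ = B := inv_eq_of_mul_eq_one_right hB
  have iC : C⁻¹ = C := inv_eq_of_mul_eq_one_right hC
  have h1 : A * B = B * A := by
    have := mul_eq_one_iff_eq_inv.1 hAB
    rwa [mul_inv_rev, iA, iB] at this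
  have h2 : B * C = C * B := by
    have := mul_eq_one_iff_eq_inv.1 hBC
    rwa [mul_inv_rev, iB, iC] at this
  have h3 : A * B * C = C * (B * A) := by
    have := mul_eq_one_iff_eq_inv.1 hABC
    rwa [mul_inv_rev, mul_inv_rev, iA, iB, iC] at this
  have h4 : B * (A * C) = B * (C * A) := by
    rw [← mul_assoc, ← h1, h3, ← mul_assoc, ← h2, mul_assoc]
  exact mul_left_cancel h4

/-- the permutation of a dart -/
noncomputable def XP (d : Dart c) : Equiv.Perm (Ev hσ hV hW) := TP hσ hV hW (σ⁻¹ d) 1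

theorem XP_sq (d : Dart c) : XP hσ hV hW d * XP hσ hV hW d = 1 := TP_sq hσ hV hW _ _

theorem pv_one (d : Dart c) : pv' σ (σ⁻¹ d) 1 = Qd.lt (od c) (sysR c σ) (some d) := by
  unfold pv'
  rw [pas_one, pinv1, List.map_singleton, Qd.val_cons, Qd.val_nil, mul_one]

theorem iter_inv (d : Dart c) : σ^[1] (σ⁻¹ d) = d := pinv1 σ d

theorem XP_op (d : Dart c) : XP hσ hV hW (op d) = XP hσ hV hW d := by
  have h1 : XP hσ hV hW (op d) * XP hσ hV hW d = 1 := by
    apply Equiv.ext
    intro q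
    apply Subtype.ext
    show act (face σ (σ⁻¹ (op d))) (trO (pv' σ (σ⁻¹ (op d)) 1)
      (act (face σ (σ^[1] (σ⁻¹ (op d)))) (act (face σ (σ⁻¹ d)) (trO (pv' σ (σ⁻¹ d) 1)
      (act (face σ (σ^[1] (σ⁻¹ d))) q.1))))) = q.1
    rw [iter_inv, iter_inv, face_op1, face_op2, act_act, trO_trO, pv_one, pv_one]
    have h2 : Qd.lt (od c) (sysR c σ) (some (op d)) * Qd.lt (od c) (sysR c σ) (some d) = 1 := by
      have := Qd.inv_one (o := od c) (𝓡 := sysR c σ) (op d)
      have h3 : (od c).op (op d) = d := op_op d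
      rwa [h3] at this
    rw [h2, trO_one, act_act]
  have h2 := XP_sq hσ hV hW d
  exact mul_right_cancel (h1.trans h2.symm)

theorem XP_edge {d e : Dart c} (h : d.1 = e.1) : XP hσ hV hW d = XP hσ hV hW e := by
  rcases same_edge h with h1 | h1
  · rw [h1]
  · rw [h1, XP_op]

theorem XP_comm {d d' : Dart c} (h : tl d' = tl d) :
    XP hσ hV hW d * XP hσ hV hW d' = XP hσ hV hW d' * XP hσ hV hW d := by
  obtain ⟨n, _, rfl⟩ := exists_iter hσ h
  cases n with
  | zero => rfl
  | succ n =>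
    have e1 : XP hσ hV hW (σ^[n + 1] d) = TP hσ hV hW (σ^[n] d) 1 := by
      unfold XP
      rw [Function.iterate_succ_apply', pinv2]
    have e2 : XP hσ hV hW d = TP hσ hV hW (σ⁻¹ d) 1 := rfl
    have hAB := TP_mul hσ hV hW (σ⁻¹ d) 1 n
    rw [iter_inv] at hAB
    have hBC := TP_mul hσ hV hW d n 1
    have hABC : TP hσ hV hW (σ⁻¹ d) 1 * TP hσ hV hW d n * TP hσ hV hW (σ^[n] d) 1 =
        TP hσ hV hW (σ⁻¹ d) (1 + n + 1) := by
      rw [hAB]
      have := TP_mul hσ hV hW (σ⁻¹ d) (1 + n) 1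
      have h3 : σ^[1 + n] (σ⁻¹ d) = σ^[n] d := by
        rw [add_comm, Function.iterate_add_apply, iter_inv]
      rwa [h3] at this
    rw [e1, e2]
    refine three (B := TP hσ hV hW d n) (TP_sq hσ hV hW _ _) (TP_sq hσ hV hW _ _)
      (TP_sq hσ hV hW _ _) ?_ ?_ ?_
    · rw [hAB]; exact TP_sq hσ hV hW _ _
    · rw [hBC]; exact TP_sq hσ hV hW _ _
    · rw [hABC]; exact TP_sq hσ hV hW _ _

theorem XP_pas (e : Dart c) (n : ℕ) : ((pas σ e n).map (XP hσ hV hW)).prod = TP hσ hV hW e n := by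
  induction n with
  | zero => exact (TP_zero hσ hV hW e).symm
  | succ n ih =>
    rw [pas_add, List.map_append, List.prod_append, ih, pas_one, List.map_singleton,
      List.prod_singleton, ← TP_mul]
    congr 1
    unfold XP
    rw [pinv2]

/-- the images of the generators -/
noncomputable def fE : Option (Edge c) → Equiv.Perm (Ev hσ hV hW)
  | none => sP hσ hV hW (JH c σ) JH_mem
  | some i => XP hσ hV hW (i, false)

theorem sP_congr {j j' : HS c σ} (e : j = j') (h : j ∈ CS c σ) (h' : j' ∈ CS c σ) :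
    sP hσ hV hW j h = sP hσ hV hW j' h' := by
  subst e
  rfl

theorem sP_one : sP hσ hV hW 1 (CS c σ).one_mem = 1 := by
  apply Equiv.ext
  intro q
  exact Subtype.ext (sgO_one q.1)

theorem sP_sq {j : HS c σ} (hj : j ∈ CS c σ) : sP hσ hV hW j hj * sP hσ hV hW j hj = 1 := by
  apply Equiv.ext
  intro q
  apply Subtype.ext
  show sgO j (sgO j q.1) = q.1
  rw [sgO_sgO, CS_two hj, sgO_one]

theorem fE_comm {v : ℕ} {i j : Edge c} (hi : Inc c v i) (hj : Inc c v j) :
    fE hσ hV hW (some i) * fE hσ hV hW (some j) = fE hσ hV hW (some j) * fE hσ hV hW (some i) := by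
  obtain ⟨d, h1, h2⟩ := inc_cases hi
  obtain ⟨d', h3, h4⟩ := inc_cases hj
  have e1 : fE hσ hV hW (some i) = XP hσ hV hW d := XP_edge hσ hV hW h1.symm
  have e2 : fE hσ hV hW (some j) = XP hσ hV hW d' := XP_edge hσ hV hW h3.symm
  rw [e1, e2]
  exact XP_comm hσ hV hW (h4.trans h2.symm)

theorem fE_vert {v : ℕ} (hv : v < c.1) :
    ((star c v).map fun i => fE hσ hV hW (some i)).prod = fE hσ hV hW none ^ colour c v := by
  have hp := (rl_perm hσ hV v).map (fun i => fE hσ hV hW (some i))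
  have hpw : (((rl σ v).map Prod.fst).map (fun i => fE hσ hV hW (some i))).Pairwise Commute := by
    rw [List.pairwise_map]
    refine List.Pairwise.imp_of_mem (R := fun _ _ => True) ?_ (List.pairwise_of_forall (fun _ _ => trivial))
    intro i j hi hj _
    have hst := (rl_perm hσ hV v)
    exact fE_comm hσ hV hW (mem_star.1 (hst.mem_iff.1 hi)) (mem_star.1 (hst.mem_iff.1 hj))
  rw [← hp.prod_eq' hpw, List.map_map]
  have h1 : (rl σ v).map ((fun i => fE hσ hV hW (some i)) ∘ Prod.fst) =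
      (rl σ v).map (XP hσ hV hW) :=
    List.map_congr_left fun d _ => XP_edge hσ hV hW (d := (d.1, false)) rfl
  rw [h1]
  have hcol : colour c v = 0 ∨ colour c v = 1 := by
    unfold colour
    split_ifs <;> simp
  have hpow : ∀ h : JH c σ ^ (colour c v : ZMod 2).val ∈ CS c σ,
      sP hσ hV hW (JH c σ ^ (colour c v : ZMod 2).val) h = fE hσ hV hW none ^ colour c v := by
    intro h
    rcases hcol with h0 | h0
    · have e : JH c σ ^ (colour c v : ZMod 2).val = 1 := by
        rw [h0]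
        exact pow_zero _
      rw [sP_congr hσ hV hW e h (CS c σ).one_mem, sP_one, h0, pow_zero]
    · have e : JH c σ ^ (colour c v : ZMod 2).val = JH c σ := by
        rw [h0]
        exact pow_one _
      rw [sP_congr hσ hV hW e h JH_mem, h0, pow_one]
      rfl
  by_cases hd : ∃ e : Dart c, tl e = v
  · obtain ⟨e, he, h2⟩ := rl_spec (σ := σ) hd
    rw [h2, XP_pas, TP_loop hσ hV hW (by rw [per_eq])]
    have h3 := pv_full hσ hV e
    rw [he] at h3
    have h4 : JH c σ ^ (colour c v : ZMod 2).val ∈ CS c σ := (CS c σ).pow_mem JH_mem _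
    rw [← hpow h4]
    exact sP_congr hσ hV hW h3 _ _
  · have h2 := rl_val (c := c) (σ := σ) hv
    rw [rl_none hd] at h2 ⊢
    have h4 : JH c σ ^ (colour c v : ZMod 2).val ∈ CS c σ := (CS c σ).pow_mem JH_mem _
    rw [← hpow h4]
    have h5 : JH c σ ^ (colour c v : ZMod 2).val = 1 := h2.symm
    rw [sP_congr hσ hV hW h5 h4 (CS c σ).one_mem, sP_one]
    rfl

/-- the action of the incidence group -/
noncomputable def actG : Gam c →* Equiv.Perm (Ev hσ hV hW) :=
  PresentedGroup.toGroup (f := fE hσ hV hW) (by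
    intro r hr
    have hr' : Rlt c r := hr
    cases hr' with
    | JJ =>
      rw [map_mul, FreeGroup.lift_apply_of]
      exact sP_sq hσ hV hW JH_mem
    | xx i =>
      rw [map_mul, FreeGroup.lift_apply_of]
      exact XP_sq hσ hV hW _
    | xJ i =>
      simp only [map_mul, map_inv, FreeGroup.lift_apply_of]
      rw [mul_inv_eq_one, mul_inv_eq_iff_eq_mul]
      exact TP_sP hσ hV hW _ _ JH_mem
    | comm v i j hi hj =>
      simp only [map_mul, map_inv, FreeGroup.lift_apply_of]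
      rw [mul_inv_eq_one, mul_inv_eq_iff_eq_mul]
      exact fE_comm hσ hV hW hi hj
    | vert v hv =>
      rw [map_mul, map_inv, map_pow, map_list_prod, List.map_map, mul_inv_eq_one,
        FreeGroup.lift_apply_of]
      have h1 : (⇑(FreeGroup.lift (fE hσ hV hW)) ∘ fun i => FreeGroup.of (some i)) =
          fun i => fE hσ hV hW (some i) := by
        funext i
        simp
      rw [h1]
      exact fE_vert hσ hV hW hv)

/-- a dart for each edge -/
def sec : Option (Edge c) → Option (Dart c) := Option.map fun i => (i, false)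

theorem em_sec (w : List (Option (Edge c))) : (w.map sec).map emF = w := by
  rw [List.map_map]
  have : (emF ∘ sec : Option (Edge c) → Option (Edge c)) = id := by
    funext a
    cases a <;> rfl
  rw [this, List.map_id]

theorem opw_fE (w : List (Option (Edge c))) (q : Ev hσ hV hW) :
    (SyF hσ hV hW).opw (w.map sec) q.1 = ((w.map (fE hσ hV hW)).prod q).1 := by
  induction w with
  | nil => rfl
  | cons a w ih =>
    rw [List.map_cons, List.map_cons, List.prod_cons]
    show (SyF hσ hV hW).opl (sec a) ((SyF hσ hV hW).opw (w.map sec) q.1) = _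
    rw [ih]
    cases a with
    | none => rfl
    | some i =>
      rw [(SyF hσ hV hW).opl_some (a := sec (some i)) (f := face σ (σ⁻¹ (i, false)))
        (g := face σ (i, false)) rfl]
      show _ = act (face σ (σ⁻¹ (i, false))) (trO (pv' σ (σ⁻¹ (i, false)) 1)
        (act (face σ (σ^[1] (σ⁻¹ (i, false)))) ((w.map (fE hσ hV hW)).prod q).1))
      rw [iter_inv, pv_one]
      rfl

/-- **Bounded derivations for embedded graphs of face-width at least four.** -/
theorem wide_derive (w : List (Option (Edge c)))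
    (hw : (w.map (PresentedGroup.of (rels := {r | Rlt c r}))).prod = 1) :
    GR (Ru c) ((SyF hσ hV hW).T ((SyF hσ hV hW).Gf w.length)) w [] := by
  have h1 := congrArg (actG hσ hV hW) hw
  rw [map_one, map_list_prod, List.map_map] at h1
  have h2 : (w.map (⇑(actG hσ hV hW) ∘ PresentedGroup.of)) = w.map (fE hσ hV hW) := by
    refine List.map_congr_left fun a _ => ?_
    exact PresentedGroup.toGroup.of _
  rw [h2] at h1
  let b : Ev hσ hV hW := ⟨Dc.cl (Wd.nil 1) (Dc.red_nil 1), rfl⟩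
  have h3 := opw_fE hσ hV hW w b
  rw [h1] at h3
  have h4 := (SyF hσ hV hW).derive (w.map sec) h3
  rw [List.length_map] at h4
  have h5 : GR (Ru c) ((SyF hσ hV hW).T ((SyF hσ hV hW).Gf w.length)) ((w.map sec).map emF)
    (([] : List (Option (Dart c))).map emF) := h4
  rw [em_sec] at h5
  exact h5

end Pool.Agent.Helper2GI
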