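import Mathlib
import Pool.Agent.Helper2GI.Fw3
import Pool.Agent.Helper2GI.Comp

/-!
Embedded graphs of face-width at least four: solution of the word problem.
-/

set_option autoImplicit false

namespace Pool.Agent.Helper2GI

open Pool.Agent.Helper2GI.Sf

/-- The graph has an embedding with face-width at least four into closed orientable surfaces (one
for each component). -/
def FaceWidthFour (c : Code) : Prop := ∃ σ : Equiv.Perm (Dart c), Rotation c σ ∧ Wide c σ

/-- bound for the lengths -/
def gW (K n : ℕ) : ℕ := n * (1 + 2 * (Sy.gf (2 * n + 2) * K))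

theorem Gf_le {H F A α : Type} [Group H] {D : Dc H F} (S : Sy D A α) (n : ℕ) :
    S.Gf n ≤ gW S.K n := by
  unfold gW
  induction n with
  | zero => exact Nat.zero_le _
  | succ n ih =>
    have h1 : Sy.gf (2 * n + 2) ≤ Sy.gf (2 * (n + 1) + 2) := Sy.gf_mono (by omega)
    have h2 : Sy.gf (2 * n + 2) * S.K ≤ Sy.gf (2 * (n + 1) + 2) * S.K := Nat.mul_le_mul_right _ h1
    have h3 : n * (1 + 2 * (Sy.gf (2 * n + 2) * S.K)) ≤
        n * (1 + 2 * (Sy.gf (2 * (n + 1) + 2) * S.K)) := Nat.mul_le_mul_left _ (by omega)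
    have h4 : S.Gf (n + 1) = S.Gf n + 1 + 2 * (Sy.gf (2 * n + 2) * S.K) := rfl
    have h5 : (n + 1) * (1 + 2 * (Sy.gf (2 * (n + 1) + 2) * S.K)) =
        n * (1 + 2 * (Sy.gf (2 * (n + 1) + 2) * S.K)) +
          (1 + 2 * (Sy.gf (2 * (n + 1) + 2) * S.K)) := by ring
    rw [h4, h5]
    omega

theorem gf_iter (n : ℕ) : Sy.gf n = (fun x => 2 * x + 6)^[n] 0 := by
  induction n with
  | zero => rfl
  | succ n ih => rw [Sy.gf_succ, ih, Function.iterate_succ_apply']

/-- the bound for words of length `n` in a graph with `E` edges -/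
def bW (E n : ℕ) : ℕ := beF E (2 * gW (E + 1) n) + 4 * gW (E + 1) n

theorem wide_bound {c : Code} {σ : Equiv.Perm (Dart c)} (hσ : Rotation c σ) (hV : Valid c)
    (hW : Wide c σ) (w : List (Option (Edge c)))
    (hw : (w.map (PresentedGroup.of (rels := {r | Rlt c r}))).prod = 1) :
    GR (Ru c) (bW c.2.1.length w.length) w [] := by
  refine (wide_derive hσ hV hW w hw).mono ?_
  exact Sy.T_mono (Gf_le _ _)

theorem primrec_gf : Primrec Sy.gf := by
  have h : Primrec fun n : ℕ => (fun x => 2 * x + 6)^[n] 0 :=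
    Primrec.nat_iterate Primrec.id (Primrec.const 0)
      (Primrec.nat_add.comp (Primrec.nat_mul.comp (Primrec.const 2) Primrec.snd)
        (Primrec.const 6)).to₂
  exact h.of_eq fun n => (gf_iter n).symm

theorem primrec_gc : Primrec fun p : ℕ × ℕ => Qd.gc p.1 p.2 :=
  Primrec.nat_mul.comp (Primrec.nat_mul.comp (Primrec.const 40) (Primrec.succ.comp Primrec.fst))
    (Primrec.succ.comp Primrec.snd)

theorem primrec_gG : Primrec fun p : ℕ × ℕ => Qd.gG p.1 p.2 :=
  Primrec.nat_iterate (Primrec.succ.comp Primrec.snd) Primrec.snd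
    (primrec_gc.comp (Primrec.pair (Primrec.fst.comp Primrec.fst) Primrec.snd)).to₂

theorem primrec_bd {α : Type} [Primcodable α] {f g h : α → ℕ} (hf : Primrec f) (hg : Primrec g)
    (hh : Primrec h) : Primrec fun a => Qd.bd (f a) (g a) (h a) :=
  Primrec.nat_iterate hg (Primrec.succ.comp hh)
    (primrec_gG.comp (Primrec.pair (hf.comp Primrec.fst) Primrec.snd)).to₂

/-- the bound on the lengths in derivations -/
def bndW (q : Code × List ℕ) : ℕ := bW q.1.2.1.length q.2.length

theorem primrec_bndW : Primrec bndW := by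
  have hE : Primrec (fun q : Code × List ℕ => q.1.2.1.length) :=
    Primrec.list_length.comp (Primrec.fst.comp (Primrec.snd.comp Primrec.fst))
  have hn : Primrec (fun q : Code × List ℕ => q.2.length) := Primrec.list_length.comp Primrec.snd
  have hg : Primrec (fun q : Code × List ℕ => gW (q.1.2.1.length + 1) q.2.length) :=
    Primrec.nat_mul.comp hn (Primrec.nat_add.comp (Primrec.const 1) (Primrec.nat_mul.comp
      (Primrec.const 2) (Primrec.nat_mul.comp (primrec_gf.comp (Primrec.nat_add.comp
        (Primrec.nat_mul.comp (Primrec.const 2) hn) (Primrec.const 2))) (Primrec.succ.comp hE))))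
  have h2E : Primrec (fun q : Code × List ℕ => 2 * q.1.2.1.length) :=
    Primrec.nat_mul.comp (Primrec.const 2) hE
  exact Primrec.nat_add.comp (Primrec.nat_add.comp
    (primrec_bd h2E h2E (Primrec.nat_mul.comp (Primrec.const 2) hg))
    (Primrec.nat_add.comp hE (Primrec.const 4))) (Primrec.nat_mul.comp (Primrec.const 4) hg)

theorem wide_solvable : Solvable FaceWidthFour := by
  refine solvable_of_bound FaceWidthFour bndW primrec_bndW ?_
  rintro c hV ⟨σ, hσ, hW⟩ u hu
  have h1 := wide_bound hσ hV hW u hu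
  have h2 := Ru_reach h1
  show Relation.ReflTransGen (BStep (RL c) _) (u.map (enc c)) []
  unfold bndW
  simp only [List.length_map]
  exact h2

end Pool.Agent.Helper2GI
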