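import Mathlib
import Pool.Agent.Helper2GI.Fw4
import Pool.Agent.Helper2GI.SphR

/-!
Planar graphs are embedded graphs of face-width at least four.
-/

set_option autoImplicit false

namespace Pool.Agent.Helper2GI

variable {c : Code} {σ : Equiv.Perm (Dart c)} {cl : ℕ → ℕ}

open Classical in
/-- spanning tree and dual tree of a planar component -/
theorem piece_Y (hV : Valid c) (hσ : Rotation c σ) {U : ℕ} (hJ : Joined c cl U)
    (r : ℕ) (hr : r < c.1) (hrU : cl r = U) (hne : Nonempty (Edge c))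
    (heul : nR hσ cl U + nV c cl U ≥ nE c cl U + 2) :
    ∃ (dp : ℕ → ℕ) (pe : ℕ → Edge c → Prop) (Y : Rg c σ cl → List (Edge c)),
      Peel c cl U dp pe ∧ (∀ v, cl v = U → dp v < c.1 + 1) ∧
      ∀ e : Dart c, cl (tl e) = U → ¬ TE cl U pe e.1 →
        Y (reg σ cl e) = Y (reg σ cl (σ⁻¹ e)) ++ [e.1] ∨
        Y (reg σ cl (σ⁻¹ e)) = Y (reg σ cl e) ++ [e.1] := by
  obtain ⟨dp, par, pz, pt, h1, hdp, h2, h3⟩ := exists_paths hV cl U hJ r hr hrU none hne
  have hP : Peel c cl U dp (peR c cl U r none pz) := by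
    constructor
    · rintro v i hv (⟨rfl, hb⟩ | ⟨hvr, hvc, _, rfl⟩)
      · cases hb
      · exact (h1 v hvc hv hvr).1
    · rintro v w i hv hw (⟨rfl, hb⟩ | ⟨hvr, hvc, _, rfl⟩) hwi hwv
      · cases hb
      · obtain ⟨a1, a2, a3, a4, a5, a6⟩ := h1 v hvc hv hvr
        rcases two_ends a1 a2 (Ne.symm a3) hwi with h | h
        · exact absurd h hwv
        · rw [h]; omega
    · rintro v i j hv (⟨rfl, hb⟩ | ⟨hvr, _, _, rfl⟩) (⟨h, hb'⟩ | ⟨hvr', _, _, rfl⟩)
      · cases hb
      · exact absurd rfl hvr'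
      · exact absurd h hvr
      · rfl
  let X := {v : ℕ // v < c.1 ∧ cl v = U}
  have hfinX : Finite X := by
    refine Finite.of_injective (β := Fin c.1) (fun x => ⟨x.1, x.2.1⟩) ?_
    intro x y h
    exact Subtype.ext (congrArg Fin.val h)
  have hX1 : nV c cl U = Nat.card X := rfl
  have hTE : nV c cl U ≤ Nat.card {i : Edge c // TE cl U (peR c cl U r none pz) i} + 1 := by
    have inj : ∀ {v w i}, cl v = U → cl w = U → peR c cl U r none pz v i →
        peR c cl U r none pz w i → v = w := by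
      intro v w i hv hw h h'
      by_contra hvw
      have a1 := hP.low hv hw h (hP.inc hw h') (Ne.symm hvw)
      have a2 := hP.low hw hv h' (hP.inc hv h) hvw
      omega
    let F : {x : X // x.1 ≠ r} → {i : Edge c // TE cl U (peR c cl U r none pz) i} :=
      fun x => ⟨pz x.1.1, x.1.1, x.1.2.2, Or.inr ⟨x.2, x.1.2.1, x.1.2.2, rfl⟩⟩
    have hF : Function.Injective F := by
      intro x y hxy
      have h4 : pz x.1.1 = pz y.1.1 := congrArg Subtype.val hxy
      refine Subtype.ext (Subtype.ext ?_)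
      refine inj x.1.2.2 y.1.2.2 (Or.inr ⟨x.2, x.1.2.1, x.1.2.2, rfl⟩) ?_
      rw [h4]
      exact Or.inr ⟨y.2, y.1.2.1, y.1.2.2, rfl⟩
    have h4 := Nat.card_le_card_of_injective F hF
    have h5 : Nat.card X ≤ Nat.card {x : X // x.1 ≠ r} + 1 := by
      have h6 : Fintype X := Fintype.ofFinite X
      rw [Nat.card_eq_fintype_card, Nat.card_eq_fintype_card]
      have := Fintype.card_subtype_compl (fun x : X => x = ⟨r, hr, hrU⟩)
      rw [Fintype.card_subtype_eq] at this
      have h7 : Fintype.card {x : X // x.1 ≠ r} = Fintype.card {x : X // ¬ x = ⟨r, hr, hrU⟩} :=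
        Fintype.card_congr (Equiv.subtypeEquivRight (fun x => by
          constructor
          · intro h h'
            exact h (congrArg Subtype.val h')
          · intro h h'
            exact h (Subtype.ext h')))
      omega
    omega
  have hn : ∀ v, cl v = U → dp v < c.1 + 1 := fun v _ => hdp v
  obtain ⟨Y, _, hY2⟩ := exists_Y hV hσ hP (c.1 + 1) hn hJ (by
    have e1 : Nat.card {f : Rg c σ cl // rcl hσ f = U} = nR hσ cl U := rfl
    have e2 : Nat.card {i : Edge c // ∃ v, cl v = U ∧ Inc c v i} = nE c cl U := rfl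
    rw [e1, e2]
    omega)
  exact ⟨dp, _, Y, hP, hn, hY2⟩

theorem cl_op (hcomp : ∀ (u v : ℕ) (i : Edge c), Inc c u i → Inc c v i → cl u = cl v)
    (e : Dart c) : cl (tl (op e)) = cl (tl e) := hcomp _ _ e.1 (inc_tl (op e)) (inc_tl e)

open Classical in
/-- potentials with values in a group -/
theorem group_pot {G : Type} [Group G] (κ : Dart c → G) (hκ1 : ∀ d, κ d * κ (op d) = 1)
    (hκ2 : ∀ d, ((pas σ d (per σ d)).map κ).prod = 1)
    (hV : Valid c) (hσ : Rotation c σ)
    (hcomp : ∀ (u v : ℕ) (i : Edge c), Inc c u i → Inc c v i → cl u = cl v) {U : ℕ}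
    {dp : ℕ → ℕ} {pe : ℕ → Edge c → Prop} (hP : Peel c cl U dp pe) (n : ℕ)
    (hn : ∀ v, cl v = U → dp v < n) (Y : Rg c σ cl → List (Edge c))
    (hY2 : ∀ e : Dart c, cl (tl e) = U → ¬ TE cl U pe e.1 →
        Y (reg σ cl e) = Y (reg σ cl (σ⁻¹ e)) ++ [e.1] ∨
        Y (reg σ cl (σ⁻¹ e)) = Y (reg σ cl e) ++ [e.1]) :
    ∃ y : Rg c σ cl → G, ∀ e : Dart c, cl (tl e) = U →
      y (reg σ cl e) = y (reg σ cl (σ⁻¹ e)) * κ e := by
  have hin : ∀ e : Dart c, inn cl e := fun e => (cl_op hcomp e).symm
  let Q : Rg c σ cl → Dart c → Prop := fun f e => cl (tl e) = U ∧ ¬ TE cl U pe e.1 ∧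
    reg σ cl e = f ∧ Y f = Y (reg σ cl (σ⁻¹ e)) ++ [e.1]
  let yn : ℕ → Rg c σ cl → G := fun m => Nat.rec (fun _ => 1) (fun _ g f =>
    if h : ∃ e, Q f e then g (reg σ cl (σ⁻¹ (Classical.choose h))) * κ (Classical.choose h)
    else 1) m
  have hys : ∀ m f, yn (m + 1) f = if h : ∃ e, Q f e then
    yn m (reg σ cl (σ⁻¹ (Classical.choose h))) * κ (Classical.choose h) else 1 := fun _ _ => rfl
  let y : Rg c σ cl → G := fun f => yn (Y f).length f
  have huniq : ∀ {f : Rg c σ cl} {e e' : Dart c}, Q f e → Q f e' → e' = e := by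
    rintro f e e' ⟨a1, a2, a3, a4⟩ ⟨b1, b2, b3, b4⟩
    have h1 : e'.1 = e.1 := by
      rw [a4] at b4
      have := (List.append_inj' b4 rfl).2
      simpa using this.symm
    rcases same_edge h1 with h2 | h2
    · exact h2
    · exfalso
      rw [h2, reg_op (hin e)] at b3
      rw [b3] at a4
      have := congrArg List.length a4
      simp at this
  have hstep : ∀ e : Dart c, cl (tl e) = U → ¬ TE cl U pe e.1 →
      Y (reg σ cl e) = Y (reg σ cl (σ⁻¹ e)) ++ [e.1] →
      y (reg σ cl e) = y (reg σ cl (σ⁻¹ e)) * κ e := by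
    intro e h1 h2 h3
    have hQ : ∃ e', Q (reg σ cl e) e' := ⟨e, h1, h2, rfl, h3⟩
    have h4 : Classical.choose hQ = e := huniq ⟨h1, h2, rfl, h3⟩ (Classical.choose_spec hQ)
    show yn (Y (reg σ cl e)).length (reg σ cl e) = yn (Y (reg σ cl (σ⁻¹ e))).length
      (reg σ cl (σ⁻¹ e)) * κ e
    have h5 : (Y (reg σ cl e)).length = (Y (reg σ cl (σ⁻¹ e))).length + 1 := by
      rw [h3, List.length_append, List.length_singleton]
    rw [h5, hys, dif_pos hQ, h4]
  have hinv : ∀ e : Dart c, (κ (op e))⁻¹ = κ e := fun e =>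
    inv_eq_of_mul_eq_one_left (hκ1 e)
  refine ⟨y, ?_⟩
  intro e he
  refine peel_ind (U := fun v => cl v = U) (dp := dp) (pe := pe) hP.low n hn
    (fun _ i => ∀ e : Dart c, e.1 = i → cl (tl e) = U →
      y (reg σ cl e) = y (reg σ cl (σ⁻¹ e)) * κ e)
    (fun _ _ h => h) ?_ ?_ hP.uniq e.1 ⟨tl e, he, inc_tl e⟩ e rfl he
  · intro i _ hT e he hU
    subst he
    have hT' : ¬ TE cl U pe e.1 := hT
    rcases hY2 e hU hT' with h2 | h2
    · exact hstep e hU hT' h2
    · have h3 := hstep (op e) (by rw [cl_op hcomp]; exact hU) hT' (by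
        rw [reg_op (hin e), reg_op' (hin e)]
        exact h2)
      rw [reg_op (hin e), reg_op' (hin e)] at h3
      rw [h3, mul_assoc, ← hinv e]
      simp
  · intro k v i hv hvi hj
    have main : ∀ e : Dart c, e.1 = i → tl e = v →
        y (reg σ cl e) = y (reg σ cl (σ⁻¹ e)) * κ e := by
      intro e he hev
      have hp := per_pos (σ := σ) e
      have h1 : ∀ m ≤ per σ e - 1,
          y (reg σ cl (σ^[m] e)) = y (reg σ cl e) * ((pas σ e m).map κ).prod := by
        intro m
        induction m with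
        | zero => intro _; simp [pas]
        | succ m ih =>
          intro hm
          have h2 := hj (σ^[m + 1] e).1 (by
            intro h2
            have h3 := dart_unique hV (h2.trans he.symm) (tl_iter hσ e (m + 1))
            exact iter_ne (by omega) (by omega) h3) (by
            have := inc_tl (σ^[m + 1] e)
            rwa [tl_iter hσ, hev] at this) (σ^[m + 1] e) rfl (by
            rw [tl_iter hσ, hev]; exact hv)
          have e1 : σ⁻¹ (σ^[m + 1] e) = σ^[m] e := by rw [Function.iterate_succ_apply', pinv2]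
          rw [e1, ih (by omega)] at h2
          rw [h2, pas_add, List.map_append, List.prod_append, pas_one, List.map_singleton,
            List.prod_singleton, mul_assoc, ← Function.iterate_succ_apply' (f := σ)]
      have h2 := h1 (per σ e - 1) le_rfl
      rw [per_last] at h2
      have h3 := hκ2 e
      have h4 : per σ e = (per σ e - 1) + 1 := by omega
      rw [h4, pas_add, List.map_append, List.prod_append, pas_one, List.map_singleton,
        List.prod_singleton, per_last, pinv1] at h3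
      rw [h2, mul_assoc, h3, mul_one]
    intro e he hU
    by_cases hev : tl e = v
    · exact main e he hev
    · have h1 : Inc c v e.1 := by
        rw [he]
        exact hP.inc hv hvi
      have h2 : v = tl (op e) := by
        rcases tl_of_inc h1 with h | h
        · exact absurd h.symm hev
        · exact h
      have h3 := main (op e) (by rw [op_fst, he]) h2.symm
      rw [reg_op (hin e), reg_op' (hin e)] at h3
      rw [h3, mul_assoc, ← hinv e]
      simp

theorem planar_wide (hV : Valid c) (hσ : Rotation c σ) (hM : Spheres c σ hσ cl) : Wide c σ := by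
  -- potentials
  have hκ1 : ∀ d : Dart c, (PresentedGroup.of d : PiS c σ) * PresentedGroup.of (op d) = 1 := by
    intro d
    have := PresentedGroup.one_of_mem (rels := {r | RelS c σ r}) (RelS.op d)
    rwa [map_mul] at this
  have hκ2 : ∀ d : Dart c, ((pas σ d (per σ d)).map
      (PresentedGroup.of (rels := {r | RelS c σ r}))).prod = 1 := by
    intro d
    have := PresentedGroup.one_of_mem (rels := {r | RelS c σ r}) (RelS.rot d)
    rw [map_list_prod, List.map_map] at this
    exact this
  have hpot : ∀ d : Dart c, ∃ y : Rg c σ cl → PiS c σ, ∀ e : Dart c, cl (tl e) = cl (tl d) →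
      y (reg σ cl e) = y (reg σ cl (σ⁻¹ e)) * PresentedGroup.of e := by
    intro d
    have hlt := tl_lt hV d
    obtain ⟨dp, pe, Y, hP, hn, hY2⟩ := piece_Y hV hσ (hM.joined _ hlt) (tl d) hlt rfl ⟨d.1⟩ (by
      have := hM.euler _ hlt ⟨d.1, inc_tl d⟩
      omega)
    exact group_pot _ hκ1 hκ2 hV hσ hM.comp hP _ hn Y hY2
  have hface : ∀ a b : Dart c, face σ a = face σ b → reg σ cl a = reg σ cl b := by
    intro a b h
    have h1 : ∀ d d' : Dart c, Meet σ d d' → reg σ cl d = reg σ cl d' := by
      intro d d' hd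
      refine Quot.sound ⟨(cl_op hM.comp (σ d)).symm, hd⟩
    exact congrArg (Quot.lift (reg σ cl) h1) h
  intro d₁ d₂ d₃ n₁ n₂ n₃ h1 h2 h3
  obtain ⟨y, hy⟩ := hpot d₁
  have key : ∀ d : Dart c, cl (tl d) = cl (tl d₁) → ∀ n,
      thru σ d n = (y (reg σ cl d))⁻¹ * y (reg σ cl (σ^[n] d)) := by
    intro d hd n
    induction n with
    | zero =>
      show 1 = (y (reg σ cl d))⁻¹ * y (reg σ cl d)
      rw [inv_mul_cancel]
    | succ n ih =>
      have h4 := hy (σ^[n + 1] d) (by rw [tl_iter hσ]; exact hd)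
      have e1 : σ⁻¹ (σ^[n + 1] d) = σ^[n] d := by rw [Function.iterate_succ_apply', pinv2]
      rw [e1] at h4
      rw [h4, ← mul_assoc, ← ih]
      unfold thru
      rw [pas_add, List.map_append, List.prod_append, pas_one, List.map_singleton,
        List.prod_singleton, ← Function.iterate_succ_apply' (f := σ)]
  have g1 := hface _ _ h1
  have g2 := hface _ _ h2
  have g3 := hface _ _ h3
  have hcl : ∀ {a b : Dart c}, reg σ cl a = reg σ cl b → cl (tl a) = cl (tl b) := by
    intro a b h
    have := congrArg (rcl hσ) h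
    rwa [rcl_reg, rcl_reg] at this
  have c2 : cl (tl d₂) = cl (tl d₁) := by
    rw [← hcl g1, tl_iter hσ]
  have c3 : cl (tl d₃) = cl (tl d₁) := by
    rw [← hcl g2, tl_iter hσ, c2]
  rw [key d₁ rfl, key d₂ c2, key d₃ c3, g1, g2, g3]
  group

/-- planar graphs have face-width at least four -/
theorem planar_faceWidth {c : Code} (hV : Valid c) (h : Planar c) : FaceWidthFour c := by
  obtain ⟨σ, hσ, cl, hM⟩ := h
  exact ⟨σ, hσ, planar_wide hV hσ hM⟩

end Pool.Agent.Helper2GI
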