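import Mathlib
import Pool.Agent.Helper2GI.Fw5

/-!
Graphs embedded in closed surfaces, orientable or not: the class, and the group of the
orientation cover.
-/

set_option autoImplicit false

namespace Pool.Agent.Helper2GI

/-- Corners which meet along an edge, on the same side of it. The corner between `d` and `σ d` is
denoted by `d`; the signature `ε` of an edge is `true` if the cyclic orders at its two ends have
different orientations along the edge. -/
inductive MeetN {c : Code} (σ : Equiv.Perm (Dart c)) (ε : Edge c → Bool) : Dart c → Dart c → Prop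
  | plain (d : Dart c) (h : ε d.1 = false) : MeetN σ ε (σ⁻¹ d) (op d)
  | after (d : Dart c) (h : ε d.1 = true) : MeetN σ ε d (op d)
  | before (d : Dart c) (h : ε d.1 = true) : MeetN σ ε (σ⁻¹ d) (σ⁻¹ (op d))

/-- The faces: the classes of corners. -/
def FaceN (c : Code) (σ : Equiv.Perm (Dart c)) (ε : Edge c → Bool) : Type :=
  Quot (MeetN (c := c) σ ε)

/-- The face of the corner between `d` and `σ d`. -/
def faceN {c : Code} (σ : Equiv.Perm (Dart c)) (ε : Edge c → Bool) (d : Dart c) : FaceN c σ ε :=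
  Quot.mk _ d

/-- The relators of the dual complex: crossing an edge at one end is inverse (or, for signature
`true`, equal) to crossing it at the other end, and the darts around a vertex have trivial
product. -/
inductive RelN (c : Code) (σ : Equiv.Perm (Dart c)) (ε : Edge c → Bool) :
    FreeGroup (Dart c) → Prop
  | plain (d : Dart c) (h : ε d.1 = false) :
      RelN c σ ε (FreeGroup.of d * FreeGroup.of (op d))
  | twist (d : Dart c) (h : ε d.1 = true) :
      RelN c σ ε (FreeGroup.of d * (FreeGroup.of (op d))⁻¹)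
  | rot (d : Dart c) :
      RelN c σ ε ((pas σ d (Function.minimalPeriod σ d)).map FreeGroup.of).prod

/-- The group generated by the darts with these relators: the fundamental group of the surface
after all faces (as vertices of the dual complex) have been identified. -/
abbrev PiN (c : Code) (σ : Equiv.Perm (Dart c)) (ε : Edge c → Bool) : Type :=
  PresentedGroup {r | RelN c σ ε r}

/-- The class of the path from the face of `d` through the vertex of `d` to the face of
`σ^n d`. -/
def thruN {c : Code} (σ : Equiv.Perm (Dart c)) (ε : Edge c → Bool) (d : Dart c) (n : ℕ) :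
    PiN c σ ε :=
  ((pas σ d n).map (PresentedGroup.of (rels := {r | RelN c σ ε r}))).prod

/-- Every closed curve which meets the graph in at most three vertices (and runs through faces
otherwise) is contractible. -/
def WideN (c : Code) (σ : Equiv.Perm (Dart c)) (ε : Edge c → Bool) : Prop :=
  ∀ (d₁ d₂ d₃ : Dart c) (n₁ n₂ n₃ : ℕ), faceN σ ε (σ^[n₁] d₁) = faceN σ ε d₂ →
    faceN σ ε (σ^[n₂] d₂) = faceN σ ε d₃ → faceN σ ε (σ^[n₃] d₃) = faceN σ ε d₁ →
      thruN σ ε d₁ n₁ * thruN σ ε d₂ n₂ * thruN σ ε d₃ n₃ = 1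

/-- The graph has an embedding with face-width at least four into closed surfaces, orientable or
not (one for each component). -/
def LocallyPlanar (c : Code) : Prop :=
  ∃ (σ : Equiv.Perm (Dart c)) (ε : Edge c → Bool), Rotation c σ ∧ WideN c σ ε

/-- orientable surfaces -/
theorem faceWidth_locally {c : Code} (h : FaceWidthFour c) : LocallyPlanar c := by
  obtain ⟨σ, hσ, hW⟩ := h
  refine ⟨σ, fun _ => false, hσ, ?_⟩
  have hface : ∀ a b : Dart c, faceN σ (fun _ => false) a = faceN σ (fun _ => false) b →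
      face σ a = face σ b := by
    intro a b h
    have h1 : ∀ d d' : Dart c, MeetN σ (fun _ => false) d d' → face σ d = face σ d' := by
      intro d d' hd
      cases hd with
      | plain d h => exact (face_op1 d).symm
      | after d h => simp at h
      | before d h => simp at h
    exact congrArg (Quot.lift (face σ) h1) h
  have hrel : ∀ r ∈ {r | RelS c σ r}, FreeGroup.lift
      (PresentedGroup.of (rels := {r | RelN c σ (fun _ => false) r})) r = 1 := by
    intro r hr
    have hr' : RelS c σ r := hr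
    cases hr' with
    | op d =>
      have := PresentedGroup.one_of_mem (rels := {r | RelN c σ (fun _ => false) r})
        (RelN.plain d rfl)
      rw [map_mul] at this
      rw [map_mul, FreeGroup.lift_apply_of, FreeGroup.lift_apply_of]
      exact this
    | rot d =>
      have := PresentedGroup.one_of_mem (rels := {r | RelN c σ (fun _ => false) r})
        (RelN.rot d)
      rw [map_list_prod, List.map_map] at this
      rw [map_list_prod, List.map_map]
      have e : (⇑(FreeGroup.lift (PresentedGroup.of (rels := {r | RelN c σ (fun _ => false) r}))) ∘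
          FreeGroup.of) = PresentedGroup.of := by
        funext d
        exact FreeGroup.lift_apply_of
      rw [e]
      exact this
  have hthru : ∀ (d : Dart c) (n : ℕ), PresentedGroup.toGroup hrel (thru σ d n) =
      thruN σ (fun _ => false) d n := by
    intro d n
    unfold thru thruN
    rw [map_list_prod, List.map_map]
    congr 1
  intro d₁ d₂ d₃ n₁ n₂ n₃ h1 h2 h3
  have h4 := congrArg (PresentedGroup.toGroup hrel) (hW d₁ d₂ d₃ n₁ n₂ n₃ (hface _ _ h1)
    (hface _ _ h2) (hface _ _ h3))
  rw [map_mul, map_mul, hthru, hthru, hthru, map_one] at h4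
  exact h4

section

variable {c : Code} {σ : Equiv.Perm (Dart c)} {ε : Edge c → Bool}

/-! ### Orientations of the faces -/

/-- the corners of the orientation cover -/
def nx (σ : Equiv.Perm (Dart c)) (ε : Edge c → Bool) (x : Dart c × Bool) : Dart c × Bool :=
  if x.2 then (op (σ⁻¹ x.1), xor x.2 (ε (σ⁻¹ x.1).1)) else (op (σ x.1), xor x.2 (ε (σ x.1).1))

/-- the deck transformation on corners -/
def dk (σ : Equiv.Perm (Dart c)) (x : Dart c × Bool) : Dart c × Bool :=
  if x.2 then (σ⁻¹ x.1, false) else (σ x.1, true)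

theorem nx_f (d : Dart c) : nx σ ε (d, false) = (op (σ d), ε (σ d).1) := by
  unfold nx
  simp

theorem nx_t (d : Dart c) : nx σ ε (d, true) = (op (σ⁻¹ d), !ε (σ⁻¹ d).1) := by
  unfold nx
  simp

theorem dk_f (d : Dart c) : dk σ (d, false) = (σ d, true) := rfl

theorem dk_t (d : Dart c) : dk σ (d, true) = (σ⁻¹ d, false) := rfl

theorem dk_dk (x : Dart c × Bool) : dk σ (dk σ x) = x := by
  obtain ⟨d, s⟩ := x
  cases s
  · rw [dk_f, dk_t, pinv2]
  · rw [dk_t, dk_f, pinv1]

theorem dk_snd (x : Dart c × Bool) : (dk σ x).2 = !x.2 := by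
  obtain ⟨d, s⟩ := x
  cases s <;> rfl

theorem nx_dk_nx (x : Dart c × Bool) : nx σ ε (dk σ (nx σ ε x)) = dk σ x := by
  obtain ⟨d, s⟩ := x
  cases s
  · rw [nx_f]
    cases h : ε (σ d).1
    · rw [dk_f, nx_t, pinv2, op_op, op_fst, h]
      rfl
    · rw [dk_t, nx_f, pinv1, op_op, op_fst, h]
      rfl
  · rw [nx_t]
    cases h : ε (σ⁻¹ d).1
    · rw [Bool.not_false, dk_t, nx_f, pinv1, op_op, op_fst, h]
      rfl
    · rw [Bool.not_true, dk_f, nx_t, pinv2, op_op, op_fst, h]
      rfl

theorem ne_op' (e : Dart c) : e ≠ op e := fun h => by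
  have := congrArg Prod.snd h
  unfold op at this
  simp at this

theorem dk_ne_nx (x : Dart c × Bool) : dk σ x ≠ nx σ ε x := by
  obtain ⟨d, s⟩ := x
  intro h
  cases s
  · rw [dk_f, nx_f] at h
    exact ne_op' _ (congrArg Prod.fst h)
  · rw [dk_t, nx_t] at h
    exact ne_op' _ (congrArg Prod.fst h)

theorem dk_iter (n : ℕ) (x : Dart c × Bool) : (nx σ ε)^[n] (dk σ ((nx σ ε)^[n] x)) = dk σ x := by
  induction n generalizing x with
  | zero => rfl
  | succ n ih =>
    rw [Function.iterate_succ_apply (nx σ ε) n x, Function.iterate_succ_apply' (nx σ ε) n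
      (dk σ _), ih, nx_dk_nx]

theorem dk_not_orbit (n : ℕ) (x : Dart c × Bool) : dk σ x ≠ (nx σ ε)^[n] x := by
  intro h
  rcases Nat.even_or_odd' n with ⟨m, rfl | rfl⟩
  · have h1 := dk_iter (σ := σ) (ε := ε) m x
    have h2 : (nx σ ε)^[2 * m] x = (nx σ ε)^[m] ((nx σ ε)^[m] x) := by
      rw [two_mul, Function.iterate_add_apply]
    rw [h, h2] at h1
    have hinj : Function.Injective ((nx σ ε)^[m]) := by
      refine Function.Injective.iterate ?_ m
      intro a b hab
      have h3 := congrArg (fun z => nx σ ε (dk σ z)) hab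
      simp only [nx_dk_nx] at h3
      rw [← dk_dk (σ := σ) a, h3, dk_dk]
    have h3 := hinj h1
    have h4 := congrArg Prod.snd h3
    rw [dk_snd] at h4
    simp at h4
  · have h1 := dk_iter (σ := σ) (ε := ε) m x
    have h2 : (nx σ ε)^[2 * m + 1] x = (nx σ ε)^[m] (nx σ ε ((nx σ ε)^[m] x)) := by
      rw [← Function.iterate_succ_apply' (nx σ ε) m x, ← Function.iterate_add_apply]
      congr 1
      omega
    rw [h, h2] at h1
    have hinj : Function.Injective ((nx σ ε)^[m]) := by
      refine Function.Injective.iterate ?_ m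
      intro a b hab
      have h3 := congrArg (fun z => nx σ ε (dk σ z)) hab
      simp only [nx_dk_nx] at h3
      rw [← dk_dk (σ := σ) a, h3, dk_dk]
    exact dk_ne_nx _ (hinj h1)

theorem nx_inj : Function.Injective (nx σ ε) := by
  intro a b hab
  have h3 := congrArg (fun z => nx σ ε (dk σ z)) hab
  simp only [nx_dk_nx] at h3
  rw [← dk_dk (σ := σ) a, h3, dk_dk]

/-- faces of the orientation cover -/
def FQ (σ : Equiv.Perm (Dart c)) (ε : Edge c → Bool) : Type :=
  Quot fun x y : Dart c × Bool => y = nx σ ε x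

/-- the face of a corner of the cover -/
def mq (σ : Equiv.Perm (Dart c)) (ε : Edge c → Bool) (x : Dart c × Bool) : FQ σ ε := Quot.mk _ x

theorem nx_mk (x : Dart c × Bool) : mq σ ε (nx σ ε x) = mq σ ε x :=
  (Quot.sound (r := fun x y : Dart c × Bool => y = nx σ ε x) rfl).symm

theorem dk_resp (x y : Dart c × Bool) (h : y = nx σ ε x) :
    mq σ ε (dk σ x) = mq σ ε (dk σ y) := by
  subst h
  rw [← nx_dk_nx (σ := σ) (ε := ε) x, nx_mk]

theorem FQ_exact {x y : Dart c × Bool} (h : mq σ ε x = mq σ ε y) :
    ∃ n, (nx σ ε)^[n] x = y := by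
  have h1 := Quot.eqvGen_exact h
  clear h
  induction h1 with
  | rel a b h => exact ⟨1, h.symm⟩
  | refl a => exact ⟨0, rfl⟩
  | symm a b _ ih =>
    obtain ⟨n, rfl⟩ := ih
    -- periodicity
    let π : Equiv.Perm (Dart c × Bool) := Equiv.ofBijective _ (Finite.injective_iff_bijective.1
      (nx_inj (σ := σ) (ε := ε)))
    have hπ : ∀ m x, π^[m] x = (nx σ ε)^[m] x := fun m x => rfl
    have h2 : Function.minimalPeriod π a ≠ 0 :=
      (Function.minimalPeriod_pos_of_mem_periodicPts (π.injective.mem_periodicPts a)).ne'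
    set p := Function.minimalPeriod π a with hp
    have h3 : ∀ k, π^[k * p] a = a := by
      intro k
      exact (Function.isPeriodicPt_minimalPeriod π a).const_mul k
    refine ⟨n * (p - 1), ?_⟩
    rw [← hπ, ← hπ, ← Function.iterate_add_apply]
    have h4 : n * (p - 1) + n = n * p := by
      obtain ⟨k, hk⟩ : ∃ k, p = k + 1 := ⟨p - 1, by omega⟩
      rw [hk, Nat.add_sub_cancel]
      ring
    rw [h4, h3]
  | trans a b d _ _ ih1 ih2 =>
    obtain ⟨n, rfl⟩ := ih1
    obtain ⟨m, rfl⟩ := ih2
    exact ⟨m + n, Function.iterate_add_apply _ _ _ _⟩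

/-- the deck transformation on faces -/
def dq (σ : Equiv.Perm (Dart c)) (ε : Edge c → Bool) : FQ σ ε → FQ σ ε :=
  Quot.lift (fun x => mq σ ε (dk σ x)) dk_resp

theorem dq_mq (x : Dart c × Bool) : dq σ ε (mq σ ε x) = mq σ ε (dk σ x) := rfl

theorem mq_surj (f : FQ σ ε) : ∃ x, mq σ ε x = f := Quot.exists_rep f

theorem dq_ne (f : FQ σ ε) : f ≠ dq σ ε f := by
  obtain ⟨x, rfl⟩ := mq_surj f
  intro h
  rw [dq_mq] at h
  obtain ⟨n, hn⟩ := FQ_exact h
  exact dk_not_orbit n x hn.symm

theorem dq_dq (f : FQ σ ε) : dq σ ε (dq σ ε f) = f := by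
  obtain ⟨x, rfl⟩ := mq_surj f
  rw [dq_mq, dq_mq, dk_dk]

open Classical in
/-- orientations of faces of the cover -/
noncomputable def ori (σ : Equiv.Perm (Dart c)) (ε : Edge c → Bool) (f : FQ σ ε) : Bool :=
  decide (WellOrderingRel f (dq σ ε f))

/-- orientations of the faces, seen from the corners -/
noncomputable def chi' (σ : Equiv.Perm (Dart c)) (ε : Edge c → Bool) (d : Dart c) : Bool :=
  ori σ ε (mq σ ε (d, false))

theorem ori_dq (f : FQ σ ε) : ori σ ε (dq σ ε f) = !ori σ ε f := by
  unfold ori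
  rw [dq_dq]
  rcases wo_cases (dq_ne f) with ⟨h1, h2⟩ | ⟨h1, h2⟩
  · simp [h1, h2]
  · simp [h1, h2]

theorem chi_ori' (d : Dart c) : ori σ ε (mq σ ε (σ d, true)) = !chi' σ ε d := by
  unfold chi'
  rw [← ori_dq, dq_mq, dk_f]

theorem chi_plain {d : Dart c} (h : ε d.1 = false) : chi' σ ε (op d) = chi' σ ε (σ⁻¹ d) := by
  unfold chi'
  rw [← nx_mk (σ⁻¹ d, false), nx_f, pinv1, h]

theorem chi_after {d : Dart c} (h : ε d.1 = true) : chi' σ ε (op d) = !chi' σ ε d := by
  rw [← chi_ori' d, ← nx_mk (σ d, true), nx_t, pinv2, h]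
  rfl

theorem chi_before {d : Dart c} (h : ε d.1 = true) :
    chi' σ ε (σ⁻¹ (op d)) = !chi' σ ε (σ⁻¹ d) := by
  have h1 := chi_ori' (σ := σ) (ε := ε) (σ⁻¹ (op d))
  rw [pinv1] at h1
  have h2 : mq σ ε (op d, true) = mq σ ε (σ⁻¹ d, false) := by
    rw [← nx_mk (σ⁻¹ d, false), nx_f, pinv1, h]
  rw [h2] at h1
  have h3 : chi' σ ε (σ⁻¹ d) = !chi' σ ε (σ⁻¹ (op d)) := h1
  rw [h3, Bool.not_not]

end

end Pool.Agent.Helper2GI
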