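import Mathlib
import Pool.Agent.Helper2GI.Fn1

/-!
Graphs embedded in closed surfaces: the group of decorations, through the orientation cover.
-/

set_option autoImplicit false

namespace Pool.Agent.Helper2GI

open RA

variable {c : Code}

/-- the involution on the darts of the orientation cover -/
def opN (ε : Edge c → Bool) (x : Dart c × Bool) : Dart c × Bool := (op x.1, xor x.2 (ε x.1.1))

theorem opN_opN (ε : Edge c → Bool) (x : Dart c × Bool) : opN ε (opN ε x) = x := by
  obtain ⟨d, s⟩ := x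
  unfold opN
  simp only [op_op, op_fst]
  cases s <;> cases ε d.1 <;> rfl

/-- the involution as a structure -/
def oN (ε : Edge c → Bool) : Qd.Op (Dart c × Bool) where
  op := opN ε
  op_op := opN_opN ε
  ne := fun d h => ne_op' d.1 (congrArg Prod.fst h).symm

variable (σ : Equiv.Perm (Dart c)) (ε : Edge c → Bool)

/-- the darts around a vertex of the cover -/
noncomputable def rN (v : ℕ) (s : Bool) : List (Dart c × Bool) :=
  if s then ((rl σ v).reverse).map (fun d => (d, true)) else (rl σ v).map (fun d => (d, false))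

/-- the quadratic system of the cover -/
noncomputable def sN : Qd.Sys (Dart c × Bool) :=
  (List.range c.1).map (fun v => (rN σ v false, (colour c v : ZMod 2))) ++
    (List.range c.1).map (fun v => (rN σ v true, (colour c v : ZMod 2)))

/-- the group of the cover -/
abbrev UN : Type := Qd.Hg (oN ε) (sN σ)

variable {σ ε}

theorem mem_rN (hσ : Rotation c σ) {v : ℕ} {s : Bool} {x : Dart c × Bool} :
    x ∈ rN σ v s ↔ x.2 = s ∧ tl x.1 = v := by
  obtain ⟨d, t⟩ := x
  unfold rN
  cases s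
  · simp only [Bool.false_eq_true, if_false, List.mem_map]
    constructor
    · rintro ⟨e, he, h⟩
      obtain ⟨rfl, rfl⟩ := Prod.mk.inj h
      exact ⟨rfl, (mem_rl hσ).1 he⟩
    · rintro ⟨rfl, h⟩
      exact ⟨d, (mem_rl hσ).2 h, rfl⟩
  · simp only [if_true, List.mem_map]
    constructor
    · rintro ⟨e, he, h⟩
      obtain ⟨rfl, rfl⟩ := Prod.mk.inj h
      exact ⟨rfl, (mem_rl hσ).1 (List.mem_reverse.1 he)⟩
    · rintro ⟨rfl, h⟩
      exact ⟨d, List.mem_reverse.2 ((mem_rl hσ).2 h), rfl⟩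

theorem rN_nodup (v : ℕ) (s : Bool) : (rN σ v s).Nodup := by
  unfold rN
  split_ifs
  · exact (List.nodup_reverse.2 (rl_nodup v)).map (fun a b h => (Prod.mk.inj h).1)
  · exact (rl_nodup v).map (fun a b h => (Prod.mk.inj h).1)

theorem flat_sN : Qd.flat (sN σ) = (List.range c.1).flatMap (fun v => rN σ v false) ++
    (List.range c.1).flatMap (fun v => rN σ v true) := by
  unfold Qd.flat sN
  rw [List.flatMap_append, List.flatMap_map, List.flatMap_map]

theorem mem_flatN (hσ : Rotation c σ) (hV : Valid c) (x : Dart c × Bool) :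
    x ∈ Qd.flat (sN σ) := by
  rw [flat_sN, List.mem_append, List.mem_flatMap, List.mem_flatMap]
  have hv : tl x.1 ∈ List.range c.1 := List.mem_range.2 (inc_lt hV (inc_tl x.1))
  rcases hx : x.2 with _ | _
  · exact Or.inl ⟨tl x.1, hv, (mem_rN hσ).2 ⟨hx, rfl⟩⟩
  · exact Or.inr ⟨tl x.1, hv, (mem_rN hσ).2 ⟨hx, rfl⟩⟩

theorem good_sN (hσ : Rotation c σ) (hV : Valid c) : Qd.Good (oN ε) (sN σ) := by
  refine ⟨?_, fun d _ => mem_flatN hσ hV _⟩
  have hs : ∀ s, ((List.range c.1).flatMap (fun v => rN σ v s)).Nodup := by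
    intro s
    rw [List.nodup_flatMap]
    refine ⟨fun v _ => rN_nodup v s, ?_⟩
    refine List.Pairwise.imp ?_ List.nodup_range
    intro u v huv
    rw [Function.onFun, List.disjoint_left]
    intro d h1 h2
    rw [mem_rN hσ] at h1 h2
    exact huv (h1.2.symm.trans h2.2)
  rw [flat_sN, List.nodup_append]
  refine ⟨hs _, hs _, ?_⟩
  intro a ha b hb hab
  subst hab
  rw [List.mem_flatMap] at ha hb
  obtain ⟨v, _, hv⟩ := ha
  obtain ⟨w, _, hw⟩ := hb
  rw [mem_rN hσ] at hv hw
  rw [hv.1] at hw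
  exact absurd hw.1 (by simp)

theorem flatN_len (hσ : Rotation c σ) (hV : Valid c) (ε : Edge c → Bool) :
    (Qd.flat (sN σ)).length ≤ 4 * c.2.1.length := by
  have h := (good_sN (ε := ε) hσ hV).nodup.length_le_card
  rw [Fintype.card_prod, Fintype.card_prod, Fintype.card_fin, Fintype.card_bool] at h
  omega

theorem rN_mem {v : ℕ} (hv : v < c.1) (s : Bool) : (rN σ v s, (colour c v : ZMod 2)) ∈ sN σ := by
  unfold sN
  rw [List.mem_append, List.mem_map, List.mem_map]
  cases s
  · exact Or.inl ⟨v, List.mem_range.2 hv, rfl⟩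
  · exact Or.inr ⟨v, List.mem_range.2 hv, rfl⟩

/-! ### The deck transformation -/

/-- the deck transformation on letters -/
def tN (ε : Edge c → Bool) : Option (Dart c × Bool) → Option (Dart c × Bool) :=
  Option.map fun x => opN ε (x.1, !x.2)

theorem tN_tN (a : Option (Dart c × Bool)) : tN ε (tN ε a) = a := by
  cases a with
  | none => rfl
  | some x =>
    obtain ⟨d, s⟩ := x
    unfold tN opN
    simp only [Option.map_some, op_op, op_fst]
    cases s <;> cases ε d.1 <;> rfl

theorem lt_mul_opN (x : Dart c × Bool) : Qd.lt (oN ε) (sN σ) (some x) *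
    Qd.lt (oN ε) (sN σ) (some (opN ε x)) = 1 := Qd.inv_one x

theorem lt_opN_mul (x : Dart c × Bool) : Qd.lt (oN ε) (sN σ) (some (opN ε x)) *
    Qd.lt (oN ε) (sN σ) (some x) = 1 := by
  have := Qd.inv_one (o := oN ε) (𝓡 := sN σ) (opN ε x)
  have h : (oN ε).op (opN ε x) = x := opN_opN ε x
  rwa [h] at this

theorem lt_opN (x : Dart c × Bool) : Qd.lt (oN ε) (sN σ) (some (opN ε x)) =
    (Qd.lt (oN ε) (sN σ) (some x))⁻¹ := eq_inv_of_mul_eq_one_left (lt_opN_mul x)

theorem prod_inv_rev {G : Type} [Group G] {X : Type} (l : List X) (f : X → G) :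
    (l.map fun x => (f x)⁻¹).prod = ((l.reverse.map f).prod)⁻¹ := by
  induction l with
  | nil => simp
  | cons a l ih =>
    rw [List.map_cons, List.prod_cons, ih, List.reverse_cons, List.map_append, List.prod_append,
      mul_inv_rev]
    simp

theorem rN_val {v : ℕ} (hv : v < c.1) (s : Bool) :
    Qd.val (oN ε) (sN σ) ((rN σ v s).map some) =
      Qd.lt (oN ε) (sN σ) none ^ (colour c v : ZMod 2).val := by
  rw [Qd.rel_val (rN_mem hv s), Qd.val_jw]

theorem relN_val (R : List (Dart c × Bool)) (t : ZMod 2) (h : (R, t) ∈ sN σ) :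
    (R.map fun a => Qd.lt (oN ε) (sN σ) (tN ε (some a))).prod *
      Qd.lt (oN ε) (sN σ) none ^ t.val = 1 := by
  have key : ∀ (v : ℕ), v < c.1 → ∀ s : Bool,
      ((rN σ v s).map fun a => Qd.lt (oN ε) (sN σ) (tN ε (some a))).prod =
        (Qd.val (oN ε) (sN σ) ((rN σ v (!s)).map some))⁻¹ := by
    intro v _ s
    unfold rN Qd.val
    cases s
    · simp only [Bool.false_eq_true, if_false, Bool.not_false, if_true, List.map_map]
      have h1 : (rl σ v).map ((fun a => Qd.lt (oN ε) (sN σ) (tN ε (some a))) ∘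
          fun d => (d, false)) = (rl σ v).map fun d => (Qd.lt (oN ε) (sN σ) (some (d, true)))⁻¹ := by
        refine List.map_congr_left fun d _ => ?_
        exact lt_opN (d, true)
      rw [h1, prod_inv_rev]
      rfl
    · simp only [Bool.false_eq_true, if_false, Bool.not_true, if_true, List.map_map]
      have h1 : (rl σ v).reverse.map ((fun a => Qd.lt (oN ε) (sN σ) (tN ε (some a))) ∘
          fun d => (d, true)) =
          (rl σ v).reverse.map fun d => (Qd.lt (oN ε) (sN σ) (some (d, false)))⁻¹ := by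
        refine List.map_congr_left fun d _ => ?_
        exact lt_opN (d, false)
      rw [h1, prod_inv_rev, List.reverse_reverse]
      rfl
  unfold sN at h
  rw [List.mem_append, List.mem_map, List.mem_map] at h
  rcases h with ⟨v, hv, h⟩ | ⟨v, hv, h⟩
  · rw [List.mem_range] at hv
    obtain ⟨rfl, rfl⟩ := Prod.mk.inj h
    rw [key v hv false, rN_val hv, inv_mul_cancel]
  · rw [List.mem_range] at hv
    obtain ⟨rfl, rfl⟩ := Prod.mk.inj h
    rw [key v hv true, rN_val hv, inv_mul_cancel]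

/-- the deck transformation as a homomorphism -/
noncomputable def tau (σ : Equiv.Perm (Dart c)) (ε : Edge c → Bool) : UN σ ε →* UN σ ε :=
  Qd.lift (fun a => Qd.lt (oN ε) (sN σ) (tN ε a)) Qd.jj_one (fun a => Qd.jx_comm _)
    (fun x => by
      obtain ⟨d, s⟩ := x
      show Qd.lt (oN ε) (sN σ) (some (opN ε (d, !s))) *
        Qd.lt (oN ε) (sN σ) (some (opN ε ((opN ε (d, s)).1, !(opN ε (d, s)).2))) = 1
      have h1 : opN ε ((opN ε (d, s)).1, !(opN ε (d, s)).2) = (d, !s) := by
        unfold opN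
        simp only [op_op, op_fst]
        cases s <;> cases ε d.1 <;> rfl
      rw [h1]
      exact lt_opN_mul _)
    (fun R t h => relN_val R t h)

theorem tau_lt (a : Option (Dart c × Bool)) :
    tau σ ε (Qd.lt (oN ε) (sN σ) a) = Qd.lt (oN ε) (sN σ) (tN ε a) := by
  unfold tau
  exact Qd.lift_lt _ _ _ _ _ a

theorem tau_val (p : List (Option (Dart c × Bool))) :
    tau σ ε (Qd.val (oN ε) (sN σ) p) = Qd.val (oN ε) (sN σ) (p.map (tN ε)) := by
  unfold Qd.val
  rw [map_list_prod, List.map_map, List.map_map]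
  refine congrArg List.prod (List.map_congr_left fun a _ => ?_)
  exact tau_lt a

theorem tau_tau (g : UN σ ε) : tau σ ε (tau σ ε g) = g := by
  have h : (tau σ ε).comp (tau σ ε) = MonoidHom.id _ := by
    apply PresentedGroup.ext
    intro a
    show tau σ ε (tau σ ε (Qd.lt (oN ε) (sN σ) a)) = Qd.lt (oN ε) (sN σ) a
    rw [tau_lt, tau_lt, tN_tN]
  exact DFunLike.congr_fun h g

/-- the deck transformation as an automorphism -/
noncomputable def tauE (σ : Equiv.Perm (Dart c)) (ε : Edge c → Bool) : MulAut (UN σ ε) where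
  toFun := tau σ ε
  invFun := tau σ ε
  left_inv := tau_tau
  right_inv := tau_tau
  map_mul' := map_mul _

theorem tauE_sq : tauE σ ε * tauE σ ε = 1 := by
  apply MulEquiv.ext
  intro g
  exact tau_tau g

/-- the action of the group of order two -/
noncomputable def phN (σ : Equiv.Perm (Dart c)) (ε : Edge c → Bool) :
    Multiplicative (ZMod 2) →* MulAut (UN σ ε) :=
  MonoidHom.mk' (fun g => tauE σ ε ^ (Multiplicative.toAdd g).val) (by
    intro a b
    obtain ⟨a, rfl⟩ := Multiplicative.ofAdd.surjective a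
    obtain ⟨b, rfl⟩ := Multiplicative.ofAdd.surjective b
    rcases zmod2_cases a with rfl | rfl <;> rcases zmod2_cases b with rfl | rfl
    · show (1 : MulAut (UN σ ε)) = 1 * 1
      rw [mul_one]
    · show tauE σ ε ^ 1 = 1 * tauE σ ε ^ 1
      rw [one_mul]
    · show tauE σ ε ^ 1 = tauE σ ε ^ 1 * 1
      rw [mul_one]
    · show (1 : MulAut (UN σ ε)) = tauE σ ε ^ 1 * tauE σ ε ^ 1
      rw [pow_one, tauE_sq])

/-- the group of decorations -/
abbrev HN (σ : Equiv.Perm (Dart c)) (ε : Edge c → Bool) : Type :=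
  UN σ ε ⋊[phN σ ε] Multiplicative (ZMod 2)

/-- the embedding -/
noncomputable def jn : UN σ ε →* HN σ ε := SemidirectProduct.inl

/-- the deck transformation as an element -/
noncomputable def Tt (σ : Equiv.Perm (Dart c)) (ε : Edge c → Bool) (k : Bool) : HN σ ε :=
  if k then SemidirectProduct.inr (Multiplicative.ofAdd 1) else 1

theorem Tt_false : Tt σ ε false = 1 := rfl

theorem Tt_sq (k : Bool) : Tt σ ε k * Tt σ ε k = 1 := by
  cases k
  · show (1 : HN σ ε) * 1 = 1
    rw [one_mul]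
  · show (SemidirectProduct.inr (Multiplicative.ofAdd 1) : HN σ ε) *
      SemidirectProduct.inr (Multiplicative.ofAdd 1) = 1
    rw [← map_mul, ← ofAdd_add]
    have : (1 : ZMod 2) + 1 = 0 := rfl
    rw [this, ofAdd_zero, map_one]

theorem Tt_jn (g : UN σ ε) : Tt σ ε true * jn g = jn (tau σ ε g) * Tt σ ε true := by
  have h := SemidirectProduct.inl_aut (φ := phN σ ε) (Multiplicative.ofAdd 1) g
  have h1 : phN σ ε (Multiplicative.ofAdd 1) g = tau σ ε g := by
    show (tauE σ ε ^ 1) g = _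
    rw [pow_one]
    rfl
  rw [h1] at h
  show (SemidirectProduct.inr (Multiplicative.ofAdd 1) : HN σ ε) * SemidirectProduct.inl g =
    SemidirectProduct.inl (tau σ ε g) * SemidirectProduct.inr (Multiplicative.ofAdd 1)
  have e : (SemidirectProduct.inr (Multiplicative.ofAdd (1 : ZMod 2))⁻¹ : HN σ ε) *
      SemidirectProduct.inr (Multiplicative.ofAdd 1) = 1 := by
    rw [← map_mul, inv_mul_cancel]
    exact map_one _
  rw [h, mul_assoc, e, mul_one]

/-- iterated deck transformation -/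
noncomputable def tb (σ : Equiv.Perm (Dart c)) (ε : Edge c → Bool) (k : Bool) :
    UN σ ε →* UN σ ε := if k then tau σ ε else MonoidHom.id _

theorem Tt_jn' (k : Bool) (g : UN σ ε) : Tt σ ε k * jn g = jn (tb σ ε k g) * Tt σ ε k := by
  cases k
  · show (1 : HN σ ε) * jn g = jn g * 1
    rw [one_mul, mul_one]
  · exact Tt_jn g

theorem Tt_mul (k l : Bool) : Tt σ ε k * Tt σ ε l = Tt σ ε (xor k l) := by
  cases k <;> cases l
  · show (1 : HN σ ε) * 1 = 1
    rw [one_mul]
  · show (1 : HN σ ε) * _ = _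
    rw [one_mul]
    rfl
  · show _ * (1 : HN σ ε) = _
    rw [mul_one]
    rfl
  · exact Tt_sq true

/-- letterwise deck transformation -/
def tbl (ε : Edge c → Bool) (k : Bool) (a : Option (Dart c × Bool)) : Option (Dart c × Bool) :=
  if k then tN ε a else a

theorem tb_val (k : Bool) (p : List (Option (Dart c × Bool))) :
    tb σ ε k (Qd.val (oN ε) (sN σ) p) = Qd.val (oN ε) (sN σ) (p.map (tbl ε k)) := by
  cases k
  · show Qd.val (oN ε) (sN σ) p = _
    congr 1
    exact (List.map_id p).symm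
  · exact tau_val p

/-- the central element -/
noncomputable def JN (σ : Equiv.Perm (Dart c)) (ε : Edge c → Bool) : HN σ ε :=
  jn (Qd.lt (oN ε) (sN σ) none)

theorem JN_sq : JN σ ε * JN σ ε = 1 := by
  unfold JN
  rw [← map_mul, Qd.jj_one, map_one]

theorem JN_comm (h : HN σ ε) : JN σ ε * h = h * JN σ ε := by
  have h1 : ∀ g : UN σ ε, JN σ ε * jn g = jn g * JN σ ε := by
    intro g
    unfold JN
    rw [← map_mul, Qd.j_comm, map_mul]
  have h2 : JN σ ε * Tt σ ε true = Tt σ ε true * JN σ ε := by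
    unfold JN
    rw [Tt_jn, tau_lt]
    rfl
  have h3 : h = jn h.left * SemidirectProduct.inr h.right :=
    (SemidirectProduct.inl_left_mul_inr_right h).symm
  have h4 : JN σ ε * SemidirectProduct.inr h.right = SemidirectProduct.inr h.right * JN σ ε := by
    obtain ⟨k, hk⟩ := Multiplicative.ofAdd.surjective h.right
    rw [← hk]
    rcases zmod2_cases k with rfl | rfl
    · rw [ofAdd_zero, map_one, mul_one, one_mul]
    · exact h2
  rw [h3, ← mul_assoc, h1, mul_assoc, h4, mul_assoc]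

/-- the element of a dart -/
noncomputable def el' (σ : Equiv.Perm (Dart c)) (ε : Edge c → Bool) (d : Dart c) : HN σ ε :=
  Tt σ ε (chi' σ ε (σ⁻¹ d)) * jn (Qd.lt (oN ε) (sN σ) (some (d, false))) *
    Tt σ ε (chi' σ ε d)

theorem el_plain {d : Dart c} (h : ε d.1 = false) : el' σ ε d * el' σ ε (op d) = 1 := by
  have h1 := chi_plain (σ := σ) h
  have h2 : chi' σ ε d = chi' σ ε (σ⁻¹ (op d)) := by
    have := chi_plain (σ := σ) (ε := ε) (d := op d) h
    rwa [op_op] at this
  have h3 : Qd.lt (oN ε) (sN σ) (some (d, false)) *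
      Qd.lt (oN ε) (sN σ) (some (op d, false)) = 1 := by
    have := lt_mul_opN (σ := σ) (ε := ε) (d, false)
    have e : opN ε (d, false) = (op d, false) := by
      unfold opN
      simp [h]
    rwa [e] at this
  unfold el'
  rw [← h2, h1]
  calc _ = Tt σ ε (chi' σ ε (σ⁻¹ d)) * jn (Qd.lt (oN ε) (sN σ) (some (d, false))) *
        (Tt σ ε (chi' σ ε d) * Tt σ ε (chi' σ ε d)) *
        jn (Qd.lt (oN ε) (sN σ) (some (op d, false))) * Tt σ ε (chi' σ ε (σ⁻¹ d)) := by
        simp only [mul_assoc]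
    _ = Tt σ ε (chi' σ ε (σ⁻¹ d)) * jn (Qd.lt (oN ε) (sN σ) (some (d, false)) *
        Qd.lt (oN ε) (sN σ) (some (op d, false))) * Tt σ ε (chi' σ ε (σ⁻¹ d)) := by
        rw [Tt_sq, mul_one, map_mul]
        simp only [mul_assoc]
    _ = 1 := by rw [h3, map_one, mul_one, Tt_sq]

theorem el_twist {d : Dart c} (h : ε d.1 = true) : el' σ ε (op d) = el' σ ε d := by
  have h1 := chi_after (σ := σ) h
  have h2 := chi_before (σ := σ) h
  have h3 : tau σ ε (Qd.lt (oN ε) (sN σ) (some (op d, false))) =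
      Qd.lt (oN ε) (sN σ) (some (d, false)) := by
    rw [tau_lt]
    congr 1
    unfold tN opN
    simp [op_op, op_fst, h]
  have h4 : ∀ k, Tt σ ε (!k) = Tt σ ε k * Tt σ ε true := by
    intro k
    rw [Tt_mul]
    cases k <;> rfl
  have h5 : ∀ k, Tt σ ε (!k) = Tt σ ε true * Tt σ ε k := by
    intro k
    rw [Tt_mul]
    cases k <;> rfl
  unfold el'
  rw [h1, h2, h4 (chi' σ ε (σ⁻¹ d)), h5 (chi' σ ε d)]
  calc _ = Tt σ ε (chi' σ ε (σ⁻¹ d)) * (Tt σ ε true *
        jn (Qd.lt (oN ε) (sN σ) (some (op d, false)))) * Tt σ ε true * Tt σ ε (chi' σ ε d) := by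
        simp only [mul_assoc]
    _ = Tt σ ε (chi' σ ε (σ⁻¹ d)) * jn (Qd.lt (oN ε) (sN σ) (some (d, false))) *
        (Tt σ ε true * Tt σ ε true) * Tt σ ε (chi' σ ε d) := by
        rw [Tt_jn, h3]
        simp only [mul_assoc]
    _ = _ := by rw [Tt_sq, mul_one]

/-- the value of a path through a vertex -/
noncomputable def pvN (σ : Equiv.Perm (Dart c)) (ε : Edge c → Bool) (e : Dart c) (n : ℕ) :
    HN σ ε := ((pas σ e n).map (el' σ ε)).prod

theorem pvN_add (e : Dart c) (m n : ℕ) :
    pvN σ ε e (m + n) = pvN σ ε e m * pvN σ ε (σ^[m] e) n := by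
  unfold pvN
  rw [pas_add, List.map_append, List.prod_append]

theorem pvN_zero (e : Dart c) : pvN σ ε e 0 = 1 := rfl

theorem pvN_one (d : Dart c) : pvN σ ε (σ⁻¹ d) 1 = el' σ ε d := by
  unfold pvN
  rw [pas_one, pinv1]
  simp

/-- the value of a path in the cover -/
noncomputable def pvU (σ : Equiv.Perm (Dart c)) (ε : Edge c → Bool) (e : Dart c) (n : ℕ) :
    UN σ ε := Qd.val (oN ε) (sN σ) (((pas σ e n).map fun d => (d, false)).map some)

theorem pvU_add (e : Dart c) (m n : ℕ) :
    pvU σ ε e (m + n) = pvU σ ε e m * pvU σ ε (σ^[m] e) n := by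
  unfold pvU
  rw [pas_add, List.map_append, List.map_append, Qd.val_append]

theorem pvN_U (e : Dart c) (n : ℕ) : pvN σ ε e n =
    Tt σ ε (chi' σ ε e) * jn (pvU σ ε e n) * Tt σ ε (chi' σ ε (σ^[n] e)) := by
  induction n with
  | zero =>
    show (1 : HN σ ε) = Tt σ ε (chi' σ ε e) * jn 1 * Tt σ ε (chi' σ ε e)
    rw [map_one, mul_one, Tt_sq]
  | succ n ih =>
    rw [pvN_add, ih, pvU_add]
    have h1 : pvN σ ε (σ^[n] e) 1 = el' σ ε (σ^[n + 1] e) := by
      unfold pvN
      rw [pas_one, ← Function.iterate_succ_apply' (f := σ)]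
      simp
    have h2 : pvU σ ε (σ^[n] e) 1 = Qd.lt (oN ε) (sN σ) (some (σ^[n + 1] e, false)) := by
      unfold pvU
      rw [pas_one, ← Function.iterate_succ_apply' (f := σ), List.map_singleton,
        List.map_singleton, Qd.val_cons, Qd.val_nil, mul_one]
    have h3 : σ⁻¹ (σ^[n + 1] e) = σ^[n] e := by rw [Function.iterate_succ_apply', pinv2]
    rw [h1, h2]
    unfold el'
    rw [h3, map_mul]
    calc _ = Tt σ ε (chi' σ ε e) * jn (pvU σ ε e n) * (Tt σ ε (chi' σ ε (σ^[n] e)) *
          Tt σ ε (chi' σ ε (σ^[n] e))) * jn (Qd.lt (oN ε) (sN σ) (some (σ^[n + 1] e, false))) *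
          Tt σ ε (chi' σ ε (σ^[n + 1] e)) := by simp only [mul_assoc]
      _ = _ := by
        rw [Tt_sq, mul_one]
        simp only [mul_assoc]

theorem pvU_full (hσ : Rotation c σ) (hV : Valid c) (e : Dart c) :
    pvU σ ε e (per σ e) = Qd.lt (oN ε) (sN σ) none ^ (colour c (tl e) : ZMod 2).val := by
  obtain ⟨e0, he0, h1⟩ := rl_spec (σ := σ) ⟨e, rfl⟩
  have h2 : pvU σ ε e0 (per σ e0) =
      Qd.lt (oN ε) (sN σ) none ^ (colour c (tl e) : ZMod 2).val := by
    rw [← rN_val (inc_lt hV (inc_tl e)) false]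
    unfold pvU rN
    rw [if_neg (by simp), h1]
  obtain ⟨n, hn, rfl⟩ := exists_iter hσ he0.symm
  have h3 := pvU_add (σ := σ) (ε := ε) e0 n (per σ e0)
  rw [add_comm, pvU_add, per_eq, h2] at h3
  have h4 : Qd.lt (oN ε) (sN σ) none ^ (colour c (tl (σ^[n] e0)) : ZMod 2).val * pvU σ ε e0 n =
      pvU σ ε e0 n * Qd.lt (oN ε) (sN σ) none ^ (colour c (tl (σ^[n] e0)) : ZMod 2).val :=
    Commute.pow_left (Qd.j_comm _) _
  rw [h4] at h3
  rw [per_iter]
  exact (mul_left_cancel h3).symm

theorem pvN_full (hσ : Rotation c σ) (hV : Valid c) (e : Dart c) :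
    pvN σ ε e (per σ e) = JN σ ε ^ (colour c (tl e) : ZMod 2).val := by
  rw [pvN_U, pvU_full hσ hV, per_eq, map_pow]
  have h4 : Tt σ ε (chi' σ ε e) * jn (Qd.lt (oN ε) (sN σ) none) ^
      (colour c (tl e) : ZMod 2).val = jn (Qd.lt (oN ε) (sN σ) none) ^
      (colour c (tl e) : ZMod 2).val * Tt σ ε (chi' σ ε e) :=
    (Commute.pow_left (JN_comm (Tt σ ε (chi' σ ε e))) _).symm
  rw [h4, mul_assoc, Tt_sq, mul_one]
  rfl

end Pool.Agent.Helper2GI
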