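import Mathlib
import Pool.Agent.Helper2GI.Fn2

/-!
Graphs embedded in closed surfaces: decorations.
-/

set_option autoImplicit false

namespace Pool.Agent.Helper2GI

open Pool.Agent.Helper2GI.Sf RA

variable {c : Code} {σ : Equiv.Perm (Dart c)} {ε : Edge c → Bool}

theorem faceN_p1 {d : Dart c} (h : ε d.1 = false) : faceN σ ε (op d) = faceN σ ε (σ⁻¹ d) :=
  (Quot.sound (MeetN.plain d h)).symm

theorem faceN_p2 {d : Dart c} (h : ε d.1 = false) : faceN σ ε (σ⁻¹ (op d)) = faceN σ ε d := by
  have := faceN_p1 (σ := σ) (ε := ε) (d := op d) h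
  rw [op_op] at this
  exact this.symm

theorem faceN_t1 {d : Dart c} (h : ε d.1 = true) : faceN σ ε (op d) = faceN σ ε d :=
  (Quot.sound (MeetN.after d h)).symm

theorem faceN_t2 {d : Dart c} (h : ε d.1 = true) :
    faceN σ ε (σ⁻¹ (op d)) = faceN σ ε (σ⁻¹ d) :=
  (Quot.sound (MeetN.before d h)).symm

variable (σ ε) in
/-- the subgroup of the central element -/
noncomputable def CN : Subgroup (HN σ ε) := Subgroup.zpowers (JN σ ε)

theorem CN_cent {j : HN σ ε} (hj : j ∈ CN σ ε) (h : HN σ ε) : j * h = h * j := by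
  obtain ⟨k, rfl⟩ := Subgroup.mem_zpowers_iff.1 hj
  exact Commute.zpow_left (JN_comm h) k

theorem CN_two {j : HN σ ε} (hj : j ∈ CN σ ε) : j * j = 1 := by
  obtain ⟨k, rfl⟩ := Subgroup.mem_zpowers_iff.1 hj
  rw [← (Commute.refl (JN σ ε)).mul_zpow, JN_sq, one_zpow]

theorem CN_cases {j : HN σ ε} (hj : j ∈ CN σ ε) : j = 1 ∨ j = JN σ ε := by
  obtain ⟨k, rfl⟩ := Subgroup.mem_zpowers_iff.1 hj
  have h1 : JN σ ε * JN σ ε = 1 := JN_sq
  rcases Int.even_or_odd k with ⟨m, hm⟩ | ⟨m, hm⟩
  · left
    rw [hm, zpow_add, ← (Commute.refl (JN σ ε)).mul_zpow, h1, one_zpow]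
  · right
    rw [hm, zpow_add, zpow_one, two_mul, zpow_add, ← (Commute.refl (JN σ ε)).mul_zpow, h1,
      one_zpow, one_mul]

instance CN_normal : (CN σ ε).Normal := by
  constructor
  intro n hn g
  rw [← CN_cent hn g, mul_inv_cancel_right]
  exact hn

theorem JN_mem : JN σ ε ∈ CN σ ε := Subgroup.mem_zpowers _

/-- from the group of the surface to the quotient -/
noncomputable def thN (hσ : Rotation c σ) (hV : Valid c) (ε : Edge c → Bool) :
    PiN c σ ε →* HN σ ε ⧸ CN σ ε :=
  PresentedGroup.toGroup (f := fun d => ((el' σ ε d : HN σ ε) : HN σ ε ⧸ CN σ ε)) (by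
    intro r hr
    have hr' : RelN c σ ε r := hr
    cases hr' with
    | plain d h =>
      rw [map_mul, FreeGroup.lift_apply_of, FreeGroup.lift_apply_of, ← QuotientGroup.mk_mul,
        el_plain h]
      rfl
    | twist d h =>
      rw [map_mul, map_inv, FreeGroup.lift_apply_of, FreeGroup.lift_apply_of, el_twist h,
        mul_inv_cancel]
    | rot d =>
      rw [map_list_prod, List.map_map]
      have h1 : ∀ l : List (Dart c), (l.map ((FreeGroup.lift fun d =>
          ((el' σ ε d : HN σ ε) : HN σ ε ⧸ CN σ ε)) ∘ FreeGroup.of)).prod =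
          (((l.map (el' σ ε)).prod : HN σ ε) : HN σ ε ⧸ CN σ ε) := by
        intro l
        induction l with
        | nil => rfl
        | cons a l ih =>
          rw [List.map_cons, List.prod_cons, ih, List.map_cons, List.prod_cons,
            QuotientGroup.mk_mul]
          congr 1
          exact FreeGroup.lift_apply_of
      rw [h1]
      have h2 := pvN_full (ε := ε) hσ hV d
      unfold pvN per at h2
      rw [h2, QuotientGroup.eq_one_iff]
      exact (CN σ ε).pow_mem JN_mem _)

theorem thN_thru (hσ : Rotation c σ) (hV : Valid c) (e : Dart c) (n : ℕ) :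
    thN hσ hV ε (thruN σ ε e n) = ((pvN σ ε e n : HN σ ε) : HN σ ε ⧸ CN σ ε) := by
  unfold thruN pvN
  generalize pas σ e n = l
  rw [map_list_prod, List.map_map]
  induction l with
  | nil => rfl
  | cons a l ih =>
    rw [List.map_cons, List.prod_cons, ih, List.map_cons, List.prod_cons, QuotientGroup.mk_mul]
    congr 1
    exact PresentedGroup.toGroup.of _

theorem wideN_mem (hσ : Rotation c σ) (hV : Valid c) (hW : WideN c σ ε) {d₁ d₂ d₃ : Dart c}
    {n₁ n₂ n₃ : ℕ} (h1 : faceN σ ε (σ^[n₁] d₁) = faceN σ ε d₂)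
    (h2 : faceN σ ε (σ^[n₂] d₂) = faceN σ ε d₃) (h3 : faceN σ ε (σ^[n₃] d₃) = faceN σ ε d₁) :
    pvN σ ε d₁ n₁ * pvN σ ε d₂ n₂ * pvN σ ε d₃ n₃ ∈ CN σ ε := by
  have h := congrArg (thN hσ hV ε) (hW d₁ d₂ d₃ n₁ n₂ n₃ h1 h2 h3)
  rw [map_mul, map_mul, thN_thru, thN_thru, thN_thru, map_one, ← QuotientGroup.mk_mul,
    ← QuotientGroup.mk_mul, QuotientGroup.eq_one_iff] at h
  exact h

theorem wideN_one (hσ : Rotation c σ) (hV : Valid c) (hW : WideN c σ ε) {d : Dart c}
    {n : ℕ} (h : faceN σ ε (σ^[n] d) = faceN σ ε d) : pvN σ ε d n ∈ CN σ ε := by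
  have := wideN_mem hσ hV hW (d₁ := d) (d₂ := d) (d₃ := d) (n₁ := n) (n₂ := 0) (n₃ := 0) h rfl rfl
  rwa [pvN_zero, mul_one, mul_one] at this

/-- back to the starting corner -/
theorem pvN_back (hσ : Rotation c σ) (hV : Valid c) (ε : Edge c → Bool) (e : Dart c) (n : ℕ) :
    ∃ n', σ^[n'] (σ^[n] e) = e ∧ pvN σ ε e n * pvN σ ε (σ^[n] e) n' ∈ CN σ ε := by
  have hp := per_pos (σ := σ) e
  have h1 : ∀ k, σ^[k * per σ e] e = e ∧ pvN σ ε e (k * per σ e) ∈ CN σ ε := by
    intro k
    induction k with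
    | zero =>
      rw [zero_mul]
      exact ⟨rfl, (CN σ ε).one_mem⟩
    | succ k ih =>
      have h2 : (k + 1) * per σ e = per σ e + k * per σ e := by ring
      rw [h2]
      constructor
      · rw [add_comm, Function.iterate_add_apply, per_eq, ih.1]
      · rw [pvN_add, per_eq, pvN_full hσ hV]
        exact (CN σ ε).mul_mem ((CN σ ε).pow_mem JN_mem _) ih.2
  refine ⟨n * (per σ e - 1), ?_, ?_⟩
  · rw [← Function.iterate_add_apply]
    have h3 : n * (per σ e - 1) + n = n * per σ e := by
      obtain ⟨k, hk⟩ : ∃ k, per σ e = k + 1 := ⟨per σ e - 1, by omega⟩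
      rw [hk, Nat.add_sub_cancel]
      ring
    rw [h3]
    exact (h1 n).1
  · rw [← pvN_add]
    have h3 : n + n * (per σ e - 1) = n * per σ e := by
      obtain ⟨k, hk⟩ : ∃ k, per σ e = k + 1 := ⟨per σ e - 1, by omega⟩
      rw [hk, Nat.add_sub_cancel]
      ring
    rw [h3]
    exact (h1 n).2

/-! ### Adjacent faces -/

variable (σ ε) in
/-- different faces with a common vertex -/
def AdN (f g : FaceN c σ ε) : Prop :=
  f ≠ g ∧ ∃ p : Dart c × ℕ, p.2 < per σ p.1 ∧ faceN σ ε p.1 = f ∧ faceN σ ε (σ^[p.2] p.1) = g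

theorem AdN.of (hσ : Rotation c σ) {f g : FaceN c σ ε} (h : f ≠ g) {e : Dart c} {n : ℕ}
    (h1 : faceN σ ε e = f) (h2 : faceN σ ε (σ^[n] e) = g) : AdN σ ε f g := by
  obtain ⟨m, hm, h3⟩ := exists_iter hσ (tl_iter hσ e n)
  exact ⟨h, (e, m), hm, h1, by rw [h3]; exact h2⟩

theorem AdN.symm (hσ : Rotation c σ) (hV : Valid c) {f g : FaceN c σ ε} (h : AdN σ ε f g) :
    AdN σ ε g f := by
  obtain ⟨h1, ⟨e, n⟩, h2, h3, h4⟩ := h
  obtain ⟨n', h5, _⟩ := pvN_back hσ hV ε e n
  exact AdN.of hσ h1.symm (e := σ^[n] e) (n := n') h4 (by rw [h5]; exact h3)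

/-! ### Letters -/

/-- the value of a letter -/
noncomputable def vlN (σ : Equiv.Perm (Dart c)) (ε : Edge c → Bool) :
    Option (Dart c × Bool) → HN σ ε
  | none => JN σ ε
  | some (d, false) => el' σ ε d
  | some (d, true) => (el' σ ε d)⁻¹

/-- the inverse letter -/
def fl : Option (Dart c × Bool) → Option (Dart c × Bool) := Option.map fun x => (x.1, !x.2)

theorem vl_fl (a : Option (Dart c × Bool)) : vlN σ ε (fl a) = (vlN σ ε a)⁻¹ := by
  match a with
  | none => exact eq_inv_of_mul_eq_one_left JN_sq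
  | some (d, false) => rfl
  | some (d, true) => exact (inv_inv _).symm

/-- the inverse word -/
def ivN (p : List (Option (Dart c × Bool))) : List (Option (Dart c × Bool)) := (p.map fl).reverse

theorem ivN_len (p : List (Option (Dart c × Bool))) : (ivN p).length = p.length := by
  unfold ivN
  simp

theorem ivN_val (p : List (Option (Dart c × Bool))) :
    ((ivN p).map (vlN σ ε)).prod = ((p.map (vlN σ ε)).prod)⁻¹ := by
  unfold ivN
  induction p with
  | nil => simp
  | cons a p ih =>
    rw [List.map_cons, List.reverse_cons, List.map_append, List.prod_append, ih,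
      List.map_singleton, List.prod_singleton, vl_fl, List.map_cons, List.prod_cons, mul_inv_rev]

/-- the edge of a letter -/
def emN : Option (Dart c × Bool) → Option (Edge c) := Option.map fun x => x.1.1

theorem em_fl (a : Option (Dart c × Bool)) : emN (fl a) = emN a := by
  cases a <;> rfl

theorem em_ivN (p : List (Option (Dart c × Bool))) : (ivN p).map emN = (p.map emN).reverse := by
  unfold ivN
  rw [List.map_reverse, List.map_map]
  congr 1
  exact List.map_congr_left fun a _ => em_fl a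

theorem em_tbl (k : Bool) (a : Option (Dart c × Bool)) : emN (tbl ε k a) = emN a := by
  cases k <;> cases a <;> rfl

/-- letters in normal form -/
theorem letter_nf (a : Option (Dart c × Bool)) : ∃ (l : Option (Dart c × Bool)) (r : Bool),
    vlN σ ε a = jn (Qd.lt (oN ε) (sN σ) l) * Tt σ ε r ∧ emN l = emN a := by
  have h0 : ∀ d : Dart c, ∃ (l : Option (Dart c × Bool)) (r : Bool),
      el' σ ε d = jn (Qd.lt (oN ε) (sN σ) l) * Tt σ ε r ∧ emN l = some d.1 := by
    intro d
    refine ⟨tbl ε (chi' σ ε (σ⁻¹ d)) (some (d, false)), xor (chi' σ ε (σ⁻¹ d)) (chi' σ ε d), ?_,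
      em_tbl _ _⟩
    unfold el'
    rw [Tt_jn', mul_assoc, Tt_mul]
    congr 2
    have := tb_val (σ := σ) (ε := ε) (chi' σ ε (σ⁻¹ d)) [some (d, false)]
    rw [List.map_singleton, Qd.val_cons, Qd.val_nil, mul_one, Qd.val_cons, Qd.val_nil,
      mul_one] at this
    exact this
  match a with
  | none => exact ⟨none, false, by rw [Tt_false, mul_one]; rfl, rfl⟩
  | some (d, false) => exact h0 d
  | some (d, true) =>
    obtain ⟨l, r, h1, h2⟩ := h0 d
    have h3 : (Qd.lt (oN ε) (sN σ) l)⁻¹ = Qd.lt (oN ε) (sN σ) (Option.map (opN ε) l) := by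
      cases l with
      | none => exact (eq_inv_of_mul_eq_one_left Qd.jj_one).symm
      | some x => exact (lt_opN x).symm
    refine ⟨tbl ε r (Option.map (opN ε) l), r, ?_, ?_⟩
    · show (el' σ ε d)⁻¹ = _
      rw [h1, mul_inv_rev, ← map_inv, h3]
      have h4 : (Tt σ ε r)⁻¹ = Tt σ ε r := inv_eq_of_mul_eq_one_right (Tt_sq r)
      rw [h4, Tt_jn']
      congr 2
      have := tb_val (σ := σ) (ε := ε) r [Option.map (opN ε) l]
      rw [List.map_singleton, Qd.val_cons, Qd.val_nil, mul_one, Qd.val_cons, Qd.val_nil,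
        mul_one] at this
      exact this
    · rw [em_tbl]
      show emN (Option.map (opN ε) l) = some d.1
      rw [← h2]
      cases l <;> rfl

theorem word_nf (p : List (Option (Dart c × Bool))) :
    ∃ (q : List (Option (Dart c × Bool))) (r : Bool),
      (p.map (vlN σ ε)).prod = jn (Qd.val (oN ε) (sN σ) q) * Tt σ ε r ∧
      q.map emN = p.map emN := by
  induction p with
  | nil => exact ⟨[], false, by rw [Tt_false, mul_one, Qd.val_nil, map_one]; rfl, rfl⟩
  | cons a p ih =>
    obtain ⟨q, r, h1, h2⟩ := ih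
    obtain ⟨l, r', h3, h4⟩ := letter_nf (σ := σ) (ε := ε) a
    refine ⟨l :: q.map (tbl ε r'), xor r' r, ?_, ?_⟩
    · rw [List.map_cons, List.prod_cons, h1, h3, Qd.val_cons, map_mul, ← tb_val]
      calc _ = jn (Qd.lt (oN ε) (sN σ) l) * (Tt σ ε r' * jn (Qd.val (oN ε) (sN σ) q)) *
            Tt σ ε r := by simp only [mul_assoc]
        _ = _ := by
          rw [Tt_jn', ← Tt_mul]
          simp only [mul_assoc]
    · rw [List.map_cons, List.map_cons, h4, List.map_map, ← h2]
      congr 1
      exact List.map_congr_left fun a _ => em_tbl _ _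

theorem jn_Tt {g : UN σ ε} {r : Bool} (h : jn g * Tt σ ε r = 1) : g = 1 := by
  have h1 := congrArg SemidirectProduct.left h
  have h2 : (jn g * Tt σ ε r).left = g := by
    cases r
    · rw [Tt_false, mul_one]
      rfl
    · have := SemidirectProduct.mk_eq_inl_mul_inr (φ := phN σ ε) (Multiplicative.ofAdd 1) g
      have h3 : (jn g * Tt σ ε true) = ⟨g, Multiplicative.ofAdd 1⟩ := this.symm
      rw [h3]
  rw [h2] at h1
  exact h1

theorem rule_emN (hσ : Rotation c σ) (hV : Valid c) (a b : List (Option (Dart c × Bool)))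
    (h : Qd.Rh (oN ε) (sN σ) a b) :
    GR (Ru c) (c.2.1.length + 4) (a.map emN) (b.map emN) := by
  have one : ∀ {u v : List (Option (Edge c))}, Ru c u v → v.length ≤ 2 →
      GR (Ru c) (c.2.1.length + 4) u v :=
    fun h h' => Relation.ReflTransGen.single ⟨[], [], _, _, h, by simp, by simp, by omega⟩
  have hjw : ∀ s : ZMod 2, (jw s : List (Option (Dart c × Bool))).map emN = jw s := by
    intro s
    rcases zmod2_cases s with rfl | rfl <;> rfl
  have hsome : ∀ l : List (Dart c × Bool), (l.map some).map emN =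
      (l.map fun x => x.1.1).map some := by
    intro l
    rw [List.map_map, List.map_map]
    rfl
  have hperm : ∀ v s, ((rN σ v s).map fun x => x.1.1).Perm (star c v) := by
    intro v s
    unfold rN
    cases s
    · simp only [Bool.false_eq_true, if_false, List.map_map]
      exact rl_perm hσ hV v
    · simp only [if_true, List.map_map]
      refine List.Perm.trans ?_ (rl_perm hσ hV v)
      exact (List.reverse_perm (rl σ v)).map Prod.fst
  have hrel : ∀ (R : List (Dart c × Bool)) (s : ZMod 2), (R, s) ∈ sN σ →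
      GR (Ru c) (c.2.1.length + 2) ((R.map fun x => x.1.1).map some) (jw s) ∧
      R.length ≤ c.2.1.length := by
    intro R s hR
    have key : ∀ v < c.1, ∀ t, GR (Ru c) (c.2.1.length + 2)
        (((rN σ v t).map fun x => x.1.1).map some) (jw (colour c v : ZMod 2)) ∧
        (rN σ v t).length ≤ c.2.1.length := by
      intro v hv t
      have hp := hperm v t
      have hl := hp.length_eq
      have hs := star_len (c := c) v
      rw [List.length_map] at hl
      refine ⟨?_, by omega⟩
      have h1 := D.perm (v := v) hp (fun i hi => mem_star.1 (hp.mem_iff.1 hi))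
      have h2 := (h1.mono (N' := c.2.1.length) (by rw [List.length_map]; omega)).trans
        ((D.st hv).mono hs)
      have h3 := GR_of_D h2
      rw [zero_add, List.map_nil, List.append_nil] at h3
      exact h3
    unfold sN at hR
    rw [List.mem_append, List.mem_map, List.mem_map] at hR
    rcases hR with ⟨v, hv, hRs⟩ | ⟨v, hv, hRs⟩
    · rw [List.mem_range] at hv
      obtain ⟨rfl, rfl⟩ := Prod.mk.inj hRs
      exact key v hv false
    · rw [List.mem_range] at hv
      obtain ⟨rfl, rfl⟩ := Prod.mk.inj hRs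
      exact key v hv true
  cases h with
  | jj => exact one Ru.jj (by simp)
  | jj' => exact one Ru.ij (by simp)
  | jx a => exact one (Ru.jx a.1.1) (by simp)
  | xj a => exact one (Ru.xj a.1.1) (by simp)
  | inv a => exact one (Ru.xx a.1.1) (by simp)
  | inv' a => exact one (Ru.xi a.1.1) (by simp)
  | rel R s hR =>
    rw [hsome, hjw]
    exact (hrel R s hR).1.mono (by omega)
  | rel' R s hR =>
    rw [hsome, hjw]
    obtain ⟨h1, h2⟩ := hrel R s hR
    exact (GR_symm (by simp only [List.length_map]; omega) h1).mono (by omega)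

/-- the bound for derivations of decorations -/
def beN (E n : ℕ) : ℕ := Qd.bd (4 * E) (4 * E) n + (E + 4)

theorem triv_emN (hσ : Rotation c σ) (hV : Valid c) (p : List (Option (Dart c × Bool)))
    (hp : (p.map (vlN σ ε)).prod = 1) :
    GR (Ru c) (beN c.2.1.length p.length) (p.map emN) [] := by
  obtain ⟨q, r, h1, h2⟩ := word_nf (σ := σ) (ε := ε) p
  rw [hp] at h1
  have h3 := jn_Tt h1.symm
  have hl := flatN_len hσ hV ε
  have h4 := Qd.quad (4 * c.2.1.length) _ hl (sN σ) rfl (good_sN (ε := ε) hσ hV) q h3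
  have h5 : Qd.bd (4 * c.2.1.length) (Qd.flat (sN σ)).length q.length ≤
      Qd.bd (4 * c.2.1.length) (4 * c.2.1.length) q.length :=
    (Qd.gG_slope _).iter_le hl _
  have h6 := h4.mono h5
  have h7 := simm emN (rule_emN hσ hV) h6 (((Qd.bd_slope _ _).le _))
  have h8 : q.length = p.length := by
    have := congrArg List.length h2
    simpa using this
  rw [h2, h8] at h7
  exact h7

/-! ### The cocycle -/

open Classical in
/-- words of passages -/
noncomputable def wdN (σ : Equiv.Perm (Dart c)) (ε : Edge c → Bool) (f g : FaceN c σ ε) :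
    List (Option (Dart c × Bool)) :=
  if h : ∃ p : Dart c × ℕ, p.2 < per σ p.1 ∧ faceN σ ε p.1 = f ∧ faceN σ ε (σ^[p.2] p.1) = g then
    (pas σ (Classical.choose h).1 (Classical.choose h).2).map (fun d => some (d, false)) else []

theorem wdN_spec {f g : FaceN c σ ε} (h : AdN σ ε f g) : ∃ (e : Dart c) (n : ℕ), n < per σ e ∧
    faceN σ ε e = f ∧ faceN σ ε (σ^[n] e) = g ∧
    wdN σ ε f g = (pas σ e n).map (fun d => some (d, false)) := by
  obtain ⟨h1, h2⟩ := h
  have h3 := Classical.choose_spec h2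
  refine ⟨(Classical.choose h2).1, (Classical.choose h2).2, h3.1, h3.2.1, h3.2.2, ?_⟩
  unfold wdN
  rw [dif_pos h2]

open Classical in
/-- words of passages, inverse to each other -/
noncomputable def twN (σ : Equiv.Perm (Dart c)) (ε : Edge c → Bool) (f g : FaceN c σ ε) :
    List (Option (Dart c × Bool)) :=
  if WellOrderingRel f g then wdN σ ε f g else ivN (wdN σ ε g f)

/-- the cocycle -/
noncomputable def dlN (σ : Equiv.Perm (Dart c)) (ε : Edge c → Bool) (f g : FaceN c σ ε) :
    HN σ ε := ((twN σ ε f g).map (vlN σ ε)).prod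

theorem dlN_inv {f g : FaceN c σ ε} (h : AdN σ ε f g) : dlN σ ε f g * dlN σ ε g f = 1 := by
  unfold dlN twN
  rcases wo_cases h.1 with ⟨h1, h2⟩ | ⟨h1, h2⟩
  · rw [if_pos h1, if_neg h2, ivN_val, mul_inv_cancel]
  · rw [if_neg h1, if_pos h2, ivN_val, inv_mul_cancel]

theorem vl_pas (e : Dart c) (n : ℕ) :
    (((pas σ e n).map (fun d => some (d, false))).map (vlN σ ε)).prod = pvN σ ε e n := by
  rw [List.map_map]
  rfl

theorem dlN_spec (hσ : Rotation c σ) (hV : Valid c) {f g : FaceN c σ ε} (h : AdN σ ε f g) :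
    ∃ (e : Dart c) (n : ℕ), faceN σ ε e = f ∧ faceN σ ε (σ^[n] e) = g ∧
      ∃ j ∈ CN σ ε, dlN σ ε f g = j * pvN σ ε e n := by
  unfold dlN twN
  rcases wo_cases h.1 with ⟨h1, h2⟩ | ⟨h1, h2⟩
  · rw [if_pos h1]
    obtain ⟨e, n, _, h3, h4, h5⟩ := wdN_spec h
    refine ⟨e, n, h3, h4, 1, (CN σ ε).one_mem, ?_⟩
    rw [h5, one_mul, vl_pas]
  · rw [if_neg h1]
    obtain ⟨e, n, _, h3, h4, h5⟩ := wdN_spec (h.symm hσ hV)
    obtain ⟨n', h6, h7⟩ := pvN_back hσ hV ε e n
    refine ⟨σ^[n] e, n', h4, by rw [h6]; exact h3, (pvN σ ε e n * pvN σ ε (σ^[n] e) n')⁻¹,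
      (CN σ ε).inv_mem h7, ?_⟩
    rw [CN_cent ((CN σ ε).inv_mem h7), h5, ivN_val, vl_pas]
    group

/-- the structure of decorations -/
noncomputable def DcN (hσ : Rotation c σ) (hV : Valid c) (hW : WideN c σ ε) :
    Dc (HN σ ε) (FaceN c σ ε) where
  C := CN σ ε
  cent := fun j hj h => CN_cent hj h
  two := fun j hj => CN_two hj
  adj := AdN σ ε
  symm := fun h => h.symm hσ hV
  irr := fun f h => h.1 rfl
  δ := dlN σ ε
  inv := dlN_inv
  tri := by
    intro f g k h1 h2 h3
    obtain ⟨e1, n1, a1, b1, j1, hj1, d1⟩ := dlN_spec hσ hV h1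
    obtain ⟨e2, n2, a2, b2, j2, hj2, d2⟩ := dlN_spec hσ hV h2
    obtain ⟨e3, n3, a3, b3, j3, hj3, d3⟩ := dlN_spec hσ hV (h3.symm hσ hV)
    rw [d1, d2, d3]
    have h4 := wideN_mem hσ hV hW (d₁ := e1) (d₂ := e2) (d₃ := e3) (b1.trans a2.symm)
      (b2.trans a3.symm) (b3.trans a1.symm)
    have h5 : j1 * pvN σ ε e1 n1 * (j2 * pvN σ ε e2 n2) * (j3 * pvN σ ε e3 n3) =
        j1 * j2 * j3 * (pvN σ ε e1 n1 * pvN σ ε e2 n2 * pvN σ ε e3 n3) := by
      calc j1 * pvN σ ε e1 n1 * (j2 * pvN σ ε e2 n2) * (j3 * pvN σ ε e3 n3)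
          = j1 * (pvN σ ε e1 n1 * j2) * pvN σ ε e2 n2 * (j3 * pvN σ ε e3 n3) := by
            simp only [mul_assoc]
        _ = j1 * (j2 * pvN σ ε e1 n1) * pvN σ ε e2 n2 * (j3 * pvN σ ε e3 n3) := by
            rw [CN_cent hj2]
        _ = j1 * j2 * ((pvN σ ε e1 n1 * pvN σ ε e2 n2) * j3) * pvN σ ε e3 n3 := by
            simp only [mul_assoc]
        _ = j1 * j2 * (j3 * (pvN σ ε e1 n1 * pvN σ ε e2 n2)) * pvN σ ε e3 n3 := by
            rw [CN_cent hj3]
        _ = _ := by simp only [mul_assoc]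
    rw [h5]
    exact (CN σ ε).mul_mem ((CN σ ε).mul_mem ((CN σ ε).mul_mem hj1 hj2) hj3) h4

/-- letters and their faces -/
def tyN (σ : Equiv.Perm (Dart c)) (ε : Edge c → Bool) :
    Option (Dart c × Bool) → Option (FaceN c σ ε × FaceN c σ ε)
  | none => none
  | some x => some (faceN σ ε (σ⁻¹ x.1), faceN σ ε x.1)

theorem em_pas (e : Dart c) (n : ℕ) :
    ((pas σ e n).map (fun d => some (d, false))).map emN = (orb σ e n).map some := by
  rw [← pas_fst, List.map_map, List.map_map]
  rfl

theorem twN_spec (hσ : Rotation c σ) (hV : Valid c) {f g : FaceN c σ ε} (h : AdN σ ε f g) :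
    ∃ (v : ℕ) (L : List (Edge c)), (∀ i ∈ L, Inc c v i) ∧ L.length ≤ c.2.1.length ∧
      (twN σ ε f g).map emN = L.map some := by
  unfold twN
  rcases wo_cases h.1 with ⟨h1, h2⟩ | ⟨h1, h2⟩
  · rw [if_pos h1]
    obtain ⟨e, n, h6, _, _, h5⟩ := wdN_spec h
    have := per_le hσ hV e
    refine ⟨tl e, orb σ e n, orb_inc hσ e n, by rw [orb_len]; omega, ?_⟩
    rw [h5, em_pas]
  · rw [if_neg h1]
    obtain ⟨e, n, h6, _, _, h5⟩ := wdN_spec (h.symm hσ hV)
    have := per_le hσ hV e
    refine ⟨tl e, (orb σ e n).reverse, fun i hi => orb_inc hσ e n i (List.mem_reverse.1 hi),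
      by rw [List.length_reverse, orb_len]; omega, ?_⟩
    rw [em_ivN, h5, em_pas, List.map_reverse]

theorem wdN_len (hσ : Rotation c σ) (hV : Valid c) (f g : FaceN c σ ε) :
    (wdN σ ε f g).length ≤ c.2.1.length := by
  unfold wdN
  split_ifs with h
  · have h3 := Classical.choose_spec h
    have := per_le hσ hV (Classical.choose h).1
    rw [List.length_map, pas_len]
    omega
  · simp

theorem twN_len (hσ : Rotation c σ) (hV : Valid c) (f g : FaceN c σ ε) :
    (twN σ ε f g).length ≤ c.2.1.length := by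
  unfold twN
  split_ifs with h
  · exact wdN_len hσ hV f g
  · rw [ivN_len]
    exact wdN_len hσ hV g f

open Classical in
/-- words for the central elements -/
noncomputable def jlN (σ : Equiv.Perm (Dart c)) (ε : Edge c → Bool) (j : HN σ ε) :
    List (Option (Dart c × Bool)) := if j = 1 then [] else [none]

/-- the system of words -/
noncomputable def SyN (hσ : Rotation c σ) (hV : Valid c) (hW : WideN c σ ε) :
    Sy (DcN hσ hV hW) (Option (Dart c × Bool)) (Option (Edge c)) where
  vl := vlN σ ε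
  em := emN
  ρ := Ru c
  ty := tyN σ ε
  K := c.2.1.length + 1
  β := beN c.2.1.length
  βmono := by
    intro a b hab
    unfold beN
    have := (Qd.bd_slope (4 * c.2.1.length) (4 * c.2.1.length)).mono hab
    omega
  triv := fun p hp => triv_emN hσ hV p hp
  iv := ivN
  iv_len := ivN_len
  iv_val := ivN_val
  ins := by
    intro p
    rw [List.map_append, em_ivN]
    have := ins_rev (p.map emN)
    rwa [List.length_map] at this
  tw := twN σ ε
  tw_len := fun f g => (twN_len hσ hV f g).trans (Nat.le_succ _)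
  tw_val := fun _ => rfl
  tw_ins := by
    intro f g h
    obtain ⟨v, L, h1, h2, h3⟩ := twN_spec hσ hV h
    rw [List.map_append, h3, ← List.map_append]
    exact (sq_ins L h1).mono (by omega)
  jl := jlN σ ε
  jl_len := by
    intro j
    unfold jlN
    split_ifs <;> simp
  jl_val := by
    intro j hj
    unfold jlN
    split_ifs with h
    · rw [h]; rfl
    · rcases CN_cases hj with h1 | h1
      · exact absurd h1 h
      · rw [h1, List.map_singleton, List.prod_singleton]
        rfl
  ty_none := by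
    intro a ha
    cases a with
    | none => exact JN_mem
    | some d => exact absurd ha (by unfold tyN; simp)

end Pool.Agent.Helper2GI
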