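import Mathlib
import Pool.Agent.Helper2GI.Fn3

/-!
Graphs embedded in closed surfaces: the action of the incidence group, and the solution of the
word problem.
-/

set_option autoImplicit false

namespace Pool.Agent.Helper2GI

open Pool.Agent.Helper2GI.Sf RA



open Sf.Dc

variable {c : Code} {σ : Equiv.Perm (Dart c)} {ε : Edge c → Bool} (hσ : Rotation c σ) (hV : Valid c)
  (hW : WideN c σ ε)

/-- the action of a passage -/
noncomputable def TqN (e : Dart c) (n : ℕ) (q : (DcN hσ hV hW).Om) : (DcN hσ hV hW).Om :=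
  act (faceN σ ε e) (trO (pvN σ ε e n) (act (faceN σ ε (σ^[n] e)) q))

theorem TqN_add (e : Dart c) (m n : ℕ) (q : (DcN hσ hV hW).Om) :
    TqN hσ hV hW e m (TqN hσ hV hW (σ^[m] e) n q) = TqN hσ hV hW e (m + n) q := by
  unfold TqN
  rw [act_act, trO_trO, ← pvN_add, ← Function.iterate_add_apply, add_comm n m]

theorem TqN_len (e : Dart c) (n : ℕ) (q : (DcN hσ hV hW).Om) :
    lenO (TqN hσ hV hW e n q) % 2 = lenO q % 2 := by
  unfold TqN
  have h1 := lenO_act_mod (faceN σ ε e) (trO (pvN σ ε e n) (act (faceN σ ε (σ^[n] e)) q))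
  have h2 := lenO_act_mod (faceN σ ε (σ^[n] e)) q
  rw [lenO_trO] at h1
  omega

theorem TqN_sgO {j : HN σ ε} (hj : j ∈ CN σ ε) (e : Dart c) (n : ℕ) (q : (DcN hσ hV hW).Om) :
    TqN hσ hV hW e n (sgO j q) = sgO j (TqN hσ hV hW e n q) := by
  unfold TqN
  rw [act_sgO (D := DcN hσ hV hW) hj, trO_sgO (D := DcN hσ hV hW) hj,
    act_sgO (D := DcN hσ hV hW) hj]

theorem TqN_loop {e : Dart c} {n : ℕ} (h : faceN σ ε (σ^[n] e) = faceN σ ε e) (q : (DcN hσ hV hW).Om)
    (hq : lenO q % 2 = 0) : TqN hσ hV hW e n q = sgO (pvN σ ε e n) q := by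
  have hj := wideN_one hσ hV hW h
  unfold TqN
  rw [h]
  have h1 := lenO_act_mod (faceN σ ε e) q
  rw [trO_mem _ _ (by omega), act_sgO (D := DcN hσ hV hW) hj, act_act]

theorem TqN_adj {e : Dart c} {n : ℕ} (h : faceN σ ε e ≠ faceN σ ε (σ^[n] e)) : ∃ j ∈ CN σ ε,
    ∀ q : (DcN hσ hV hW).Om, lenO q % 2 = 0 → TqN hσ hV hW e n q =
      sgO j (act (faceN σ ε e) (trO (dlN σ ε (faceN σ ε e) (faceN σ ε (σ^[n] e)))
        (act (faceN σ ε (σ^[n] e)) q))) := by
  have hadj : AdN σ ε (faceN σ ε e) (faceN σ ε (σ^[n] e)) := AdN.of hσ h rfl rfl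
  obtain ⟨e', n', a1, b1, j, hj, d1⟩ := dlN_spec hσ hV (hadj.symm hσ hV)
  have h1 := wideN_mem hσ hV hW (d₁ := e) (n₁ := n) (d₂ := e') (n₂ := n') (d₃ := e) (n₃ := 0)
    a1.symm b1 rfl
  rw [pvN_zero, mul_one] at h1
  have h2 : pvN σ ε e n * dlN σ ε (faceN σ ε (σ^[n] e)) (faceN σ ε e) ∈ CN σ ε := by
    rw [d1, ← mul_assoc, ← CN_cent hj, mul_assoc]
    exact (CN σ ε).mul_mem hj h1
  refine ⟨_, h2, fun q hq => ?_⟩
  have h3 : pvN σ ε e n = pvN σ ε e n * dlN σ ε (faceN σ ε (σ^[n] e)) (faceN σ ε e) *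
      dlN σ ε (faceN σ ε e) (faceN σ ε (σ^[n] e)) := by
    rw [mul_assoc, dlN_inv (hadj.symm hσ hV), mul_one]
  unfold TqN
  have h4 := lenO_act_mod (faceN σ ε (σ^[n] e)) q
  set j0 := pvN σ ε e n * dlN σ ε (faceN σ ε (σ^[n] e)) (faceN σ ε e) with hj0
  rw [h3, ← trO_trO, trO_mem j0 _ (by rw [lenO_trO]; omega),
    act_sgO (D := DcN hσ hV hW) h2]

theorem TqN_TqN (e : Dart c) (n : ℕ) (q : (DcN hσ hV hW).Om) (hq : lenO q % 2 = 0) :
    TqN hσ hV hW e n (TqN hσ hV hW e n q) = q := by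
  by_cases h : faceN σ ε (σ^[n] e) = faceN σ ε e
  · have hj := wideN_one hσ hV hW h
    rw [TqN_loop hσ hV hW h q hq, TqN_loop hσ hV hW h _ (by rw [lenO_sgO]; exact hq), sgO_sgO,
      CN_two hj, sgO_one]
  · have h' : faceN σ ε e ≠ faceN σ ε (σ^[n] e) := fun h' => h h'.symm
    have hadj : AdN σ ε (faceN σ ε e) (faceN σ ε (σ^[n] e)) := AdN.of hσ h' rfl rfl
    obtain ⟨j, hj, hT⟩ := TqN_adj hσ hV hW h'
    have h1 := TqN_len hσ hV hW e n q
    rw [hT _ (by omega), hT q hq]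
    set f := faceN σ ε e with hf
    set g := faceN σ ε (σ^[n] e) with hg
    have h2 := act_rel (D := DcN hσ hV hW) (f := f) (g := g) hadj q hq
    have h3 : act f (trO (dlN σ ε f g) (act g q)) = act g (trO (dlN σ ε g f) (act f q)) := h2
    rw [h3]
    rw [act_sgO (D := DcN hσ hV hW) hj, trO_sgO (D := DcN hσ hV hW) hj,
      act_sgO (D := DcN hσ hV hW) hj, sgO_sgO, CN_two hj, sgO_one, act_act, trO_trO,
      dlN_inv hadj, trO_one, act_act]

/-- even classes -/
def EvN : Type := {q : (DcN hσ hV hW).Om // lenO q % 2 = 0}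

/-- the permutation of a passage -/
noncomputable def TPN (e : Dart c) (n : ℕ) : Equiv.Perm (EvN hσ hV hW) where
  toFun q := ⟨TqN hσ hV hW e n q.1, by rw [TqN_len]; exact q.2⟩
  invFun q := ⟨TqN hσ hV hW e n q.1, by rw [TqN_len]; exact q.2⟩
  left_inv q := Subtype.ext (TqN_TqN hσ hV hW e n q.1 q.2)
  right_inv q := Subtype.ext (TqN_TqN hσ hV hW e n q.1 q.2)

/-- the permutation of a central element -/
noncomputable def sPN (j : HN σ ε) (hj : j ∈ CN σ ε) : Equiv.Perm (EvN hσ hV hW) where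
  toFun q := ⟨sgO j q.1, by rw [lenO_sgO]; exact q.2⟩
  invFun q := ⟨sgO j q.1, by rw [lenO_sgO]; exact q.2⟩
  left_inv q := Subtype.ext (by
    show sgO j (sgO j q.1) = q.1
    rw [sgO_sgO, CN_two hj, sgO_one])
  right_inv q := Subtype.ext (by
    show sgO j (sgO j q.1) = q.1
    rw [sgO_sgO, CN_two hj, sgO_one])

theorem TPN_sq (e : Dart c) (n : ℕ) : TPN hσ hV hW e n * TPN hσ hV hW e n = 1 := by
  apply Equiv.ext
  intro q
  exact Subtype.ext (TqN_TqN hσ hV hW e n q.1 q.2)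

theorem TPN_mul (e : Dart c) (m n : ℕ) :
    TPN hσ hV hW e m * TPN hσ hV hW (σ^[m] e) n = TPN hσ hV hW e (m + n) := by
  apply Equiv.ext
  intro q
  exact Subtype.ext (TqN_add hσ hV hW e m n q.1)

theorem TPN_zero (e : Dart c) : TPN hσ hV hW e 0 = 1 := by
  apply Equiv.ext
  intro q
  apply Subtype.ext
  show act (faceN σ ε e) (trO (pvN σ ε e 0) (act (faceN σ ε (σ^[0] e)) q.1)) = q.1
  rw [pvN_zero, trO_one]
  exact act_act _ _

theorem TPN_loop {e : Dart c} {n : ℕ} (h : faceN σ ε (σ^[n] e) = faceN σ ε e) :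
    TPN hσ hV hW e n = sPN hσ hV hW (pvN σ ε e n) (wideN_one hσ hV hW h) := by
  apply Equiv.ext
  intro q
  exact Subtype.ext (TqN_loop hσ hV hW h q.1 q.2)

theorem TPN_sPN (e : Dart c) (n : ℕ) {j : HN σ ε} (hj : j ∈ CN σ ε) :
    TPN hσ hV hW e n * sPN hσ hV hW j hj = sPN hσ hV hW j hj * TPN hσ hV hW e n := by
  apply Equiv.ext
  intro q
  exact Subtype.ext (TqN_sgO hσ hV hW hj e n q.1)

/-- the permutation of a dart -/
noncomputable def XPN (d : Dart c) : Equiv.Perm (EvN hσ hV hW) := TPN hσ hV hW (σ⁻¹ d) 1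

theorem XPN_sq (d : Dart c) : XPN hσ hV hW d * XPN hσ hV hW d = 1 := TPN_sq hσ hV hW _ _

theorem XPN_op (d : Dart c) : XPN hσ hV hW (op d) = XPN hσ hV hW d := by
  cases h : ε d.1
  · have h1 : XPN hσ hV hW (op d) * XPN hσ hV hW d = 1 := by
      apply Equiv.ext
      intro q
      apply Subtype.ext
      show act (faceN σ ε (σ⁻¹ (op d))) (trO (pvN σ ε (σ⁻¹ (op d)) 1)
        (act (faceN σ ε (σ^[1] (σ⁻¹ (op d)))) (act (faceN σ ε (σ⁻¹ d)) (trO (pvN σ ε (σ⁻¹ d) 1)
        (act (faceN σ ε (σ^[1] (σ⁻¹ d))) q.1))))) = q.1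
      rw [iter_inv, iter_inv, faceN_p1 h, faceN_p2 h, act_act, trO_trO, pvN_one, pvN_one]
      have h2 : el' σ ε (op d) * el' σ ε d = 1 := by
        have := el_plain (σ := σ) (ε := ε) (d := op d) h
        rwa [op_op] at this
      rw [h2, trO_one, act_act]
    have h2 := XPN_sq hσ hV hW d
    exact mul_right_cancel (h1.trans h2.symm)
  · apply Equiv.ext
    intro q
    apply Subtype.ext
    show act (faceN σ ε (σ⁻¹ (op d))) (trO (pvN σ ε (σ⁻¹ (op d)) 1)
      (act (faceN σ ε (σ^[1] (σ⁻¹ (op d)))) q.1)) =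
      act (faceN σ ε (σ⁻¹ d)) (trO (pvN σ ε (σ⁻¹ d) 1) (act (faceN σ ε (σ^[1] (σ⁻¹ d))) q.1))
    rw [iter_inv, iter_inv, faceN_t1 h, faceN_t2 h, pvN_one, pvN_one, el_twist h]

theorem XPN_edge {d e : Dart c} (h : d.1 = e.1) : XPN hσ hV hW d = XPN hσ hV hW e := by
  rcases same_edge h with h1 | h1
  · rw [h1]
  · rw [h1, XPN_op]

theorem XPN_comm {d d' : Dart c} (h : tl d' = tl d) :
    XPN hσ hV hW d * XPN hσ hV hW d' = XPN hσ hV hW d' * XPN hσ hV hW d := by
  obtain ⟨n, _, rfl⟩ := exists_iter hσ h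
  cases n with
  | zero => rfl
  | succ n =>
    have e1 : XPN hσ hV hW (σ^[n + 1] d) = TPN hσ hV hW (σ^[n] d) 1 := by
      unfold XPN
      rw [Function.iterate_succ_apply', pinv2]
    have e2 : XPN hσ hV hW d = TPN hσ hV hW (σ⁻¹ d) 1 := rfl
    have hAB := TPN_mul hσ hV hW (σ⁻¹ d) 1 n
    rw [iter_inv] at hAB
    have hBC := TPN_mul hσ hV hW d n 1
    have hABC : TPN hσ hV hW (σ⁻¹ d) 1 * TPN hσ hV hW d n * TPN hσ hV hW (σ^[n] d) 1 =
        TPN hσ hV hW (σ⁻¹ d) (1 + n + 1) := by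
      rw [hAB]
      have := TPN_mul hσ hV hW (σ⁻¹ d) (1 + n) 1
      have h3 : σ^[1 + n] (σ⁻¹ d) = σ^[n] d := by
        rw [add_comm, Function.iterate_add_apply, iter_inv]
      rwa [h3] at this
    rw [e1, e2]
    refine three (B := TPN hσ hV hW d n) (TPN_sq hσ hV hW _ _) (TPN_sq hσ hV hW _ _)
      (TPN_sq hσ hV hW _ _) ?_ ?_ ?_
    · rw [hAB]; exact TPN_sq hσ hV hW _ _
    · rw [hBC]; exact TPN_sq hσ hV hW _ _
    · rw [hABC]; exact TPN_sq hσ hV hW _ _

theorem XPN_pas (e : Dart c) (n : ℕ) : ((pas σ e n).map (XPN hσ hV hW)).prod = TPN hσ hV hW e n := by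
  induction n with
  | zero => exact (TPN_zero hσ hV hW e).symm
  | succ n ih =>
    rw [pas_add, List.map_append, List.prod_append, ih, pas_one, List.map_singleton,
      List.prod_singleton, ← TPN_mul]
    congr 1
    unfold XPN
    rw [pinv2]

/-- the images of the generators -/
noncomputable def fEN : Option (Edge c) → Equiv.Perm (EvN hσ hV hW)
  | none => sPN hσ hV hW (JN σ ε) JN_mem
  | some i => XPN hσ hV hW (i, false)

theorem sPN_congr {j j' : HN σ ε} (e : j = j') (h : j ∈ CN σ ε) (h' : j' ∈ CN σ ε) :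
    sPN hσ hV hW j h = sPN hσ hV hW j' h' := by
  subst e
  rfl

theorem sPN_one : sPN hσ hV hW 1 (CN σ ε).one_mem = 1 := by
  apply Equiv.ext
  intro q
  exact Subtype.ext (sgO_one q.1)

theorem sPN_sq {j : HN σ ε} (hj : j ∈ CN σ ε) : sPN hσ hV hW j hj * sPN hσ hV hW j hj = 1 := by
  apply Equiv.ext
  intro q
  apply Subtype.ext
  show sgO j (sgO j q.1) = q.1
  rw [sgO_sgO, CN_two hj, sgO_one]

theorem fEN_comm {v : ℕ} {i j : Edge c} (hi : Inc c v i) (hj : Inc c v j) :
    fEN hσ hV hW (some i) * fEN hσ hV hW (some j) = fEN hσ hV hW (some j) * fEN hσ hV hW (some i) := by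
  obtain ⟨d, h1, h2⟩ := inc_cases hi
  obtain ⟨d', h3, h4⟩ := inc_cases hj
  have e1 : fEN hσ hV hW (some i) = XPN hσ hV hW d := XPN_edge hσ hV hW h1.symm
  have e2 : fEN hσ hV hW (some j) = XPN hσ hV hW d' := XPN_edge hσ hV hW h3.symm
  rw [e1, e2]
  exact XPN_comm hσ hV hW (h4.trans h2.symm)

theorem fEN_vert {v : ℕ} (hv : v < c.1) :
    ((star c v).map fun i => fEN hσ hV hW (some i)).prod = fEN hσ hV hW none ^ colour c v := by
  have hp := (rl_perm hσ hV v).map (fun i => fEN hσ hV hW (some i))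
  have hpw : (((rl σ v).map Prod.fst).map (fun i => fEN hσ hV hW (some i))).Pairwise Commute := by
    rw [List.pairwise_map]
    refine List.Pairwise.imp_of_mem (R := fun _ _ => True) ?_ (List.pairwise_of_forall (fun _ _ => trivial))
    intro i j hi hj _
    have hst := (rl_perm hσ hV v)
    exact fEN_comm hσ hV hW (mem_star.1 (hst.mem_iff.1 hi)) (mem_star.1 (hst.mem_iff.1 hj))
  rw [← hp.prod_eq' hpw, List.map_map]
  have h1 : (rl σ v).map ((fun i => fEN hσ hV hW (some i)) ∘ Prod.fst) =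
      (rl σ v).map (XPN hσ hV hW) :=
    List.map_congr_left fun d _ => XPN_edge hσ hV hW (d := (d.1, false)) rfl
  rw [h1]
  have hcol : colour c v = 0 ∨ colour c v = 1 := by
    unfold colour
    split_ifs <;> simp
  have hpow : ∀ h : JN σ ε ^ (colour c v : ZMod 2).val ∈ CN σ ε,
      sPN hσ hV hW (JN σ ε ^ (colour c v : ZMod 2).val) h = fEN hσ hV hW none ^ colour c v := by
    intro h
    rcases hcol with h0 | h0
    · have e : JN σ ε ^ (colour c v : ZMod 2).val = 1 := by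
        rw [h0]
        exact pow_zero _
      rw [sPN_congr hσ hV hW e h (CN σ ε).one_mem, sPN_one, h0, pow_zero]
    · have e : JN σ ε ^ (colour c v : ZMod 2).val = JN σ ε := by
        rw [h0]
        exact pow_one _
      rw [sPN_congr hσ hV hW e h JN_mem, h0, pow_one]
      rfl
  by_cases hd : ∃ e : Dart c, tl e = v
  · obtain ⟨e, he, h2⟩ := rl_spec (σ := σ) hd
    rw [h2, XPN_pas, TPN_loop hσ hV hW (by rw [per_eq])]
    have h3 := pvN_full (ε := ε) hσ hV e
    rw [he] at h3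
    have h4 : JN σ ε ^ (colour c v : ZMod 2).val ∈ CN σ ε := (CN σ ε).pow_mem JN_mem _
    rw [← hpow h4]
    exact sPN_congr hσ hV hW h3 _ _
  · have h2 := rN_val (σ := σ) (ε := ε) hv false
    have h3 : rN σ v false = [] := by
      unfold rN
      rw [rl_none hd]
      rfl
    rw [h3, List.map_nil, Qd.val_nil] at h2
    rw [rl_none hd]
    have h4 : JN σ ε ^ (colour c v : ZMod 2).val ∈ CN σ ε := (CN σ ε).pow_mem JN_mem _
    rw [← hpow h4]
    have h5 : JN σ ε ^ (colour c v : ZMod 2).val = 1 := by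
      unfold JN
      rw [← map_pow, ← h2, map_one]
    rw [sPN_congr hσ hV hW h5 h4 (CN σ ε).one_mem, sPN_one]
    rfl

/-- the action of the incidence group -/
noncomputable def actGN : Gam c →* Equiv.Perm (EvN hσ hV hW) :=
  PresentedGroup.toGroup (f := fEN hσ hV hW) (by
    intro r hr
    have hr' : Rlt c r := hr
    cases hr' with
    | JJ =>
      rw [map_mul, FreeGroup.lift_apply_of]
      exact sPN_sq hσ hV hW JN_mem
    | xx i =>
      rw [map_mul, FreeGroup.lift_apply_of]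
      exact XPN_sq hσ hV hW _
    | xJ i =>
      simp only [map_mul, map_inv, FreeGroup.lift_apply_of]
      rw [mul_inv_eq_one, mul_inv_eq_iff_eq_mul]
      exact TPN_sPN hσ hV hW _ _ JN_mem
    | comm v i j hi hj =>
      simp only [map_mul, map_inv, FreeGroup.lift_apply_of]
      rw [mul_inv_eq_one, mul_inv_eq_iff_eq_mul]
      exact fEN_comm hσ hV hW hi hj
    | vert v hv =>
      rw [map_mul, map_inv, map_pow, map_list_prod, List.map_map, mul_inv_eq_one,
        FreeGroup.lift_apply_of]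
      have h1 : (⇑(FreeGroup.lift (fEN hσ hV hW)) ∘ fun i => FreeGroup.of (some i)) =
          fun i => fEN hσ hV hW (some i) := by
        funext i
        simp
      rw [h1]
      exact fEN_vert hσ hV hW hv)

/-- a dart for each edge -/
def secN : Option (Edge c) → Option (Dart c × Bool) := Option.map fun i => ((i, false), false)

theorem em_secN (w : List (Option (Edge c))) : (w.map secN).map emN = w := by
  rw [List.map_map]
  have : (emN ∘ secN : Option (Edge c) → Option (Edge c)) = id := by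
    funext a
    cases a <;> rfl
  rw [this, List.map_id]

theorem opw_fEN (w : List (Option (Edge c))) (q : EvN hσ hV hW) :
    (SyN hσ hV hW).opw (w.map secN) q.1 = ((w.map (fEN hσ hV hW)).prod q).1 := by
  induction w with
  | nil => rfl
  | cons a w ih =>
    rw [List.map_cons, List.map_cons, List.prod_cons]
    show (SyN hσ hV hW).opl (secN a) ((SyN hσ hV hW).opw (w.map secN) q.1) = _
    rw [ih]
    cases a with
    | none => rfl
    | some i =>
      rw [(SyN hσ hV hW).opl_some (a := secN (some i)) (f := faceN σ ε (σ⁻¹ (i, false)))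
        (g := faceN σ ε (i, false)) rfl]
      show _ = act (faceN σ ε (σ⁻¹ (i, false))) (trO (pvN σ ε (σ⁻¹ (i, false)) 1)
        (act (faceN σ ε (σ^[1] (σ⁻¹ (i, false)))) ((w.map (fEN hσ hV hW)).prod q).1))
      rw [iter_inv, pvN_one]
      rfl

/-- **Bounded derivations for embedded graphs of face-width at least four.** -/
theorem wideN_derive (w : List (Option (Edge c)))
    (hw : (w.map (PresentedGroup.of (rels := {r | Rlt c r}))).prod = 1) :
    GR (Ru c) ((SyN hσ hV hW).T ((SyN hσ hV hW).Gf w.length)) w [] := by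
  have h1 := congrArg (actGN hσ hV hW) hw
  rw [map_one, map_list_prod, List.map_map] at h1
  have h2 : (w.map (⇑(actGN hσ hV hW) ∘ PresentedGroup.of)) = w.map (fEN hσ hV hW) := by
    refine List.map_congr_left fun a _ => ?_
    exact PresentedGroup.toGroup.of _
  rw [h2] at h1
  let b : EvN hσ hV hW := ⟨Dc.cl (Wd.nil 1) (Dc.red_nil 1), rfl⟩
  have h3 := opw_fEN hσ hV hW w b
  rw [h1] at h3
  have h4 := (SyN hσ hV hW).derive (w.map secN) h3
  rw [List.length_map] at h4
  have h5 : GR (Ru c) ((SyN hσ hV hW).T ((SyN hσ hV hW).Gf w.length)) ((w.map secN).map emN)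
    (([] : List (Option (Dart c × Bool))).map emN) := h4
  rw [em_secN] at h5
  exact h5

end Pool.Agent.Helper2GI
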