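import Mathlib
import Pool.Agent.Helper2GI.Fn4
import Pool.Agent.Helper2GI.Fw4

/-!
Embedded graphs of face-width at least four in closed surfaces, orientable or not: solution of the
word problem.
-/

set_option autoImplicit false

namespace Pool.Agent.Helper2GI

open Pool.Agent.Helper2GI.Sf

/-- the bound for words of length `n` in a graph with `E` edges -/
def bWN (E n : ℕ) : ℕ := beN E (2 * gW (E + 1) n) + 4 * gW (E + 1) n

theorem wideN_bound {c : Code} {σ : Equiv.Perm (Dart c)} {ε : Edge c → Bool}
    (hσ : Rotation c σ) (hV : Valid c) (hW : WideN c σ ε) (w : List (Option (Edge c)))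
    (hw : (w.map (PresentedGroup.of (rels := {r | Rlt c r}))).prod = 1) :
    GR (Ru c) (bWN c.2.1.length w.length) w [] := by
  refine (wideN_derive hσ hV hW w hw).mono ?_
  exact Sy.T_mono (Gf_le _ _)

/-- the bound on the lengths in derivations -/
def bndWN (q : Code × List ℕ) : ℕ := bWN q.1.2.1.length q.2.length

theorem primrec_bndWN : Primrec bndWN := by
  have hE : Primrec (fun q : Code × List ℕ => q.1.2.1.length) :=
    Primrec.list_length.comp (Primrec.fst.comp (Primrec.snd.comp Primrec.fst))
  have hn : Primrec (fun q : Code × List ℕ => q.2.length) := Primrec.list_length.comp Primrec.snd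
  have hg : Primrec (fun q : Code × List ℕ => gW (q.1.2.1.length + 1) q.2.length) :=
    Primrec.nat_mul.comp hn (Primrec.nat_add.comp (Primrec.const 1) (Primrec.nat_mul.comp
      (Primrec.const 2) (Primrec.nat_mul.comp (primrec_gf.comp (Primrec.nat_add.comp
        (Primrec.nat_mul.comp (Primrec.const 2) hn) (Primrec.const 2))) (Primrec.succ.comp hE))))
  have h4E : Primrec (fun q : Code × List ℕ => 4 * q.1.2.1.length) :=
    Primrec.nat_mul.comp (Primrec.const 4) hE
  exact Primrec.nat_add.comp (Primrec.nat_add.comp
    (primrec_bd h4E h4E (Primrec.nat_mul.comp (Primrec.const 2) hg))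
    (Primrec.nat_add.comp hE (Primrec.const 4))) (Primrec.nat_mul.comp (Primrec.const 4) hg)

theorem locally_solvable : Solvable LocallyPlanar := by
  refine solvable_of_bound LocallyPlanar bndWN primrec_bndWN ?_
  rintro c hV ⟨σ, ε, hσ, hW⟩ u hu
  have h1 := wideN_bound hσ hV hW u hu
  have h2 := Ru_reach h1
  show Relation.ReflTransGen (BStep (RL c) _) (u.map (enc c)) []
  unfold bndWN
  simp only [List.length_map]
  exact h2

end Pool.Agent.Helper2GI
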