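import Mathlib
import Pool.Agent.Helper2GI.BigG

/-!
The word problem for graph incidence groups of coloured multigraphs whose minimum degree is large
compared with the edge multiplicities, in particular of all simple graphs of minimum degree at
least 81 and all colourings of them, is solvable by one algorithm.
-/

set_option autoImplicit false

namespace Pool.Agent.Helper2GI

/-- Two different vertices are joined by at most `μ` edges and every vertex has degree larger than
`80 μ`, for some `μ`. -/
def Large (c : Code) : Prop :=
  ∃ μ : ℕ, (∀ u v, u < c.1 → v < c.1 → u ≠ v → joining c u v ≤ μ) ∧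
    ∀ v < c.1, 80 * μ < degree c v

theorem large_solvable : Solvable Large := by
  refine solvable_of_bound Large (fun q => q.2.length + 2 * q.1.2.1.length + 2) ?_ ?_
  · refine Primrec.nat_add.comp (Primrec.nat_add.comp (Primrec.list_length.comp Primrec.snd)
      (Primrec.nat_mul.comp (Primrec.const 2) (primrec_elen.comp Primrec.fst))) (Primrec.const 2)
  · rintro c hV ⟨μ, h1, h2⟩ u hu
    have hL : ∀ v : Fin c.1, (star c v.1).Perm ((bigOf c hV μ h1 h2).St v).toList := by
      intro v
      refine (List.perm_ext_iff_of_nodup (star_nodup c v.1) (Finset.nodup_toList _)).2 ?_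
      intro a
      show a ∈ star c v.1 ↔ a ∈ (star c v.1).toFinset.toList
      simp
    have hM : ∀ v : Fin c.1, ((bigOf c hV μ h1 h2).St v).card ≤ c.2.1.length := by
      intro v
      have := Finset.card_le_univ ((bigOf c hV μ h1 h2).St v)
      simpa using this
    have hN := kernel_mem c (bigOf c hV μ h1 h2) rfl (fun _ => rfl) (fun _ => rfl) u hu
    have h3 := (bigOf c hV μ h1 h2).derive (fun v => star c v.1) hL c.2.1.length hM u hN
    have h4 := GR_reach c (bigOf c hV μ h1 h2) rfl (fun _ => rfl) _ h3
    show Relation.ReflTransGen (BStep (RL c) ((u.map (enc c)).length + 2 * c.2.1.length + 2))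
      (u.map (enc c)) []
    rw [List.length_map]
    exact h4

end Pool.Agent.Helper2GI
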