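import Mathlib

/-!
Groups glued along involutions in the pattern of a graph without triangles: words, flips and the
exchange lemmas.  All local groups are subgroups of one group `B` (for instance of their product).
-/

set_option autoImplicit false

namespace Pool.Agent.Helper2GI

/-- Local groups glued along involutions `x u v = x v u` (up to a sign `τ u v`) for the edges of a
graph without triangles, such that no product of at most three of the involutions at a vertex is
trivial. -/
structure Glue (V B : Type) [Group B] where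
  adj : V → V → Prop
  x : V → V → B
  τ : V → V → ZMod 2
  symm : ∀ {u v}, adj u v → adj v u
  irr : ∀ v, ¬ adj v v
  tri : ∀ {u v w}, adj u v → adj v w → adj u w → False
  τs : ∀ u v, τ u v = τ v u
  sq : ∀ {u v}, adj u v → x u v * x u v = 1
  ne : ∀ {u v}, adj u v → x u v ≠ 1
  inj : ∀ {u v w}, adj u v → adj u w → x u v = x u w → v = w
  tr : ∀ {u v w z}, adj u v → adj u w → adj u z → x u v * x u w ≠ x u z

namespace Glue

variable {V B : Type} [Group B] (S : Glue V B)

/-- flips of chamber words, with sign -/
inductive Fl : ZMod 2 → List (V × B) → List (V × B) → Prop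
  | swap {u v : V} (h : S.adj u v) (L : List (V × B)) :
      Fl (S.τ u v) ((u, S.x u v) :: L) ((v, S.x v u) :: L)
  | slide {u v : V} (h : S.adj u v) (a b : B) (L : List (V × B)) :
      Fl (S.τ u v) ((u, a) :: (v, b) :: L) ((u, a * S.x u v) :: (v, S.x v u * b) :: L)
  | cons (s : V × B) {k : ZMod 2} {L L' : List (V × B)} (h : Fl k L L') :
      Fl k (s :: L) (s :: L')

/-- equivalence of chamber words, with sign -/
inductive E : ZMod 2 → List (V × B) → List (V × B) → Prop
  | refl (L : List (V × B)) : E 0 L L
  | tail {k k' : ZMod 2} {L L' L'' : List (V × B)} (h : E k L L') (h' : S.Fl k' L' L'') :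
      E (k + k') L L''

/-- flips of coset words, with sign -/
inductive FlV (v : V) : ZMod 2 → B × List (V × B) → B × List (V × B) → Prop
  | slide {w : V} (h : S.adj v w) (a b : B) (L : List (V × B)) :
      FlV v (S.τ v w) (a, (w, b) :: L) (a * S.x v w, (w, S.x w v * b) :: L)
  | tail (a : B) {k : ZMod 2} {L L' : List (V × B)} (h : S.Fl k L L') : FlV v k (a, L) (a, L')

/-- equivalence of coset words, with sign -/
inductive EV (v : V) : ZMod 2 → B × List (V × B) → B × List (V × B) → Prop
  | refl (p : B × List (V × B)) : EV v 0 p p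
  | tail {k k' : ZMod 2} {p q r : B × List (V × B)} (h : EV v k p q) (h' : S.FlV v k' q r) :
      EV v (k + k') p r

variable {S}

theorem two (k : ZMod 2) : k + k = 0 := by
  revert k
  decide

theorem Fl.symm {k : ZMod 2} {L L' : List (V × B)} (h : S.Fl k L L') : S.Fl k L' L := by
  induction h with
  | @swap u v h L =>
    rw [S.τs]
    exact Fl.swap (S.symm h) L
  | @slide u v h a b L =>
    have h1 := Fl.slide (S := S) h (a * S.x u v) (S.x v u * b) L
    rw [mul_assoc, S.sq h, mul_one, ← mul_assoc, S.sq (S.symm h), one_mul] at h1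
    exact h1
  | cons s _ ih => exact Fl.cons s ih

theorem FlV.symm {v : V} {k : ZMod 2} {p q : B × List (V × B)} (h : S.FlV v k p q) :
    S.FlV v k q p := by
  cases h with
  | @slide w h a b L =>
    have h1 := FlV.slide (S := S) h (a * S.x v w) (S.x w v * b) L
    rw [mul_assoc, S.sq h, mul_one, ← mul_assoc, S.sq (S.symm h), one_mul] at h1
    exact h1
  | tail a h => exact FlV.tail a h.symm

theorem Fl.length {k : ZMod 2} {L L' : List (V × B)} (h : S.Fl k L L') :
    L.length = L'.length := by
  induction h with
  | swap h L => simp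
  | slide h a b L => simp
  | cons s _ ih => simp [ih]

theorem E.length {k : ZMod 2} {L L' : List (V × B)} (h : S.E k L L') :
    L.length = L'.length := by
  induction h with
  | refl L => rfl
  | tail _ h2 ih => rw [ih, h2.length]

theorem FlV.length {v : V} {k : ZMod 2} {p q : B × List (V × B)} (h : S.FlV v k p q) :
    p.2.length = q.2.length := by
  cases h with
  | slide h a b L => simp
  | tail a h => exact h.length

theorem EV.length {v : V} {k : ZMod 2} {p q : B × List (V × B)} (h : S.EV v k p q) :
    p.2.length = q.2.length := by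
  induction h with
  | refl p => rfl
  | tail _ h2 ih => rw [ih, h2.length]

theorem E.of {k : ZMod 2} {L L' : List (V × B)} (h : S.Fl k L L') : S.E k L L' := by
  have := E.tail (E.refl L) h
  rwa [zero_add] at this

theorem EV.of {v : V} {k : ZMod 2} {p q : B × List (V × B)} (h : S.FlV v k p q) :
    S.EV v k p q := by
  have := EV.tail (EV.refl p) h
  rwa [zero_add] at this

theorem E.trans {k k' : ZMod 2} {L L' L'' : List (V × B)} (h : S.E k L L') (h' : S.E k' L' L'') :
    S.E (k + k') L L'' := by
  induction h' with
  | refl _ => rwa [add_zero]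
  | tail _ h2 ih => rw [← add_assoc]; exact E.tail (ih h) h2

theorem EV.trans {v : V} {k k' : ZMod 2} {p q r : B × List (V × B)} (h : S.EV v k p q)
    (h' : S.EV v k' q r) : S.EV v (k + k') p r := by
  induction h' with
  | refl _ => rwa [add_zero]
  | tail _ h2 ih => rw [← add_assoc]; exact EV.tail (ih h) h2

theorem E.symm {k : ZMod 2} {L L' : List (V × B)} (h : S.E k L L') : S.E k L' L := by
  induction h with
  | refl L => exact E.refl L
  | tail _ h2 ih => rw [add_comm]; exact (E.of h2.symm).trans ih

theorem EV.symm {v : V} {k : ZMod 2} {p q : B × List (V × B)} (h : S.EV v k p q) :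
    S.EV v k q p := by
  induction h with
  | refl p => exact EV.refl p
  | tail _ h2 ih => rw [add_comm]; exact (EV.of h2.symm).trans ih

theorem E.cons (s : V × B) {k : ZMod 2} {L L' : List (V × B)} (h : S.E k L L') :
    S.E k (s :: L) (s :: L') := by
  induction h with
  | refl L => exact E.refl _
  | tail _ h2 ih => exact E.tail ih (Fl.cons s h2)

theorem EV.lift {v : V} (a : B) {k : ZMod 2} {L L' : List (V × B)} (h : S.E k L L') :
    S.EV v k (a, L) (a, L') := by
  induction h with
  | refl L => exact EV.refl _
  | tail _ h2 ih => exact EV.tail ih (FlV.tail a h2)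

theorem EV.toE {v : V} {k : ZMod 2} {p q : B × List (V × B)} (h : S.EV v k p q) :
    S.E k ((v, p.1) :: p.2) ((v, q.1) :: q.2) := by
  induction h with
  | refl p => exact E.refl _
  | tail _ h2 ih =>
    refine E.tail ih ?_
    cases h2 with
    | slide h a b L => exact Fl.slide h a b L
    | tail a h => exact Fl.cons _ h

theorem EV.mul {v : V} {k : ZMod 2} {p q : B × List (V × B)} (c : B) (h : S.EV v k p q) :
    S.EV v k (c * p.1, p.2) (c * q.1, q.2) := by
  induction h with
  | refl p => exact EV.refl _
  | tail _ h2 ih =>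
    refine EV.tail ih ?_
    cases h2 with
    | slide h a b L =>
      simp only
      rw [← mul_assoc]
      exact FlV.slide h (c * a) b L
    | tail a h => exact FlV.tail _ h

theorem E.nil' {k : ZMod 2} {M L : List (V × B)} (h : S.E k M L) : M = [] → L = [] ∧ k = 0 := by
  induction h with
  | refl L => exact fun h => ⟨h, rfl⟩
  | tail h1 h2 ih =>
    intro hM
    obtain ⟨h3, _⟩ := ih hM
    subst h3
    cases h2

theorem E.nil {k : ZMod 2} {L : List (V × B)} (h : S.E k [] L) : L = [] ∧ k = 0 := h.nil' rfl

variable (S)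

/-- conclusion of the exchange lemma for chamber words -/
def KC (k : ZMod 2) (s : V × B) (P : List (V × B)) (t : V × B) (Q : List (V × B)) : Prop :=
  (s.1 = t.1 ∧ S.EV s.1 k (s.2, P) (t.2, Q)) ∨
  (S.adj s.1 t.1 ∧ ∃ R k1 k2, k = k1 + S.τ s.1 t.1 + k2 ∧
    S.EV s.1 k1 (s.2, P) (S.x s.1 t.1, R) ∧ S.EV t.1 k2 (S.x t.1 s.1, R) (t.2, Q))

/-- conclusion of the exchange lemma for coset words -/
def KV (v : V) (k : ZMod 2) (p q : B × List (V × B)) : Prop :=
  (p.1 = q.1 ∧ S.E k p.2 q.2) ∨
  (∃ w, S.adj v w ∧ q.1 = p.1 * S.x v w ∧ ∃ d R k1 k2, k = k1 + S.τ v w + k2 ∧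
    S.E k1 p.2 ((w, d) :: R) ∧ S.E k2 ((w, S.x w v * d) :: R) q.2)

variable {S}

theorem kv_step (n : ℕ)
    (IH : ∀ m < n, ∀ (k : ZMod 2) (s : V × B) (P : List (V × B)) (t : V × B) (Q : List (V × B)),
      P.length = m → S.E k (s :: P) (t :: Q) → S.KC k s P t Q)
    (v : V) (k : ZMod 2) (p q : B × List (V × B)) (hn : p.2.length = n) (h : S.EV v k p q) :
    S.KV v k p q := by
  induction h with
  | refl p => exact Or.inl ⟨rfl, E.refl _⟩
  | @tail k k' p q r h1 h2 ih =>
    have ih' := ih hn
    cases h2 with
    | tail c h3 =>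
      rcases ih' with ⟨h4, h5⟩ | ⟨w, hw, h4, d, R, k1, k2, h5, h6, h7⟩
      · exact Or.inl ⟨h4, E.tail h5 h3⟩
      · refine Or.inr ⟨w, hw, h4, d, R, k1, k2 + k', ?_, h6, E.tail h7 h3⟩
        rw [h5]; ring
    | @slide w' hw' c e L =>
      rcases ih' with ⟨h4, h5⟩ | ⟨w, hw, h4, d, R, k1, k2, h5, h6, h7⟩
      · simp only at h4 h5
        refine Or.inr ⟨w', hw', ?_, e, L, k, 0, ?_, h5, E.refl _⟩
        · rw [h4]
        · ring
      · simp only at h4 h7
        have hlen : R.length < n := by
          have := h6.length
          rw [hn] at this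
          simp only [List.length_cons] at this
          omega
        rcases IH R.length hlen k2 _ _ _ _ rfl h7 with ⟨h8, h9⟩ | ⟨h8, _⟩
        · simp only at h8 h9
          subst h8
          left
          refine ⟨?_, ?_⟩
          · simp only
            rw [h4, mul_assoc, S.sq hw, mul_one]
          · have h10 := (h9.mul (S.x w v)).toE
            simp only at h10
            rw [← mul_assoc, S.sq (S.symm hw), one_mul] at h10
            have h11 := h6.trans h10
            have h12 : k + S.τ v w = k1 + k2 := by
              rw [h5]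
              have := two (S.τ v w)
              linear_combination this
            rw [h12]
            exact h11
        · exact absurd h8 (fun h => S.tri hw h hw')

theorem kc_step (n : ℕ)
    (IH : ∀ (v : V) (k : ZMod 2) (p q : B × List (V × B)), p.2.length = n → S.EV v k p q →
      S.KV v k p q)
    (k : ZMod 2) (s : V × B) (P : List (V × B)) (hn : P.length = n) (W : List (V × B))
    (h : S.E k (s :: P) W) : ∀ t Q, W = t :: Q → S.KC k s P t Q := by
  generalize hM : s :: P = M at h
  induction h with
  | refl L =>
    intro t Q ht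
    subst hM
    rw [List.cons.injEq] at ht
    obtain ⟨rfl, rfl⟩ := ht
    exact Or.inl ⟨rfl, EV.refl _⟩
  | @tail k k' L L' L'' h1 h2 ih =>
    intro t Q ht
    subst hM
    subst ht
    have ih' := ih rfl
    cases h2 with
    | @cons _ _ S' _ h3 =>
      rcases ih' _ _ rfl with ⟨h4, h5⟩ | ⟨h4, R, k1, k2, h5, h6, h7⟩
      · exact Or.inl ⟨h4, EV.tail h5 (FlV.tail _ h3)⟩
      · refine Or.inr ⟨h4, R, k1, k2 + k', ?_, h6, EV.tail h7 (FlV.tail _ h3)⟩
        rw [h5]; ring
    | @slide u w hw a b L =>
      rcases ih' _ _ rfl with ⟨h4, h5⟩ | ⟨h4, R, k1, k2, h5, h6, h7⟩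
      · simp only at h4 h5
        refine Or.inl ⟨h4, EV.tail h5 ?_⟩
        rw [h4]
        exact FlV.slide hw a b L
      · refine Or.inr ⟨h4, R, k1, k2 + S.τ u w, ?_, h6, EV.tail h7 (FlV.slide hw a b L)⟩
        rw [h5]; ring
    | @swap v' v hv L =>
      rcases ih' _ _ rfl with ⟨h4, h5⟩ | ⟨h4, R, k1, k2, h5, h6, h7⟩
      · simp only at h4 h5
        right
        obtain ⟨u, a⟩ := s
        simp only at h4
        subst h4
        exact ⟨hv, Q, k, 0, by ring, h5, EV.refl _⟩
      · obtain ⟨u, a⟩ := s
        simp only at h4 h5 h6 h7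
        have hR : R.length = n := by
          have := h6.length
          simp only at this
          omega
        rcases IH v' k2 _ _ (by simpa using hR) h7 with ⟨h8, h9⟩ | ⟨w, hw, h8, _⟩
        · simp only at h8 h9
          have huv := S.inj (S.symm h4) hv h8
          subst huv
          left
          refine ⟨rfl, ?_⟩
          have h10 := h6.trans (EV.lift (S.x u v') h9)
          have h12 : k + S.τ v' u = k1 + k2 := by
            rw [h5, S.τs v' u]
            have := two (S.τ u v')
            linear_combination this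
          rw [h12]
          exact h10
        · simp only at h8
          exact absurd h8.symm (S.tr (S.symm h4) hw hv)

theorem kc : ∀ (n : ℕ) (k : ZMod 2) (s : V × B) (P : List (V × B)) (t : V × B)
    (Q : List (V × B)), P.length = n → S.E k (s :: P) (t :: Q) → S.KC k s P t Q := by
  intro n
  induction n using Nat.strong_induction_on with
  | _ n IH =>
  intro k s P t Q hn h
  exact kc_step n (fun v k p q hp hE => kv_step n IH v k p q hp hE) k s P hn _ h t Q rfl

theorem kv (v : V) (k : ZMod 2) (p q : B × List (V × B)) (h : S.EV v k p q) : S.KV v k p q :=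
  kv_step p.2.length (fun m _ => kc m) v k p q rfl h

theorem cancel {k : ZMod 2} {v : V} {a : B} {P Q : List (V × B)}
    (h : S.E k ((v, a) :: P) ((v, a) :: Q)) : S.E k P Q := by
  rcases kc _ _ _ _ _ _ rfl h with ⟨_, h1⟩ | ⟨h1, _⟩
  · rcases kv _ _ _ _ h1 with ⟨_, h2⟩ | ⟨w, hw, h2, _⟩
    · exact h2
    · simp only at h2
      exact absurd (left_eq_mul.1 h2) (S.ne hw)
  · exact absurd h1 (S.irr _)

/-- equivalences preserve signs -/
theorem sign {k : ZMod 2} : ∀ {L : List (V × B)}, S.E k L L → k = 0 := by
  intro L
  induction L with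
  | nil => exact fun h => h.nil.2
  | cons s L ih =>
    intro h
    obtain ⟨v, a⟩ := s
    exact ih (cancel h)

end Glue

end Pool.Agent.Helper2GI
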