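import Mathlib
import Pool.Agent.Helper2GI.MosaicR

/-!
Every graph has a rotation system; graphs whose clusters are single vertices.
-/

set_option autoImplicit false

namespace Pool.Agent.Helper2GI

variable {c : Code}

theorem exists_rotation (c : Code) : ∃ σ : Equiv.Perm (Dart c), Rotation c σ := by
  classical
  have h1 : ∀ v : ℕ, ∃ f : Equiv.Perm (Dart c),
      f.IsCycleOn (Finset.univ.filter fun d : Dart c => tl d = v : Finset (Dart c)) := fun v =>
    (Finset.exists_cycleOn _).imp fun _ h => h.1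
  choose f hf using h1
  have hmem : ∀ (d : Dart c) (v : ℕ), tl d = v → tl (f v d) = v := by
    intro d v h
    have h2 := (hf v).1.mapsTo (x := d) (by simpa using h)
    simpa using h2
  set g : Dart c → Dart c := fun d => f (tl d) d with hg
  have htl : ∀ d, tl (g d) = tl d := fun d => hmem d _ rfl
  have hinj : Function.Injective g := by
    intro d e h
    have h2 : tl d = tl e := by rw [← htl d, ← htl e, h]
    simp only [hg] at h
    rw [h2] at h
    exact (f (tl e)).injective h
  have hbij : Function.Bijective g := Finite.injective_iff_bijective.1 hinj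
  refine ⟨Equiv.ofBijective g hbij, ⟨fun d => htl d, ?_⟩⟩
  intro d e hde
  obtain ⟨n, hn⟩ := ((hf (tl d)).2 (x := d) (by simp) (y := e) (by simpa using hde.symm)).exists_nat_pow_eq
  refine ⟨(n : ℤ), ?_⟩
  rw [zpow_natCast]
  have key : ∀ k : ℕ, ((Equiv.ofBijective g hbij) ^ k) d = ((f (tl d)) ^ k) d ∧
      tl (((f (tl d)) ^ k) d) = tl d := by
    intro k
    induction k with
    | zero => exact ⟨rfl, rfl⟩
    | succ k ih =>
      rw [pow_succ', pow_succ', Equiv.Perm.mul_apply, Equiv.Perm.mul_apply, ih.1]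
      refine ⟨?_, hmem _ _ ih.2⟩
      show g _ = _
      simp only [hg]
      rw [ih.2]
  rw [(key n).1]
  exact hn

theorem not_inn_id (hV : Valid c) (d : Dart c) : ¬ inn id d := fun h => tl_op_ne hV d h.symm

/-- the regions around a single vertex are its darts -/
theorem nR_id (hV : Valid c) {σ : Equiv.Perm (Dart c)} (hσ : Rotation c σ) (v : ℕ) :
    nR hσ id v = Nat.card {d : Dart c // tl d = v} := by
  have h0 : ∀ d d' : Dart c, ¬ Side σ id d d' := fun d d' h => not_inn_id hV _ h.1
  have hinj : ∀ d d' : Dart c, reg σ id d = reg σ id d' → d = d' := by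
    intro d d' h
    have key : ∀ d d' : Dart c, Relation.EqvGen (Side σ id) d d' → d = d' := by
      intro d d' h
      induction h with
      | rel x y h => exact (h0 _ _ h).elim
      | refl x => rfl
      | symm x y _ ih => exact ih.symm
      | trans x y z _ _ ih1 ih2 => exact ih1.trans ih2
    exact key _ _ (Quot.eqvGen_exact h)
  refine (Nat.card_congr (Equiv.ofBijective
    (fun d : {d : Dart c // tl d = v} => (⟨reg σ id d.1, d.2⟩ : {f : Rg c σ id // rcl hσ f = v}))
    ⟨?_, ?_⟩)).symm
  · intro d e h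
    apply Subtype.ext
    exact hinj _ _ (congrArg Subtype.val h)
  · rintro ⟨f, hf⟩
    obtain ⟨d, rfl⟩ := reg_surj f
    exact ⟨⟨d, hf⟩, rfl⟩

theorem card_darts (hV : Valid c) (v : ℕ) :
    Nat.card {d : Dart c // tl d = v} = Nat.card {i : Edge c // Inc c v i} := by
  refine Nat.card_congr (Equiv.ofBijective
    (fun d : {d : Dart c // tl d = v} => (⟨d.1.1, by
      have := inc_tl d.1
      rw [d.2] at this
      exact this⟩ : {i : Edge c // Inc c v i})) ⟨?_, ?_⟩)
  · intro d e h
    apply Subtype.ext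
    have h1 : d.1.1 = e.1.1 := congrArg Subtype.val h
    exact dart_unique hV h1 (d.2.trans e.2.symm)
  · rintro ⟨i, hi⟩
    obtain ⟨d, h1, h2⟩ := inc_cases hi
    exact ⟨⟨d, h2⟩, Subtype.ext h1⟩

theorem card_inc (v : ℕ) : Nat.card {i : Edge c // Inc c v i} = degree c v := by
  classical
  have h1 : (star c v).Nodup := (List.nodup_finRange _).filter _
  unfold degree
  rw [← List.toFinset_card_of_nodup h1, Nat.card_eq_fintype_card, Fintype.card_subtype]
  congr 1
  ext i
  simp [star]

theorem out_id (hV : Valid c) (v : ℕ) (i : Edge c) : Out c id v i ↔ Inc c v i := by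
  constructor
  · rintro ⟨e, rfl, h1, _⟩
    have := inc_tl e
    rw [show tl e = v from h1] at this
    exact this
  · intro h
    obtain ⟨d, rfl, h2⟩ := inc_cases h
    refine ⟨d, rfl, h2, ?_⟩
    show tl (op d) ≠ v
    rw [← h2]
    exact tl_op_ne hV d

theorem outdeg_id (hV : Valid c) (v : ℕ) : outdeg c id v = degree c v := by
  rw [← card_inc]
  exact Nat.card_congr (Equiv.subtypeEquivRight fun i => out_id hV v i)

theorem cadj_id {u v : ℕ} (h : CAdj c id u v) : Adj c u v := by
  obtain ⟨h1, a, b, i, h2, h3, h4, h5⟩ := h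
  simp only [id_eq] at h4 h5
  subst h4 h5
  exact ⟨h1, i, h2, h3⟩

/-- every graph in the class `Thin` is assembled from planar discs, namely single vertices -/
theorem thin_assembled (hV : Valid c) (hT : Thin c) : Assembled c := by
  obtain ⟨σ, hσ⟩ := exists_rotation c
  refine ⟨σ, hσ, id, ?_⟩
  constructor
  · intro v hv a b _ _ h1 h2
    simp only [id_eq] at h1 h2
    rw [h1, h2]
  · intro v hv
    have h1 : nV c id v = 1 := by
      unfold nV
      rw [Nat.card_eq_one_iff_unique]
      exact ⟨⟨fun a b => Subtype.ext (a.2.2.trans b.2.2.symm)⟩, ⟨⟨v, hv, rfl⟩⟩⟩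
    have h2 : nE c id v = Nat.card {i : Edge c // Inc c v i} := by
      unfold nE
      refine Nat.card_congr (Equiv.subtypeEquivRight fun i => ?_)
      simp
    show nR hσ id v + nV c id v = nE c id v + 1
    rw [nR_id hV hσ, card_darts hV, h1, h2]
  · intro v hv
    show 3 ≤ outdeg c id v
    rw [outdeg_id hV]
    exact hT.degree3 v hv
  · intro P Q i j u v u' v' hPQ h1 h2 h3 h4 h5 h6 h7 h8
    simp only [id_eq] at h5 h6 h7 h8
    subst h5 h6 h7 h8
    exact uniq hT.simple hPQ h1 h2 h3 h4
  · intro P Q R h1 h2 h3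
    exact hT.no3 _ _ _ (cadj_id h1) (cadj_id h2) (cadj_id h3)
  · intro P Q R T h1 h2 h3 h4 h5 h6
    rw [outdeg_id hV]
    exact hT.cyc4 _ _ _ _ (cadj_id h1) (cadj_id h2) (cadj_id h3) (cadj_id h4) h5 h6
  · intro P Q R T W h1 h2 h3 h4 h5
    rw [outdeg_id hV, outdeg_id hV]
    exact hT.cyc5 _ _ _ _ _ (cadj_id h1) (cadj_id h2) (cadj_id h3) (cadj_id h4) (cadj_id h5)

end Pool.Agent.Helper2GI
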