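import Mathlib
import Pool.Agent.Helper2GI.ThinA

/-!
Short cycles in graphs in which small sets of vertices span few edges.
-/

set_option autoImplicit false

namespace Pool.Agent.Helper2GI

open Classical in
/-- the edges with both endpoints in `U` -/
noncomputable def eIn (c : Code) (U : Finset ℕ) : Finset (Edge c) :=
  Finset.univ.filter fun i => ∀ v, Inc c v i → v ∈ U

variable {c : Code}

theorem mem_eIn {U : Finset ℕ} {i : Edge c} : i ∈ eIn c U ↔ ∀ v, Inc c v i → v ∈ U := by
  unfold eIn
  simp

/-- the hypotheses -/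
structure Sps (c : Code) : Prop where
  valid : Valid c
  simple : ∀ u v, u ≠ v → joining c u v ≤ 1
  degree3 : ∀ v < c.1, 3 ≤ degree c v
  sparse : ∀ U : Finset ℕ, (∀ v ∈ U, v < c.1) → U.card ≤ 25 → (eIn c U).card ≤ U.card

/-- cycles of length at most five -/
structure SC (c : Code) where
  k : ℕ
  hk : 3 ≤ k ∧ k ≤ 5
  p : ZMod k → ℕ
  inj : Function.Injective p
  adj : ∀ i, Adj c (p i) (p (i + 1))

instance (s : SC c) : NeZero s.k := ⟨by have := s.hk; omega⟩

namespace SC

variable (s : SC c)

/-- the vertices -/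
def verts : Finset ℕ := Finset.univ.image s.p

theorem card_verts : s.verts.card = s.k := by
  unfold verts
  rw [Finset.card_image_of_injective _ s.inj, Finset.card_univ, ZMod.card]

theorem mem_verts {v : ℕ} : v ∈ s.verts ↔ ∃ i, s.p i = v := by
  unfold verts
  simp

/-- the edges -/
noncomputable def e (i : ZMod s.k) : Edge c := Classical.choose (s.adj i).2

theorem e_inc (i : ZMod s.k) : Inc c (s.p i) (s.e i) ∧ Inc c (s.p (i + 1)) (s.e i) :=
  Classical.choose_spec (s.adj i).2

theorem one_ne : (1 : ZMod s.k) ≠ 0 := by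
  have := s.hk
  haveI : Fact (1 < s.k) := ⟨by omega⟩
  exact one_ne_zero

theorem two_ne : (1 : ZMod s.k) + 1 ≠ 0 := by
  have h := s.hk
  intro h2
  have h3 : ((2 : ℕ) : ZMod s.k) = 0 := by
    rw [← h2]
    push_cast
    ring
  rw [ZMod.natCast_eq_zero_iff] at h3
  have := Nat.le_of_dvd (by norm_num) h3
  omega

end SC

/-- the two endpoints of an edge -/
theorem inc_two {i : Edge c} {a b v : ℕ} (hab : a ≠ b) (ha : Inc c a i) (hb : Inc c b i)
    (hv : Inc c v i) : v = a ∨ v = b := by
  unfold Inc at ha hb hv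
  rcases ha with ha | ha <;> rcases hb with hb | hb <;> rcases hv with hv | hv
  · exact absurd (ha.symm.trans hb) hab
  · exact absurd (ha.symm.trans hb) hab
  · exact Or.inl (hv.symm.trans ha)
  · exact Or.inr (hv.symm.trans hb)
  · exact Or.inr (hv.symm.trans hb)
  · exact Or.inl (hv.symm.trans ha)
  · exact absurd (ha.symm.trans hb) hab
  · exact absurd (ha.symm.trans hb) hab

namespace SC

variable (s : SC c)

theorem p_ne (i : ZMod s.k) : s.p i ≠ s.p (i + 1) := (s.adj i).1

theorem e_inj : Function.Injective s.e := by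
  intro i j h
  obtain ⟨h1, h2⟩ := s.e_inc i
  obtain ⟨h3, h4⟩ := s.e_inc j
  rw [h] at h1 h2
  rcases inc_two (s.p_ne j) h3 h4 h1 with h5 | h5
  · exact s.inj h5
  · have h6 := s.inj h5
    rcases inc_two (s.p_ne j) h3 h4 h2 with h7 | h7
    · exfalso
      have h8 := s.inj h7
      rw [h6] at h8
      apply s.two_ne
      have : j + (1 + 1) = j + 0 := by rw [← add_assoc, h8, add_zero]
      exact add_left_cancel this
    · exact add_right_cancel (s.inj h7)

/-- the edges -/
noncomputable def edges : Finset (Edge c) := Finset.univ.image s.e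

theorem card_edges : s.edges.card = s.k := by
  unfold edges
  rw [Finset.card_image_of_injective _ s.e_inj, Finset.card_univ, ZMod.card]

theorem mem_edges {i : Edge c} : i ∈ s.edges ↔ ∃ j, s.e j = i := by
  unfold edges
  simp

theorem edges_sub {U : Finset ℕ} (h : s.verts ⊆ U) : s.edges ⊆ eIn c U := by
  intro i hi
  obtain ⟨j, rfl⟩ := s.mem_edges.1 hi
  rw [mem_eIn]
  intro v hv
  obtain ⟨h1, h2⟩ := s.e_inc j
  rcases inc_two (s.p_ne j) h1 h2 hv with rfl | rfl
  · exact h (s.mem_verts.2 ⟨_, rfl⟩)
  · exact h (s.mem_verts.2 ⟨_, rfl⟩)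

theorem verts_lt (hV : Valid c) {v : ℕ} (h : v ∈ s.verts) : v < c.1 := by
  obtain ⟨i, rfl⟩ := s.mem_verts.1 h
  exact inc_lt hV (s.e_inc i).1

theorem closed_univ {k : ℕ} [NeZero k] {I : Finset (ZMod k)} (hne : I.Nonempty)
    (h : ∀ i ∈ I, i + 1 ∈ I) : I = Finset.univ := by
  obtain ⟨i, hi⟩ := hne
  have h1 : ∀ n : ℕ, i + (n : ZMod k) ∈ I := by
    intro n
    induction n with
    | zero => simpa using hi
    | succ n ih =>
      rw [Nat.cast_succ, ← add_assoc]
      exact h _ ih
  rw [Finset.eq_univ_iff_forall]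
  intro t
  have h2 := h1 (t - i).val
  rw [ZMod.natCast_zmod_val, add_sub_cancel] at h2
  exact h2

theorem sub_of_meet (hS : Sps c) (s t : SC c) {v : ℕ} (h1 : v ∈ s.verts) (h2 : v ∈ t.verts) :
    s.verts ⊆ t.verts ∧ s.edges ⊆ t.edges := by
  classical
  have hU : (eIn c (s.verts ∪ t.verts)).card ≤ (s.verts ∪ t.verts).card := by
    refine hS.sparse _ ?_ ?_
    · intro w hw
      rcases Finset.mem_union.1 hw with h | h
      · exact s.verts_lt hS.valid h
      · exact t.verts_lt hS.valid h
    · have := Finset.card_union_le s.verts t.verts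
      rw [s.card_verts, t.card_verts] at this
      have h3 := s.hk
      have h4 := t.hk
      omega
  have hE : (s.edges ∪ t.edges).card ≤ (eIn c (s.verts ∪ t.verts)).card := by
    refine Finset.card_le_card (Finset.union_subset ?_ ?_)
    · exact s.edges_sub Finset.subset_union_left
    · exact t.edges_sub Finset.subset_union_right
  have h3 := Finset.card_union_add_card_inter s.edges t.edges
  have h4 := Finset.card_union_add_card_inter s.verts t.verts
  rw [s.card_edges, t.card_edges] at h3
  rw [s.card_verts, t.card_verts] at h4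
  have h5 : (s.verts ∩ t.verts).card ≤ (s.edges ∩ t.edges).card := by omega
  -- indices
  set I : Finset (ZMod s.k) := Finset.univ.filter fun i => s.p i ∈ t.verts with hI
  set J : Finset (ZMod s.k) := Finset.univ.filter fun i => s.e i ∈ t.edges with hJ
  have hIc : I.card = (s.verts ∩ t.verts).card := by
    rw [← Finset.card_image_of_injective I s.inj]
    congr 1
    ext w
    simp only [hI, Finset.mem_image, Finset.mem_filter, Finset.mem_univ, true_and,
      Finset.mem_inter, s.mem_verts]
    constructor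
    · rintro ⟨i, h6, rfl⟩
      exact ⟨⟨i, rfl⟩, h6⟩
    · rintro ⟨⟨i, rfl⟩, h6⟩
      exact ⟨i, h6, rfl⟩
  have hJc : J.card = (s.edges ∩ t.edges).card := by
    rw [← Finset.card_image_of_injective J s.e_inj]
    congr 1
    ext w
    simp only [hJ, Finset.mem_image, Finset.mem_filter, Finset.mem_univ, true_and,
      Finset.mem_inter, s.mem_edges]
    constructor
    · rintro ⟨i, h6, rfl⟩
      exact ⟨⟨i, rfl⟩, h6⟩
    · rintro ⟨⟨i, rfl⟩, h6⟩
      exact ⟨i, h6, rfl⟩
  have hin : ∀ i, s.e i ∈ t.edges → s.p i ∈ t.verts ∧ s.p (i + 1) ∈ t.verts := by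
    intro i hi
    obtain ⟨j, hj⟩ := t.mem_edges.1 hi
    obtain ⟨h6, h7⟩ := t.e_inc j
    rw [hj] at h6 h7
    obtain ⟨h8, h9⟩ := s.e_inc i
    constructor
    · rcases inc_two (t.p_ne j) h6 h7 h8 with h | h
      · exact t.mem_verts.2 ⟨_, h.symm⟩
      · exact t.mem_verts.2 ⟨_, h.symm⟩
    · rcases inc_two (t.p_ne j) h6 h7 h9 with h | h
      · exact t.mem_verts.2 ⟨_, h.symm⟩
      · exact t.mem_verts.2 ⟨_, h.symm⟩
  have hJI : J ⊆ I := by
    intro i hi
    simp only [hI, hJ, Finset.mem_filter, Finset.mem_univ, true_and] at hi ⊢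
    exact (hin i hi).1
  have hJI' : J = I := Finset.eq_of_subset_of_card_le hJI (by rw [hIc, hJc]; exact h5)
  have hIne : I.Nonempty := by
    obtain ⟨i, rfl⟩ := s.mem_verts.1 h1
    exact ⟨i, by simp only [hI, Finset.mem_filter, Finset.mem_univ, true_and]; exact h2⟩
  have hIu : I = Finset.univ := by
    refine closed_univ hIne (fun i hi => ?_)
    rw [← hJI'] at hi
    simp only [hI, hJ, Finset.mem_filter, Finset.mem_univ, true_and] at hi ⊢
    exact (hin i hi).2
  constructor
  · intro w hw
    obtain ⟨i, rfl⟩ := s.mem_verts.1 hw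
    have : i ∈ I := by rw [hIu]; exact Finset.mem_univ _
    simp only [hI, Finset.mem_filter, Finset.mem_univ, true_and] at this
    exact this
  · intro w hw
    obtain ⟨i, rfl⟩ := s.mem_edges.1 hw
    have : i ∈ J := by rw [hJI', hIu]; exact Finset.mem_univ _
    simp only [hJ, Finset.mem_filter, Finset.mem_univ, true_and] at this
    exact this

theorem eq_of_meet (hS : Sps c) (s t : SC c) {v : ℕ} (h1 : v ∈ s.verts) (h2 : v ∈ t.verts) :
    s.verts = t.verts :=
  Finset.Subset.antisymm (sub_of_meet hS s t h1 h2).1 (sub_of_meet hS t s h2 h1).1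

/-- all edges inside a short cycle are edges of the cycle -/
theorem inner (hS : Sps c) (s : SC c) : eIn c s.verts = s.edges := by
  symm
  refine Finset.eq_of_subset_of_card_le (s.edges_sub (Finset.Subset.refl _)) ?_
  rw [s.card_edges, ← s.card_verts]
  exact hS.sparse _ (fun v hv => s.verts_lt hS.valid hv) (by
    rw [s.card_verts]
    have := s.hk
    omega)

end SC

end Pool.Agent.Helper2GI
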