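import Mathlib
import Pool.Agent.Helper2GI.Sp1

/-!
The clusters given by the short cycles.
-/

set_option autoImplicit false

namespace Pool.Agent.Helper2GI

/-- on a short cycle -/
def Short (c : Code) (v : ℕ) : Prop := ∃ s : SC c, v ∈ s.verts

open Classical in
/-- the vertices of the cluster of `v` -/
noncomputable def As (c : Code) (v : ℕ) : Finset ℕ :=
  if h : Short c v then (Classical.choose h).verts else {v}

open Classical in
/-- the next vertex -/
noncomputable def F (c : Code) (A : Finset ℕ) (v : ℕ) (ε : ℤ) : ℕ :=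
  if h : ∃ s : SC c, s.verts = A then
    (if h2 : ∃ i, (Classical.choose h).p i = v then
      (Classical.choose h).p (Classical.choose h2 + ((ε : ℤ) : ZMod (Classical.choose h).k)) else v)
  else v

variable {c : Code}

/-- next vertex -/
noncomputable def nx (c : Code) (v : ℕ) : ℕ := F c (As c v) v 1

/-- previous vertex -/
noncomputable def pv' (c : Code) (v : ℕ) : ℕ := F c (As c v) v (-1)

theorem As_short {v : ℕ} (h : Short c v) : ∃ s : SC c, s.verts = As c v ∧ v ∈ s.verts := by
  refine ⟨Classical.choose h, ?_, Classical.choose_spec h⟩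
  unfold As
  rw [dif_pos h]

theorem As_single {v : ℕ} (h : ¬ Short c v) : As c v = {v} := by
  unfold As
  rw [dif_neg h]

theorem mem_As (v : ℕ) : v ∈ As c v := by
  by_cases h : Short c v
  · obtain ⟨s, h1, h2⟩ := As_short h
    rw [← h1]
    exact h2
  · rw [As_single h]
    simp

theorem As_eq (hS : Sps c) {v w : ℕ} (hw : w ∈ As c v) : As c w = As c v := by
  by_cases h : Short c v
  · obtain ⟨s, h1, h2⟩ := As_short h
    rw [← h1] at hw
    have h3 : Short c w := ⟨s, hw⟩
    obtain ⟨t, h4, h5⟩ := As_short h3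
    rw [← h1, ← h4]
    exact SC.eq_of_meet hS t s h5 hw
  · rw [As_single h, Finset.mem_singleton] at hw
    rw [hw]

theorem short_of_mem {v w : ℕ} (h : Short c v) (hw : w ∈ As c v) : Short c w := by
  obtain ⟨s, h1, h2⟩ := As_short h
  rw [← h1] at hw
  exact ⟨s, hw⟩

/-- the label of the cluster -/
noncomputable def clu (c : Code) (v : ℕ) : ℕ := (As c v).min' ⟨v, mem_As v⟩

theorem clu_mem (v : ℕ) : clu c v ∈ As c v := Finset.min'_mem _ _

theorem clu_congr {v w : ℕ} (h : As c v = As c w) : clu c v = clu c w := by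
  unfold clu
  congr 1

theorem clu_iff (hS : Sps c) {v w : ℕ} : clu c w = clu c v ↔ w ∈ As c v := by
  constructor
  · intro h
    have h1 := As_eq hS (clu_mem (c := c) w)
    have h2 := As_eq hS (clu_mem (c := c) v)
    rw [h, h2] at h1
    rw [h1]
    exact mem_As w
  · intro h
    exact clu_congr (As_eq hS h)

/-- one cycle describes the whole cluster -/
theorem extract (hS : Sps c) {v : ℕ} (h : Short c v) : ∃ s : SC c, s.verts = As c v ∧
    ∀ i, nx c (s.p i) = s.p (i + 1) ∧ pv' c (s.p i) = s.p (i - 1) := by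
  obtain ⟨s0, h1, h2⟩ := As_short h
  have hex : ∃ s : SC c, s.verts = As c v := ⟨s0, h1⟩
  refine ⟨Classical.choose hex, Classical.choose_spec hex, ?_⟩
  intro i
  have h3 : (Classical.choose hex).p i ∈ As c v := by
    have h4 := Classical.choose_spec hex
    exact (Finset.ext_iff.1 h4 _).1 ((SC.mem_verts _).2 ⟨i, rfl⟩)
  have h5 := As_eq hS h3
  have key : ∀ ε : ℤ, F c (As c v) ((Classical.choose hex).p i) ε =
      (Classical.choose hex).p (i + (ε : ZMod (Classical.choose hex).k)) := by
    intro ε
    unfold F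
    rw [dif_pos hex]
    have h6 : ∃ j, (Classical.choose hex).p j = (Classical.choose hex).p i := ⟨i, rfl⟩
    rw [dif_pos h6]
    have h7 := (Classical.choose hex).inj (Classical.choose_spec h6)
    rw [h7]
  unfold nx pv'
  rw [h5, key, key]
  constructor
  · simp
  · congr 1
    push_cast
    ring

theorem nx_mem (hS : Sps c) {v : ℕ} (h : Short c v) : nx c v ∈ As c v ∧ pv' c v ∈ As c v := by
  obtain ⟨s, h1, h2⟩ := extract hS h
  have h3 := mem_As (c := c) v
  rw [← h1] at h3 ⊢
  obtain ⟨i, rfl⟩ := s.mem_verts.1 h3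
  rw [(h2 i).1, (h2 i).2]
  exact ⟨s.mem_verts.2 ⟨_, rfl⟩, s.mem_verts.2 ⟨_, rfl⟩⟩

theorem nx_pv (hS : Sps c) {v : ℕ} (h : Short c v) : nx c (pv' c v) = v ∧ pv' c (nx c v) = v := by
  obtain ⟨s, h1, h2⟩ := extract hS h
  have h3 := mem_As (c := c) v
  rw [← h1] at h3
  obtain ⟨i, rfl⟩ := s.mem_verts.1 h3
  rw [(h2 i).1, (h2 i).2, (h2 _).1, (h2 _).2, sub_add_cancel, add_sub_cancel_right]
  exact ⟨rfl, rfl⟩

theorem nx_adj (hS : Sps c) {v : ℕ} (h : Short c v) : Adj c v (nx c v) ∧ Adj c v (pv' c v) ∧
    nx c v ≠ pv' c v := by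
  obtain ⟨s, h1, h2⟩ := extract hS h
  have h3 := mem_As (c := c) v
  rw [← h1] at h3
  obtain ⟨i, rfl⟩ := s.mem_verts.1 h3
  rw [(h2 i).1, (h2 i).2]
  refine ⟨s.adj i, ?_, ?_⟩
  · have h4 := (s.adj (i - 1)).symm
    rwa [sub_add_cancel] at h4
  · intro h4
    have h5 := s.inj h4
    apply s.two_ne
    have h6 : i + (1 + 1) = i + 0 := by
      rw [← add_assoc, h5, sub_add_cancel, add_zero]
    exact add_left_cancel h6

theorem card_As (hS : Sps c) {v : ℕ} (h : Short c v) : 3 ≤ (As c v).card ∧ (As c v).card ≤ 5 := by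
  obtain ⟨s, h1, h2⟩ := extract hS h
  rw [← h1, s.card_verts]
  exact s.hk

theorem nx_orbit (hS : Sps c) {v w : ℕ} (h : Short c v) (hw : w ∈ As c v) :
    ∃ j, (nx c)^[j] v = w := by
  obtain ⟨s, h1, h2⟩ := extract hS h
  have h3 := mem_As (c := c) v
  rw [← h1] at h3 hw
  obtain ⟨i, rfl⟩ := s.mem_verts.1 h3
  obtain ⟨i', rfl⟩ := s.mem_verts.1 hw
  have h4 : ∀ j : ℕ, (nx c)^[j] (s.p i) = s.p (i + (j : ZMod s.k)) := by
    intro j
    induction j with
    | zero => simp
    | succ j ih =>
      rw [Function.iterate_succ_apply', ih, (h2 _).1, Nat.cast_succ, add_assoc]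
  refine ⟨(i' - i).val, ?_⟩
  rw [h4, ZMod.natCast_zmod_val, add_sub_cancel]

/-- edges inside a cluster join consecutive vertices -/
theorem inner_edge (hS : Sps c) {v : ℕ} (h : Short c v) {i : Edge c}
    (hi : ∀ w, Inc c w i → w ∈ As c v) (hv : Inc c v i) :
    Inc c (nx c v) i ∨ Inc c (pv' c v) i := by
  obtain ⟨s, h1, h2⟩ := extract hS h
  have h3 := mem_As (c := c) v
  rw [← h1] at h3 hi
  have h4 : i ∈ eIn c s.verts := mem_eIn.2 hi
  rw [SC.inner hS] at h4
  obtain ⟨j, rfl⟩ := s.mem_edges.1 h4
  obtain ⟨l, rfl⟩ := s.mem_verts.1 h3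
  obtain ⟨h5, h6⟩ := s.e_inc j
  rw [(h2 l).1, (h2 l).2]
  rcases inc_two (s.p_ne j) h5 h6 hv with h7 | h7
  · left
    rw [s.inj h7]
    exact h6
  · right
    rw [s.inj h7, add_sub_cancel_right]
    exact h5

/-- the number of edges inside a cluster -/
theorem card_inner (hS : Sps c) {v : ℕ} (h : Short c v) :
    (eIn c (As c v)).card = (As c v).card := by
  obtain ⟨s, h1, h2⟩ := extract hS h
  rw [← h1, SC.inner hS, s.card_edges, s.card_verts]

/-! ### darts -/

theorem dart_eq (hS : Sps c) {d e : Dart c} (h1 : tl d = tl e) (h2 : tl (op d) = tl (op e)) :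
    d = e := by
  refine dart_unique hS.valid ?_ h1
  refine uniq hS.simple (tl_op_ne hS.valid d).symm (inc_tl d) ?_ ?_ ?_
  · exact inc_tl (op d)
  · rw [h1]; exact inc_tl e
  · rw [h2]; exact inc_tl (op e)

theorem exists_dart {u w : ℕ} (h : Adj c u w) : ∃ d : Dart c, tl d = u ∧ tl (op d) = w := by
  obtain ⟨h1, i, h2, h3⟩ := h
  obtain ⟨d, h4, h5⟩ := inc_cases h2
  refine ⟨d, h5, ?_⟩
  rw [← h4] at h3
  rcases tl_of_inc h3 with h6 | h6
  · exact absurd (h5.symm.trans h6.symm) h1
  · exact h6.symm

/-- dart to the next vertex -/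
def isn (d : Dart c) : Prop := Short c (tl d) ∧ tl (op d) = nx c (tl d)

/-- dart to the previous vertex -/
def isp (d : Dart c) : Prop := Short c (tl d) ∧ tl (op d) = pv' c (tl d)

theorem isn_op (hS : Sps c) {d : Dart c} (h : isn d) : isp (op d) := by
  obtain ⟨h1, h2⟩ := h
  refine ⟨?_, ?_⟩
  · rw [h2]
    exact short_of_mem h1 (nx_mem hS h1).1
  · rw [op_op, h2, (nx_pv hS h1).2]

theorem isp_op (hS : Sps c) {d : Dart c} (h : isp d) : isn (op d) := by
  obtain ⟨h1, h2⟩ := h
  refine ⟨?_, ?_⟩
  · rw [h2]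
    exact short_of_mem h1 (nx_mem hS h1).2
  · rw [op_op, h2, (nx_pv hS h1).1]

theorem isn_unique (hS : Sps c) {d e : Dart c} (h : isn d) (h' : isn e) (ht : tl d = tl e) :
    d = e := by
  refine dart_eq hS ht ?_
  rw [h.2, h'.2, ht]

theorem isp_unique (hS : Sps c) {d e : Dart c} (h : isp d) (h' : isp e) (ht : tl d = tl e) :
    d = e := by
  refine dart_eq hS ht ?_
  rw [h.2, h'.2, ht]

theorem not_both (hS : Sps c) {d : Dart c} (h : isn d) (h' : isp d) : False :=
  (nx_adj hS h.1).2.2 (h.2.symm.trans h'.2)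

theorem inn_iff (hS : Sps c) (d : Dart c) : inn (clu c) d ↔ isn d ∨ isp d := by
  unfold inn
  rw [eq_comm, clu_iff hS]
  constructor
  · intro h
    by_cases hs : Short c (tl d)
    · have h1 : ∀ w, Inc c w d.1 → w ∈ As c (tl d) := by
        intro w hw
        rcases tl_of_inc hw with rfl | rfl
        · exact mem_As _
        · exact h
      rcases inner_edge hS hs h1 (inc_tl d) with h2 | h2
      · left
        refine ⟨hs, ?_⟩
        rcases tl_of_inc h2 with h3 | h3
        · exact absurd h3.symm (nx_adj hS hs).1.1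
        · exact h3.symm
      · right
        refine ⟨hs, ?_⟩
        rcases tl_of_inc h2 with h3 | h3
        · exact absurd h3.symm (nx_adj hS hs).2.1.1
        · exact h3.symm
    · rw [As_single hs, Finset.mem_singleton] at h
      exact absurd h (tl_op_ne hS.valid d)
  · rintro (h | h)
    · rw [h.2]
      exact (nx_mem hS h.1).1
    · rw [h.2]
      exact (nx_mem hS h.1).2

/-- a rotation system in which the darts of the short cycles are consecutive -/
theorem exists_rot (hS : Sps c) : ∃ σ : Equiv.Perm (Dart c), Rotation c σ ∧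
    ∀ d : Dart c, isp d → isn (σ d) := by
  classical
  have h1 : ∀ v : ℕ, ∃ f : Equiv.Perm (Dart c),
      f.IsCycleOn (Finset.univ.filter fun d : Dart c => tl d = v : Finset (Dart c)) ∧
      ∀ d : Dart c, tl d = v → isp d → isn (f d) := by
    intro v
    by_cases hs : Short c v
    · obtain ⟨p, hp1, hp2⟩ := exists_dart (nx_adj hS hs).2.1
      obtain ⟨m, hm1, hm2⟩ := exists_dart (nx_adj hS hs).1
      have hp : isp p := ⟨by rw [hp1]; exact hs, by rw [hp1]; exact hp2⟩
      have hm : isn m := ⟨by rw [hm1]; exact hs, by rw [hm1]; exact hm2⟩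
      have hpm : p ≠ m := by
        rintro rfl
        exact not_both hS hm hp
      set D : Finset (Dart c) := Finset.univ.filter fun d : Dart c => tl d = v with hD
      set l : List (Dart c) := p :: m :: ((D.erase p).erase m).toList with hl
      have hnd : l.Nodup := by
        rw [hl, List.nodup_cons, List.nodup_cons]
        refine ⟨?_, ?_, Finset.nodup_toList _⟩
        · rw [List.mem_cons, not_or]
          refine ⟨hpm, ?_⟩
          rw [Finset.mem_toList]
          intro h
          exact (Finset.mem_erase.1 (Finset.mem_of_mem_erase h)).1 rfl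
        · rw [Finset.mem_toList]
          intro h
          exact (Finset.mem_erase.1 h).1 rfl
      have hmem : {a | a ∈ l} = (D : Set (Dart c)) := by
        ext a
        simp only [hl, Set.mem_ofPred_eq, List.mem_cons, Finset.mem_toList, Finset.mem_erase,
          Finset.mem_coe]
        constructor
        · rintro (rfl | rfl | h)
          · simp [hD, hp1]
          · simp [hD, hm1]
          · exact h.2.2
        · intro h
          by_cases ha : a = p
          · exact Or.inl ha
          · by_cases hb : a = m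
            · exact Or.inr (Or.inl hb)
            · exact Or.inr (Or.inr ⟨hb, ha, h⟩)
      refine ⟨l.formPerm, ?_, ?_⟩
      · rw [← hmem]
        exact hnd.isCycleOn_formPerm
      · intro d hd hdp
        have : d = p := isp_unique hS hdp hp (hd.trans hp1.symm)
        rw [this, hl, List.formPerm_apply_head _ _ _ hnd]
        exact hm
    · obtain ⟨f, hf, _⟩ := Finset.exists_cycleOn
        (Finset.univ.filter fun d : Dart c => tl d = v : Finset (Dart c))
      refine ⟨f, hf, ?_⟩
      intro d hd hdp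
      exact absurd (by rw [← hd]; exact hdp.1) hs
  choose f hf hfn using h1
  have hmem : ∀ (d : Dart c) (v : ℕ), tl d = v → tl (f v d) = v := by
    intro d v h
    have h2 := (hf v).1.mapsTo (x := d) (by simpa using h)
    simpa using h2
  set g : Dart c → Dart c := fun d => f (tl d) d with hg
  have htl : ∀ d, tl (g d) = tl d := fun d => hmem d _ rfl
  have hinj : Function.Injective g := by
    intro d e h
    have h2 : tl d = tl e := by rw [← htl d, ← htl e, h]
    simp only [hg] at h
    rw [h2] at h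
    exact (f (tl e)).injective h
  have hbij : Function.Bijective g := Finite.injective_iff_bijective.1 hinj
  refine ⟨Equiv.ofBijective g hbij, ⟨fun d => htl d, ?_⟩, ?_⟩
  · intro d e hde
    obtain ⟨n, hn⟩ := ((hf (tl d)).2 (x := d) (by simp) (y := e)
      (by simpa using hde.symm)).exists_nat_pow_eq
    refine ⟨(n : ℤ), ?_⟩
    rw [zpow_natCast]
    have key : ∀ k : ℕ, ((Equiv.ofBijective g hbij) ^ k) d = ((f (tl d)) ^ k) d ∧
        tl (((f (tl d)) ^ k) d) = tl d := by
      intro k
      induction k with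
      | zero => exact ⟨rfl, rfl⟩
      | succ k ih =>
        rw [pow_succ', pow_succ', Equiv.Perm.mul_apply, Equiv.Perm.mul_apply, ih.1]
        refine ⟨?_, hmem _ _ ih.2⟩
        show g _ = _
        simp only [hg]
        rw [ih.2]
    rw [(key n).1]
    exact hn
  · intro d hd
    exact hfn _ d rfl hd

end Pool.Agent.Helper2GI
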