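import Mathlib
import Pool.Agent.Helper2GI.Sp2

/-!
The regions of the clusters given by the short cycles.
-/

set_option autoImplicit false

namespace Pool.Agent.Helper2GI

variable {c : Code} {σ : Equiv.Perm (Dart c)}

theorem three (hS : Sps c) {v : ℕ} (hv : v < c.1) (a b : Dart c) :
    ∃ e : Dart c, tl e = v ∧ e ≠ a ∧ e ≠ b := by
  classical
  have h1 := hS.degree3 v hv
  rw [← card_inc, ← card_darts hS.valid, Nat.card_eq_fintype_card, Fintype.card_subtype] at h1
  have h2 : ({a, b} : Finset (Dart c)).card < (Finset.univ.filter fun d : Dart c => tl d = v).card :=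
    lt_of_le_of_lt (Finset.card_le_two) (by omega)
  obtain ⟨e, h3, h4⟩ := Finset.exists_mem_notMem_of_card_lt_card h2
  simp only [Finset.mem_filter, Finset.mem_univ, true_and] at h3
  simp only [Finset.mem_insert, Finset.mem_singleton, not_or] at h4
  exact ⟨e, h3, h4.1, h4.2⟩

section

variable (hS : Sps c) (hσ : Rotation c σ) (hc : ∀ d : Dart c, isp d → isn (σ d))

include hS hσ hc

theorem isp_of_isn {d : Dart c} (h : isn (σ d)) : isp d := by
  obtain ⟨h1, h2⟩ := h
  rw [hσ.tl_eq] at h1 h2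
  obtain ⟨p, h3, h4⟩ := exists_dart (nx_adj hS h1).2.1
  have hp : isp p := ⟨by rw [h3]; exact h1, by rw [h3]; exact h4⟩
  have h5 : σ p = σ d := isn_unique hS (hc p hp) ⟨by rw [hσ.tl_eq]; exact h1,
    by rw [hσ.tl_eq]; exact h2⟩ (by rw [hσ.tl_eq, hσ.tl_eq, h3])
  rw [← σ.injective h5]
  exact hp

theorem not_isp_isn {d : Dart c} (h : isp (σ d)) : ¬ isp d ∧ ¬ isn d := by
  constructor
  · intro h1
    exact not_both hS (hc d h1) h
  · intro h1
    -- two darts only
    have h2 : σ (σ d) = d := by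
      refine isn_unique hS (hc _ h) h1 ?_
      rw [hσ.tl_eq, hσ.tl_eq]
    obtain ⟨e, h3, h4, h5⟩ := three hS (tl_lt hS.valid d) d (σ d)
    obtain ⟨k, hk⟩ := (hσ.cyc d e h3.symm).exists_nat_pow_eq
    have key : ∀ k : ℕ, (σ ^ k) d = d ∨ (σ ^ k) d = σ d := by
      intro k
      induction k with
      | zero => exact Or.inl rfl
      | succ k ih =>
        rw [pow_succ', Equiv.Perm.mul_apply]
        rcases ih with h | h
        · rw [h]; exact Or.inr rfl
        · rw [h]; exact Or.inl h2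
    rcases key k with h6 | h6
    · exact h4 (by rw [← hk, h6])
    · exact h5 (by rw [← hk, h6])

omit hS hσ hc in
open Classical in
/-- the corner standing for a region -/
noncomputable def kp (σ : Equiv.Perm (Dart c)) (d : Dart c) : Dart c ⊕ ℕ :=
  if isp d then Sum.inr (clu c (tl d)) else if isn d then Sum.inl (σ⁻¹ (op d)) else Sum.inl d

theorem kp_side {d d' : Dart c} (h : Side σ (clu c) d d') : kp σ d = kp σ d' := by
  obtain ⟨h1, rfl⟩ := h
  rcases (inn_iff hS _).1 h1 with h2 | h2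
  · have h3 := isp_of_isn hS hσ hc h2
    have h4 := isn_op hS h2
    unfold kp
    rw [if_pos h3, if_pos h4]
    congr 1
    have h5 : tl (op (σ d)) = nx c (tl d) := by
      rw [h2.2, hσ.tl_eq]
    rw [h5]
    exact ((clu_iff hS).2 (nx_mem hS h3.1).1).symm
  · have h3 := not_isp_isn hS hσ hc h2
    have h4 := isp_op hS h2
    have h5 : ¬ isp (op (σ d)) := fun h => not_both hS h4 h
    unfold kp
    rw [if_neg h3.1, if_neg h3.2, if_neg h5, if_pos h4, op_op, pinv2]

theorem kp_reg {d d' : Dart c} (h : reg σ (clu c) d = reg σ (clu c) d') : kp σ d = kp σ d' := by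
  have key : ∀ d d' : Dart c, Relation.EqvGen (Side σ (clu c)) d d' → kp σ d = kp σ d' := by
    intro d d' h
    induction h with
    | rel x y h => exact kp_side hS hσ hc h
    | refl x => rfl
    | symm x y _ ih => exact ih.symm
    | trans x y z _ _ ih1 ih2 => exact ih1.trans ih2
  exact key _ _ (Quot.eqvGen_exact h)

/-- an inner region -/
theorem isp_next {d : Dart c} (h : isp d) : isp (op (σ d)) ∧ tl (op (σ d)) = nx c (tl d) ∧
    reg σ (clu c) d = reg σ (clu c) (op (σ d)) := by
  have h1 := hc d h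
  refine ⟨isn_op hS h1, by rw [h1.2, hσ.tl_eq], ?_⟩
  exact Quot.sound ⟨(inn_iff hS _).2 (Or.inl h1), rfl⟩

theorem isp_all {d e : Dart c} (h : isp d) (h' : isp e) (hde : clu c (tl e) = clu c (tl d)) :
    reg σ (clu c) d = reg σ (clu c) e := by
  obtain ⟨j, hj⟩ := nx_orbit hS h.1 ((clu_iff hS).1 hde)
  have key : ∀ j : ℕ, ∃ e' : Dart c, isp e' ∧ tl e' = (nx c)^[j] (tl d) ∧
      reg σ (clu c) d = reg σ (clu c) e' := by
    intro j
    induction j with
    | zero => exact ⟨d, h, rfl, rfl⟩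
    | succ j ih =>
      obtain ⟨e', h1, h2, h3⟩ := ih
      obtain ⟨h4, h5, h6⟩ := isp_next hS hσ hc h1
      exact ⟨_, h4, by rw [h5, h2, Function.iterate_succ_apply'], h3.trans h6⟩
  obtain ⟨e', h1, h2, h3⟩ := key j
  rw [h3, isp_unique hS h1 h' (h2.trans hj)]

theorem isn_reg {d : Dart c} (h : isn d) : reg σ (clu c) d = reg σ (clu c) (σ⁻¹ (op d)) ∧
    ¬ isp (σ⁻¹ (op d)) ∧ ¬ isn (σ⁻¹ (op d)) ∧ tl (σ⁻¹ (op d)) = nx c (tl d) := by
  have h1 : isp (σ (σ⁻¹ (op d))) := by
    rw [pinv1]
    exact isn_op hS h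
  have h2 := not_isp_isn hS hσ hc h1
  refine ⟨?_, h2.1, h2.2, ?_⟩
  · symm
    apply Quot.sound
    refine ⟨(inn_iff hS _).2 (Or.inr h1), ?_⟩
    rw [pinv1, op_op]
  · rw [tl_inv hσ, h.2]

/-- the outgoing darts of a cluster -/
abbrev OD (c : Code) (U : ℕ) : Type :=
  {y : Dart c // clu c (tl y) = U ∧ ¬ isp y ∧ ¬ isn y}

theorem nR_short {v : ℕ} (hv : Short c v) :
    nR hσ (clu c) (clu c v) = Nat.card (OD c (clu c v)) + 1 := by
  obtain ⟨p, h1, h2⟩ := exists_dart (nx_adj hS hv).2.1
  have hp : isp p := ⟨by rw [h1]; exact hv, by rw [h1]; exact h2⟩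
  have hfin : Finite (OD c (clu c v)) := inferInstance
  rw [← Finite.card_option]
  refine (Nat.card_congr (Equiv.ofBijective (fun o : Option (OD c (clu c v)) =>
    (match o with
    | none => ⟨reg σ (clu c) p, by rw [rcl_reg, h1]⟩
    | some y => ⟨reg σ (clu c) y.1, by rw [rcl_reg]; exact y.2.1⟩ :
      {f : Rg c σ (clu c) // rcl hσ f = clu c v})) ⟨?_, ?_⟩)).symm
  · intro a b hab
    cases a with
    | none =>
      cases b with
      | none => rfl
      | some y =>
        have h3 := kp_reg hS hσ hc (congrArg Subtype.val hab)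
        unfold kp at h3
        rw [if_pos hp, if_neg y.2.2.1, if_neg y.2.2.2] at h3
        exact absurd h3 (by simp)
    | some x =>
      cases b with
      | none =>
        have h3 := kp_reg hS hσ hc (congrArg Subtype.val hab)
        unfold kp at h3
        rw [if_pos hp, if_neg x.2.2.1, if_neg x.2.2.2] at h3
        exact absurd h3 (by simp)
      | some y =>
        have h3 := kp_reg hS hσ hc (congrArg Subtype.val hab)
        unfold kp at h3
        rw [if_neg x.2.2.1, if_neg x.2.2.2, if_neg y.2.2.1, if_neg y.2.2.2] at h3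
        rw [Subtype.ext (Sum.inl.inj h3)]
  · rintro ⟨f, hf⟩
    obtain ⟨d, rfl⟩ := reg_surj f
    rw [rcl_reg] at hf
    by_cases hd : isp d
    · refine ⟨none, Subtype.ext ?_⟩
      exact isp_all hS hσ hc hp hd (by rw [hf, h1])
    · by_cases hd2 : isn d
      · obtain ⟨h3, h4, h5, h6⟩ := isn_reg hS hσ hc hd2
        refine ⟨some ⟨σ⁻¹ (op d), ?_, h4, h5⟩, Subtype.ext h3.symm⟩
        rw [h6, ← hf]
        exact (clu_iff hS).2 (nx_mem hS hd2.1).1
      · exact ⟨some ⟨d, hf, hd, hd2⟩, rfl⟩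

theorem nR_single {v : ℕ} (hv : ¬ Short c v) :
    nR hσ (clu c) (clu c v) = Nat.card (OD c (clu c v)) := by
  have hno : ∀ d : Dart c, clu c (tl d) = clu c v → ¬ isp d ∧ ¬ isn d := by
    intro d hd
    rw [clu_iff hS, As_single hv, Finset.mem_singleton] at hd
    exact ⟨fun h => hv (by rw [← hd]; exact h.1), fun h => hv (by rw [← hd]; exact h.1)⟩
  refine (Nat.card_congr (Equiv.ofBijective (fun y : OD c (clu c v) =>
    (⟨reg σ (clu c) y.1, by rw [rcl_reg]; exact y.2.1⟩ :
      {f : Rg c σ (clu c) // rcl hσ f = clu c v})) ⟨?_, ?_⟩)).symm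
  · intro x y hab
    have h3 := kp_reg hS hσ hc (congrArg Subtype.val hab)
    unfold kp at h3
    rw [if_neg x.2.2.1, if_neg x.2.2.2, if_neg y.2.2.1, if_neg y.2.2.2] at h3
    exact Subtype.ext (Sum.inl.inj h3)
  · rintro ⟨f, hf⟩
    obtain ⟨d, rfl⟩ := reg_surj f
    rw [rcl_reg] at hf
    exact ⟨⟨d, hf, hno d hf⟩, rfl⟩

end

theorem od_iff (hS : Sps c) (y : Dart c) : (¬ isp y ∧ ¬ isn y) ↔ clu c (tl (op y)) ≠ clu c (tl y) := by
  have h := inn_iff hS y
  unfold inn at h
  rw [ne_eq, eq_comm, h]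
  tauto

/-- the number of outgoing edges -/
theorem outdeg_eq (hS : Sps c) (U : ℕ) : outdeg c (clu c) U = Nat.card (OD c U) := by
  unfold outdeg
  refine (Nat.card_congr (Equiv.ofBijective (fun y : OD c U =>
    (⟨y.1.1, y.1, rfl, y.2.1, by
      have := (od_iff hS y.1).1 y.2.2
      rw [y.2.1] at this
      exact this⟩ : {i : Edge c // Out c (clu c) U i})) ⟨?_, ?_⟩)).symm
  · intro x y h
    have h1 : x.1.1 = y.1.1 := congrArg Subtype.val h
    apply Subtype.ext
    rcases same_edge h1 with h2 | h2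
    · exact h2
    · exfalso
      have h3 := (od_iff hS x.1).1 x.2.2
      rw [x.2.1, h2, op_op] at h3
      exact h3 y.2.1
  · rintro ⟨i, e, rfl, h1, h2⟩
    exact ⟨⟨e, h1, (od_iff hS e).2 (by rw [h1]; exact h2)⟩, rfl⟩

theorem As_lt (hS : Sps c) {v w : ℕ} (hv : v < c.1) (hw : w ∈ As c v) : w < c.1 := by
  by_cases h : Short c v
  · obtain ⟨s, h1, h2⟩ := As_short h
    rw [← h1] at hw
    exact s.verts_lt hS.valid hw
  · rw [As_single h, Finset.mem_singleton] at hw
    rw [hw]
    exact hv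

theorem nV_eq (hS : Sps c) {v : ℕ} (hv : v < c.1) : nV c (clu c) (clu c v) = (As c v).card := by
  unfold nV
  rw [← Nat.card_eq_finsetCard]
  exact Nat.card_congr (Equiv.subtypeEquivRight fun w =>
    ⟨fun h => (clu_iff hS).1 h.2, fun h => ⟨As_lt hS hv h, (clu_iff hS).2 h⟩⟩)

theorem nE_eq (hS : Sps c) {v : ℕ} :
    nE c (clu c) (clu c v) = (eIn c (As c v)).card + Nat.card (OD c (clu c v)) := by
  classical
  rw [← outdeg_eq hS]
  unfold nE outdeg
  rw [Nat.card_eq_fintype_card, Nat.card_eq_fintype_card, Fintype.card_subtype,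
    Fintype.card_subtype, ← Finset.card_union_of_disjoint]
  · congr 1
    ext i
    simp only [Finset.mem_filter, Finset.mem_univ, true_and, Finset.mem_union, mem_eIn]
    constructor
    · rintro ⟨w, h1, h2⟩
      obtain ⟨d, rfl, rfl⟩ := inc_cases h2
      by_cases h3 : clu c (tl (op d)) = clu c v
      · left
        intro u hu
        rcases tl_of_inc hu with rfl | rfl
        · exact (clu_iff hS).1 h1
        · exact (clu_iff hS).1 h3
      · exact Or.inr ⟨d, rfl, h1, h3⟩
    · rintro (h | ⟨e, rfl, h1, h2⟩)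
      · have h1 : Inc c (c.2.1.get i).1 i := Or.inl rfl
        exact ⟨_, (clu_iff hS).2 (h _ h1), h1⟩
      · exact ⟨_, h1, inc_tl e⟩
  · rw [Finset.disjoint_left]
    intro i hi hi2
    rw [mem_eIn] at hi
    simp only [Finset.mem_filter, Finset.mem_univ, true_and] at hi2
    obtain ⟨e, rfl, h1, h2⟩ := hi2
    exact h2 ((clu_iff hS).2 (hi _ (inc_tl (op e))))

theorem eIn_single (hV : Valid c) (v : ℕ) : eIn c {v} = ∅ := by
  rw [Finset.eq_empty_iff_forall_notMem]
  intro i hi
  rw [mem_eIn] at hi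
  have h1 := hi _ (Or.inl rfl : Inc c (c.2.1.get i).1 i)
  have h2 := hi _ (Or.inr rfl : Inc c (c.2.1.get i).2 i)
  rw [Finset.mem_singleton] at h1 h2
  exact (hV _ (List.get_mem _ _)).2.2 (h1.trans h2.symm)

/-- the clusters are discs -/
theorem disc_eq (hS : Sps c) (hσ : Rotation c σ) (hc : ∀ d : Dart c, isp d → isn (σ d))
    {v : ℕ} (hv : v < c.1) :
    nR hσ (clu c) (clu c v) + nV c (clu c) (clu c v) = nE c (clu c) (clu c v) + 1 := by
  rw [nV_eq hS hv, nE_eq hS]
  by_cases h : Short c v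
  · rw [nR_short hS hσ hc h, card_inner hS h]
    omega
  · rw [nR_single hS hσ hc h, As_single h, eIn_single hS.valid]
    simp

theorem out_three (hS : Sps c) {v : ℕ} (hv : v < c.1) : 3 ≤ outdeg c (clu c) (clu c v) := by
  classical
  rw [outdeg_eq hS]
  by_cases h : Short c v
  · have h1 : ∀ w : As c v, ∃ y : OD c (clu c v), tl y.1 = w.1 := by
      intro w
      have hw := short_of_mem h w.2
      obtain ⟨p, h2, h3⟩ := exists_dart (nx_adj hS hw).2.1
      obtain ⟨m, h4, h5⟩ := exists_dart (nx_adj hS hw).1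
      obtain ⟨e, h6, h7, h8⟩ := three hS (As_lt hS hv w.2) p m
      refine ⟨⟨e, ?_, ?_, ?_⟩, h6⟩
      · rw [h6]
        exact (clu_iff hS).2 w.2
      · intro he
        refine h7 (isp_unique hS he ⟨by rw [h2]; exact hw, by rw [h2]; exact h3⟩ (h6.trans h2.symm))
      · intro he
        refine h8 (isn_unique hS he ⟨by rw [h4]; exact hw, by rw [h4]; exact h5⟩ (h6.trans h4.symm))
    choose f hf using h1
    have h2 : Function.Injective f := by
      intro a b hab
      apply Subtype.ext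
      rw [← hf a, ← hf b, hab]
    have h3 := Nat.card_le_card_of_injective f h2
    rw [Nat.card_eq_fintype_card, Fintype.card_coe] at h3
    exact le_trans (card_As hS h).1 h3
  · have h1 : ∀ d : {d : Dart c // tl d = v}, clu c (tl d.1) = clu c v ∧ ¬ isp d.1 ∧ ¬ isn d.1 := by
      intro d
      refine ⟨by rw [d.2], ?_, ?_⟩
      · intro h2
        exact h (by rw [← d.2]; exact h2.1)
      · intro h2
        exact h (by rw [← d.2]; exact h2.1)
    have h2 := Nat.card_le_card_of_injective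
      (fun d : {d : Dart c // tl d = v} => (⟨d.1, h1 d⟩ : OD c (clu c v))) (by
        intro a b hab
        have h3 := congrArg Subtype.val hab
        exact Subtype.ext h3)
    rw [card_darts hS.valid, card_inc] at h2
    exact le_trans (hS.degree3 v hv) h2

end Pool.Agent.Helper2GI
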