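import Mathlib
import Pool.Agent.Helper2GI.Sp3

/-!
Sparse graphs are assembled from planar discs.
-/

set_option autoImplicit false

namespace Pool.Agent.Helper2GI

variable {c : Code}

theorem As_disj (hS : Sps c) {u v : ℕ} (h : clu c u ≠ clu c v) : Disjoint (As c u) (As c v) := by
  rw [Finset.disjoint_left]
  intro w h1 h2
  exact h (((clu_iff hS).2 h1).symm.trans ((clu_iff hS).2 h2))

theorem card_As_le (hS : Sps c) (v : ℕ) : (As c v).card ≤ 5 := by
  by_cases h : Short c v
  · exact (card_As hS h).2
  · rw [As_single h]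
    simp

open Classical in
theorem card_As_eIn (hS : Sps c) (v : ℕ) :
    (As c v).card ≤ (eIn c (As c v)).card + (if Short c v then 0 else 1) := by
  split_ifs with h
  · rw [card_inner hS h]
    omega
  · rw [As_single h]
    simp

/-- no short closed chains of clusters -/
theorem no_chain (hS : Sps c) {k : ℕ} (hk : 3 ≤ k ∧ k ≤ 5) (X : ZMod k → ℕ)
    (hX : Function.Injective X) (h : ∀ j, CAdj c (clu c) (X j) (X (j + 1))) : False := by
  classical
  haveI : NeZero k := ⟨by omega⟩
  have h' : ∀ j, ∃ (u v : ℕ) (i : Edge c), Inc c u i ∧ Inc c v i ∧ clu c u = X j ∧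
      clu c v = X (j + 1) := fun j => (h j).2
  choose u v i hu hv hcu hcv using h'
  have hone : (1 : ZMod k) ≠ 0 := by
    haveI : Fact (1 < k) := ⟨by omega⟩
    exact one_ne_zero
  have htwo : (1 : ZMod k) + 1 ≠ 0 := by
    intro h2
    have h3 : ((2 : ℕ) : ZMod k) = 0 := by
      rw [← h2]
      push_cast
      ring
    rw [ZMod.natCast_eq_zero_iff] at h3
    have := Nat.le_of_dvd (by norm_num) h3
    omega
  have hlt : ∀ j, u j < c.1 := fun j => inc_lt hS.valid (hu j)
  have hAdisj : ∀ j l, j ≠ l → Disjoint (As c (u j)) (As c (u l)) := by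
    intro j l hjl
    refine As_disj hS ?_
    rw [hcu, hcu]
    exact fun hh => hjl (hX hh)
  have hvA : ∀ j, v j ∈ As c (u (j + 1)) := by
    intro j
    rw [← clu_iff hS, hcv, hcu]
  have huv : ∀ j, u j ≠ v j := by
    intro j hh
    have h1 := hcu j
    rw [hh, hcv] at h1
    have h2 := hX h1
    apply hone
    exact add_left_cancel (a := j) (by rw [h2, add_zero])
  set U : Finset ℕ := Finset.univ.biUnion fun j => As c (u j) with hU
  have hUc : U.card = ∑ j, (As c (u j)).card := by
    rw [hU, Finset.card_biUnion]
    intro j _ l _ hjl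
    exact hAdisj j l hjl
  have hU25 : U.card ≤ 25 := by
    rw [hUc]
    calc ∑ j, (As c (u j)).card ≤ ∑ _j : ZMod k, 5 := Finset.sum_le_sum fun j _ => card_As_le hS _
      _ = k * 5 := by rw [Finset.sum_const, Finset.card_univ, ZMod.card, smul_eq_mul]
      _ ≤ 25 := by omega
  have hsp := hS.sparse U (by
    intro w hw
    rw [hU, Finset.mem_biUnion] at hw
    obtain ⟨j, _, hw⟩ := hw
    exact As_lt hS (hlt j) hw) hU25
  -- the connecting edges are distinct
  have hij : Function.Injective i := by
    intro j l hjl
    have h1 := hu j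
    have h2 := hv j
    rw [hjl] at h1 h2
    rcases inc_two (huv l) (hu l) (hv l) h1 with h3 | h3
    · apply hX
      rw [← hcu, ← hcu, h3]
    · exfalso
      have e1 : j = l + 1 := hX (by rw [← hcu, ← hcv, h3])
      rcases inc_two (huv l) (hu l) (hv l) h2 with h4 | h4
      · have e2 : j + 1 = l := hX (by rw [← hcv j, h4, hcu])
        apply htwo
        exact add_left_cancel (a := l) (by rw [← add_assoc, ← e1, e2, add_zero])
      · exact huv j (h3.trans h4.symm)
  have hin : ∀ j l, i j ∉ eIn c (As c (u l)) := by
    intro j l hjl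
    rw [mem_eIn] at hjl
    have h1 := (clu_iff hS).2 (hjl _ (hu j))
    have h2 := (clu_iff hS).2 (hjl _ (hv j))
    rw [hcu, hcu] at h1
    rw [hcv, hcu] at h2
    have h3 := hX (h1.trans h2.symm)
    apply hone
    exact add_left_cancel (a := j) (by rw [← h3, add_zero])
  have hE : (∑ j, (eIn c (As c (u j))).card) + k ≤ (eIn c U).card := by
    have h1 : ((Finset.univ.biUnion fun j => eIn c (As c (u j))) ∪ Finset.univ.image i).card =
        (∑ j, (eIn c (As c (u j))).card) + k := by
      rw [Finset.card_union_of_disjoint, Finset.card_biUnion, Finset.card_image_of_injective _ hij,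
        Finset.card_univ, ZMod.card]
      · intro j _ l _ hjl
        show Disjoint (eIn c (As c (u j))) (eIn c (As c (u l)))
        rw [Finset.disjoint_left]
        intro e he he'
        rw [mem_eIn] at he he'
        exact Finset.disjoint_left.1 (hAdisj j l hjl) (he _ (Or.inl rfl)) (he' _ (Or.inl rfl))
      · rw [Finset.disjoint_left]
        intro e he he'
        rw [Finset.mem_biUnion] at he
        rw [Finset.mem_image] at he'
        obtain ⟨l, _, hl⟩ := he
        obtain ⟨j, _, rfl⟩ := he'
        exact hin j l hl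
    rw [← h1]
    refine Finset.card_le_card (Finset.union_subset ?_ ?_)
    · intro e he
      rw [Finset.mem_biUnion] at he
      obtain ⟨l, _, hl⟩ := he
      rw [mem_eIn] at hl ⊢
      intro w hw
      rw [hU, Finset.mem_biUnion]
      exact ⟨l, Finset.mem_univ _, hl w hw⟩
    · intro e he
      rw [Finset.mem_image] at he
      obtain ⟨j, _, rfl⟩ := he
      rw [mem_eIn]
      intro w hw
      rw [hU, Finset.mem_biUnion]
      rcases inc_two (huv j) (hu j) (hv j) hw with rfl | rfl
      · exact ⟨j, Finset.mem_univ _, mem_As _⟩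
      · exact ⟨j + 1, Finset.mem_univ _, hvA j⟩
  have hsum : ∑ j, (As c (u j)).card ≤ ∑ j, (eIn c (As c (u j))).card +
      ∑ j, (if Short c (u j) then 0 else 1) := by
    rw [← Finset.sum_add_distrib]
    exact Finset.sum_le_sum fun j _ => card_As_eIn hS _
  have hns : ∀ j, ¬ Short c (u j) := by
    by_contra hh
    push Not at hh
    obtain ⟨l, hl⟩ := hh
    have h1 : ∑ j, (if Short c (u j) then 0 else 1) < ∑ _j : ZMod k, 1 := by
      refine Finset.sum_lt_sum (fun j _ => by split_ifs <;> omega) ⟨l, Finset.mem_univ _, ?_⟩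
      rw [if_pos hl]
      omega
    rw [Finset.sum_const, Finset.card_univ, ZMod.card, smul_eq_mul, mul_one] at h1
    omega
  refine hns 0 ⟨⟨k, hk, u, ?_, ?_⟩, (SC.mem_verts _).2 ⟨0, rfl⟩⟩
  · intro j l hjl
    apply hX
    rw [← hcu, ← hcu, hjl]
  · intro j
    have h1 := hvA j
    rw [As_single (hns _), Finset.mem_singleton] at h1
    refine ⟨by rw [← h1]; exact huv j, i j, hu j, ?_⟩
    rw [← h1]
    exact hv j

theorem simple_clu (hS : Sps c) {i j : Edge c} {u v u' v' : ℕ} (hPQ : clu c u ≠ clu c v)
    (h1 : Inc c u i) (h2 : Inc c v i) (h3 : Inc c u' j) (h4 : Inc c v' j)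
    (h5 : clu c u' = clu c u) (h6 : clu c v' = clu c v) : i = j := by
  classical
  by_contra hij
  have hd := As_disj hS hPQ
  have hu := inc_lt hS.valid h1
  have hv := inc_lt hS.valid h2
  have huv : u ≠ v := fun hh => hPQ (by rw [hh])
  have huv' : u' ≠ v' := fun hh => hPQ (by rw [← h5, hh, h6])
  have hsp := hS.sparse (As c u ∪ As c v) (by
    intro w hw
    rcases Finset.mem_union.1 hw with h | h
    · exact As_lt hS hu h
    · exact As_lt hS hv h) (by
    have := Finset.card_union_le (As c u) (As c v)
    have := card_As_le hS u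
    have := card_As_le hS v
    omega)
  rw [Finset.card_union_of_disjoint hd] at hsp
  have hE : ((eIn c (As c u) ∪ eIn c (As c v)) ∪ {i, j}).card ≤ (eIn c (As c u ∪ As c v)).card := by
    refine Finset.card_le_card ?_
    intro e he
    rw [Finset.mem_union, Finset.mem_union, Finset.mem_insert, Finset.mem_singleton] at he
    rw [mem_eIn]
    intro w hw
    rw [Finset.mem_union]
    rcases he with (he | he) | (rfl | rfl)
    · exact Or.inl (mem_eIn.1 he w hw)
    · exact Or.inr (mem_eIn.1 he w hw)
    · rcases inc_two huv h1 h2 hw with rfl | rfl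
      · exact Or.inl (mem_As _)
      · exact Or.inr (mem_As _)
    · rcases inc_two huv' h3 h4 hw with rfl | rfl
      · exact Or.inl ((clu_iff hS).1 h5)
      · exact Or.inr ((clu_iff hS).1 h6)
  have hout : ∀ e ∈ ({i, j} : Finset (Edge c)), e ∉ eIn c (As c u) ∧ e ∉ eIn c (As c v) := by
    intro e he
    rw [Finset.mem_insert, Finset.mem_singleton] at he
    rcases he with rfl | rfl
    · exact ⟨fun h => hPQ ((clu_iff hS).2 (mem_eIn.1 h v h2)).symm,
        fun h => hPQ ((clu_iff hS).2 (mem_eIn.1 h u h1))⟩
    · refine ⟨fun h => hPQ ?_, fun h => hPQ ?_⟩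
      · rw [← h6]
        exact ((clu_iff hS).2 (mem_eIn.1 h v' h4)).symm
      · rw [← h5]
        exact (clu_iff hS).2 (mem_eIn.1 h u' h3)
  rw [Finset.card_union_of_disjoint, Finset.card_union_of_disjoint, Finset.card_pair hij] at hE
  · have a1 := card_As_eIn hS u
    have a2 := card_As_eIn hS v
    have hsu : ¬ Short c u := by
      intro hs
      rw [if_pos hs] at a1
      split_ifs at a2 <;> omega
    have hsv : ¬ Short c v := by
      intro hs
      rw [if_pos hs] at a2
      split_ifs at a1 <;> omega
    have e1 : u' = u := by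
      have := (clu_iff hS).1 h5
      rwa [As_single hsu, Finset.mem_singleton] at this
    have e2 : v' = v := by
      have := (clu_iff hS).1 h6
      rwa [As_single hsv, Finset.mem_singleton] at this
    rw [e1] at h3
    rw [e2] at h4
    exact hij (uniq hS.simple huv h1 h2 h3 h4)
  · rw [Finset.disjoint_left]
    intro e he he'
    exact Finset.disjoint_left.1 hd (mem_eIn.1 he _ (Or.inl rfl)) (mem_eIn.1 he' _ (Or.inl rfl))
  · rw [Finset.disjoint_right]
    intro e he he'
    rcases Finset.mem_union.1 he' with h | h
    · exact (hout e he).1 h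
    · exact (hout e he).2 h

/-- sparse graphs are assembled from planar discs -/
theorem sps_assembled (hS : Sps c) : Assembled c := by
  obtain ⟨σ, hσ, hc⟩ := exists_rot hS
  have no3 : ∀ P Q R, CAdj c (clu c) P Q → CAdj c (clu c) Q R → ¬ CAdj c (clu c) R P := by
    intro P Q R h1 h2 h3
    have hX : Function.Injective (![P, Q, R] : Fin 3 → ℕ) := by
      have a := h1.1
      have b := h2.1
      have d := h3.1
      intro x y
      fin_cases x <;> fin_cases y <;> simp <;> omega
    refine no_chain hS (k := 3) (by omega) (![P, Q, R] : Fin 3 → ℕ) hX ?_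
    intro j
    change Fin 3 at j
    fin_cases j
    · exact h1
    · exact h2
    · exact h3
  refine ⟨σ, hσ, clu c, ?_⟩
  constructor
  · intro v hv a b ha hb hca hcb
    have hab : b ∈ As c a := by
      rw [← clu_iff hS, hcb, hca]
    by_cases hs : Short c a
    · obtain ⟨j, hj⟩ := nx_orbit hS hs hab
      rw [← hj]
      clear hj
      have key : ∀ j, Relation.ReflTransGen
          (fun a b => Adj c a b ∧ clu c a = clu c v ∧ clu c b = clu c v) a ((nx c)^[j] a) ∧
          (nx c)^[j] a ∈ As c a := by
        intro j
        induction j with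
        | zero => exact ⟨Relation.ReflTransGen.refl, mem_As _⟩
        | succ j ih =>
          have h1 := short_of_mem hs ih.2
          have h2 := nx_mem hS h1
          rw [As_eq hS ih.2] at h2
          rw [Function.iterate_succ_apply']
          refine ⟨ih.1.tail ⟨(nx_adj hS h1).1, ?_, ?_⟩, h2.1⟩
          · rw [← hca]
            exact (clu_iff hS).2 ih.2
          · rw [← hca]
            exact (clu_iff hS).2 h2.1
      exact (key j).1
    · rw [As_single hs, Finset.mem_singleton] at hab
      rw [hab]
  · intro v hv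
    exact disc_eq hS hσ hc hv
  · intro v hv
    exact out_three hS hv
  · intro P Q i j u v u' v' hPQ h1 h2 h3 h4 h5 h6 h7 h8
    subst h5 h6
    exact simple_clu hS hPQ h1 h2 h3 h4 h7 h8
  · exact no3
  · intro P Q R T h1 h2 h3 h4 h5 h6
    exfalso
    have hX : Function.Injective (![P, Q, R, T] : Fin 4 → ℕ) := by
      have a := h1.1
      have b := h2.1
      have d := h3.1
      have e := h4.1
      intro x y
      fin_cases x <;> fin_cases y <;> simp <;> omega
    refine no_chain hS (k := 4) (by omega) (![P, Q, R, T] : Fin 4 → ℕ) hX ?_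
    intro j
    change Fin 4 at j
    fin_cases j
    · exact h1
    · exact h2
    · exact h3
    · exact h4
  · intro P Q R T W h1 h2 h3 h4 h5
    exfalso
    have n1 : P ≠ R := by
      rintro rfl
      exact no3 _ _ _ h3 h4 h5
    have n2 : Q ≠ T := by
      rintro rfl
      exact no3 _ _ _ h4 h5 h1
    have n3 : R ≠ W := by
      rintro rfl
      exact no3 _ _ _ h5 h1 h2
    have n4 : T ≠ P := by
      rintro rfl
      exact no3 _ _ _ h1 h2 h3
    have n5 : W ≠ Q := by
      rintro rfl
      exact no3 _ _ _ h2 h3 h4
    have hX : Function.Injective (![P, Q, R, T, W] : Fin 5 → ℕ) := by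
      have a := h1.1
      have b := h2.1
      have d := h3.1
      have e := h4.1
      have f := h5.1
      intro x y
      fin_cases x <;> fin_cases y <;> simp <;> omega
    refine no_chain hS (k := 5) (by omega) (![P, Q, R, T, W] : Fin 5 → ℕ) hX ?_
    intro j
    change Fin 5 at j
    fin_cases j
    · exact h1
    · exact h2
    · exact h3
    · exact h4
    · exact h5

end Pool.Agent.Helper2GI
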