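import Mathlib

/-!
Switchings in graphs with given degrees.
-/

set_option autoImplicit false

namespace Pool.Agent.Helper2GI.Sw

variable {n : ℕ}

open Classical in
/-- the degree -/
noncomputable def dg (E : Finset (Sym2 (Fin n))) (v : Fin n) : ℕ := (E.filter fun e => v ∈ e).card

open Classical in
/-- the graphs with given degrees -/
noncomputable def GG (δ : Fin n → ℕ) : Finset (Finset (Sym2 (Fin n))) :=
  Finset.univ.filter fun E => (∀ e ∈ E, ¬ e.IsDiag) ∧ ∀ v, dg E v = δ v

open Classical in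
/-- the graphs containing given edges -/
noncomputable def GF (δ : Fin n → ℕ) (F : Finset (Sym2 (Fin n))) : Finset (Finset (Sym2 (Fin n))) :=
  (GG δ).filter fun E => F ⊆ E

theorem mem_GG {δ : Fin n → ℕ} {E : Finset (Sym2 (Fin n))} :
    E ∈ GG δ ↔ (∀ e ∈ E, ¬ e.IsDiag) ∧ ∀ v, dg E v = δ v := by
  unfold GG
  simp

theorem mem_GF {δ : Fin n → ℕ} {F E : Finset (Sym2 (Fin n))} :
    E ∈ GF δ F ↔ E ∈ GG δ ∧ F ⊆ E := by
  unfold GF
  simp

open Classical in
theorem nbr (E : Finset (Sym2 (Fin n))) (v : Fin n) :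
    (Finset.univ.filter fun x => s(v, x) ∈ E).card = dg E v := by
  unfold dg
  refine Finset.card_bij (fun x _ => s(v, x)) ?_ ?_ ?_
  · intro x hx
    simp only [Finset.mem_filter, Finset.mem_univ, true_and] at hx ⊢
    exact ⟨hx, Sym2.mem_mk_left _ _⟩
  · intro x _ y _ h
    exact Sym2.congr_right.1 h
  · intro e he
    simp only [Finset.mem_filter] at he
    obtain ⟨y, rfl⟩ := he.2
    exact ⟨y, by simpa using he.1, rfl⟩

open Classical in
theorem cnt_fst (E : Finset (Sym2 (Fin n))) (T : Finset (Fin n)) :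
    (Finset.univ.filter fun p : Fin n × Fin n => s(p.1, p.2) ∈ E ∧ p.1 ∈ T).card =
      ∑ x ∈ T, dg E x := by
  rw [Finset.card_eq_sum_card_fiberwise (f := Prod.fst) (t := T)
    (by intro p hp; simp only [Finset.coe_filter, Finset.mem_univ, true_and] at hp; exact hp.2)]
  refine Finset.sum_congr rfl fun x hx => ?_
  rw [← nbr]
  refine Finset.card_bij (fun p _ => p.2) ?_ ?_ ?_
  · intro p hp
    simp only [Finset.mem_filter, Finset.mem_univ, true_and] at hp ⊢
    rw [← hp.2]
    exact hp.1.1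
  · intro p hp q hq h
    simp only [Finset.mem_filter, Finset.mem_univ, true_and] at hp hq
    exact Prod.ext (hp.2.trans hq.2.symm) h
  · intro y hy
    simp only [Finset.mem_filter, Finset.mem_univ, true_and] at hy
    exact ⟨(x, y), by simpa using ⟨hy, hx⟩, rfl⟩

open Classical in
theorem cnt_snd (E : Finset (Sym2 (Fin n))) (T : Finset (Fin n)) :
    (Finset.univ.filter fun p : Fin n × Fin n => s(p.1, p.2) ∈ E ∧ p.2 ∈ T).card =
      ∑ x ∈ T, dg E x := by
  rw [← cnt_fst]
  refine Finset.card_bij (fun p _ => p.swap) ?_ ?_ ?_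
  · intro p hp
    simp only [Finset.mem_filter, Finset.mem_univ, true_and, Prod.fst_swap, Prod.snd_swap] at hp ⊢
    rw [Sym2.eq_swap]
    exact hp
  · intro p _ q _ h
    exact Prod.swap_injective h
  · intro p hp
    simp only [Finset.mem_filter, Finset.mem_univ, true_and] at hp
    refine ⟨p.swap, ?_, Prod.swap_swap p⟩
    simp only [Finset.mem_filter, Finset.mem_univ, true_and, Prod.fst_swap, Prod.snd_swap]
    rw [Sym2.eq_swap]
    exact hp

/-- the switched graph -/
def swt (a b x y : Fin n) (E : Finset (Sym2 (Fin n))) : Finset (Sym2 (Fin n)) :=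
  (E \ {s(a, b), s(x, y)}) ∪ {s(a, x), s(b, y)}

open Classical in
theorem swt_spec {δ : Fin n → ℕ} {F E : Finset (Sym2 (Fin n))} {a b x y : Fin n}
    (hab : a ≠ b) (hE : E ∈ GG δ) (hF : insert s(a, b) F ⊆ E) (hn : s(a, b) ∉ F)
    (hxy : s(x, y) ∈ E) (hxF : ∀ e ∈ F, x ∉ e) (hxa : x ≠ a) (hxb : x ≠ b) (hya : y ≠ a)
    (hyb : y ≠ b) (hax : s(a, x) ∉ E) (hby : s(b, y) ∉ E) :
    swt a b x y E ∈ GG δ ∧ F ⊆ swt a b x y E ∧ s(a, x) ∈ swt a b x y E ∧
      s(b, y) ∈ swt a b x y E ∧
      E = (swt a b x y E \ {s(a, x), s(b, y)}) ∪ {s(a, b), s(x, y)} := by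
  obtain ⟨h1, h2⟩ := mem_GG.1 hE
  have hab' : s(a, b) ∈ E := hF (Finset.mem_insert_self _ _)
  have hne : x ≠ y := by
    rintro rfl
    exact h1 _ hxy (by simp)
  have hrec : E = (swt a b x y E \ {s(a, x), s(b, y)}) ∪ {s(a, b), s(x, y)} := by
    unfold swt
    ext e
    simp only [Finset.mem_union, Finset.mem_sdiff, Finset.mem_insert, Finset.mem_singleton]
    constructor
    · intro he
      by_cases h3 : e = s(a, b) ∨ e = s(x, y)
      · exact Or.inr h3
      · left
        refine ⟨Or.inl ⟨he, h3⟩, ?_⟩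
        rintro (rfl | rfl)
        · exact hax he
        · exact hby he
    · rintro (⟨h3 | h3, h4⟩ | (rfl | rfl))
      · exact h3.1
      · exact absurd h3 h4
      · exact hab'
      · exact hxy
  refine ⟨?_, ?_, ?_, ?_, hrec⟩
  · rw [mem_GG]
    constructor
    · intro e he
      unfold swt at he
      simp only [Finset.mem_union, Finset.mem_sdiff, Finset.mem_insert, Finset.mem_singleton] at he
      rcases he with he | (rfl | rfl)
      · exact h1 e he.1
      · simpa using hxa.symm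
      · simpa using hyb.symm
    · intro v
      rw [← h2 v]
      unfold dg swt
      have e1 : E.filter (fun e => v ∈ e) = ((E \ {s(a, b), s(x, y)}).filter fun e => v ∈ e) ∪
          (({s(a, b), s(x, y)} : Finset (Sym2 (Fin n))).filter fun e => v ∈ e) := by
        rw [← Finset.filter_union, Finset.sdiff_union_of_subset]
        intro e he
        rw [Finset.mem_insert, Finset.mem_singleton] at he
        rcases he with rfl | rfl
        · exact hab'
        · exact hxy
      rw [Finset.filter_union, e1, Finset.card_union_of_disjoint, Finset.card_union_of_disjoint]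
      · congr 1
        have n1 : s(a, x) ≠ s(b, y) := by
          intro h
          rw [Sym2.eq_iff] at h
          rcases h with ⟨h, _⟩ | ⟨h, _⟩
          · exact hab h
          · exact hya h.symm
        have n2 : s(a, b) ≠ s(x, y) := by
          intro h
          rw [Sym2.eq_iff] at h
          rcases h with ⟨h, _⟩ | ⟨h, _⟩
          · exact hxa h.symm
          · exact hya h.symm
        rw [Finset.card_filter, Finset.card_filter, Finset.sum_pair n1, Finset.sum_pair n2]
        simp only [Sym2.mem_iff]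
        by_cases va : v = a
        · subst va
          simp [hxa.symm, hya.symm, hab]
        · by_cases vb : v = b
          · subst vb
            simp [hxb.symm, hyb.symm, va]
          · by_cases vx : v = x
            · subst vx
              simp [va, vb, hne]
            · by_cases vy : v = y
              · subst vy
                simp [va, vb, vx]
              · simp [va, vb, vx, vy]
      · rw [Finset.disjoint_left]
        intro e he he'
        simp only [Finset.mem_filter, Finset.mem_sdiff] at he he'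
        exact he.1.2 he'.1
      · rw [Finset.disjoint_left]
        intro e he he'
        simp only [Finset.mem_filter, Finset.mem_sdiff, Finset.mem_insert,
          Finset.mem_singleton] at he he'
        rcases he'.1 with rfl | rfl
        · exact hax he.1.1
        · exact hby he.1.1
  · intro e he
    unfold swt
    rw [Finset.mem_union, Finset.mem_sdiff]
    left
    refine ⟨hF (Finset.mem_insert_of_mem he), ?_⟩
    rw [Finset.mem_insert, Finset.mem_singleton]
    rintro (rfl | rfl)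
    · exact hn he
    · exact hxF _ he (Sym2.mem_mk_left _ _)
  · unfold swt
    simp
  · unfold swt
    simp

open Classical in
/-- the possible choices for a switching -/
noncomputable def LL (a b : Fin n) (S : Finset (Fin n)) (E : Finset (Sym2 (Fin n))) :
    Finset (Fin n × Fin n) :=
  Finset.univ.filter fun p => s(p.1, p.2) ∈ E ∧ p.1 ∉ S ∧ p.2 ∉ S ∧ s(a, p.1) ∉ E ∧ s(b, p.2) ∉ E

open Classical in
theorem card_LL {δ : Fin n → ℕ} {E : Finset (Sym2 (Fin n))} (hE : E ∈ GG δ) {Δ : ℕ}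
    (hδ : ∀ v, 3 ≤ δ v ∧ δ v ≤ Δ) (a b : Fin n) (S : Finset (Fin n))
    (hn : S.card * Δ + Δ * Δ ≤ n) : n ≤ (LL a b S E).card := by
  obtain ⟨_, h2⟩ := mem_GG.1 hE
  have hT : ∀ T : Finset (Fin n), ∑ x ∈ T, dg E x ≤ T.card * Δ := by
    intro T
    calc ∑ x ∈ T, dg E x ≤ ∑ _x ∈ T, Δ := Finset.sum_le_sum fun x _ => by rw [h2]; exact (hδ x).2
      _ = _ := by rw [Finset.sum_const, smul_eq_mul]
  set P := Finset.univ.filter fun p : Fin n × Fin n => s(p.1, p.2) ∈ E with hP
  have hPc : 3 * n ≤ P.card := by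
    have h3 := cnt_fst E (Finset.univ : Finset (Fin n))
    simp only [Finset.mem_univ, and_true] at h3
    rw [hP, h3]
    calc 3 * n = ∑ _x : Fin n, 3 := by
          rw [Finset.sum_const, Finset.card_univ, Fintype.card_fin, smul_eq_mul]; ring
      _ ≤ _ := Finset.sum_le_sum fun x _ => by rw [h2]; exact (hδ x).1
  set Ta := Finset.univ.filter fun x => s(a, x) ∈ E with hTa
  set Tb := Finset.univ.filter fun x => s(b, x) ∈ E with hTb
  have hTac : Ta.card ≤ Δ := by
    rw [hTa, nbr, h2]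
    exact (hδ a).2
  have hTbc : Tb.card ≤ Δ := by
    rw [hTb, nbr, h2]
    exact (hδ b).2
  have hsub : P ⊆ LL a b S E ∪
      ((Finset.univ.filter fun p : Fin n × Fin n => s(p.1, p.2) ∈ E ∧ p.1 ∈ S) ∪
      ((Finset.univ.filter fun p : Fin n × Fin n => s(p.1, p.2) ∈ E ∧ p.2 ∈ S) ∪
      ((Finset.univ.filter fun p : Fin n × Fin n => s(p.1, p.2) ∈ E ∧ p.1 ∈ Ta) ∪
      (Finset.univ.filter fun p : Fin n × Fin n => s(p.1, p.2) ∈ E ∧ p.2 ∈ Tb)))) := by
    intro p hp
    simp only [hP, Finset.mem_filter, Finset.mem_univ, true_and] at hp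
    simp only [Finset.mem_union, Finset.mem_filter, Finset.mem_univ, true_and, LL, hp, hTa, hTb]
    tauto
  have hc := Finset.card_le_card hsub
  have u1 := Finset.card_union_le (LL a b S E)
      ((Finset.univ.filter fun p : Fin n × Fin n => s(p.1, p.2) ∈ E ∧ p.1 ∈ S) ∪
      ((Finset.univ.filter fun p : Fin n × Fin n => s(p.1, p.2) ∈ E ∧ p.2 ∈ S) ∪
      ((Finset.univ.filter fun p : Fin n × Fin n => s(p.1, p.2) ∈ E ∧ p.1 ∈ Ta) ∪
      (Finset.univ.filter fun p : Fin n × Fin n => s(p.1, p.2) ∈ E ∧ p.2 ∈ Tb))))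
  have u2 := Finset.card_union_le
      (Finset.univ.filter fun p : Fin n × Fin n => s(p.1, p.2) ∈ E ∧ p.1 ∈ S)
      ((Finset.univ.filter fun p : Fin n × Fin n => s(p.1, p.2) ∈ E ∧ p.2 ∈ S) ∪
      ((Finset.univ.filter fun p : Fin n × Fin n => s(p.1, p.2) ∈ E ∧ p.1 ∈ Ta) ∪
      (Finset.univ.filter fun p : Fin n × Fin n => s(p.1, p.2) ∈ E ∧ p.2 ∈ Tb)))
  have u3 := Finset.card_union_le
      (Finset.univ.filter fun p : Fin n × Fin n => s(p.1, p.2) ∈ E ∧ p.2 ∈ S)
      ((Finset.univ.filter fun p : Fin n × Fin n => s(p.1, p.2) ∈ E ∧ p.1 ∈ Ta) ∪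
      (Finset.univ.filter fun p : Fin n × Fin n => s(p.1, p.2) ∈ E ∧ p.2 ∈ Tb))
  have u4 := Finset.card_union_le
      (Finset.univ.filter fun p : Fin n × Fin n => s(p.1, p.2) ∈ E ∧ p.1 ∈ Ta)
      (Finset.univ.filter fun p : Fin n × Fin n => s(p.1, p.2) ∈ E ∧ p.2 ∈ Tb)
  have v1 := cnt_fst E S
  have v2 := cnt_snd E S
  have v3 := cnt_fst E Ta
  have v4 := cnt_snd E Tb
  have w1 := hT S
  have w3 := hT Ta
  have w4 := hT Tb
  have x3 : Ta.card * Δ ≤ Δ * Δ := Nat.mul_le_mul_right _ hTac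
  have x4 : Tb.card * Δ ≤ Δ * Δ := Nat.mul_le_mul_right _ hTbc
  omega

open Classical in
/-- the switching inequality -/
theorem switch {δ : Fin n → ℕ} {Δ : ℕ} (hδ : ∀ v, 3 ≤ δ v ∧ δ v ≤ Δ) {a b : Fin n} (hab : a ≠ b)
    {F : Finset (Sym2 (Fin n))} (hF : s(a, b) ∉ F) (S : Finset (Fin n)) (ha : a ∈ S) (hb : b ∈ S)
    (hS : ∀ e ∈ F, ∀ v ∈ e, v ∈ S) (hn : S.card * Δ + Δ * Δ ≤ n) :
    (GF δ (insert s(a, b) F)).card * n ≤ (GF δ F).card * (Δ * Δ) := by
  have h1 : (GF δ (insert s(a, b) F)).card * n ≤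
      ((GF δ (insert s(a, b) F)).sigma fun E => LL a b S E).card := by
    rw [Finset.card_sigma]
    calc (GF δ (insert s(a, b) F)).card * n = ∑ _E ∈ GF δ (insert s(a, b) F), n := by
          rw [Finset.sum_const, smul_eq_mul]
      _ ≤ _ := Finset.sum_le_sum fun E hE => card_LL (mem_GF.1 hE).1 hδ a b S hn
  have h2 : ((GF δ F).sigma fun E => (Finset.univ.filter fun x => s(a, x) ∈ E) ×ˢ
      (Finset.univ.filter fun y => s(b, y) ∈ E)).card ≤ (GF δ F).card * (Δ * Δ) := by
    rw [Finset.card_sigma]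
    calc ∑ E ∈ GF δ F, ((Finset.univ.filter fun x => s(a, x) ∈ E) ×ˢ
          (Finset.univ.filter fun y => s(b, y) ∈ E)).card ≤ ∑ _E ∈ GF δ F, Δ * Δ := by
          refine Finset.sum_le_sum fun E hE => ?_
          obtain ⟨_, h3⟩ := mem_GG.1 (mem_GF.1 hE).1
          rw [Finset.card_product, nbr, nbr, h3, h3]
          exact Nat.mul_le_mul (hδ a).2 (hδ b).2
      _ = _ := by rw [Finset.sum_const, smul_eq_mul]
  refine h1.trans (le_trans ?_ h2)
  have hspec : ∀ q ∈ (GF δ (insert s(a, b) F)).sigma fun E => LL a b S E,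
      swt a b q.2.1 q.2.2 q.1 ∈ GG δ ∧ F ⊆ swt a b q.2.1 q.2.2 q.1 ∧
      s(a, q.2.1) ∈ swt a b q.2.1 q.2.2 q.1 ∧ s(b, q.2.2) ∈ swt a b q.2.1 q.2.2 q.1 ∧
      q.1 = (swt a b q.2.1 q.2.2 q.1 \ {s(a, q.2.1), s(b, q.2.2)}) ∪ {s(a, b), s(q.2.1, q.2.2)} := by
    rintro ⟨E, x, y⟩ hq
    rw [Finset.mem_sigma] at hq
    obtain ⟨h3, h4⟩ := hq
    simp only [LL, Finset.mem_filter, Finset.mem_univ, true_and] at h3 h4
    obtain ⟨h5, h6⟩ := mem_GF.1 h3
    exact swt_spec hab h5 h6 hF h4.1 (fun e he hx => h4.2.1 (hS e he _ hx))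
      (fun h => h4.2.1 (by have h' : x = a := h; rw [h']; exact ha))
      (fun h => h4.2.1 (by have h' : x = b := h; rw [h']; exact hb))
      (fun h => h4.2.2.1 (by have h' : y = a := h; rw [h']; exact ha))
      (fun h => h4.2.2.1 (by have h' : y = b := h; rw [h']; exact hb)) h4.2.2.2.1 h4.2.2.2.2
  refine Finset.card_le_card_of_injOn (fun q => ⟨swt a b q.2.1 q.2.2 q.1, q.2⟩) ?_ ?_
  · intro q hq
    obtain ⟨h3, h4, h5, h6, _⟩ := hspec q hq
    rw [Finset.mem_coe, Finset.mem_sigma, Finset.mem_product]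
    simp only [Finset.mem_filter, Finset.mem_univ, true_and]
    exact ⟨mem_GF.2 ⟨h3, h4⟩, h5, h6⟩
  · rintro ⟨E, x, y⟩ hq ⟨E', x', y'⟩ hq' h
    have h3 := (hspec _ hq).2.2.2.2
    have h4 := (hspec _ hq').2.2.2.2
    simp only [Sigma.mk.injEq, heq_eq_eq, Prod.mk.injEq] at h
    obtain ⟨h5, rfl, rfl⟩ := h
    simp only at h3 h4
    rw [h5] at h3
    have h6 : E = E' := h3.trans h4.symm
    rw [h6]

end Pool.Agent.Helper2GI.Sw
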