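import Mathlib
import Pool.Agent.Helper2GI.Sw1

/-!
Few graphs with given bounded degrees contain small dense subgraphs.
-/

set_option autoImplicit false

namespace Pool.Agent.Helper2GI.Sw

variable {n : ℕ}

open Classical in
theorem card_vs (F : Finset (Sym2 (Fin n))) :
    (Finset.univ.filter fun v => ∃ e ∈ F, v ∈ e).card ≤ 2 * F.card := by
  induction F using Finset.induction_on with
  | empty => simp
  | insert e F he ih =>
    have h1 : (Finset.univ.filter fun v => ∃ e' ∈ insert e F, v ∈ e') ⊆
        (Finset.univ.filter fun v => v ∈ e) ∪ Finset.univ.filter fun v => ∃ e ∈ F, v ∈ e := by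
      intro v hv
      simp only [Finset.mem_filter, Finset.mem_univ, true_and, Finset.mem_insert,
        exists_eq_or_imp, Finset.mem_union] at hv ⊢
      exact hv
    have h2 : (Finset.univ.filter fun v => v ∈ e).card ≤ 2 := by
      induction e with
      | _ a b =>
        refine le_trans (Finset.card_le_card (t := {a, b}) ?_) Finset.card_le_two
        intro v hv
        simpa using hv
    have h3 := (Finset.card_le_card h1).trans (Finset.card_union_le _ _)
    rw [Finset.card_insert_of_notMem he]
    omega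

open Classical in
theorem iter {δ : Fin n → ℕ} {Δ : ℕ} (hδ : ∀ v, 3 ≤ δ v ∧ δ v ≤ Δ) (k : ℕ)
    (hn : 2 * k * Δ + Δ * Δ ≤ n) (F : Finset (Sym2 (Fin n))) (hF : F.card ≤ k) :
    (GF δ F).card * n ^ F.card ≤ (Δ * Δ) ^ F.card * (GG δ).card := by
  induction F using Finset.induction_on with
  | empty =>
    have h1 : GF δ ∅ = GG δ := by
      ext E
      rw [mem_GF]
      simp
    rw [h1]
    simp
  | insert e F he ih =>
    rw [Finset.card_insert_of_notMem he] at hF
    have ih' := ih (by omega)
    rw [Finset.card_insert_of_notMem he]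
    induction e with
    | _ a b =>
      by_cases hab : a = b
      · have h1 : GF δ (insert s(a, b) F) = ∅ := by
          rw [Finset.eq_empty_iff_forall_notMem]
          intro E hE
          obtain ⟨h2, h3⟩ := mem_GF.1 hE
          exact (mem_GG.1 h2).1 _ (h3 (Finset.mem_insert_self _ _)) (by simpa using hab)
        rw [h1]
        simp
      · set S := Finset.univ.filter fun v => ∃ e ∈ insert s(a, b) F, v ∈ e with hS
        have h1 : S.card ≤ 2 * k := by
          have h5 : S.card ≤ 2 * (insert s(a, b) F).card := card_vs (insert s(a, b) F)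
          rw [Finset.card_insert_of_notMem he] at h5
          omega
        have h2 := switch hδ hab he S (by simp [hS]) (by simp [hS]) (by
          intro e' he' v hv
          rw [hS, Finset.mem_filter]
          exact ⟨Finset.mem_univ _, e', Finset.mem_insert_of_mem he', hv⟩) (by
          exact le_trans (Nat.add_le_add_right (Nat.mul_le_mul_right Δ h1) _) hn)
        calc (GF δ (insert s(a, b) F)).card * n ^ (F.card + 1)
            = ((GF δ (insert s(a, b) F)).card * n) * n ^ F.card := by ring
          _ ≤ ((GF δ F).card * (Δ * Δ)) * n ^ F.card := Nat.mul_le_mul_right _ h2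
          _ = (Δ * Δ) * ((GF δ F).card * n ^ F.card) := by ring
          _ ≤ (Δ * Δ) * ((Δ * Δ) ^ F.card * (GG δ).card) := Nat.mul_le_mul_left _ ih'
          _ = _ := by ring

open Classical in
/-- graphs with a set of `s` vertices spanning more than `s` edges -/
noncomputable def Bad (δ : Fin n → ℕ) (s : ℕ) : Finset (Finset (Sym2 (Fin n))) :=
  (GG δ).filter fun E => ∃ U : Finset (Fin n), U.card = s ∧
    s < (E.filter fun e => ∀ v ∈ e, v ∈ U).card

open Classical in
theorem card_Bad {δ : Fin n → ℕ} {Δ : ℕ} (hδ : ∀ v, 3 ≤ δ v ∧ δ v ≤ Δ) (s : ℕ) (h0 : 0 < n)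
    (hn : 2 * (s + 1) * Δ + Δ * Δ ≤ n) :
    (Bad δ s).card * n ≤ (2 ^ (Nat.choose (s + 1) 2) * (Δ * Δ) ^ (s + 1)) * (GG δ).card := by
  have h1 : Bad δ s ⊆ (Finset.powersetCard s (Finset.univ : Finset (Fin n))).biUnion fun U =>
      (Finset.powersetCard (s + 1) U.sym2).biUnion fun F => GF δ F := by
    intro E hE
    unfold Bad at hE
    rw [Finset.mem_filter] at hE
    obtain ⟨h2, U, hU, h3⟩ := hE
    obtain ⟨F, hF1, hF2⟩ := Finset.exists_subset_card_eq (Nat.succ_le_of_lt h3)
    rw [Finset.mem_biUnion]
    refine ⟨U, Finset.mem_powersetCard.2 ⟨Finset.subset_univ _, hU⟩, ?_⟩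
    rw [Finset.mem_biUnion]
    refine ⟨F, Finset.mem_powersetCard.2 ⟨?_, hF2⟩, ?_⟩
    · intro e he
      rw [Finset.mem_sym2_iff]
      exact (Finset.mem_filter.1 (hF1 he)).2
    · exact mem_GF.2 ⟨h2, fun e he => (Finset.mem_filter.1 (hF1 he)).1⟩
  have h2 : (Bad δ s).card * n ^ (s + 1) ≤
      (n ^ s * 2 ^ (Nat.choose (s + 1) 2)) * ((Δ * Δ) ^ (s + 1) * (GG δ).card) := by
    calc (Bad δ s).card * n ^ (s + 1)
        ≤ (∑ U ∈ Finset.powersetCard s (Finset.univ : Finset (Fin n)),
          ∑ F ∈ Finset.powersetCard (s + 1) U.sym2, (GF δ F).card) * n ^ (s + 1) := by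
          refine Nat.mul_le_mul_right _ ((Finset.card_le_card h1).trans ?_)
          refine Finset.card_biUnion_le.trans (Finset.sum_le_sum fun U _ => ?_)
          exact Finset.card_biUnion_le
      _ = ∑ U ∈ Finset.powersetCard s (Finset.univ : Finset (Fin n)),
          ∑ F ∈ Finset.powersetCard (s + 1) U.sym2, (GF δ F).card * n ^ (s + 1) := by
          rw [Finset.sum_mul]
          refine Finset.sum_congr rfl fun U _ => ?_
          rw [Finset.sum_mul]
      _ ≤ ∑ U ∈ Finset.powersetCard s (Finset.univ : Finset (Fin n)),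
          ∑ _F ∈ Finset.powersetCard (s + 1) U.sym2, (Δ * Δ) ^ (s + 1) * (GG δ).card := by
          refine Finset.sum_le_sum fun U _ => Finset.sum_le_sum fun F hF => ?_
          have h3 := (Finset.mem_powersetCard.1 hF).2
          have h4 := iter hδ (s + 1) hn F (by omega)
          rw [h3] at h4
          exact h4
      _ ≤ ∑ _U ∈ Finset.powersetCard s (Finset.univ : Finset (Fin n)),
          2 ^ (Nat.choose (s + 1) 2) * ((Δ * Δ) ^ (s + 1) * (GG δ).card) := by
          refine Finset.sum_le_sum fun U hU => ?_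
          rw [Finset.sum_const, smul_eq_mul]
          refine Nat.mul_le_mul_right _ ?_
          have h3 : U.sym2.card = Nat.choose (s + 1) 2 := by
            rw [Finset.card_sym2, (Finset.mem_powersetCard.1 hU).2]
          rw [← h3, ← Finset.card_powerset]
          exact Finset.card_le_card fun F hF =>
            Finset.mem_powerset.2 (Finset.mem_powersetCard.1 hF).1
      _ = (Nat.choose n s * 2 ^ (Nat.choose (s + 1) 2)) * ((Δ * Δ) ^ (s + 1) * (GG δ).card) := by
          rw [Finset.sum_const, smul_eq_mul, Finset.card_powersetCard, Finset.card_univ,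
            Fintype.card_fin, mul_assoc]
      _ ≤ _ := Nat.mul_le_mul_right _ (Nat.mul_le_mul_right _ (Nat.choose_le_pow n s))
  have h3 : n ^ s * ((Bad δ s).card * n) ≤
      n ^ s * ((2 ^ (Nat.choose (s + 1) 2) * (Δ * Δ) ^ (s + 1)) * (GG δ).card) := by
    calc n ^ s * ((Bad δ s).card * n) = (Bad δ s).card * n ^ (s + 1) := by ring
      _ ≤ _ := h2
      _ = _ := by ring
  exact Nat.le_of_mul_le_mul_left h3 (pow_pos h0 s)

open Classical in
/-- graphs with a small set of vertices spanning too many edges -/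
noncomputable def BadAll (δ : Fin n → ℕ) : Finset (Finset (Sym2 (Fin n))) :=
  (GG δ).filter fun E => ∃ U : Finset (Fin n), U.card ≤ 25 ∧
    U.card < (E.filter fun e => ∀ v ∈ e, v ∈ U).card

/-- the constant -/
def KK (Δ : ℕ) : ℕ := (∑ s ∈ Finset.range 26, 2 ^ (Nat.choose (s + 1) 2) * (Δ * Δ) ^ (s + 1)) +
  (2 * 26 * Δ + Δ * Δ)

theorem card_BadAll {δ : Fin n → ℕ} {Δ : ℕ} (hδ : ∀ v, 3 ≤ δ v ∧ δ v ≤ Δ) :
    (BadAll δ).card * n ≤ KK Δ * (GG δ).card := by
  classical
  by_cases hn : 2 * 26 * Δ + Δ * Δ ≤ n
  · by_cases h0 : n = 0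
    · subst h0
      simp
    · have h1 : BadAll δ ⊆ (Finset.range 26).biUnion fun s => Bad δ s := by
        intro E hE
        unfold BadAll at hE
        rw [Finset.mem_filter] at hE
        obtain ⟨h2, U, hU, h3⟩ := hE
        rw [Finset.mem_biUnion]
        refine ⟨U.card, Finset.mem_range.2 (by omega), ?_⟩
        unfold Bad
        rw [Finset.mem_filter]
        exact ⟨h2, U, rfl, h3⟩
      calc (BadAll δ).card * n ≤ (∑ s ∈ Finset.range 26, (Bad δ s).card) * n :=
            Nat.mul_le_mul_right _ ((Finset.card_le_card h1).trans Finset.card_biUnion_le)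
        _ = ∑ s ∈ Finset.range 26, (Bad δ s).card * n := Finset.sum_mul _ _ _
        _ ≤ ∑ s ∈ Finset.range 26,
            (2 ^ (Nat.choose (s + 1) 2) * (Δ * Δ) ^ (s + 1)) * (GG δ).card := by
            refine Finset.sum_le_sum fun s hs => ?_
            rw [Finset.mem_range] at hs
            refine card_Bad hδ s (by omega) ?_
            have : 2 * (s + 1) * Δ ≤ 2 * 26 * Δ := by
              refine Nat.mul_le_mul_right _ ?_
              omega
            omega
        _ = (∑ s ∈ Finset.range 26, 2 ^ (Nat.choose (s + 1) 2) * (Δ * Δ) ^ (s + 1)) *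
            (GG δ).card := (Finset.sum_mul _ _ _).symm
        _ ≤ _ := by
            unfold KK
            exact Nat.mul_le_mul_right _ (Nat.le_add_right _ _)
  · have h1 : (BadAll δ).card ≤ (GG δ).card := Finset.card_le_card (Finset.filter_subset _ _)
    calc (BadAll δ).card * n ≤ (GG δ).card * (2 * 26 * Δ + Δ * Δ) :=
          Nat.mul_le_mul h1 (by omega)
      _ ≤ (GG δ).card * KK Δ := by
          unfold KK
          exact Nat.mul_le_mul_left _ (Nat.le_add_left _ _)
      _ = _ := Nat.mul_comm _ _

end Pool.Agent.Helper2GI.Sw
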