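import Mathlib
import Pool.Agent.Helper2GI.Sw2
import Pool.Agent.Helper2GI.Sp4
import Pool.Agent.Helper2GI.Dens

/-!
Almost all graphs with given degrees, at least three and bounded, are assembled from planar pieces.
-/

set_option autoImplicit false

namespace Pool.Agent.Helper2GI

variable {n : ℕ}

open Classical in
/-- the edge set of a graph -/
noncomputable def eS (G : SimpleGraph (Fin n)) : Finset (Sym2 (Fin n)) :=
  Finset.univ.filter fun e => e ∈ G.edgeSet

theorem mem_eS {G : SimpleGraph (Fin n)} {e : Sym2 (Fin n)} : e ∈ eS G ↔ e ∈ G.edgeSet := by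
  unfold eS
  simp

theorem eS_inj : Function.Injective (eS (n := n)) := by
  intro G H h
  rw [← SimpleGraph.edgeSet_inj]
  ext e
  rw [← mem_eS, ← mem_eS, h]

theorem dg_eS (G : SimpleGraph (Fin n)) (v : Fin n) :
    Sw.dg (eS G) v = (G.neighborSet v).ncard := by
  classical
  rw [← Sw.nbr, Set.ncard_eq_toFinset_card']
  congr 1
  ext x
  simp only [Finset.mem_filter, Finset.mem_univ, true_and, mem_eS, SimpleGraph.mem_edgeSet,
    Set.mem_toFinset, SimpleGraph.mem_neighborSet]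

theorem eS_mem_GG {G : SimpleGraph (Fin n)} {δ : Fin n → ℕ}
    (h : ∀ v, (G.neighborSet v).ncard = δ v) : eS G ∈ Sw.GG δ := by
  rw [Sw.mem_GG]
  refine ⟨fun e he => ?_, fun v => ?_⟩
  · exact G.not_isDiag_of_mem_edgeSet (mem_eS.1 he)
  · rw [dg_eS, h]

theorem eS_from {E : Finset (Sym2 (Fin n))} (h : ∀ e ∈ E, ¬ e.IsDiag) :
    eS (SimpleGraph.fromEdgeSet (E : Set (Sym2 (Fin n)))) = E := by
  ext e
  rw [mem_eS, SimpleGraph.edgeSet_fromEdgeSet]
  simp only [Set.mem_sdiff, Finset.mem_coe]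
  constructor
  · exact fun h1 => h1.1
  · exact fun h1 => ⟨h1, fun h2 => h e h1 h2⟩

theorem card_GG (δ : Fin n → ℕ) : (Sw.GG δ).card =
    Nat.card {G : SimpleGraph (Fin n) // ∀ v, (G.neighborSet v).ncard = δ v} := by
  classical
  rw [← Fintype.card_coe, ← Nat.card_eq_fintype_card]
  symm
  refine Nat.card_congr (Equiv.ofBijective (fun G => ⟨eS G.1, eS_mem_GG G.2⟩) ⟨?_, ?_⟩)
  · intro G H h
    exact Subtype.ext (eS_inj (congrArg Subtype.val h))
  · rintro ⟨E, hE⟩
    obtain ⟨h1, h2⟩ := Sw.mem_GG.1 hE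
    refine ⟨⟨SimpleGraph.fromEdgeSet (E : Set (Sym2 (Fin n))), fun v => ?_⟩, ?_⟩
    · rw [← dg_eS, eS_from h1, h2]
    · exact Subtype.ext (eS_from h1)

open Classical in
theorem sps_of_not_bad {G : SimpleGraph (Fin n)} {δ : Fin n → ℕ} (h3 : ∀ v, 3 ≤ δ v)
    (h : ∀ v, (G.neighborSet v).ncard = δ v) (hb : eS G ∉ Sw.BadAll δ) {c : Code}
    (hc : IsCode G c) : Sps c where
  valid := hc.valid
  simple u v huv := hc.joining huv
  degree3 v hv := by
    have h1 : v < n := by rw [← hc.1]; exact hv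
    have h2 := hc.degree ⟨v, h1⟩
    have h4 := h ⟨v, h1⟩
    rw [Set.ncard_eq_toFinset_card', ← SimpleGraph.neighborFinset_def,
      SimpleGraph.card_neighborFinset_eq_degree] at h4
    have h5 : degree c v = G.degree ⟨v, h1⟩ := h2
    rw [h5, h4]
    exact h3 _
  sparse U hU hc' := by
    have hU' : (Finset.univ.filter fun v : Fin n => v.1 ∈ U).card = U.card := by
      refine Finset.card_bij (fun v _ => v.1) ?_ ?_ ?_
      · intro v hv
        exact (Finset.mem_filter.1 hv).2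
      · intro v _ w _ hvw
        exact Fin.ext hvw
      · intro v hv
        exact ⟨⟨v, by rw [← hc.1]; exact hU v hv⟩, by simpa using hv, rfl⟩
    have h1 : ((eS G).filter fun e => ∀ v ∈ e, v ∈ Finset.univ.filter fun v : Fin n => v.1 ∈ U).card
        ≤ U.card := by
      by_contra hcon
      apply hb
      unfold Sw.BadAll
      rw [Finset.mem_filter]
      refine ⟨eS_mem_GG h, Finset.univ.filter fun v : Fin n => v.1 ∈ U, by rw [hU']; exact hc', ?_⟩
      rw [hU']
      exact not_le.1 hcon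
    refine le_trans ?_ h1
    have hlt : ∀ i : Edge c, (c.2.1.get i).1 < n ∧ (c.2.1.get i).2 < n := by
      intro i
      have := hc.valid _ (List.get_mem c.2.1 i)
      rw [hc.1] at this
      exact ⟨this.1, this.2.1⟩
    refine Finset.card_le_card_of_injOn
      (fun i => s((⟨(c.2.1.get i).1, (hlt i).1⟩ : Fin n), ⟨(c.2.1.get i).2, (hlt i).2⟩)) ?_ ?_
    · intro i hi
      rw [Finset.mem_coe, mem_eIn] at hi
      rw [Finset.mem_coe, Finset.mem_filter]
      constructor
      · rw [mem_eS, SimpleGraph.mem_edgeSet]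
        obtain ⟨hu, hv, ha⟩ := (hc.2.2 (c.2.1.get i).1 (c.2.1.get i).2).1
          (List.mem_map.2 ⟨_, List.get_mem _ i, rfl⟩)
        exact ha
      · intro v hv
        rw [Sym2.mem_iff] at hv
        rw [Finset.mem_filter]
        refine ⟨Finset.mem_univ _, ?_⟩
        rcases hv with rfl | rfl
        · exact hi _ (Or.inl rfl)
        · exact hi _ (Or.inr rfl)
    · intro i _ j _ hij
      have hij' : s((⟨(c.2.1.get i).1, (hlt i).1⟩ : Fin n), ⟨(c.2.1.get i).2, (hlt i).2⟩) =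
        s((⟨(c.2.1.get j).1, (hlt j).1⟩ : Fin n), ⟨(c.2.1.get j).2, (hlt j).2⟩) := hij
      have h6 : s((c.2.1.get i).1, (c.2.1.get i).2) = s((c.2.1.get j).1, (c.2.1.get j).2) := by
        have := congrArg (Sym2.map (Fin.val : Fin n → ℕ)) hij'
        simpa only [Sym2.map_mk] using this
      have h5 := hc.2.1
      rw [List.nodup_iff_injective_get] at h5
      have hl : (c.2.1.map fun p => s(p.1, p.2)).length = c.2.1.length := List.length_map _
      have h7 := @h5 (Fin.cast hl.symm i) (Fin.cast hl.symm j) (by simpa using h6)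
      simpa [Fin.ext_iff] using h7

theorem regular_density' (Δ n : ℕ) (δ : Fin n → ℕ)
    (hδ : ∀ v, 3 ≤ δ v ∧ δ v ≤ Δ) :
    Nat.card {G : SimpleGraph (Fin n) // (∀ v, (G.neighborSet v).ncard = δ v) ∧
      ¬ ∀ c, IsCode G c → Valid c ∧ Assembled c} * n ≤
    Sw.KK Δ * Nat.card {G : SimpleGraph (Fin n) // ∀ v, (G.neighborSet v).ncard = δ v} := by
  classical
  rw [← card_GG]
  refine le_trans (Nat.mul_le_mul_right _ ?_) (Sw.card_BadAll hδ)
  rw [← Fintype.card_coe, ← Nat.card_eq_fintype_card]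
  have key : ∀ G : {G : SimpleGraph (Fin n) // (∀ v, (G.neighborSet v).ncard = δ v) ∧
      ¬ ∀ c, IsCode G c → Valid c ∧ Assembled c}, eS G.1 ∈ Sw.BadAll δ := by
    rintro ⟨G, h1, h2⟩
    by_contra hcon
    apply h2
    intro c hc
    have h3 := sps_of_not_bad (fun v => (hδ v).1) h1 hcon hc
    exact ⟨h3.valid, sps_assembled h3⟩
  refine Nat.card_le_card_of_injective (fun G => (⟨eS G.1, key G⟩ : {x // x ∈ Sw.BadAll δ})) ?_
  intro G H h
  exact Subtype.ext (eS_inj (congrArg Subtype.val h))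

theorem regular_density (Δ : ℕ) : ∃ K : ℕ, ∀ (n : ℕ) (δ : Fin n → ℕ),
    (∀ v, 3 ≤ δ v ∧ δ v ≤ Δ) →
    Nat.card {G : SimpleGraph (Fin n) // (∀ v, (G.neighborSet v).ncard = δ v) ∧
      ¬ ∀ c, IsCode G c → Valid c ∧ Assembled c} * n ≤
    K * Nat.card {G : SimpleGraph (Fin n) // ∀ v, (G.neighborSet v).ncard = δ v} :=
  ⟨Sw.KK Δ, fun n δ hδ => regular_density' Δ n δ hδ⟩

end Pool.Agent.Helper2GI
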