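import Mathlib
import Pool.Agent.Helper2GI.Sw3

/-!
Triangle-free simple graphs of minimum degree at least four are assembled from planar pieces
(single vertices).
-/

set_option autoImplicit false

namespace Pool.Agent.Helper2GI

theorem triangleFree_assembled (n : ℕ) (G : SimpleGraph (Fin n)) (hG : G.CliqueFree 3)
    (hd : ∀ v, 4 ≤ (G.neighborSet v).ncard) (c : Code) (hc : IsCode G c) :
    Valid c ∧ Assembled c := by
  classical
  have hadj : ∀ {u v : ℕ}, Adj c u v → ∃ (hu : u < n) (hv : v < n), G.Adj ⟨u, hu⟩ ⟨v, hv⟩ := by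
    intro u v h
    obtain ⟨i, hi⟩ := h.2
    exact hc.adj h.1 hi.1 hi.2
  have h4 : ∀ v (hv : v < n), 4 ≤ degree c v := by
    intro v hv
    have h2 := hc.degree ⟨v, hv⟩
    have h5 := hd ⟨v, hv⟩
    rw [Set.ncard_eq_toFinset_card', ← SimpleGraph.neighborFinset_def,
      SimpleGraph.card_neighborFinset_eq_degree] at h5
    have h6 : degree c v = G.degree ⟨v, hv⟩ := h2
    rw [h6]
    exact h5
  refine ⟨hc.valid, thin_assembled hc.valid ⟨fun u v huv => hc.joining huv, ?_, ?_, ?_, ?_⟩⟩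
  · intro v hv
    have := h4 v (by rw [← hc.1]; exact hv)
    omega
  · intro u v w h1 h2 h3
    obtain ⟨hu, hv, a1⟩ := hadj h1
    obtain ⟨_, hw, a2⟩ := hadj h2
    obtain ⟨_, _, a3⟩ := hadj h3
    exact hG _ (SimpleGraph.is3Clique_triple_iff.2 ⟨a1, a3.symm, a2⟩)
  · intro u v w z h1 _ _ _ _ _
    exact h4 u (hadj h1).1
  · intro u v w z y h1 _ _ _ _
    exact Or.inl (h4 u (hadj h1).1)

/-- the constant is polynomial in the maximal degree -/
theorem kk_le : ∃ K : ℕ, ∀ Δ : ℕ, 1 ≤ Δ → Sw.KK Δ ≤ K * Δ ^ 52 := by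
  refine ⟨(∑ s ∈ Finset.range 26, 2 ^ (Nat.choose (s + 1) 2)) + 53, fun Δ h => ?_⟩
  unfold Sw.KK
  rw [Nat.add_mul, Finset.sum_mul]
  refine Nat.add_le_add (Finset.sum_le_sum fun s hs => ?_) ?_
  · rw [Finset.mem_range] at hs
    refine Nat.mul_le_mul_left _ ?_
    rw [show Δ * Δ = Δ ^ 2 by ring, ← pow_mul]
    exact Nat.pow_le_pow_right h (by omega)
  · have h1 : Δ ≤ Δ ^ 52 := Nat.le_self_pow (by norm_num) _
    have h2 : Δ * Δ ≤ Δ ^ 52 := by
      rw [show Δ * Δ = Δ ^ 2 by ring]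
      exact Nat.pow_le_pow_right h (by norm_num)
    calc 2 * 26 * Δ + Δ * Δ ≤ 2 * 26 * Δ ^ 52 + Δ ^ 52 :=
          Nat.add_le_add (Nat.mul_le_mul_left _ h1) h2
      _ = 53 * Δ ^ 52 := by ring

theorem degrees_density : ∃ K : ℕ, ∀ (Δ n : ℕ) (δ : Fin n → ℕ),
    (∀ v, 3 ≤ δ v ∧ δ v ≤ Δ) →
    Nat.card {G : SimpleGraph (Fin n) // (∀ v, (G.neighborSet v).ncard = δ v) ∧
      ¬ ∀ c, IsCode G c → Valid c ∧ Assembled c} * n ≤
    K * Δ ^ 52 * Nat.card {G : SimpleGraph (Fin n) // ∀ v, (G.neighborSet v).ncard = δ v} := by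
  obtain ⟨K, hK⟩ := kk_le
  refine ⟨K, fun Δ n δ hδ => ?_⟩
  rcases Nat.eq_zero_or_pos n with rfl | hn
  · simp
  · have h1 : 1 ≤ Δ := by
      have := hδ ⟨0, hn⟩
      omega
    exact (regular_density' Δ n δ hδ).trans (Nat.mul_le_mul_right _ (hK Δ h1))

end Pool.Agent.Helper2GI
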