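import Mathlib
import Pool.Agent.Helper2GI.One

/-!
The word problem for graph incidence groups of coloured simple graphs which are nonpositively
curved in the combinatorial sense (`Thin`) is solvable by one algorithm.  This includes all
triangle-free simple graphs of minimum degree at least four and all graphs of girth at least six
and minimum degree at least three, with all colourings.
-/

set_option autoImplicit false

namespace Pool.Agent.Helper2GI.TriangleFree

open Pool.Agent.Helper2GI

theorem result : Solvable Thin := by
  refine solvable_of_bound Thin (fun q => q.2.length * (2 * q.1.2.1.length + 2 + 1) +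
    (2 * q.1.2.1.length + 2) + 3 + ((4 * (2 * q.1.2.1.length + 2) + 4) +
      q.2.length * (2 * q.1.2.1.length + 2) + 2)) ?_ ?_
  · have hM : Primrec (fun q : Code × List ℕ => 2 * q.1.2.1.length + 2) :=
      Primrec.nat_add.comp (Primrec.nat_mul.comp (Primrec.const 2)
        (primrec_elen.comp Primrec.fst)) (Primrec.const 2)
    have hn : Primrec (fun q : Code × List ℕ => q.2.length) :=
      Primrec.list_length.comp Primrec.snd
    refine Primrec.nat_add.comp (Primrec.nat_add.comp (Primrec.nat_add.comp
      (Primrec.nat_mul.comp hn (Primrec.nat_add.comp hM (Primrec.const 1))) hM)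
      (Primrec.const 3)) (Primrec.nat_add.comp (Primrec.nat_add.comp
      (Primrec.nat_add.comp (Primrec.nat_mul.comp (Primrec.const 4) hM) (Primrec.const 4))
      (Primrec.nat_mul.comp hn hM)) (Primrec.const 2))
  · intro c hV hT u hu
    have h1 := (realOf hV hT).derive u hu u.length le_rfl
    have h2 := Ru_reach h1
    show Relation.ReflTransGen (BStep (RL c) _) (u.map (enc c)) []
    rw [List.length_map]
    exact h2

end Pool.Agent.Helper2GI.TriangleFree
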